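import Pool.Agent.H14.CL.Blk

/-!
Project CL, second part, row D13: adding or deleting a vertex.
-/

set_option autoImplicit false

namespace Pool.Agent.H14.CL

open Finset

theorem addG_down_dl {n : ℕ} {L : Finset (Finset (Fin n))} (hD : Down L) (v : Fin n) :
    Down (dl L v) := by
  intro F hF G hG
  unfold dl at hF ⊢
  rw [mem_filter] at hF ⊢
  exact ⟨hD F hF.1 G hG, fun h => hF.2 (hG h)⟩

theorem addG_lk_pair {n : ℕ} {L : Finset (Finset (Fin n))} (hD : Down L) (hF : Flag L)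
    (v : Fin n) (a b : Fin n) (ha : {a} ∈ lk L v) (hb : {b} ∈ lk L v)
    (hab : ({a, b} : Finset (Fin n)) ∈ L) : ({a, b} : Finset (Fin n)) ∈ lk L v := by
  rw [mem_lk' hD] at ha hb ⊢
  have hav : v ≠ a := fun h => ha.1 (mem_singleton.2 h)
  have hbv : v ≠ b := fun h => hb.1 (mem_singleton.2 h)
  refine ⟨?_, ?_⟩
  · rw [mem_insert, mem_singleton]
    rintro (h | h)
    · exact hav h
    · exact hbv h
  have hva : ({v, a} : Finset (Fin n)) ∈ L := ha.2
  have hvb : ({v, b} : Finset (Fin n)) ∈ L := hb.2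
  have hv1 : ({v} : Finset (Fin n)) ∈ L := hD _ hva _ (by simp)
  have ha1 : ({a} : Finset (Fin n)) ∈ L := hD _ hva _ (by simp)
  have hb1 : ({b} : Finset (Fin n)) ∈ L := hD _ hvb _ (by simp)
  refine hF _ fun x hx y hy => ?_
  rw [mem_insert, mem_insert, mem_singleton] at hx hy
  rcases hx with rfl | rfl | rfl <;> rcases hy with rfl | rfl | rfl
  · rwa [pair_eq_singleton]
  · exact hva
  · exact hvb
  · rwa [pair_comm]
  · rwa [pair_eq_singleton]
  · exact hab
  · rwa [pair_comm]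
  · rwa [pair_comm]
  · rwa [pair_eq_singleton]

theorem addG_dl_pair {n : ℕ} {L : Finset (Finset (Fin n))}
    (v : Fin n) (a b : Fin n) (ha : {a} ∈ dl L v) (hb : {b} ∈ dl L v)
    (hab : ({a, b} : Finset (Fin n)) ∈ L) : ({a, b} : Finset (Fin n)) ∈ dl L v := by
  unfold dl at ha hb ⊢
  rw [mem_filter] at ha hb ⊢
  refine ⟨hab, ?_⟩
  rw [mem_insert, mem_singleton]
  rintro (h | h)
  · exact ha.2 (mem_singleton.2 h)
  · exact hb.2 (mem_singleton.2 h)

/-- the link with coefficients in the kernel -/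
theorem addG_lk {n R : ℕ} (h3 : StKz) {S : Type} [NormedAddCommGroup S] [InnerProductSpace ℝ S]
    {γ δ : (Fin R → ℝ) →ₗ[ℝ] S →ₗ[ℝ] S} (hC : Clif S γ δ) {L : Finset (Finset (Fin n))}
    (hD : Down L) (v : Fin n) (hv : {v} ∈ L) (E M : Fin n → Vec R)
    (hE : ∀ a b, Adj L a b → ip (E a) (E b) = 0) (hM : Dual E M)
    (hex : ∀ j, Ex (lk L v) ⊤ (fun v => opv γ δ (E v)) univ j) :
    ∀ j, Ex (lk L v) (KK ⊤ (fun v => opv γ δ (E v)) {v}) (fun v => opv γ δ (E v)) univ j := by
  have hvv : ip (E v) (E v) = 0 := hE v v (by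
    unfold Adj
    rwa [pair_eq_singleton])
  have hvm : ip (E v) (M v) = 1 / 2 := by
    have := hM v v
    rwa [if_pos rfl] at this
  refine h3 n ℝ S (lk L v) ⊤ (KK ⊤ (fun v => opv γ δ (E v)) {v}) (fun v => opv γ δ (E v))
    (opv γ δ (E v)) (opv γ δ (M v)) (down_lk hD v) ?_ ?_ ?_ hex
  · intro x
    rw [mem_KK]
    simp only [mem_singleton, forall_eq]
  · intro x _
    exact ⟨trivial, trivial, opv_sq hC hvv x, opv_half hC hvm x⟩
  · intro w hw x _
    rw [mem_lk' hD] at hw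
    have hvw : ip (E v) (E w) = 0 := hE v w hw.2
    have hne : w ≠ v := fun h => hw.1 (mem_singleton.2 h.symm)
    have hmw : ip (M v) (E w) = 0 := by
      have := hM v w
      rw [if_neg hne.symm] at this
      rw [ip_comm]
      exact this
    exact ⟨opv_anti hC hvw x, opv_anti hC hmw x⟩

/-- D13: adding or deleting a vertex -/
theorem st_addG (h1 : StAll) (h2 : StAddOp) (h3 : StKz) : StAddG := by
  intro n L v hD hF hv hlk
  have hlkX : Down (lk L v) ∧ Good (lk L v) ∧
      (∀ a b, {a} ∈ lk L v → {b} ∈ lk L v → Adj L a b → ({a, b} : Finset (Fin n)) ∈ lk L v) ∧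
      (∀ a b, ({a, b} : Finset (Fin n)) ∈ lk L v → Adj L a b) :=
    ⟨down_lk hD v, hlk, fun a b ha hb hab => addG_lk_pair hD hF v a b ha hb hab,
      fun a b hab => (mem_lk.1 hab).1⟩
  constructor
  · intro hdl
    have hX : GoodF {lk L v, dl L v} (Adj L) := by
      refine h1 n {lk L v, dl L v} (Adj L) fun L' hL' => ?_
      rw [mem_insert, mem_singleton] at hL'
      rcases hL' with rfl | rfl
      · exact hlkX
      · refine ⟨addG_down_dl hD v, hdl, fun a b ha hb hab => addG_dl_pair v a b ha hb hab,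
          fun a b hab => ?_⟩
        unfold dl at hab
        exact (mem_filter.1 hab).1
    obtain ⟨R₀, hR⟩ := hX
    refine ⟨R₀, fun R hRR S _ _ _ γ δ hC => ?_⟩
    obtain ⟨E, hE⟩ := hR R hRR S γ δ hC
    obtain ⟨M, hM⟩ := hE.dual
    refine ⟨E, hE.orth, hE.dual, fun L' hL' => ?_⟩
    rw [mem_singleton.1 hL']
    have hk := addG_lk h3 hC hD v hv E M hE.orth hM
      (hE.ex (lk L v) (mem_insert_self _ _))
    exact (h2 n ℝ S L ⊤ (fun v => opv γ δ (E v)) v hD hk).1
      (hE.ex (dl L v) (mem_insert_of_mem (mem_singleton_self _)))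
  · intro hL
    have hX : GoodF {lk L v, L} (Adj L) := by
      refine h1 n {lk L v, L} (Adj L) fun L' hL' => ?_
      rw [mem_insert, mem_singleton] at hL'
      rcases hL' with rfl | rfl
      · exact hlkX
      · exact ⟨hD, hL, fun a b _ _ hab => hab, fun a b hab => hab⟩
    obtain ⟨R₀, hR⟩ := hX
    refine ⟨R₀, fun R hRR S _ _ _ γ δ hC => ?_⟩
    obtain ⟨E, hE⟩ := hR R hRR S γ δ hC
    obtain ⟨M, hM⟩ := hE.dual
    refine ⟨E, fun a b hab => hE.orth a b ?_, hE.dual, fun L' hL' => ?_⟩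
    · unfold Adj dl at hab
      exact (mem_filter.1 hab).1
    rw [mem_singleton.1 hL']
    have hk := addG_lk h3 hC hD v hv E M hE.orth hM
      (hE.ex (lk L v) (mem_insert_self _ _))
    exact (h2 n ℝ S L ⊤ (fun v => opv γ δ (E v)) v hD hk).2
      (hE.ex L (mem_insert_of_mem (mem_singleton_self _)))

end Pool.Agent.H14.CL
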