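import Pool.Agent.H14.CL.Stm3
import Pool.Agent.H14.CL.AddG

/-!
Project CL, part 3, rows F13, F14: adding or deleting a vertex, configurations, with an index.
-/

set_option autoImplicit false

namespace Pool.Agent.H14.CL

open Finset

/-- the link with coefficients in the kernel -/
theorem addGK_lk {n R k : ℕ} (h3 : StKzK) {S : Type} [NormedAddCommGroup S]
    [InnerProductSpace ℝ S]
    {γ δ : (Fin R → ℝ) →ₗ[ℝ] S →ₗ[ℝ] S} (hC : Clif S γ δ) {L : Finset (Finset (Fin n))}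
    (hD : Down L) (v : Fin n) (hv : {v} ∈ L) (E M : Fin n → Vec R)
    (hE : ∀ a b, Adj L a b → ip (E a) (E b) = 0) (hM : Dual E M)
    (hex : ∀ j, k ≤ j → Ex (lk L v) ⊤ (fun v => opv γ δ (E v)) univ j) :
    ∀ j, k ≤ j →
      Ex (lk L v) (KK ⊤ (fun v => opv γ δ (E v)) {v}) (fun v => opv γ δ (E v)) univ j := by
  have hvv : ip (E v) (E v) = 0 := hE v v (by
    unfold Adj
    rwa [pair_eq_singleton])
  have hvm : ip (E v) (M v) = 1 / 2 := by
    have := hM v v
    rwa [if_pos rfl] at this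
  refine h3 n k ℝ S (lk L v) ⊤ (KK ⊤ (fun v => opv γ δ (E v)) {v}) (fun v => opv γ δ (E v))
    (opv γ δ (E v)) (opv γ δ (M v)) (down_lk hD v) ?_ ?_ ?_ hex
  · intro x
    rw [mem_KK]
    simp only [mem_singleton, forall_eq]
  · intro x _
    exact ⟨trivial, trivial, opv_sq hC hvv x, opv_half hC hvm x⟩
  · intro w hw x _
    rw [mem_lk' hD] at hw
    have hvw : ip (E v) (E w) = 0 := hE v w hw.2
    have hne : w ≠ v := fun h => hw.1 (mem_singleton.2 h.symm)
    have hmw : ip (M v) (E w) = 0 := by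
      have := hM v w
      rw [if_neg hne.symm] at this
      rw [ip_comm]
      exact this
    exact ⟨opv_anti hC hvw x, opv_anti hC hmw x⟩

/-- the conditions of the family for the link -/
theorem addGK_lkX {n : ℕ} {L : Finset (Finset (Fin n))} (hD : Down L) (hF : Flag L) (v : Fin n)
    (k : ℕ) (hlk : GK k (lk L v)) :
    Down (lk L v) ∧ GK k (lk L v) ∧
      (∀ a b, {a} ∈ lk L v → {b} ∈ lk L v → Adj L a b → ({a, b} : Finset (Fin n)) ∈ lk L v) ∧
      (∀ a b, ({a, b} : Finset (Fin n)) ∈ lk L v → Adj L a b) :=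
  ⟨down_lk hD v, hlk, fun a b ha hb hab => addG_lk_pair hD hF v a b ha hb hab,
    fun _ _ hab => (mem_lk.1 hab).1⟩

/-- F13: adding a vertex -/
theorem st_addGK (h1 : StAllK) (h2 : StAddK) (h3 : StKzK) : StAddGK := by
  intro n k L v hD hF hv hlk hdl
  have hX : GoodK {(k - 1, lk L v), (k, dl L v)} (Adj L) := by
    refine h1 n {(k - 1, lk L v), (k, dl L v)} (Adj L) fun p hp => ?_
    rw [mem_insert, mem_singleton] at hp
    rcases hp with rfl | rfl
    · exact addGK_lkX hD hF v (k - 1) hlk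
    · refine ⟨addG_down_dl hD v, hdl, fun a b ha hb hab => addG_dl_pair v a b ha hb hab,
        fun a b hab => ?_⟩
      unfold dl at hab
      exact (mem_filter.1 hab).1
  obtain ⟨R₀, hR⟩ := hX
  refine ⟨R₀, fun R hRR S _ _ _ γ δ hC => ?_⟩
  obtain ⟨E, hE⟩ := hR R hRR S γ δ hC
  obtain ⟨M, hM⟩ := hE.dual
  refine ⟨E, hE.orth, hE.dual, fun p hp => ?_⟩
  rw [mem_singleton.1 hp]
  have hk := addGK_lk h3 hC hD v hv E M hE.orth hM
    (hE.ex (k - 1, lk L v) (mem_insert_self _ _))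
  exact h2 n k ℝ S L ⊤ (fun v => opv γ δ (E v)) v hD hk
    (hE.ex (k, dl L v) (mem_insert_of_mem (mem_singleton_self _)))

/-- F14: deleting a vertex -/
theorem st_delGK (h1 : StAllK) (h2 : StDelK) (h3 : StKzK) : StDelGK := by
  intro n k L v hD hF hv hlk hL
  have hX : GoodK {(k, lk L v), (k, L)} (Adj L) := by
    refine h1 n {(k, lk L v), (k, L)} (Adj L) fun p hp => ?_
    rw [mem_insert, mem_singleton] at hp
    rcases hp with rfl | rfl
    · exact addGK_lkX hD hF v k hlk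
    · exact ⟨hD, hL, fun a b _ _ hab => hab, fun a b hab => hab⟩
  obtain ⟨R₀, hR⟩ := hX
  refine ⟨R₀, fun R hRR S _ _ _ γ δ hC => ?_⟩
  obtain ⟨E, hE⟩ := hR R hRR S γ δ hC
  obtain ⟨M, hM⟩ := hE.dual
  refine ⟨E, fun a b hab => hE.orth a b ?_, hE.dual, fun p hp => ?_⟩
  · unfold Adj dl at hab
    exact (mem_filter.1 hab).1
  rw [mem_singleton.1 hp]
  have hk := addGK_lk h3 hC hD v hv E M hE.orth hM
    (hE.ex (k, lk L v) (mem_insert_self _ _))
  exact h2 n k ℝ S L ⊤ (fun v => opv γ δ (E v)) v hD hk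
    (hE.ex (k, L) (mem_insert_of_mem (mem_singleton_self _)))

end Pool.Agent.H14.CL
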