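import Pool.Agent.H14.CL.Stm

/-!
Project CL, rows CH1 and CH2: removing a vertex.
-/

set_option autoImplicit false

namespace Pool.Agent.H14.CL

open Finset

section basics

variable {n : ℕ} {K : Type*} [Field K] {S : Type*} [AddCommGroup S] [Module K S]

theorem bd_bd (x : Finset (Fin n) → S) : bd K (bd K x) = 0 := by
  funext G
  rw [bd_apply]
  simp only [bd_apply, Pi.zero_apply, Finset.smul_sum]
  rw [Finset.sum_sigma']
  refine Finset.sum_involution (fun p _ => ⟨p.2, p.1⟩) ?_ ?_ ?_ ?_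
  · rintro ⟨u, v⟩ h
    simp only [mem_sigma, mem_filter, mem_univ, true_and, mem_insert, not_or] at h
    obtain ⟨hu, hvu, hv⟩ := h
    have h1 := tau_swap K (Ne.symm hvu) hu hv
    have h2 : insert v (insert u G) = insert u (insert v G) := Finset.insert_comm _ _ _
    simp only
    rw [h2, smul_smul, smul_smul, ← add_smul]
    have h3 : tau K u G * tau K v (insert u G) + tau K v G * tau K u (insert v G) = 0 := by
      linear_combination h1
    rw [h3, zero_smul]
  · rintro ⟨u, v⟩ h _ he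
    simp only [mem_sigma, mem_filter, mem_univ, true_and, mem_insert, not_or] at h
    exact h.2.1 (congrArg Sigma.fst he)
  · rintro ⟨u, v⟩ h
    simp only [mem_sigma, mem_filter, mem_univ, true_and, mem_insert, not_or] at h ⊢
    exact ⟨h.2.2, fun he => h.2.1 he.symm, h.1⟩
  · rintro ⟨u, v⟩ _
    rfl

theorem bd_res (u : Fin n) (x : Finset (Fin n) → S) :
    bd K (res K u x) = - res K u (bd K x) := by
  funext G
  rw [bd_apply, Pi.neg_apply, res_apply, bd_apply]
  by_cases hu : u ∈ G
  · rw [if_pos hu, neg_zero]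
    refine Finset.sum_eq_zero fun v _ => ?_
    rw [res_apply, if_pos (mem_insert_of_mem hu), smul_zero]
  · rw [if_neg hu, Finset.smul_sum, ← Finset.sum_neg_distrib]
    have hsub : univ.filter (fun v => v ∉ insert u G) ⊆ univ.filter (fun v => v ∉ G) := by
      intro v
      simp only [mem_filter, mem_univ, true_and, mem_insert, not_or]
      exact fun h => h.2
    rw [← Finset.sum_subset hsub]
    · refine Finset.sum_congr rfl fun v hv => ?_
      simp only [mem_filter, mem_univ, true_and, mem_insert, not_or] at hv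
      have h1 : u ∉ insert v G := by
        rw [mem_insert, not_or]
        exact ⟨fun h => hv.1 h.symm, hu⟩
      rw [res_apply, if_neg h1, Finset.insert_comm u v G, smul_smul, smul_smul, ← neg_smul]
      have h2 := tau_swap K (Ne.symm hv.1) hu hv.2
      congr 1
      linear_combination h2
    · intro v hv hv'
      simp only [mem_filter, mem_univ, true_and, mem_insert, not_or, not_and, not_not] at hv hv'
      have h1 : v = u := by
        by_contra h
        exact hv (hv' h)
      rw [res_apply, h1, if_pos (mem_insert_self _ _), smul_zero]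

theorem res_con {u : Fin n} {y : Finset (Fin n) → S} (hy : ∀ G, u ∈ G → y G = 0) :
    res K u (con K u y) = y := by
  funext G
  rw [res_apply]
  by_cases hu : u ∈ G
  · rw [if_pos hu, hy G hu]
  · rw [if_neg hu, con_apply, if_pos (mem_insert_self _ _), erase_insert hu, tau_insert_self,
      smul_smul, tau_sq, one_smul]

variable {Δ : Finset (Finset (Fin n))} {U : Submodule K S} {e : Fin n → S →ₗ[K] S}

theorem bd_mem_Ch (hd : Down Δ) {A : Finset (Fin n)} {j : ℕ} {x : Finset (Fin n) → S}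
    (hx : x ∈ Ch Δ U e A (j + 1)) : bd K x ∈ Ch Δ U e A j := by
  rw [mem_Ch] at hx ⊢
  intro G
  rw [bd_apply]
  refine ⟨Submodule.sum_mem _ fun u _ => Submodule.smul_mem _ _ ?_, fun h => ?_⟩
  · exact KK_anti U e (subset_insert u G) (hx (insert u G)).1
  · refine Finset.sum_eq_zero fun u hu => ?_
    simp only [mem_filter, mem_univ, true_and] at hu
    rw [(hx (insert u G)).2, smul_zero]
    rintro ⟨h1, h2, h3⟩
    refine h ⟨hd _ h1 _ (subset_insert _ _), (subset_insert _ _).trans h2, ?_⟩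
    rw [card_insert_of_notMem hu] at h3
    omega

theorem res_mem_Ch (hd : Down Δ) {A : Finset (Fin n)} {j : ℕ} {x : Finset (Fin n) → S}
    (u : Fin n) (hx : x ∈ Ch Δ U e A (j + 1)) :
    res K u x ∈ Ch (lk Δ u) (KK U e {u}) e (A.erase u) j := by
  rw [mem_Ch] at hx ⊢
  intro G
  rw [res_apply]
  by_cases hu : u ∈ G
  · rw [if_pos hu]
    exact ⟨Submodule.zero_mem _, fun _ => rfl⟩
  · rw [if_neg hu]
    refine ⟨Submodule.smul_mem _ _ ?_, fun h => ?_⟩
    · rw [KK_single_KK]
      exact (hx (insert u G)).1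
    · rw [(hx (insert u G)).2, smul_zero]
      rintro ⟨h1, h2, h3⟩
      refine h ⟨(mem_lk' hd).mpr ⟨hu, h1⟩, ?_, ?_⟩
      · intro v hv
        exact mem_erase.mpr ⟨fun h4 => hu (h4 ▸ hv), h2 (mem_insert_of_mem hv)⟩
      · rw [card_insert_of_notMem hu] at h3
        omega

theorem con_mem_Ch {A : Finset (Fin n)} {j : ℕ} {y : Finset (Fin n) → S} {u : Fin n}
    (hu : u ∈ A) (hy : y ∈ Ch (lk Δ u) (KK U e {u}) e (A.erase u) j) :
    con K u y ∈ Ch Δ U e A (j + 1) := by
  rw [mem_Ch] at hy ⊢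
  intro G
  rw [con_apply]
  by_cases hG : u ∈ G
  · rw [if_pos hG]
    refine ⟨Submodule.smul_mem _ _ ?_, fun h => ?_⟩
    · have h1 := (hy (G.erase u)).1
      rw [KK_single_KK, insert_erase hG] at h1
      exact h1
    · rw [(hy (G.erase u)).2, smul_zero]
      rintro ⟨h1, h2, h3⟩
      have h4 := (mem_lk.1 h1).2.2
      rw [insert_erase hG] at h4
      refine h ⟨h4, ?_, ?_⟩
      · intro v hv
        by_cases hvu : v = u
        · rw [hvu]; exact hu
        · exact (mem_erase.mp (h2 (mem_erase.mpr ⟨hvu, hv⟩))).2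
      · rw [card_erase_of_mem hG] at h3
        have : 0 < G.card := card_pos.mpr ⟨u, hG⟩
        omega
  · rw [if_neg hG]
    exact ⟨Submodule.zero_mem _, fun _ => rfl⟩

theorem lk_vanish {A : Finset (Fin n)} {j : ℕ} {y : Finset (Fin n) → S} {u : Fin n}
    {U' : Submodule K S} (hy : y ∈ Ch (lk Δ u) U' e A j) : ∀ G, u ∈ G → y G = 0 := by
  intro G hG
  refine (mem_Ch.mp hy G).2 ?_
  rintro ⟨h1, _, _⟩
  exact (mem_lk.1 h1).2.1 hG

theorem Ch_mono {A A' : Finset (Fin n)} (h : A ⊆ A') {j : ℕ} {x : Finset (Fin n) → S}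
    (hx : x ∈ Ch Δ U e A j) : x ∈ Ch Δ U e A' j := by
  rw [mem_Ch] at hx ⊢
  exact fun G => ⟨(hx G).1, fun h1 => (hx G).2 fun h2 => h1 ⟨h2.1, h2.2.1.trans h, h2.2.2⟩⟩

theorem Ch_erase {A : Finset (Fin n)} {j : ℕ} {x : Finset (Fin n) → S} {u : Fin n}
    (hx : x ∈ Ch Δ U e A j) (h : res K u x = 0) : x ∈ Ch Δ U e (A.erase u) j := by
  rw [mem_Ch] at hx ⊢
  refine fun G => ⟨(hx G).1, fun h1 => ?_⟩
  by_cases hG : u ∈ G
  · have h2 := congrFun h (G.erase u)
    rw [res_apply, if_neg (notMem_erase _ _), insert_erase hG, Pi.zero_apply] at h2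
    have h3 := congrArg (fun t => tau K u (G.erase u) • t) h2
    simp only [smul_smul, tau_sq, one_smul, smul_zero] at h3
    exact h3
  · refine (hx G).2 fun h2 => h1 ⟨h2.1, ?_, h2.2.2⟩
    intro v hv
    exact mem_erase.mpr ⟨fun h4 => hG (h4 ▸ hv), h2.2.1 hv⟩

theorem Ex_lk_nonvertex (hd : Down Δ) {u : Fin n} (hu : ({u} : Finset (Fin n)) ∉ Δ)
    (U' : Submodule K S) (A : Finset (Fin n)) (j : ℕ) : Ex (lk Δ u) U' e A j := by
  intro x hx _
  refine ⟨0, Submodule.zero_mem _, ?_⟩
  rw [map_zero]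
  funext G
  refine ((mem_Ch.mp hx G).2 ?_).symm
  rw [lk_eq_empty hd hu]
  rintro ⟨h1, _⟩
  exact notMem_empty _ h1

/-- one vertex up -/
theorem Ex_step (hd : Down Δ) {A : Finset (Fin n)} {j : ℕ} {u : Fin n} (hu : u ∈ A)
    (h1 : Ex Δ U e (A.erase u) (j + 1)) (h2 : Ex (lk Δ u) (KK U e {u}) e (A.erase u) j) :
    Ex Δ U e A (j + 1) := by
  intro x hx hc
  obtain ⟨z, hz, hzb⟩ := h2 (res K u x) (res_mem_Ch hd u hx) (by rw [bd_res, hc, map_zero, neg_zero])
  have hcz : con K u z ∈ Ch Δ U e A (j + 1 + 1) := con_mem_Ch hu hz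
  have h3 : res K u (x + bd K (con K u z)) = 0 := by
    have h4 := bd_res (K := K) u (con K u z)
    rw [res_con (lk_vanish hz)] at h4
    rw [map_add, ← hzb, h4, neg_add_cancel]
  have h5 : x + bd K (con K u z) ∈ Ch Δ U e A (j + 1) :=
    Submodule.add_mem _ hx (bd_mem_Ch hd hcz)
  obtain ⟨y, hy, hyb⟩ := h1 _ (Ch_erase h5 h3) (by rw [map_add, hc, bd_bd, add_zero])
  refine ⟨y - con K u z, Submodule.sub_mem _ (Ch_mono (erase_subset _ _) hy) hcz, ?_⟩
  rw [map_sub, hyb, add_sub_cancel_right]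

/-- one vertex down -/
theorem Bd_step (hd : Down Δ) {A : Finset (Fin n)} {j : ℕ} {u : Fin n} (hu : u ∈ A)
    (h2 : Ex (lk Δ u) (KK U e {u}) e (A.erase u) j) {x : Finset (Fin n) → S}
    (hx : x ∈ Ch Δ U e (A.erase u) j) (hb : Bd Δ U e A j x) : Bd Δ U e (A.erase u) j x := by
  obtain ⟨y, hy, hyb⟩ := hb
  have hrx : res K u x = 0 := by
    funext G
    rw [res_apply, Pi.zero_apply]
    split_ifs with hG
    · rfl
    · rw [(mem_Ch.mp hx (insert u G)).2, smul_zero]
      rintro ⟨_, h3, _⟩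
      exact (mem_erase.mp (h3 (mem_insert_self u G))).1 rfl
  obtain ⟨z, hz, hzb⟩ := h2 (res K u y) (res_mem_Ch hd u hy)
    (by rw [bd_res, hyb, hrx, neg_zero])
  have hcz : con K u z ∈ Ch Δ U e A (j + 1 + 1) := con_mem_Ch hu hz
  have h3 : res K u (y + bd K (con K u z)) = 0 := by
    have h4 := bd_res (K := K) u (con K u z)
    rw [res_con (lk_vanish hz)] at h4
    rw [map_add, ← hzb, h4, neg_add_cancel]
  refine ⟨y + bd K (con K u z), Ch_erase (Submodule.add_mem _ hy (bd_mem_Ch hd hcz)) h3, ?_⟩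
  rw [map_add, bd_bd, add_zero, hyb]

end basics

theorem st_up : StUp := by
  intro n K S _ _ _ Δ U e d hd hP A
  induction A using Finset.induction_on with
  | empty =>
    intro j hj x hx _
    refine ⟨0, Submodule.zero_mem _, ?_⟩
    rw [map_zero]
    funext G
    refine ((mem_Ch.mp hx G).2 ?_).symm
    rintro ⟨_, h2, h3⟩
    rw [subset_empty.mp h2, card_empty] at h3
    omega
  | insert u A hu ih =>
    intro j hj
    obtain ⟨i, rfl⟩ : ∃ i, j = i + 1 := ⟨j - 1, by omega⟩
    refine Ex_step hd (mem_insert_self u A) ?_ ?_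
    · rw [erase_insert hu]
      exact ih (i + 1) hj
    · by_cases hv : ({u} : Finset (Fin n)) ∈ Δ
      · exact hP u hv _ i (by omega)
      · exact Ex_lk_nonvertex hd hv _ _ _

theorem st_inj : StInj := by
  intro n K S _ _ _ Δ U e d hd hP j hj
  have key : ∀ (B A : Finset (Fin n)), ∀ x ∈ Ch Δ U e A j, Bd Δ U e (A ∪ B) j x →
      Bd Δ U e A j x := by
    intro B
    induction B using Finset.induction_on with
    | empty =>
      intro A x _ hb
      rwa [union_empty] at hb
    | insert u B _ ih =>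
      intro A x hx hb
      refine ih A x hx ?_
      rw [union_insert] at hb
      by_cases hu : u ∈ A ∪ B
      · rwa [insert_eq_of_mem hu] at hb
      · have he : (insert u (A ∪ B)).erase u = A ∪ B := erase_insert hu
        have h2 : Ex (lk Δ u) (KK U e {u}) e ((insert u (A ∪ B)).erase u) j := by
          by_cases hv : ({u} : Finset (Fin n)) ∈ Δ
          · exact hP u hv _ j hj
          · exact Ex_lk_nonvertex hd hv _ _ _
        have h3 := Bd_step hd (mem_insert_self u (A ∪ B)) h2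
          (x := x) (by rw [he]; exact Ch_mono subset_union_left hx) hb
        rwa [he] at h3
  intro A A' hAA x hx _ hb
  refine key A' A x hx ?_
  rwa [union_eq_right.mpr hAA]

end Pool.Agent.H14.CL
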