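import Pool.Agent.H14.CL.Stm2
import Pool.Agent.H14.CL.ChA

/-!
Project CL, part 2, row D2: adding or deleting a vertex.
-/

set_option autoImplicit false

namespace Pool.Agent.H14.CL

open Finset

section basics

variable {n : ℕ} {K : Type*} [Field K] {S : Type*} [AddCommGroup S] [Module K S]
  {L : Finset (Finset (Fin n))} {U : Submodule K S} {e : Fin n → S →ₗ[K] S}

theorem addOp_mem_Ch_congr {L' : Finset (Finset (Fin n))} {A A' : Finset (Fin n)} {j : ℕ}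
    (h : ∀ G : Finset (Fin n), G.card = j → ((G ∈ L ∧ G ⊆ A) ↔ (G ∈ L' ∧ G ⊆ A')))
    (x : Finset (Fin n) → S) : x ∈ Ch L U e A j ↔ x ∈ Ch L' U e A' j := by
  rw [mem_Ch, mem_Ch]
  refine forall_congr' fun G => and_congr_right fun _ => ?_
  have h1 : (G ∈ L ∧ G ⊆ A ∧ G.card = j) ↔ (G ∈ L' ∧ G ⊆ A' ∧ G.card = j) := by
    constructor
    · rintro ⟨a, b, c⟩
      exact ⟨((h G c).1 ⟨a, b⟩).1, ((h G c).1 ⟨a, b⟩).2, c⟩
    · rintro ⟨a, b, c⟩
      exact ⟨((h G c).2 ⟨a, b⟩).1, ((h G c).2 ⟨a, b⟩).2, c⟩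
  rw [h1]

/-- chains of the deletion -/
theorem mem_Ch_dl (v : Fin n) (j : ℕ) (x : Finset (Fin n) → S) :
    x ∈ Ch (dl L v) U e univ j ↔ x ∈ Ch L U e (univ.erase v) j := by
  refine addOp_mem_Ch_congr (fun G _ => ?_) x
  unfold dl
  rw [mem_filter]
  constructor
  · rintro ⟨⟨h1, h2⟩, _⟩
    exact ⟨h1, fun w hw => mem_erase.2 ⟨fun h => h2 (h ▸ hw), mem_univ _⟩⟩
  · rintro ⟨h1, h2⟩
    exact ⟨⟨h1, fun h => (mem_erase.1 (h2 h)).1 rfl⟩, subset_univ _⟩

/-- chains of the link -/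
theorem mem_Ch_lk_erase (v : Fin n) (U' : Submodule K S) (j : ℕ) (x : Finset (Fin n) → S) :
    x ∈ Ch (lk L v) U' e univ j ↔ x ∈ Ch (lk L v) U' e (univ.erase v) j := by
  refine addOp_mem_Ch_congr (fun G _ => ?_) x
  constructor
  · rintro ⟨h1, _⟩
    exact ⟨h1, fun w hw => mem_erase.2 ⟨fun h => (mem_lk.1 h1).2.1 (h ▸ hw), mem_univ _⟩⟩
  · rintro ⟨h1, _⟩
    exact ⟨h1, subset_univ _⟩

theorem Bd_dl (v : Fin n) (j : ℕ) (x : Finset (Fin n) → S) :
    Bd (dl L v) U e univ j x ↔ Bd L U e (univ.erase v) j x :=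
  exists_congr fun y => and_congr_left fun _ => mem_Ch_dl v (j + 1) y

theorem Ex_dl (v : Fin n) (j : ℕ) :
    Ex (dl L v) U e univ j ↔ Ex L U e (univ.erase v) j := by
  unfold Ex
  refine forall_congr' fun x => ?_
  rw [mem_Ch_dl, Bd_dl]

theorem Ex_lk_erase (v : Fin n) (U' : Submodule K S) (j : ℕ) :
    Ex (lk L v) U' e univ j ↔ Ex (lk L v) U' e (univ.erase v) j := by
  unfold Ex Bd
  refine forall_congr' fun x => ?_
  rw [mem_Ch_lk_erase]
  refine imp_congr_right fun _ => imp_congr_right fun _ => ?_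
  exact exists_congr fun y => and_congr_left fun _ => mem_Ch_lk_erase v U' (j + 1) y

end basics

/-- D2: adding or deleting a vertex -/
theorem st_addOp : StAddOp := by
  intro n K S _ _ _ L U e v hd hl
  constructor
  · intro h j
    rcases j with _ | j
    · intro x hx hc
      have hx' : x ∈ Ch L U e (univ.erase v) 0 := by
        refine (addOp_mem_Ch_congr (fun G hG => ?_) x).1 hx
        rw [card_eq_zero.1 hG]
        exact ⟨fun h1 => ⟨h1.1, empty_subset _⟩, fun h1 => ⟨h1.1, empty_subset _⟩⟩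
      obtain ⟨y, hy, hyb⟩ := (Ex_dl v 0).1 (h 0) x hx' hc
      exact ⟨y, Ch_mono (subset_univ _) hy, hyb⟩
    · exact Ex_step hd (mem_univ v) ((Ex_dl v (j + 1)).1 (h (j + 1)))
        ((Ex_lk_erase v _ j).1 (hl j))
  · intro h j x hx hc
    have hx' := (mem_Ch_dl v j x).1 hx
    refine (Bd_dl v j x).2 (Bd_step hd (mem_univ v) ((Ex_lk_erase v _ j).1 (hl j)) hx' ?_)
    exact h j x (Ch_mono (subset_univ _) hx') hc

end Pool.Agent.H14.CL
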