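import Pool.Agent.H14.CL.Stm3
import Pool.Agent.H14.CL.AddOp

/-!
Project CL, part 3, rows F2, F3: adding or deleting a vertex, with an index.
-/

set_option autoImplicit false

namespace Pool.Agent.H14.CL

open Finset

/-- F2: adding a vertex -/
theorem st_addK : StAddK := by
  intro n k K S _ _ _ L U e v hd hl h j hj
  rcases j with _ | j
  · intro x hx hc
    have hx' : x ∈ Ch L U e (univ.erase v) 0 := by
      refine (addOp_mem_Ch_congr (fun G hG => ?_) x).1 hx
      rw [card_eq_zero.1 hG]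
      exact ⟨fun h1 => ⟨h1.1, empty_subset _⟩, fun h1 => ⟨h1.1, empty_subset _⟩⟩
    obtain ⟨y, hy, hyb⟩ := (Ex_dl v 0).1 (h 0 hj) x hx' hc
    exact ⟨y, Ch_mono (subset_univ _) hy, hyb⟩
  · exact Ex_step hd (mem_univ v) ((Ex_dl v (j + 1)).1 (h (j + 1) hj))
      ((Ex_lk_erase v _ j).1 (hl j (Nat.sub_le_of_le_add hj)))

/-- F3: deleting a vertex -/
theorem st_delK : StDelK := by
  intro n k K S _ _ _ L U e v hd hl h j hj x hx hc
  have hx' := (mem_Ch_dl v j x).1 hx
  refine (Bd_dl v j x).2 (Bd_step hd (mem_univ v) ((Ex_lk_erase v _ j).1 (hl j hj)) hx' ?_)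
  exact h j hj x (Ch_mono (subset_univ _) hx') hc

end Pool.Agent.H14.CL
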