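import Pool.Agent.H14.CL.Stm

/-!
Project CL: removal of the far vertices, even case.
-/

set_option autoImplicit false

namespace Pool.Agent.H14.CL

open Finset

namespace ChEv

variable {n : ℕ} {K : Type*} [Field K] {S : Type*} [AddCommGroup S] [Module K S]

theorem bd_bd (x : Finset (Fin n) → S) : bd K (bd K x) = 0 := by
  funext G
  rw [bd_apply, Pi.zero_apply]
  have h1 : ∀ u ∈ univ.filter (fun u => u ∉ G), tau K u G • bd K x (insert u G) =
      ∑ w ∈ univ.filter (fun w => w ∉ insert u G),
        (tau K u G * tau K w (insert u G)) • x (insert w (insert u G)) := by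
    intro u _
    rw [bd_apply, Finset.smul_sum]
    refine Finset.sum_congr rfl fun w _ => ?_
    rw [mul_smul]
  rw [Finset.sum_congr rfl h1, Finset.sum_sigma']
  refine Finset.sum_involution (fun p _ => ⟨p.2, p.1⟩) ?_ ?_ ?_ ?_
  · rintro ⟨u, w⟩ hp
    simp only [mem_sigma, mem_filter, mem_univ, true_and, mem_insert, not_or] at hp
    have h2 := tau_swap K (N := G) (Ne.symm hp.2.1) hp.1 hp.2.2
    simp only
    rw [Finset.insert_comm u w G, ← add_smul]
    have h3 : tau K u G * tau K w (insert u G) + tau K w G * tau K u (insert w G) = 0 := by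
      linear_combination h2
    rw [h3, zero_smul]
  · rintro ⟨u, w⟩ hp _ h
    simp only [mem_sigma, mem_filter, mem_univ, true_and, mem_insert, not_or] at hp
    simp only [Sigma.mk.injEq] at h
    exact hp.2.1 h.1
  · rintro ⟨u, w⟩ hp
    simp only [mem_sigma, mem_filter, mem_univ, true_and, mem_insert, not_or] at hp ⊢
    exact ⟨hp.2.2, Ne.symm hp.2.1, hp.1⟩
  · rintro ⟨u, w⟩ _
    rfl

theorem bd_res (u : Fin n) (x : Finset (Fin n) → S) : bd K (res K u x) = - res K u (bd K x) := by
  funext G
  rw [Pi.neg_apply, bd_apply, res_apply]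
  by_cases hu : u ∈ G
  · rw [if_pos hu, neg_zero]
    refine Finset.sum_eq_zero fun w _ => ?_
    rw [res_apply, if_pos (mem_insert_of_mem hu), smul_zero]
  · rw [if_neg hu, bd_apply, Finset.smul_sum, ← Finset.sum_neg_distrib]
    symm
    have hsub : univ.filter (fun w => w ∉ insert u G) ⊆ univ.filter (fun w => w ∉ G) := by
      intro w hw
      simp only [mem_filter, mem_univ, true_and, mem_insert, not_or] at hw ⊢
      exact hw.2
    rw [← Finset.sum_subset hsub]
    · refine Finset.sum_congr rfl fun w hw => ?_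
      simp only [mem_filter, mem_univ, true_and, mem_insert, not_or] at hw
      have h1 : u ∉ insert w G := by
        rw [mem_insert, not_or]; exact ⟨Ne.symm hw.1, hu⟩
      rw [res_apply, if_neg h1, smul_smul, smul_smul, Finset.insert_comm w u G, ← neg_smul]
      congr 1
      have h2 := tau_swap K (N := G) (Ne.symm hw.1) hu hw.2
      linear_combination -h2
    · intro w hw hw'
      simp only [mem_filter, mem_univ, true_and, mem_insert, not_or, not_and, not_not] at hw hw'
      have h1 : w = u := by
        by_contra h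
        exact hw (hw' h)
      rw [res_apply, if_pos (by rw [h1]; exact mem_insert_self _ _), smul_zero]

theorem res_res (u w : Fin n) (x : Finset (Fin n) → S) :
    res K u (res K w x) = - res K w (res K u x) := by
  funext G
  rw [Pi.neg_apply, res_apply, res_apply, res_apply, res_apply]
  by_cases hu : u ∈ G
  · rw [if_pos hu, if_pos (mem_insert_of_mem hu)]
    simp
  · by_cases hw : w ∈ G
    · rw [if_neg hu, if_pos (mem_insert_of_mem hw), if_pos hw]
      simp
    · by_cases h : u = w
      · subst h
        simp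
      · rw [if_neg hu, if_neg hw, if_neg (by rw [mem_insert, not_or]; exact ⟨Ne.symm h, hw⟩),
          if_neg (by rw [mem_insert, not_or]; exact ⟨h, hu⟩), smul_smul, smul_smul,
          Finset.insert_comm u w G, ← neg_smul]
        congr 1
        have h2 := tau_swap K (N := G) h hu hw
        linear_combination h2

theorem res_con {u : Fin n} {y : Finset (Fin n) → S} (hy : ∀ G, u ∈ G → y G = 0) :
    res K u (con K u y) = y := by
  funext G
  rw [res_apply]
  by_cases hu : u ∈ G
  · rw [if_pos hu, hy G hu]
  · rw [if_neg hu, con_apply, if_pos (mem_insert_self _ _), tau_insert_self, smul_smul, tau_sq,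
      one_smul, erase_insert hu]

theorem con_res (u : Fin n) (x : Finset (Fin n) → S) (G : Finset (Fin n)) :
    con K u (res K u x) G = if u ∈ G then x G else 0 := by
  rw [con_apply]
  by_cases hu : u ∈ G
  · rw [if_pos hu, if_pos hu, res_apply, if_neg (notMem_erase _ _), tau_erase_self, smul_smul,
      tau_sq, one_smul, insert_erase hu]
  · rw [if_neg hu, if_neg hu]

theorem bd_con {u : Fin n} {y : Finset (Fin n) → S} (hy : ∀ G, u ∈ G → y G = 0) :
    bd K (con K u y) = y - con K u (bd K y) := by
  funext G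
  rw [Pi.sub_apply, con_apply, bd_apply]
  by_cases hu : u ∈ G
  · rw [if_pos hu, hy G hu, zero_sub, bd_apply, Finset.smul_sum, ← Finset.sum_neg_distrib]
    have hsub : univ.filter (fun w => w ∉ G) ⊆ univ.filter (fun w => w ∉ G.erase u) := by
      intro w hw
      simp only [mem_filter, mem_univ, true_and, mem_erase, not_and] at hw ⊢
      intro _
      exact hw
    rw [← Finset.sum_subset hsub]
    · refine Finset.sum_congr rfl fun w hw => ?_
      simp only [mem_filter, mem_univ, true_and] at hw
      have hwu : u ≠ w := fun h => hw (h ▸ hu)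
      rw [con_apply, if_pos (mem_insert_of_mem hu), smul_smul, smul_smul, ← neg_smul,
        erase_insert_of_ne hwu.symm]
      congr 1
      obtain ⟨G', hG', rfl⟩ : ∃ G', u ∉ G' ∧ insert u G' = G :=
        ⟨G.erase u, notMem_erase _ _, insert_erase hu⟩
      have hw' : w ∉ G' := fun h => hw (mem_insert_of_mem h)
      rw [erase_insert hG', tau_insert_self, Finset.insert_comm w u G', tau_insert_self]
      have h2 := tau_swap' K (N := G') hwu hG' hw'
      linear_combination h2
    · intro w hw hw'
      simp only [mem_filter, mem_univ, true_and, not_not] at hw hw'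
      rw [hy, smul_zero, smul_zero, neg_zero]
      have h1 : w = u := by
        by_contra h
        exact hw (mem_erase.2 ⟨h, hw'⟩)
      rw [h1]
      exact mem_insert_self _ _
  · rw [if_neg hu, sub_zero]
    rw [Finset.sum_eq_single u]
    · rw [con_apply, if_pos (mem_insert_self _ _), tau_insert_self, smul_smul, tau_sq,
        one_smul, erase_insert hu]
    · intro w hw hwu
      simp only [mem_filter, mem_univ, true_and] at hw
      rw [con_apply, if_neg (by rw [mem_insert, not_or]; exact ⟨Ne.symm hwu, hu⟩), smul_zero]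
    · intro h
      exact absurd (by simp [hu]) h

theorem ch_mono {Δ : Finset (Finset (Fin n))} {U : Submodule K S} {e : Fin n → S →ₗ[K] S}
    {A A' : Finset (Fin n)} {j : ℕ} (hA : A ⊆ A') {x : Finset (Fin n) → S}
    (hx : x ∈ Ch Δ U e A j) : x ∈ Ch Δ U e A' j := by
  rw [mem_Ch] at hx ⊢
  intro G
  exact ⟨(hx G).1, fun h => (hx G).2 fun h' => h ⟨h'.1, h'.2.1.trans hA, h'.2.2⟩⟩

theorem supp {Δ : Finset (Finset (Fin n))} {U : Submodule K S} {e : Fin n → S →ₗ[K] S}
    {A : Finset (Fin n)} {j : ℕ} {x : Finset (Fin n) → S}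
    (hx : x ∈ Ch Δ U e A j) {G : Finset (Fin n)} (h : x G ≠ 0) :
    G ∈ Δ ∧ G ⊆ A ∧ G.card = j := by
  by_contra hc
  exact h ((mem_Ch.1 hx G).2 hc)

theorem bd_mem {Δ : Finset (Finset (Fin n))} (hd : Down Δ) {U : Submodule K S}
    {e : Fin n → S →ₗ[K] S} {A : Finset (Fin n)} {j : ℕ} {x : Finset (Fin n) → S}
    (hx : x ∈ Ch Δ U e A (j + 1)) : bd K x ∈ Ch Δ U e A j := by
  rw [mem_Ch]
  intro G
  constructor
  · rw [bd_apply]
    refine Submodule.sum_mem _ fun u _ => Submodule.smul_mem _ _ ?_
    exact KK_anti U e (subset_insert u G) (mem_Ch.1 hx (insert u G)).1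
  · intro h
    rw [bd_apply]
    refine Finset.sum_eq_zero fun u hu => ?_
    simp only [mem_filter, mem_univ, true_and] at hu
    by_contra hne
    have h1 : x (insert u G) ≠ 0 := fun h0 => hne (by rw [h0, smul_zero])
    obtain ⟨h2, h3, h4⟩ := supp hx h1
    rw [card_insert_of_notMem hu] at h4
    exact h ⟨hd _ h2 _ (subset_insert _ _), (subset_insert _ _).trans h3, by omega⟩

theorem res_mem {Δ : Finset (Finset (Fin n))} (hd : Down Δ) {U : Submodule K S}
    {e : Fin n → S →ₗ[K] S} {A : Finset (Fin n)} {j : ℕ} {x : Finset (Fin n) → S}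
    (hx : x ∈ Ch Δ U e A (j + 1)) (u : Fin n) :
    res K u x ∈ Ch (lk Δ u) (KK U e {u}) e A j := by
  rw [mem_Ch]
  intro G
  constructor
  · rw [res_apply]
    split_ifs with hu
    · exact Submodule.zero_mem _
    · refine Submodule.smul_mem _ _ ?_
      rw [KK_single_KK]
      exact (mem_Ch.1 hx (insert u G)).1
  · intro h
    rw [res_apply]
    split_ifs with hu
    · rfl
    · by_contra hne
      have h1 : x (insert u G) ≠ 0 := fun h0 => hne (by rw [h0, smul_zero])
      obtain ⟨h2, h3, h4⟩ := supp hx h1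
      rw [card_insert_of_notMem hu] at h4
      exact h ⟨(mem_lk' hd).2 ⟨hu, h2⟩, (subset_insert _ _).trans h3, by omega⟩

theorem con_mem {Δ : Finset (Finset (Fin n))} (hd : Down Δ) {U : Submodule K S}
    {e : Fin n → S →ₗ[K] S} {A A' : Finset (Fin n)} {j : ℕ} {u : Fin n} {y : Finset (Fin n) → S}
    (hy : y ∈ Ch (lk Δ u) (KK U e {u}) e A j) (hA : insert u A ⊆ A') :
    con K u y ∈ Ch Δ U e A' (j + 1) := by
  rw [mem_Ch]
  intro G
  constructor
  · rw [con_apply]
    split_ifs with hu
    · refine Submodule.smul_mem _ _ ?_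
      have h1 := (mem_Ch.1 hy (G.erase u)).1
      rw [KK_single_KK, insert_erase hu] at h1
      exact h1
    · exact Submodule.zero_mem _
  · intro h
    rw [con_apply]
    split_ifs with hu
    · by_contra hne
      have h1 : y (G.erase u) ≠ 0 := fun h0 => hne (by rw [h0, smul_zero])
      obtain ⟨h2, h3, h4⟩ := supp hy h1
      rw [mem_lk' hd, insert_erase hu] at h2
      have h5 : G = insert u (G.erase u) := (insert_erase hu).symm
      refine h ⟨h2.2, ?_, ?_⟩
      · rw [h5]
        exact (insert_subset_insert u h3).trans hA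
      · rw [h5, card_insert_of_notMem (notMem_erase _ _), h4]
    · rfl

theorem lk_zero {Δ : Finset (Finset (Fin n))} {U : Submodule K S}
    {e : Fin n → S →ₗ[K] S} {A : Finset (Fin n)} {j : ℕ} {u : Fin n} {y : Finset (Fin n) → S}
    (hy : y ∈ Ch (lk Δ u) U e A j) : ∀ G, u ∈ G → y G = 0 := by
  intro G hG
  by_contra h
  exact (mem_lk.1 (supp hy h).1).2.1 hG

theorem off_mem {Δ : Finset (Finset (Fin n))} {U : Submodule K S}
    {e : Fin n → S →ₗ[K] S} {R : Finset (Fin n)} {j : ℕ} {z : Fin n} {x : Finset (Fin n) → S}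
    (hx : x ∈ Ch Δ U e (univ \ R) j) (hz : ∀ G, z ∈ G → x G = 0) :
    x ∈ Ch Δ U e (univ \ insert z R) j := by
  rw [mem_Ch]
  intro G
  refine ⟨(mem_Ch.1 hx G).1, fun h => ?_⟩
  by_contra hne
  obtain ⟨h1, h2, h3⟩ := supp hx hne
  refine h ⟨h1, ?_, h3⟩
  intro a ha
  have h4 := h2 ha
  simp only [mem_sdiff, mem_univ, true_and, mem_insert, not_or] at h4 ⊢
  refine ⟨fun h5 => hne (hz G (h5 ▸ ha)), h4⟩

end ChEv

open ChEv in
theorem st_liftEven : StLiftEven := by
  intro n K S _ _ _ Δ U e v k hd hv x hx hbx y hy hpair hinj hEx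
  -- the induction
  have key : ∀ R : Finset (Fin n),
      (∀ z ∈ R, ({z} : Finset (Fin n)) ∈ Δ ∧ ({z, v} : Finset (Fin n)) ∉ Δ) →
      ∃ (x' : Finset (Fin n) → S) (y' : Fin n → Finset (Fin n) → S),
        x' ∈ Ch Δ U e (univ \ R) (k + 1) ∧ bd K x' = 0 ∧
        (∃ b ∈ Ch Δ U e univ (k + 1 + 1), x - x' = bd K b) ∧
        (∀ u, {u} ∈ Δ → ({u, v} : Finset (Fin n)) ∉ Δ → u ∉ R →
          y' u ∈ Ch (lk Δ u) (KK U e {u}) e (univ \ R) (k + 1) ∧ bd K (y' u) = - res K u x') ∧
        (∀ u u', {u} ∈ Δ → ({u, v} : Finset (Fin n)) ∉ Δ → u ∉ R → {u'} ∈ lk Δ u →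
          ({u', v} : Finset (Fin n)) ∉ Δ → u' ∉ R →
          Bd (lk (lk Δ u) u') (KK (KK U e {u}) e {u'}) e univ k
            (res K u' (y' u) + res K u (y' u'))) := by
    intro R
    induction R using Finset.induction_on with
    | empty =>
      intro _
      refine ⟨x, y, ?_, hbx, ⟨0, Submodule.zero_mem _, by rw [sub_self, map_zero]⟩, ?_, ?_⟩
      · rw [sdiff_empty]; exact hx
      · intro u h1 h2 _
        rw [sdiff_empty]
        exact hy u h1 h2
      · intro u u' h1 h2 _ h3 h4 _
        exact hpair u u' h1 h2 h3 h4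
    | insert z R hzR ih =>
      intro hfar
      obtain ⟨x', y', hx', hbx', ⟨b, hb, hxb⟩, hy', hp'⟩ :=
        ih (fun w hw => hfar w (mem_insert_of_mem hw))
      obtain ⟨hz1, hz2⟩ := hfar z (mem_insert_self _ _)
      obtain ⟨hyz, hbyz⟩ := hy' z hz1 hz2 hzR
      have hyz0 := lk_zero hyz
      have hzins : insert z (univ \ R) ⊆ (univ \ R) := by
        intro a ha
        rw [mem_insert] at ha
        rcases ha with rfl | ha
        · simpa using hzR
        · exact ha
      have hcz : con K z (y' z) ∈ Ch Δ U e (univ \ R) (k + 1 + 1) := con_mem hd hyz hzins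
      set x'' := x' - bd K (con K z (y' z)) with hx''
      have hx''0 : ∀ G, z ∈ G → x'' G = 0 := by
        intro G hG
        rw [hx'', bd_con hyz0, hbyz, map_neg, Pi.sub_apply, Pi.sub_apply, Pi.neg_apply, con_res,
          if_pos hG, hyz0 G hG]
        abel
      have hx''m : x'' ∈ Ch Δ U e (univ \ insert z R) (k + 1) :=
        off_mem (Submodule.sub_mem _ hx' (bd_mem hd hcz)) hx''0
      have hbx'' : bd K x'' = 0 := by
        rw [hx'', map_sub, hbx', bd_bd, sub_zero]
      -- the corrected chains on the links, first step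
      set y1 : Fin n → Finset (Fin n) → S := fun u => y' u - res K u (con K z (y' z)) with hy1
      have hy1m : ∀ u, {u} ∈ Δ → ({u, v} : Finset (Fin n)) ∉ Δ → u ∉ insert z R →
          y1 u ∈ Ch (lk Δ u) (KK U e {u}) e (univ \ R) (k + 1) ∧
          bd K (y1 u) = - res K u x'' ∧
          res K z (y1 u) = res K z (y' u) + res K u (y' z) := by
        intro u h1 h2 h3
        rw [mem_insert, not_or] at h3
        obtain ⟨h4, h5⟩ := hy' u h1 h2 h3.2
        refine ⟨Submodule.sub_mem _ h4 (res_mem hd hcz u), ?_, ?_⟩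
        · simp only [hy1]
          rw [map_sub, h5, bd_res, hx'', map_sub]
          abel
        · simp only [hy1]
          rw [map_sub, res_res z u, res_con hyz0]
          abel
      have hc : ∀ u, ∃ c : Finset (Fin n) → S,
          ({u} ∈ Δ → ({u, v} : Finset (Fin n)) ∉ Δ → u ∉ insert z R →
          c ∈ Ch (lk (lk Δ u) z) (KK (KK U e {u}) e {z}) e (univ \ insert z R) (k + 1) ∧
            bd K c = res K z (y1 u)) := by
        intro u
        by_cases hcase : ({u} : Finset (Fin n)) ∈ Δ ∧ ({u, v} : Finset (Fin n)) ∉ Δ ∧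
            u ∉ insert z R
        · obtain ⟨h1, h2, h3⟩ := hcase
          obtain ⟨h4, h5, h6⟩ := hy1m u h1 h2 h3
          have h3' := h3
          rw [mem_insert, not_or] at h3'
          obtain ⟨h7, h8⟩ := hy' u h1 h2 h3'.2
          by_cases hzu : ({z} : Finset (Fin n)) ∈ lk Δ u
          · have h9 := hp' u z h1 h2 h3'.2 hzu hz2 hzR
            have h10 : res K z (y1 u) ∈
                Ch (lk (lk Δ u) z) (KK (KK U e {u}) e {z}) e (univ \ R) k :=
              res_mem (down_lk hd u) h4 z
            have h11 : res K z (y1 u) ∈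
                Ch (lk (lk Δ u) z) (KK (KK U e {u}) e {z}) e (univ \ insert z R) k :=
              off_mem h10 (lk_zero h10)
            have h12 : bd K (res K z (y1 u)) = 0 := by
              rw [bd_res, h5, map_neg, neg_neg, res_res]
              have h13 : res K z x'' = 0 := by
                funext G
                rw [res_apply, Pi.zero_apply]
                split_ifs
                · rfl
                · rw [hx''0 _ (mem_insert_self _ _), smul_zero]
              rw [h13, map_zero, neg_zero]
            rw [← h6] at h9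
            obtain ⟨c, hc1, hc2⟩ := hinj u z h1 hzu (univ \ insert z R) _ h11 h12 h9
            exact ⟨c, fun _ _ _ => ⟨hc1, hc2⟩⟩
          · refine ⟨0, fun _ _ _ => ⟨Submodule.zero_mem _, ?_⟩⟩
            rw [map_zero]
            funext G
            rw [res_apply, Pi.zero_apply]
            split_ifs with hzG
            · rfl
            · have h13 : y1 u (insert z G) = 0 := by
                by_contra hne
                have h14 := (supp h4 hne).1
                exact hzu (down_lk hd u _ h14 _ (by simp))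
              rw [h13, smul_zero]
        · exact ⟨0, fun h1 h2 h3 => absurd ⟨h1, h2, h3⟩ hcase⟩
      choose c hc using hc
      refine ⟨x'', fun u => y1 u + bd K (con K z (c u)), hx''m, hbx'', ?_, ?_, ?_⟩
      · refine ⟨b + con K z (y' z), Submodule.add_mem _ hb (ch_mono (subset_univ _) hcz), ?_⟩
        rw [map_add, ← hxb, hx'']
        abel
      · intro u h1 h2 h3
        obtain ⟨h4, h5, h6⟩ := hy1m u h1 h2 h3
        obtain ⟨h7, h8⟩ := hc u h1 h2 h3
        have h9 : con K z (c u) ∈ Ch (lk Δ u) (KK U e {u}) e (univ \ R) (k + 1 + 1) := by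
          refine con_mem (down_lk hd u) h7 ?_
          intro a ha
          simp only [mem_insert, mem_sdiff, mem_univ, true_and, not_or] at ha ⊢
          rcases ha with rfl | ha
          · exact hzR
          · exact ha.2
        refine ⟨off_mem (Submodule.add_mem _ h4 (bd_mem (down_lk hd u) h9)) ?_, ?_⟩
        · intro G hG
          have h10 := lk_zero h7
          change (y1 u + bd K (con K z (c u))) G = 0
          rw [bd_con h10, h8, Pi.add_apply, Pi.sub_apply, con_res, if_pos hG, h10 G hG]
          abel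
        · rw [map_add, bd_bd, add_zero, h5]
      · intro u u' h1 h2 h3 h4 h5 h6
        have h1' : ({u'} : Finset (Fin n)) ∈ Δ := lk_sub h4
        obtain ⟨h7, h8⟩ := hc u h1 h2 h3
        obtain ⟨h7', h8'⟩ := hc u' h1' h5 h6
        have h3' := h3
        have h6' := h6
        rw [mem_insert, not_or] at h3' h6'
        obtain ⟨q, hq1, hq2⟩ := hp' u u' h1 h2 h3'.2 h4 h5 h6'.2
        have h9 : con K z (c u) ∈ Ch (lk Δ u) (KK U e {u}) e univ (k + 1 + 1) :=
          con_mem (down_lk hd u) h7 (subset_univ _)
        have h9' : con K z (c u') ∈ Ch (lk Δ u') (KK U e {u'}) e univ (k + 1 + 1) :=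
          con_mem (down_lk hd u') h7' (subset_univ _)
        have h10 : res K u' (con K z (c u)) ∈
            Ch (lk (lk Δ u) u') (KK (KK U e {u}) e {u'}) e univ (k + 1) :=
          res_mem (down_lk hd u) h9 u'
        have h10' : res K u (con K z (c u')) ∈
            Ch (lk (lk Δ u) u') (KK (KK U e {u}) e {u'}) e univ (k + 1) := by
          rw [lk_comm Δ hd u u', KK_comm U e u u']
          exact res_mem (down_lk hd u') h9' u
        refine ⟨q - (res K u' (con K z (c u)) + res K u (con K z (c u'))),
          Submodule.sub_mem _ hq1 (Submodule.add_mem _ h10 h10'), ?_⟩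
        simp only [hy1]
        rw [map_sub, hq2, map_add, bd_res, bd_res]
        simp only [map_add, map_sub]
        rw [res_res u u' (con K z (y' z))]
        abel
  -- conclusion
  obtain ⟨x', y', hx', hbx', ⟨b, hb, hxb⟩, -, -⟩ := key
    (univ.filter (fun z => ({z} : Finset (Fin n)) ∈ Δ ∧ ({z, v} : Finset (Fin n)) ∉ Δ))
    (fun z hz => (mem_filter.1 hz).2)
  have hx'' : x' ∈ Ch Δ U e (nbr Δ v) (k + 1) := by
    rw [mem_Ch]
    intro G
    refine ⟨(mem_Ch.1 hx' G).1, fun h => ?_⟩
    by_contra hne
    obtain ⟨h1, h2, h3⟩ := supp hx' hne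
    refine h ⟨h1, ?_, h3⟩
    intro a ha
    have h4 := h2 ha
    simp only [mem_sdiff, mem_univ, true_and, mem_filter, not_and, not_not] at h4
    unfold nbr
    rw [mem_filter]
    exact ⟨mem_univ _, h4 (hd _ h1 _ (singleton_subset_iff.2 ha))⟩
  obtain ⟨y0, hy0, hy0'⟩ := hEx x' hx'' hbx'
  refine ⟨y0 + b, Submodule.add_mem _ (ch_mono (subset_univ _) hy0) hb, ?_⟩
  rw [map_add, hy0', ← hxb]
  abel

end Pool.Agent.H14.CL
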