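import Pool.Agent.H14.CL.Stm

/-!
Project CL, row CH4: lifting a chain away from the far vertices.
-/

set_option autoImplicit false

namespace Pool.Agent.H14.CL

open Finset

section

variable {n : ℕ} {K S : Type} [Field K] [AddCommGroup S] [Module K S]

theorem co_bd_bd (x : Finset (Fin n) → S) : bd K (bd K x) = 0 := by
  funext G
  rw [bd_apply]
  simp only [bd_apply, Pi.zero_apply, Finset.smul_sum]
  rw [Finset.sum_sigma']
  refine Finset.sum_involution (fun p _ => ⟨p.2, p.1⟩) ?_ ?_ ?_ ?_
  · rintro ⟨u, w⟩ hp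
    simp only [mem_sigma, mem_filter, mem_univ, true_and, mem_insert, not_or] at hp
    obtain ⟨hu, hwu, hw⟩ := hp
    show tau K u G • tau K w (insert u G) • x (insert w (insert u G)) +
      tau K w G • tau K u (insert w G) • x (insert u (insert w G)) = 0
    rw [Finset.insert_comm w u, smul_smul, smul_smul, ← add_smul]
    have h := tau_swap K hwu hw hu
    rw [mul_comm (tau K u G), h, mul_comm (tau K w G)]
    rw [neg_add_cancel, zero_smul]
  · rintro ⟨u, w⟩ hp _ heq
    simp only [mem_sigma, mem_filter, mem_univ, true_and, mem_insert, not_or] at hp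
    have h1 : w = u := congrArg Sigma.fst heq
    exact hp.2.1 h1
  · rintro ⟨u, w⟩ hp
    simp only [mem_sigma, mem_filter, mem_univ, true_and, mem_insert, not_or] at hp ⊢
    exact ⟨hp.2.2, fun h => hp.2.1 h.symm, hp.1⟩
  · rintro ⟨u, w⟩ _
    rfl

theorem co_bd_res (u : Fin n) (x : Finset (Fin n) → S) :
    bd K (res K u x) = -res K u (bd K x) := by
  funext G
  rw [Pi.neg_apply, bd_apply, res_apply]
  by_cases hu : u ∈ G
  · rw [if_pos hu, neg_zero]
    refine Finset.sum_eq_zero fun w _ => ?_
    rw [res_apply, if_pos (mem_insert_of_mem hu), smul_zero]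
  · rw [if_neg hu, bd_apply, Finset.smul_sum, ← Finset.sum_neg_distrib]
    have h1 : univ.filter (fun w => w ∉ G) = insert u (univ.filter (fun w => w ∉ insert u G)) := by
      ext w
      simp only [mem_filter, mem_univ, true_and, mem_insert, not_or]
      constructor
      · intro h
        by_cases hw : w = u
        · exact Or.inl hw
        · exact Or.inr ⟨hw, h⟩
      · rintro (h | h)
        · rw [h]; exact hu
        · exact h.2
    rw [h1, Finset.sum_insert (by simp)]
    rw [res_apply, if_pos (mem_insert_self _ _), smul_zero, zero_add]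
    refine Finset.sum_congr rfl fun w hw => ?_
    simp only [mem_filter, mem_univ, true_and, mem_insert, not_or] at hw
    have h2 : u ∉ insert w G := by
      rw [mem_insert, not_or]; exact ⟨fun h => hw.1 h.symm, hu⟩
    rw [res_apply, if_neg h2, Finset.insert_comm w u, smul_smul, smul_smul, ← neg_smul]
    congr 1
    have h := tau_swap K (fun h => hw.1 h.symm : u ≠ w) hu hw.2
    rw [mul_comm, h, mul_comm (tau K u G)]

theorem co_res_con (u : Fin n) (y : Finset (Fin n) → S) (hy : ∀ G, u ∈ G → y G = 0) :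
    res K u (con K u y) = y := by
  funext G
  rw [res_apply]
  by_cases hu : u ∈ G
  · rw [if_pos hu, hy G hu]
  · rw [if_neg hu, con_apply, if_pos (mem_insert_self _ _), tau_insert_self, smul_smul, tau_sq,
      one_smul, erase_insert hu]

variable {Δ : Finset (Finset (Fin n))} {U : Submodule K S} {e : Fin n → S →ₗ[K] S}

theorem co_Ch_mono {A A' : Finset (Fin n)} (h : A ⊆ A') {j : ℕ} {x : Finset (Fin n) → S}
    (hx : x ∈ Ch Δ U e A j) : x ∈ Ch Δ U e A' j := by
  intro G
  exact ⟨(hx G).1, fun hG => (hx G).2 fun h' => hG ⟨h'.1, h'.2.1.trans h, h'.2.2⟩⟩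

theorem co_res_mem (hd : Down Δ) {A : Finset (Fin n)} {j : ℕ} {x : Finset (Fin n) → S}
    (hx : x ∈ Ch Δ U e A (j + 1)) (u : Fin n) :
    res K u x ∈ Ch (lk Δ u) (KK U e {u}) e (A.erase u) j := by
  intro G
  rw [res_apply]
  by_cases hu : u ∈ G
  · rw [if_pos hu]
    exact ⟨(KK (KK U e {u}) e G).zero_mem, fun _ => rfl⟩
  · rw [if_neg hu]
    constructor
    · apply (KK (KK U e {u}) e G).smul_mem
      rw [KK_single_KK]
      exact (hx _).1
    · intro hG
      rw [(hx (insert u G)).2, smul_zero]
      rintro ⟨h1, h2, h3⟩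
      refine hG ⟨(mem_lk' hd).2 ⟨hu, h1⟩, ?_, ?_⟩
      · intro w hw
        exact mem_erase.2 ⟨fun h => hu (h ▸ hw), h2 (mem_insert_of_mem hw)⟩
      · rw [card_insert_of_notMem hu] at h3
        omega

theorem co_con_mem (hd : Down Δ) {A : Finset (Fin n)} {j : ℕ} {u : Fin n}
    {y : Finset (Fin n) → S} (hy : y ∈ Ch (lk Δ u) (KK U e {u}) e A j) :
    con K u y ∈ Ch Δ U e (insert u A) (j + 1) := by
  intro G
  rw [con_apply]
  by_cases hu : u ∈ G
  · rw [if_pos hu]
    constructor
    · apply (KK U e G).smul_mem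
      have h := (hy (G.erase u)).1
      rw [KK_single_KK, insert_erase hu] at h
      exact h
    · intro hG
      rw [(hy (G.erase u)).2, smul_zero]
      rintro ⟨h1, h2, h3⟩
      rw [mem_lk' hd, insert_erase hu] at h1
      refine hG ⟨h1.2, ?_, ?_⟩
      · intro w hw
        by_cases hwu : w = u
        · rw [hwu]; exact mem_insert_self _ _
        · exact mem_insert_of_mem (h2 (mem_erase.2 ⟨hwu, hw⟩))
      · rw [card_erase_of_mem hu] at h3
        have := card_pos.2 ⟨u, hu⟩
        omega
  · rw [if_neg hu]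
    exact ⟨(KK U e G).zero_mem, fun _ => rfl⟩

theorem co_bd_mem (hd : Down Δ) {A : Finset (Fin n)} {j : ℕ} {x : Finset (Fin n) → S}
    (hx : x ∈ Ch Δ U e A (j + 1)) : bd K x ∈ Ch Δ U e A j := by
  intro G
  rw [bd_apply]
  constructor
  · refine Submodule.sum_mem _ fun u _ => (KK U e G).smul_mem _ ?_
    exact KK_anti U e (subset_insert u G) (hx _).1
  · intro hG
    refine Finset.sum_eq_zero fun u hu => ?_
    simp only [mem_filter, mem_univ, true_and] at hu
    rw [(hx (insert u G)).2, smul_zero]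
    rintro ⟨h1, h2, h3⟩
    refine hG ⟨hd _ h1 _ (subset_insert _ _), (subset_insert _ _).trans h2, ?_⟩
    rw [card_insert_of_notMem hu] at h3
    omega

end

theorem st_liftOdd : StLiftOdd := by
  intro n K S _ _ _ Δ U e v k hd hv x hx hbx hfar hinj hex
  set Far : Finset (Fin n) :=
    univ.filter (fun u => ({u} : Finset (Fin n)) ∈ Δ ∧ ({u, v} : Finset (Fin n)) ∉ Δ) with hFar
  have key : ∀ R : Finset (Fin n), R ⊆ Far → ∃ x' ∈ Ch Δ U e (univ \ R) (k + 1), bd K x' = 0 ∧
      (∃ c ∈ Ch Δ U e univ (k + 1 + 1), x = x' + bd K c) ∧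
      ∀ u, ({u} : Finset (Fin n)) ∈ Δ → ({u, v} : Finset (Fin n)) ∉ Δ → u ∉ R →
        Bd (lk Δ u) (KK U e {u}) e univ k (res K u x') := by
    intro R
    induction R using Finset.induction_on with
    | empty =>
      intro _
      refine ⟨x, ?_, hbx, ⟨0, Submodule.zero_mem _, ?_⟩, fun u h1 h2 _ => hfar u h1 h2⟩
      · rw [sdiff_empty]; exact hx
      · rw [map_zero, add_zero]
    | insert z R hz ih =>
      intro hR
      obtain ⟨x', hx', hb', ⟨c, hc, hxc⟩, hf⟩ := ih ((subset_insert _ _).trans hR)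
      have hzF := hR (mem_insert_self z R)
      rw [hFar, mem_filter] at hzF
      obtain ⟨-, hz1, hz2⟩ := hzF
      obtain ⟨y, hy, hyb⟩ := hinj z hz1 ((univ \ R).erase z) (res K z x')
        (co_res_mem hd hx' z) (by rw [co_bd_res, hb', map_zero, neg_zero]) (hf z hz1 hz2 hz)
      have hzR : z ∈ univ \ R := mem_sdiff.2 ⟨mem_univ _, hz⟩
      have hcon : con K z y ∈ Ch Δ U e (univ \ R) (k + 1 + 1) := by
        have h := co_con_mem hd hy
        rwa [insert_erase hzR] at h
      have hres : res K z (con K z y) = y := by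
        refine co_res_con z y fun G hG => (hy G).2 ?_
        rintro ⟨_, h2, _⟩
        exact (mem_erase.1 (h2 hG)).1 rfl
      have hx2 : x' + bd K (con K z y) ∈ Ch Δ U e (univ \ R) (k + 1) :=
        Submodule.add_mem _ hx' (co_bd_mem hd hcon)
      have hrz : res K z (x' + bd K (con K z y)) = 0 := by
        have h1 := co_bd_res (K := K) z (con K z y)
        rw [hres, hyb] at h1
        rw [map_add, h1, neg_add_cancel]
      refine ⟨x' + bd K (con K z y), ?_, ?_, ⟨c - con K z y, ?_, ?_⟩, ?_⟩
      · intro G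
        refine ⟨(hx2 G).1, fun hG => ?_⟩
        by_cases hzG : z ∈ G
        · have h1 := congrFun hrz (G.erase z)
          rw [res_apply, if_neg (notMem_erase z G), insert_erase hzG, Pi.zero_apply] at h1
          have h2 := congrArg (fun s => tau K z (G.erase z) • s) h1
          simp only [smul_smul, tau_sq, one_smul, smul_zero] at h2
          exact h2
        · refine (hx2 G).2 ?_
          rintro ⟨h1, h2, h3⟩
          refine hG ⟨h1, ?_, h3⟩
          intro w hw
          have h4 := h2 hw
          rw [mem_sdiff] at h4 ⊢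
          refine ⟨mem_univ _, ?_⟩
          rw [mem_insert, not_or]
          exact ⟨fun h => hzG (h ▸ hw), h4.2⟩
      · rw [map_add, hb', co_bd_bd, add_zero]
      · exact Submodule.sub_mem _ hc (co_Ch_mono (subset_univ _) hcon)
      · rw [hxc, map_sub]
        abel
      · intro u h1 h2 h3
        rw [mem_insert, not_or] at h3
        obtain ⟨yu, hyu, hyub⟩ := hf u h1 h2 h3.2
        refine ⟨yu - res K u (con K z y), ?_, ?_⟩
        · exact Submodule.sub_mem _ hyu (co_Ch_mono (subset_univ _) (co_res_mem hd hcon u))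
        · rw [map_sub, hyub, co_bd_res, sub_neg_eq_add, map_add]
  obtain ⟨x', hx', hb', ⟨c, hc, hxc⟩, -⟩ := key Far (Subset.refl _)
  have hx'' : x' ∈ Ch Δ U e (nbr Δ v) (k + 1) := by
    intro G
    refine ⟨(hx' G).1, fun hG => (hx' G).2 ?_⟩
    rintro ⟨h1, h2, h3⟩
    refine hG ⟨h1, ?_, h3⟩
    intro u hu
    have h4 := h2 hu
    rw [mem_sdiff, hFar, mem_filter] at h4
    unfold nbr
    rw [mem_filter]
    refine ⟨mem_univ _, ?_⟩
    by_contra h5
    exact h4.2 ⟨mem_univ _, hd _ h1 _ (singleton_subset_iff.2 hu), h5⟩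
  obtain ⟨y, hy, hyb⟩ := hex x' hx'' hb'
  refine ⟨y + c, Submodule.add_mem _ (co_Ch_mono (subset_univ _) hy) hc, ?_⟩
  rw [map_add, hyb, hxc]

end Pool.Agent.H14.CL
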