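import Pool.Agent.H14.CL.Stm

/-!
Project CL, row CH3: the star of a vertex.
-/

set_option autoImplicit false

namespace Pool.Agent.H14.CL

open Finset

section

variable {n : ℕ} {K : Type*} [Field K] {S : Type*} [AddCommGroup S] [Module K S]

theorem cst_bd_bd (y : Finset (Fin n) → S) : bd K (bd K y) = 0 := by
  funext G
  rw [bd_apply, Pi.zero_apply]
  have h1 : ∀ u ∈ univ.filter (fun u : Fin n => u ∉ G), tau K u G • bd K y (insert u G) =
      ∑ w ∈ univ.filter (fun w : Fin n => w ∉ insert u G),
        (tau K u G * tau K w (insert u G)) • y (insert w (insert u G)) := by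
    intro u _
    rw [bd_apply, Finset.smul_sum]
    exact Finset.sum_congr rfl fun w _ => by rw [smul_smul]
  rw [Finset.sum_congr rfl h1, Finset.sum_sigma']
  refine Finset.sum_involution (fun p _ => ⟨p.2, p.1⟩) ?_ ?_ ?_ ?_
  · rintro ⟨u, w⟩ h
    simp only [mem_sigma, mem_filter, mem_univ, true_and, mem_insert, not_or] at h
    obtain ⟨hu, hwu, hw⟩ := h
    show (tau K u G * tau K w (insert u G)) • y (insert w (insert u G)) +
      (tau K w G * tau K u (insert w G)) • y (insert u (insert w G)) = 0
    rw [Finset.insert_comm u w G, ← add_smul, mul_comm (tau K u G), mul_comm (tau K w G),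
      tau_swap K hwu hw hu]
    simp
  · rintro ⟨u, w⟩ h _
    simp only [mem_sigma, mem_filter, mem_univ, true_and, mem_insert, not_or] at h
    intro he
    exact h.2.1 (congrArg Sigma.fst he)
  · rintro ⟨u, w⟩ h
    simp only [mem_sigma, mem_filter, mem_univ, true_and, mem_insert, not_or] at h ⊢
    exact ⟨h.2.2, fun he => h.2.1 he.symm, h.1⟩
  · rintro ⟨u, w⟩ _
    rfl

/-- the boundary of a chain is a chain -/
theorem cst_bd_mem {Δ : Finset (Finset (Fin n))} (hd : Down Δ) {U : Submodule K S}
    {e : Fin n → S →ₗ[K] S} {A : Finset (Fin n)} {j : ℕ} {y : Finset (Fin n) → S}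
    (hy : y ∈ Ch Δ U e A (j + 1)) : bd K y ∈ Ch Δ U e A j := by
  intro G
  rw [bd_apply]
  constructor
  · refine Submodule.sum_mem _ fun u _ => Submodule.smul_mem _ _ ?_
    exact KK_anti U e (subset_insert u G) (hy (insert u G)).1
  · intro hG
    refine Finset.sum_eq_zero fun u hu => ?_
    rw [mem_filter] at hu
    rw [(hy (insert u G)).2, smul_zero]
    rintro ⟨h1, h2, h3⟩
    apply hG
    refine ⟨hd _ h1 _ (subset_insert u G), (subset_insert u G).trans h2, ?_⟩
    rw [card_insert_of_notMem hu.2] at h3
    omega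

/-- a cone contraction -/
theorem cst_con (v : Fin n) (x : Finset (Fin n) → S) (hx : bd K x = 0) :
    bd K (con K v x) = x := by
  funext G
  rw [bd_apply]
  by_cases hv : v ∈ G
  · obtain ⟨G', hG', rfl⟩ : ∃ G', v ∉ G' ∧ insert v G' = G :=
      ⟨G.erase v, by simp, insert_erase hv⟩
    have h0 : bd K x G' = 0 := by rw [hx]; rfl
    rw [bd_apply] at h0
    have h1 : univ.filter (fun u : Fin n => u ∉ G') =
        insert v (univ.filter (fun u : Fin n => u ∉ insert v G')) := by
      ext u
      simp only [mem_filter, mem_univ, true_and, mem_insert, not_or]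
      constructor
      · intro h
        by_cases huv : u = v
        · exact Or.inl huv
        · exact Or.inr ⟨huv, h⟩
      · rintro (h | h)
        · rw [h]; exact hG'
        · exact h.2
    rw [h1, Finset.sum_insert (by simp)] at h0
    have h2 : ∀ u ∈ univ.filter (fun u : Fin n => u ∉ insert v G'),
        tau K u (insert v G') • con K v x (insert u (insert v G')) =
          -tau K v G' • (tau K u G' • x (insert u G')) := by
      intro u hu
      simp only [mem_filter, mem_univ, true_and, mem_insert, not_or] at hu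
      obtain ⟨huv, hu⟩ := hu
      have e1 : (insert u (insert v G')).erase v = insert u G' := by
        rw [Finset.insert_comm, erase_insert]
        simp only [mem_insert, not_or]
        exact ⟨fun h => huv h.symm, hG'⟩
      rw [con_apply, if_pos (by simp), e1, smul_smul, smul_smul, Finset.insert_comm u v G',
        tau_insert_self, tau_swap' K huv hu hG']
      congr 1
      ring
    rw [Finset.sum_congr rfl h2, ← Finset.smul_sum]
    have h3 : ∑ u ∈ univ.filter (fun u : Fin n => u ∉ insert v G'), tau K u G' • x (insert u G') =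
        -(tau K v G' • x (insert v G')) := by
      rw [eq_neg_iff_add_eq_zero, add_comm]
      exact h0
    rw [h3, neg_smul, smul_neg, neg_neg, smul_smul, tau_sq, one_smul]
  · rw [Finset.sum_eq_single v]
    · rw [con_apply, if_pos (mem_insert_self v G), erase_insert hv, tau_insert_self, smul_smul,
        tau_sq, one_smul]
    · intro u hu huv
      simp only [mem_filter, mem_univ, true_and] at hu
      rw [con_apply, if_neg, smul_zero]
      simp only [mem_insert, not_or]
      exact ⟨fun h => huv h.symm, hv⟩
    · intro h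
      exact absurd (by simp [hv] : v ∈ univ.filter (fun u : Fin n => u ∉ G)) h

end

/-- **Row CH3.** -/
theorem st_star : StStar := by
  intro n K S _ _ _ Δ U e B h ε d hD v hv j hex x hx hbx
  classical
  have hd : Down Δ := hD.sph.dn
  have hN : ∀ w, w ∈ nbr Δ v ↔ ({w, v} : Finset (Fin n)) ∈ Δ := by
    intro w
    simp [nbr]
  have hins : ∀ G ∈ Δ, G ⊆ nbr Δ v → insert v G ∈ Δ := by
    intro G hG hsub
    apply hD.sph.flag
    intro a ha b hb
    rw [mem_insert] at ha hb
    rcases ha with rfl | ha
    · rcases hb with rfl | hb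
      · rw [pair_eq_singleton]; exact hv
      · rw [Finset.pair_comm]
        exact (hN b).1 (hsub hb)
    · rcases hb with rfl | hb
      · exact (hN a).1 (hsub ha)
      · apply hd G hG
        intro c hc
        rw [mem_insert, mem_singleton] at hc
        rcases hc with rfl | rfl
        · exact ha
        · exact hb
  have hvx : ∀ G ∈ Δ, ∀ w ∈ G, ({w} : Finset (Fin n)) ∈ Δ := by
    intro G hG w hw
    exact hd G hG _ (singleton_subset_iff.2 hw)
  have hev : ∀ G ∈ Δ, G ⊆ nbr Δ v → ∀ z ∈ KK U e G, e v z ∈ KK U e (insert v G) := by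
    intro G hG hsub z hz
    refine ⟨hD.inv v hv z hz.1, ?_⟩
    intro w hw
    rw [mem_insert] at hw
    rcases hw with rfl | hw
    · exact hD.sq w hv z hz.1
    · have h1 := hD.rel v w hv (hvx G hG w hw) z hz.1
      have h2 : B v w = 0 := by
        apply hD.bz
        rw [Finset.pair_comm]
        exact (hN w).1 (hsub hw)
      rw [h2, zero_smul, hz.2 w hw, map_zero, zero_add] at h1
      exact h1
  -- the chain in the link
  have hxb : (fun G => e v (x G)) ∈ Ch (lk Δ v) (KK U e {v}) e univ j := by
    intro G
    rw [KK_single_KK]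
    by_cases hG : G ∈ Δ ∧ G ⊆ nbr Δ v ∧ G.card = j
    · refine ⟨hev G hG.1 hG.2.1 _ (hx G).1, fun hn => ?_⟩
      by_cases hvG : v ∈ G
      · exact (hx G).1.2 v hvG
      · exfalso
        apply hn
        exact ⟨(mem_lk' hd).2 ⟨hvG, hins G hG.1 hG.2.1⟩, subset_univ _, hG.2.2⟩
    · have h1 : x G = 0 := (hx G).2 hG
      show e v (x G) ∈ _ ∧ (_ → e v (x G) = 0)
      rw [h1, map_zero]
      exact ⟨Submodule.zero_mem _, fun _ => rfl⟩
  have hbd : ∀ z : Finset (Fin n) → S, bd K (fun G => e v (z G)) = fun G => e v (bd K z G) := by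
    intro z
    funext G
    rw [bd_apply, bd_apply, map_sum]
    exact Finset.sum_congr rfl fun u _ => by rw [map_smul]
  have hbxb : bd K (fun G => e v (x G)) = 0 := by
    rw [hbd, hbx]
    funext G
    exact map_zero _
  obtain ⟨yb, hyb, hyb2⟩ := hex _ hxb hbxb
  -- lifting
  have hlift : ∀ G, ∃ z ∈ KK U e G, e v z = yb G ∧ (yb G = 0 → z = 0) := by
    intro G
    by_cases h0 : yb G = 0
    · exact ⟨0, Submodule.zero_mem _, by rw [map_zero, h0], fun _ => rfl⟩
    · have hG : G ∈ lk Δ v := by
        by_contra hn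
        exact h0 ((hyb G).2 (fun h => hn h.1))
      have h1 := (mem_lk).1 hG
      have h2 := (hyb G).1
      rw [KK_single_KK] at h2
      obtain ⟨z, hz, hz2⟩ := hD.kos G h1.1 v h1.2.1 h1.2.2 (yb G)
        (KK_anti U e (subset_insert v G) h2) (h2.2 v (mem_insert_self v G))
      exact ⟨z, hz, hz2, fun h => absurd h h0⟩
  choose y hyK hye hy0 using hlift
  have hy : y ∈ Ch Δ U e (nbr Δ v) (j + 1) := by
    intro G
    refine ⟨hyK G, fun hn => ?_⟩
    apply hy0
    apply (hyb G).2
    rintro ⟨h1, _, h3⟩
    apply hn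
    have h4 := (mem_lk).1 h1
    refine ⟨h4.1, ?_, h3⟩
    intro w hw
    rw [hN]
    apply hd _ h4.2.2
    intro c hc
    rw [mem_insert, mem_singleton] at hc
    rcases hc with rfl | rfl
    · exact mem_insert_of_mem hw
    · exact mem_insert_self _ _
  -- the difference
  obtain ⟨x', hx'⟩ : ∃ x', x' = x - bd K y := ⟨_, rfl⟩
  have hx'C : x' ∈ Ch Δ U e (nbr Δ v) j := by
    rw [hx']
    exact Submodule.sub_mem _ hx (cst_bd_mem hd hy)
  have hx'b : bd K x' = 0 := by
    rw [hx', map_sub, hbx, cst_bd_bd, sub_zero]
  have hx'e : ∀ G, e v (x' G) = 0 := by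
    intro G
    have h1 : e v (bd K y G) = e v (x G) := by
      have h2 := congrFun (hbd y) G
      have h3 : (fun G => e v (y G)) = yb := funext hye
      rw [h3, hyb2] at h2
      exact h2.symm
    rw [hx', Pi.sub_apply, map_sub, h1, sub_self]
  have hz : con K v x' ∈ Ch Δ U e (nbr Δ v) (j + 1) := by
    intro G
    rw [con_apply]
    by_cases hvG : v ∈ G
    · rw [if_pos hvG]
      constructor
      · apply Submodule.smul_mem
        have h1 := (hx'C (G.erase v)).1
        refine ⟨h1.1, fun w hw => ?_⟩
        by_cases hwv : w = v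
        · rw [hwv]; exact hx'e _
        · exact h1.2 w (mem_erase.2 ⟨hwv, hw⟩)
      · intro hn
        rw [(hx'C (G.erase v)).2, smul_zero]
        rintro ⟨h1, h2, h3⟩
        apply hn
        have h4 := hins _ h1 h2
        rw [insert_erase hvG] at h4
        refine ⟨h4, ?_, ?_⟩
        · rw [← insert_erase hvG]
          apply insert_subset _ h2
          rw [hN, pair_eq_singleton]
          exact hv
        · rw [← h3, card_erase_add_one hvG]
    · rw [if_neg hvG]
      exact ⟨Submodule.zero_mem _, fun _ => rfl⟩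
  refine ⟨con K v x' + y, Submodule.add_mem _ hz hy, ?_⟩
  rw [map_add, cst_con v x' hx'b, hx', sub_add_cancel]

end Pool.Agent.H14.CL
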