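import Pool.Agent.H14.CL.Stm
import Pool.Agent.H96.PS.Cliff

/-!
Project CL (MP_32beb3_co), row TI1: the Clifford action on the spinor space.
-/

set_option autoImplicit false

namespace Pool.Agent.H14.CL

open Finset

section

variable {ι κ : Type} [Fintype ι] [Fintype κ] {S : Type} [NormedAddCommGroup S]
  [InnerProductSpace ℝ S]

/-- linear combinations of operators -/
noncomputable def ti1c (T : ι → S →L[ℝ] S) : (ι → ℝ) →ₗ[ℝ] S →ₗ[ℝ] S :=
  Fintype.linearCombination ℝ (fun i => (T i : S →ₗ[ℝ] S))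

theorem ti1c_apply (T : ι → S →L[ℝ] S) (p : ι → ℝ) (x : S) :
    ti1c T p x = ∑ i, p i • T i x := by
  unfold ti1c
  rw [Fintype.linearCombination_apply, LinearMap.sum_apply]
  rfl

theorem ti1_two (T : ι → S →L[ℝ] S) (T' : κ → S →L[ℝ] S) (p : ι → ℝ) (q : κ → ℝ) (x : S) :
    ti1c T p (ti1c T' q x) + ti1c T' q (ti1c T p x) =
      ∑ i, ∑ j, (p i * q j) • (T i (T' j x) + T' j (T i x)) := by
  simp only [ti1c_apply, map_sum, map_smul, smul_add, Finset.sum_add_distrib, Finset.smul_sum,
    smul_smul]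
  congr 1
  rw [Finset.sum_comm]
  refine Finset.sum_congr rfl fun i _ => Finset.sum_congr rfl fun j _ => ?_
  rw [mul_comm]

theorem ti1_diag [DecidableEq ι] (T : ι → S →L[ℝ] S) (c : ℝ) (p q : ι → ℝ) (x : S)
    (h : ∀ i j, T i (T j x) + T j (T i x) = if i = j then c • x else 0) :
    ti1c T p (ti1c T q x) + ti1c T q (ti1c T p x) = (c * (p ⬝ᵥ q)) • x := by
  rw [ti1_two]
  have h1 : ∀ i, ∑ j, (p i * q j) • (T i (T j x) + T j (T i x)) = (p i * q i) • (c • x) := by
    intro i
    rw [Finset.sum_eq_single i]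
    · rw [h, if_pos rfl]
    · intro j _ hj
      rw [h, if_neg (fun e => hj e.symm), smul_zero]
    · intro hi
      exact absurd (Finset.mem_univ i) hi
  rw [Finset.sum_congr rfl fun i _ => h1 i, ← Finset.sum_smul, smul_smul, mul_comm c]
  rfl

theorem ti1_adj (T : ι → S →L[ℝ] S) (c : ℝ) (p : ι → ℝ) (x y : S)
    (h : ∀ i, inner ℝ (T i x) y = c * inner ℝ x (T i y)) :
    inner ℝ (ti1c T p x) y = c * inner ℝ x (ti1c T p y) := by
  rw [ti1c_apply, ti1c_apply, sum_inner, inner_sum, Finset.mul_sum]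
  refine Finset.sum_congr rfl fun i _ => ?_
  rw [real_inner_smul_left, real_inner_smul_right, h]
  ring

end

/-- TI1 -/
theorem st_clif : StClif := by
  intro d N
  refine ⟨ti1c (fun i : Fin d => PS.ep (Fin.castAdd N i)),
    ti1c (fun i : Fin N => PS.cl (Fin.natAdd d i)), ?_, ?_, ?_, ?_, ?_⟩
  · intro p p' x
    apply ti1_diag
    intro i j
    have h := congrArg (fun f : PS.Lam (d + N) →L[ℝ] PS.Lam (d + N) => f x)
      (PS.ep_mul (Fin.castAdd N i) (Fin.castAdd N j))
    by_cases hij : i = j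
    · subst hij
      rw [if_pos rfl] at h ⊢
      exact h
    · rw [if_neg (fun e => hij (Fin.castAdd_injective d N e))] at h
      rw [if_neg hij]
      exact h
  · intro q q' x
    apply ti1_diag
    intro i j
    have h := congrArg (fun f : PS.Lam (d + N) →L[ℝ] PS.Lam (d + N) => f x)
      (PS.cl_mul (Fin.natAdd d i) (Fin.natAdd d j))
    by_cases hij : i = j
    · subst hij
      rw [if_pos rfl] at h ⊢
      exact h
    · rw [if_neg (fun e => hij (Fin.natAdd_injective N d e))] at h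
      rw [if_neg hij]
      exact h
  · intro p q x
    rw [ti1_two]
    refine Finset.sum_eq_zero fun i _ => Finset.sum_eq_zero fun j _ => ?_
    have h := congrArg (fun f : PS.Lam (d + N) →L[ℝ] PS.Lam (d + N) => f x)
      (PS.cl_ep (Fin.natAdd d j) (Fin.castAdd N i))
    have h2 : PS.ep (Fin.castAdd N i) (PS.cl (Fin.natAdd d j) x) +
        PS.cl (Fin.natAdd d j) (PS.ep (Fin.castAdd N i) x) = 0 := (add_comm _ _).trans h
    rw [h2, smul_zero]
  · intro p x y
    rw [ti1_adj _ 1 p x y (fun i => by rw [PS.ep_adj, one_mul]), one_mul]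
  · intro q x y
    rw [ti1_adj _ (-1) q x y (fun i => by rw [PS.cl_adj, neg_one_mul]), neg_one_mul]

end Pool.Agent.H14.CL
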