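import Pool.Agent.H14.CL.Stm

/-!
Project CL (MP_32beb3_co), row TO3: columns of the double complex
-/

set_option autoImplicit false

namespace Pool.Agent.H14.CL

open Finset

section vec

variable {K S : Type} [Field K] [AddCommGroup S] [Module K S]

/-- finitely many vectors of a subspace in coordinates -/
theorem col_vec {I : Type} (F : Finset I) (φ : I → S) (X : Submodule K S)
    (hX : ∀ N ∈ F, φ N ∈ X) :
    ∃ (r : ℕ) (b : Fin r → S) (f : Fin r → S →ₗ[K] K), (∀ k, b k ∈ X) ∧
      ∀ N ∈ F, φ N = ∑ k, f k (φ N) • b k := by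
  classical
  let X0 : Submodule K S := Submodule.span K (φ '' (F : Set I))
  have : FiniteDimensional K X0 := FiniteDimensional.span_of_finite K (F.finite_toSet.image φ)
  let B := Module.finBasis K X0
  have hX0 : X0 ≤ X := by
    rw [Submodule.span_le]
    rintro _ ⟨N, hN, rfl⟩
    exact hX N hN
  have hf : ∀ k, ∃ g : S →ₗ[K] K, g.comp X0.subtype = B.coord k := fun k =>
    LinearMap.exists_extend (B.coord k)
  choose f hf using hf
  refine ⟨_, fun k => (B k : S), f, fun k => hX0 (B k).2, fun N hN => ?_⟩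
  have hmem : φ N ∈ X0 := Submodule.subset_span ⟨N, hN, rfl⟩
  have h1 := congrArg (fun x : X0 => (x : S)) (B.sum_repr ⟨φ N, hmem⟩)
  simp only [AddSubmonoidClass.coe_finsetSum, Submodule.coe_smul] at h1
  rw [← h1]
  refine Finset.sum_congr rfl fun k _ => ?_
  congr 1
  have h2 := LinearMap.congr_fun (hf k) ⟨φ N, hmem⟩
  rw [LinearMap.comp_apply, Submodule.subtype_apply, Module.Basis.coord_apply] at h2
  rw [h1]
  exact h2.symm

variable {n : ℕ} {Δ : Finset (Finset (Fin n))} {ε : Finset (Fin n) → K} {d : ℕ}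

theorem col_low (hS : Sph K Δ ε d) {G : Finset (Fin n)} (hG : G ∈ Δ) {j : ℕ}
    (hj : j + G.card < d) (φ : Finset (Fin n) → S) (X : Submodule K S) (hX : ∀ N, φ N ∈ X)
    (hcl : ∀ N ∈ lkF Δ G, N.card = j + 1 → ∑ u ∈ N, tau K u N • φ (N.erase u) = 0) :
    ∃ ψ : Finset (Fin n) → S, (∀ N, ψ N ∈ X) ∧ ∀ N ∈ lkF Δ G, N.card = j →
      φ N = ∑ u ∈ N, tau K u N • ψ (N.erase u) := by
  obtain ⟨r, b, f, hb, hφ⟩ := col_vec (univ : Finset (Finset (Fin n))) φ X (fun N _ => hX N)
  have hk : ∀ k, ∃ ψ : Finset (Fin n) → K, ∀ N ∈ lkF Δ G, N.card = j →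
      f k (φ N) = ∑ u ∈ N, tau K u N * ψ (N.erase u) := by
    intro k
    refine hS.low G hG j hj (fun N => f k (φ N)) fun N hN hNc => ?_
    have h1 := congrArg (f k) (hcl N hN hNc)
    rw [map_sum, map_zero] at h1
    rw [← h1]
    refine Finset.sum_congr rfl fun u _ => ?_
    rw [map_smul, smul_eq_mul]
  choose ψ hψ using hk
  refine ⟨fun N => ∑ k, ψ k N • b k, fun N => X.sum_mem fun k _ => X.smul_mem _ (hb k),
    fun N hN hNc => ?_⟩
  rw [hφ N (mem_univ _)]
  simp only [Finset.smul_sum]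
  rw [Finset.sum_comm]
  refine Finset.sum_congr rfl fun k _ => ?_
  rw [hψ k N hN hNc, Finset.sum_smul]
  refine Finset.sum_congr rfl fun u _ => ?_
  rw [smul_smul]

theorem col_top (hS : Sph K Δ ε d) {G : Finset (Fin n)} (hG : G ∈ Δ) {j : ℕ}
    (hj : j + G.card = d) (φ : Finset (Fin n) → S) (X : Submodule K S) (hX : ∀ N, φ N ∈ X)
    (hcl : ∑ N ∈ (lkF Δ G).filter (fun N => N.card = j), (sh K N G * ε (N ∪ G)) • φ N = 0) :
    ∃ ψ : Finset (Fin n) → S, (∀ N, ψ N ∈ X) ∧ ∀ N ∈ lkF Δ G, N.card = j →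
      φ N = ∑ u ∈ N, tau K u N • ψ (N.erase u) := by
  obtain ⟨r, b, f, hb, hφ⟩ := col_vec (univ : Finset (Finset (Fin n))) φ X (fun N _ => hX N)
  have hk : ∀ k, ∃ ψ : Finset (Fin n) → K, ∀ N ∈ lkF Δ G, N.card = j →
      f k (φ N) = ∑ u ∈ N, tau K u N * ψ (N.erase u) := by
    intro k
    refine hS.top G hG j hj (fun N => f k (φ N)) ?_
    have h1 := congrArg (f k) hcl
    rw [map_sum, map_zero] at h1
    rw [← h1]
    refine Finset.sum_congr rfl fun u _ => ?_
    rw [map_smul, smul_eq_mul]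
  choose ψ hψ using hk
  refine ⟨fun N => ∑ k, ψ k N • b k, fun N => X.sum_mem fun k _ => X.smul_mem _ (hb k),
    fun N hN hNc => ?_⟩
  rw [hφ N (mem_univ _)]
  simp only [Finset.smul_sum]
  rw [Finset.sum_comm]
  refine Finset.sum_congr rfl fun k _ => ?_
  rw [hψ k N hN hNc, Finset.sum_smul]
  refine Finset.sum_congr rfl fun u _ => ?_
  rw [smul_smul]

/-- one column -/
theorem col_one (hS : Sph K Δ ε d) (U : Submodule K S) (e : Fin n → S →ₗ[K] S) {j g : ℕ}
    {w : Finset (Fin n) → Finset (Fin n) → S} (hw : w ∈ Tot Δ U e j) (hD : DD K Δ w = 0)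
    (hP : Pr ε w = 0) (hg : ∀ N G, g + 1 ≤ G.card → w N G = 0) (G : Finset (Fin n))
    (hG : G.card = g) :
    ∃ ψ : Finset (Fin n) → S, (∀ N, ψ N ∈ KK U e G) ∧ (d < j + g → ψ = 0) ∧
      ∀ N ∈ lkF Δ G, N.card = j → w N G = ∑ u ∈ N, tau K u N • ψ (N.erase u) := by
  have hdn := hS.dn
  have hw' := mem_Tot.1 hw
  by_cases hGΔ : G ∈ Δ
  swap
  · refine ⟨0, fun N => (KK U e G).zero_mem, fun _ => rfl, fun N hN hNc => ?_⟩
    exact absurd (hdn _ ((mem_lkF' hdn).1 hN).2 _ subset_union_right) hGΔ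
  rcases lt_trichotomy (j + g) d with h | h | h
  · obtain ⟨ψ, h1, h2⟩ := col_low hS hGΔ (j := j) (by rw [hG]; exact h) (fun N => w N G)
      (KK U e G) (fun N => (hw' N G).1) (fun N hN hNc => by
        obtain ⟨hdis, hun⟩ := (mem_lkF' hdn).1 hN
        have h3 := congrFun (congrFun hD N) G
        rw [DD_apply, if_pos ⟨hdis, hun⟩, Pi.zero_apply, Pi.zero_apply] at h3
        rw [← h3]
        refine Finset.sum_congr rfl fun u hu => ?_
        have hu' : u ∉ G := disjoint_left.1 hdis hu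
        rw [hg (N.erase u) (insert u G) (by rw [card_insert_of_notMem hu', hG]), add_zero])
    exact ⟨ψ, h1, fun h' => absurd h' (by omega), h2⟩
  · obtain ⟨ψ, h1, h2⟩ := col_top hS hGΔ (j := j) (by rw [hG]; exact h) (fun N => w N G)
      (KK U e G) (fun N => (hw' N G).1) (by
        have h3 := congrFun hP G
        rw [Pr_apply, Pi.zero_apply] at h3
        rw [← h3]
        refine Finset.sum_subset ?_ ?_
        · intro N hN
          obtain ⟨hN1, hN2⟩ := mem_filter.1 hN
          exact mem_filter.2 ⟨mem_univ _, ((mem_lkF' hdn).1 hN1).1⟩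
        · intro N hN hN'
          obtain ⟨-, hdis⟩ := mem_filter.1 hN
          rw [(hw' N G).2 (fun hcon => hN' (mem_filter.2
            ⟨(mem_lkF' hdn).2 ⟨hcon.1, hcon.2.1⟩, hcon.2.2⟩)), smul_zero])
    exact ⟨ψ, h1, fun h' => absurd h' (by omega), h2⟩
  · refine ⟨0, fun N => (KK U e G).zero_mem, fun _ => rfl, fun N hN hNc => ?_⟩
    obtain ⟨hdis, hun⟩ := (mem_lkF' hdn).1 hN
    have h3 := hS.card_le _ hun
    rw [card_union_of_disjoint hdis, hNc, hG] at h3
    omega

/-- the induction on the size of the inner face -/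
theorem col_ind (h1 : StTotD) (h2 : StTotPr) (hS : Sph K Δ ε d) (U : Submodule K S)
    (e : Fin n → S →ₗ[K] S) (j : ℕ) : ∀ g : ℕ,
    ∀ w ∈ Tot Δ U e j, DD K Δ w = 0 → Pr ε w = 0 → (∀ N G, g ≤ G.card → w N G = 0) →
      TB Δ U e j w := by
  have hdn := hS.dn
  obtain ⟨hDD, hDT, -, -⟩ := h1 n K S Δ U e hdn
  obtain ⟨-, hPD, -⟩ := h2 n K S Δ U e ε d hS
  intro g
  induction g with
  | zero =>
    intro w hw hD hP hg
    refine ⟨0, Submodule.zero_mem _, ?_⟩
    rw [map_zero]
    funext N G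
    exact (hg N G (Nat.zero_le _)).symm
  | succ g ih =>
    intro w hw hD hP hg
    have hw' := mem_Tot.1 hw
    have hcol : ∀ G : Finset (Fin n), ∃ ψ : Finset (Fin n) → S, G.card = g →
        (∀ N, ψ N ∈ KK U e G) ∧ (d < j + g → ψ = 0) ∧
        ∀ N ∈ lkF Δ G, N.card = j → w N G = ∑ u ∈ N, tau K u N • ψ (N.erase u) := by
      intro G
      by_cases hG : G.card = g
      · obtain ⟨ψ, h⟩ := col_one hS U e hw hD hP hg G hG
        exact ⟨ψ, fun _ => h⟩
      · exact ⟨0, fun h => absurd h hG⟩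
    choose ψ hψ using hcol
    let b : Finset (Fin n) → Finset (Fin n) → S := fun N G =>
      if G.card = g ∧ Disjoint N G ∧ N ∪ G ∈ Δ ∧ N.card + 1 = j then ψ G N else 0
    have hb0 : ∀ N G, ¬ (G.card = g ∧ Disjoint N G ∧ N ∪ G ∈ Δ ∧ N.card + 1 = j) → b N G = 0 :=
      fun N G h => if_neg h
    have hb1 : ∀ N G, (G.card = g ∧ Disjoint N G ∧ N ∪ G ∈ Δ ∧ N.card + 1 = j) →
        b N G = ψ G N := fun N G h => if_pos h
    -- the value of `DD b` for inner faces of size at least `g`
    have hDb : ∀ N G, g ≤ G.card → DD K Δ b N G = w N G := by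
      intro N G hG
      rw [DD_apply]
      by_cases hNG : Disjoint N G ∧ N ∪ G ∈ Δ
      swap
      · rw [if_neg hNG, (hw' N G).2 (fun h => hNG ⟨h.1, h.2.1⟩)]
      rw [if_pos hNG]
      have hins : ∀ u ∈ N, b (N.erase u) (insert u G) = 0 := by
        intro u hu
        have hu' : u ∉ G := disjoint_left.1 hNG.1 hu
        refine hb0 _ _ fun h => ?_
        have h3 := h.1
        rw [card_insert_of_notMem hu'] at h3
        omega
      by_cases hGg : G.card = g
      · by_cases hNj : N.card = j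
        · obtain ⟨-, -, h5⟩ := hψ G hGg
          rw [h5 N ((mem_lkF' hdn).2 hNG) hNj]
          refine Finset.sum_congr rfl fun u hu => ?_
          rw [hins u hu, add_zero, hb1]
          refine ⟨hGg, hNG.1.mono_left (erase_subset _ _), hdn _ hNG.2 _
            (union_subset_union_left (erase_subset _ _)), ?_⟩
          rw [card_erase_of_mem hu]
          have : 0 < N.card := card_pos.2 ⟨u, hu⟩
          omega
        · rw [(hw' N G).2 (fun h => hNj h.2.2)]
          refine Finset.sum_eq_zero fun u hu => ?_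
          rw [hins u hu, add_zero, hb0, smul_zero]
          rintro ⟨-, -, -, h6⟩
          rw [card_erase_of_mem hu] at h6
          have : 0 < N.card := card_pos.2 ⟨u, hu⟩
          omega
      · rw [hg N G (by omega)]
        refine Finset.sum_eq_zero fun u hu => ?_
        rw [hins u hu, add_zero, hb0, smul_zero]
        exact fun h => hGg h.1
    rcases j with _ | j
    · -- no outer faces
      have hbz : b = 0 := by
        funext N G
        exact hb0 N G (fun h => by omega)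
      rw [hbz, map_zero] at hDb
      exact ih w hw hD hP fun N G hG => (hDb N G hG).symm
    · have hbT : b ∈ Tot Δ U e j := by
        rw [mem_Tot]
        intro N G
        refine ⟨?_, fun h => hb0 N G fun h' => h ⟨h'.2.1, h'.2.2.1, by omega⟩⟩
        by_cases h : G.card = g ∧ Disjoint N G ∧ N ∪ G ∈ Δ ∧ N.card + 1 = j + 1
        · rw [hb1 N G h]
          exact (hψ G h.1).1 N
        · rw [hb0 N G h]
          exact (KK U e G).zero_mem
      have hPb : Pr ε b = 0 := by
        funext G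
        rw [Pr_apply, Pi.zero_apply]
        refine Finset.sum_eq_zero fun N hN => ?_
        by_cases h : G.card = g ∧ Disjoint N G ∧ N ∪ G ∈ Δ ∧ N.card + 1 = j + 1
        · by_cases hdj : d < j + 1 + g
          · rw [hb1 N G h, (hψ G h.1).2.1 hdj, Pi.zero_apply, smul_zero]
          · have h3 : ε (N ∪ G) = 0 := by
              refine hS.off _ fun h' => ?_
              have h4 := h'.2
              rw [card_union_of_disjoint h.2.1, h.1] at h4
              have := h.2.2.2
              omega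
            rw [h3, mul_zero, zero_smul]
        · rw [hb0 N G h, smul_zero]
      have hPDb : Pr ε (DD K Δ b) = 0 := by
        rw [hPD j b hbT, hPb, map_zero, smul_zero]
      have hw2T : w - DD K Δ b ∈ Tot Δ U e (j + 1) :=
        (Tot Δ U e (j + 1)).sub_mem hw (hDT j b hbT)
      obtain ⟨b2, hb2, hb2'⟩ := ih (w - DD K Δ b) hw2T (by rw [map_sub, hD, hDD, sub_zero])
        (by rw [map_sub, hP, hPDb, sub_zero])
        (fun N G hG => by rw [Pi.sub_apply, Pi.sub_apply, hDb N G hG, sub_self])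
      refine ⟨b + b2, (Tot Δ U e j).add_mem hbT hb2, ?_⟩
      rw [map_add, hb2']
      abel

end vec

theorem st_col (h1 : StTotD) (h2 : StTotPr) : StCol := by
  intro n K S _ _ _ Δ U e ε d hS j i hji w hw hD hB
  have hdn := hS.dn
  obtain ⟨hDD, hDT, -, -⟩ := h1 n K S Δ U e hdn
  obtain ⟨-, hPD, -⟩ := h2 n K S Δ U e ε d hS
  obtain ⟨y, hy, hyw⟩ := hB
  have hy' := mem_Ch.1 hy
  have hbig : ∀ v ∈ Tot Δ U e j, ∀ N G, d + 1 ≤ G.card → v N G = 0 := by
    intro v hv N G hG
    refine ((mem_Tot.1 hv) N G).2 fun h => ?_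
    have h3 := hS.card_le _ (hdn _ h.2.1 _ (subset_union_right (s₁ := N) (s₂ := G)))
    omega
  rcases j with _ | j
  · have hy0 : y = 0 := by
      funext G
      refine (hy' G).2 fun h => ?_
      have h3 := hS.card_le _ h.1
      omega
    have hP : Pr ε w = 0 := by rw [← hyw, hy0, map_zero]
    exact col_ind h1 h2 hS U e 0 (d + 1) w hw hD hP (hbig w hw)
  · -- the chain `y` comes from the double complex
    have hfac : ∀ G : Finset (Fin n), ∃ Φ : Finset (Fin n), G ∈ Δ →
        Φ ∈ Δ ∧ G ⊆ Φ ∧ Φ.card = d := by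
      intro G
      by_cases hG : G ∈ Δ
      · obtain ⟨Φ, h3, h4, h5⟩ := hS.pure G hG
        exact ⟨Φ, fun _ => ⟨h3, h4, h5⟩⟩
      · exact ⟨∅, fun h => absurd h hG⟩
    choose Φ hΦ using hfac
    let w' : Finset (Fin n) → Finset (Fin n) → S := fun N G =>
      if G ∈ Δ ∧ G.card = i + 1 ∧ N = Φ G \ G then (sh K N G * ε (N ∪ G))⁻¹ • y G else 0
    have hw0 : ∀ N G, ¬ (G ∈ Δ ∧ G.card = i + 1 ∧ N = Φ G \ G) → w' N G = 0 :=
      fun N G h => if_neg h
    have hw1 : ∀ N G, (G ∈ Δ ∧ G.card = i + 1 ∧ N = Φ G \ G) →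
        w' N G = (sh K N G * ε (N ∪ G))⁻¹ • y G := fun N G h => if_pos h
    have hw'T : w' ∈ Tot Δ U e j := by
      rw [mem_Tot]
      intro N G
      constructor
      · by_cases h : G ∈ Δ ∧ G.card = i + 1 ∧ N = Φ G \ G
        · rw [hw1 N G h]
          exact (KK U e G).smul_mem _ (hy' G).1
        · rw [hw0 N G h]
          exact (KK U e G).zero_mem
      · intro h
        refine hw0 N G fun h' => h ?_
        obtain ⟨h3, h4, h5⟩ := h'
        obtain ⟨h6, h7, h8⟩ := hΦ G h3
        rw [h5, sdiff_union_of_subset h7]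
        refine ⟨disjoint_sdiff_self_left, h6, ?_⟩
        rw [card_sdiff_of_subset h7, h8, h4]
        omega
    have hPw' : Pr ε w' = y := by
      funext G
      rw [Pr_apply]
      by_cases h : G ∈ Δ ∧ G.card = i + 1
      · obtain ⟨h6, h7, h8⟩ := hΦ G h.1
        rw [Finset.sum_eq_single (Φ G \ G)]
        · rw [hw1 _ _ ⟨h.1, h.2, rfl⟩, smul_smul, mul_inv_cancel₀, one_smul]
          refine mul_ne_zero ?_ ?_
          · intro h9
            have h10 := sh_sq K (Φ G \ G) G
            rw [h9, mul_zero] at h10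
            exact zero_ne_one h10
          · rw [sdiff_union_of_subset h7]
            exact hS.nz _ h6 h8
        · intro N _ hN
          rw [hw0 N G (fun h' => hN h'.2.2), smul_zero]
        · intro hN
          have hd1 : Disjoint (Φ G \ G) G := disjoint_sdiff_self_left
          exact absurd (mem_filter.2 ⟨mem_univ (Φ G \ G), hd1⟩) hN
      · rw [(hy' G).2 (fun h' => h ⟨h'.1, h'.2.2⟩)]
        refine Finset.sum_eq_zero fun N _ => ?_
        rw [hw0 N G (fun h' => h ⟨h'.1, h'.2.1⟩), smul_zero]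
    have hP1 : Pr ε (DD K Δ w') = (-1 : K) ^ j • Pr ε w := by
      rw [hPD j w' hw'T, hPw', hyw]
    have hsgn : ((-1 : K) ^ j) * (-1) ^ j = 1 := neg_one_sq_pow K j
    set v := w - (-1 : K) ^ j • DD K Δ w' with hv
    have hvT : v ∈ Tot Δ U e (j + 1) :=
      (Tot Δ U e (j + 1)).sub_mem hw ((Tot Δ U e (j + 1)).smul_mem _ (hDT j w' hw'T))
    have hvD : DD K Δ v = 0 := by
      rw [hv, map_sub, map_smul, hD, hDD, smul_zero, sub_zero]
    have hvP : Pr ε v = 0 := by
      rw [hv, map_sub, map_smul, hP1, smul_smul, hsgn, one_smul, sub_self]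
    obtain ⟨b, hb, hb'⟩ := col_ind h1 h2 hS U e (j + 1) (d + 1) v hvT hvD hvP (hbig v hvT)
    refine ⟨b + (-1 : K) ^ j • w', (Tot Δ U e j).add_mem hb ((Tot Δ U e j).smul_mem _ hw'T), ?_⟩
    rw [map_add, hb', map_smul, hv]
    abel

end Pool.Agent.H14.CL
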