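import Pool.Agent.H14.CL.Stm

/-!
Project CL, row LK3: the link datum.
-/

set_option autoImplicit false

namespace Pool.Agent.H14.CL

open Finset

theorem st_datLk (h1 : StSphLk) : StDatLk := by
  intro n K S _ _ _ Δ U e B h ε d D u hu h' hh
  have hdn := D.sph.dn
  -- vertices of the link
  have hv : ∀ v, ({v} : Finset (Fin n)) ∈ lk Δ u → ({v} : Finset (Fin n)) ∈ Δ ∧
      ∀ x ∈ U, e u (e v x) = - e v (e u x) := by
    intro v hvl
    have hvD := lk_vertex_sub hvl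
    refine ⟨hvD, fun x hx => ?_⟩
    have h2 := ((lk_vertex hdn).mp hvl).2
    have h3 := D.rel u v hu hvD x hx
    rw [D.bz u v h2, zero_smul] at h3
    exact eq_neg_of_add_eq_zero_left h3
  have hKU : ∀ x, x ∈ KK U e {u} → x ∈ U := fun x hx => hx.1
  have hKu : ∀ x, x ∈ KK U e {u} → e u x = 0 := fun x hx => hx.2 u (mem_singleton_self u)
  have hmk : ∀ x, x ∈ U → e u x = 0 → x ∈ KK U e {u} := by
    intro x hx hx'
    refine ⟨hx, fun v hv => ?_⟩
    rw [mem_singleton] at hv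
    rw [hv, hx']
  have hinv : ∀ v, ({v} : Finset (Fin n)) ∈ lk Δ u → ∀ x ∈ KK U e {u}, e v x ∈ KK U e {u} := by
    intro v hvl x hx
    obtain ⟨k1, k2⟩ := hv v hvl
    refine hmk _ (D.inv v k1 x (hKU x hx)) ?_
    rw [k2 x (hKU x hx), hKu x hx, map_zero, neg_zero]
  have hex : ∀ x ∈ KK U e {u}, ∃ t ∈ U, e u t = x := by
    intro x hx
    obtain ⟨t, ht, ht'⟩ := D.kos ∅ D.sph.empty u (notMem_empty u) (by simpa using hu) x
      (by rw [KK_empty]; exact hKU x hx) (hKu x hx)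
    rw [KK_empty] at ht
    exact ⟨t, ht, ht'⟩
  refine ⟨h1 n K Δ ε d D.sph u hu, hinv, ?_, ?_, ?_, D.bs, ?_, ?_, ?_, ?_⟩
  · intro v hvl x hx
    exact D.sq v (hv v hvl).1 x (hKU x hx)
  · intro v w hvl hwl x hx
    exact D.rel v w (hv v hvl).1 (hv w hwl).1 x (hKU x hx)
  · intro v w hvw
    exact D.bz v w (lk_sub hvw)
  · intro F hF w hw hwF x hx hx'
    rw [KK_single_KK] at hx ⊢
    obtain ⟨k1, k2⟩ := (mem_lk' hdn).mp hF
    obtain ⟨k3, k4⟩ := (mem_lk' hdn).mp hwF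
    rw [mem_insert, not_or] at k3
    refine D.kos (insert u F) k2 w ?_ ?_ x hx hx'
    · rw [mem_insert, not_or]
      exact ⟨Ne.symm k3.1, hw⟩
    · rw [Finset.insert_comm]
      exact k4
  · intro v hvl x hx y hy
    obtain ⟨k1, k2⟩ := hv v hvl
    obtain ⟨t, ht, rfl⟩ := hex y hy
    rw [hh _ (hinv v hvl x hx) t ht, D.adj v k1 x (hKU x hx) t ht]
    have h3 : e v (e u t) = - e u (e v t) := by rw [k2 t ht, neg_neg]
    rw [h3, map_neg, hh x hx _ (D.inv v k1 t ht), pow_succ]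
    ring
  · intro x hx y hy
    obtain ⟨s, hs, rfl⟩ := hex x hx
    obtain ⟨t, ht, rfl⟩ := hex y hy
    have hsu : e u s ∈ U := D.inv u hu s hs
    have htu : e u t ∈ U := D.inv u hu t ht
    rw [hh _ hx t ht, D.adj u hu s hs t ht, D.sym s hs _ htu, hh _ hy s hs]
    have h3 : (d + 1).choose 2 = d + d.choose 2 := by
      rw [Nat.choose_succ_succ' d 1, Nat.choose_one_right]
    have h4 : ((-1 : K) ^ d) * (-1) ^ d = 1 := neg_one_sq_pow K d
    rw [h3, pow_add, pow_add, pow_add]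
    linear_combination ((-1 : K) ^ (d.choose 2) * h (e u t) s) * h4
  · intro x hx hx'
    refine D.nd x (hKU x hx) fun t ht => ?_
    rw [← hh x hx t ht]
    exact hx' _ (hmk _ (D.inv u hu t ht) (D.sq u hu t ht))

end Pool.Agent.H14.CL
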