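import Pool.Agent.H14.CL.Stm

/-!
Project CL, row EU1: dimensions.
-/

set_option autoImplicit false

namespace Pool.Agent.H14.CL

open Finset Module

section aux

variable {n : ℕ} {K : Type} [Field K] {S : Type} [AddCommGroup S] [Module K S]

/-- rank and nullity for a restriction -/
private theorem eu_rn {V : Type} [AddCommGroup V] [Module K V] [FiniteDimensional K V]
    (f : V →ₗ[K] V) (p : Submodule K V) :
    finrank K (p.map f) + finrank K (p ⊓ LinearMap.ker f : Submodule K V) = finrank K p := by
  have h := LinearMap.finrank_range_add_finrank_ker (f.domRestrict p)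
  rw [LinearMap.range_domRestrict] at h
  rw [← h, (p.equivSubtypeMap (LinearMap.ker (f.domRestrict p))).finrank_eq,
    LinearMap.ker_domRestrict, Submodule.map_comap_subtype]

/-- the square of the boundary is zero -/
theorem eu_bd_bd (x : Finset (Fin n) → S) : bd K (bd K x) = 0 := by
  funext G
  rw [bd_apply]
  simp only [bd_apply, Finset.smul_sum, smul_smul]
  rw [Finset.sum_sigma', Pi.zero_apply]
  refine Finset.sum_involution (fun p _ => ⟨p.2, p.1⟩) ?_ ?_ ?_ ?_
  · rintro ⟨u, v⟩ hp
    simp only [mem_sigma, mem_filter, mem_univ, true_and, mem_insert, not_or] at hp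
    obtain ⟨hu, hvu, hv⟩ := hp
    simp only
    rw [Finset.insert_comm v u, ← add_smul]
    have h := tau_swap K (N := G) hvu hv hu
    have h2 : tau K u G * tau K v (insert u G) + tau K v G * tau K u (insert v G) = 0 := by
      linear_combination h
    rw [h2, zero_smul]
  · rintro ⟨u, v⟩ hp _ he
    simp only [mem_sigma, mem_filter, mem_univ, true_and, mem_insert, not_or] at hp
    exact hp.2.1 (congrArg Sigma.fst he)
  · rintro ⟨u, v⟩ hp
    simp only [mem_sigma, mem_filter, mem_univ, true_and, mem_insert, not_or] at hp ⊢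
    exact ⟨hp.2.2, fun h => hp.2.1 h.symm, hp.1⟩
  · rintro ⟨u, v⟩ _
    rfl

/-- the boundary of a chain -/
theorem eu_bd_mem {Δ : Finset (Finset (Fin n))} (hd : Down Δ) {U : Submodule K S}
    {e : Fin n → S →ₗ[K] S} {j : ℕ} {x : Finset (Fin n) → S} (hx : x ∈ Ch Δ U e univ (j + 1)) :
    bd K x ∈ Ch Δ U e univ j := by
  rw [mem_Ch]
  intro G
  rw [bd_apply]
  constructor
  · refine Submodule.sum_mem _ fun u _ => Submodule.smul_mem _ _ ?_
    exact KK_anti U e (subset_insert u G) ((mem_Ch.mp hx) (insert u G)).1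
  · intro hG
    refine Finset.sum_eq_zero fun u hu => ?_
    rw [mem_filter] at hu
    rw [((mem_Ch.mp hx) (insert u G)).2, smul_zero]
    rintro ⟨h1, _, h3⟩
    apply hG
    rw [card_insert_of_notMem hu.2] at h3
    exact ⟨hd _ h1 _ (subset_insert u G), subset_univ _, by omega⟩

/-- the boundary of a chain of size zero -/
theorem eu_bd_zero {Δ : Finset (Finset (Fin n))} {U : Submodule K S}
    {e : Fin n → S →ₗ[K] S} {x : Finset (Fin n) → S} (hx : x ∈ Ch Δ U e univ 0) :
    bd K x = 0 := by
  funext G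
  rw [bd_apply, Pi.zero_apply]
  refine Finset.sum_eq_zero fun u hu => ?_
  rw [((mem_Ch.mp hx) (insert u G)).2, smul_zero]
  rintro ⟨_, _, h3⟩
  exact absurd h3 (Finset.card_ne_zero_of_mem (mem_insert_self u G))

/-- chains as families -/
private def eu_equiv (Δ : Finset (Finset (Fin n))) (U : Submodule K S) (e : Fin n → S →ₗ[K] S)
    (j : ℕ) : Ch Δ U e univ j ≃ₗ[K] ((F : {F : Finset (Fin n) // F ∈ Δ ∧ F.card = j}) →
      KK U e F.1) where
  toFun x := fun F => ⟨x.1 F.1, (x.2 F.1).1⟩
  map_add' := fun x y => rfl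
  map_smul' := fun c x => rfl
  invFun y := ⟨fun G => if h : G ∈ Δ ∧ G.card = j then (y ⟨G, h⟩ : S) else 0, fun G => by
    constructor
    · by_cases h : G ∈ Δ ∧ G.card = j
      · simp only [dif_pos h]
        exact (y ⟨G, h⟩).2
      · simp only [dif_neg h]
        exact (KK U e G).zero_mem
    · intro hG
      have h : ¬ (G ∈ Δ ∧ G.card = j) := fun h => hG ⟨h.1, subset_univ _, h.2⟩
      simp only [dif_neg h]⟩
  left_inv x := by
    apply Subtype.ext
    funext G
    by_cases h : G ∈ Δ ∧ G.card = j
    · simp only [dif_pos h]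
    · simp only [dif_neg h]
      exact ((x.2 G).2 fun h2 => h ⟨h2.1, h2.2.2⟩).symm
  right_inv y := by
    funext F
    apply Subtype.ext
    simp only [dif_pos F.2]

private theorem eu_finrank_Ch [FiniteDimensional K S] (Δ : Finset (Finset (Fin n)))
    (U : Submodule K S) (e : Fin n → S →ₗ[K] S) (j : ℕ) :
    finrank K (Ch Δ U e univ j) =
      ∑ F ∈ Δ.filter (fun F => F.card = j), finrank K (KK U e F) := by
  classical
  rw [(eu_equiv Δ U e j).finrank_eq, Module.finrank_pi_fintype]
  symm
  refine Finset.sum_subtype _ (fun F => ?_) _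
  rw [mem_filter]

end aux

section data

variable {n : ℕ} {K : Type} [Field K] {S : Type} [AddCommGroup S] [Module K S]
  [FiniteDimensional K S] {Δ : Finset (Finset (Fin n))} {U : Submodule K S}
  {e : Fin n → S →ₗ[K] S} {B : Fin n → Fin n → K} {h : S →ₗ[K] S →ₗ[K] K}
  {ε : Finset (Fin n) → K} {d : ℕ}

/-- the dimension of the common kernel of a face -/
theorem eu_finrank_KK (hD : Dat Δ U e B h ε d) (F : Finset (Fin n)) (hF : F ∈ Δ) :
    finrank K (KK U e F) * 2 ^ F.card = finrank K U := by
  have hd : Down Δ := hD.sph.dn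
  induction F using Finset.induction_on with
  | empty => rw [KK_empty, card_empty, pow_zero, mul_one]
  | insert u F hu ih =>
    have hF' : F ∈ Δ := hd _ hF _ (subset_insert u F)
    have hu' : ({u} : Finset (Fin n)) ∈ Δ :=
      hd _ hF _ (singleton_subset_iff.mpr (mem_insert_self u F))
    rw [← ih hF', card_insert_of_notMem hu]
    have h1 := eu_rn (e u) (KK U e F)
    have h2 : KK U e F ⊓ LinearMap.ker (e u) = KK U e (insert u F) := by
      ext x
      rw [Submodule.mem_inf, LinearMap.mem_ker, mem_KK, mem_KK]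
      constructor
      · rintro ⟨⟨h3, h4⟩, h5⟩
        refine ⟨h3, fun v hv => ?_⟩
        rcases mem_insert.mp hv with rfl | h6
        · exact h5
        · exact h4 v h6
      · rintro ⟨h3, h4⟩
        exact ⟨⟨h3, fun v hv => h4 v (mem_insert_of_mem hv)⟩, h4 u (mem_insert_self u F)⟩
    have h3 : (KK U e F).map (e u) = KK U e (insert u F) := by
      ext x
      rw [Submodule.mem_map]
      constructor
      · rintro ⟨y, hy, rfl⟩
        rw [mem_KK]
        refine ⟨hD.inv u hu' y hy.1, fun v hv => ?_⟩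
        rcases mem_insert.mp hv with rfl | h6
        · exact hD.sq v hu' y hy.1
        · have hv' : ({v} : Finset (Fin n)) ∈ Δ := hd _ hF' _ (singleton_subset_iff.mpr h6)
          have h7 := hD.rel v u hv' hu' y hy.1
          have h8 : ({v, u} : Finset (Fin n)) ∈ Δ := by
            apply hd _ hF
            intro z hz
            rw [mem_insert, mem_singleton] at hz
            rcases hz with rfl | rfl
            · exact mem_insert_of_mem h6
            · exact mem_insert_self _ _
          rw [hD.bz v u h8, hy.2 v h6, map_zero, add_zero, zero_smul] at h7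
          exact h7
      · intro hx
        rw [← h2, Submodule.mem_inf, LinearMap.mem_ker] at hx
        obtain ⟨y, hy, hy2⟩ := hD.kos F hF' u hu hF x hx.1 hx.2
        exact ⟨y, hy, hy2⟩
    rw [h2, h3] at h1
    rw [← h1, pow_succ]
    ring

end data

theorem st_euler : StEuler := by
  intro n K S _ _ _ _ Δ U e B h ε d hD i hex
  classical
  have hd : Down Δ := hD.sph.dn
  -- cycles and boundaries
  set Z : ℕ → Submodule K (Finset (Fin n) → S) :=
    fun j => Ch Δ U e univ j ⊓ LinearMap.ker (bd K) with hZ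
  set R : ℕ → Submodule K (Finset (Fin n) → S) :=
    fun j => (Ch Δ U e univ (j + 1)).map (bd K) with hR
  have hRZ : ∀ j, R j ≤ Z j := by
    intro j x hx
    obtain ⟨y, hy, rfl⟩ := hx
    exact ⟨eu_bd_mem hd hy, LinearMap.mem_ker.mpr (eu_bd_bd y)⟩
  have hle : ∀ j, finrank K (R j) ≤ finrank K (Z j) := fun j => Submodule.finrank_mono (hRZ j)
  have hrn : ∀ j, (finrank K (Ch Δ U e univ (j + 1)) : ℤ) =
      finrank K (R j) + finrank K (Z (j + 1)) := by
    intro j
    have h1 := eu_rn (bd K) (Ch Δ U e univ (j + 1))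
    rw [hR, hZ]
    exact_mod_cast h1.symm
  have hz0 : (finrank K (Ch Δ U e univ 0) : ℤ) = finrank K (Z 0) := by
    have h1 : Z 0 = Ch Δ U e univ 0 := by
      rw [hZ]
      simp only [inf_eq_left]
      intro x hx
      exact LinearMap.mem_ker.mpr (eu_bd_zero hx)
    rw [h1]
  have hexj : ∀ j, j ≠ i → (finrank K (Z j) : ℤ) - finrank K (R j) = 0 := by
    intro j hj
    have h1 : Z j = R j := by
      apply le_antisymm _ (hRZ j)
      rintro x ⟨hx, hx2⟩
      obtain ⟨y, hy, hy2⟩ := hex j hj x hx (LinearMap.mem_ker.mp hx2)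
      exact ⟨y, hy, hy2⟩
    rw [h1, sub_self]
  -- the alternating sum
  have halt : ∀ M : ℕ, ∑ j ∈ range (M + 1), (-1 : ℤ) ^ j * finrank K (Ch Δ U e univ j) =
      ∑ j ∈ range M, (-1 : ℤ) ^ j * ((finrank K (Z j) : ℤ) - finrank K (R j)) +
        (-1) ^ M * finrank K (Z M) := by
    intro M
    induction M with
    | zero => simp [hz0]
    | succ M ih =>
      rw [Finset.sum_range_succ, ih, hrn M, Finset.sum_range_succ, pow_succ]
      ring
  have hZM : ∀ M, d < M → finrank K (Z M) = 0 := by
    intro M hM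
    have h1 : finrank K (Z M) ≤ finrank K (Ch Δ U e univ M) :=
      Submodule.finrank_mono inf_le_left
    have h2 : finrank K (Ch Δ U e univ M) = 0 := by
      rw [eu_finrank_Ch]
      apply Finset.sum_eq_zero
      intro F hF
      rw [mem_filter] at hF
      have := hD.sph.card_le F hF.1
      omega
    omega
  set M := max d i + 1 with hM
  have hdM : d < M := lt_of_le_of_lt (le_max_left d i) (Nat.lt_succ_self _)
  have hiM : i < M := lt_of_le_of_lt (le_max_right d i) (Nat.lt_succ_self _)
  have hsum1 : ∑ j ∈ range (M + 1), (-1 : ℤ) ^ j * finrank K (Ch Δ U e univ j) =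
      (-1) ^ i * ((finrank K (Z i) : ℤ) - finrank K (R i)) := by
    rw [halt M, hZM M hdM, Finset.sum_eq_single i]
    · simp
    · intro j _ hj
      rw [hexj j hj, mul_zero]
    · intro hi
      exact absurd (mem_range.mpr hiM) hi
  have hsum2 : ∑ j ∈ range (M + 1), (-1 : ℤ) ^ j * finrank K (Ch Δ U e univ j) =
      ∑ F ∈ Δ, (-1 : ℤ) ^ F.card * finrank K (KK U e F) := by
    rw [← Finset.sum_fiberwise_of_maps_to (s := Δ) (t := range (M + 1)) (g := Finset.card)
      (fun F hF => by
        rw [mem_range]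
        have := hD.sph.card_le F hF
        omega)]
    refine Finset.sum_congr rfl fun j _ => ?_
    rw [eu_finrank_Ch, Nat.cast_sum, Finset.mul_sum]
    refine Finset.sum_congr rfl fun F hF => ?_
    rw [(mem_filter.mp hF).2]
  refine ⟨finrank K (Z i) - finrank K (R i), ?_, ?_⟩
  · rw [Nat.cast_sub (hle i)]
    have h3 : (finrank K U : ℤ) * ∑ F ∈ Δ, (-1 : ℤ) ^ F.card * 2 ^ (d - F.card) =
        2 ^ d * ∑ F ∈ Δ, (-1 : ℤ) ^ F.card * finrank K (KK U e F) := by
      rw [Finset.mul_sum, Finset.mul_sum]
      refine Finset.sum_congr rfl fun F hF => ?_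
      have h4 : (finrank K U : ℤ) = finrank K (KK U e F) * 2 ^ F.card := by
        exact_mod_cast (eu_finrank_KK hD F hF).symm
      have h5 : (2 : ℤ) ^ d = 2 ^ F.card * 2 ^ (d - F.card) := by
        rw [← pow_add, Nat.add_sub_cancel' (hD.sph.card_le F hF)]
      rw [h4, h5]
      ring
    rw [h3, ← hsum2, hsum1]
    ring
  · intro hc x hx hx2
    have h1 : finrank K (Z i) ≤ finrank K (R i) := Nat.sub_eq_zero_iff_le.mp hc
    have h2 : R i = Z i := Submodule.eq_of_le_of_finrank_le (hRZ i) h1
    have h3 : x ∈ R i := by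
      rw [h2]
      exact ⟨hx, LinearMap.mem_ker.mpr hx2⟩
    obtain ⟨y, hy, hy2⟩ := h3
    exact ⟨y, hy, hy2⟩

end Pool.Agent.H14.CL
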