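import Pool.Agent.H14.CL.Stm

/-!
Project CL (MP_32beb3_co), row TI3: positivity of one facet.
-/

set_option autoImplicit false

namespace Pool.Agent.H14.CL

open Finset

section general

theorem ti3_opL {n : ℕ} {S : Type} [AddCommGroup S] [Module ℝ S] (g : Fin n → S →ₗ[ℝ] S)
    (L : List (Fin n)) :
    opL g L = ((L.reverse.map (fun i => (g i : Module.End ℝ S))).prod : Module.End ℝ S) := by
  induction L with
  | nil => rfl
  | cons c t ih =>
    rw [List.reverse_cons, List.map_append, List.prod_append, List.map_singleton,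
      List.prod_singleton, ← ih]
    rfl

/-- an alternating map of top degree is a multiple of the determinant -/
theorem ti3_det {d : ℕ} {V A : Type} [AddCommGroup V] [Module ℝ V] [AddCommGroup A] [Module ℝ A]
    (e : Module.Basis (Fin d) ℝ V) (F : V [⋀^Fin d]→ₗ[ℝ] A) (v : Fin d → V) :
    F v = e.det v • F e := by
  have h : F = (LinearMap.toSpanSingleton ℝ A (F e)).compAlternatingMap e.det := by
    refine e.ext_alternating fun w hw => ?_
    let σ : Equiv.Perm (Fin d) := Equiv.ofBijective w (Finite.injective_iff_bijective.1 hw)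
    have h1 : (fun i => e (w i)) = (fun i => e i) ∘ σ := rfl
    rw [h1, AlternatingMap.map_perm, AlternatingMap.map_perm]
    congr 1
    rw [LinearMap.compAlternatingMap_apply, LinearMap.toSpanSingleton_apply, e.det_self, one_smul]
  exact congrArg (fun G : V [⋀^Fin d]→ₗ[ℝ] A => G v) h

/-- the product of the operators is alternating -/
theorem ti3_alt {d : ℕ} {V S : Type} [AddCommGroup V] [Module ℝ V] [AddCommGroup S] [Module ℝ S]
    (e : Module.Basis (Fin d) ℝ V) (f : V →ₗ[ℝ] Module.End ℝ S) (hf : ∀ v, f v * f v = 0)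
    (v : Fin d → V) : opL (fun i => f (v i)) (List.finRange d) =
      e.det v • opL (fun i => f (e i)) (List.finRange d) := by
  let F : V [⋀^Fin d]→ₗ[ℝ] Module.End ℝ S :=
    ((ExteriorAlgebra.lift ℝ ⟨f, hf⟩).toLinearMap.compAlternatingMap
      (ExteriorAlgebra.ιMulti ℝ d)).domDomCongr Fin.revPerm
  have hF : ∀ v : Fin d → V, F v = opL (fun i => f (v i)) (List.finRange d) := by
    intro v
    rw [ti3_opL, List.finRange_reverse, List.map_map]
    change (ExteriorAlgebra.lift ℝ ⟨f, hf⟩) (ExteriorAlgebra.ιMulti ℝ d fun i => v (Fin.rev i)) = _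
    rw [ExteriorAlgebra.ιMulti_apply, map_list_prod, List.ofFn_eq_map, List.map_map]
    congr 1
    refine List.map_congr_left fun i _ => ?_
    exact ExteriorAlgebra.lift_ι_apply ℝ f hf (v (Fin.rev i))
  have h := ti3_det e F v
  rw [hF, hF] at h
  exact h

end general

section clif

variable {d N : ℕ} {S : Type} [NormedAddCommGroup S] [InnerProductSpace ℝ S]
  {γ : (Fin d → ℝ) →ₗ[ℝ] S →ₗ[ℝ] S} {δ : (Fin N → ℝ) →ₗ[ℝ] S →ₗ[ℝ] S}

theorem ti3_gsq (hC : Clif S γ δ) (p : Fin d → ℝ) (x : S) : γ p (γ p x) = (p ⬝ᵥ p) • x := by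
  have h := hC.gg p p x
  have h2 : (2 : ℝ) • γ p (γ p x) = (2 : ℝ) • ((p ⬝ᵥ p) • x) := by
    rw [two_smul, smul_smul]; exact h
  exact smul_right_injective S (two_ne_zero) h2

theorem ti3_dsq (hC : Clif S γ δ) (q : Fin N → ℝ) (x : S) : δ q (δ q x) = -((q ⬝ᵥ q) • x) := by
  have h := hC.dd q q x
  have h2 : (2 : ℝ) • δ q (δ q x) = (2 : ℝ) • -((q ⬝ᵥ q) • x) := by
    rw [two_smul, h, smul_neg, smul_smul, ← neg_smul]
    congr 1
    ring
  exact smul_right_injective S (two_ne_zero) h2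

theorem ti3_null (hC : Clif S γ δ) (T : (Fin d → ℝ) →ₗ[ℝ] (Fin N → ℝ))
    (hT : ∀ x y, T x ⬝ᵥ T y = x ⬝ᵥ y) (v : Fin d → ℝ) :
    ((γ v + δ (T v) : S →ₗ[ℝ] S) : Module.End ℝ S) * (γ v + δ (T v)) = 0 := by
  apply LinearMap.ext
  intro x
  change γ v (γ v x + δ (T v) x) + δ (T v) (γ v x + δ (T v) x) = 0
  rw [map_add, map_add, ti3_gsq hC, ti3_dsq hC, hT]
  rw [eq_neg_of_add_eq_zero_left (hC.gd v (T v) x)]
  abel

/-- the product of `1 + s_i` -/
theorem ti3_core (hC : Clif S γ δ) (T : (Fin d → ℝ) →ₗ[ℝ] (Fin N → ℝ))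
    (hT : ∀ x y, T x ⬝ᵥ T y = x ⬝ᵥ y) (L : List (Fin d)) (hL : L.Nodup) :
    ∃ Y : Module.End ℝ S, Y = (L.map (fun i => (γ (Pi.single i 1) : Module.End ℝ S))).prod *
        opL (fun i => γ (Pi.single i 1) + δ (T (Pi.single i 1))) L ∧
      (∀ k, k ∉ L → (∀ x, γ (Pi.single k 1) (Y x) = Y (γ (Pi.single k 1) x)) ∧
        ∀ x, δ (T (Pi.single k 1)) (Y x) = Y (δ (T (Pi.single k 1)) x)) ∧
      (∀ x y, inner ℝ (Y x) y = inner ℝ x (Y y)) ∧
      ∀ x, Y (Y x) = (2 : ℝ) ^ L.length • Y x := by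
  induction L with
  | nil =>
    refine ⟨1, ?_, ?_, ?_, ?_⟩
    · simp only [List.map_nil, List.prod_nil, one_mul]; rfl
    · intro k _; exact ⟨fun x => rfl, fun x => rfl⟩
    · intro x y; rfl
    · intro x; simp
  | cons c t ih =>
    rw [List.nodup_cons] at hL
    obtain ⟨Y, hY, hc, hsym, hsq⟩ := ih hL.2
    obtain ⟨ha, hb⟩ := hc c hL.1
    have hcc : (Pi.single c (1 : ℝ) : Fin d → ℝ) ⬝ᵥ Pi.single c 1 = 1 := by
      rw [single_one_dotProduct, Pi.single_eq_same]
    have hkc : ∀ k, k ≠ c → (Pi.single k (1 : ℝ) : Fin d → ℝ) ⬝ᵥ Pi.single c 1 = 0 := by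
      intro k hk
      rw [single_one_dotProduct, Pi.single_eq_of_ne hk]
    have ga : ∀ x, γ (Pi.single c 1) (γ (Pi.single c 1) x) = x := by
      intro x; rw [ti3_gsq hC, hcc, one_smul]
    have db : ∀ x, δ (T (Pi.single c 1)) (δ (T (Pi.single c 1)) x) = -x := by
      intro x; rw [ti3_dsq hC, hT, hcc, one_smul]
    have gd : ∀ (u w : Fin d → ℝ) x, δ (T u) (γ w x) = - γ w (δ (T u) x) := fun u w x =>
      eq_neg_of_add_eq_zero_right (hC.gd w (T u) x)
    -- the involution
    obtain ⟨s, hs⟩ : ∃ s : Module.End ℝ S, ∀ x, s x =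
        γ (Pi.single c 1) (δ (T (Pi.single c 1)) x) :=
      ⟨(γ (Pi.single c 1)).comp (δ (T (Pi.single c 1))), fun x => rfl⟩
    have hss : ∀ x, s (s x) = x := by
      intro x
      rw [hs, hs, gd, map_neg, ga, db, neg_neg]
    have hsY : ∀ x, s (Y x) = Y (s x) := by
      intro x
      rw [hs, hs, hb, ha]
    have hssym : ∀ x y, inner ℝ (s x) y = inner ℝ x (s y) := by
      intro x y
      rw [hs, hs, hC.ga, hC.da, gd, inner_neg_right, neg_neg]
    refine ⟨Y * (1 + s), ?_, ?_, ?_, ?_⟩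
    · apply LinearMap.ext
      intro x
      rw [List.map_cons, List.prod_cons]
      change Y (x + s x) = γ (Pi.single c 1)
        (((t.map (fun i => (γ (Pi.single i 1) : Module.End ℝ S))).prod : Module.End ℝ S)
          (opL (fun i => γ (Pi.single i 1) + δ (T (Pi.single i 1))) t
            (γ (Pi.single c 1) x + δ (T (Pi.single c 1)) x)))
      have h1 : ∀ z, (((t.map (fun i => (γ (Pi.single i 1) : Module.End ℝ S))).prod :
          Module.End ℝ S) (opL (fun i => γ (Pi.single i 1) + δ (T (Pi.single i 1))) t z)) = Y z := by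
        intro z; rw [hY]; rfl
      rw [h1, ha, map_add (γ (Pi.single c 1)), ga, hs]
    · intro k hk
      rw [List.mem_cons, not_or] at hk
      obtain ⟨hk1, hk2⟩ := hc k hk.2
      have e1 : ∀ x, γ (Pi.single k 1) (γ (Pi.single c 1) x) =
          - γ (Pi.single c 1) (γ (Pi.single k 1) x) := by
        intro x
        have h := hC.gg (Pi.single k 1) (Pi.single c 1) x
        rw [hkc k hk.1, mul_zero, zero_smul] at h
        exact eq_neg_of_add_eq_zero_left h
      have e2 : ∀ x, δ (T (Pi.single k 1)) (δ (T (Pi.single c 1)) x) =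
          - δ (T (Pi.single c 1)) (δ (T (Pi.single k 1)) x) := by
        intro x
        have h := hC.dd (T (Pi.single k 1)) (T (Pi.single c 1)) x
        rw [hT, hkc k hk.1, mul_zero, zero_smul] at h
        exact eq_neg_of_add_eq_zero_left h
      constructor
      · intro x
        change γ (Pi.single k 1) (Y (x + s x)) = Y (γ (Pi.single k 1) x + s (γ (Pi.single k 1) x))
        rw [hk1, map_add (γ (Pi.single k 1)), hs, hs, e1, gd, map_neg]
      · intro x
        change δ (T (Pi.single k 1)) (Y (x + s x)) =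
          Y (δ (T (Pi.single k 1)) x + s (δ (T (Pi.single k 1)) x))
        rw [hk2, map_add (δ (T (Pi.single k 1))), hs, hs, gd, e2, map_neg, neg_neg]
    · intro x y
      change inner ℝ (Y (x + s x)) y = inner ℝ x (Y (y + s y))
      rw [hsym, map_add Y, ← hsY, inner_add_left, inner_add_right, hssym]
    · intro x
      change Y (Y (x + s x) + s (Y (x + s x))) = (2 : ℝ) ^ (t.length + 1) • Y (x + s x)
      rw [hsY, ← map_add Y, map_add s, hss, show x + s x + (s x + x) = (2 : ℝ) • (x + s x) by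
        rw [two_smul]; abel, map_smul, map_smul, hsq, smul_smul, pow_succ']

end clif

/-- TI3 -/
theorem st_facet (h : StOm) : StFacet := by
  intro d N S _ _ γ δ hC p q hpq hp
  obtain ⟨-, -, -, hbij⟩ := h d N S γ δ hC
  let e := Pi.basisFun ℝ (Fin d)
  have hcard : Fintype.card (Fin d) = Module.finrank ℝ (Fin d → ℝ) := by
    rw [Module.finrank_fintype_fun_eq_card]
  let bp : Module.Basis (Fin d) ℝ (Fin d → ℝ) :=
    Module.Basis.mk hp (by
      rw [LinearIndependent.span_eq_top_of_card_eq_finrank' hp hcard])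
  have hbp : ∀ i, bp i = p i := fun i => Module.Basis.mk_apply _ _ i
  have hbp' : (bp : Fin d → Fin d → ℝ) = p := funext hbp
  let T : (Fin d → ℝ) →ₗ[ℝ] (Fin N → ℝ) := bp.constr ℝ q
  have hTp : ∀ i, T (p i) = q i := by
    intro i
    rw [← hbp i]
    exact bp.constr_basis ℝ q i
  have hT : ∀ x y, T x ⬝ᵥ T y = x ⬝ᵥ y := by
    let L1 : (Fin d → ℝ) →ₗ[ℝ] (Fin d → ℝ) →ₗ[ℝ] ℝ :=
      LinearMap.mk₂ ℝ (fun x y => T x ⬝ᵥ T y) (fun x x' y => by rw [map_add, add_dotProduct])
        (fun c x y => by rw [map_smul, smul_dotProduct])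
        (fun x y y' => by rw [map_add, dotProduct_add])
        (fun c x y => by rw [map_smul, dotProduct_smul])
    let L2 : (Fin d → ℝ) →ₗ[ℝ] (Fin d → ℝ) →ₗ[ℝ] ℝ :=
      LinearMap.mk₂ ℝ (fun x y => x ⬝ᵥ y) (fun x x' y => by rw [add_dotProduct])
        (fun c x y => by rw [smul_dotProduct]) (fun x y y' => by rw [dotProduct_add])
        (fun c x y => by rw [dotProduct_smul])
    have h12 : L1 = L2 := by
      refine bp.ext fun i => bp.ext fun j => ?_
      change T (bp i) ⬝ᵥ T (bp j) = bp i ⬝ᵥ bp j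
      rw [hbp, hbp, hTp, hTp, hpq]
    intro x y
    exact congrArg (fun L : (Fin d → ℝ) →ₗ[ℝ] (Fin d → ℝ) →ₗ[ℝ] ℝ => L x y) h12
  let f : (Fin d → ℝ) →ₗ[ℝ] Module.End ℝ S := γ + δ ∘ₗ T
  have hf : ∀ v, f v * f v = 0 := fun v => ti3_null hC T hT v
  have hdet := ti3_alt e f hf p
  have hfp : (fun i => f (p i)) = fun i : Fin d => γ (p i) + δ (q i) := by
    funext i
    change γ (p i) + δ (T (p i)) = _
    rw [hTp]
  have hfe : (fun i => f (e i)) =
      fun i : Fin d => γ (Pi.single i 1) + δ (T (Pi.single i 1)) := by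
    funext i
    change γ (e i) + δ (T (e i)) = _
    rw [Pi.basisFun_apply]
  rw [hfp, hfe] at hdet
  obtain ⟨Y, hY, -, hsym, hsq⟩ := ti3_core hC T hT (List.finRange d) (List.nodup_finRange d)
  have hom : om γ = ((List.finRange d).map
      (fun i => (γ (Pi.single i 1) : Module.End ℝ S))).prod := by
    unfold om
    rw [List.ofFn_eq_map]
  have hYt : ∀ t, Y t = om γ (opL (fun i => γ (Pi.single i 1) + δ (T (Pi.single i 1)))
      (List.finRange d) t) := by
    intro t
    rw [hY, hom]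
    rfl
  have hD : e.det p ≠ 0 := by
    have h1 := e.isUnit_det bp
    rw [hbp'] at h1
    exact h1.ne_zero
  have hpos : ∀ t, opL (fun i => γ (Pi.single i 1) + δ (T (Pi.single i 1)))
      (List.finRange d) t ≠ 0 → 0 < inner ℝ (Y t) t := by
    intro t ht
    have h1 : Y t ≠ 0 := by
      rw [hYt]
      intro h0
      apply ht
      apply hbij.1
      rw [h0, map_zero]
    have h2 : inner ℝ (Y t) (Y t) = (2 : ℝ) ^ (List.finRange d).length * inner ℝ (Y t) t := by
      rw [← hsym, hsq, real_inner_smul_left]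
    have h3 : 0 < inner ℝ (Y t) (Y t) := real_inner_self_pos.2 h1
    rw [h2] at h3
    exact (pos_iff_pos_of_mul_pos h3).1 (by positivity)
  rcases lt_or_gt_of_ne hD with hD' | hD'
  · refine ⟨-1, Or.inr rfl, fun t ht => ?_⟩
    rw [hdet] at ht ⊢
    rw [LinearMap.smul_apply] at ht ⊢
    have h1 := hpos t (fun h0 => ht (by rw [h0, smul_zero]))
    rw [hYt] at h1
    rw [map_smul, real_inner_smul_left]
    nlinarith
  · refine ⟨1, Or.inl rfl, fun t ht => ?_⟩
    rw [hdet] at ht ⊢
    rw [LinearMap.smul_apply] at ht ⊢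
    have h1 := hpos t (fun h0 => ht (by rw [h0, smul_zero]))
    rw [hYt] at h1
    rw [map_smul, real_inner_smul_left, one_mul]
    exact mul_pos hD' h1

end Pool.Agent.H14.CL
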