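import Pool.Agent.H14.CL.Stm

/-!
Project CL, row LK2: the form of the link of a vertex exists.
-/

set_option autoImplicit false

namespace Pool.Agent.H14.CL

open Finset

/-- LK2 -/
theorem st_hu : StHu := by
  intro n K S _ _ _ Δ U e B h ε d hD u hu
  obtain ⟨g, hg⟩ := ((e u).submoduleMap U).exists_rightInverse_of_surjective
    (LinearMap.range_eq_top.2 ((e u).submoduleMap_surjective U))
  obtain ⟨r, hr⟩ := LinearMap.exists_extend (U.subtype ∘ₗ g)
  have hrU : ∀ y ∈ U, r (e u y) ∈ U ∧ e u (r (e u y)) = e u y := by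
    intro y hy
    have hm : e u y ∈ U.map (e u) := Submodule.mem_map_of_mem hy
    have h1 : r (e u y) = (g ⟨e u y, hm⟩ : S) := by
      have := LinearMap.congr_fun hr ⟨e u y, hm⟩
      exact this
    have h2 := LinearMap.congr_fun hg ⟨e u y, hm⟩
    have h3 : e u (g ⟨e u y, hm⟩ : S) = e u y := congrArg Subtype.val h2
    rw [h1]
    exact ⟨(g ⟨e u y, hm⟩).2, h3⟩
  refine ⟨h.compl₂ r, fun x hx y hy => ?_⟩
  obtain ⟨h1, h2⟩ := hrU y hy
  have hz : r (e u y) - y ∈ U := U.sub_mem h1 hy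
  have hez : e u (r (e u y) - y) = 0 := by rw [map_sub, h2, sub_self]
  obtain ⟨y', hy', he⟩ := hD.kos ∅ hD.sph.empty u (notMem_empty u) (by simpa using hu)
    (r (e u y) - y) (by rw [KK_empty]; exact hz) hez
  rw [KK_empty] at hy'
  have h3 := hD.adj u hu x hx.1 y' hy'
  rw [hx.2 u (mem_singleton_self u), map_zero, LinearMap.zero_apply, he] at h3
  have h4 : h x (r (e u y) - y) = 0 := by
    rcases mul_eq_zero.1 h3.symm with h5 | h5
    · exact absurd h5 (pow_ne_zero _ (neg_ne_zero.2 one_ne_zero))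
    · exact h5
  rw [LinearMap.compl₂_apply]
  rw [map_sub] at h4
  exact sub_eq_zero.1 h4

end Pool.Agent.H14.CL
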