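import Pool.Agent.H14.CL.Stm

/-!
Project CL (MP_32beb3_co), row PP4: the odd identity.
-/

set_option autoImplicit false

namespace Pool.Agent.H14.CL

open Finset

section

variable {n : ℕ} {K S : Type} [Field K] [AddCommGroup S] [Module K S]

theorem i1_DD_vm (Δ : Finset (Finset (Fin n))) (α : S →ₗ[K] S)
    (w : Finset (Fin n) → Finset (Fin n) → S) :
    DD K Δ (vm α w) = vm α (DD K Δ w) := by
  funext N G
  rw [DD_apply, vm_apply, DD_apply]
  split_ifs with h
  · rw [map_sum]
    refine Finset.sum_congr rfl fun u _ => ?_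
    rw [map_smul, map_add, vm_apply, vm_apply]
  · rw [map_zero]

theorem i1_sg_vm (u : Fin n) (α : S →ₗ[K] S) (w : Finset (Fin n) → Finset (Fin n) → S) :
    sg K u (vm α w) = vm α (sg K u w) := by
  funext N G
  change (if u ∈ G then 0 else α (w N (insert u G))) =
    α (if u ∈ G then 0 else w N (insert u G))
  split_ifs
  · rw [map_zero]
  · rfl

theorem i1_vm_id (w : Finset (Fin n) → Finset (Fin n) → S) :
    vm (LinearMap.id : S →ₗ[K] S) w = w := rfl

theorem i1_sg_mem {Δ : Finset (Finset (Fin n))} {U : Submodule K S} {e : Fin n → S →ₗ[K] S}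
    {j : ℕ} {w : Finset (Fin n) → Finset (Fin n) → S} (hw : w ∈ Tot Δ U e j) (u : Fin n)
    (N G : Finset (Fin n)) : sg K u w N G ∈ KK U e {u} := by
  rw [sg_apply]
  split_ifs
  · exact (KK U e {u}).zero_mem
  · have h1 := (hw N (insert u G)).1
    refine ⟨h1.1, fun x hx => h1.2 x ?_⟩
    rw [Finset.mem_singleton.1 hx]
    exact Finset.mem_insert_self _ _

theorem i1_sg_zero {Δ : Finset (Finset (Fin n))} {U : Submodule K S} {e : Fin n → S →ₗ[K] S}
    (hd : ∀ F ∈ Δ, ∀ G, G ⊆ F → G ∈ Δ)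
    {j : ℕ} {w : Finset (Fin n) → Finset (Fin n) → S} (hw : w ∈ Tot Δ U e j) {u : Fin n}
    (hu : ({u} : Finset (Fin n)) ∉ Δ) : sg K u w = 0 := by
  funext N G
  rw [sg_apply]
  split_ifs
  · rfl
  · refine (hw N (insert u G)).2 fun h => hu (hd _ h.2.1 _ ?_)
    intro x hx
    rw [Finset.mem_singleton.1 hx]
    exact Finset.mem_union_right _ (Finset.mem_insert_self _ _)

end

theorem st_I1 (h1 : StTotD) (h2 : StStokes) (h3 : StMap) : StI1 := by
  have _ := h1
  intro n K S _ _ _ Δ U e B h ε m hD h20 hu hhu v hv w hw hdw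
  have hst := h2 n K S Δ ε (2 * m + 1) hD.sph h m (vm (e v) w) w (by
    intro N G hN
    rw [vm_apply, (hw N G).2 (fun h => hN h.2.2), map_zero])
  rw [i1_DD_vm, hdw, map_zero, map_zero, LinearMap.zero_apply, map_zero, mul_zero, add_zero] at hst
  have hs : ∑ u, PP (eps ε u) h (sg K u (vm (e v) w)) (sg K u w) = 0 := by
    have h4 : (-2 : K) ≠ 0 := neg_ne_zero.2 h20
    exact (mul_eq_zero.1 hst.symm).resolve_left h4
  rw [← hs]
  refine Finset.sum_congr rfl fun u _ => ?_
  rw [i1_sg_vm]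
  by_cases huΔ : ({u} : Finset (Fin n)) ∈ Δ
  · have hX : ∀ N G, sg K u w N G ∈ KK U e {u} := i1_sg_mem hw u
    have hpt : ∀ a ∈ KK U e {u}, ∀ b ∈ KK U e {u},
        (h.comp (e v)) a b = B u v * hu u ((LinearMap.id : S →ₗ[K] S) a)
          ((LinearMap.id : S →ₗ[K] S) b) := by
      intro a ha b hb
      obtain ⟨t, ht, htb⟩ := hD.kos ∅ hD.sph.empty u (Finset.notMem_empty u)
        (by simpa using huΔ) b ⟨hb.1, fun x hx => absurd hx (Finset.notMem_empty x)⟩
        (hb.2 u (Finset.mem_singleton_self u))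
      have hua : e u a = 0 := ha.2 u (Finset.mem_singleton_self u)
      have hev : e v a ∈ U := hD.inv v hv a ha.1
      have h4 := hD.adj u huΔ (e v a) hev t ht.1
      rw [show (-1 : K) ^ (2 * m + 1 + 1) = 1 by
        rw [show 2 * m + 1 + 1 = 2 * (m + 1) by ring, pow_mul]; simp, one_mul] at h4
      have h5 := hD.rel u v huΔ hv a ha.1
      rw [hua, map_zero, add_zero] at h5
      rw [LinearMap.comp_apply, LinearMap.id_apply, LinearMap.id_apply, ← htb, ← h4, h5,
        map_smul, LinearMap.smul_apply, smul_eq_mul, hhu u huΔ a ha t ht.1]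
    have h6 := h3 n K S (eps ε u) (h.comp (e v)) (hu u) (B u v) (KK U e {u}) (KK U e {u})
      LinearMap.id LinearMap.id (sg K u w) (sg K u w) hpt hX hX
    have h7 := h3 n K S (eps ε u) (h.comp (e v)) h 1 (KK U e {u}) (KK U e {u})
      (e v) LinearMap.id (sg K u w) (sg K u w) (fun a _ b _ => by rw [one_mul]; rfl) hX hX
    rw [i1_vm_id] at h6
    rw [i1_vm_id, one_mul] at h7
    rw [← h6, h7]
  · rw [i1_sg_zero hD.sph.down hw huΔ, map_zero, map_zero, mul_zero]

end Pool.Agent.H14.CL
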