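import Pool.Agent.H14.CL.Stm

/-!
Project CL, row PP5: the cocycle `E` of the even step.
-/

set_option autoImplicit false

namespace Pool.Agent.H14.CL

open Finset

section aux

variable {n : ℕ} {K : Type} [Field K] {S : Type} [AddCommGroup S] [Module K S]

/-- the differential commutes with linear maps of the values -/
theorem i2a_DD_vm (Δ : Finset (Finset (Fin n))) (α : S →ₗ[K] S)
    (w : Finset (Fin n) → Finset (Fin n) → S) : DD K Δ (vm α w) = vm α (DD K Δ w) := by
  funext N G
  rw [vm_apply, DD_apply, DD_apply]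
  split_ifs with h
  · rw [map_sum]
    refine Finset.sum_congr rfl fun u _ => ?_
    rw [map_smul, map_add, vm_apply, vm_apply]
  · rw [map_zero]

/-- the differential of the extension from a link -/
theorem i2a_DD_jj (Δ : Finset (Finset (Fin n))) (hd : Down Δ) (u : Fin n)
    (g : Finset (Fin n) → Finset (Fin n) → S) (N G : Finset (Fin n)) (hNG : Disjoint N G)
    (hΔ : N ∪ G ∈ Δ) :
    DD K Δ (jj K u g) N G = if u ∈ G then DD K (lk Δ u) g N (G.erase u) else
      if u ∈ N then tau K u N • g (N.erase u) G else 0 := by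
  rw [DD_apply, if_pos ⟨hNG, hΔ⟩]
  split_ifs with h1 h2
  · have huN : u ∉ N := fun h => (disjoint_left.mp hNG) h h1
    have h3 : Disjoint N (G.erase u) := hNG.mono_right (erase_subset u G)
    have h4 : N ∪ G.erase u ∈ lk Δ u := by
      rw [mem_lk' hd]
      constructor
      · rw [mem_union, not_or]
        exact ⟨huN, notMem_erase u G⟩
      · rw [← union_insert, insert_erase h1]
        exact hΔ
    rw [DD_apply, if_pos ⟨h3, h4⟩]
    refine Finset.sum_congr rfl fun x hx => ?_
    have hxu : x ≠ u := fun h => huN (h ▸ hx)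
    rw [jj_apply, jj_apply, if_pos h1, if_pos (mem_insert_of_mem h1),
      erase_insert_of_ne hxu]
  · rw [Finset.sum_eq_single u]
    · rw [jj_apply, jj_apply, if_neg h1, if_pos (mem_insert_self u G), zero_add,
        erase_insert h1]
    · intro x _ hxu
      rw [jj_apply, jj_apply, if_neg h1, if_neg, add_zero, smul_zero]
      rw [mem_insert, not_or]
      exact ⟨hxu.symm, h1⟩
    · intro h
      exact absurd h2 h
  · refine Finset.sum_eq_zero fun x hx => ?_
    have hxu : u ≠ x := fun h => h2 (h ▸ hx)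
    rw [jj_apply, jj_apply, if_neg h1, if_neg, add_zero, smul_zero]
    rw [mem_insert, not_or]
    exact ⟨hxu, h1⟩

end aux

theorem st_I2a (h1 : StTotD) : StI2a := by
  intro n K S _ _ _ Δ U e B h ε d k hD v hv w hw hw0 g hg hgu
  have hd : Down Δ := hD.sph.dn
  have hE : ∀ N G, EE Δ e B v w g N G =
      e v (w N G) - ∑ u, B u v • DD K Δ (jj K u (g u)) N G := by
    intro N G
    unfold EE
    rw [Pi.sub_apply, Pi.sub_apply, vm_apply, Finset.sum_apply, Finset.sum_apply]
    rfl
  have hgT : ∀ u, DD K (lk Δ u) (g u) ∈ Tot (lk Δ u) U e (k + 1) := fun u =>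
    (h1 n K S (lk Δ u) U e (down_lk hd u)).2.1 k (g u) (hg u)
  -- values of the differential of the extensions
  have hval : ∀ u N G, Disjoint N G → N ∪ G ∈ Δ → DD K Δ (jj K u (g u)) N G ∈ U ∧
      (∀ x ∈ G, e x (DD K Δ (jj K u (g u)) N G) = if u = x then w N G else 0) ∧
      (N.card ≠ k + 1 → DD K Δ (jj K u (g u)) N G = 0) := by
    intro u N G hNG hΔ
    rw [i2a_DD_jj Δ hd u (g u) N G hNG hΔ]
    split_ifs with h2 h3
    · have h5 := (mem_Tot.mp (hgT u)) N (G.erase u)
      refine ⟨h5.1.1, fun x hx => ?_, fun hc => h5.2 fun h => hc h.2.2⟩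
      split_ifs with h6
      · subst h6
        have hxΔ : ({u} : Finset (Fin n)) ∈ Δ :=
          hd _ hΔ _ (singleton_subset_iff.mpr (mem_union_right N hx))
        have h7 := congrFun (congrFun (hgu u hxΔ) N) (G.erase u)
        rw [i2a_DD_vm, vm_apply, sg_apply, if_neg (notMem_erase u G), insert_erase hx] at h7
        exact h7
      · exact h5.1.2 x (mem_erase.mpr ⟨Ne.symm h6, hx⟩)
    · have h5 := (mem_Tot.mp (hg u)) (N.erase u) G
      refine ⟨U.smul_mem _ h5.1.1, fun x hx => ?_, fun hc => ?_⟩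
      · have h6 : u ≠ x := fun h => h2 (h ▸ hx)
        rw [if_neg h6, map_smul, h5.1.2 x hx, smul_zero]
      · rw [h5.2, smul_zero]
        rintro ⟨_, _, h8⟩
        apply hc
        rw [← h8, card_erase_add_one h3]
    · refine ⟨U.zero_mem, fun x hx => ?_, fun _ => rfl⟩
      have h6 : u ≠ x := fun h => h2 (h ▸ hx)
      rw [if_neg h6, map_zero]
  have hoff : ∀ u N G, ¬ (Disjoint N G ∧ N ∪ G ∈ Δ) → DD K Δ (jj K u (g u)) N G = 0 := by
    intro u N G hn
    rw [DD_apply, if_neg hn]
  constructor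
  · rw [mem_Tot]
    intro N G
    by_cases hc : Disjoint N G ∧ N ∪ G ∈ Δ
    · have hwNG := (mem_Tot.mp hw) N G
      refine ⟨⟨?_, ?_⟩, ?_⟩
      · rw [hE]
        refine U.sub_mem (hD.inv v hv _ hwNG.1.1) (U.sum_mem fun u _ => U.smul_mem _ ?_)
        exact (hval u N G hc.1 hc.2).1
      · intro x hx
        have hxΔ : ({x} : Finset (Fin n)) ∈ Δ :=
          hd _ hc.2 _ (singleton_subset_iff.mpr (mem_union_right N hx))
        rw [hE, map_sub, map_sum]
        have h2 := hD.rel x v hxΔ hv (w N G) hwNG.1.1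
        rw [hwNG.1.2 x hx, map_zero, add_zero] at h2
        rw [h2, Finset.sum_eq_single x]
        · rw [map_smul, (hval x N G hc.1 hc.2).2.1 x hx, if_pos rfl, sub_self]
        · intro u _ hux
          rw [map_smul, (hval u N G hc.1 hc.2).2.1 x hx, if_neg hux, smul_zero]
        · intro h
          exact absurd (mem_univ x) h
      · intro hn
        have hcard : N.card ≠ k + 1 := fun h => hn ⟨hc.1, hc.2, h⟩
        rw [hE, hwNG.2 hn, map_zero, zero_sub, neg_eq_zero]
        refine Finset.sum_eq_zero fun u _ => ?_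
        rw [(hval u N G hc.1 hc.2).2.2 hcard, smul_zero]
    · have hn : ¬ (Disjoint N G ∧ N ∪ G ∈ Δ ∧ N.card = k + 1) := fun h => hc ⟨h.1, h.2.1⟩
      have h0 : EE Δ e B v w g N G = 0 := by
        rw [hE, ((mem_Tot.mp hw) N G).2 hn, map_zero, zero_sub, neg_eq_zero]
        refine Finset.sum_eq_zero fun u _ => ?_
        rw [hoff u N G hc, smul_zero]
      rw [h0]
      exact ⟨(KK U e G).zero_mem, fun _ => rfl⟩
  · unfold EE
    rw [map_sub, i2a_DD_vm, hw0, map_zero, zero_sub, neg_eq_zero, map_sum]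
    refine Finset.sum_eq_zero fun u _ => ?_
    rw [map_smul, (h1 n K S Δ U e hd).1, smul_zero]

end Pool.Agent.H14.CL
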