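import Pool.Agent.H14.CL.I2bC

/-!
Project CL: the even identity (PP6).
-/

set_option autoImplicit false

namespace Pool.Agent.H14.CL

open Finset

/-- the even identity -/
theorem st_I2b (h1 : StTotD) (h2 : StStokes) (h3 : StSym) (_ : StMap) (h5 : StSphLk) :
    StI2b := by
  intro n K S _ _ _ Δ U e B h ε k hD _ hJ hhJ v hv w hw hw0 g hg hg'
  have hdn : Down Δ := hD.sph.dn
  have hwv : w ∈ i2Val n U := i2_Tot_val hw
  have hws : w ∈ i2Sup n K S (k + 1) := i2_Tot_sup hw
  have hAv : vm (e v) w ∈ i2Val n U := i2_vm_val (hD.inv v hv) hwv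
  have hAs : vm (e v) w ∈ i2Sup n K S (k + 1) := i2_vm_sup _ hws
  have hZv : i2Z B v g ∈ i2Val n U := i2_Z_val v hg
  have hZs : i2Z B v g ∈ i2Sup n K S k := i2_Z_sup v hg
  have hE : EE Δ e B v w g = vm (e v) w - DD K Δ (i2Z B v g) := by
    unfold EE i2Z
    rw [map_sum]
    congr 1
    exact Finset.sum_congr rfl fun x _ => (map_smul _ _ _).symm
  have hDA : DD K Δ (vm (e v) w) = 0 := by
    rw [i2_DD_vm, hw0, map_zero]
  have hAA : PP ε h (vm (e v) w) (vm (e v) w) = 0 := by
    apply i2_PP_zero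
    intro N M
    have hx := i2_hat_mem hwv N M
    have hy := i2_hat_mem hwv M N
    rw [i2_hat_vm, i2_hat_vm, i2_adj hD hv hx (hD.inv v hv _ hy), hD.sq v hv _ hy, map_zero,
      neg_zero]
  have hsy : PP ε h (vm (e v) w) (DD K Δ (i2Z B v g)) =
      PP ε h (DD K Δ (i2Z B v g)) (vm (e v) w) := by
    rw [h3 n K S ε h h ((-1) ^ (k + 1)) U U (k + 1) (k + 1) _ _
      (fun x hx y hy => i2_sym hD hx hy) hAv (i2_DD_val Δ hZv) hAs (i2_DD_sup Δ hZs), i2_sgn2,
      neg_one_sq_pow, one_mul]
  have hs1 := h2 n K S Δ ε (2 * k + 2) hD.sph h k (i2Z B v g) (vm (e v) w) hZs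
  rw [hDA, map_zero, mul_zero, add_zero] at hs1
  have hs2 := h2 n K S Δ ε (2 * k + 2) hD.sph h k (i2Z B v g) (DD K Δ (i2Z B v g)) hZs
  have ht := h1 n K S Δ U e hdn
  rw [ht.1, map_zero, mul_zero, add_zero] at hs2
  have hsum : ∀ u, 4 * PP (eps ε u) h (sg K u (i2Z B v g)) (sg K u (vm (e v) w)) -
      2 * PP (eps ε u) h (sg K u (i2Z B v g)) (sg K u (DD K Δ (i2Z B v g))) =
      -4 * (-1) ^ (k + 1) * ∑ u', B u v * B u' v * PP (eps (eps ε u) u') (hJ u u')
      (sg K u' (vm (e u) (g u)) - sg K u (vm (e u') (g u'))) (sg K u' (vm (e u) (g u))) := by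
    intro u
    by_cases hu : {u} ∈ Δ
    · rw [← ht.2.2.1 u (i2Z B v g)]
      exact i2_T h2 h3 hD hhJ hv hg hg' hu (h5 n K Δ ε (2 * k + 1) hD.sph u hu)
    · have h0 := i2_eps_zero hD.sph hu
      have h0' : ∀ u' Φ, eps (eps ε u) u' Φ = 0 := by
        intro u' Φ
        unfold eps
        split_ifs
        · rfl
        · rw [mul_zero]
        · rw [show (0 : K) = tau K u' Φ * 0 by rw [mul_zero]]
          congr 1
          have := h0 (insert u' Φ)
          unfold eps at this
          rw [if_neg (by assumption)] at this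
          exact this
      rw [i2_PP_eps h0, i2_PP_eps h0, Finset.sum_eq_zero]
      · ring
      · intro u' _
        rw [i2_PP_eps (h0' u'), mul_zero]
  have hexp : PP ε h (EE Δ e B v w g) (EE Δ e B v w g) =
      ∑ u, (4 * PP (eps ε u) h (sg K u (i2Z B v g)) (sg K u (vm (e v) w)) -
      2 * PP (eps ε u) h (sg K u (i2Z B v g)) (sg K u (DD K Δ (i2Z B v g)))) := by
    rw [hE, map_sub, map_sub, LinearMap.sub_apply, LinearMap.sub_apply, hAA, hsy, hs1, hs2,
      Finset.sum_sub_distrib, ← Finset.mul_sum, ← Finset.mul_sum]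
    ring
  rw [hexp, Finset.sum_congr rfl fun u _ => hsum u, ← Finset.mul_sum]
  -- symmetrisation
  have hval : ∀ u u', {u} ∈ Δ → {u'} ∈ lk Δ u →
      sg K u' (vm (e u) (g u)) ∈ i2Val n (KK (KK U e {u}) e {u'}) := by
    intro u u' hu hu'
    rw [i2_sg_vm]
    exact i2_vm_val (fun x hx => i2_mem_KK2 hD hu (lk_sub hu') ((lk_vertex hdn).1 hu').2 hx)
      (i2_sg_Tot (hg u) u')
  have hval' : ∀ u u', {u} ∈ Δ → {u'} ∈ lk Δ u →
      sg K u (vm (e u') (g u')) ∈ i2Val n (KK (KK U e {u}) e {u'}) := by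
    intro u u' hu hu'
    have h12 := (lk_vertex hdn).1 hu'
    have huL : {u} ∈ lk Δ u' := by
      rw [lk_vertex hdn, pair_comm]
      exact ⟨h12.1.symm, h12.2⟩
    rw [KK_comm]
    exact hval u' u (lk_sub hu') huL
  have hflip : ∀ u u', PP (eps (eps ε u') u) (hJ u' u)
      (sg K u (vm (e u') (g u')) - sg K u' (vm (e u) (g u))) (sg K u (vm (e u') (g u'))) =
      PP (eps (eps ε u) u') (hJ u u')
      (sg K u (vm (e u') (g u')) - sg K u' (vm (e u) (g u))) (sg K u (vm (e u') (g u'))) := by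
    intro u u'
    by_cases hu : {u} ∈ Δ ∧ {u'} ∈ lk Δ u
    · obtain ⟨hu, hu'⟩ := hu
      have h6 : PP (eps (eps ε u) u') (hJ u' u)
          (sg K u (vm (e u') (g u')) - sg K u' (vm (e u) (g u))) (sg K u (vm (e u') (g u'))) =
          -1 * PP (eps (eps ε u) u') (hJ u u')
          (sg K u (vm (e u') (g u')) - sg K u' (vm (e u) (g u)))
          (sg K u (vm (e u') (g u'))) := by
        apply i2_PP_congr
        intro N M
        rw [i2_hJ hD hhJ hu hu' (i2_hat_mem (Submodule.sub_mem _ (hval' u u' hu hu')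
          (hval u u' hu hu')) N M) (i2_hat_mem (hval' u u' hu hu') M N)]
        ring
      rw [i2_PP_neg (fun Φ => i2_eps ε u u' Φ), h6]
      ring
    · have h0 : ∀ Φ, eps (eps ε u) u' Φ = 0 := by
        intro Φ
        rcases not_and_or.1 hu with h6 | h6
        · have h7 := i2_eps_zero hD.sph h6
          unfold eps
          split_ifs
          · rfl
          · rw [mul_zero]
          · have := h7 (insert u' Φ)
            unfold eps at this
            rw [if_neg (by assumption)] at this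
            rw [this, mul_zero]
        · by_cases h8 : {u} ∈ Δ
          · exact i2_eps_zero (h5 n K Δ ε (2 * k + 1) hD.sph u h8) h6 Φ
          · have h7 := i2_eps_zero hD.sph h8
            unfold eps
            split_ifs
            · rfl
            · rw [mul_zero]
            · have := h7 (insert u' Φ)
              unfold eps at this
              rw [if_neg (by assumption)] at this
              rw [this, mul_zero]
      rw [i2_PP_neg (fun Φ => i2_eps ε u u' Φ), i2_PP_eps h0, i2_PP_eps h0, neg_zero]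
  have hcomm : ∑ u, ∑ u', B u v * B u' v * PP (eps (eps ε u) u') (hJ u u')
      (sg K u' (vm (e u) (g u)) - sg K u (vm (e u') (g u'))) (sg K u' (vm (e u) (g u))) =
      ∑ u, ∑ u', B u v * B u' v * PP (eps (eps ε u) u') (hJ u u')
      (sg K u (vm (e u') (g u')) - sg K u' (vm (e u) (g u))) (sg K u (vm (e u') (g u'))) := by
    rw [Finset.sum_comm]
    refine Finset.sum_congr rfl fun u _ => Finset.sum_congr rfl fun u' _ => ?_
    rw [hflip u u', mul_comm (B u' v) (B u v)]
  have hfin : ∑ u, ∑ u', B u v * B u' v * PP (eps (eps ε u) u') (hJ u u')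
      (sg K u' (vm (e u) (g u)) - sg K u (vm (e u') (g u')))
      (sg K u' (vm (e u) (g u)) - sg K u (vm (e u') (g u'))) =
      2 * ∑ u, ∑ u', B u v * B u' v * PP (eps (eps ε u) u') (hJ u u')
      (sg K u' (vm (e u) (g u)) - sg K u (vm (e u') (g u'))) (sg K u' (vm (e u) (g u))) := by
    rw [two_mul]
    nth_rewrite 2 [hcomm]
    rw [← Finset.sum_add_distrib]
    refine Finset.sum_congr rfl fun u _ => ?_
    rw [← Finset.sum_add_distrib]
    refine Finset.sum_congr rfl fun u' _ => ?_
    have h9 : sg K u (vm (e u') (g u')) - sg K u' (vm (e u) (g u)) =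
        - (sg K u' (vm (e u) (g u)) - sg K u (vm (e u') (g u'))) := (neg_sub _ _).symm
    rw [h9]
    simp only [map_sub, map_neg, LinearMap.sub_apply, LinearMap.neg_apply]
    ring
  rw [hfin, pow_succ]
  ring

end Pool.Agent.H14.CL
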