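import Pool.Agent.H14.CL.Stm

/-!
Project CL: the odd spheres have number zero, and the linear relation of the even step.
-/

set_option autoImplicit false

namespace Pool.Agent.H14.CL

open Finset

/-- faces which contain `G` -/
theorem sum_above {n : ℕ} {K : Type} [Field K] {Δ : Finset (Finset (Fin n))}
    {ε : Finset (Fin n) → K} {d : ℕ} (hS : Sph K Δ ε d) {G : Finset (Fin n)} (hG : G ∈ Δ) :
    ∑ F ∈ Δ.filter (fun F => G ⊆ F), (-1 : ℚ) ^ F.card = (-1) ^ d := by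
  have h1 : ∑ F ∈ Δ.filter (fun F => G ⊆ F), (-1 : ℚ) ^ F.card =
      ∑ N ∈ lkF Δ G, (-1 : ℚ) ^ (N.card + G.card) := by
    refine Finset.sum_nbij' (fun F => F \ G) (fun N => N ∪ G) ?_ ?_ ?_ ?_ ?_
    · intro F hF
      rw [mem_filter] at hF
      unfold lkF
      rw [mem_filter]
      refine ⟨hS.down F hF.1 _ sdiff_subset, ?_, ?_⟩
      · exact sdiff_inter_self G F
      · rw [sdiff_union_of_subset hF.2]
        exact hF.1
    · intro N hN
      unfold lkF at hN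
      rw [mem_filter] at hN ⊢
      exact ⟨hN.2.2, subset_union_right⟩
    · intro F hF
      rw [mem_filter] at hF
      exact sdiff_union_of_subset hF.2
    · intro N hN
      unfold lkF at hN
      rw [mem_filter] at hN
      exact union_sdiff_cancel_right (disjoint_iff_inter_eq_empty.2 hN.2.1)
    · intro F hF
      rw [mem_filter] at hF
      rw [card_sdiff_add_card_eq_card hF.2]
  have h2 : ∑ N ∈ lkF Δ G, (-1 : ℚ) ^ N.card = (-1) ^ (d - G.card) := by
    have h3 := congrArg (Int.cast : ℤ → ℚ) (hS.euler G hG)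
    push_cast at h3
    exact h3
  have h4 := hS.card_le G hG
  rw [h1]
  simp only [pow_add]
  rw [← Finset.sum_mul, h2, ← pow_add]
  congr 1
  omega

theorem st_oddZero : StOddZero := by
  intro n K _ Δ ε d hS hd
  have h1 : ∑ F ∈ Δ, (-1 / 2 : ℚ) ^ F.card = (-1) ^ d * ∑ F ∈ Δ, (-1 / 2 : ℚ) ^ F.card := by
    have h2 : ∀ F : Finset (Fin n), (-1 / 2 : ℚ) ^ F.card =
        ∑ G ∈ F.powerset, (-1 : ℚ) ^ F.card * (-1 / 2 : ℚ) ^ G.card := by
      intro F
      have h3 := Finset.sum_pow_mul_eq_add_pow (-1 / 2 : ℚ) 1 F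
      simp only [one_pow, mul_one] at h3
      rw [← Finset.mul_sum, h3, ← mul_pow]
      norm_num
    calc ∑ F ∈ Δ, (-1 / 2 : ℚ) ^ F.card
        = ∑ F ∈ Δ, ∑ G ∈ F.powerset, (-1 : ℚ) ^ F.card * (-1 / 2 : ℚ) ^ G.card :=
          Finset.sum_congr rfl fun F _ => h2 F
      _ = ∑ G ∈ Δ, ∑ F ∈ Δ.filter (fun F => G ⊆ F), (-1 : ℚ) ^ F.card * (-1 / 2 : ℚ) ^ G.card := by
          refine Finset.sum_comm' ?_
          intro F G
          simp only [mem_filter, mem_powerset]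
          constructor
          · rintro ⟨hF, hG⟩
            exact ⟨⟨hF, hG⟩, hS.down F hF G hG⟩
          · rintro ⟨⟨hF, hG⟩, -⟩
            exact ⟨hF, hG⟩
      _ = ∑ G ∈ Δ, (-1) ^ d * (-1 / 2 : ℚ) ^ G.card := by
          refine Finset.sum_congr rfl fun G hG => ?_
          rw [← Finset.sum_mul, sum_above hS hG]
      _ = (-1) ^ d * ∑ F ∈ Δ, (-1 / 2 : ℚ) ^ F.card := by rw [Finset.mul_sum]
  have h2 : ∑ F ∈ Δ, (-1 / 2 : ℚ) ^ F.card = 0 := by
    rw [hd.neg_one_pow] at h1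
    linarith
  have h3 : ((∑ F ∈ Δ, (-1 : ℤ) ^ F.card * 2 ^ (d - F.card) : ℤ) : ℚ) =
      2 ^ d * ∑ F ∈ Δ, (-1 / 2 : ℚ) ^ F.card := by
    push_cast
    rw [Finset.mul_sum]
    refine Finset.sum_congr rfl fun F hF => ?_
    have h4 := hS.card_le F hF
    have h5 : (2 : ℚ) ^ d = 2 ^ (d - F.card) * 2 ^ F.card := by
      rw [← pow_add]
      congr 1
      omega
    rw [h5, div_pow]
    have h6 : (2 : ℚ) ^ F.card ≠ 0 := by positivity
    field_simp
  rw [h2, mul_zero] at h3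
  exact_mod_cast h3

theorem st_rel : StRel := by
  intro K V _ _ _ _ Z B R hBZ hR hZ hB
  let φ : R →ₗ[K] V ⧸ B := B.mkQ ∘ₗ LinearMap.snd K V V ∘ₗ R.subtype
  let ψ : R →ₗ[K] V ⧸ B := B.mkQ ∘ₗ LinearMap.fst K V V ∘ₗ R.subtype
  have hφ : ∀ p : R, φ p = B.mkQ (p : V × V).2 := fun p => rfl
  have hψ : ∀ p : R, ψ p = B.mkQ (p : V × V).1 := fun p => rfl
  have hφr : LinearMap.range φ ≤ Z.map B.mkQ := by
    rintro _ ⟨p, rfl⟩
    exact ⟨(p : V × V).2, (hR p p.2).2, rfl⟩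
  have hψr : LinearMap.range ψ = Z.map B.mkQ := by
    apply le_antisymm
    · rintro _ ⟨p, rfl⟩
      exact ⟨(p : V × V).1, (hR p p.2).1, rfl⟩
    · rintro _ ⟨z, hz, rfl⟩
      obtain ⟨E, hE⟩ := hZ z hz
      exact ⟨⟨(z, E), hE⟩, rfl⟩
  have hker : LinearMap.ker φ ≤ LinearMap.ker ψ := by
    intro p hp
    rw [LinearMap.mem_ker, hφ, Submodule.mkQ_apply, Submodule.Quotient.mk_eq_zero] at hp
    rw [LinearMap.mem_ker, hψ, Submodule.mkQ_apply, Submodule.Quotient.mk_eq_zero]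
    exact hB p p.2 hp
  have h1 := LinearMap.finrank_range_add_finrank_ker φ
  have h2 := LinearMap.finrank_range_add_finrank_ker ψ
  have h3 := Submodule.finrank_mono hker
  have h4 := Submodule.finrank_mono hφr
  rw [hψr] at h2
  have h5 : LinearMap.range φ = Z.map B.mkQ :=
    Submodule.eq_of_le_of_finrank_le hφr (by omega)
  have h6 : LinearMap.ker φ = LinearMap.ker ψ :=
    Submodule.eq_of_le_of_finrank_le hker (by rw [← h5] at h2; omega)
  constructor
  · intro z hz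
    have h7 : B.mkQ z ∈ LinearMap.range φ := by
      rw [h5]
      exact ⟨z, hz, rfl⟩
    obtain ⟨p, hp⟩ := h7
    rw [hφ] at hp
    refine ⟨p, p.2, ?_⟩
    rw [Submodule.mkQ_apply, Submodule.mkQ_apply] at hp
    exact (Submodule.Quotient.eq B).1 hp.symm
  · intro p hp h7
    have h8 : (⟨p, hp⟩ : R) ∈ LinearMap.ker ψ := by
      rw [LinearMap.mem_ker, hψ, Submodule.mkQ_apply, Submodule.Quotient.mk_eq_zero]
      exact h7
    rw [← h6, LinearMap.mem_ker, hφ, Submodule.mkQ_apply, Submodule.Quotient.mk_eq_zero] at h8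
    exact h8

end Pool.Agent.H14.CL
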