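import Pool.Agent.H14.CL.Stm

/-!
Project CL (MP_32beb3_co), row TI2: the volume element.
-/

set_option autoImplicit false

namespace Pool.Agent.H14.CL

open Finset

section

variable {R : Type} [Ring R] [Algebra ℝ R] {ι : Type} [DecidableEq ι]

omit [DecidableEq ι] in
theorem ti2_anti (a : ι → R) (b : R) (hb : ∀ i, a i * b = -(b * a i)) (L : List ι) :
    (L.map a).prod * b = (-1 : ℝ) ^ L.length • (b * (L.map a).prod) := by
  induction L with
  | nil => simp
  | cons c t ih =>
    rw [List.map_cons, List.prod_cons, mul_assoc, ih, mul_smul_comm, ← mul_assoc, hb,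
      List.length_cons, pow_succ, mul_smul, neg_mul, mul_assoc]
    congr 1
    rw [neg_one_smul]

theorem ti2_self (a : ι → R) (ha : ∀ i j, i ≠ j → a i * a j = -(a j * a i)) (k : ι)
    (L : List ι) : (L.map a).prod * a k =
      (-1 : ℝ) ^ (L.length + L.count k) • (a k * (L.map a).prod) := by
  induction L with
  | nil => simp
  | cons c t ih =>
    rw [List.map_cons, List.prod_cons, mul_assoc, ih, mul_smul_comm, List.length_cons]
    by_cases hc : c = k
    · subst hc
      rw [List.count_cons_self]
      congr 1
      rw [show t.length + 1 + (t.count c + 1) = (t.length + t.count c) + 2 by ring,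
        pow_add _ (t.length + t.count c) 2, neg_one_sq, mul_one]
    · rw [List.count_cons_of_ne hc, ← mul_assoc, ha c k hc,
        show t.length + 1 + t.count k = (t.length + t.count k) + 1 by ring, pow_succ, mul_smul,
        neg_one_smul, neg_mul, mul_assoc]

theorem ti2_reverse (a : ι → R) (ha : ∀ i j, i ≠ j → a i * a j = -(a j * a i))
    (L : List ι) (hL : L.Nodup) : (L.reverse.map a).prod =
      (-1 : ℝ) ^ (L.length.choose 2) • (L.map a).prod := by
  induction L with
  | nil => simp
  | cons c t ih =>
    rw [List.nodup_cons] at hL
    rw [List.reverse_cons, List.map_append, List.prod_append, ih hL.2, List.map_singleton,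
      List.prod_singleton, smul_mul_assoc, ti2_self a ha c t, List.count_eq_zero_of_not_mem hL.1,
      List.map_cons, List.prod_cons, smul_smul, ← pow_add, List.length_cons,
      Nat.choose_succ_succ, Nat.choose_one_right, add_zero, add_comm]

omit [Algebra ℝ R] [DecidableEq ι] in
theorem ti2_inv (a : ι → R) (hs : ∀ i, a i * a i = 1) (L : List ι) :
    (L.map a).prod * (L.reverse.map a).prod = 1 := by
  induction L with
  | nil => simp
  | cons c t ih =>
    rw [List.reverse_cons, List.map_append, List.prod_append, List.map_singleton,
      List.prod_singleton, List.map_cons, List.prod_cons, mul_assoc, ← mul_assoc _ _ (a c), ih,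
      one_mul, hs]

end

/-- TI2 -/
theorem st_om : StOm := by
  intro d N S _ _ γ δ hC
  let a : Fin d → Module.End ℝ S := fun i => γ (Pi.single i 1)
  have hom : om γ = ((List.finRange d).map a).prod := by
    unfold om
    rw [List.ofFn_eq_map]
  have hs : ∀ i, a i * a i = 1 := by
    intro i
    apply LinearMap.ext
    intro x
    have h := hC.gg (Pi.single i 1) (Pi.single i 1) x
    rw [single_one_dotProduct, Pi.single_eq_same, mul_one, two_smul] at h
    have h2 : (2 : ℝ) • γ (Pi.single i 1) (γ (Pi.single i 1) x) = (2 : ℝ) • x := by
      rw [two_smul, two_smul]; exact h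
    exact smul_right_injective S (two_ne_zero) h2
  have ha : ∀ i j, i ≠ j → a i * a j = -(a j * a i) := by
    intro i j hij
    apply LinearMap.ext
    intro x
    have h := hC.gg (Pi.single i 1) (Pi.single j 1) x
    rw [single_one_dotProduct, Pi.single_eq_of_ne hij, mul_zero, zero_smul] at h
    exact eq_neg_of_add_eq_zero_left h
  have hnd : (List.finRange d).Nodup := List.nodup_finRange d
  have hlen : (List.finRange d).length = d := List.length_finRange
  refine ⟨?_, ?_, ?_, ?_⟩
  · intro p x
    have h1 : ∀ i x, om γ (γ (Pi.single i 1) x) =
        (-1 : ℝ) ^ (d + 1) • γ (Pi.single i 1) (om γ x) := by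
      intro i x
      have h := ti2_self a ha i (List.finRange d)
      rw [hlen, List.count_eq_one_of_mem hnd (List.mem_finRange i), ← hom] at h
      exact congrArg (fun f : Module.End ℝ S => f x) h
    have hp : p = ∑ i, p i • (Pi.single i (1 : ℝ) : Fin d → ℝ) := by
      funext j
      rw [Finset.sum_apply, Finset.sum_eq_single j]
      · simp
      · intro i _ hij
        simp [Pi.single_eq_of_ne (fun e => hij e.symm)]
      · intro h
        exact absurd (Finset.mem_univ j) h
    rw [hp]
    simp only [map_sum, map_smul, LinearMap.sum_apply, LinearMap.smul_apply, h1,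
      Finset.smul_sum]
    refine Finset.sum_congr rfl fun i _ => ?_
    rw [smul_comm]
  · intro q x
    have h := ti2_anti a (δ q : Module.End ℝ S) (fun i => by
      apply LinearMap.ext
      intro x
      exact eq_neg_of_add_eq_zero_left (hC.gd (Pi.single i 1) q x)) (List.finRange d)
    rw [hlen, ← hom] at h
    exact congrArg (fun f : Module.End ℝ S => f x) h
  · have h1 : ∀ (L : List (Fin d)) (x y : S), inner ℝ ((L.map a).prod x) y =
        inner ℝ x ((L.reverse.map a).prod y) := by
      intro L
      induction L with
      | nil => intro x y; rfl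
      | cons c t ih =>
        intro x y
        rw [List.reverse_cons, List.map_append, List.prod_append, List.map_singleton,
          List.prod_singleton, List.map_cons, List.prod_cons]
        change inner ℝ (γ (Pi.single c 1) ((t.map a).prod x)) y =
          inner ℝ x ((t.reverse.map a).prod (γ (Pi.single c 1) y))
        rw [hC.ga, ih]
    intro x y
    rw [hom, h1, ti2_reverse a ha _ hnd, hlen, LinearMap.smul_apply, real_inner_smul_right]
  · have h1 := ti2_inv a hs (List.finRange d)
    have h2 := ti2_inv a hs (List.finRange d).reverse
    rw [List.reverse_reverse] at h2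
    rw [← hom] at h1 h2
    constructor
    · intro x y hxy
      have h3 : ∀ z, (((List.finRange d).reverse.map a).prod) (om γ z) = z := fun z =>
        congrArg (fun f : Module.End ℝ S => f z) h2
      rw [← h3 x, ← h3 y, hxy]
    · intro z
      exact ⟨(((List.finRange d).reverse.map a).prod) z,
        congrArg (fun f : Module.End ℝ S => f z) h1⟩

end Pool.Agent.H14.CL
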