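import Pool.Agent.H14.CL.Stm

/-!
Project CL, row TI7: the order of the vertices of a face, and positivity across a ridge.
-/

set_option autoImplicit false

namespace Pool.Agent.H14.CL

open Finset

section

variable {n : ℕ} {K S : Type} [Field K] [AddCommGroup S] [Module K S]
  {Δ : Finset (Finset (Fin n))} {U : Submodule K S} {e : Fin n → S →ₗ[K] S}
  {B : Fin n → Fin n → K} {h : S →ₗ[K] S →ₗ[K] K} {ε : Finset (Fin n) → K} {d : ℕ}

theorem opL_cons_apply (u : Fin n) (L : List (Fin n)) (x : S) :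
    opL e (u :: L) x = opL e L (e u x) := rfl

theorem sgL_cons (u : Fin n) (L : List (Fin n)) :
    sgL K (u :: L) = tau K u L.toFinset * sgL K L := rfl

theorem sgL_sq (L : List (Fin n)) : sgL K L * sgL K L = 1 := by
  induction L with
  | nil => exact mul_one 1
  | cons u L ih =>
    rw [sgL_cons]
    calc tau K u L.toFinset * sgL K L * (tau K u L.toFinset * sgL K L)
        = (tau K u L.toFinset * tau K u L.toFinset) * (sgL K L * sgL K L) := by ring
      _ = 1 := by rw [tau_sq, ih, mul_one]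

theorem sgL_ne_zero (L : List (Fin n)) : sgL K L ≠ 0 := by
  intro h0
  have := sgL_sq (K := K) L
  rw [h0, mul_zero] at this
  exact zero_ne_one this

theorem Dat.vertex (D : Dat Δ U e B h ε d) {F : Finset (Fin n)} (hF : F ∈ Δ) {v : Fin n}
    (hv : v ∈ F) : {v} ∈ Δ := D.sph.down F hF _ (by simpa using hv)

theorem Dat.pair (D : Dat Δ U e B h ε d) {F : Finset (Fin n)} (hF : F ∈ Δ) {v w : Fin n}
    (hv : v ∈ F) (hw : w ∈ F) : ({v, w} : Finset (Fin n)) ∈ Δ :=
  D.sph.down F hF _ (by
    intro x hx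
    rcases Finset.mem_insert.1 hx with rfl | hx
    · exact hv
    · rw [Finset.mem_singleton.1 hx]; exact hw)

theorem Dat.anti (D : Dat Δ U e B h ε d) {F : Finset (Fin n)} (hF : F ∈ Δ) {v w : Fin n}
    (hv : v ∈ F) (hw : w ∈ F) {x : S} (hx : x ∈ U) : e v (e w x) = - e w (e v x) := by
  have h1 := D.rel v w (D.vertex hF hv) (D.vertex hF hw) x hx
  rw [D.bz v w (D.pair hF hv hw), zero_smul] at h1
  exact eq_neg_of_add_eq_zero_left h1

theorem Dat.opL_mem (D : Dat Δ U e B h ε d) {F : Finset (Fin n)} (hF : F ∈ Δ) :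
    ∀ (L : List (Fin n)), (∀ v ∈ L, v ∈ F) → ∀ x ∈ U, opL e L x ∈ U
  | [], _, x, hx => hx
  | u :: L, hL, x, hx => D.opL_mem hF L (fun v hv => hL v (List.mem_cons_of_mem _ hv)) _
      (D.inv u (D.vertex hF (hL u List.mem_cons_self)) x hx)

/-- moving an operator through a list -/
theorem Dat.opL_comm (D : Dat Δ U e B h ε d) {F : Finset (Fin n)} (hF : F ∈ Δ) {w : Fin n}
    (hw : w ∈ F) : ∀ (L : List (Fin n)), (∀ v ∈ L, v ∈ F) → ∀ x ∈ U,
      e w (opL e L x) = (-1 : K) ^ L.length • opL e L (e w x)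
  | [], _, x, _ => by simp [opL]
  | u :: L, hL, x, hx => by
    have hu : u ∈ F := hL u List.mem_cons_self
    rw [opL_cons_apply, D.opL_comm hF hw L (fun v hv => hL v (List.mem_cons_of_mem _ hv)) _
      (D.inv u (D.vertex hF hu) x hx), D.anti hF hw hu hx, map_neg, opL_cons_apply,
      List.length_cons, pow_succ, mul_neg_one, neg_smul, smul_neg]

end

theorem st_perm : StPerm := by
  intro n K S _ _ _ Δ U e B h ε d D L L' hp
  induction hp with
  | nil => intro _ _ x _; rfl
  | @cons u L L' hp ih =>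
    intro hnd hΔ x hx
    have hsub : L.toFinset ∈ Δ := D.sph.down _ hΔ _ (by
      rw [List.toFinset_cons]; exact Finset.subset_insert _ _)
    have hu : {u} ∈ Δ := D.vertex hΔ (by simp)
    have h1 := ih (List.nodup_cons.1 hnd).2 hsub (e u x) (D.inv u hu x hx)
    rw [sgL_cons, sgL_cons, opL_cons_apply, opL_cons_apply, mul_smul, mul_smul, h1,
      List.toFinset_eq_of_perm _ _ hp]
  | swap u v L =>
    intro hnd hΔ x hx
    have hu : u ∈ (v :: u :: L).toFinset := by simp
    have hv : v ∈ (v :: u :: L).toFinset := by simp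
    have hvu : v ≠ u := by
      intro h0
      have := (List.nodup_cons.1 hnd).1
      rw [h0] at this
      exact this List.mem_cons_self
    have hvL : v ∉ L.toFinset := by
      intro h0
      exact (List.nodup_cons.1 hnd).1 (List.mem_cons_of_mem _ (List.mem_toFinset.1 h0))
    have huL : u ∉ L.toFinset := by
      intro h0
      exact (List.nodup_cons.1 (List.nodup_cons.1 hnd).2).1 (List.mem_toFinset.1 h0)
    simp only [sgL_cons, opL_cons_apply, List.toFinset_cons]
    rw [D.anti hΔ hu hv hx, map_neg, smul_neg, ← neg_smul]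
    congr 1
    have h1 := tau_swap K hvu hvL huL
    calc -(tau K v (insert u L.toFinset) * (tau K u L.toFinset * sgL K L))
        = -((tau K v (insert u L.toFinset) * tau K u L.toFinset) * sgL K L) := by ring
      _ = tau K u (insert v L.toFinset) * (tau K v L.toFinset * sgL K L) := by rw [h1]; ring
  | @trans L1 L2 L3 h12 h23 ih1 ih2 =>
    intro hnd hΔ x hx
    rw [ih1 hnd hΔ x hx]
    refine ih2 (h12.nodup_iff.1 hnd) ?_ x hx
    rw [← List.toFinset_eq_of_perm _ _ h12]
    exact hΔ

theorem st_cross (h1 : StPerm) (h2 : StRidge) : StCross := by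
  intro n S _ _ Δ U e B h ε d D Γ hΓ hΓd u u' huu hu hu' hi hi' hB hpos
  -- the relation of the two signs
  have hrel : tau ℝ u Γ * ε (insert u Γ) = -(tau ℝ u' Γ * ε (insert u' Γ)) := by
    obtain ⟨a, a', haa, -, -, -, -, -, hall, hsum⟩ := h2 n ℝ Δ ε d D.sph Γ hΓ hΓd
    rcases hall u hu hi with rfl | rfl
    · rcases hall u' hu' hi' with rfl | rfl
      · exact absurd rfl huu
      · exact eq_neg_of_add_eq_zero_left hsum
    · rcases hall u' hu' hi' with rfl | rfl
      · exact eq_neg_of_add_eq_zero_right hsum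
      · exact absurd rfl huu
  obtain ⟨G, hG, hGn⟩ : ∃ G : List (Fin n), G.toFinset = Γ ∧ G.Nodup :=
    ⟨Γ.toList, Finset.toList_toFinset Γ, Finset.nodup_toList Γ⟩
  have hGm : ∀ v ∈ G, v ∈ insert u' Γ := by
    intro v hv
    exact Finset.mem_insert_of_mem (hG ▸ List.mem_toFinset.2 hv)
  have hGmu : ∀ v ∈ G, v ∈ insert u Γ := by
    intro v hv
    exact Finset.mem_insert_of_mem (hG ▸ List.mem_toFinset.2 hv)
  have hGl : G.length + 1 = d := by
    rw [← hΓd, ← hG, List.toFinset_card_of_nodup hGn]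
  have hGu : u ∉ G := fun h0 => hu (hG ▸ List.mem_toFinset.2 h0)
  have hGu' : u' ∉ G := fun h0 => hu' (hG ▸ List.mem_toFinset.2 h0)
  have hvu : {u} ∈ Δ := D.vertex hi (Finset.mem_insert_self _ _)
  have hvu' : {u'} ∈ Δ := D.vertex hi' (Finset.mem_insert_self _ _)
  -- the key computation
  have hkey : ∀ t ∈ U, opL e (u' :: G) t ≠ 0 →
      0 < ε (insert u' Γ) * sgL ℝ (u' :: G) * h (opL e (u' :: G) t) t := by
    intro t ht hne
    have hs : e u' t ∈ U := D.inv u' hvu' t ht
    have hes : e u (e u' t) ∈ U := D.inv u hvu _ hs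
    have htrip : e u' (e u (e u' t)) = B u u' • e u' t := by
      have h3 := D.rel u' u hvu' hvu (e u' t) hs
      rw [D.sq u' hvu' t ht, map_zero, add_zero, D.bs u' u] at h3
      exact h3
    have hcomm : e u' (opL e (u :: G) (e u' t)) =
        ((-1 : ℝ) ^ G.length * B u u') • opL e (u' :: G) t := by
      rw [opL_cons_apply, D.opL_comm hi' (Finset.mem_insert_self _ _) G hGm _ hes, htrip,
        map_smul, smul_smul, opL_cons_apply]
    have hne2 : opL e (u :: G) (e u' t) ≠ 0 := by
      intro h0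
      rw [h0, map_zero] at hcomm
      have h3 := (smul_eq_zero.1 hcomm.symm).resolve_right hne
      exact (mul_ne_zero (pow_ne_zero _ (by norm_num)) hB.ne) h3
    have h3 := hpos (u :: G) (List.nodup_cons.2 ⟨hGu, hGn⟩)
      (by rw [List.toFinset_cons, hG]) (e u' t) hs hne2
    -- adjointness
    have hx : opL e (u :: G) (e u' t) ∈ U := D.opL_mem hi (u :: G) (by
      intro v hv
      rcases List.mem_cons.1 hv with rfl | hv
      · exact Finset.mem_insert_self _ _
      · exact hGmu v hv) _ hs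
    have h4 := D.adj u' hvu' _ hx t ht
    have h5 : h (opL e (u :: G) (e u' t)) (e u' t) = B u u' * h (opL e (u' :: G) t) t := by
      have h6 : (-1 : ℝ) ^ (d + 1) * (-1) ^ (d + 1) = 1 := neg_one_sq_pow ℝ _
      have h7 : (-1 : ℝ) ^ (d + 1) * (-1) ^ G.length = 1 := by
        rw [← hGl]
        rw [pow_add, pow_add]
        have := neg_one_sq_pow ℝ G.length
        calc (-1 : ℝ) ^ G.length * (-1) ^ 1 * (-1) ^ 1 * (-1) ^ G.length
            = (-1 : ℝ) ^ G.length * (-1) ^ G.length := by ring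
          _ = 1 := this
      calc h (opL e (u :: G) (e u' t)) (e u' t)
          = ((-1 : ℝ) ^ (d + 1) * (-1) ^ (d + 1)) * h (opL e (u :: G) (e u' t)) (e u' t) := by
            rw [h6, one_mul]
        _ = (-1 : ℝ) ^ (d + 1) * h (e u' (opL e (u :: G) (e u' t))) t := by rw [h4]; ring
        _ = (-1 : ℝ) ^ (d + 1) * (((-1 : ℝ) ^ G.length * B u u') *
              h (opL e (u' :: G) t) t) := by
            rw [hcomm, map_smul, LinearMap.smul_apply, smul_eq_mul]
        _ = ((-1 : ℝ) ^ (d + 1) * (-1) ^ G.length) * (B u u' *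
              h (opL e (u' :: G) t) t) := by ring
        _ = _ := by rw [h7, one_mul]
    rw [h5, sgL_cons, hG] at h3
    rw [sgL_cons, hG]
    have h8 : ε (insert u Γ) * (tau ℝ u Γ * sgL ℝ G) * (B u u' * h (opL e (u' :: G) t) t) =
        (-(B u u')) * (ε (insert u' Γ) * (tau ℝ u' Γ * sgL ℝ G) *
          h (opL e (u' :: G) t) t) := by
      calc ε (insert u Γ) * (tau ℝ u Γ * sgL ℝ G) * (B u u' * h (opL e (u' :: G) t) t)
          = (tau ℝ u Γ * ε (insert u Γ)) * (sgL ℝ G * B u u' * h (opL e (u' :: G) t) t) := by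
            ring
        _ = _ := by rw [hrel]; ring
    rw [h8] at h3
    exact (mul_pos_iff_of_pos_left (by linarith)).1 h3
  -- every list
  intro L hL hLf t ht hne
  have hperm : L.Perm (u' :: G) := by
    refine (List.perm_ext_iff_of_nodup hL (List.nodup_cons.2 ⟨hGu', hGn⟩)).2 ?_
    intro a
    rw [← List.mem_toFinset, hLf, ← List.mem_toFinset (l := u' :: G), List.toFinset_cons, hG]
  have h9 := h1 n ℝ S Δ U e B h ε d D L (u' :: G) hperm hL (by rw [hLf]; exact hi') t ht
  have hne2 : opL e (u' :: G) t ≠ 0 := by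
    intro h0
    rw [h0, smul_zero] at h9
    exact hne ((smul_eq_zero.1 h9).resolve_left (sgL_ne_zero L))
  have h10 := hkey t ht hne2
  have h11 : sgL ℝ L * h (opL e L t) t = sgL ℝ (u' :: G) * h (opL e (u' :: G) t) t := by
    have := congrArg (fun y => h y t) h9
    simpa only [map_smul, LinearMap.smul_apply, smul_eq_mul] using this
  rw [mul_assoc, h11, ← mul_assoc]
  exact h10

end Pool.Agent.H14.CL
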