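import Pool.Agent.H14.CL.Stm

/-!
Project CL (MP_32beb3_co), row TO4a: orthogonal complements.
-/

set_option autoImplicit false

namespace Pool.Agent.H14.CL

open Finset

theorem st_perp : StPerp := by
  intro n K S _ _ _ _ Δ U e B h ε d D F hF a ha hort
  have hv : ∀ u ∈ F, ({u} : Finset (Fin n)) ∈ Δ := fun u hu =>
    D.sph.down F hF {u} (Finset.singleton_subset_iff.2 hu)
  have key : a ∈ ⨆ u ∈ F, KK U e {u} := by
    by_contra hna
    obtain ⟨φ, hφa, hφ⟩ := Submodule.exists_le_ker_of_notMem hna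
    let g : U →ₗ[K] Module.Dual K U := h.compl₁₂ U.subtype U.subtype
    have hg : ∀ x y : U, g x y = h (x : S) (y : S) := fun x y => rfl
    have hinj : Function.Injective g := by
      rw [← LinearMap.ker_eq_bot, Submodule.eq_bot_iff]
      intro x hx
      apply Subtype.ext
      refine D.nd x x.2 fun y hy => ?_
      have h1 := LinearMap.congr_fun (LinearMap.mem_ker.1 hx) (⟨y, hy⟩ : U)
      exact h1
    have hsurj : Function.Surjective g :=
      (LinearMap.injective_iff_surjective_of_finrank_eq_finrank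
        (Subspace.dual_finrank_eq (K := K) (V := U)).symm).1 hinj
    obtain ⟨y, hy⟩ := hsurj (φ ∘ₗ U.subtype)
    have hy' : ∀ x ∈ U, h (y : S) x = φ x := fun x hx =>
      LinearMap.congr_fun hy (⟨x, hx⟩ : U)
    have hyK : (y : S) ∈ KK U e F := by
      refine ⟨y.2, fun u hu => D.nd _ (D.inv u (hv u hu) _ y.2) fun t ht => ?_⟩
      rw [D.adj u (hv u hu) _ y.2 t ht, hy' _ (D.inv u (hv u hu) t ht)]
      have h1 : e u t ∈ KK U e {u} := by
        refine ⟨D.inv u (hv u hu) t ht, fun v hv' => ?_⟩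
        rw [Finset.mem_singleton.1 hv']
        exact D.sq u (hv u hu) t ht
      have h2 : e u t ∈ ⨆ u ∈ F, KK U e {u} :=
        Submodule.mem_iSup_of_mem u (Submodule.mem_iSup_of_mem hu h1)
      have h3 : φ (e u t) = 0 := LinearMap.mem_ker.1 (hφ h2)
      rw [h3, mul_zero]
    have h4 := hort y hyK
    rw [hy' a ha] at h4
    exact hφa h4
  obtain ⟨μ, hμ⟩ := (Submodule.mem_iSup_finset_iff_exists_sum (fun u => KK U e {u}) a).1 key
  exact ⟨fun u => (μ u : S), fun u _ => (μ u).2, hμ.symm⟩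

end Pool.Agent.H14.CL
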