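import Pool.Agent.H14.CL.Stm

/-!
Project CL: positivity and negativity pass to links.
-/

set_option autoImplicit false

namespace Pool.Agent.H14.CL

open Finset

/-- the operators of a list of neighbours of `u` preserve the kernel of `e u` -/
theorem posLk_opL {n : ℕ} {S : Type} [AddCommGroup S] [Module ℝ S]
    {Δ : Finset (Finset (Fin n))} {U : Submodule ℝ S} {e : Fin n → S →ₗ[ℝ] S}
    {B : Fin n → Fin n → ℝ} {h : S →ₗ[ℝ] S →ₗ[ℝ] ℝ} {ε : Finset (Fin n) → ℝ} {d : ℕ}
    (D : Dat Δ U e B h ε d) (u : Fin n) (hu : {u} ∈ Δ) (L : List (Fin n))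
    (hL : ∀ v ∈ L, ({u, v} : Finset (Fin n)) ∈ Δ) :
    ∀ t ∈ KK U e {u}, opL e L t ∈ KK U e {u} := by
  induction L with
  | nil => intro t ht; exact ht
  | cons v L ih =>
    intro t ht
    have huv := hL v (List.mem_cons_self)
    have hv : ({v} : Finset (Fin n)) ∈ Δ := D.sph.down _ huv _ (by simp)
    have h1 : e v t ∈ KK U e {u} := by
      rw [mem_KK] at ht ⊢
      refine ⟨D.inv v hv t ht.1, fun x hx => ?_⟩
      rw [mem_singleton] at hx
      subst hx
      have h2 := D.rel x v hu hv t ht.1
      rw [ht.2 x (mem_singleton_self x), map_zero, add_zero, D.bz x v huv, zero_smul] at h2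
      exact h2
    exact ih (fun w hw => hL w (List.mem_cons_of_mem _ hw)) _ h1

theorem st_posLk : StPosLk := by
  intro n S _ _ Δ U e B h ε d D hP u hu h' hh L hL hLk hlen t ht hne
  have hdn : Down Δ := D.sph.down
  rw [mem_lk' hdn] at hLk
  obtain ⟨huL, hins⟩ := hLk
  obtain ⟨y, hy, hyt⟩ := D.kos ∅ D.sph.empty u (notMem_empty u) (by simpa using hu) t
    ((KK_empty U e).symm ▸ ht.1) (ht.2 u (mem_singleton_self u))
  rw [KK_empty] at hy
  have huL' : u ∉ L := fun hc => huL (List.mem_toFinset.2 hc)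
  have h1 : opL e (u :: L) y = opL e L t := by
    show opL e L (e u y) = _
    rw [hyt]
  have h2 := hP (u :: L) (List.nodup_cons.2 ⟨huL', hL⟩)
    (by rw [List.toFinset_cons]; exact hins) (by rw [List.length_cons, hlen]) y hy
    (by rw [h1]; exact hne)
  have h3 : opL e L t ∈ KK U e {u} := posLk_opL D u hu L (fun v hv => hdn _ hins _ (by
    intro x hx
    rw [mem_insert, mem_singleton] at hx
    rcases hx with rfl | rfl
    · exact mem_insert_self _ _
    · exact mem_insert_of_mem (List.mem_toFinset.2 hv))) t ht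
  have h4 : h' (opL e L t) t = h (opL e L t) y := by
    rw [← hh _ h3 y hy, hyt]
  have h5 : eps ε u L.toFinset = tau ℝ u L.toFinset * ε (insert u L.toFinset) := by
    unfold eps
    rw [if_neg huL]
  have h6 : sgL ℝ (u :: L) = tau ℝ u L.toFinset * sgL ℝ L := rfl
  rw [h1, h6, List.toFinset_cons] at h2
  rw [h4, h5]
  have e1 : tau ℝ u L.toFinset * ε (insert u L.toFinset) * sgL ℝ L * h (opL e L t) y =
      ε (insert u L.toFinset) * (tau ℝ u L.toFinset * sgL ℝ L) * h (opL e L t) y := by ring
  rw [e1]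
  exact h2

theorem st_negLk : StNegLk := by
  intro n K _ Δ ε B d D hN u hu F hF hc
  have _ := hu
  have hdn : Down Δ := D.down
  rw [mem_lk' hdn] at hF
  obtain ⟨huF, hins⟩ := hF
  obtain ⟨v, hv, hvi, hall⟩ := hN (insert u F) hins (by
    rw [card_insert_of_notMem huF]
    omega)
  rw [mem_insert, not_or] at hv
  refine ⟨v, hv.2, ?_, fun x hx hxF hxv => ?_⟩
  · rw [mem_lk' hdn, mem_insert, not_or]
    refine ⟨⟨Ne.symm hv.1, huF⟩, ?_⟩
    rw [Finset.insert_comm]
    exact hvi
  · rw [mem_lk' hdn, mem_insert, not_or] at hxF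
    obtain ⟨⟨hux, _⟩, hxi⟩ := hxF
    refine hall x ?_ ?_ ?_
    · rw [mem_insert, not_or]
      exact ⟨Ne.symm hux, hx⟩
    · rw [Finset.insert_comm]
      exact hxi
    · intro hxvΔ
      apply hxv
      rw [mem_lk' hdn, mem_insert, mem_singleton, not_or]
      refine ⟨⟨hux, Ne.symm hv.1⟩, ?_⟩
      have pux : ({u, x} : Finset (Fin n)) ∈ Δ := hdn _ hxi _ (by
        intro y hy
        rw [mem_insert, mem_singleton] at hy
        rcases hy with rfl | rfl
        · exact mem_insert_self _ _
        · exact mem_insert_of_mem (mem_insert_self _ _))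
      have puv : ({u, v} : Finset (Fin n)) ∈ Δ := hdn _ hvi _ (by
        intro y hy
        rw [mem_insert, mem_singleton] at hy
        rcases hy with rfl | rfl
        · exact mem_insert_of_mem (mem_insert_self _ _)
        · exact mem_insert_self _ _)
      have hs : ∀ y, ({y} : Finset (Fin n)) ∈ Δ → ({y, y} : Finset (Fin n)) ∈ Δ := fun y hy => by
        rwa [pair_eq_singleton]
      have su : ({u} : Finset (Fin n)) ∈ Δ := hdn _ pux _ (by simp)
      have sx : ({x} : Finset (Fin n)) ∈ Δ := hdn _ pux _ (by simp)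
      have sv : ({v} : Finset (Fin n)) ∈ Δ := hdn _ puv _ (by simp)
      refine D.flag _ fun a ha b hb => ?_
      simp only [mem_insert, mem_singleton] at ha hb
      rcases ha with rfl | rfl | rfl <;> rcases hb with rfl | rfl | rfl
      · exact hs _ su
      · exact pux
      · exact puv
      · rw [pair_comm]; exact pux
      · exact hs _ sx
      · exact hxvΔ
      · rw [pair_comm]; exact puv
      · rw [pair_comm]; exact hxvΔ
      · exact hs _ sv

end Pool.Agent.H14.CL
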