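import Pool.Agent.H14.CL.Stm

/-!
Project CL, OR1-OR3: exactness from the ranks of the boundary matrices.
-/

set_option autoImplicit false

namespace Pool.Agent.H14.CL

open Finset

variable {n : ℕ} {K : Type*} [Field K]

/-! ### entries -/

theorem bdM_insert {L : Finset (Finset (Fin n))} {m : ℕ} {G : Finset (Fin n)} {u : Fin n}
    (hu : u ∉ G) (hG : G ∈ L) (hH : insert u G ∈ L) (hm : G.card + 1 = m) :
    bdM K L m G (insert u G) = tau K u G := by
  have h1 : insert u G \ G = {u} := by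
    rw [insert_sdiff_of_notMem _ hu, sdiff_self]; rfl
  have h2 : G ∈ L ∧ insert u G ∈ L ∧ G.card + 1 = m ∧ (insert u G).card = m ∧
      G ⊆ insert u G := ⟨hG, hH, hm, by rw [card_insert_of_notMem hu, hm], subset_insert _ _⟩
  unfold bdM tau
  rw [Matrix.of_apply, if_pos h2, h1]
  congr 1
  refine card_bij (fun p _ => p.1) ?_ ?_ ?_
  · rintro ⟨a, b⟩ h
    rw [mem_filter, mem_product, mem_singleton] at h
    obtain ⟨⟨h3, rfl⟩, h4⟩ := h
    exact mem_filter.2 ⟨h3, h4⟩
  · rintro ⟨a, b⟩ h ⟨a', b'⟩ h' e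
    rw [mem_filter, mem_product, mem_singleton] at h h'
    obtain ⟨⟨h3, rfl⟩, h4⟩ := h
    obtain ⟨⟨h3', rfl⟩, h4'⟩ := h'
    simp only at e
    rw [e]
  · intro a ha
    rw [mem_filter] at ha
    exact ⟨(a, u), mem_filter.2 ⟨mem_product.2 ⟨ha.1, mem_singleton_self u⟩, ha.2⟩, rfl⟩

theorem bdM_ne {L : Finset (Finset (Fin n))} {m : ℕ} {G H : Finset (Fin n)}
    (h : bdM K L m G H ≠ 0) : G ∈ L ∧ H ∈ L ∧ G.card + 1 = m ∧ H.card = m ∧
      ∃ u, u ∉ G ∧ insert u G = H := by
  unfold bdM at h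
  rw [Matrix.of_apply] at h
  split_ifs at h with h1
  · obtain ⟨h2, h3, h4, h5, h6⟩ := h1
    refine ⟨h2, h3, h4, h5, ?_⟩
    have h7 : (H \ G).card = 1 := by
      rw [card_sdiff_of_subset h6]
      omega
    obtain ⟨u, hu⟩ := card_eq_one.1 h7
    have h8 : u ∈ H \ G := by rw [hu]; exact mem_singleton_self u
    obtain ⟨h9, h10⟩ := mem_sdiff.1 h8
    refine ⟨u, h10, ?_⟩
    rw [insert_eq, ← hu, sdiff_union_of_subset h6]
  · exact absurd rfl h

/-- coboundary -/
theorem bdM_vec {L : Finset (Finset (Fin n))} (hL : Down L) (m : ℕ) (φ : Finset (Fin n) → K)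
    {H : Finset (Fin n)} (hH : H ∈ L) (hm : H.card = m) :
    ∑ G, bdM K L m G H * φ G = ∑ u ∈ H, tau K u H * φ (H.erase u) := by
  classical
  have h1 : ∑ u ∈ H, tau K u H * φ (H.erase u) =
      ∑ G ∈ H.image (fun u => H.erase u), bdM K L m G H * φ G := by
    rw [sum_image]
    · refine sum_congr rfl fun u hu => ?_
      have h2 := bdM_insert (K := K) (L := L) (m := m) (notMem_erase u H)
        (hL H hH _ (erase_subset _ _)) (by rw [insert_erase hu]; exact hH)
        (by rw [card_erase_of_mem hu, ← hm]; have := card_pos.2 ⟨u, hu⟩; omega)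
      rw [insert_erase hu, tau_erase_self] at h2
      rw [h2]
    · intro u hu v hv e
      simp only at e
      by_contra hne
      have h3 : v ∈ H.erase u := mem_erase.2 ⟨fun e' => hne e'.symm, hv⟩
      rw [e] at h3
      exact notMem_erase v H h3
  rw [h1]
  symm
  refine sum_subset (subset_univ _) fun G _ hG => ?_
  by_contra h
  have h2 : bdM K L m G H ≠ 0 := fun h3 => h (by rw [h3, zero_mul])
  obtain ⟨-, -, -, -, u, hu, rfl⟩ := bdM_ne h2
  exact hG (mem_image.2 ⟨u, mem_insert_self _ _, erase_insert hu⟩)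

/-- boundary -/
theorem bdM_mul {L : Finset (Finset (Fin n))} (m : ℕ) (z : Finset (Fin n) → K)
    {Γ : Finset (Fin n)} (hΓ : Γ ∈ L) (hm : Γ.card + 1 = m) :
    ∑ H, bdM K L m Γ H * z H =
      ∑ u ∈ univ.filter (fun u => u ∉ Γ ∧ insert u Γ ∈ L), tau K u Γ * z (insert u Γ) := by
  classical
  have h1 : ∑ u ∈ univ.filter (fun u => u ∉ Γ ∧ insert u Γ ∈ L), tau K u Γ * z (insert u Γ) =
      ∑ H ∈ (univ.filter (fun u => u ∉ Γ ∧ insert u Γ ∈ L)).image (fun u => insert u Γ),
        bdM K L m Γ H * z H := by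
    rw [sum_image]
    · refine sum_congr rfl fun u hu => ?_
      obtain ⟨h2, h3⟩ := (mem_filter.1 hu).2
      rw [bdM_insert h2 hΓ h3 hm]
    · intro u hu v hv e
      obtain ⟨h2, h3⟩ := (mem_filter.1 hu).2
      simp only at e
      have h4 : u ∈ insert v Γ := by rw [← e]; exact mem_insert_self _ _
      rcases mem_insert.1 h4 with h5 | h5
      · exact h5
      · exact absurd h5 h2
  rw [h1]
  symm
  refine sum_subset (subset_univ _) fun H _ hH => ?_
  by_contra h
  have h2 : bdM K L m Γ H ≠ 0 := fun h3 => h (by rw [h3, zero_mul])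
  obtain ⟨-, h4, -, -, u, hu, rfl⟩ := bdM_ne h2
  exact hH (mem_image.2 ⟨u, mem_filter.2 ⟨mem_univ _, hu, h4⟩, rfl⟩)

/-! ### dimension counts -/

/-- functions supported on `I` -/
def Wsp (K : Type*) [Field K] (I : Finset (Finset (Fin n))) :
    Submodule K (Finset (Fin n) → K) where
  carrier := {φ | ∀ G, G ∉ I → φ G = 0}
  add_mem' := by
    intro a b ha hb G hG
    rw [Pi.add_apply, ha G hG, hb G hG, add_zero]
  zero_mem' := fun G _ => rfl
  smul_mem' := by
    intro c a ha G hG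
    rw [Pi.smul_apply, ha G hG, smul_zero]

theorem mem_Wsp {I : Finset (Finset (Fin n))} {φ : Finset (Fin n) → K} :
    φ ∈ Wsp K I ↔ ∀ G, G ∉ I → φ G = 0 := Iff.rfl

/-- restriction to `I` -/
def rsI (I : Finset (Finset (Fin n))) (φ : Finset (Fin n) → K) : Finset (Fin n) → K :=
  fun G => if G ∈ I then φ G else 0

theorem rsI_mem (I : Finset (Finset (Fin n))) (φ : Finset (Fin n) → K) : rsI I φ ∈ Wsp K I := by
  intro G hG
  unfold rsI
  rw [if_neg hG]

theorem finrank_Wsp (I : Finset (Finset (Fin n))) : Module.finrank K (Wsp K I) = I.card := by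
  have e : Wsp K I ≃ₗ[K] (↥I → K) :=
    { toFun := fun φ i => φ.1 i.1
      map_add' := fun _ _ => rfl
      map_smul' := fun _ _ => rfl
      invFun := fun f => ⟨fun G => if h : G ∈ I then f ⟨G, h⟩ else 0, fun G hG => dif_neg hG⟩
      left_inv := by
        intro φ
        apply Subtype.ext
        funext G
        by_cases h : G ∈ I
        · simp [h]
        · simp [h, φ.2 G h]
      right_inv := by
        intro f
        funext i
        simp }
  rw [e.finrank_eq, Module.finrank_fintype_fun_eq_card, Fintype.card_coe]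

theorem dim_ker {I : Finset (Finset (Fin n))}
    (D : (Finset (Fin n) → K) →ₗ[K] (Finset (Fin n) → K)) (hD : ∀ φ, D (rsI I φ) = D φ) :
    Module.finrank K (LinearMap.range D) + Module.finrank K ↥(Wsp K I ⊓ LinearMap.ker D) =
      I.card := by
  have h1 := LinearMap.finrank_range_add_finrank_ker (D ∘ₗ (Wsp K I).subtype)
  have h2 : LinearMap.range (D ∘ₗ (Wsp K I).subtype) = LinearMap.range D := by
    apply le_antisymm
    · exact LinearMap.range_comp_le_range _ _
    · rintro _ ⟨φ, rfl⟩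
      exact ⟨⟨rsI I φ, rsI_mem I φ⟩, hD φ⟩
  have h3 : (LinearMap.ker (D ∘ₗ (Wsp K I).subtype)).map (Wsp K I).subtype =
      Wsp K I ⊓ LinearMap.ker D := by
    ext φ
    rw [Submodule.mem_map, Submodule.mem_inf, LinearMap.mem_ker]
    constructor
    · rintro ⟨x, hx, rfl⟩
      exact ⟨x.2, LinearMap.mem_ker.1 hx⟩
    · rintro ⟨h4, h5⟩
      exact ⟨⟨φ, h4⟩, LinearMap.mem_ker.2 h5, rfl⟩
  have h4 := Submodule.finrank_map_subtype_eq (Wsp K I)
    (LinearMap.ker (D ∘ₗ (Wsp K I).subtype))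
  rw [h3] at h4
  rw [h2, ← h4, finrank_Wsp] at h1
  exact h1

/-- the coboundary map -/
noncomputable def cbd (K : Type*) [Field K] (L : Finset (Finset (Fin n))) (m : ℕ) :
    (Finset (Fin n) → K) →ₗ[K] (Finset (Fin n) → K) := (bdM K L m).transpose.mulVecLin

theorem cbd_apply (L : Finset (Finset (Fin n))) (m : ℕ) (φ : Finset (Fin n) → K)
    (H : Finset (Fin n)) : cbd K L m φ H = ∑ G, bdM K L m G H * φ G := rfl

theorem cbd_rank (L : Finset (Finset (Fin n))) (m : ℕ) :
    Module.finrank K (LinearMap.range (cbd K L m)) = (bdM K L m).rank := by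
  rw [← Matrix.rank_transpose]
  rfl

/-- the layer of faces of size `j` -/
def lay (L : Finset (Finset (Fin n))) (j : ℕ) : Finset (Finset (Fin n)) :=
  L.filter (fun G => G.card = j)

theorem mem_lay {L : Finset (Finset (Fin n))} {j : ℕ} {G : Finset (Fin n)} :
    G ∈ lay L j ↔ G ∈ L ∧ G.card = j := mem_filter

theorem cbd_rs (L : Finset (Finset (Fin n))) (j : ℕ) (φ : Finset (Fin n) → K) :
    cbd K L (j + 1) (rsI (lay L j) φ) = cbd K L (j + 1) φ := by
  funext H
  rw [cbd_apply, cbd_apply]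
  refine sum_congr rfl fun G _ => ?_
  by_cases h : bdM K L (j + 1) G H = 0
  · rw [h, zero_mul, zero_mul]
  · obtain ⟨h1, -, h2, -⟩ := bdM_ne h
    unfold rsI
    rw [if_pos (mem_lay.2 ⟨h1, by omega⟩)]

theorem cbd_mem (L : Finset (Finset (Fin n))) (m : ℕ) (φ : Finset (Fin n) → K) :
    cbd K L m φ ∈ Wsp K (lay L m) := by
  intro H hH
  rw [cbd_apply]
  refine sum_eq_zero fun G _ => ?_
  by_cases h : bdM K L m G H = 0
  · rw [h, zero_mul]
  · obtain ⟨-, h1, -, h2, -⟩ := bdM_ne h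
    exact absurd (mem_lay.2 ⟨h1, h2⟩) hH

theorem cbd_val {L : Finset (Finset (Fin n))} (hL : Down L) {m : ℕ} (φ : Finset (Fin n) → K)
    {H : Finset (Fin n)} (hH : H ∈ L) (hm : H.card = m) :
    cbd K L m φ H = ∑ u ∈ H, tau K u H * φ (H.erase u) := by
  rw [cbd_apply, bdM_vec hL m φ hH hm]

/-- the double coboundary vanishes -/
theorem cbd_cbd {L : Finset (Finset (Fin n))} (hL : Down L) (j : ℕ) (φ : Finset (Fin n) → K) :
    cbd K L (j + 1) (cbd K L j φ) = 0 := by
  funext H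
  rw [Pi.zero_apply]
  by_cases hH : H ∈ lay L (j + 1)
  · obtain ⟨h1, h2⟩ := mem_lay.1 hH
    rw [cbd_val hL _ h1 h2]
    have h3 : ∀ u ∈ H, tau K u H * cbd K L j φ (H.erase u) =
        ∑ v ∈ H.erase u, tau K u H * tau K v (H.erase u) * φ ((H.erase u).erase v) := by
      intro u hu
      rw [cbd_val hL φ (hL H h1 _ (erase_subset _ _)) (by rw [card_erase_of_mem hu]; omega),
        mul_sum]
      exact sum_congr rfl fun v _ => by ring
    rw [sum_congr rfl h3, sum_sigma']
    refine sum_involution (fun p _ => ⟨p.2, p.1⟩) ?_ ?_ ?_ ?_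
    · rintro ⟨u, v⟩ hp
      obtain ⟨hu, hv⟩ := mem_sigma.1 hp
      obtain ⟨hvu, hv⟩ := mem_erase.1 hv
      simp only at hu hv hvu ⊢
      rw [tau_swap_erase K (Ne.symm hvu) hu hv, erase_right_comm]
      ring
    · rintro ⟨u, v⟩ hp _ e
      obtain ⟨hu, hv⟩ := mem_sigma.1 hp
      obtain ⟨hvu, hv⟩ := mem_erase.1 hv
      simp only [Sigma.mk.injEq] at e
      exact hvu e.1
    · rintro ⟨u, v⟩ hp
      obtain ⟨hu, hv⟩ := mem_sigma.1 hp
      obtain ⟨hvu, hv⟩ := mem_erase.1 hv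
      exact mem_sigma.2 ⟨hv, mem_erase.2 ⟨Ne.symm hvu, hu⟩⟩
    · rintro ⟨u, v⟩ _
      rfl
  · exact cbd_mem L (j + 1) _ H hH

theorem st_lowRank : StLowRank := by
  intro n K _ L j hL hr φ hφ
  have h1 := dim_ker (K := K) (I := lay L j) (cbd K L (j + 1)) (cbd_rs L j)
  rw [cbd_rank] at h1
  have h2 : LinearMap.range (cbd K L j) = Wsp K (lay L j) ⊓ LinearMap.ker (cbd K L (j + 1)) := by
    apply Submodule.eq_of_le_of_finrank_eq
    · rintro _ ⟨ψ, rfl⟩
      exact ⟨cbd_mem L j ψ, LinearMap.mem_ker.2 (cbd_cbd hL j ψ)⟩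
    · rw [cbd_rank]
      have h3 : (lay L j).card = (L.filter (fun G => G.card = j)).card := rfl
      rw [← h3] at hr
      omega
  have h3 : rsI (lay L j) φ ∈ Wsp K (lay L j) ⊓ LinearMap.ker (cbd K L (j + 1)) := by
    refine ⟨rsI_mem _ _, LinearMap.mem_ker.2 ?_⟩
    rw [cbd_rs]
    funext H
    rw [Pi.zero_apply]
    by_cases hH : H ∈ lay L (j + 1)
    · obtain ⟨h4, h5⟩ := mem_lay.1 hH
      rw [cbd_val hL _ h4 h5]
      exact hφ H h4 h5
    · exact cbd_mem L (j + 1) _ H hH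
  rw [← h2] at h3
  obtain ⟨ψ, hψ⟩ := h3
  refine ⟨ψ, fun N hN hj => ?_⟩
  rw [← cbd_val hL ψ hN hj, hψ]
  unfold rsI
  rw [if_pos (mem_lay.2 ⟨hN, hj⟩)]

theorem st_topRank : StTopRank := by
  intro n K _ L j hL hle hr z hz hcyc φ hφ
  classical
  have hr0 : (bdM K L (j + 1)).rank = 0 := by
    have : bdM K L (j + 1) = 0 := by
      ext G H
      rw [Matrix.zero_apply]
      by_contra h
      obtain ⟨-, h1, -, h2, -⟩ := bdM_ne h
      have := hle H h1
      omega
    rw [this, Matrix.rank_zero]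
  -- the functional
  let f : (Finset (Fin n) → K) →ₗ[K] K :=
    { toFun := fun φ => ∑ N ∈ lay L j, z N * φ N
      map_add' := by
        intro a b
        simp only [Pi.add_apply, mul_add, sum_add_distrib]
      map_smul' := by
        intro c a
        simp only [Pi.smul_apply, smul_eq_mul, RingHom.id_apply, mul_sum]
        exact sum_congr rfl fun u _ => by ring }
  have hf : ∀ φ, f φ = ∑ N ∈ lay L j, z N * φ N := fun _ => rfl
  have h1 := LinearMap.finrank_range_add_finrank_ker (f ∘ₗ (Wsp K (lay L j)).subtype)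
  obtain ⟨N0, hN0, hN0', hzN⟩ := hz
  have hN0m : N0 ∈ lay L j := mem_lay.2 ⟨hN0, hN0'⟩
  have h2 : LinearMap.range (f ∘ₗ (Wsp K (lay L j)).subtype) = ⊤ := by
    rw [LinearMap.range_eq_top]
    intro c
    refine ⟨⟨fun G => if G = N0 then c / z N0 else 0, ?_⟩, ?_⟩
    · intro G hG
      have : G ≠ N0 := fun e => hG (e ▸ hN0m)
      simp only
      rw [if_neg this]
    · rw [LinearMap.comp_apply, Submodule.subtype_apply, hf]
      simp only [mul_ite, mul_zero]
      rw [sum_ite_eq' (lay L j) N0, if_pos hN0m]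
      field_simp
  rw [h2, finrank_top, Module.finrank_self, finrank_Wsp] at h1
  have h3 : (LinearMap.ker (f ∘ₗ (Wsp K (lay L j)).subtype)).map (Wsp K (lay L j)).subtype =
      Wsp K (lay L j) ⊓ LinearMap.ker f := by
    ext φ
    rw [Submodule.mem_map, Submodule.mem_inf, LinearMap.mem_ker]
    constructor
    · rintro ⟨x, hx, rfl⟩
      exact ⟨x.2, LinearMap.mem_ker.1 hx⟩
    · rintro ⟨h4, h5⟩
      exact ⟨⟨φ, h4⟩, LinearMap.mem_ker.2 h5, rfl⟩
  have h4 := Submodule.finrank_map_subtype_eq (Wsp K (lay L j))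
    (LinearMap.ker (f ∘ₗ (Wsp K (lay L j)).subtype))
  rw [h3] at h4
  have h5 : LinearMap.range (cbd K L j) = Wsp K (lay L j) ⊓ LinearMap.ker f := by
    apply Submodule.eq_of_le_of_finrank_eq
    · rintro _ ⟨ψ, rfl⟩
      refine ⟨cbd_mem L j ψ, LinearMap.mem_ker.2 ?_⟩
      rw [hf]
      have e1 : ∑ N ∈ lay L j, z N * cbd K L j ψ N = ∑ N, z N * cbd K L j ψ N := by
        refine sum_subset (subset_univ _) fun N _ hN => ?_
        rw [cbd_mem L j ψ N hN, mul_zero]
      rw [e1]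
      have e2 : ∑ N, z N * cbd K L j ψ N = ∑ G, ψ G * ∑ N, bdM K L j G N * z N := by
        simp only [cbd_apply, mul_sum]
        rw [sum_comm]
        exact sum_congr rfl fun G _ => sum_congr rfl fun N _ => by ring
      rw [e2]
      refine sum_eq_zero fun G _ => ?_
      by_cases hG : G ∈ L ∧ G.card + 1 = j
      · rw [bdM_mul j z hG.1 hG.2, hcyc G hG.2, mul_zero]
      · have : ∑ N, bdM K L j G N * z N = 0 := by
          refine sum_eq_zero fun N _ => ?_
          by_cases h : bdM K L j G N = 0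
          · rw [h, zero_mul]
          · obtain ⟨h6, -, h7, -⟩ := bdM_ne h
            exact absurd ⟨h6, h7⟩ hG
        rw [this, mul_zero]
    · rw [cbd_rank, h4]
      have h6 : (lay L j).card = (L.filter (fun G => G.card = j)).card := rfl
      rw [← h6, hr0] at hr
      omega
  have h6 : rsI (lay L j) φ ∈ Wsp K (lay L j) ⊓ LinearMap.ker f := by
    refine ⟨rsI_mem _ _, LinearMap.mem_ker.2 ?_⟩
    rw [hf, ← hφ]
    refine sum_congr rfl fun N hN => ?_
    have hN' : N ∈ lay L j := hN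
    unfold rsI
    rw [if_pos hN']
  rw [← h5] at h6
  obtain ⟨ψ, hψ⟩ := h6
  refine ⟨ψ, fun N hN hj => ?_⟩
  rw [← cbd_val hL ψ hN hj, hψ]
  unfold rsI
  rw [if_pos (mem_lay.2 ⟨hN, hj⟩)]

theorem st_cycRank : StCycRank := by
  intro n K _ L j hr
  classical
  have hD : ∀ φ : Finset (Fin n) → K, (bdM K L j).mulVecLin (rsI (lay L j) φ) =
      (bdM K L j).mulVecLin φ := by
    intro φ
    funext G
    change ∑ H, bdM K L j G H * rsI (lay L j) φ H = ∑ H, bdM K L j G H * φ H
    refine sum_congr rfl fun H _ => ?_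
    by_cases h : bdM K L j G H = 0
    · rw [h, zero_mul, zero_mul]
    · obtain ⟨-, h1, -, h2, -⟩ := bdM_ne h
      unfold rsI
      rw [if_pos (mem_lay.2 ⟨h1, h2⟩)]
  have h1 := dim_ker (K := K) (I := lay L j) (bdM K L j).mulVecLin hD
  have h2 : Module.finrank K (LinearMap.range (bdM K L j).mulVecLin) = (bdM K L j).rank := rfl
  rw [h2] at h1
  have h3 : (lay L j).card = (L.filter (fun G => G.card = j)).card := rfl
  rw [← h3] at hr
  have h4 : 0 < Module.finrank K ↥(Wsp K (lay L j) ⊓ LinearMap.ker (bdM K L j).mulVecLin) := by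
    omega
  obtain ⟨⟨z, hz1, hz2⟩, hz3⟩ := Module.finrank_pos_iff_exists_ne_zero.1 h4
  refine ⟨z, fun N hN => hz1 N fun h => hN (mem_lay.1 h), ?_, ?_⟩
  · by_contra hcon
    apply hz3
    apply Subtype.ext
    funext N
    change z N = 0
    by_contra hne
    by_cases hN : N ∈ lay L j
    · exact hcon ⟨N, (mem_lay.1 hN).1, (mem_lay.1 hN).2, hne⟩
    · exact hne (hz1 N hN)
  · intro Γ hΓ hj
    rw [← bdM_mul j z hΓ hj]
    have h5 : (bdM K L j).mulVecLin z = 0 := LinearMap.mem_ker.1 hz2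
    exact congrFun h5 Γ

end Pool.Agent.H14.CL
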