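import Pool.Agent.H14.CL.Stm

/-!
# Project CL, rows OR5, OR6: the rank condition passes to the real numbers
-/

set_option autoImplicit false

namespace Pool.Agent.H14.CL

open Finset

theorem or5_choose {K M ι : Type} [Field K] [AddCommGroup M] [Module K M]
    [Module.Finite K M] (v : ι → M) {r : ℕ}
    (hr : Module.finrank K (Submodule.span K (Set.range v)) = r) :
    ∃ g : Fin r → ι, LinearIndependent K (fun i => v (g i)) := by
  subst hr
  obtain ⟨f, hf1, -, hf3⟩ := Submodule.exists_fun_fin_finrank_span_eq K (Set.range v)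
  choose g hg using hf1
  refine ⟨g, ?_⟩
  have : (fun i => v (g i)) = f := funext hg
  rw [this]
  exact hf3

/-- the rank of an integer matrix over a field is at most its rank over a field of
characteristic zero -/
theorem or5_rank_le {α β : Type} [Fintype α] [Fintype β] [DecidableEq α] [DecidableEq β]
    (A : Matrix α β ℤ) (K K' : Type) [Field K] [Field K'] [CharZero K'] :
    (A.map (Int.castRingHom K)).rank ≤ (A.map (Int.castRingHom K')).rank := by
  classical
  obtain ⟨r, hr⟩ : ∃ r, (A.map (Int.castRingHom K)).rank = r := ⟨_, rfl⟩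
  -- independent columns
  obtain ⟨g, hg⟩ := or5_choose (K := K) (A.map (Int.castRingHom K)).col
    ((Matrix.rank_eq_finrank_span_cols _).symm.trans hr)
  set B := (A.map (Int.castRingHom K)).submatrix id g with hB
  have hBc : B.transpose.rank = r := by
    have h1 : LinearIndependent K B.transpose.row := hg
    rw [h1.rank_matrix, Fintype.card_fin]
  rw [Matrix.rank_transpose] at hBc
  -- independent rows
  obtain ⟨g', hg'⟩ := or5_choose (K := K) B.row
    ((Matrix.rank_eq_finrank_span_row _).symm.trans hBc)
  set Z : Matrix (Fin r) (Fin r) ℤ := A.submatrix g' g with hZ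
  have hdet : (Z.map (Int.castRingHom K)).det ≠ 0 := by
    have h1 : LinearIndependent K (Z.map (Int.castRingHom K)).row := hg'
    rw [Matrix.linearIndependent_rows_iff_isUnit, Matrix.isUnit_iff_isUnit_det] at h1
    exact h1.ne_zero
  have hZ0 : Z.det ≠ 0 := by
    intro h
    apply hdet
    have := RingHom.map_det (Int.castRingHom K) Z
    rw [RingHom.mapMatrix_apply] at this
    rw [← this, h, map_zero]
  have hdet' : (Z.map (Int.castRingHom K')).det ≠ 0 := by
    have := RingHom.map_det (Int.castRingHom K') Z
    rw [RingHom.mapMatrix_apply] at this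
    rw [← this]
    simpa using hZ0
  have h5 : (Z.map (Int.castRingHom K')).rank = r := by
    rw [Matrix.rank_of_isUnit _ ((Matrix.isUnit_iff_isUnit_det _).2 (isUnit_iff_ne_zero.2 hdet')),
      Fintype.card_fin]
  calc (A.map (Int.castRingHom K)).rank = r := hr
    _ = (Z.map (Int.castRingHom K')).rank := h5.symm
    _ = ((A.map (Int.castRingHom K')).submatrix g' g).rank := rfl
    _ ≤ (A.map (Int.castRingHom K')).rank := Matrix.rank_submatrix_le _ _ _

/-- the integer matrix -/
def or5_M {n : ℕ} (L : Finset (Finset (Fin n))) (m : ℕ) :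
    Matrix (Finset (Fin n)) (Finset (Fin n)) ℤ :=
  Matrix.of (fun G H =>
    if G ∈ L ∧ H ∈ L ∧ G.card + 1 = m ∧ H.card = m ∧ G ⊆ H then
      (-1 : ℤ) ^ ((G ×ˢ (H \ G)).filter (fun p => p.1 < p.2)).card else 0)

theorem or5_map {n : ℕ} (L : Finset (Finset (Fin n))) (m : ℕ) (K : Type) [Field K] :
    (or5_M L m).map (Int.castRingHom K) = bdM K L m := by
  ext G H
  simp only [or5_M, bdM, Matrix.map_apply, Matrix.of_apply]
  split_ifs
  · simp
  · simp

/-- row OR5 -/
theorem st_rankLe : StRankLe := by
  intro n K _ L m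
  rw [← or5_map, ← or5_map]
  exact or5_rank_le _ _ _

section comp

variable {n : ℕ} {K : Type} [Field K] {L : Finset (Finset (Fin n))} {m : ℕ}

theorem or5_ins {u : Fin n} {G : Finset (Fin n)} (hu : u ∉ G) (hG : G ∈ L)
    (hH : insert u G ∈ L) (hm : G.card + 1 = m) : bdM K L m G (insert u G) = tau K u G := by
  have h1 : insert u G \ G = {u} := by
    ext x
    simp only [mem_sdiff, mem_insert, mem_singleton]
    constructor
    · rintro ⟨h | h, h2⟩
      · exact h
      · exact absurd h h2
    · rintro rfl
      exact ⟨Or.inl rfl, hu⟩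
  have h2 : ((G ×ˢ ({u} : Finset (Fin n))).filter (fun p => p.1 < p.2)).card =
      (G.filter (fun x => x < u)).card := by
    refine Finset.card_bij' (fun p _ => p.1) (fun x _ => (x, u)) ?_ ?_ ?_ ?_
    · rintro ⟨a, b⟩ h
      simp only [mem_filter, mem_product, mem_singleton] at h ⊢
      exact ⟨h.1.1, h.1.2 ▸ h.2⟩
    · intro a h
      simp only [mem_filter, mem_product, mem_singleton] at h ⊢
      exact ⟨⟨h.1, trivial⟩, h.2⟩
    · rintro ⟨a, b⟩ h
      simp only [mem_filter, mem_product, mem_singleton] at h ⊢
      rw [h.1.2]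
    · intro a _
      rfl
  simp only [bdM, Matrix.of_apply]
  rw [if_pos ⟨hG, hH, hm, by rw [card_insert_of_notMem hu, hm], subset_insert _ _⟩, h1, h2]
  rfl

theorem or5_ne {G H : Finset (Fin n)} (h : bdM K L m G H ≠ 0) :
    G ∈ L ∧ H ∈ L ∧ G.card + 1 = m ∧ H.card = m ∧ G ⊆ H := by
  by_contra hc
  apply h
  simp only [bdM, Matrix.of_apply]
  rw [if_neg hc]

theorem or5_comp (hL : Down L) : bdM K L m * bdM K L (m + 1) = 0 := by
  classical
  ext G F
  rw [Matrix.mul_apply, Matrix.zero_apply]
  by_cases h : G ∈ L ∧ F ∈ L ∧ G.card + 1 = m ∧ F.card = m + 1 ∧ G ⊆ F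
  · obtain ⟨hG, hF, hc, hc', hs⟩ := h
    have h2 : (F \ G).card = 2 := by
      rw [card_sdiff_of_subset hs]
      omega
    obtain ⟨u, v, huv, hd⟩ := card_eq_two.1 h2
    have hu : u ∈ F \ G := by rw [hd]; simp
    have hv : v ∈ F \ G := by rw [hd]; simp
    rw [mem_sdiff] at hu hv
    have hF1 : insert v (insert u G) = F := by
      rw [← union_sdiff_of_subset hs, hd]
      ext x
      simp only [mem_insert, mem_union, mem_singleton]
      tauto
    have hF2 : insert u (insert v G) = F := by rw [Finset.insert_comm, hF1]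
    have hv' : v ∉ insert u G := by
      rw [mem_insert, not_or]
      exact ⟨huv.symm, hv.2⟩
    have hu' : u ∉ insert v G := by
      rw [mem_insert, not_or]
      exact ⟨huv, hu.2⟩
    have hL1 : insert u G ∈ L := hL F hF _ (by rw [← hF1]; exact subset_insert _ _)
    have hL2 : insert v G ∈ L := hL F hF _ (by rw [← hF2]; exact subset_insert _ _)
    rw [Finset.sum_eq_add (insert u G) (insert v G)]
    · have e1 := or5_ins (K := K) (L := L) (m := m) hu.2 hG hL1 hc
      have e2 := or5_ins (K := K) (L := L) (m := m) hv.2 hG hL2 hc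
      have e3 := or5_ins (K := K) (L := L) (m := m + 1) hv' hL1 (by rw [hF1]; exact hF)
        (by rw [card_insert_of_notMem hu.2]; omega)
      have e4 := or5_ins (K := K) (L := L) (m := m + 1) hu' hL2 (by rw [hF2]; exact hF)
        (by rw [card_insert_of_notMem hv.2]; omega)
      rw [hF1] at e3
      rw [hF2] at e4
      rw [e1, e2, e3, e4]
      have := tau_swap K (N := G) huv hu.2 hv.2
      linear_combination this
    · intro h
      apply hu'
      rw [← h]
      exact mem_insert_self _ _
    · intro H _ hH
      by_contra hne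
      have a1 := or5_ne (left_ne_zero_of_mul hne)
      have a2 := or5_ne (right_ne_zero_of_mul hne)
      have h3 : (H \ G).card = 1 := by
        rw [card_sdiff_of_subset a1.2.2.2.2]
        omega
      obtain ⟨w, hw⟩ := card_eq_one.1 h3
      have hw1 : w ∈ H \ G := by rw [hw]; simp
      have hwF : w ∈ F \ G := by
        rw [mem_sdiff] at hw1 ⊢
        exact ⟨a2.2.2.2.2 hw1.1, hw1.2⟩
      have hHw : H = insert w G := by
        rw [← union_sdiff_of_subset a1.2.2.2.2, hw]
        ext x
        simp only [mem_insert, mem_union, mem_singleton]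
        tauto
      rw [hd, mem_insert, mem_singleton] at hwF
      rcases hwF with rfl | rfl
      · exact hH.1 hHw
      · exact hH.2 hHw
    · intro h
      exact absurd (mem_univ _) h
    · intro h
      exact absurd (mem_univ _) h
  · refine sum_eq_zero fun H _ => ?_
    by_contra hne
    have a1 := or5_ne (left_ne_zero_of_mul hne)
    have a2 := or5_ne (right_ne_zero_of_mul hne)
    exact h ⟨a1.1, a2.2.1, a1.2.2.1, a2.2.2.2.1, a1.2.2.2.2.trans a2.2.2.2.2⟩

theorem or5_rank_add (hL : Down L) :
    (bdM K L m).rank + (bdM K L (m + 1)).rank ≤ (L.filter (fun G => G.card = m)).card := by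
  classical
  set I := {G : Finset (Fin n) // G ∈ L.filter (fun G => G.card = m)} with hI
  set A := (bdM K L m).submatrix id (Subtype.val : I → Finset (Fin n)) with hA
  set B := (bdM K L (m + 1)).submatrix (Subtype.val : I → Finset (Fin n)) id with hB
  have key : ∀ (x y : Finset (Fin n) → K), (∀ H, y H ≠ 0 → H ∈ L.filter (fun G => G.card = m)) →
      ∑ i : I, x i.1 * y i.1 = ∑ H, x H * y H := by
    intro x y hy
    rw [← Finset.sum_subset (Finset.subset_univ (L.filter (fun G => G.card = m)))]
    · exact Finset.sum_coe_sort (L.filter (fun G => G.card = m)) (fun H => x H * y H)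
    · intro H _ hH
      by_contra hne
      exact hH (hy H (right_ne_zero_of_mul hne))
  have h0 : A * B = 0 := by
    ext G F
    rw [Matrix.mul_apply, Matrix.zero_apply]
    have h1 := congrFun (congrFun (or5_comp (K := K) (m := m) hL) G) F
    rw [Matrix.mul_apply, Matrix.zero_apply] at h1
    rw [← h1]
    exact key (fun H => bdM K L m G H) (fun H => bdM K L (m + 1) H F) fun H hH => by
      obtain ⟨a1, -, a3, -, -⟩ := or5_ne hH
      rw [mem_filter]
      exact ⟨a1, by omega⟩
  have h1 := Matrix.rank_add_rank_le_card_of_mul_eq_zero h0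
  have hcard : Fintype.card I = (L.filter (fun G => G.card = m)).card := Fintype.card_coe _
  rw [hcard] at h1
  have hE1 : bdM K L m = A * Matrix.of (fun (i : I) (H : Finset (Fin n)) =>
      if i.1 = H then (1 : K) else 0) := by
    ext G H
    rw [Matrix.mul_apply]
    by_cases hH : H ∈ L.filter (fun G => G.card = m)
    · rw [Finset.sum_eq_single (⟨H, hH⟩ : I)]
      · simp [hA]
      · intro b _ hb
        have : b.1 ≠ H := fun h => hb (Subtype.ext h)
        simp [this]
      · intro h
        exact absurd (mem_univ _) h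
    · rw [Finset.sum_eq_zero]
      · by_contra hne
        obtain ⟨-, a2, -, a4, -⟩ := or5_ne hne
        exact hH (mem_filter.2 ⟨a2, a4⟩)
      · intro b _
        have : b.1 ≠ H := fun h => hH (h ▸ b.2)
        simp [this]
  have hE2 : bdM K L (m + 1) = Matrix.of (fun (H : Finset (Fin n)) (i : I) =>
      if i.1 = H then (1 : K) else 0) * B := by
    ext G H
    rw [Matrix.mul_apply]
    by_cases hH : G ∈ L.filter (fun G => G.card = m)
    · rw [Finset.sum_eq_single (⟨G, hH⟩ : I)]
      · simp [hB]
      · intro b _ hb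
        have : b.1 ≠ G := fun h => hb (Subtype.ext h)
        simp [this]
      · intro h
        exact absurd (mem_univ _) h
    · rw [Finset.sum_eq_zero]
      · by_contra hne
        obtain ⟨a1, -, a3, -, -⟩ := or5_ne hne
        exact hH (mem_filter.2 ⟨a1, by omega⟩)
      · intro b _
        have : b.1 ≠ G := fun h => hH (h ▸ b.2)
        simp [this]
  have h2 : (bdM K L m).rank ≤ A.rank := by
    rw [hE1]
    exact Matrix.rank_mul_le_left _ _
  have h3 : (bdM K L (m + 1)).rank ≤ B.rank := by
    rw [hE2]
    exact Matrix.rank_mul_le_right _ _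
  omega

theorem or5_zero : (bdM K L 0).rank = 0 := by
  have : bdM K L 0 = 0 := by
    ext G H
    rw [Matrix.zero_apply]
    by_contra hne
    have := (or5_ne hne).2.2.1
    omega
  rw [this, Matrix.rank_zero]

end comp

theorem or5_down {n : ℕ} {Δ : Finset (Finset (Fin n))} (hd : Down Δ) (F : Finset (Fin n)) :
    Down (lkF Δ F) := by
  intro G hG H hH
  rw [mem_lkF' hd] at hG ⊢
  exact ⟨disjoint_of_subset_left hH hG.1, hd _ hG.2 _ (union_subset_union hH subset_rfl)⟩

/-- row OR6 -/
theorem st_rankField : StRankField := by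
  intro n K _ Δ d hd hK F hF
  have hk : ∀ m, (bdM K (lkF Δ F) m).rank = (bdM ℝ (lkF Δ F) m).rank := by
    have hle := fun m => st_rankLe n K (lkF Δ F) m
    have hadd := fun m => or5_rank_add (K := ℝ) (m := m) (or5_down hd F)
    have hone : ∀ m, m ≠ d - F.card →
        (bdM K (lkF Δ F) m).rank = (bdM ℝ (lkF Δ F) m).rank ∧
        (bdM K (lkF Δ F) (m + 1)).rank = (bdM ℝ (lkF Δ F) (m + 1)).rank := by
      intro m hm
      have h1 := hK F hF m
      rw [if_neg hm] at h1
      have h2 := hadd m
      have h3 := hle m
      have h4 := hle (m + 1)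
      omega
    intro m
    by_cases hm : m = d - F.card
    · rcases m with _ | m
      · rw [or5_zero, or5_zero]
      · exact (hone m (by omega)).2
    · exact (hone m hm).1
  intro m
  rw [← hk, ← hk]
  exact hK F hF m

end Pool.Agent.H14.CL
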