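import Pool.Agent.H14.CL.Stm

/-!
Project CL: the rank condition gives a fundamental cycle and exactness (OR4).
-/

set_option autoImplicit false

namespace Pool.Agent.H14.CL

open Finset

namespace RS

variable {n : ℕ}

theorem lkF_empty (Δ : Finset (Finset (Fin n))) : lkF Δ ∅ = Δ := by
  ext G
  rw [mem_lkF]
  simp

theorem down_lkF {Δ : Finset (Finset (Fin n))} (hd : Down Δ) (F : Finset (Fin n)) :
    Down (lkF Δ F) := by
  intro G hG G' hGG'
  rw [mem_lkF' hd] at hG ⊢
  exact ⟨disjoint_of_subset_left hGG' hG.1, hd _ hG.2 _ (union_subset_union_left hGG')⟩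

section

variable {K : Type} [Field K] {Δ : Finset (Finset (Fin n))} {d : ℕ}

theorem pure_of_rank (hd : Down Δ) (hc : ∀ F ∈ Δ, F.card ≤ d) (hR : RankHyp K Δ d) :
    ∀ F ∈ Δ, ∃ Φ ∈ Δ, F ⊆ Φ ∧ Φ.card = d := by
  intro F hF
  have h := hR F hF (d - F.card)
  rw [if_pos rfl] at h
  have h1 : 0 < ((lkF Δ F).filter (fun G => G.card = d - F.card)).card := by omega
  obtain ⟨N, hN⟩ := card_pos.1 h1
  rw [mem_filter, mem_lkF' hd] at hN
  refine ⟨N ∪ F, hN.1.2, subset_union_right, ?_⟩
  rw [card_union_of_disjoint hN.1.1, hN.2]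
  have := hc F hF
  omega

theorem rank_lk (hd : Down Δ) (u : Fin n) (hR : RankHyp K Δ (d + 1)) :
    RankHyp K (lk Δ u) d := by
  intro F hF m
  rw [mem_lk' hd] at hF
  have h := hR (insert u F) hF.2 m
  rw [lkF_lk hd hF.1]
  rw [card_insert_of_notMem hF.1] at h
  rw [h]
  have h2 : d + 1 - (F.card + 1) = d - F.card := by omega
  rw [h2]

/-- the cycle condition passes to links -/
theorem cyc_eps {ε : Finset (Fin n) → K}
    (hz : ∀ Γ, ∑ u ∈ univ.filter (fun u => u ∉ Γ), tau K u Γ * ε (insert u Γ) = 0)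
    (u : Fin n) (Γ : Finset (Fin n)) :
    ∑ v ∈ univ.filter (fun v => v ∉ Γ), tau K v Γ * eps ε u (insert v Γ) = 0 := by
  by_cases hu : u ∈ Γ
  · apply sum_eq_zero
    intro v _
    rw [eps, if_pos (mem_insert_of_mem hu), mul_zero]
  · have h1 : univ.filter (fun v : Fin n => v ∉ Γ) =
        insert u (univ.filter (fun v : Fin n => v ∉ insert u Γ)) := by
      ext v
      simp only [mem_filter, mem_univ, true_and, mem_insert, not_or]
      constructor
      · intro h
        by_cases hv : v = u
        · exact Or.inl hv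
        · exact Or.inr ⟨hv, h⟩
      · rintro (h | h)
        · rw [h]; exact hu
        · exact h.2
    rw [h1, sum_insert (by simp)]
    have h2 : eps ε u (insert u Γ) = 0 := by rw [eps, if_pos (mem_insert_self _ _)]
    rw [h2, mul_zero, zero_add]
    have h3 : ∀ v ∈ univ.filter (fun v : Fin n => v ∉ insert u Γ),
        tau K v Γ * eps ε u (insert v Γ) =
        (-tau K u Γ) * (tau K v (insert u Γ) * ε (insert v (insert u Γ))) := by
      intro v hv
      simp only [mem_filter, mem_univ, true_and, mem_insert, not_or] at hv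
      rw [eps, if_neg (by rw [mem_insert, not_or]; exact ⟨Ne.symm hv.1, hu⟩), insert_comm u v Γ]
      have h4 := tau_swap K (u := u) (v := v) (N := Γ) (Ne.symm hv.1) hu hv.2
      linear_combination (ε (insert v (insert u Γ))) * h4
    rw [sum_congr rfl h3, ← mul_sum, hz (insert u Γ), mul_zero]

theorem off_eps (hd : Down Δ) {ε : Finset (Fin n) → K}
    (ho : ∀ Φ, ¬ (Φ ∈ Δ ∧ Φ.card = d + 1) → ε Φ = 0) (u : Fin n) (Φ : Finset (Fin n))
    (h : ¬ (Φ ∈ lk Δ u ∧ Φ.card = d)) : eps ε u Φ = 0 := by
  rw [eps]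
  split_ifs with hu
  · rfl
  · rw [ho, mul_zero]
    rintro ⟨h1, h2⟩
    rw [card_insert_of_notMem hu] at h2
    exact h ⟨(mem_lk' hd).2 ⟨hu, h1⟩, by omega⟩

theorem rank_one_at_empty (h0 : ∅ ∈ Δ) (hR : RankHyp K Δ d) (m : ℕ) :
    (((Δ.filter (fun G => G.card = m)).card : ℤ) - ((bdM K Δ m).rank : ℤ)
      - ((bdM K Δ (m + 1)).rank : ℤ)) = if m = d then 1 else 0 := by
  have h := hR ∅ h0 m
  rwa [lkF_empty, card_empty, Nat.sub_zero] at h

theorem tau_pair {a b : Fin n} (hab : a ≠ b) :
    tau K a {a, b} = - tau K b {a, b} := by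
  have h1 : tau K a {a, b} = tau K a {b} := tau_insert_self K a {b}
  have h2 : tau K b {a, b} = tau K b {a} := by
    rw [pair_comm]; exact tau_insert_self K b {a}
  have h3 : tau K a ({b} : Finset (Fin n)) = if b < a then -1 else 1 := by
    have := tau_insert K (u := a) (x := b) (N := ∅) (by simp)
    rwa [tau_empty, mul_one] at this
  have h4 : tau K b ({a} : Finset (Fin n)) = if a < b then -1 else 1 := by
    have := tau_insert K (u := b) (x := a) (N := ∅) (by simp)
    rwa [tau_empty, mul_one] at this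
  rw [h1, h2, h3, h4]
  rcases lt_or_gt_of_ne hab with h | h
  · rw [if_neg (not_lt.2 h.le), if_pos h, neg_neg]
  · rw [if_pos h, if_neg (not_lt.2 h.le)]

theorem tau_self (a : Fin n) : tau K a ({a} : Finset (Fin n)) = 1 := by
  have h : tau K a (insert a (∅ : Finset (Fin n))) = tau K a ∅ := tau_insert_self K a ∅
  rw [tau_empty] at h
  exact h

end

/-- a nonzero cycle is nowhere zero -/
theorem nz_aux (h1 : StLowRank) (h2 : StTopRank) {K : Type} [Field K] (d : ℕ) :
    ∀ (Δ : Finset (Finset (Fin n))) (ε : Finset (Fin n) → K), ∅ ∈ Δ → Down Δ →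
    (∀ F ∈ Δ, F.card ≤ d) → RankHyp K Δ d → (∀ Φ, ¬ (Φ ∈ Δ ∧ Φ.card = d) → ε Φ = 0) →
    (∀ Γ, ∑ u ∈ univ.filter (fun u => u ∉ Γ), tau K u Γ * ε (insert u Γ) = 0) →
    ∀ Φ0 ∈ Δ, Φ0.card = d → ε Φ0 ≠ 0 → ∀ Φ ∈ Δ, Φ.card = d → ε Φ ≠ 0 := by
  classical
  induction d with
  | zero =>
    intro Δ ε h0 hd hc hR ho hz Φ0 hΦ0 hc0 hn Φ hΦ hcΦ
    rw [card_eq_zero] at hc0 hcΦ
    rw [hcΦ, ← hc0]
    exact hn
  | succ d ih =>
    intro Δ ε h0 hd hc hR ho hz Φ0 hΦ0 hc0 hn
    -- (a)
    have ha : ∀ (v : Fin n) (Φ1 : Finset (Fin n)), Φ1 ∈ Δ → v ∈ Φ1 → Φ1.card = d + 1 → ε Φ1 ≠ 0 →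
        ∀ Φ ∈ Δ, v ∈ Φ → Φ.card = d + 1 → ε Φ ≠ 0 := by
      intro v Φ1 hΦ1 hv1 hc1 hn1 Φ hΦ hv hcΦ
      have key : ∀ Ψ : Finset (Fin n), Ψ ∈ Δ → v ∈ Ψ → Ψ.card = d + 1 →
          (Ψ.erase v ∈ lk Δ v ∧ (Ψ.erase v).card = d ∧
            (eps ε v (Ψ.erase v) ≠ 0 ↔ ε Ψ ≠ 0)) := by
        intro Ψ hΨ hvΨ hcΨ
        refine ⟨(mem_lk' hd).2 ⟨notMem_erase _ _, by rwa [insert_erase hvΨ]⟩, ?_, ?_⟩
        · rw [card_erase_of_mem hvΨ, hcΨ]; rfl
        · rw [eps, if_neg (notMem_erase _ _), insert_erase hvΨ]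
          have h5 : tau K v (Ψ.erase v) ≠ 0 := by
            intro h6
            have h7 := tau_sq K v (Ψ.erase v)
            rw [h6, mul_zero] at h7
            exact zero_ne_one h7
          constructor
          · intro h6 h7
            exact h6 (by rw [h7, mul_zero])
          · intro h6
            exact mul_ne_zero h5 h6
      have k1 := key Φ1 hΦ1 hv1 hc1
      have k2 := key Φ hΦ hv hcΦ
      have hvΔ : ({v} : Finset (Fin n)) ∈ Δ := hd _ hΦ _ (singleton_subset_iff.2 hv)
      refine k2.2.2.1 (ih (lk Δ v) (eps ε v) ?_ (down_lk hd v) ?_ (rank_lk hd v hR)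
        (off_eps hd ho v) (cyc_eps hz v) _ k1.1 k1.2.1 (k1.2.2.2 hn1) _ k2.1 k2.2.1)
      · rw [mem_lk' hd]
        exact ⟨notMem_empty _, hvΔ⟩
      · intro F hF
        rw [mem_lk' hd] at hF
        have h5 := hc _ hF.2
        rw [card_insert_of_notMem hF.1] at h5
        omega
    have hne : ∀ Ψ : Finset (Fin n), Ψ.card = d + 1 → ∃ v, v ∈ Ψ := by
      intro Ψ hΨ
      have : 0 < Ψ.card := by omega
      exact card_pos.1 this
    obtain ⟨v0, hv0⟩ := hne Φ0 hc0
    rcases Nat.eq_zero_or_pos d with hd0 | hdpos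
    · -- `d = 1` in the theorem
      subst hd0
      intro Φ hΦ hcΦ hcon
      obtain ⟨a, rfl⟩ := card_eq_one.1 hcΦ
      obtain ⟨b, rfl⟩ := card_eq_one.1 hc0
      have hab : a ≠ b := by
        rintro rfl
        exact hn hcon
      have hr := rank_one_at_empty h0 hR 1
      rw [if_pos rfl] at hr
      obtain ⟨ψ, hψ⟩ := h2 n K Δ 1 hd hc hr ε ⟨{b}, hΦ0, hc0, hn⟩ (by
          intro Γ hΓ
          rw [← hz Γ]
          apply sum_subset
          · intro u hu
            simp only [mem_filter, mem_univ, true_and] at hu ⊢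
            exact hu.1
          · intro u hu hu'
            simp only [mem_filter, mem_univ, true_and, not_and] at hu hu'
            rw [ho _ (fun h => hu' hu h.1), mul_zero])
        (fun N => if N = {a} then 1 else 0) (by
          apply sum_eq_zero
          intro N hN
          by_cases hNa : N = {a}
          · rw [if_pos hNa, hNa, hcon, zero_mul]
          · rw [if_neg hNa, mul_zero])
      have e1 := hψ {a} hΦ hcΦ
      have e2 := hψ {b} hΦ0 hc0
      rw [sum_singleton, tau_self, one_mul] at e1 e2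
      have e3 : ({b} : Finset (Fin n)) ≠ {a} := fun h => hab (singleton_injective h).symm
      have e4 : ({a} : Finset (Fin n)).erase a = ({b} : Finset (Fin n)).erase b := by
        rw [erase_singleton, erase_singleton]
      simp only [if_true] at e1
      rw [if_neg e3] at e2
      rw [e4, ← e2] at e1
      exact one_ne_zero e1
    · -- connectivity
      let X : Fin n → Prop := fun v => ∃ Φ ∈ Δ, v ∈ Φ ∧ Φ.card = d + 1 ∧ ε Φ ≠ 0
      have hX : ∀ a b : Fin n, ({a, b} : Finset (Fin n)) ∈ Δ → X a → X b := by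
        rintro a b hab ⟨Φ1, hΦ1, ha1, hc1, hn1⟩
        obtain ⟨Φ, hΦ, hsub, hcΦ⟩ := pure_of_rank hd hc hR _ hab
        exact ⟨Φ, hΦ, hsub (by simp), hcΦ,
          ha a Φ1 hΦ1 ha1 hc1 hn1 Φ hΦ (hsub (by simp)) hcΦ⟩
      have hr := rank_one_at_empty h0 hR 1
      rw [if_neg (by omega)] at hr
      let φ : Finset (Fin n) → K := fun N => if ∃ v, N = {v} ∧ X v then 1 else 0
      have hφ : ∀ v, φ {v} = if X v then 1 else 0 := by
        intro v
        by_cases hv : X v
        · rw [if_pos hv]
          exact if_pos ⟨v, rfl, hv⟩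
        · rw [if_neg hv]
          apply if_neg
          rintro ⟨w, hw, hw'⟩
          exact hv (by rw [singleton_injective hw]; exact hw')
      obtain ⟨ψ, hψ⟩ := h1 n K Δ 1 hd hr φ (by
        intro N hN hcN
        obtain ⟨a, b, hab, rfl⟩ := card_eq_two.1 hcN
        rw [sum_pair hab, tau_pair hab]
        have e1 : ({a, b} : Finset (Fin n)).erase a = {b} := by
          rw [erase_insert]; simpa using hab
        have e2 : ({a, b} : Finset (Fin n)).erase b = {a} := by
          rw [pair_comm, erase_insert]; simpa using hab.symm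
        rw [e1, e2, hφ, hφ]
        have e3 : X a ↔ X b := ⟨hX a b hN, hX b a (by rw [pair_comm]; exact hN)⟩
        by_cases hXa : X a
        · rw [if_pos hXa, if_pos (e3.1 hXa)]; ring
        · rw [if_neg hXa, if_neg (fun h => hXa (e3.2 h))]; ring)
      have hsing : ∀ v : Fin n, ({v} : Finset (Fin n)) ∈ Δ → φ {v} = ψ ∅ := by
        intro v hv
        have e1 := hψ {v} hv (card_singleton v)
        rw [sum_singleton, tau_self, one_mul, erase_singleton] at e1
        exact e1
      have hX0 : X v0 := ⟨Φ0, hΦ0, hv0, hc0, hn⟩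
      intro Φ hΦ hcΦ
      obtain ⟨v, hv⟩ := hne Φ hcΦ
      have e1 := hsing v (hd _ hΦ _ (singleton_subset_iff.2 hv))
      have e2 := hsing v0 (hd _ hΦ0 _ (singleton_subset_iff.2 hv0))
      rw [hφ] at e1 e2
      rw [if_pos hX0] at e2
      have hXv : X v := by
        by_contra hcon
        rw [if_neg hcon, ← e2] at e1
        exact zero_ne_one e1
      obtain ⟨Φ1, g1, g2, g3, g4⟩ := hXv
      exact ha v Φ1 g1 g2 g3 g4 Φ hΦ hv hcΦ

theorem bdM_zero_of {K : Type} [Field K] {L : Finset (Finset (Fin n))} {m : ℕ}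
    (h : ∀ G ∈ L, ∀ H ∈ L, G.card + 1 = m → H.card = m → False) : (bdM K L m).rank = 0 := by
  have h1 : bdM K L m = 0 := by
    ext G H
    rw [bdM, Matrix.of_apply, if_neg, Matrix.zero_apply]
    rintro ⟨g1, g2, g3, g4, g5⟩
    exact h G g1 H g2 g3 g4
  rw [h1, Matrix.rank_zero]

theorem euler_aux {K : Type} [Field K] {L : Finset (Finset (Fin n))} {t : ℕ} (ht : t ≤ n)
    (hR : ∀ m : ℕ, (((L.filter (fun G => G.card = m)).card : ℤ) - ((bdM K L m).rank : ℤ)
      - ((bdM K L (m + 1)).rank : ℤ)) = if m = t then 1 else 0) :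
    ∑ N ∈ L, (-1 : ℤ) ^ N.card = (-1) ^ t := by
  have h1 : ∑ N ∈ L, (-1 : ℤ) ^ N.card =
      ∑ m ∈ range (n + 1), (-1 : ℤ) ^ m * ((L.filter (fun G => G.card = m)).card : ℤ) := by
    rw [← sum_fiberwise_of_maps_to (s := L) (t := range (n + 1)) (g := fun N => N.card)]
    · apply sum_congr rfl
      intro m _
      rw [sum_congr rfl (g := fun _ => (-1 : ℤ) ^ m)]
      · rw [sum_const, nsmul_eq_mul, mul_comm]
      · intro N hN
        rw [(mem_filter.1 hN).2]
    · intro N _
      rw [mem_range]
      have := card_le_univ N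
      rw [Fintype.card_fin] at this
      omega
  rw [h1]
  have h2 : ∀ M : ℕ, ∑ m ∈ range M, (-1 : ℤ) ^ m * (((bdM K L m).rank : ℤ)
      + ((bdM K L (m + 1)).rank : ℤ)) =
      ((bdM K L 0).rank : ℤ) - (-1) ^ M * ((bdM K L M).rank : ℤ) := by
    intro M
    induction M with
    | zero => simp
    | succ M ih =>
      rw [sum_range_succ, ih, pow_succ]
      ring
  have h3 : (bdM K L 0).rank = 0 := bdM_zero_of (fun G _ H _ h _ => by omega)
  have h4 : (bdM K L (n + 1)).rank = 0 := bdM_zero_of (fun G _ H _ _ h => by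
    have := card_le_univ H
    rw [Fintype.card_fin] at this
    omega)
  have h5 := h2 (n + 1)
  rw [h3, h4] at h5
  have h6 : ∀ m ∈ range (n + 1), (-1 : ℤ) ^ m * ((L.filter (fun G => G.card = m)).card : ℤ) =
      (-1 : ℤ) ^ m * (((bdM K L m).rank : ℤ) + ((bdM K L (m + 1)).rank : ℤ)) +
      (if m = t then (-1 : ℤ) ^ t else 0) := by
    intro m _
    have h7 := hR m
    by_cases hm : m = t
    · rw [if_pos hm] at h7 ⊢
      rw [hm] at h7 ⊢
      linear_combination (-1 : ℤ) ^ t * h7
    · rw [if_neg hm] at h7 ⊢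
      linear_combination (-1 : ℤ) ^ m * h7
  rw [sum_congr rfl h6, sum_add_distrib, h5, sum_ite_eq' (range (n + 1)) t,
    if_pos (mem_range.2 (by omega))]
  simp

end RS

theorem st_rankSph (h1 : StLowRank) (h2 : StTopRank) (h3 : StCycRank) : StRankSph := by
  classical
  intro n K _ Δ d h0 hd hflag hc hR
  have hr := RS.rank_one_at_empty h0 hR d
  rw [if_pos rfl] at hr
  obtain ⟨z, hz1, ⟨Φ0, hΦ0, hc0, hn0⟩, hz3⟩ := h3 n K Δ d hr
  have hpure := RS.pure_of_rank hd hc hR
  have hcyc : ∀ Γ, ∑ u ∈ univ.filter (fun u => u ∉ Γ), tau K u Γ * z (insert u Γ) = 0 := by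
    intro Γ
    by_cases hΓ : Γ ∈ Δ ∧ Γ.card + 1 = d
    · rw [← hz3 Γ hΓ.1 hΓ.2]
      symm
      apply sum_subset
      · intro u hu
        simp only [mem_filter, mem_univ, true_and] at hu ⊢
        exact hu.1
      · intro u hu hu'
        simp only [mem_filter, mem_univ, true_and, not_and] at hu hu'
        rw [hz1 _ (fun h => hu' hu h.1), mul_zero]
    · apply sum_eq_zero
      intro u hu
      simp only [mem_filter, mem_univ, true_and] at hu
      rw [hz1, mul_zero]
      rintro ⟨g1, g2⟩
      rw [card_insert_of_notMem hu] at g2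
      exact hΓ ⟨hd _ g1 _ (subset_insert _ _), g2⟩
  have hnz := RS.nz_aux h1 h2 d Δ z h0 hd hc hR hz1 hcyc Φ0 hΦ0 hc0 hn0
  refine ⟨z, ?_⟩
  exact
    { down := hd
      empty := h0
      flag := hflag
      card_le := hc
      pure := hpure
      nz := hnz
      off := hz1
      cyc := hcyc
      low := by
        intro G hG j hj φ hφ
        have hr := hR G hG j
        rw [if_neg (by omega)] at hr
        exact h1 n K (lkF Δ G) j (RS.down_lkF hd G) hr φ hφ
      top := by
        intro G hG j hj φ hφ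
        have hr := hR G hG j
        rw [if_pos (by omega)] at hr
        refine h2 n K (lkF Δ G) j (RS.down_lkF hd G) ?_ hr
          (fun N => sh K N G * z (N ∪ G)) ?_ ?_ φ hφ
        · intro N hN
          rw [mem_lkF' hd] at hN
          have h5 := hc _ hN.2
          rw [card_union_of_disjoint hN.1] at h5
          omega
        · obtain ⟨Φ, hΦ, hsub, hcΦ⟩ := hpure G hG
          refine ⟨Φ \ G, ?_, ?_, ?_⟩
          · rw [mem_lkF' hd]
            exact ⟨sdiff_disjoint, by rwa [sdiff_union_of_subset hsub]⟩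
          · rw [card_sdiff_of_subset hsub]
            omega
          · rw [sdiff_union_of_subset hsub]
            apply mul_ne_zero _ (hnz Φ hΦ hcΦ)
            intro h6
            have h7 := sh_sq K (Φ \ G) G
            rw [h6, mul_zero] at h7
            exact zero_ne_one h7
        · intro Γ hΓ
          by_cases hdis : Disjoint Γ G
          · have h8 := hcyc (Γ ∪ G)
            have h9 : ∑ u ∈ univ.filter (fun u => u ∉ Γ ∧ insert u Γ ∈ lkF Δ G),
                tau K u Γ * (sh K (insert u Γ) G * z (insert u Γ ∪ G)) =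
                sh K Γ G * ∑ u ∈ univ.filter (fun u => u ∉ Γ ∪ G),
                  tau K u (Γ ∪ G) * z (insert u (Γ ∪ G)) := by
              rw [mul_sum]
              have h10 : ∀ u ∈ univ.filter (fun u => u ∉ Γ ∧ insert u Γ ∈ lkF Δ G),
                  tau K u Γ * (sh K (insert u Γ) G * z (insert u Γ ∪ G)) =
                  sh K Γ G * (tau K u (Γ ∪ G) * z (insert u (Γ ∪ G))) := by
                intro u hu
                simp only [mem_filter, mem_univ, true_and] at hu
                rw [sh_insert_left K G hu.1, tau_union K u hdis, insert_union]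
                ring
              rw [sum_congr rfl h10]
              apply sum_subset
              · intro u hu
                simp only [mem_filter, mem_univ, true_and] at hu ⊢
                rw [mem_lkF' hd, disjoint_insert_left] at hu
                rw [mem_union, not_or]
                exact ⟨hu.1, hu.2.1.1⟩
              · intro u hu hu'
                simp only [mem_filter, mem_univ, true_and, not_and] at hu hu'
                rw [mem_union, not_or] at hu
                rw [hz1, mul_zero, mul_zero]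
                rintro ⟨g1, g2⟩
                apply hu' hu.1
                rw [mem_lkF' hd, disjoint_insert_left, insert_union]
                exact ⟨⟨hu.2, hdis⟩, g1⟩
            rw [h9, h8, mul_zero]
          · apply sum_eq_zero
            intro u hu
            exfalso
            simp only [mem_filter, mem_univ, true_and] at hu
            rw [mem_lkF' hd, disjoint_insert_left] at hu
            exact hdis hu.2.1.2
      euler := by
        intro G hG
        obtain ⟨Φ, hΦ, hsub, hcΦ⟩ := hpure G hG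
        have h5 : d ≤ n := by
          have := card_le_univ Φ
          rw [Fintype.card_fin] at this
          omega
        exact RS.euler_aux (K := K) (by omega) (hR G hG) }

end Pool.Agent.H14.CL
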