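import Pool.Agent.H14.CL.Stm

/-!
Project CL: a ridge of a flag sphere is in exactly two facets, the numbers `B u u'` of the two
facets of a ridge are negative, and the facets are connected through ridges.
-/

set_option autoImplicit false

namespace Pool.Agent.H14.CL

open Finset

section ridge

variable {n : ℕ} {K : Type} [Field K] {Δ : Finset (Finset (Fin n))} {ε : Finset (Fin n) → K}
  {d : ℕ}

theorem rdg_tau_ne (u : Fin n) (N : Finset (Fin n)) : tau K u N ≠ 0 := by
  intro h
  have h1 := tau_sq K u N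
  rw [h, mul_zero] at h1
  exact zero_ne_one h1

/-- the test function with values at two faces, in top degree -/
theorem rdg_two (hS : Sph K Δ ε d) {G : Finset (Fin n)} (hG : G ∈ Δ) {j : ℕ}
    (hj : j + G.card = d) {M N : Finset (Fin n)} (hM : M ∈ lkF Δ G) (hN : N ∈ lkF Δ G)
    (hMj : M.card = j) (hNj : N.card = j) (hMN : M ≠ N) :
    ∃ ψ : Finset (Fin n) → K, ∀ L ∈ lkF Δ G, L.card = j →
      ((if L = M then sh K N G * ε (N ∪ G) else 0) +
        (if L = N then -(sh K M G * ε (M ∪ G)) else 0)) =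
        ∑ u ∈ L, tau K u L * ψ (L.erase u) := by
  refine hS.top G hG j hj
    (fun L => (if L = M then sh K N G * ε (N ∪ G) else 0) +
        (if L = N then -(sh K M G * ε (M ∪ G)) else 0)) ?_
  have h1 : ∀ L ∈ (lkF Δ G).filter (fun N => N.card = j),
      sh K L G * ε (L ∪ G) * ((if L = M then sh K N G * ε (N ∪ G) else 0) +
        (if L = N then -(sh K M G * ε (M ∪ G)) else 0)) =
      (if L = M then sh K M G * ε (M ∪ G) * (sh K N G * ε (N ∪ G)) else 0) +
      (if L = N then -(sh K M G * ε (M ∪ G) * (sh K N G * ε (N ∪ G))) else 0) := by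
    intro L _
    by_cases h : L = M
    · rw [if_pos h, if_neg (fun h' => hMN (h.symm.trans h')), if_pos h,
        if_neg (fun h' => hMN (h.symm.trans h')), h, add_zero, add_zero]
    · by_cases h' : L = N
      · rw [if_neg h, if_neg h, if_pos h', if_pos h', h', zero_add, zero_add]
        ring
      · rw [if_neg h, if_neg h, if_neg h', if_neg h', add_zero, mul_zero]
  rw [Finset.sum_congr rfl h1, Finset.sum_add_distrib, Finset.sum_ite_eq', Finset.sum_ite_eq',
    if_pos (mem_filter.2 ⟨hM, hMj⟩), if_pos (mem_filter.2 ⟨hN, hNj⟩), add_neg_cancel]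

/-- the two vertices opposite to a ridge are not adjacent -/
theorem rdg_nonadj (hS : Sph K Δ ε d) {Γ : Finset (Fin n)} (hd : Γ.card + 1 = d)
    {u u' : Fin n} (hne : u ≠ u') (hu : u ∉ Γ) (hu' : u' ∉ Γ) (hD : insert u Γ ∈ Δ)
    (hD' : insert u' Γ ∈ Δ) : ({u, u'} : Finset (Fin n)) ∉ Δ := by
  intro hadj
  have hF : insert u (insert u' Γ) ∈ Δ := by
    refine hS.flag _ fun a ha b hb => ?_
    rw [mem_insert, mem_insert] at ha hb
    have key : ∀ a b : Fin n, (a = u ∨ a ∈ Γ) → (b = u ∨ b ∈ Γ) →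
        ({a, b} : Finset (Fin n)) ∈ Δ := by
      intro a b ha hb
      refine hS.down _ hD _ ?_
      intro x hx
      rw [mem_insert, mem_singleton] at hx
      rw [mem_insert]
      rcases hx with rfl | rfl
      · exact ha
      · exact hb
    have key' : ∀ a b : Fin n, (a = u' ∨ a ∈ Γ) → (b = u' ∨ b ∈ Γ) →
        ({a, b} : Finset (Fin n)) ∈ Δ := by
      intro a b ha hb
      refine hS.down _ hD' _ ?_
      intro x hx
      rw [mem_insert, mem_singleton] at hx
      rw [mem_insert]
      rcases hx with rfl | rfl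
      · exact ha
      · exact hb
    rcases ha with ha | ha
    · rcases hb with hb | hb
      · exact key a b (Or.inl ha) (Or.inl hb)
      · rcases hb with hb | hb
        · rw [ha, hb]; exact hadj
        · exact key a b (Or.inl ha) (Or.inr hb)
    · rcases hb with hb | hb
      · rcases ha with ha | ha
        · rw [ha, hb, Finset.pair_comm]; exact hadj
        · exact key a b (Or.inr ha) (Or.inl hb)
      · exact key' a b ha hb
  have hc := hS.card_le _ hF
  have hn : u ∉ insert u' Γ := by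
    rw [mem_insert, not_or]
    exact ⟨hne, hu⟩
  rw [card_insert_of_notMem hn, card_insert_of_notMem hu'] at hc
  omega

theorem rdg_link (hS : Sph K Δ ε d) {Γ : Finset (Fin n)} {x : Fin n} (hx : x ∉ Γ)
    (hD : insert x Γ ∈ Δ) : ({x} : Finset (Fin n)) ∈ lkF Δ Γ := by
  rw [mem_lkF' hS.dn]
  refine ⟨disjoint_singleton_left.2 hx, ?_⟩
  rw [← insert_eq]
  exact hD

/-- no three facets through a ridge -/
theorem rdg_three (hS : Sph K Δ ε d) {Γ : Finset (Fin n)} (hΓ : Γ ∈ Δ) (hd : Γ.card + 1 = d)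
    {u u' x : Fin n} (hne : u ≠ u') (hu : u ∉ Γ) (hu' : u' ∉ Γ) (hD : insert u Γ ∈ Δ)
    (hD' : insert u' Γ ∈ Δ) (hx : x ∉ Γ) (hDx : insert x Γ ∈ Δ) : x = u ∨ x = u' := by
  by_contra hcon
  rw [not_or] at hcon
  obtain ⟨ψ, hψ⟩ := rdg_two hS hΓ (j := 1) (by omega) (rdg_link hS hu hD) (rdg_link hS hx hDx)
    (card_singleton u) (card_singleton x)
    (fun h => hcon.1 (Finset.singleton_injective h).symm)
  have hval : ∀ y, y ∉ Γ → insert y Γ ∈ Δ →
      ((if ({y} : Finset (Fin n)) = {u} then sh K {x} Γ * ε ({x} ∪ Γ) else 0) +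
        (if ({y} : Finset (Fin n)) = {x} then -(sh K {u} Γ * ε ({u} ∪ Γ)) else 0)) = ψ ∅ := by
    intro y hy hDy
    rw [hψ {y} (rdg_link hS hy hDy) (card_singleton y), sum_singleton]
    have h1 : tau K y {y} = 1 := by
      rw [← insert_empty_eq y, tau_insert_self, tau_empty]
    have h2 : ({y} : Finset (Fin n)).erase y = ∅ := by simp
    rw [h1, h2, one_mul]
  have h1 := hval u hu hD
  have h2 := hval u' hu' hD'
  rw [if_pos rfl, if_neg (fun h => hcon.1 (Finset.singleton_injective h).symm), add_zero] at h1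
  rw [if_neg (fun h => hne (Finset.singleton_injective h).symm),
    if_neg (fun h => hcon.2 (Finset.singleton_injective h).symm), add_zero] at h2
  rw [← h2, sh_singleton_left, ← insert_eq] at h1
  have hcx : (insert x Γ).card = d := by
    rw [card_insert_of_notMem hx]; exact hd
  exact mul_ne_zero (rdg_tau_ne x Γ) (hS.nz _ hDx hcx) h1

/-- exchange of the two sums over flags of a face and a vertex of it -/
theorem rdg_sum {M : Type*} [AddCommMonoid M] (f : Finset (Fin n) → Fin n → M) :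
    ∑ L : Finset (Fin n), ∑ u ∈ L, f L u =
      ∑ Γ : Finset (Fin n), ∑ u ∈ univ.filter (fun u => u ∉ Γ), f (insert u Γ) u := by
  rw [Finset.sum_sigma', Finset.sum_sigma']
  refine Finset.sum_nbij' (fun p => ⟨p.1.erase p.2, p.2⟩) (fun p => ⟨insert p.2 p.1, p.2⟩)
    ?_ ?_ ?_ ?_ ?_
  · rintro ⟨L, u⟩ h
    simp
  · rintro ⟨Γ, u⟩ h
    simp
  · rintro ⟨L, u⟩ h
    simp only [mem_sigma, mem_univ, true_and] at h
    simp [insert_erase h]
  · rintro ⟨Γ, u⟩ h
    simp only [mem_sigma, mem_univ, mem_filter, true_and] at h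
    simp [erase_insert h]
  · rintro ⟨L, u⟩ h
    simp only [mem_sigma, mem_univ, true_and] at h
    simp [insert_erase h]

end ridge

theorem st_ridge : StRidge := by
  intro n K _ Δ ε d hS Γ hΓ hd
  obtain ⟨Φ, hΦ, hsub, hc⟩ := hS.pure Γ hΓ
  obtain ⟨u, huΦ, hu⟩ : ∃ u, u ∈ Φ ∧ u ∉ Γ := by
    by_contra hcon
    push Not at hcon
    have : Φ.card ≤ Γ.card := card_le_card hcon
    omega
  have hins : insert u Γ = Φ := by
    refine eq_of_subset_of_card_le (insert_subset huΦ hsub) ?_
    rw [card_insert_of_notMem hu]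
    omega
  have hD : insert u Γ ∈ Δ := by
    rw [hins]; exact hΦ
  have hcard : ∀ x, x ∉ Γ → (insert x Γ).card = d := by
    intro x hx
    rw [card_insert_of_notMem hx]; exact hd
  have hcyc := hS.cyc Γ
  have hnz : tau K u Γ * ε (insert u Γ) ≠ 0 :=
    mul_ne_zero (rdg_tau_ne u Γ) (hS.nz _ hD (hcard u hu))
  obtain ⟨u', hne, hu', hD'⟩ : ∃ u', u ≠ u' ∧ u' ∉ Γ ∧ insert u' Γ ∈ Δ := by
    by_contra hcon
    push Not at hcon
    apply hnz
    rw [← hcyc]
    symm
    refine Finset.sum_eq_single_of_mem u (by simp [hu]) ?_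
    intro x hx hxu
    rw [mem_filter] at hx
    rw [hS.off (insert x Γ) (fun h => hcon x (Ne.symm hxu) hx.2 h.1), mul_zero]
  have hthree : ∀ x, x ∉ Γ → insert x Γ ∈ Δ → x = u ∨ x = u' := fun x hx hDx =>
    rdg_three hS hΓ hd hne hu hu' hD hD' hx hDx
  refine ⟨u, u', hne, hu, hu', hD, hD', rdg_nonadj hS hd hne hu hu' hD hD', hthree, ?_⟩
  rw [← hcyc, ← Finset.sum_pair hne (f := fun x => tau K x Γ * ε (insert x Γ))]
  refine Finset.sum_subset ?_ ?_
  · intro x hx
    rw [mem_insert, mem_singleton] at hx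
    rw [mem_filter]
    refine ⟨mem_univ _, ?_⟩
    rcases hx with rfl | rfl
    · exact hu
    · exact hu'
  · intro x hx hxu
    rw [mem_filter] at hx
    rw [mem_insert, mem_singleton] at hxu
    rw [hS.off (insert x Γ) (fun h => hxu (hthree x hx.2 h.1)), mul_zero]

theorem st_opp (hR : StRidge) : StOpp := by
  intro n K _ Δ ε d B hS hB hN Γ hΓ hd u u' hne hu hu' hD hD'
  obtain ⟨v, hv, hvD, hvB⟩ := hN Γ hΓ (by omega)
  obtain ⟨a, a', haa, ha, ha', haD, haD', hna, honly, -⟩ := hR n K Δ ε d hS Γ hΓ hd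
  have hnadj : ({u, u'} : Finset (Fin n)) ∉ Δ := rdg_nonadj hS hd hne hu hu' hD hD'
  have hvv : v = u ∨ v = u' := by
    rcases honly u hu hD with h1 | h1
    · rcases honly u' hu' hD' with h2 | h2
      · exact absurd (h1.trans h2.symm) hne
      · rcases honly v hv hvD with h3 | h3
        · exact Or.inl (h3.trans h1.symm)
        · exact Or.inr (h3.trans h2.symm)
    · rcases honly u' hu' hD' with h2 | h2
      · rcases honly v hv hvD with h3 | h3
        · exact Or.inr (h3.trans h2.symm)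
        · exact Or.inl (h3.trans h1.symm)
      · exact absurd (h1.trans h2.symm) hne
  rcases hvv with h | h
  · subst h
    rw [hB]
    refine hvB u' hu' hD' ?_
    rw [Finset.pair_comm]
    exact hnadj
  · subst h
    exact hvB u hu hD hnadj

open Classical in
theorem st_conn : StConn := by
  intro n K _ Δ ε d hS P hP Φ hΦ hΦd hPΦ Ψ hΨ hΨd
  by_contra hPΨ
  have hne : Φ ≠ Ψ := by
    rintro rfl
    exact hPΨ hPΦ
  have hl : ∀ L : Finset (Fin n), L ∈ Δ → L ∈ lkF Δ ∅ := by
    intro L hL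
    rw [mem_lkF' hS.dn]
    refine ⟨disjoint_empty_right _, ?_⟩
    rw [union_empty]
    exact hL
  obtain ⟨ψ, hψ⟩ := rdg_two hS hS.empty (j := d) (by simp) (hl Φ hΦ) (hl Ψ hΨ) hΦd hΨd hne
  set φ : Finset (Fin n) → K := fun L => if L ∈ Δ ∧ L.card = d ∧ P L then ε L else 0 with hφ
  -- `φ` is a cycle
  have hcyc : ∀ Γ, ∑ u ∈ univ.filter (fun u => u ∉ Γ), tau K u Γ * φ (insert u Γ) = 0 := by
    intro Γ
    by_cases h : ∃ u, u ∉ Γ ∧ insert u Γ ∈ Δ ∧ (insert u Γ).card = d ∧ P (insert u Γ)
    · obtain ⟨u, hu, hD, hc, hPu⟩ := h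
      rw [← hS.cyc Γ]
      refine Finset.sum_congr rfl fun x hx => ?_
      rw [mem_filter] at hx
      have hΓ : Γ ∈ Δ := hS.down _ hD _ (subset_insert _ _)
      have hΓd : Γ.card + 1 = d := by
        rw [← hc, card_insert_of_notMem hu]
      have hxc : (insert x Γ).card = d := by
        rw [card_insert_of_notMem hx.2]; exact hΓd
      congr 1
      rw [hφ]
      by_cases hxD : insert x Γ ∈ Δ
      · have hPx : P (insert x Γ) := by
          by_cases hxu : u = x
          · rw [← hxu]; exact hPu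
          · exact hP Γ hΓ hΓd u x hxu hu hx.2 hD hxD hPu
        simp only [hxD, hxc, hPx, and_self, if_true]
      · simp only [hxD, false_and, if_false]
        exact (hS.off _ (fun h => hxD h.1)).symm
    · refine Finset.sum_eq_zero fun x hx => ?_
      rw [mem_filter] at hx
      have hx' : ¬ (insert x Γ ∈ Δ ∧ (insert x Γ).card = d ∧ P (insert x Γ)) :=
        fun h' => h ⟨x, hx.2, h'⟩
      rw [hφ]
      simp only [hx', if_false, mul_zero]
  -- it pairs to zero with coboundaries
  have hpair : ∑ L : Finset (Fin n), φ L * ∑ u ∈ L, tau K u L * ψ (L.erase u) = 0 := by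
    have h1 : ∀ L : Finset (Fin n), φ L * ∑ u ∈ L, tau K u L * ψ (L.erase u) =
        ∑ u ∈ L, φ L * (tau K u L * ψ (L.erase u)) := fun L => Finset.mul_sum _ _ _
    rw [Finset.sum_congr rfl (fun L _ => h1 L),
      rdg_sum (fun L u => φ L * (tau K u L * ψ (L.erase u)))]
    refine Finset.sum_eq_zero fun Γ _ => ?_
    have h2 : ∑ u ∈ univ.filter (fun u => u ∉ Γ),
        φ (insert u Γ) * (tau K u (insert u Γ) * ψ ((insert u Γ).erase u)) =
        (∑ u ∈ univ.filter (fun u => u ∉ Γ), tau K u Γ * φ (insert u Γ)) * ψ Γ := by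
      rw [Finset.sum_mul]
      refine Finset.sum_congr rfl fun u hu => ?_
      rw [mem_filter] at hu
      rw [erase_insert hu.2, tau_insert_self]
      ring
    rw [h2, hcyc Γ, zero_mul]
  have hval : ∀ L : Finset (Fin n), φ L * ∑ u ∈ L, tau K u L * ψ (L.erase u) =
      if L = Φ then ε Φ * ε Ψ else 0 := by
    intro L
    by_cases hL : L ∈ Δ ∧ L.card = d ∧ P L
    · have h1 : φ L = ε L := by
        rw [hφ]
        simp only [hL, and_self, if_true]
      rw [← hψ L (hl L hL.1) hL.2.1, h1]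
      have h2 : L ≠ Ψ := by
        rintro rfl
        exact hPΨ hL.2.2
      rw [if_neg h2, add_zero, sh_empty_right, one_mul, union_empty]
      by_cases h3 : L = Φ
      · rw [if_pos h3, if_pos h3, h3]
      · rw [if_neg h3, if_neg h3, mul_zero]
    · have h1 : φ L = 0 := by
        rw [hφ]
        simp only [hL, if_false]
      rw [h1, zero_mul, if_neg]
      rintro rfl
      exact hL ⟨hΦ, hΦd, hPΦ⟩
  rw [Finset.sum_congr rfl (fun L _ => hval L), Finset.sum_ite_eq', if_pos (mem_univ _)] at hpair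
  exact mul_ne_zero (hS.nz _ hΦ hΦd) (hS.nz _ hΨ hΨd) hpair

end Pool.Agent.H14.CL
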