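import Pool.Agent.H14.CL.Stm

/-!
Project CL, row CL-TO6: rows and duality.
-/

set_option autoImplicit false

namespace Pool.Agent.H14.CL

open Finset

namespace RowAux

variable {n : ℕ} {K S : Type} [Field K] [AddCommGroup S] [Module K S]

/-- an antisymmetric sum over ordered pairs is zero -/
theorem antisum (N : Finset (Fin n)) (f : Fin n → Fin n → S)
    (hf : ∀ u ∈ N, ∀ v ∈ N, u ≠ v → f u v = - f v u) :
    ∑ u ∈ N, ∑ v ∈ N.erase u, f u v = 0 := by
  induction N using Finset.induction_on with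
  | empty => simp
  | insert a N ha ih =>
    rw [sum_insert ha, erase_insert ha]
    have h1 : ∑ u ∈ N, ∑ v ∈ (insert a N).erase u, f u v =
        ∑ u ∈ N, (f u a + ∑ v ∈ N.erase u, f u v) := by
      refine sum_congr rfl fun u hu => ?_
      have hua : a ≠ u := fun h => ha (h ▸ hu)
      rw [erase_insert_of_ne hua, sum_insert]
      exact fun h => ha (mem_of_mem_erase h)
    rw [h1, sum_add_distrib, ih fun u hu v hv huv =>
      hf u (mem_insert_of_mem hu) v (mem_insert_of_mem hv) huv, add_zero, ← sum_add_distrib]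
    refine sum_eq_zero fun u hu => ?_
    have hua : a ≠ u := fun h => ha (h ▸ hu)
    rw [hf a (mem_insert_self _ _) u (mem_insert_of_mem hu) hua, neg_add_cancel]

/-- the adjoint of the boundary -/
theorem adj_bd (h : S →ₗ[K] S →ₗ[K] K) (x a : Finset (Fin n) → S) :
    ∑ G, h (bd K x G) (a G) = ∑ F, h (x F) (∑ u ∈ F, tau K u F • a (F.erase u)) := by
  simp only [bd_apply, map_sum, LinearMap.sum_apply, map_smul, LinearMap.smul_apply, smul_eq_mul]
  rw [Finset.sum_sigma', Finset.sum_sigma']
  refine Finset.sum_bij' (fun p _ => ⟨insert p.2 p.1, p.2⟩) (fun p _ => ⟨p.1.erase p.2, p.2⟩)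
    ?_ ?_ ?_ ?_ ?_
  · rintro ⟨G, u⟩ hp
    simp
  · rintro ⟨G, u⟩ hp
    simp
  · rintro ⟨G, u⟩ hp
    simp only [mem_sigma, mem_univ, mem_filter, true_and] at hp
    simp [erase_insert hp]
  · rintro ⟨G, u⟩ hp
    simp only [mem_sigma, mem_univ, true_and] at hp
    simp [insert_erase hp]
  · rintro ⟨G, u⟩ hp
    simp only [mem_sigma, mem_univ, mem_filter, true_and] at hp
    rw [tau_insert_self, erase_insert hp]

theorem bd_mem {Δ : Finset (Finset (Fin n))} (hd : Down Δ) {U : Submodule K S}
    {e : Fin n → S →ₗ[K] S} {j : ℕ} {x : Finset (Fin n) → S}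
    (hx : x ∈ Ch Δ U e univ (j + 1)) : bd K x ∈ Ch Δ U e univ j := by
  rw [mem_Ch] at hx ⊢
  intro G
  constructor
  · rw [bd_apply]
    refine Submodule.sum_mem _ fun u _ => Submodule.smul_mem _ _ ?_
    exact KK_anti U e (subset_insert u G) (hx _).1
  · intro hG
    rw [bd_apply]
    refine sum_eq_zero fun u hu => ?_
    have hu' : u ∉ G := (mem_filter.1 hu).2
    rw [(hx (insert u G)).2, smul_zero]
    rintro ⟨h1, _, h3⟩
    rw [card_insert_of_notMem hu'] at h3
    exact hG ⟨hd _ h1 _ (subset_insert _ _), subset_univ _, by omega⟩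

theorem single_mem {Δ : Finset (Finset (Fin n))} {U : Submodule K S}
    {e : Fin n → S →ₗ[K] S} {F : Finset (Fin n)} (hF : F ∈ Δ) {y : S} (hy : y ∈ KK U e F) :
    (Pi.single F y : Finset (Fin n) → S) ∈ Ch Δ U e univ F.card := by
  rw [mem_Ch]
  intro G
  by_cases h : G = F
  · subst h
    rw [Pi.single_eq_same]
    exact ⟨hy, fun h => absurd ⟨hF, subset_univ _, rfl⟩ h⟩
  · rw [Pi.single_eq_of_ne h]
    exact ⟨Submodule.zero_mem _, fun _ => rfl⟩

/-- `K_u` is isotropic -/
theorem iso {Δ : Finset (Finset (Fin n))} {U : Submodule K S} {e : Fin n → S →ₗ[K] S}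
    {B : Fin n → Fin n → K} {h : S →ₗ[K] S →ₗ[K] K} {ε : Finset (Fin n) → K} {d : ℕ}
    (D : Dat Δ U e B h ε d) {u : Fin n} (hu : {u} ∈ Δ) {x y : S} (hx : x ∈ KK U e {u})
    (hy : y ∈ KK U e {u}) : h x y = 0 := by
  obtain ⟨t, ht, rfl⟩ := D.kos ∅ D.sph.empty u (notMem_empty u) (by simpa using hu) x
    (by rw [KK_empty]; exact hx.1) (hx.2 u (mem_singleton_self u))
  rw [KK_empty] at ht
  rw [D.adj u hu t ht y hy.1, hy.2 u (mem_singleton_self u), map_zero, mul_zero]

/-- representing functionals on `U` by the form -/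
theorem repr [FiniteDimensional K S] {Δ : Finset (Finset (Fin n))} {U : Submodule K S}
    {e : Fin n → S →ₗ[K] S}
    {B : Fin n → Fin n → K} {h : S →ₗ[K] S →ₗ[K] K} {ε : Finset (Fin n) → K} {d : ℕ}
    (D : Dat Δ U e B h ε d) (f : S →ₗ[K] K) : ∃ a ∈ U, ∀ y ∈ U, f y = h y a := by
  let φ : U →ₗ[K] Module.Dual K U := (h.flip.domRestrict₁₂ U U)
  have hφ : ∀ (a y : U), φ a y = h y a := fun a y => rfl
  have hinj : Function.Injective φ := by
    rw [← LinearMap.ker_eq_bot, LinearMap.ker_eq_bot']
    intro a ha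
    have h2 : (a : S) = 0 := by
      refine D.nd a a.2 fun y hy => ?_
      rw [D.sym a a.2 y hy, ← hφ a ⟨y, hy⟩, ha]
      simp
    exact Subtype.ext h2
  have hsurj : Function.Surjective φ :=
    (LinearMap.injective_iff_surjective_of_finrank_eq_finrank
      Subspace.dual_finrank_eq.symm).1 hinj
  obtain ⟨a, ha⟩ := hsurj (f ∘ₗ U.subtype)
  refine ⟨a, a.2, fun y hy => ?_⟩
  rw [← hφ a ⟨y, hy⟩, ha]
  rfl

/-- one step of the lift -/
theorem step {Δ : Finset (Finset (Fin n))} {U : Submodule K S}
    {e : Fin n → S →ₗ[K] S} {i g : ℕ}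
    {w : Finset (Fin n) → Finset (Fin n) → S} (hw : w ∈ Tot Δ U e i)
    (h4 : ∀ N G, g < G.card → w N G = 0) (h5 : ∀ N G, G.card < g → DD K Δ w N G = 0)
    (hb : ∀ F ∈ Δ, F.card = i + 1 + g → ∃ b : Finset (Fin n) → S,
      (∀ N, N ⊆ F → N.card = i → b N ∈ KK U e (F \ N)) ∧
      ∀ N, N ⊆ F → N.card = i + 1 → - ∑ u ∈ N, tau K u N • w (N.erase u) (F \ N) =
        ∑ u ∈ N, tau K u N • b (N.erase u)) :
    ∃ w' : Finset (Fin n) → Finset (Fin n) → S, w' ∈ Tot Δ U e i ∧ (∀ N, w' N ∅ = w N ∅) ∧
      (∀ N G, g + 1 < G.card → w' N G = 0) ∧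
      ∀ N G, G.card < g + 1 → DD K Δ w' N G = 0 := by
  classical
  have hb' : ∀ F : Finset (Fin n), ∃ b : Finset (Fin n) → S, F ∈ Δ → F.card = i + 1 + g →
      (∀ N, N ⊆ F → N.card = i → b N ∈ KK U e (F \ N)) ∧
      ∀ N, N ⊆ F → N.card = i + 1 → - ∑ u ∈ N, tau K u N • w (N.erase u) (F \ N) =
        ∑ u ∈ N, tau K u N • b (N.erase u) := by
    intro F
    by_cases hF : F ∈ Δ ∧ F.card = i + 1 + g
    · obtain ⟨b, hb1⟩ := hb F hF.1 hF.2
      exact ⟨b, fun _ _ => hb1⟩
    · exact ⟨0, fun h1 h2 => absurd ⟨h1, h2⟩ hF⟩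
  choose b hb2 using hb'
  rw [mem_Tot] at hw
  let ex : Finset (Fin n) → Finset (Fin n) → S := fun N G =>
    if Disjoint N G ∧ N ∪ G ∈ Δ ∧ N.card = i ∧ G.card = g + 1 then b (N ∪ G) N else 0
  have hex : ∀ N G, ¬ (Disjoint N G ∧ N ∪ G ∈ Δ ∧ N.card = i ∧ G.card = g + 1) →
      ex N G = 0 := fun N G h => if_neg h
  have hex' : ∀ N G, Disjoint N G → N ∪ G ∈ Δ → N.card = i → G.card = g + 1 →
      ex N G = b (N ∪ G) N := fun N G h h' h'' h''' => if_pos ⟨h, h', h'', h'''⟩
  refine ⟨w + ex, ?_, ?_, ?_, ?_⟩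
  · refine Submodule.add_mem _ (mem_Tot.2 hw) ?_
    rw [mem_Tot]
    intro N G
    constructor
    · by_cases h : Disjoint N G ∧ N ∪ G ∈ Δ ∧ N.card = i ∧ G.card = g + 1
      · obtain ⟨ha, hb, hc, hd⟩ := h
        rw [hex' N G ha hb hc hd]
        have h6 := (hb2 (N ∪ G) hb (by rw [card_union_of_disjoint ha]; omega)).1 N
          subset_union_left hc
        rwa [union_sdiff_cancel_left ha] at h6
      · rw [hex N G h]
        exact Submodule.zero_mem _
    · intro h
      refine hex N G fun h' => h ⟨h'.1, h'.2.1, h'.2.2.1⟩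
  · intro N
    rw [Pi.add_apply, Pi.add_apply, hex N ∅, add_zero]
    rintro ⟨_, _, _, h⟩
    simp at h
  · intro N G h
    rw [Pi.add_apply, Pi.add_apply, h4 N G (by omega), hex N G, add_zero]
    rintro ⟨_, _, _, h'⟩
    omega
  · intro N G hG
    rw [map_add, Pi.add_apply, Pi.add_apply]
    rcases Nat.lt_or_ge G.card g with hlt | hge
    · rw [h5 N G hlt, zero_add, DD_apply]
      split_ifs with h
      · refine sum_eq_zero fun u hu => ?_
        rw [hex (N.erase u) G, hex (N.erase u) (insert u G), add_zero, smul_zero]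
        · rintro ⟨_, _, _, h'⟩
          have := card_insert_le u G
          omega
        · rintro ⟨_, _, _, h'⟩
          omega
      · rfl
    · have hGg : G.card = g := by omega
      rw [DD_apply, DD_apply]
      split_ifs with h
      · by_cases hN : N.card = i + 1
        · have h6 := (hb2 (N ∪ G) h.2 (by rw [card_union_of_disjoint h.1]; omega)).2 N
            subset_union_left hN
          rw [union_sdiff_cancel_left h.1] at h6
          have h7 : ∑ u ∈ N, tau K u N • (w (N.erase u) G + w (N.erase u) (insert u G)) =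
              ∑ u ∈ N, tau K u N • w (N.erase u) G := by
            refine sum_congr rfl fun u hu => ?_
            have hu' : u ∉ G := disjoint_left.1 h.1 hu
            rw [h4 (N.erase u) (insert u G) (by rw [card_insert_of_notMem hu']; omega), add_zero]
          have h8 : ∑ u ∈ N, tau K u N • (ex (N.erase u) G + ex (N.erase u) (insert u G)) =
              ∑ u ∈ N, tau K u N • b (N ∪ G) (N.erase u) := by
            refine sum_congr rfl fun u hu => ?_
            have hu' : u ∉ G := disjoint_left.1 h.1 hu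
            have h9 : N.erase u ∪ insert u G = N ∪ G := by
              rw [union_insert, ← insert_union, insert_erase hu]
            rw [hex (N.erase u) G (by rintro ⟨_, _, _, h'⟩; omega), zero_add,
              hex' (N.erase u) (insert u G), h9]
            · rw [disjoint_insert_right]
              exact ⟨notMem_erase _ _, h.1.mono_left (erase_subset _ _)⟩
            · rw [h9]
              exact h.2
            · rw [card_erase_of_mem hu]
              omega
            · rw [card_insert_of_notMem hu']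
              omega
          rw [h7, h8, ← h6, add_neg_cancel]
        · have h7 : ∑ u ∈ N, tau K u N • (w (N.erase u) G + w (N.erase u) (insert u G)) = 0 := by
            refine sum_eq_zero fun u hu => ?_
            have h8 : (N.erase u).card ≠ i := by
              have := card_pos.2 ⟨u, hu⟩
              rw [card_erase_of_mem hu]
              omega
            rw [(hw (N.erase u) G).2 fun h' => h8 h'.2.2,
              (hw (N.erase u) (insert u G)).2 fun h' => h8 h'.2.2, add_zero, smul_zero]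
          have h7' : ∑ u ∈ N, tau K u N • (ex (N.erase u) G + ex (N.erase u) (insert u G)) =
              0 := by
            refine sum_eq_zero fun u hu => ?_
            have h8 : (N.erase u).card ≠ i := by
              have := card_pos.2 ⟨u, hu⟩
              rw [card_erase_of_mem hu]
              omega
            rw [hex (N.erase u) G fun h' => h8 h'.2.2.1,
              hex (N.erase u) (insert u G) fun h' => h8 h'.2.2.1, add_zero, smul_zero]
          rw [h7, h7', add_zero]
      · rw [add_zero]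

/-- the first step -/
theorem base [FiniteDimensional K S] (H1 : StPerp) {Δ : Finset (Finset (Fin n))}
    {U : Submodule K S} {e : Fin n → S →ₗ[K] S}
    {B : Fin n → Fin n → K} {h : S →ₗ[K] S →ₗ[K] K} {ε : Finset (Fin n) → K} {d : ℕ}
    (D : Dat Δ U e B h ε d) {i : ℕ} {a : Finset (Fin n) → S} (ha : ∀ N, a N ∈ U)
    {F : Finset (Fin n)} (hF : F ∈ Δ) (hFi : F.card = i + 1)
    (hf : ∀ y ∈ KK U e F, h y (∑ u ∈ F, tau K u F • a (F.erase u)) = 0) :
    ∃ b : Finset (Fin n) → S,
      (∀ N, N ⊆ F → N.card = i → b N ∈ KK U e (F \ N)) ∧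
      ∀ N, N ⊆ F → N.card = i + 1 → - ∑ u ∈ N, tau K u N • a (N.erase u) =
        ∑ u ∈ N, tau K u N • b (N.erase u) := by
  obtain ⟨c, hc, hc'⟩ := H1 n K S Δ U e B h ε d D F hF (- ∑ u ∈ F, tau K u F • a (F.erase u))
    (U.neg_mem (U.sum_mem fun u _ => U.smul_mem _ (ha _)))
    (fun y hy => by rw [map_neg, hf y hy, neg_zero])
  refine ⟨fun N => ∑ u ∈ F \ N, tau K u F • c u, ?_, ?_⟩
  · intro N hN hNi
    have h1 : (F \ N).card = 1 := by
      rw [card_sdiff_of_subset hN]
      omega
    obtain ⟨u, hu⟩ := card_eq_one.1 h1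
    have hu' : u ∈ F := by
      have : u ∈ F \ N := by rw [hu]; exact mem_singleton_self u
      exact (mem_sdiff.1 this).1
    simp only [hu, sum_singleton]
    exact Submodule.smul_mem _ _ (hc u hu')
  · intro N hN hNi
    have hNF : N = F := eq_of_subset_of_card_le hN (by omega)
    subst hNF
    rw [hc']
    refine sum_congr rfl fun u hu => ?_
    have h1 : N \ (N.erase u) = {u} := by
      ext v
      simp only [mem_sdiff, mem_erase, mem_singleton, not_and]
      constructor
      · rintro ⟨h2, h3⟩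
        by_contra h4
        exact h3 h4 h2
      · rintro rfl
        exact ⟨hu, fun h2 _ => h2 rfl⟩
    beta_reduce
    rw [h1, sum_singleton, smul_smul, tau_sq, one_smul]

/-- closedness of the row chain -/
theorem closed {Δ : Finset (Finset (Fin n))} (hd : Down Δ) {g : ℕ}
    {w : Finset (Fin n) → Finset (Fin n) → S}
    (h5 : ∀ N G, G.card < g → DD K Δ w N G = 0) {F : Finset (Fin n)} (hF : F ∈ Δ)
    {N : Finset (Fin n)} (hN : N ⊆ F) (hFN : F.card < g + N.card) :
    ∑ u ∈ N, tau K u N • - ∑ v ∈ N.erase u, tau K v (N.erase u) •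
      w ((N.erase u).erase v) (F \ N.erase u) = 0 := by
  have hG : (F \ N).card < g := by
    have := card_le_card hN
    rw [card_sdiff_of_subset hN]
    omega
  have h1 : ∑ v ∈ N, ∑ u ∈ N.erase v, (tau K v N * tau K u (N.erase v)) •
      w ((N.erase v).erase u) (F \ N) = 0 := by
    refine antisum N (fun v u => (tau K v N * tau K u (N.erase v)) •
      w ((N.erase v).erase u) (F \ N)) fun v hv u hu huv => ?_
    rw [tau_swap_erase K huv hv hu, neg_smul, erase_right_comm]
  have h2 : ∑ v ∈ N, ∑ u ∈ N.erase v, (tau K v N * tau K u (N.erase v)) •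
      (w ((N.erase v).erase u) (F \ N) + w ((N.erase v).erase u) (insert u (F \ N))) = 0 := by
    refine sum_eq_zero fun v hv => ?_
    have h3 := h5 (N.erase v) (F \ N) hG
    have h4 : Disjoint (N.erase v) (F \ N) :=
      (disjoint_sdiff).mono_left (erase_subset v N)
    have h6 : N.erase v ∪ F \ N ∈ Δ := by
      refine hd F hF _ (union_subset ((erase_subset v N).trans hN) sdiff_subset)
    rw [DD_apply, if_pos ⟨h4, h6⟩] at h3
    simp only [mul_smul]
    rw [← smul_sum, h3, smul_zero]
  simp only [smul_add, sum_add_distrib] at h2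
  rw [h1, zero_add] at h2
  have h7 : ∑ u ∈ N, ∑ v ∈ N.erase u, (tau K u N * tau K v (N.erase u)) •
      w ((N.erase u).erase v) (insert u (F \ N)) = 0 := by
    have h8 : ∀ f : Fin n → Fin n → S, ∑ u ∈ N, ∑ v ∈ N.erase u, f u v =
        ∑ v ∈ N, ∑ u ∈ N.erase v, f u v := by
      intro f
      refine sum_comm' ?_
      intro u v
      simp only [mem_erase]
      constructor
      · rintro ⟨h9, h10, h11⟩
        exact ⟨⟨h10.symm, h9⟩, h11⟩
      · rintro ⟨⟨h9, h10⟩, h11⟩
        exact ⟨h10, h9.symm, h11⟩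
    rw [h8]
    rw [← neg_eq_zero, ← h2, ← sum_neg_distrib]
    refine sum_congr rfl fun v hv => ?_
    rw [← sum_neg_distrib]
    refine sum_congr rfl fun u hu => ?_
    have hu' := mem_erase.1 hu
    rw [tau_swap_erase K hu'.1 hu'.2 hv, neg_smul, neg_neg, erase_right_comm]
  rw [← neg_eq_zero, ← h7, ← sum_neg_distrib]
  refine sum_congr rfl fun u hu => ?_
  have h9 : F \ N.erase u = insert u (F \ N) := by
    ext v
    simp only [mem_sdiff, mem_erase, mem_insert, not_and]
    constructor
    · rintro ⟨h10, h11⟩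
      by_cases hvu : v = u
      · exact Or.inl hvu
      · exact Or.inr ⟨h10, h11 hvu⟩
    · rintro (h10 | ⟨h10, h11⟩)
      · subst h10
        exact ⟨hN hu, fun h => absurd rfl h⟩
      · exact ⟨h10, fun _ => h11⟩
  rw [h9, smul_neg, neg_neg, smul_sum]
  refine sum_congr rfl fun v _ => ?_
  rw [smul_smul]

end RowAux

open RowAux in
theorem st_row (H1 : StPerp) (H2 : StRowEx) : StRow := by
  classical
  intro n K S _ _ _ _ Δ U e B h ε d D i hT x hx hx0
  have hd : Down Δ := D.sph.dn
  by_contra hnb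
  -- a functional separating `x` from the boundaries
  have hx1 : x ∉ (Ch Δ U e univ (i + 1)).map (bd K) := by
    rintro ⟨y, hy, hyx⟩
    exact hnb ⟨y, hy, hyx⟩
  obtain ⟨f, hfx, hf0⟩ := Submodule.exists_le_ker_of_notMem hx1
  have hfB : ∀ y ∈ Ch Δ U e univ (i + 1), f (bd K y) = 0 := fun y hy => hf0 ⟨y, hy, rfl⟩
  -- the values
  have hrep : ∀ N : Finset (Fin n), ∃ a ∈ U, (¬ (N ∈ Δ ∧ N.card = i) → a = 0) ∧
      (N ∈ Δ → N.card = i → ∀ y ∈ U, f (Pi.single N y) = h y a) := by
    intro N
    by_cases hN : N ∈ Δ ∧ N.card = i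
    · obtain ⟨a, ha, ha'⟩ := repr D (f ∘ₗ LinearMap.single K (fun _ : Finset (Fin n) => S) N)
      exact ⟨a, ha, fun h => absurd hN h, fun _ _ y hy => ha' y hy⟩
    · exact ⟨0, U.zero_mem, fun _ => rfl, fun h1 h2 => absurd ⟨h1, h2⟩ hN⟩
  choose a haU ha0 ha1 using hrep
  have hfz : ∀ z ∈ Ch Δ U e univ i, f z = ∑ N, h (z N) (a N) := by
    intro z hz
    rw [mem_Ch] at hz
    have h1 : z = ∑ N, (Pi.single N (z N) : Finset (Fin n) → S) :=
      (Finset.univ_sum_single z).symm
    conv_lhs => rw [h1]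
    rw [map_sum]
    refine sum_congr rfl fun N _ => ?_
    by_cases hN : N ∈ Δ ∧ N.card = i
    · exact ha1 N hN.1 hN.2 _ (hz N).1.1
    · rw [(hz N).2 fun h' => hN ⟨h'.1, h'.2.2⟩]
      simp
  have hcl : ∀ F ∈ Δ, F.card = i + 1 → ∀ y ∈ KK U e F,
      h y (∑ u ∈ F, tau K u F • a (F.erase u)) = 0 := by
    intro F hF hFi y hy
    have h1 : (Pi.single F y : Finset (Fin n) → S) ∈ Ch Δ U e univ (i + 1) := by
      rw [← hFi]
      exact single_mem hF hy
    have h2 := hfB _ h1
    rw [hfz _ (bd_mem hd h1), adj_bd, sum_eq_single F] at h2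
    · rwa [Pi.single_eq_same] at h2
    · intro G _ hG
      rw [Pi.single_eq_of_ne hG, map_zero, LinearMap.zero_apply]
    · intro hG
      exact absurd (mem_univ F) hG
  -- the lift
  have hlift : ∀ g : ℕ, ∃ w : Finset (Fin n) → Finset (Fin n) → S, w ∈ Tot Δ U e i ∧
      (∀ N, w N ∅ = a N) ∧ (∀ N G, g < G.card → w N G = 0) ∧
      ∀ N G, G.card < g → DD K Δ w N G = 0 := by
    intro g
    induction g with
    | zero =>
      refine ⟨fun N G => if G = ∅ then a N else 0, ?_, ?_, ?_, ?_⟩
      · rw [mem_Tot]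
        intro N G
        by_cases hG : G = ∅
        · subst hG
          rw [if_pos rfl]
          refine ⟨by rw [KK_empty]; exact haU N, fun h' => ha0 N fun h'' => h' ?_⟩
          exact ⟨disjoint_empty_right N, by rw [union_empty]; exact h''.1, h''.2⟩
        · rw [if_neg hG]
          exact ⟨Submodule.zero_mem _, fun _ => rfl⟩
      · intro N
        exact if_pos rfl
      · intro N G hG
        exact if_neg (card_pos.1 hG).ne_empty
      · intro N G hG
        exact absurd hG (Nat.not_lt_zero _)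
    | succ g ih =>
      obtain ⟨w, hw, hwa, h4, h5⟩ := ih
      have hb : ∀ F ∈ Δ, F.card = i + 1 + g → ∃ b : Finset (Fin n) → S,
          (∀ N, N ⊆ F → N.card = i → b N ∈ KK U e (F \ N)) ∧
          ∀ N, N ⊆ F → N.card = i + 1 → - ∑ u ∈ N, tau K u N • w (N.erase u) (F \ N) =
            ∑ u ∈ N, tau K u N • b (N.erase u) := by
        intro F hF hFc
        rcases Nat.eq_zero_or_pos g with hg | hg
        · subst hg
          obtain ⟨b, hb, hb'⟩ := base H1 D haU hF hFc (hcl F hF hFc)
          refine ⟨b, hb, fun N hN hNi => ?_⟩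
          have hNF : N = F := eq_of_subset_of_card_le hN (by omega)
          rw [← hb' N hN hNi, hNF, Finset.sdiff_self]
          congr 1
          exact sum_congr rfl fun u _ => by rw [hwa]
        · have hwT := mem_Tot.1 hw
          refine H2 n K S Δ U e B h ε d D F hF i (by omega)
            (fun N => - ∑ u ∈ N, tau K u N • w (N.erase u) (F \ N)) ?_ ?_
          · intro N hN hNi
            refine Submodule.neg_mem _ (Submodule.sum_mem _ fun u _ => Submodule.smul_mem _ _ ?_)
            exact (hwT _ _).1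
          · intro N hN hNi
            exact closed hd h5 hF hN (by omega)
      obtain ⟨w', hw', hwa', h4', h5'⟩ := step hw h4 h5 hb
      exact ⟨w', hw', fun N => by rw [hwa', hwa], h4', h5'⟩
  obtain ⟨w, hw, hwa, -, h5⟩ := hlift (n + 1)
  have hDw : DD K Δ w = 0 := by
    funext N G
    refine h5 N G ?_
    have := card_le_univ G
    rw [Fintype.card_fin] at this
    omega
  obtain ⟨b, hb, hbw⟩ := hT w hw hDw
  apply hfx
  rw [hfz x hx]
  have hxC := mem_Ch.1 hx
  rcases i with _ | i
  · have hb0 : b = 0 := by simpa [TotP] using hb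
    refine sum_eq_zero fun N _ => ?_
    rw [← hwa, ← hbw, hb0, map_zero]
    simp
  · have hbT := mem_Tot.1 (show b ∈ Tot Δ U e i from hb)
    have h6 : ∀ N, h (x N) (a N) = h (x N) (∑ u ∈ N, tau K u N • b (N.erase u) ∅) := by
      intro N
      by_cases hN : N ∈ Δ
      · rw [← hwa, ← hbw, DD_apply,
          if_pos ⟨disjoint_empty_right N, by rw [union_empty]; exact hN⟩]
        rw [map_sum, map_sum]
        refine sum_congr rfl fun u hu => ?_
        rw [map_smul, map_smul, map_add]
        have h7 : h (x N) (b (N.erase u) (insert u ∅)) = 0 := by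
          refine iso D (hd N hN {u} (singleton_subset_iff.2 hu)) (u := u) ?_ ?_
          · exact KK_anti U e (singleton_subset_iff.2 hu) (hxC N).1
          · exact (hbT _ _).1
        rw [h7, add_zero]
      · rw [(hxC N).2 fun h' => hN h'.1, map_zero, LinearMap.zero_apply, LinearMap.zero_apply]
    rw [sum_congr rfl fun N _ => h6 N, ← adj_bd h x (fun N => b N ∅), hx0]
    refine sum_eq_zero fun N _ => ?_
    simp

end Pool.Agent.H14.CL
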