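import Pool.Agent.H14.CL.Stm

/-!
Project CL, row TO5: the row complex of a face is exact below the top.
-/

set_option autoImplicit false

namespace Pool.Agent.H14.CL

open Finset

section

variable {n : ℕ} {K S : Type} [Field K] [AddCommGroup S] [Module K S]

private theorem rx_tau {u x : Fin n} {N : Finset (Fin n)} (hu : u ∉ N) (hx : x ∈ N) :
    tau K x (insert u N) * tau K u (N.erase x) = -(tau K u N * tau K x N) := by
  have hux : u ≠ x := fun h => hu (h ▸ hx)
  have h1 := tau_swap K (u := u) (v := x) (N := N.erase x) hux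
    (fun h => hu (mem_of_mem_erase h)) (by simp)
  rw [insert_erase hx, tau_erase_self K x N] at h1
  have h2 : tau K x (insert u (N.erase x)) = tau K x (insert u N) := by
    rw [← erase_insert_of_ne hux, tau_erase_self]
  rw [h2] at h1
  rw [h1]
  ring

private theorem rx_sum {u : Fin n} {N : Finset (Fin n)} (hu : u ∉ N) (b b1 b2 : Finset (Fin n) → S)
    (hb1 : b N = b1 N)
    (hb2 : ∀ x ∈ N, b (insert u (N.erase x)) = tau K u (N.erase x) • b2 (N.erase x)) :
    ∑ x ∈ insert u N, tau K x (insert u N) • b ((insert u N).erase x) =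
      tau K u N • (b1 N - ∑ x ∈ N, tau K x N • b2 (N.erase x)) := by
  rw [sum_insert hu, erase_insert hu, tau_insert_self, smul_sub, smul_sum, hb1, sub_eq_add_neg,
    ← sum_neg_distrib]
  congr 1
  refine sum_congr rfl fun x hx => ?_
  have hux : u ≠ x := fun h => hu (h ▸ hx)
  rw [erase_insert_of_ne hux, hb2 x hx, smul_smul, rx_tau hu hx, smul_smul, neg_smul]

private theorem rx_iso {Δ : Finset (Finset (Fin n))} {U : Submodule K S} {e : Fin n → S →ₗ[K] S}
    {B : Fin n → Fin n → K} {h : S →ₗ[K] S →ₗ[K] K} {ε : Finset (Fin n) → K} {d : ℕ}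
    (hD : Dat Δ U e B h ε d) {x : Fin n} (hx : {x} ∈ Δ) {a t : S} (ha : a ∈ KK U e {x})
    (ht : t ∈ KK U e {x}) : h a t = 0 := by
  obtain ⟨y, hy, hya⟩ := hD.kos ∅ hD.sph.empty x (notMem_empty x) (by simpa using hx) a
    (by rw [KK_empty]; exact ha.1) (ha.2 x (mem_singleton_self x))
  rw [KK_empty] at hy
  rw [← hya, hD.adj x hx y hy t ht.1, ht.2 x (mem_singleton_self x), map_zero, mul_zero]

end

theorem st_rowEx (h1 : StSphLk) (h2 : StHu) (h3 : StDatLk) (h4 : StPerp) : StRowEx := by
  intro n K S _ _ _ _
  suffices H : ∀ (k : ℕ) (Δ : Finset (Finset (Fin n))) (U : Submodule K S)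
      (e : Fin n → S →ₗ[K] S) (B : Fin n → Fin n → K) (h : S →ₗ[K] S →ₗ[K] K)
      (ε : Finset (Fin n) → K) (d : ℕ), Dat Δ U e B h ε d → ∀ F ∈ Δ, F.card = k →
      ∀ i, i + 1 < F.card → ∀ c : Finset (Fin n) → S,
      (∀ N, N ⊆ F → N.card = i + 1 → c N ∈ KK U e (F \ N)) →
      (∀ N, N ⊆ F → N.card = i + 2 → ∑ u ∈ N, tau K u N • c (N.erase u) = 0) →
      ∃ b : Finset (Fin n) → S, (∀ N, N ⊆ F → N.card = i → b N ∈ KK U e (F \ N)) ∧
        ∀ N, N ⊆ F → N.card = i + 1 → c N = ∑ u ∈ N, tau K u N • b (N.erase u) by
    intro Δ U e B h ε d hD F hF i hi c hc hcc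
    exact H F.card Δ U e B h ε d hD F hF rfl i hi c hc hcc
  intro k
  induction k with
  | zero =>
    intro Δ U e B h ε d hD F hF hk i hi
    omega
  | succ k ih =>
    intro Δ U e B h ε d hD F hF hk i hi c hc hcc
    have hdn := hD.sph.dn
    obtain ⟨u, huF⟩ : F.Nonempty := card_pos.1 (by omega)
    have hu : {u} ∈ Δ := hdn F hF _ (singleton_subset_iff.2 huF)
    obtain ⟨d', rfl⟩ : ∃ d', d = d' + 1 := by
      have := hD.sph.card_le F hF
      exact ⟨d - 1, by omega⟩
    obtain ⟨h', hh'⟩ := h2 n K S Δ U e B h ε d' hD u hu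
    have hD' := h3 n K S Δ U e B h ε d' hD u hu h' hh'
    set F' := F.erase u with hF'
    have huF' : u ∉ F' := by simp [hF']
    have hins : insert u F' = F := insert_erase huF
    have hcF' : F'.card = k := by
      rw [hF', card_erase_of_mem huF, hk]
      rfl
    have hF'D : F' ∈ Δ := hdn F hF _ (erase_subset _ _)
    have hF'L : F' ∈ lk Δ u := by
      rw [mem_lk]
      exact ⟨hF'D, huF', by rw [hins]; exact hF⟩
    -- set identities
    have hsub : ∀ N, N ⊆ F' → N ⊆ F := fun N hN => hN.trans (erase_subset _ _)
    have hnotu : ∀ N, N ⊆ F' → u ∉ N := fun N hN h => huF' (hN h)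
    have hs1 : ∀ N, N ⊆ F' → F \ N = insert u (F' \ N) := by
      intro N hN
      rw [← hins, insert_sdiff_of_notMem _ (hnotu N hN)]
    have hs2 : ∀ N, N ⊆ F' → F \ insert u N = F' \ N := by
      intro N hN
      rw [← hins, insert_sdiff_insert, sdiff_insert_of_notMem huF']
    -- the part of `c` on sets with `u`
    set c2 : Finset (Fin n) → S := fun N => tau K u N • c (insert u N) with hc2
    have hc2m : ∀ N, N ⊆ F' → N.card = i → c2 N ∈ KK U e (F' \ N) := by
      intro N hN hNc
      have h5 := hc (insert u N) (insert_subset huF (hsub N hN))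
        (by rw [card_insert_of_notMem (hnotu N hN), hNc])
      rw [hs2 N hN] at h5
      exact (KK U e (F' \ N)).smul_mem _ h5
    have hc2i : ∀ N, c (insert u N) = tau K u N • c2 N := by
      intro N
      rw [hc2, smul_smul, tau_sq, one_smul]
    -- closedness on sets with `u`
    have hstar : ∀ N, N ⊆ F' → N.card = i + 1 →
        c N = ∑ x ∈ N, tau K x N • c2 (N.erase x) := by
      intro N hN hNc
      have h5 := hcc (insert u N) (insert_subset huF (hsub N hN))
        (by rw [card_insert_of_notMem (hnotu N hN), hNc])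
      rw [rx_sum (hnotu N hN) c c c2 rfl (fun x _ => hc2i _)] at h5
      have h6 : tau K u N • (tau K u N • (c N - ∑ x ∈ N, tau K x N • c2 (N.erase x))) = 0 := by
        rw [h5, smul_zero]
      rw [smul_smul, tau_sq, one_smul, sub_eq_zero] at h6
      exact h6
    -- the first part of `b`
    obtain ⟨b1, hb1m, hb1⟩ : ∃ b1 : Finset (Fin n) → S,
        (∀ N, N ⊆ F' → N.card = i → b1 N ∈ KK U e (insert u (F' \ N))) ∧
        ∀ N, N ⊆ F' → N.card = i + 1 → c N = ∑ x ∈ N, tau K x N • b1 (N.erase x) := by
      rcases Nat.lt_or_ge (i + 1) F'.card with hlt | hge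
      · obtain ⟨b, hb, hb'⟩ := ih (lk Δ u) (KK U e {u}) e B h' (eps ε u) d' hD' F' hF'L hcF' i
          hlt c (by
            intro N hN hNc
            have h5 := hc N (hsub N hN) hNc
            rw [hs1 N hN] at h5
            rw [KK_single_KK]
            exact h5)
          (fun N hN hNc => hcc N (hsub N hN) hNc)
        refine ⟨b, ?_, hb'⟩
        intro N hN hNc
        have h5 := hb N hN hNc
        rw [KK_single_KK] at h5
        exact h5
      · have hik : F'.card = i + 1 := by omega
        have hcu : c F' ∈ KK U e {u} := by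
          have h5 := hc F' (erase_subset _ _) hik
          rw [hs1 F' (Subset.refl _), sdiff_self] at h5
          exact h5
        obtain ⟨cc, hcc1, hcc2⟩ := h4 n K S (lk Δ u) (KK U e {u}) e B h' (eps ε u) d' hD' F'
          hF'L (c F') hcu (by
            intro y hy
            rw [KK_single_KK, hins] at hy
            have hy' : y ∈ KK U e F' := KK_anti U e (erase_subset _ _) hy
            obtain ⟨t, ht, hty⟩ := hD.kos F' hF'D u huF' (by rw [hins]; exact hF) y hy'
              (hy.2 u huF)
            have hyu : y ∈ KK U e {u} := KK_anti U e (singleton_subset_iff.2 huF) hy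
            rw [hD'.sym y hyu (c F') hcu, ← hty, hh' (c F') hcu t ht.1]
            have h6 : h (c F') t = 0 := by
              rw [hstar F' (Subset.refl _) hik, map_sum, LinearMap.sum_apply]
              refine sum_eq_zero fun x hx => ?_
              rw [map_smul, LinearMap.smul_apply]
              have hxΔ : {x} ∈ Δ := hdn F' hF'D _ (singleton_subset_iff.2 hx)
              have h7 := hc2m (F'.erase x) (erase_subset _ _) (by
                rw [card_erase_of_mem hx, hik]
                rfl)
              rw [sdiff_erase_self hx] at h7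
              have h8 : t ∈ KK U e {x} := KK_anti U e (singleton_subset_iff.2 hx) ht
              rw [rx_iso hD hxΔ h7 h8, smul_zero]
            rw [h6, mul_zero])
        refine ⟨fun N => ∑ x ∈ F' \ N, tau K x F' • cc x, ?_, ?_⟩
        · intro N hN hNc
          obtain ⟨x, hx, hxN⟩ : ∃ x ∈ F', N = F'.erase x := by
            have h5 : (F' \ N).card = 1 := by
              rw [card_sdiff_of_subset hN, hik, hNc]
              omega
            obtain ⟨x, hx⟩ := card_eq_one.1 h5
            have hx2 : x ∈ F' \ N := by rw [hx]; exact mem_singleton_self x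
            refine ⟨x, (mem_sdiff.1 hx2).1, ?_⟩
            rw [← sdiff_singleton_eq_erase, ← hx, Finset.sdiff_sdiff_eq_self hN]
          subst hxN
          beta_reduce
          rw [sdiff_erase_self hx, sum_singleton]
          have h5 := hcc1 x hx
          rw [KK_single_KK] at h5
          exact (KK U e (insert u {x})).smul_mem _ h5
        · intro N hN hNc
          have hNF : N = F' := eq_of_subset_of_card_le hN (by omega)
          rw [hNF, hcc2]
          refine sum_congr rfl fun x hx => ?_
          beta_reduce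
          rw [sdiff_erase_self hx, sum_singleton, smul_smul, tau_sq, one_smul]
    -- the second part of `b`
    obtain ⟨b2, hb2m, hb2⟩ : ∃ b2 : Finset (Fin n) → S,
        (∀ N, N ⊆ F' → N.card + 1 = i → b2 N ∈ KK U e (F' \ N)) ∧
        ∀ N, N ⊆ F' → N.card = i → b1 N - c2 N = ∑ x ∈ N, tau K x N • b2 (N.erase x) := by
      have hcl : ∀ N, N ⊆ F' → N.card = i + 1 →
          ∑ x ∈ N, tau K x N • (b1 (N.erase x) - c2 (N.erase x)) = 0 := by
        intro N hN hNc
        simp only [smul_sub, sum_sub_distrib]
        rw [← hb1 N hN hNc, ← hstar N hN hNc, sub_self]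
      rcases Nat.eq_zero_or_pos i with h0 | hpos
      · subst h0
        refine ⟨fun _ => 0, fun N _ h5 => absurd h5 (by omega), ?_⟩
        intro N hN hNc
        rw [card_eq_zero] at hNc
        subst hNc
        obtain ⟨x, hx⟩ : F'.Nonempty := card_pos.1 (by omega)
        have h5 := hcl {x} (singleton_subset_iff.2 hx) (card_singleton x)
        rw [sum_singleton] at h5
        have h6 : ({x} : Finset (Fin n)).erase x = ∅ := by simp
        rw [h6] at h5
        have h7 : tau K x {x} • (tau K x {x} • (b1 ∅ - c2 ∅)) = 0 := by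
          rw [h5, smul_zero]
        rw [smul_smul, tau_sq, one_smul] at h7
        rw [h7, sum_empty]
      · obtain ⟨i', rfl⟩ : ∃ i', i = i' + 1 := ⟨i - 1, by omega⟩
        obtain ⟨b, hb, hb'⟩ := ih Δ U e B h ε (d' + 1) hD F' hF'D hcF' i' (by omega)
          (fun N => b1 N - c2 N) (by
            intro N hN hNc
            exact (KK U e (F' \ N)).sub_mem
              (KK_anti U e (subset_insert _ _) (hb1m N hN hNc)) (hc2m N hN hNc))
          (fun N hN hNc => hcl N hN hNc)
        exact ⟨b, fun N hN hNc => hb N hN (by omega), hb'⟩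
    -- assembly
    refine ⟨fun M => if u ∈ M then tau K u (M.erase u) • b2 (M.erase u) else b1 M, ?_, ?_⟩
    · intro M hM hMc
      by_cases huM : u ∈ M
      · simp only [if_pos huM]
        have hM' : M.erase u ⊆ F' := erase_subset_erase u hM
        have h5 : (M.erase u).card + 1 = i := by
          rw [card_erase_add_one huM, hMc]
        have h6 := hb2m (M.erase u) hM' h5
        rw [← hs2 _ hM', insert_erase huM] at h6
        exact (KK U e (F \ M)).smul_mem _ h6
      · simp only [if_neg huM]
        have hM' : M ⊆ F' := fun x hx => mem_erase.2 ⟨fun h => huM (h ▸ hx), hM hx⟩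
        rw [hs1 M hM']
        exact hb1m M hM' hMc
    · intro M hM hMc
      by_cases huM : u ∈ M
      · obtain ⟨N, hN, rfl⟩ : ∃ N, u ∉ N ∧ M = insert u N :=
          ⟨M.erase u, by simp, (insert_erase huM).symm⟩
        have hN' : N ⊆ F' := fun x hx =>
          mem_erase.2 ⟨fun h => hN (h ▸ hx), hM (mem_insert_of_mem hx)⟩
        have hNc : N.card = i := by
          rw [card_insert_of_notMem hN] at hMc
          omega
        have h6 := rx_sum (K := K) hN
          (fun M => if u ∈ M then tau K u (M.erase u) • b2 (M.erase u) else b1 M) b1 b2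
          (if_neg hN) (by
          intro x _
          have h5 : u ∉ N.erase x := fun h => hN (mem_of_mem_erase h)
          simp only [if_pos (mem_insert_self u (N.erase x)), erase_insert h5])
        refine Eq.trans ?_ h6.symm
        rw [← hb2 N hN' hNc, sub_sub_cancel]
        exact hc2i N
      · have hM' : M ⊆ F' := fun x hx => mem_erase.2 ⟨fun h => huM (h ▸ hx), hM hx⟩
        rw [hb1 M hM' hMc]
        refine sum_congr rfl fun x hx => ?_
        have h5 : u ∉ M.erase x := fun h => huM (mem_of_mem_erase h)
        simp only [if_neg h5]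

end Pool.Agent.H14.CL
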