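import Pool.Agent.H14.CL.Stm

/-!
Project CL: matrices with at most `d` negative eigenvalues.
-/

set_option autoImplicit false

namespace Pool.Agent.H14.CL

open Finset

private theorem sp_key {n : ℕ} (W : Matrix (Fin n) (Fin n) ℝ) (hW : W.IsHermitian) :
    ∃ U : Fin n → Fin n → ℝ, ∀ v w, W v w = ∑ i, hW.eigenvalues i * (U v i * U w i) := by
  refine ⟨fun v i => (hW.eigenvectorUnitary : Matrix (Fin n) (Fin n) ℝ) v i, fun v w => ?_⟩
  have h := hW.spectral_theorem
  rw [Unitary.conjStarAlgAut_apply] at h
  have h1 := congrFun (congrFun h v) w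
  rw [Matrix.mul_apply] at h1
  rw [h1]
  refine Finset.sum_congr rfl fun i _ => ?_
  rw [Matrix.mul_diagonal, Matrix.star_apply]
  simp only [Function.comp_apply, RCLike.ofReal_real_eq_id, id_eq, star_trivial]
  ring

/-- row SP1 -/
theorem st_spec : StSpec := by
  classical
  intro n d W hW hcard
  obtain ⟨U, hU⟩ := sp_key W hW
  set l : Fin n → ℝ := hW.eigenvalues with hl
  have hc : Fintype.card {i // l i < 0} ≤ Fintype.card (Fin d) := by
    rw [Fintype.card_fin, Fintype.card_subtype]
    exact hcard
  obtain ⟨f⟩ := Function.Embedding.nonempty_of_card_le hc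
  refine ⟨fun v => Function.extend f (fun i => Real.sqrt (-l i.1) * U v i.1) 0,
    fun v i => if l i < 0 then 0 else Real.sqrt (l i) * U v i, fun v w => ?_⟩
  have h1 : (Function.extend f (fun i => Real.sqrt (-l i.1) * U v i.1) (0 : Fin d → ℝ)) ⬝ᵥ
      (Function.extend f (fun i => Real.sqrt (-l i.1) * U w i.1) (0 : Fin d → ℝ)) =
      ∑ i, if l i < 0 then -(l i * (U v i * U w i)) else 0 := by
    have h2 : ∑ i : {i // l i < 0}, -(l i.1 * (U v i.1 * U w i.1)) =
        ∑ i, if l i < 0 then -(l i * (U v i * U w i)) else 0 := by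
      rw [← Finset.sum_filter]
      exact (Finset.sum_subtype (univ.filter fun i => l i < 0) (p := fun i => l i < 0)
        (fun x => by rw [mem_filter]; exact ⟨fun h => h.2, fun h => ⟨mem_univ _, h⟩⟩)
        (fun i => -(l i * (U v i * U w i)))).symm
    rw [← h2]
    symm
    refine Fintype.sum_of_injective f f.injective _ _ ?_ ?_
    · intro k hk
      rw [Function.extend_apply' _ _ _ (fun ⟨a, ha⟩ => hk ⟨a, ha⟩)]
      exact zero_mul _
    · intro i
      rw [f.injective.extend_apply, f.injective.extend_apply]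
      have h3 : Real.sqrt (-l i.1) * Real.sqrt (-l i.1) = -l i.1 :=
        Real.mul_self_sqrt (by linarith [i.2])
      calc -(l i.1 * (U v i.1 * U w i.1)) = (-l i.1) * (U v i.1 * U w i.1) := by ring
        _ = (Real.sqrt (-l i.1) * Real.sqrt (-l i.1)) * (U v i.1 * U w i.1) := by rw [h3]
        _ = _ := by ring
  have h4 : (fun i => if l i < 0 then 0 else Real.sqrt (l i) * U v i) ⬝ᵥ
      (fun i => if l i < 0 then 0 else Real.sqrt (l i) * U w i) =
      ∑ i, if l i < 0 then 0 else l i * (U v i * U w i) := by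
    refine Finset.sum_congr rfl fun i _ => ?_
    by_cases hi : l i < 0
    · simp only [if_pos hi, mul_zero]
    · simp only [if_neg hi]
      have h3 : Real.sqrt (l i) * Real.sqrt (l i) = l i := Real.mul_self_sqrt (not_lt.1 hi)
      calc Real.sqrt (l i) * U v i * (Real.sqrt (l i) * U w i)
          = (Real.sqrt (l i) * Real.sqrt (l i)) * (U v i * U w i) := by ring
        _ = _ := by rw [h3]
  rw [h1, h4, hU v w, ← Finset.sum_sub_distrib, ← Finset.sum_neg_distrib]
  refine Finset.sum_congr rfl fun i _ => ?_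
  by_cases hi : l i < 0
  · rw [if_pos hi, if_pos hi, sub_zero]
  · rw [if_neg hi, if_neg hi, zero_sub]

end Pool.Agent.H14.CL
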