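import Pool.Agent.H14.CL.Stm

/-!
Project CL, row LK1: the link of a vertex of a flag sphere is a flag sphere.
-/

set_option autoImplicit false

namespace Pool.Agent.H14.CL

open Finset

section sphlk

variable {n : ℕ} {K : Type} [Field K]

theorem sphlk_tau_ne (u : Fin n) (N : Finset (Fin n)) : tau K u N ≠ 0 := by
  intro h
  have h1 := tau_sq K u N
  rw [h, mul_zero] at h1
  exact zero_ne_one h1

theorem sphlk_eps_of_mem (ε : Finset (Fin n) → K) {u : Fin n} {Φ : Finset (Fin n)} (h : u ∈ Φ) :
    eps ε u Φ = 0 := if_pos h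

theorem sphlk_eps_of_notMem (ε : Finset (Fin n) → K) {u : Fin n} {Φ : Finset (Fin n)}
    (h : u ∉ Φ) : eps ε u Φ = tau K u Φ * ε (insert u Φ) := if_neg h

end sphlk

theorem st_sphLk : StSphLk := by
  intro n K _ Δ ε d H u hu
  have hd : Down Δ := H.dn
  constructor
  case down => exact down_lk hd u
  case empty =>
    rw [mem_lk' hd]
    exact ⟨notMem_empty u, by simpa using hu⟩
  case flag =>
    intro F hF
    rw [mem_lk' hd]
    refine ⟨?_, ?_⟩
    · intro h
      have h1 := hF u h u h
      rw [mem_lk' hd] at h1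
      exact h1.1 (mem_insert_self u _)
    · apply H.flag
      intro a ha b hb
      rw [mem_insert] at ha hb
      rcases ha with rfl | ha
      · rcases hb with rfl | hb
        · simpa using hu
        · have h1 := hF b hb b hb
          rw [mem_lk' hd] at h1
          simpa using h1.2
      · rcases hb with rfl | hb
        · have h1 := hF a ha a ha
          rw [mem_lk' hd] at h1
          rw [Finset.pair_comm]
          simpa using h1.2
        · exact lk_sub (hF a ha b hb)
  case card_le =>
    intro F hF
    rw [mem_lk' hd] at hF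
    have h1 := H.card_le _ hF.2
    rw [card_insert_of_notMem hF.1] at h1
    omega
  case pure =>
    intro F hF
    rw [mem_lk' hd] at hF
    obtain ⟨Φ, hΦ, hs, hc⟩ := H.pure _ hF.2
    have huΦ : u ∈ Φ := hs (mem_insert_self u F)
    refine ⟨Φ.erase u, ?_, ?_, ?_⟩
    · rw [mem_lk' hd]
      exact ⟨by simp, by rw [insert_erase huΦ]; exact hΦ⟩
    · intro x hx
      rw [mem_erase]
      exact ⟨fun h => hF.1 (h ▸ hx), hs (mem_insert_of_mem hx)⟩
    · rw [card_erase_of_mem huΦ, hc]
      rfl
  case nz =>
    intro Φ hΦ hc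
    rw [mem_lk' hd] at hΦ
    rw [sphlk_eps_of_notMem ε hΦ.1]
    exact mul_ne_zero (sphlk_tau_ne u Φ)
      (H.nz _ hΦ.2 (by rw [card_insert_of_notMem hΦ.1, hc]))
  case off =>
    intro Φ hΦ
    by_cases h : u ∈ Φ
    · exact sphlk_eps_of_mem ε h
    · rw [sphlk_eps_of_notMem ε h, H.off (insert u Φ), mul_zero]
      rintro ⟨h1, h2⟩
      rw [card_insert_of_notMem h] at h2
      exact hΦ ⟨(mem_lk' hd).2 ⟨h, h1⟩, by omega⟩
  case cyc =>
    intro Γ
    by_cases h : u ∈ Γ
    · apply sum_eq_zero
      intro x _
      rw [sphlk_eps_of_mem ε (mem_insert_of_mem h), mul_zero]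
    · have h1 : ∑ x ∈ univ.filter (fun x => x ∉ insert u Γ),
          tau K x Γ * eps ε u (insert x Γ) =
          ∑ x ∈ univ.filter (fun x => x ∉ Γ), tau K x Γ * eps ε u (insert x Γ) := by
        apply sum_subset
        · intro x hx
          rw [mem_filter] at hx ⊢
          exact ⟨hx.1, fun hh => hx.2 (mem_insert_of_mem hh)⟩
        · intro x hx hx'
          rw [mem_filter] at hx hx'
          have hxu : x = u := by
            by_contra hne
            exact hx' ⟨hx.1, fun hh => by
              rw [mem_insert] at hh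
              exact hh.elim hne hx.2⟩
          rw [hxu, sphlk_eps_of_mem ε (mem_insert_self u Γ), mul_zero]
      rw [← h1]
      have h2 : ∑ x ∈ univ.filter (fun x => x ∉ insert u Γ),
          tau K x Γ * eps ε u (insert x Γ) =
          ∑ x ∈ univ.filter (fun x => x ∉ insert u Γ),
            (- tau K u Γ) * (tau K x (insert u Γ) * ε (insert x (insert u Γ))) := by
        apply sum_congr rfl
        intro x hx
        rw [mem_filter, mem_insert, not_or] at hx
        have hne : u ≠ x := fun hh => hx.2.1 hh.symm
        rw [sphlk_eps_of_notMem ε (by rw [mem_insert, not_or]; exact ⟨hne, h⟩),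
          Finset.insert_comm u x Γ]
        have h3 := tau_swap K hne h hx.2.2
        linear_combination ε (insert x (insert u Γ)) * h3
      rw [h2, ← mul_sum, H.cyc, mul_zero]
  case low =>
    intro G hG j hj φ hφ
    rw [mem_lk' hd] at hG
    rw [lkF_lk hd hG.1] at hφ ⊢
    exact H.low (insert u G) hG.2 j (by rw [card_insert_of_notMem hG.1]; omega) φ hφ
  case top =>
    intro G hG j hj φ hφ
    rw [mem_lk' hd] at hG
    rw [lkF_lk hd hG.1] at hφ ⊢
    refine H.top (insert u G) hG.2 j (by rw [card_insert_of_notMem hG.1]; omega) φ ?_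
    have h2 : ∑ N ∈ (lkF Δ (insert u G)).filter (fun N => N.card = j),
        sh K N (insert u G) * ε (N ∪ insert u G) * φ N =
        ∑ N ∈ (lkF Δ (insert u G)).filter (fun N => N.card = j),
          ((-1) ^ j * tau K u G) * (sh K N G * eps ε u (N ∪ G) * φ N) := by
      apply sum_congr rfl
      intro N hN
      rw [mem_filter, mem_lkF' hd, disjoint_insert_right] at hN
      obtain ⟨⟨⟨huN, hNG⟩, -⟩, hc⟩ := hN
      rw [sh_insert_right K hG.1 huN, hc, union_insert,
        sphlk_eps_of_notMem ε (by rw [mem_union, not_or]; exact ⟨huN, hG.1⟩),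
        tau_union K u hNG]
      have h3 := tau_sq K u G
      linear_combination (-((-1) ^ j * tau K u N * sh K N G * ε (insert u (N ∪ G)) * φ N)) * h3
    rw [h2, ← mul_sum, hφ, mul_zero]
  case euler =>
    intro G hG
    rw [mem_lk' hd] at hG
    rw [lkF_lk hd hG.1, H.euler (insert u G) hG.2, card_insert_of_notMem hG.1]
    congr 1
    omega

end Pool.Agent.H14.CL
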