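import Pool.Agent.H14.CL.Stm

/-!
Project CL, row PP1: the Stokes formula for the pairing on the double complex.
-/

set_option autoImplicit false

namespace Pool.Agent.H14.CL

open Finset

section reindex

variable {n : ℕ} {K : Type} [AddCommMonoid K]

theorem sto_reindex_left (F : Finset (Fin n) → Finset (Fin n) → Fin n → K) :
    ∑ Φ : Finset (Fin n), ∑ N ∈ Φ.powerset, ∑ u ∈ N, F Φ N u =
      ∑ Γ : Finset (Fin n), ∑ u ∈ univ.filter (fun u => u ∉ Γ), ∑ N ∈ Γ.powerset,
        F (insert u Γ) (insert u N) u := by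
  simp_rw [Finset.sum_sigma']
  refine Finset.sum_bij' (fun x _ => ⟨x.1.erase x.2.2, x.2.2, x.2.1.erase x.2.2⟩)
    (fun y _ => ⟨insert y.2.1 y.1, insert y.2.1 y.2.2, y.2.1⟩) ?_ ?_ ?_ ?_ ?_
  · rintro ⟨Φ, N, u⟩ h
    simp only [mem_sigma, mem_univ, mem_powerset, true_and, mem_filter] at h ⊢
    exact ⟨notMem_erase u Φ, erase_subset_erase u h.1⟩
  · rintro ⟨Γ, u, N⟩ h
    simp only [mem_sigma, mem_univ, mem_powerset, true_and, mem_filter] at h ⊢
    exact ⟨insert_subset_insert u h.2, mem_insert_self u N⟩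
  · rintro ⟨Φ, N, u⟩ h
    simp only [mem_sigma, mem_univ, mem_powerset, true_and] at h
    have h1 : u ∈ Φ := h.1 h.2
    simp only [insert_erase h1, insert_erase h.2]
  · rintro ⟨Γ, u, N⟩ h
    simp only [mem_sigma, mem_univ, mem_powerset, true_and, mem_filter] at h
    have h1 : u ∉ N := fun h2 => h.1 (h.2 h2)
    simp only [erase_insert h.1, erase_insert h1]
  · rintro ⟨Φ, N, u⟩ h
    simp only [mem_sigma, mem_univ, mem_powerset, true_and] at h
    have h1 : u ∈ Φ := h.1 h.2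
    simp only [insert_erase h1, insert_erase h.2]

theorem sto_reindex_right (F : Finset (Fin n) → Finset (Fin n) → Fin n → K) :
    ∑ Φ : Finset (Fin n), ∑ N ∈ Φ.powerset, ∑ u ∈ Φ \ N, F Φ N u =
      ∑ Γ : Finset (Fin n), ∑ u ∈ univ.filter (fun u => u ∉ Γ), ∑ N ∈ Γ.powerset,
        F (insert u Γ) N u := by
  simp_rw [Finset.sum_sigma']
  refine Finset.sum_bij' (fun x _ => ⟨x.1.erase x.2.2, x.2.2, x.2.1⟩)
    (fun y _ => ⟨insert y.2.1 y.1, y.2.2, y.2.1⟩) ?_ ?_ ?_ ?_ ?_
  · rintro ⟨Φ, N, u⟩ h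
    simp only [mem_sigma, mem_univ, mem_powerset, true_and, mem_filter, mem_sdiff] at h ⊢
    exact ⟨notMem_erase u Φ, fun x hx => mem_erase.2 ⟨fun h2 => h.2.2 (h2 ▸ hx), h.1 hx⟩⟩
  · rintro ⟨Γ, u, N⟩ h
    simp only [mem_sigma, mem_univ, mem_powerset, true_and, mem_filter, mem_sdiff] at h ⊢
    exact ⟨h.2.trans (subset_insert u Γ), mem_insert_self u Γ, fun h2 => h.1 (h.2 h2)⟩
  · rintro ⟨Φ, N, u⟩ h
    simp only [mem_sigma, mem_univ, mem_powerset, true_and, mem_sdiff] at h
    simp only [insert_erase h.2.1]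
  · rintro ⟨Γ, u, N⟩ h
    simp only [mem_sigma, mem_univ, mem_powerset, true_and, mem_filter] at h
    simp only [erase_insert h.1]
  · rintro ⟨Φ, N, u⟩ h
    simp only [mem_sigma, mem_univ, mem_powerset, true_and, mem_sdiff] at h
    simp only [insert_erase h.2.1]

end reindex

section

variable {n : ℕ} {K S : Type} [Field K] [AddCommGroup S] [Module K S]

/-- `hat` of the differential -/
theorem sto_hat_DD {Δ : Finset (Finset (Fin n))} (hd : Down Δ)
    (w : Finset (Fin n) → Finset (Fin n) → S) {Φ N : Finset (Fin n)} (hΦ : Φ ∈ Δ)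
    (hN : N ⊆ Φ) :
    hat K N (Φ \ N) (DD K Δ w) = ∑ u ∈ N, tau K u N •
      (hat K (N.erase u) (Φ \ N) w + hat K (N.erase u) (Φ \ N) (sg K u w)) := by
  have h1 : ∀ G ∈ (Φ \ N).powerset, DD K Δ w N G =
      ∑ u ∈ N, tau K u N • (w (N.erase u) G + sg K u w (N.erase u) G) := by
    intro G hG
    rw [mem_powerset] at hG
    have hdis : Disjoint N G := by
      rw [disjoint_left]
      intro x hx hx'
      exact (mem_sdiff.1 (hG hx')).2 hx
    have hmem : N ∪ G ∈ Δ :=
      hd Φ hΦ _ (union_subset hN (hG.trans sdiff_subset))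
    rw [DD_apply, if_pos ⟨hdis, hmem⟩]
    refine sum_congr rfl fun u hu => ?_
    have hu' : u ∉ G := fun h2 => (disjoint_left.1 hdis) hu h2
    rw [sg_apply, if_neg hu']
  rw [hat_apply]
  calc ∑ G ∈ (Φ \ N).powerset, ((-1 : K) ^ G.card) • DD K Δ w N G
      = ∑ G ∈ (Φ \ N).powerset, ∑ u ∈ N, ((-1 : K) ^ G.card) •
          (tau K u N • (w (N.erase u) G + sg K u w (N.erase u) G)) := by
        refine sum_congr rfl fun G hG => ?_
        rw [h1 G hG, smul_sum]
    _ = ∑ u ∈ N, ∑ G ∈ (Φ \ N).powerset, ((-1 : K) ^ G.card) •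
          (tau K u N • (w (N.erase u) G + sg K u w (N.erase u) G)) := sum_comm
    _ = ∑ u ∈ N, tau K u N •
      (hat K (N.erase u) (Φ \ N) w + hat K (N.erase u) (Φ \ N) (sg K u w)) := by
        refine sum_congr rfl fun u _ => ?_
        rw [hat_apply, hat_apply, ← sum_add_distrib, smul_sum]
        refine sum_congr rfl fun G _ => ?_
        rw [smul_comm, smul_add ((-1 : K) ^ G.card)]

/-- `hat` with one more vertex -/
theorem sto_hat_insert (w : Finset (Fin n) → Finset (Fin n) → S) {N M : Finset (Fin n)}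
    {u : Fin n} (hu : u ∉ M) :
    hat K N (insert u M) w = hat K N M w - hat K N M (sg K u w) := by
  rw [hat_apply, hat_apply, hat_apply, sum_powerset_insert hu, sub_eq_add_neg, ← sum_neg_distrib]
  congr 1
  refine sum_congr rfl fun G hG => ?_
  have hG' : u ∉ G := fun h => hu (mem_powerset.1 hG h)
  rw [sg_apply, if_neg hG', card_insert_of_notMem hG', pow_succ, mul_neg, mul_one, neg_smul]

theorem sto_hat_zero {w : Finset (Fin n) → Finset (Fin n) → S} {N : Finset (Fin n)}
    (M : Finset (Fin n)) (h : ∀ G, w N G = 0) : hat K N M w = 0 := by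
  rw [hat_apply]
  refine sum_eq_zero fun G _ => ?_
  rw [h G, smul_zero]

end

theorem st_stokes : StStokes := by
  intro n K S _ _ _ Δ ε d hS h i w w' hw
  have hd : Down Δ := hS.dn
  have hoff : ∀ Φ, Φ ∉ Δ → ε Φ = 0 := fun Φ hΦ => hS.off Φ (fun h2 => hΦ h2.1)
  have hsg : ∀ u N G, N.card ≠ i → sg K u w N G = 0 := by
    intro u N G hN
    rw [sg_apply]
    split_ifs
    · rfl
    · exact hw _ _ hN
  -- the first pairing
  have hA : PP ε h (DD K Δ w) w' =
      ∑ Γ : Finset (Fin n), ∑ u ∈ univ.filter (fun u => u ∉ Γ), ∑ N ∈ Γ.powerset,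
        tau K u Γ * ε (insert u Γ) * (sh K N (Γ \ N) *
          h (hat K N (Γ \ N) w + hat K N (Γ \ N) (sg K u w))
            (hat K (Γ \ N) N w' - hat K (Γ \ N) N (sg K u w'))) := by
    have h1 : PP ε h (DD K Δ w) w' = ∑ Φ : Finset (Fin n), ∑ N ∈ Φ.powerset, ∑ u ∈ N,
        ε Φ * (sh K N (Φ \ N) * (tau K u N *
          h (hat K (N.erase u) (Φ \ N) w + hat K (N.erase u) (Φ \ N) (sg K u w))
            (hat K (Φ \ N) N w'))) := by
      rw [PP_apply]
      refine sum_congr rfl fun Φ _ => ?_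
      by_cases hΦ : Φ ∈ Δ
      · rw [mul_sum]
        refine sum_congr rfl fun N hN => ?_
        rw [mem_powerset] at hN
        rw [sto_hat_DD hd w hΦ hN, map_sum, LinearMap.sum_apply, mul_sum, mul_sum]
        refine sum_congr rfl fun u _ => ?_
        rw [map_smul, LinearMap.smul_apply, smul_eq_mul]
      · rw [hoff Φ hΦ, zero_mul]
        symm
        refine sum_eq_zero fun N _ => sum_eq_zero fun u _ => ?_
        rw [zero_mul]
    rw [h1, sto_reindex_left]
    refine sum_congr rfl fun Γ _ => sum_congr rfl fun u hu => sum_congr rfl fun N hN => ?_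
    rw [mem_filter] at hu
    rw [mem_powerset] at hN
    have hu1 : u ∉ N := fun h2 => hu.2 (hN h2)
    have hsd : insert u Γ \ insert u N = Γ \ N := by
      ext x
      simp only [mem_sdiff, mem_insert, not_or]
      constructor
      · rintro ⟨h2 | h2, h3, h4⟩
        · exact absurd h2 h3
        · exact ⟨h2, h4⟩
      · rintro ⟨h2, h3⟩
        exact ⟨Or.inr h2, fun h4 => hu.2 (h4 ▸ h2), h3⟩
    have htau : tau K u Γ = tau K u N * tau K u (Γ \ N) := by
      rw [← tau_union K u disjoint_sdiff, union_sdiff_of_subset hN]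
    rw [hsd, erase_insert hu1, sto_hat_insert w' hu1, sh_insert_left K _ hu1,
      tau_insert_self, htau]
    ring
  -- the second pairing
  have hB : PP ε h w (DD K Δ w') =
      ∑ Γ : Finset (Fin n), ∑ u ∈ univ.filter (fun u => u ∉ Γ), ∑ N ∈ Γ.powerset,
        (-1 : K) ^ N.card * (tau K u Γ * ε (insert u Γ) * (sh K N (Γ \ N) *
          h (hat K N (Γ \ N) w - hat K N (Γ \ N) (sg K u w))
            (hat K (Γ \ N) N w' + hat K (Γ \ N) N (sg K u w')))) := by
    have h1 : PP ε h w (DD K Δ w') = ∑ Φ : Finset (Fin n), ∑ N ∈ Φ.powerset, ∑ u ∈ Φ \ N,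
        ε Φ * (sh K N (Φ \ N) * (tau K u (Φ \ N) * h (hat K N (Φ \ N) w)
          (hat K ((Φ \ N).erase u) N w' + hat K ((Φ \ N).erase u) N (sg K u w')))) := by
      rw [PP_apply]
      refine sum_congr rfl fun Φ _ => ?_
      by_cases hΦ : Φ ∈ Δ
      · rw [mul_sum]
        refine sum_congr rfl fun N hN => ?_
        rw [mem_powerset] at hN
        have h2 := sto_hat_DD (K := K) hd w' hΦ (sdiff_subset : Φ \ N ⊆ Φ)
        rw [Finset.sdiff_sdiff_eq_self hN] at h2
        rw [h2, map_sum, mul_sum, mul_sum]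
        refine sum_congr rfl fun u _ => ?_
        rw [map_smul, smul_eq_mul]
      · rw [hoff Φ hΦ, zero_mul]
        symm
        refine sum_eq_zero fun N _ => sum_eq_zero fun u _ => ?_
        rw [zero_mul]
    rw [h1, sto_reindex_right]
    refine sum_congr rfl fun Γ _ => sum_congr rfl fun u hu => sum_congr rfl fun N hN => ?_
    rw [mem_filter] at hu
    rw [mem_powerset] at hN
    have hu1 : u ∉ N := fun h2 => hu.2 (hN h2)
    have hu2 : u ∉ Γ \ N := fun h2 => hu.2 (mem_sdiff.1 h2).1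
    have hsd : insert u Γ \ N = insert u (Γ \ N) := by
      ext x
      simp only [mem_sdiff, mem_insert]
      constructor
      · rintro ⟨h2 | h2, h3⟩
        · exact Or.inl h2
        · exact Or.inr ⟨h2, h3⟩
      · rintro (h2 | ⟨h2, h3⟩)
        · exact ⟨Or.inl h2, fun h4 => hu1 (h2 ▸ h4)⟩
        · exact ⟨Or.inr h2, h3⟩
    have htau : tau K u Γ = tau K u N * tau K u (Γ \ N) := by
      rw [← tau_union K u disjoint_sdiff, union_sdiff_of_subset hN]
    rw [hsd, erase_insert hu2, sto_hat_insert w hu2, sh_insert_right K hu2 hu1,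
      tau_insert_self, htau]
    ring
  -- the sum
  have hsum : PP ε h (DD K Δ w) w' + (-1 : K) ^ i * PP ε h w (DD K Δ w') =
      ∑ Γ : Finset (Fin n), ∑ u ∈ univ.filter (fun u => u ∉ Γ), ∑ N ∈ Γ.powerset,
        tau K u Γ * ε (insert u Γ) * (sh K N (Γ \ N) *
          (2 * h (hat K N (Γ \ N) w) (hat K (Γ \ N) N w') -
            2 * h (hat K N (Γ \ N) (sg K u w)) (hat K (Γ \ N) N (sg K u w')))) := by
    rw [hA, hB, mul_sum, ← sum_add_distrib]
    refine sum_congr rfl fun Γ _ => ?_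
    rw [mul_sum, ← sum_add_distrib]
    refine sum_congr rfl fun u _ => ?_
    rw [mul_sum, ← sum_add_distrib]
    refine sum_congr rfl fun N _ => ?_
    by_cases hN : N.card = i
    · have h1 : (-1 : K) ^ i * (-1 : K) ^ N.card = 1 := by rw [hN]; exact neg_one_sq_pow K i
      simp only [map_add, map_sub, LinearMap.add_apply, LinearMap.sub_apply]
      linear_combination (tau K u Γ * ε (insert u Γ) * (sh K N (Γ \ N) *
        ((h (hat K N (Γ \ N) w) (hat K (Γ \ N) N w') +
          h (hat K N (Γ \ N) w) (hat K (Γ \ N) N (sg K u w'))) -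
          (h (hat K N (Γ \ N) (sg K u w)) (hat K (Γ \ N) N w') +
          h (hat K N (Γ \ N) (sg K u w)) (hat K (Γ \ N) N (sg K u w')))))) * h1
    · rw [sto_hat_zero (Γ \ N) (fun G => hw N G hN),
        sto_hat_zero (Γ \ N) (fun G => hsg u N G hN)]
      simp
  -- the first part vanishes
  have hP1 : ∑ Γ : Finset (Fin n), ∑ u ∈ univ.filter (fun u => u ∉ Γ), ∑ N ∈ Γ.powerset,
      tau K u Γ * ε (insert u Γ) * (sh K N (Γ \ N) *
        (2 * h (hat K N (Γ \ N) w) (hat K (Γ \ N) N w'))) = 0 := by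
    refine sum_eq_zero fun Γ _ => ?_
    have h1 : ∑ u ∈ univ.filter (fun u => u ∉ Γ), ∑ N ∈ Γ.powerset,
        tau K u Γ * ε (insert u Γ) * (sh K N (Γ \ N) *
          (2 * h (hat K N (Γ \ N) w) (hat K (Γ \ N) N w'))) =
        (∑ u ∈ univ.filter (fun u => u ∉ Γ), tau K u Γ * ε (insert u Γ)) *
          ∑ N ∈ Γ.powerset, (sh K N (Γ \ N) *
            (2 * h (hat K N (Γ \ N) w) (hat K (Γ \ N) N w'))) := by
      rw [sum_mul]
      refine sum_congr rfl fun u _ => ?_
      rw [mul_sum]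
    rw [h1, hS.cyc Γ, zero_mul]
  -- the second part
  have hP2 : ∑ u, PP (eps ε u) h (sg K u w) (sg K u w') =
      ∑ Γ : Finset (Fin n), ∑ u ∈ univ.filter (fun u => u ∉ Γ), ∑ N ∈ Γ.powerset,
        tau K u Γ * ε (insert u Γ) * (sh K N (Γ \ N) *
          h (hat K N (Γ \ N) (sg K u w)) (hat K (Γ \ N) N (sg K u w'))) := by
    have h1 : ∀ u : Fin n, PP (eps ε u) h (sg K u w) (sg K u w') = ∑ Γ : Finset (Fin n),
        if u ∉ Γ then ∑ N ∈ Γ.powerset, tau K u Γ * ε (insert u Γ) * (sh K N (Γ \ N) *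
          h (hat K N (Γ \ N) (sg K u w)) (hat K (Γ \ N) N (sg K u w'))) else 0 := by
      intro u
      rw [PP_apply]
      refine sum_congr rfl fun Γ _ => ?_
      by_cases hu : u ∈ Γ
      · rw [if_neg (not_not.2 hu)]
        simp only [eps, if_pos hu, zero_mul]
      · rw [if_pos hu]
        simp only [eps, if_neg hu]
        rw [mul_sum]
    rw [sum_congr rfl fun u _ => h1 u, sum_comm]
    refine sum_congr rfl fun Γ _ => ?_
    rw [sum_filter]
  rw [hsum, hP2]
  have hfin : ∑ Γ : Finset (Fin n), ∑ u ∈ univ.filter (fun u => u ∉ Γ), ∑ N ∈ Γ.powerset,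
        tau K u Γ * ε (insert u Γ) * (sh K N (Γ \ N) *
          (2 * h (hat K N (Γ \ N) w) (hat K (Γ \ N) N w') -
            2 * h (hat K N (Γ \ N) (sg K u w)) (hat K (Γ \ N) N (sg K u w')))) =
      (∑ Γ : Finset (Fin n), ∑ u ∈ univ.filter (fun u => u ∉ Γ), ∑ N ∈ Γ.powerset,
        tau K u Γ * ε (insert u Γ) * (sh K N (Γ \ N) *
          (2 * h (hat K N (Γ \ N) w) (hat K (Γ \ N) N w')))) +
      -2 * ∑ Γ : Finset (Fin n), ∑ u ∈ univ.filter (fun u => u ∉ Γ), ∑ N ∈ Γ.powerset,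
        tau K u Γ * ε (insert u Γ) * (sh K N (Γ \ N) *
          h (hat K N (Γ \ N) (sg K u w)) (hat K (Γ \ N) N (sg K u w'))) := by
    rw [mul_sum, ← sum_add_distrib]
    refine sum_congr rfl fun Γ _ => ?_
    rw [mul_sum, ← sum_add_distrib]
    refine sum_congr rfl fun u _ => ?_
    rw [mul_sum, ← sum_add_distrib]
    refine sum_congr rfl fun N _ => ?_
    ring
  rw [hfin, hP1, zero_add]

end Pool.Agent.H14.CL
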