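import Pool.Agent.H14.CL.Stm

/-!
Project CL, row TI9: the data of a folded realisation.
-/

set_option autoImplicit false

namespace Pool.Agent.H14.CL

open Finset

/-! ### general facts -/

theorem ti9_sph {n : ℕ} {K : Type} [Field K] {Δ : Finset (Finset (Fin n))}
    {ε : Finset (Fin n) → K} {d : ℕ} (h : Sph K Δ ε d) {s : K} (hs : s ≠ 0) :
    Sph K Δ (fun Φ => s * ε Φ) d where
  down := h.down
  empty := h.empty
  flag := h.flag
  card_le := h.card_le
  pure := h.pure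
  nz := fun Φ h1 h2 => mul_ne_zero hs (h.nz Φ h1 h2)
  off := fun Φ h1 => by rw [h.off Φ h1, mul_zero]
  cyc := by
    intro Γ
    have h1 := h.cyc Γ
    have h2 : ∑ u ∈ univ.filter (fun u => u ∉ Γ), tau K u Γ * (s * ε (insert u Γ)) =
        s * ∑ u ∈ univ.filter (fun u => u ∉ Γ), tau K u Γ * ε (insert u Γ) := by
      rw [Finset.mul_sum]
      exact Finset.sum_congr rfl fun u _ => by ring
    rw [h2, h1, mul_zero]
  low := h.low
  top := by
    intro G hG j hj φ hφ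
    refine h.top G hG j hj φ ?_
    have h2 : ∑ N ∈ (lkF Δ G).filter (fun N => N.card = j), sh K N G * (s * ε (N ∪ G)) * φ N =
        s * ∑ N ∈ (lkF Δ G).filter (fun N => N.card = j), sh K N G * ε (N ∪ G) * φ N := by
      rw [Finset.mul_sum]
      exact Finset.sum_congr rfl fun u _ => by ring
    rw [h2] at hφ
    exact (mul_eq_zero.mp hφ).resolve_left hs
  euler := h.euler

theorem ti9_opL_map {n d : ℕ} {K S : Type} [Field K] [AddCommGroup S] [Module K S]
    (e : Fin n → S →ₗ[K] S) (f : Fin d → Fin n) (l : List (Fin d)) :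
    opL (fun i => e (f i)) l = opL e (l.map f) := by
  induction l with
  | nil => rfl
  | cons a l ih => simp only [opL, List.map_cons, ih]

theorem ti9_sgL_ne {n : ℕ} (L : List (Fin n)) : sgL ℝ L ≠ 0 := by
  induction L with
  | nil => simp [sgL]
  | cons a l ih =>
    simp only [sgL, tau]
    exact mul_ne_zero (pow_ne_zero _ (by norm_num)) ih

/-- The opposite vertex of a ridge. -/
theorem ti9_opp {n d : ℕ} {Δ : Finset (Finset (Fin n))} {ε : Finset (Fin n) → ℝ}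
    (h4 : StRidge) (h5 : StOpp) (hS : Sph ℝ Δ ε d) {B : Fin n → Fin n → ℝ}
    (hB : ∀ v w, B v w = B w v) (hN : Neg Δ B d) {Φ : Finset (Fin n)} (hΦ : Φ ∈ Δ)
    (hc : Φ.card = d) {u : Fin n} (hu : u ∈ Φ) :
    ∃ u', u' ∉ Φ.erase u ∧ insert u' (Φ.erase u) ∈ Δ ∧ B u u' < 0 := by
  have hΓ : Φ.erase u ∈ Δ := hS.down Φ hΦ _ (Finset.erase_subset _ _)
  have hΓc : (Φ.erase u).card + 1 = d := by
    rw [Finset.card_erase_add_one hu, hc]
  obtain ⟨a, b, hab, ha, hb, ha', hb', _, hall, _⟩ := h4 n ℝ Δ ε d hS _ hΓ hΓc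
  have hu1 : u ∉ Φ.erase u := Finset.notMem_erase u Φ
  have hu2 : insert u (Φ.erase u) ∈ Δ := by rwa [Finset.insert_erase hu]
  rcases hall u hu1 hu2 with rfl | rfl
  · exact ⟨b, hb, hb', h5 n ℝ Δ ε d B hS hB hN _ hΓ hΓc _ _ hab ha hb ha' hb'⟩
  · exact ⟨a, ha, ha', h5 n ℝ Δ ε d B hS hB hN _ hΓ hΓc _ _ hab.symm hb ha hb' ha'⟩

/-! ### the Clifford operators -/

section clif

variable {d N : ℕ} {S : Type} [NormedAddCommGroup S] [InnerProductSpace ℝ S]
  {γ : (Fin d → ℝ) →ₗ[ℝ] S →ₗ[ℝ] S} {δ : (Fin N → ℝ) →ₗ[ℝ] S →ₗ[ℝ] S}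

theorem ti9_rel (hC : Clif S γ δ) (p p' : Fin d → ℝ) (q q' : Fin N → ℝ) (x : S) :
    (γ p + δ q) ((γ p' + δ q') x) + (γ p' + δ q') ((γ p + δ q) x) =
      (2 * (p ⬝ᵥ p' - q ⬝ᵥ q')) • x := by
  have h1 := hC.gg p p' x
  have h2 := hC.dd q q' x
  have h3 := hC.gd p q' x
  have h4 := hC.gd p' q x
  simp only [LinearMap.add_apply, map_add]
  have h5 : (2 * (p ⬝ᵥ p' - q ⬝ᵥ q')) • x = (2 * (p ⬝ᵥ p')) • x + (-2 * (q ⬝ᵥ q')) • x := by
    rw [← add_smul]; congr 1; ring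
  rw [h5, ← h1, ← h2]
  have h6 : (γ p) ((δ q') x) = - (δ q') ((γ p) x) := eq_neg_of_add_eq_zero_left h3
  have h7 : (γ p') ((δ q) x) = - (δ q) ((γ p') x) := eq_neg_of_add_eq_zero_left h4
  rw [h6, h7]
  abel

theorem ti9_adj (hC : Clif S γ δ) (hO : StOm) (p : Fin d → ℝ) (q : Fin N → ℝ) (x y : S) :
    inner ℝ (om γ ((γ p + δ q) x)) y =
      (-1 : ℝ) ^ (d + 1) * inner ℝ (om γ x) ((γ p + δ q) y) := by
  obtain ⟨ho1, ho2, _, _⟩ := hO d N S γ δ hC
  rw [LinearMap.add_apply, map_add, ho1, ho2, inner_add_left, inner_smul_left, inner_smul_left,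
    hC.ga, hC.da, LinearMap.add_apply, inner_add_right]
  simp only [map_pow, map_neg, map_one, RCLike.conj_to_real, pow_succ]
  ring

end clif

/-- Linear independence of the positive vectors of a facet. -/
theorem ti9_indep {n d N : ℕ} {Δ : Finset (Finset (Fin n))} {ε : Finset (Fin n) → ℝ}
    (h4 : StRidge) (h5 : StOpp) (hS : Sph ℝ Δ ε d) {p : Fin n → Fin d → ℝ}
    {q : Fin n → Fin N → ℝ}
    (hpq : ∀ v w, ({v, w} : Finset (Fin n)) ∈ Δ → p v ⬝ᵥ p w = q v ⬝ᵥ q w)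
    (hN : Neg Δ (fun v w => p v ⬝ᵥ p w - q v ⬝ᵥ q w) d) {Φ : Finset (Fin n)} (hΦ : Φ ∈ Δ)
    (hc : Φ.card = d) {f : Fin d → Fin n} (hf : Function.Injective f) (hfΦ : ∀ i, f i ∈ Φ) :
    LinearIndependent ℝ (fun i => p (f i)) := by
  have hBs : ∀ v w, (fun v w => p v ⬝ᵥ p w - q v ⬝ᵥ q w) v w =
      (fun v w => p v ⬝ᵥ p w - q v ⬝ᵥ q w) w v := by
    intro v w
    show p v ⬝ᵥ p w - q v ⬝ᵥ q w = p w ⬝ᵥ p v - q w ⬝ᵥ q v
    rw [dotProduct_comm (p v), dotProduct_comm (q v)]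
  have hpair : ∀ i j, ({f i, f j} : Finset (Fin n)) ∈ Δ := by
    intro i j
    refine hS.down Φ hΦ _ ?_
    intro x hx
    rcases Finset.mem_insert.mp hx with rfl | hx
    · exact hfΦ i
    · rw [Finset.mem_singleton.mp hx]; exact hfΦ j
  rw [Fintype.linearIndependent_iff]
  intro g hg k
  -- the second combination vanishes, too
  have hq : ∑ i, g i • q (f i) = 0 := by
    have h1 : (∑ i, g i • q (f i)) ⬝ᵥ (∑ i, g i • q (f i)) = 0 := by
      have h2 : (∑ i, g i • q (f i)) ⬝ᵥ (∑ i, g i • q (f i)) =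
          (∑ i, g i • p (f i)) ⬝ᵥ (∑ i, g i • p (f i)) := by
        simp only [sum_dotProduct, dotProduct_sum, smul_dotProduct, dotProduct_smul]
        refine Finset.sum_congr rfl fun i _ => ?_
        congr 1
        refine Finset.sum_congr rfl fun j _ => ?_
        rw [hpq _ _ (hpair j i)]
      rw [h2, hg, zero_dotProduct]
    exact dotProduct_self_eq_zero.mp h1
  obtain ⟨u', hu'1, hu'2, hneg⟩ := ti9_opp h4 h5 hS hBs hN hΦ hc (hfΦ k)
  have h3 : ∑ i, g i * (p (f i) ⬝ᵥ p u' - q (f i) ⬝ᵥ q u') = 0 := by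
    have h4 : ∑ i, g i * (p (f i) ⬝ᵥ p u' - q (f i) ⬝ᵥ q u') =
        (∑ i, g i • p (f i)) ⬝ᵥ p u' - (∑ i, g i • q (f i)) ⬝ᵥ q u' := by
      simp only [sum_dotProduct, smul_dotProduct, smul_eq_mul, mul_sub, Finset.sum_sub_distrib]
    rw [h4, hg, hq, zero_dotProduct, zero_dotProduct, sub_zero]
  rw [Finset.sum_eq_single k] at h3
  · exact (mul_eq_zero.mp h3).resolve_right hneg.ne
  · intro i _ hik
    have h5 : ({f i, u'} : Finset (Fin n)) ∈ Δ := by
      refine hS.down _ hu'2 _ ?_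
      intro x hx
      rcases Finset.mem_insert.mp hx with rfl | hx
      · exact Finset.mem_insert_of_mem
          (Finset.mem_erase.mpr ⟨fun h => hik (hf h), hfΦ i⟩)
      · rw [Finset.mem_singleton.mp hx]; exact Finset.mem_insert_self _ _
    rw [hpq _ _ h5, sub_self, mul_zero]
  · intro h; exact absurd (Finset.mem_univ k) h

theorem st_tight (h1 : StClif) (h2 : StOm) (h3 : StFacet) (h4 : StRidge) (h5 : StOpp)
    (h6 : StConn) (h7 : StPerm) (h8 : StCross) : StTight := by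
  intro n d N Δ ε hS p q hpq hN
  obtain ⟨γ, δ, hC⟩ := h1 d N
  have hBs0 : ∀ v w, (fun v w => p v ⬝ᵥ p w - q v ⬝ᵥ q w) v w =
      (fun v w => p v ⬝ᵥ p w - q v ⬝ᵥ q w) w v := by
    intro v w
    show p v ⬝ᵥ p w - q v ⬝ᵥ q w = p w ⬝ᵥ p v - q w ⬝ᵥ q v
    rw [dotProduct_comm (p v), dotProduct_comm (q v)]
  obtain ⟨e, he⟩ : ∃ e : Fin n → SS d N →ₗ[ℝ] SS d N, ∀ v, e v = γ (p v) + δ (q v) :=
    ⟨_, fun v => rfl⟩
  obtain ⟨B, hB⟩ : ∃ B : Fin n → Fin n → ℝ, ∀ v w, B v w = 2 * (p v ⬝ᵥ p w - q v ⬝ᵥ q w) :=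
    ⟨_, fun v w => rfl⟩
  obtain ⟨h, hh⟩ : ∃ h : SS d N →ₗ[ℝ] SS d N →ₗ[ℝ] ℝ, ∀ x y, h x y = inner ℝ (om γ x) y := by
    refine ⟨LinearMap.mk₂ ℝ (fun x y => inner ℝ (om γ x) y) ?_ ?_ ?_ ?_, fun x y => rfl⟩
    · intro x x' y
      rw [map_add, inner_add_left]
    · intro c x y
      rw [map_smul, real_inner_smul_left, smul_eq_mul]
    · intro x y y'
      rw [inner_add_right]
    · intro c x y
      rw [real_inner_smul_right, smul_eq_mul]
  have hrel : ∀ v w x, e v (e w x) + e w (e v x) = B v w • x := by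
    intro v w x
    rw [he, he, hB]
    exact ti9_rel hC _ _ _ _ x
  have hBs : ∀ v w, B v w = B w v := by
    intro v w
    rw [hB, hB, dotProduct_comm (p v), dotProduct_comm (q v)]
  have hBz : ∀ v w, ({v, w} : Finset (Fin n)) ∈ Δ → B v w = 0 := by
    intro v w hvw
    rw [hB, hpq v w hvw, sub_self, mul_zero]
  obtain ⟨ho1, ho2, ho3, ho4⟩ := h2 d N _ γ δ hC
  -- the data, up to the sign of the fundamental cycle
  have hDat : ∀ s : ℝ, s ≠ 0 → Dat Δ ⊤ e B h (fun Φ => s * ε Φ) d := by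
    intro s hs
    refine ⟨ti9_sph hS hs, fun v _ x _ => trivial, ?_, fun v w _ _ x _ => hrel v w x, hBz, hBs,
      ?_, ?_, ?_, ?_⟩
    · intro v hv x _
      have h9 := hrel v v x
      rw [hBz v v (by rwa [Finset.pair_eq_singleton]), zero_smul] at h9
      have h10 : (2 : ℝ) • e v (e v x) = 0 := by rw [two_smul]; exact h9
      exact (smul_eq_zero.mp h10).resolve_left (by norm_num)
    · intro F hF u hu huF x hx hux
      obtain ⟨Φ, hΦ, hFΦ, hΦc⟩ := hS.pure _ huF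
      obtain ⟨u', hu'1, hu'2, hneg⟩ := ti9_opp h4 h5 hS hBs0 hN hΦ hΦc
        (hFΦ (Finset.mem_insert_self u F))
      have hne : B u u' ≠ 0 := by
        rw [hB]
        exact (mul_neg_of_pos_of_neg (by norm_num) hneg).ne
      refine ⟨(B u u')⁻¹ • e u' x, ⟨trivial, ?_⟩, ?_⟩
      · intro f hf
        have hfu : f ≠ u := fun h => hu (h ▸ hf)
        have h9 : ({f, u'} : Finset (Fin n)) ∈ Δ := by
          refine hS.down _ hu'2 _ ?_
          intro y hy
          rcases Finset.mem_insert.mp hy with rfl | hy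
          · exact Finset.mem_insert_of_mem (Finset.mem_erase.mpr
              ⟨hfu, hFΦ (Finset.mem_insert_of_mem hf)⟩)
          · rw [Finset.mem_singleton.mp hy]; exact Finset.mem_insert_self _ _
        have h10 := hrel f u' x
        rw [hBz f u' h9, zero_smul, hx.2 f hf, map_zero, add_zero] at h10
        rw [map_smul, h10, smul_zero]
      · have h10 := hrel u u' x
        rw [hux, map_zero, add_zero] at h10
        rw [map_smul, h10, smul_smul, inv_mul_cancel₀ hne, one_smul]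
    · intro v _ x _ y _
      rw [hh, hh, he]
      exact ti9_adj hC h2 _ _ x y
    · intro x _ y _
      rw [hh, hh, ho3, real_inner_comm]
    · intro x _ hx
      have h9 : om γ x = 0 := by
        have h10 := hx (om γ x) trivial
        rw [hh] at h10
        exact inner_self_eq_zero.mp h10
      exact ho4.1 (by rw [h9, map_zero])
  have hNB : Neg Δ B d := by
    intro F hF hFc
    obtain ⟨v, hv1, hv2, hv3⟩ := hN F hF hFc
    refine ⟨v, hv1, hv2, fun u hu1 hu2 hu3 => ?_⟩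
    rw [hB]
    exact mul_neg_of_pos_of_neg (by norm_num) (hv3 u hu1 hu2 hu3)
  -- the sign
  obtain ⟨Φ, hΦ, _, hΦc⟩ := hS.pure ∅ hS.empty
  have hlen : Φ.toList.length = d := by rw [Finset.length_toList, hΦc]
  have hnd : Φ.toList.Nodup := Finset.nodup_toList Φ
  have hfin : Φ.toList.toFinset = Φ := Finset.toList_toFinset Φ
  obtain ⟨f, hf⟩ : ∃ f : Fin d → Fin n, ∀ i, f i = Φ.toList.get (i.cast hlen.symm) :=
    ⟨_, fun i => rfl⟩
  have hfi : Function.Injective f := by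
    intro i j hij
    rw [hf, hf] at hij
    have h9 := hnd.injective_get hij
    exact Fin.cast_injective _ h9
  have hfΦ : ∀ i, f i ∈ Φ := by
    intro i
    rw [hf, ← Finset.mem_toList]
    exact List.get_mem _ _
  have hmap : (List.finRange d).map f = Φ.toList := by
    apply List.ext_getElem
    · rw [List.length_map, List.length_finRange, hlen]
    · intro i hi1 hi2
      simp [hf]
  obtain ⟨σ, hσ, hpos⟩ := h3 d N _ γ δ hC (fun i => p (f i)) (fun i => q (f i))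
    (fun i j => hpq _ _ (by
      refine hS.down Φ hΦ _ ?_
      intro x hx
      rcases Finset.mem_insert.mp hx with rfl | hx
      · exact hfΦ i
      · rw [Finset.mem_singleton.mp hx]; exact hfΦ j))
    (ti9_indep h4 h5 hS hpq hN hΦ hΦc hfi hfΦ)
  have hop : opL (fun i : Fin d => γ (p (f i)) + δ (q (f i))) (List.finRange d) =
      opL e Φ.toList := by
    rw [← hmap, ← ti9_opL_map]
    congr 1
    funext i
    exact (he (f i)).symm
  rw [hop] at hpos
  have hσ2 : σ * σ = 1 := by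
    rcases hσ with rfl | rfl <;> norm_num
  have ha : ε Φ * sgL ℝ Φ.toList * σ ≠ 0 := by
    refine mul_ne_zero (mul_ne_zero (hS.nz Φ hΦ hΦc) (ti9_sgL_ne _)) ?_
    rcases hσ with rfl | rfl <;> norm_num
  obtain ⟨s, hs0, hs⟩ : ∃ s : ℝ, s ≠ 0 ∧ 0 < s * (ε Φ * sgL ℝ Φ.toList * σ) :=
    ⟨ε Φ * sgL ℝ Φ.toList * σ, ha, mul_self_pos.mpr ha⟩
  have hD := hDat s hs0
  have hPos0 : PosAt ⊤ e h (fun Φ => s * ε Φ) Φ := by
    intro L hL hLΦ t _ ht
    have hperm : L.Perm Φ.toList := by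
      refine List.perm_of_nodup_nodup_toFinset_eq hL hnd ?_
      rw [hLΦ, hfin]
    have h9 := h7 n ℝ _ Δ ⊤ e B h _ d hD L Φ.toList hperm hL (hLΦ.symm ▸ hΦ) t trivial
    have h10 : sgL ℝ L * h (opL e L t) t = sgL ℝ Φ.toList * h (opL e Φ.toList t) t := by
      have h11 := congrArg (fun z => h z t) h9
      simpa only [map_smul, LinearMap.smul_apply, smul_eq_mul] using h11
    have h12 : opL e Φ.toList t ≠ 0 := by
      intro h13
      rw [h13, smul_zero] at h9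
      exact ht ((smul_eq_zero.mp h9).resolve_left (ti9_sgL_ne L))
    have h14 := hpos t h12
    have h15 : (s * ε Φ) * sgL ℝ L * h (opL e L t) t =
        (s * (ε Φ * sgL ℝ Φ.toList * σ)) * (σ * inner ℝ (om γ (opL e Φ.toList t)) t) := by
      rw [← hh]
      calc (s * ε Φ) * sgL ℝ L * h (opL e L t) t = (s * ε Φ) * (sgL ℝ L * h (opL e L t) t) := by
            ring
        _ = (s * ε Φ) * (sgL ℝ Φ.toList * h (opL e Φ.toList t) t) * (σ * σ) := by
            rw [h10, hσ2, mul_one]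
        _ = _ := by ring
    rw [h15]
    exact mul_pos hs h14
  have hPosAll := h6 n ℝ Δ _ d hD.sph (fun Ψ => PosAt ⊤ e h (fun Φ => s * ε Φ) Ψ)
    (by
      intro Γ hΓ hΓc u u' huu hu hu' hui hui' hP
      exact h8 n _ Δ ⊤ e B h _ d hD Γ hΓ hΓc u u' huu hu hu' hui hui'
        (h5 n ℝ Δ _ d B hD.sph hBs hNB Γ hΓ hΓc u u' huu hu hu' hui hui') hP)
    Φ hΦ hΦc hPos0
  refine ⟨e, B, h, _, hD, hNB, ?_⟩
  intro L hL hLΔ hLl t ht hne
  exact hPosAll L.toFinset hLΔ (by rw [List.toFinset_card_of_nodup hL, hLl]) L hL rfl t ht hne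

end Pool.Agent.H14.CL
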