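import Pool.Agent.H14.CL.Stm

/-!
Project CL, row TO1: the differential of the double complex.
-/

set_option autoImplicit false

namespace Pool.Agent.H14.CL

open Finset

theorem to1_anti {n : ℕ} {K S : Type} [Field K] [AddCommGroup S] [Module K S]
    (N : Finset (Fin n)) (g : Fin n → Fin n → S) (hg : ∀ u v, g u v = g v u) :
    ∑ u ∈ N, tau K u N • ∑ v ∈ N.erase u, tau K v (N.erase u) • g u v = 0 := by
  simp only [Finset.smul_sum]
  rw [Finset.sum_sigma']
  refine Finset.sum_involution (fun p _ => ⟨p.2, p.1⟩) ?_ ?_ ?_ ?_
  · rintro ⟨u, v⟩ hp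
    simp only [mem_sigma, mem_erase] at hp
    have h := tau_swap_erase K (Ne.symm hp.2.1) hp.1 hp.2.2
    change tau K u N • tau K v (N.erase u) • g u v + tau K v N • tau K u (N.erase v) • g v u = 0
    rw [smul_smul, smul_smul, h, hg v u, neg_smul, neg_add_cancel]
  · rintro ⟨u, v⟩ hp _ h
    simp only [mem_sigma, mem_erase] at hp
    have h1 : v = u := congrArg Sigma.fst h
    exact hp.2.1 h1
  · rintro ⟨u, v⟩ hp
    simp only [mem_sigma, mem_erase] at hp ⊢
    exact ⟨hp.2.2, Ne.symm hp.2.1, hp.1⟩
  · rintro ⟨u, v⟩ _
    rfl

theorem st_totD : StTotD := by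
  intro n K S _ _ _ Δ U e hd
  refine ⟨?_, ?_, ?_, ?_⟩
  · intro w
    funext N G
    rw [DD_apply]
    by_cases h : Disjoint N G ∧ N ∪ G ∈ Δ
    · rw [if_pos h]
      have h1 : ∀ u ∈ N, tau K u N • (DD K Δ w (N.erase u) G +
          DD K Δ w (N.erase u) (insert u G)) =
          tau K u N • ∑ v ∈ N.erase u, tau K v (N.erase u) •
            (w ((N.erase u).erase v) G + w ((N.erase u).erase v) (insert v G) +
              (w ((N.erase u).erase v) (insert u G) +
                w ((N.erase u).erase v) (insert v (insert u G)))) := by
        intro u hu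
        have hu1 : Disjoint (N.erase u) G := disjoint_of_subset_left (erase_subset u N) h.1
        have hu2 : N.erase u ∪ G ∈ Δ :=
          hd _ h.2 _ (union_subset_union (erase_subset u N) (Subset.refl G))
        have hu3 : Disjoint (N.erase u) (insert u G) := by
          rw [disjoint_insert_right]
          exact ⟨notMem_erase u N, hu1⟩
        have hu4 : N.erase u ∪ insert u G ∈ Δ := by
          have : N.erase u ∪ insert u G = N ∪ G := by
            rw [union_insert, ← insert_union, insert_erase hu]
          rw [this]
          exact h.2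
        rw [DD_apply, DD_apply, if_pos ⟨hu1, hu2⟩, if_pos ⟨hu3, hu4⟩, ← Finset.sum_add_distrib]
        congr 1
        refine Finset.sum_congr rfl fun v _ => ?_
        rw [← smul_add]
      rw [Finset.sum_congr rfl h1]
      have h2 := to1_anti (K := K) N (fun u v => w ((N.erase u).erase v) G +
        w ((N.erase u).erase v) (insert v G) + (w ((N.erase u).erase v) (insert u G) +
          w ((N.erase u).erase v) (insert v (insert u G)))) ?_
      · exact h2
      · intro u v
        change w ((N.erase u).erase v) G + w ((N.erase u).erase v) (insert v G) +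
          (w ((N.erase u).erase v) (insert u G) +
            w ((N.erase u).erase v) (insert v (insert u G))) =
          w ((N.erase v).erase u) G + w ((N.erase v).erase u) (insert u G) +
          (w ((N.erase v).erase u) (insert v G) +
            w ((N.erase v).erase u) (insert u (insert v G)))
        rw [erase_right_comm, Finset.insert_comm v u G]
        abel
    · rw [if_neg h]
      rfl
  · intro j w hw N G
    rw [DD_apply]
    constructor
    · split_ifs with h
      · refine Submodule.sum_mem _ fun u _ => Submodule.smul_mem _ _ (Submodule.add_mem _ ?_ ?_)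
        · exact (hw _ _).1
        · have h1 := (hw (N.erase u) (insert u G)).1
          exact ⟨h1.1, fun v hv => h1.2 v (mem_insert_of_mem hv)⟩
      · exact Submodule.zero_mem _
    · intro h
      split_ifs with h1
      · refine Finset.sum_eq_zero fun u hu => ?_
        have hc : (N.erase u).card ≠ j := by
          intro hj
          apply h
          refine ⟨h1.1, h1.2, ?_⟩
          rw [← hj, card_erase_add_one hu]
        rw [(hw (N.erase u) G).2 fun h2 => hc h2.2.2,
          (hw (N.erase u) (insert u G)).2 fun h2 => hc h2.2.2, add_zero, smul_zero]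
      · rfl
  · intro u w
    funext N G
    rw [DD_apply, sg_apply]
    by_cases hG : u ∈ G
    · rw [if_pos hG, if_neg]
      rintro ⟨_, h⟩
      rw [mem_lk] at h
      exact h.2.1 (mem_union_right _ hG)
    · rw [if_neg hG, DD_apply]
      have hiff : (Disjoint N G ∧ N ∪ G ∈ lk Δ u) ↔
          (Disjoint N (insert u G) ∧ N ∪ insert u G ∈ Δ) := by
        rw [mem_lk' hd, union_insert, disjoint_insert_right, mem_union]
        constructor
        · rintro ⟨h1, h2, h3⟩
          exact ⟨⟨fun h => h2 (Or.inl h), h1⟩, h3⟩
        · rintro ⟨⟨h1, h2⟩, h3⟩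
          exact ⟨h2, fun h => h.elim h1 hG, h3⟩
      by_cases h : Disjoint N G ∧ N ∪ G ∈ lk Δ u
      · rw [if_pos h, if_pos (hiff.1 h)]
        refine Finset.sum_congr rfl fun x hx => ?_
        have hux : u ≠ x := by
          rintro rfl
          have h1 := (hiff.1 h).1
          rw [disjoint_insert_right] at h1
          exact h1.1 hx
        have hu2 : u ∉ insert x G := by
          rw [mem_insert]
          rintro (h1 | h1)
          · exact hux h1
          · exact hG h1
        rw [sg_apply, sg_apply, if_neg hG, if_neg hu2, Finset.insert_comm u x G]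
      · rw [if_neg h, if_neg fun h1 => h (hiff.2 h1)]
  · intro u j w hw N G
    rw [sg_apply]
    constructor
    · split_ifs with hG
      · exact Submodule.zero_mem _
      · have h1 := (hw N (insert u G)).1
        refine ⟨⟨h1.1, fun v hv => ?_⟩, fun v hv => h1.2 v (mem_insert_of_mem hv)⟩
        rw [mem_singleton] at hv
        rw [hv]
        exact h1.2 u (mem_insert_self u G)
    · intro h
      split_ifs with hG
      · rfl
      · refine (hw N (insert u G)).2 ?_
        rintro ⟨h1, h2, h3⟩
        apply h
        rw [disjoint_insert_right] at h1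
        refine ⟨h1.2, ?_, h3⟩
        rw [mem_lk' hd, mem_union]
        refine ⟨fun h4 => h4.elim h1.1 hG, ?_⟩
        rw [← union_insert]
        exact h2

end Pool.Agent.H14.CL
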