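import Pool.Agent.H14.CL.Stm

/-!
Project CL, row TO2: the projection of the double complex to chains (helper91).
-/

set_option autoImplicit false

namespace Pool.Agent.H14.CL

open Finset

section tp

variable {n : ℕ}

theorem tp_reindex {M : Type*} [AddCommMonoid M] (G : Finset (Fin n))
    (F : Finset (Fin n) → Fin n → M) :
    ∑ N ∈ univ.filter (fun N => Disjoint N G), ∑ u ∈ N, F (N.erase u) u =
      ∑ N ∈ univ.filter (fun N => Disjoint N G),
        ∑ u ∈ univ.filter (fun u => u ∉ N ∪ G), F N u := by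
  rw [sum_sigma', sum_sigma']
  refine sum_bij' (fun x _ => ⟨x.1.erase x.2, x.2⟩) (fun x _ => ⟨insert x.2 x.1, x.2⟩)
    ?_ ?_ ?_ ?_ ?_
  · rintro ⟨N, u⟩ hx
    simp only [mem_sigma, mem_filter, mem_univ, true_and] at hx ⊢
    refine ⟨disjoint_of_subset_left (erase_subset u N) hx.1, ?_⟩
    rw [mem_union, not_or]
    exact ⟨notMem_erase u N, disjoint_left.1 hx.1 hx.2⟩
  · rintro ⟨N, u⟩ hx
    simp only [mem_sigma, mem_filter, mem_univ, true_and] at hx ⊢
    rw [mem_union, not_or] at hx
    exact ⟨disjoint_insert_left.2 ⟨hx.2.2, hx.1⟩, mem_insert_self u N⟩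
  · rintro ⟨N, u⟩ hx
    simp only [mem_sigma, mem_filter, mem_univ, true_and] at hx ⊢
    rw [insert_erase hx.2]
  · rintro ⟨N, u⟩ hx
    simp only [mem_sigma, mem_filter, mem_univ, true_and] at hx ⊢
    rw [mem_union, not_or] at hx
    rw [erase_insert hx.2.1]
  · rintro ⟨N, u⟩ _
    rfl

theorem tp_comm {M : Type*} [AddCommMonoid M] (G : Finset (Fin n))
    (F : Finset (Fin n) → Fin n → M) :
    ∑ N ∈ univ.filter (fun N => Disjoint N G), ∑ u ∈ univ.filter (fun u => u ∉ N ∪ G), F N u =
      ∑ u ∈ univ.filter (fun u => u ∉ G),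
        ∑ N ∈ univ.filter (fun N => Disjoint N (insert u G)), F N u := by
  refine sum_comm' ?_
  intro N u
  simp only [mem_filter, mem_univ, true_and, mem_union, not_or, disjoint_insert_right]
  tauto

variable {K : Type*} [Field K] {S : Type*} [AddCommGroup S] [Module K S]

/-- the sign of the horizontal part -/
theorem tp_sign {ε : Finset (Fin n) → K} {G N : Finset (Fin n)} {u : Fin n} (j : ℕ)
    (hj : N.card = j) (huN : u ∉ N) (huG : u ∉ G) :
    sh K (insert u N) G * ε (insert u N ∪ G) * tau K u (insert u N) =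
      (-1) ^ j * (tau K u G * (sh K N (insert u G) * ε (N ∪ insert u G))) := by
  rw [sh_insert_left K G huN, sh_insert_right K huG huN, tau_insert_self, hj,
    insert_union, union_insert]
  have h := neg_one_sq_pow K j
  linear_combination
    -(tau K u G * sh K N G * ε (insert u (N ∪ G)) * tau K u N) * h

theorem tp_one {Δ : Finset (Finset (Fin n))} {U : Submodule K S} {e : Fin n → S →ₗ[K] S}
    {ε : Finset (Fin n) → K} {d : ℕ} (hs : Sph K Δ ε d) {j i : ℕ} (hji : j + i = d)
    {w : Finset (Fin n) → Finset (Fin n) → S} (hw : w ∈ Tot Δ U e j) :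
    Pr ε w ∈ Ch Δ U e univ i := by
  rw [mem_Tot] at hw
  rw [mem_Ch]
  intro G
  rw [Pr_apply]
  refine ⟨Submodule.sum_mem _ fun N _ => Submodule.smul_mem _ _ (hw N G).1, fun hG => ?_⟩
  refine sum_eq_zero fun N hN => ?_
  have hN' : Disjoint N G := (mem_filter.1 hN).2
  by_cases h1 : N ∪ G ∈ Δ ∧ (N ∪ G).card = d
  · by_cases h2 : N.card = j
    · exfalso
      apply hG
      refine ⟨hs.down _ h1.1 _ subset_union_right, subset_univ _, ?_⟩
      have h3 := card_union_of_disjoint hN'
      omega
    · rw [(hw N G).2 fun h => h2 h.2.2, smul_zero]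
  · rw [hs.off _ h1, mul_zero, zero_smul]

theorem tp_two {Δ : Finset (Finset (Fin n))} {U : Submodule K S} {e : Fin n → S →ₗ[K] S}
    {ε : Finset (Fin n) → K} {d : ℕ} (hs : Sph K Δ ε d) {j : ℕ}
    {w : Finset (Fin n) → Finset (Fin n) → S} (hw : w ∈ Tot Δ U e j) :
    Pr ε (DD K Δ w) = (-1 : K) ^ j • bd K (Pr ε w) := by
  rw [mem_Tot] at hw
  funext G
  rw [Pr_apply, Pi.smul_apply, bd_apply]
  have h1 : ∀ N ∈ univ.filter (fun N => Disjoint N G),
      (sh K N G * ε (N ∪ G)) • DD K Δ w N G = ∑ u ∈ N,
        ((sh K (insert u (N.erase u)) G * ε (insert u (N.erase u) ∪ G) *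
          tau K u (insert u (N.erase u))) • w (N.erase u) G +
        (sh K (insert u (N.erase u)) G * ε (insert u (N.erase u) ∪ G) *
          tau K u (insert u (N.erase u))) • w (N.erase u) (insert u G)) := by
    intro N hN
    have hN' : Disjoint N G := (mem_filter.1 hN).2
    rw [DD_apply]
    by_cases h2 : N ∪ G ∈ Δ
    · rw [if_pos ⟨hN', h2⟩, smul_sum]
      refine sum_congr rfl fun u hu => ?_
      rw [insert_erase hu, smul_smul, smul_add]
    · rw [if_neg fun h => h2 h.2, smul_zero]
      symm
      refine sum_eq_zero fun u hu => ?_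
      rw [insert_erase hu, hs.off _ fun h => h2 h.1, mul_zero, zero_mul, zero_smul, zero_smul,
        add_zero]
  rw [sum_congr rfl h1, tp_reindex G (fun N u =>
    ((sh K (insert u N) G * ε (insert u N ∪ G) * tau K u (insert u N)) • w N G +
      (sh K (insert u N) G * ε (insert u N ∪ G) * tau K u (insert u N)) • w N (insert u G)))]
  simp only [sum_add_distrib]
  have h2 : ∑ N ∈ univ.filter (fun N => Disjoint N G), ∑ u ∈ univ.filter (fun u => u ∉ N ∪ G),
      (sh K (insert u N) G * ε (insert u N ∪ G) * tau K u (insert u N)) • w N G = 0 := by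
    refine sum_eq_zero fun N hN => ?_
    have hN' : Disjoint N G := (mem_filter.1 hN).2
    rw [← sum_smul]
    have h3 : ∑ u ∈ univ.filter (fun u => u ∉ N ∪ G),
        sh K (insert u N) G * ε (insert u N ∪ G) * tau K u (insert u N) =
        sh K N G * ∑ u ∈ univ.filter (fun u => u ∉ N ∪ G),
          tau K u (N ∪ G) * ε (insert u (N ∪ G)) := by
      rw [mul_sum]
      refine sum_congr rfl fun u hu => ?_
      have hu' : u ∉ N ∪ G := (mem_filter.1 hu).2
      rw [mem_union, not_or] at hu'
      rw [sh_insert_left K G hu'.1, tau_insert_self, insert_union, tau_union K u hN']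
      ring
    rw [h3, hs.cyc, mul_zero, zero_smul]
  rw [h2, zero_add, tp_comm G (fun N u =>
    (sh K (insert u N) G * ε (insert u N ∪ G) * tau K u (insert u N)) • w N (insert u G)),
    smul_sum]
  refine sum_congr rfl fun u hu => ?_
  have huG : u ∉ G := (mem_filter.1 hu).2
  rw [Pr_apply, smul_sum, smul_sum]
  refine sum_congr rfl fun N hN => ?_
  have hN' : Disjoint N (insert u G) := (mem_filter.1 hN).2
  have huN : u ∉ N := (disjoint_insert_right.1 hN').1
  by_cases hj : N.card = j
  · rw [tp_sign j hj huN huG, smul_smul, smul_smul]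
    ring_nf
  · rw [(hw N (insert u G)).2 fun h => hj h.2.2, smul_zero, smul_zero, smul_zero, smul_zero]

theorem tp_three {Δ : Finset (Finset (Fin n))} {U : Submodule K S} {e : Fin n → S →ₗ[K] S}
    {ε : Finset (Fin n) → K} (u : Fin n) {j : ℕ}
    {w : Finset (Fin n) → Finset (Fin n) → S} (hw : w ∈ Tot Δ U e j) :
    Pr (eps ε u) (sg K u w) = (-1 : K) ^ j • res K u (Pr ε w) := by
  rw [mem_Tot] at hw
  funext G
  rw [Pr_apply, Pi.smul_apply, res_apply]
  by_cases hG : u ∈ G
  · rw [if_pos hG, smul_zero]
    refine sum_eq_zero fun N _ => ?_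
    rw [sg_apply, if_pos hG, smul_zero]
  · rw [if_neg hG, Pr_apply, smul_sum, smul_sum]
    have h1 : univ.filter (fun N => Disjoint N (insert u G)) =
        (univ.filter (fun N : Finset (Fin n) => Disjoint N G)).filter (fun N => u ∉ N) := by
      ext N
      simp only [mem_filter, mem_univ, true_and, disjoint_insert_right]
      tauto
    conv_rhs => rw [h1, sum_filter]
    refine sum_congr rfl fun N hN => ?_
    have hN' : Disjoint N G := (mem_filter.1 hN).2
    rw [sg_apply, if_neg hG]
    by_cases hu : u ∈ N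
    · rw [if_neg (not_not.2 hu)]
      unfold eps
      rw [if_pos (mem_union_left _ hu), mul_zero, zero_smul]
    · rw [if_pos hu]
      by_cases hj : N.card = j
      · have h2 : u ∉ N ∪ G := by
          rw [mem_union, not_or]
          exact ⟨hu, hG⟩
        have h3 := tp_sign (ε := ε) j hj hu hG
        unfold eps
        rw [if_neg h2, smul_smul, smul_smul]
        congr 1
        rw [sh_insert_left K G hu, tau_insert_self, insert_union] at h3
        rw [tau_union K u hN']
        linear_combination h3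
      · rw [(hw N (insert u G)).2 fun h => hj h.2.2, smul_zero, smul_zero, smul_zero, smul_zero]

end tp

theorem st_totPr : StTotPr := by
  intro n K S _ _ _ Δ U e ε d hs
  exact ⟨fun j i hji w hw => tp_one hs hji hw, fun j w hw => tp_two hs hw,
    fun u j w hw => tp_three u hw⟩

end Pool.Agent.H14.CL
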