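import Pool.Agent.H14.CL.MainC
import Pool.Agent.H14.CL.SphLk
import Pool.Agent.H14.CL.Hu
import Pool.Agent.H14.CL.DatLk
import Pool.Agent.H14.CL.PosLk
import Pool.Agent.H14.CL.ChA
import Pool.Agent.H14.CL.ChStar
import Pool.Agent.H14.CL.ChOdd
import Pool.Agent.H14.CL.ChEven
import Pool.Agent.H14.CL.TotD
import Pool.Agent.H14.CL.TotPr
import Pool.Agent.H14.CL.Col
import Pool.Agent.H14.CL.Perp
import Pool.Agent.H14.CL.RowEx
import Pool.Agent.H14.CL.Row
import Pool.Agent.H14.CL.Stokes
import Pool.Agent.H14.CL.SymMap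
import Pool.Agent.H14.CL.I1
import Pool.Agent.H14.CL.I2a
import Pool.Agent.H14.CL.I2b
import Pool.Agent.H14.CL.Euler
import Pool.Agent.H14.CL.OddZero
import Pool.Agent.H14.CL.RankA
import Pool.Agent.H14.CL.RankSph
import Pool.Agent.H14.CL.RankLe
import Pool.Agent.H14.CL.Clif
import Pool.Agent.H14.CL.Om
import Pool.Agent.H14.CL.Facet
import Pool.Agent.H14.CL.Ridge
import Pool.Agent.H14.CL.Perm
import Pool.Agent.H14.CL.Tight
import Pool.Agent.H14.CL.Spec

/-!
Project CL: all rows together.
-/

set_option autoImplicit false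

namespace Pool.Agent.H14.CL

theorem allSt : AllSt where
  sphLk := st_sphLk
  hu := st_hu
  datLk := st_datLk st_sphLk
  posLk := st_posLk
  negLk := st_negLk
  up := st_up
  inj := st_inj
  star := st_star
  liftOdd := st_liftOdd
  liftEven := st_liftEven
  totD := st_totD
  totPr := st_totPr
  col := st_col st_totD st_totPr
  row := st_row st_perp (st_rowEx st_sphLk st_hu (st_datLk st_sphLk) st_perp)
  stokes := st_stokes
  map := st_map
  i1 := st_I1 st_totD st_stokes st_map
  i2a := st_I2a st_totD
  i2b := st_I2b st_totD st_stokes st_sym st_map st_sphLk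
  euler := st_euler
  oddZero := st_oddZero
  rel := st_rel

theorem main_all : StMain := st_main allSt

theorem tight_all : StTight :=
  st_tight st_clif st_om (st_facet st_om) st_ridge (st_opp st_ridge) st_conn st_perm
    (st_cross st_perm st_ridge)

theorem rankSph_all : StRankSph := st_rankSph st_lowRank st_topRank st_cycRank

end Pool.Agent.H14.CL
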