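import Pool.Agent.H14.CL.Blk

/-!
Project CL, row D11: one configuration for a family of complexes.
-/

set_option autoImplicit false

namespace Pool.Agent.H14.CL

open Finset

/-- one parameter of vectors: exactness outside a finite set -/
theorem allC_fin (h2 : StSC) {n R : ℕ} {S : Type} [NormedAddCommGroup S] [InnerProductSpace ℝ S]
    [FiniteDimensional ℝ S] {γ δ : (Fin R → ℝ) →ₗ[ℝ] S →ₗ[ℝ] S} (hC : Clif S γ δ)
    {L : Finset (Finset (Fin n))} (hL : Down L) (P Q N : Fin n → Vec R)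
    (hor : ∀ (s : ℝ) v w, ({v, w} : Finset (Fin n)) ∈ L → ip (P v + s • Q v) (P w + s • Q w) = 0)
    (hN : ∀ (s : ℝ) v w, ip (P w + s • Q w) (N v) = if v = w then 1 / 2 else 0)
    (hE : ∀ j, Ex L ⊤ (fun v => opv γ δ (P v)) univ j) :
    {s : ℝ | ¬ ∀ j, Ex L ⊤ (fun v => opv γ δ (P v + s • Q v)) univ j}.Finite := by
  have key : ∀ (s : ℝ) (v : Fin n), opv γ δ (P v) + s • opv γ δ (Q v) =
      opv γ δ (P v + s • Q v) := fun s v => by rw [map_add, map_smul]
  have h := h2 n S L (fun v => opv γ δ (P v)) (fun v => opv γ δ (Q v)) hL ?_ ?_ hE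
  · simpa only [key] using h
  · intro s v w hvw x
    simp only [key]
    rw [opv_anti hC (hor s v w hvw), neg_add_cancel]
  · intro s
    simp only [key]
    exact kos_of_dual hC (E := fun v => P v + s • Q v) (M := N) hL (fun v w _ _ => hN s v w)

theorem allC_ip {R₁ R₂ : ℕ} (a b : ℝ) (x x' : Vec R₁) (y y' : Vec R₂) (c d : ℝ) :
    ip (a • bl₁ R₁ R₂ x + b • bl₂ R₁ R₂ y) (c • bl₁ R₁ R₂ x' + d • bl₂ R₁ R₂ y') =
      a * c * ip x x' + b * d * ip y y' := by
  simp only [ip_add_left, ip_add_right, ip_smul_left, ip_smul_right, ip_bl₁, ip_bl₂, ip_bl₁₂,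
    ip_bl₂₁]
  ring

/-- D11 -/
theorem st_allC (h1 : StNorm) (h2 : StSC) : StAll := by
  intro n X A
  classical
  induction X using Finset.induction_on with
  | empty =>
    intro _
    refine ⟨n, fun R hR S _ _ _ γ δ hC => ?_⟩
    obtain ⟨R₁, rfl⟩ : ∃ R₁, R = R₁ + n := ⟨R - n, by omega⟩
    refine ⟨fun v => bl₂ R₁ n (nu v), ⟨?_, ⟨fun v => bl₂ R₁ n (mud v), ?_⟩, ?_⟩⟩
    · intro v w _
      rw [ip_bl₂, ip_nu]
    · intro v w
      rw [ip_bl₂]
      exact dual_nu v w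
    · intro L hL
      exact absurd hL (Finset.notMem_empty _)
  | insert L X hLX ih =>
    intro hX
    obtain ⟨hdL, hgL, haL, heL⟩ := hX L (mem_insert_self _ _)
    have hX' : ∀ L' ∈ X, Down L' ∧ Good L' ∧
        (∀ v w, {v} ∈ L' → {w} ∈ L' → A v w → ({v, w} : Finset (Fin n)) ∈ L') ∧
        (∀ v w, ({v, w} : Finset (Fin n)) ∈ L' → A v w) :=
      fun L' h => hX L' (mem_insert_of_mem h)
    obtain ⟨a, ha⟩ := ih hX'
    obtain ⟨b, hb⟩ := h1 n L hdL hgL
    refine ⟨a + b, fun R hR S _ _ _ γ δ hC => ?_⟩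
    obtain ⟨R₂, rfl⟩ : ∃ R₂, R = a + R₂ := ⟨R - a, by omega⟩
    obtain ⟨γ₁, δ₁, hC₁, ho₁⟩ := clif_bl₁ hC
    obtain ⟨γ₂, δ₂, hC₂, ho₂⟩ := clif_bl₂ hC
    obtain ⟨E₁, hE₁⟩ := ha a le_rfl S γ₁ δ₁ hC₁
    obtain ⟨E₂, hE₂⟩ := hb R₂ (by omega) S γ₂ δ₂ hC₂
    obtain ⟨M₁, hM₁⟩ := hE₁.dual
    obtain ⟨M₂, hM₂⟩ := hE₂.dual
    -- orthogonality of the two configurations
    have hNA : ∀ v w, A v w → NAdj L v w := by
      rintro v w hA ⟨hv, hw, hvw⟩
      exact hvw (haL v w hv hw hA)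
    have hoA : ∀ v w, A v w → ip (E₁ v) (E₁ w) = 0 ∧ ip (E₂ v) (E₂ w) = 0 :=
      fun v w hA => ⟨hE₁.orth v w hA, hE₂.orth v w (hNA v w hA)⟩
    have hip : ∀ (c d : ℝ) v w, A v w →
        ip (c • bl₁ a R₂ (E₁ v) + d • bl₂ a R₂ (E₂ v))
          (c • bl₁ a R₂ (E₁ w) + d • bl₂ a R₂ (E₂ w)) = 0 := by
      intro c d v w hA
      rw [allC_ip, (hoA v w hA).1, (hoA v w hA).2, mul_zero, mul_zero, add_zero]
    -- the complex `L`
    have hfin₀ : {s : ℝ | ¬ ∀ j, Ex L ⊤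
        (fun v => opv γ δ (bl₂ a R₂ (E₂ v) + s • bl₁ a R₂ (E₁ v))) univ j}.Finite := by
      refine allC_fin h2 hC hdL (fun v => bl₂ a R₂ (E₂ v)) (fun v => bl₁ a R₂ (E₁ v))
        (fun v => bl₂ a R₂ (M₂ v)) ?_ ?_ ?_
      · intro s v w hvw
        have := hip s 1 v w (heL v w hvw)
        simp only [one_smul] at this
        rw [add_comm (bl₂ a R₂ (E₂ v)), add_comm (bl₂ a R₂ (E₂ w))]
        exact this
      · intro s v w
        rw [ip_add_left, ip_smul_left, ip_bl₂, ip_bl₁₂, mul_zero, add_zero]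
        exact hM₂ v w
      · intro j
        have h := hE₂.ex L (mem_singleton_self _) j
        simpa only [ho₂] using h
    -- the complexes of `X`
    have hfin : ∀ L' ∈ X, {t : ℝ | ¬ ∀ j, Ex L' ⊤
        (fun v => opv γ δ (bl₁ a R₂ (E₁ v) + t • bl₂ a R₂ (E₂ v))) univ j}.Finite := by
      intro L' hL'
      obtain ⟨hd', -, -, he'⟩ := hX' L' hL'
      refine allC_fin h2 hC hd' (fun v => bl₁ a R₂ (E₁ v)) (fun v => bl₂ a R₂ (E₂ v))
        (fun v => bl₁ a R₂ (M₁ v)) ?_ ?_ ?_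
      · intro s v w hvw
        have := hip 1 s v w (he' v w hvw)
        simp only [one_smul] at this
        exact this
      · intro s v w
        rw [ip_add_left, ip_smul_left, ip_bl₁, ip_bl₂₁, mul_zero, add_zero]
        exact hM₁ v w
      · intro j
        have h := hE₁.ex L' hL' j
        simpa only [ho₁] using h
    -- the parameter
    have hbad : (({0} : Set ℝ) ∪ {s : ℝ | ¬ ∀ j, Ex L ⊤
        (fun v => opv γ δ (bl₂ a R₂ (E₂ v) + s • bl₁ a R₂ (E₁ v))) univ j} ∪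
        ⋃ L' ∈ (X : Set (Finset (Finset (Fin n)))), Inv.inv ⁻¹' {t : ℝ | ¬ ∀ j, Ex L' ⊤
        (fun v => opv γ δ (bl₁ a R₂ (E₁ v) + t • bl₂ a R₂ (E₂ v))) univ j}).Finite := by
      refine ((Set.finite_singleton _).union hfin₀).union ?_
      refine X.finite_toSet.biUnion fun L' hL' => ?_
      exact (hfin L' hL').preimage inv_injective.injOn
    obtain ⟨s, hs⟩ := hbad.exists_notMem
    rw [Set.mem_union, Set.mem_union, not_or, not_or] at hs
    obtain ⟨⟨hs0, hsL⟩, hsX⟩ := hs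
    have hs0' : s ≠ 0 := fun h => hs0 (by simp [h])
    refine ⟨fun v => bl₂ a R₂ (E₂ v) + s • bl₁ a R₂ (E₁ v), ⟨?_, ⟨fun v => bl₂ a R₂ (M₂ v), ?_⟩,
      ?_⟩⟩
    · intro v w hA
      have := hip s 1 v w hA
      simp only [one_smul] at this
      rw [add_comm (bl₂ a R₂ (E₂ v)), add_comm (bl₂ a R₂ (E₂ w))]
      exact this
    · intro v w
      rw [ip_add_left, ip_smul_left, ip_bl₂, ip_bl₁₂, mul_zero, add_zero]
      exact hM₂ v w
    · intro L' hL' j
      rw [mem_insert] at hL'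
      rcases hL' with rfl | hL'
      · by_contra hno
        exact hsL fun hall => hno (hall j)
      · obtain ⟨hd', -, -, -⟩ := hX' L' hL'
        have hE : Ex L' ⊤
            (fun v => opv γ δ (bl₁ a R₂ (E₁ v) + s⁻¹ • bl₂ a R₂ (E₂ v))) univ j := by
          by_contra hno
          refine hsX ?_
          rw [Set.mem_iUnion₂]
          exact ⟨L', hL', fun hall => hno (hall j)⟩
        refine Ex_congr hd' (fun v _ x => ?_) hE
        have h3 : bl₂ a R₂ (E₂ v) + s • bl₁ a R₂ (E₁ v) =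
            s • (bl₁ a R₂ (E₁ v) + s⁻¹ • bl₂ a R₂ (E₂ v)) := by
          rw [smul_add, smul_smul, mul_inv_cancel₀ hs0', one_smul]
          exact add_comm _ _
        rw [h3, map_smul, LinearMap.smul_apply, smul_eq_zero]
        simp [hs0']

end Pool.Agent.H14.CL
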