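import Pool.Agent.H14.CL.Stm3

/-!
Project CL, row F10: one configuration for a family of pairs `(k, L)`.
-/

set_option autoImplicit false

namespace Pool.Agent.H14.CL

open Finset

/-- there are no chains above the number of vertices -/
theorem allK_triv {n : ℕ} {K S : Type} [Field K] [AddCommGroup S] [Module K S]
    (L : Finset (Finset (Fin n))) (U : Submodule K S) (e : Fin n → S →ₗ[K] S) {j : ℕ}
    (hj : n < j) : Ex L U e univ j := by
  intro x hx _
  have hx0 : x = 0 := by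
    funext G
    refine (hx G).2 fun h => ?_
    have h1 := Finset.card_le_univ G
    rw [Fintype.card_fin] at h1
    have h2 := h.2.2
    omega
  refine ⟨0, Submodule.zero_mem _, ?_⟩
  rw [map_zero, hx0]

/-- one parameter of vectors: exactness outside a finite set -/
theorem allK_fin (h2 : StSCK) {n R : ℕ} {S : Type} [NormedAddCommGroup S] [InnerProductSpace ℝ S]
    [FiniteDimensional ℝ S] {γ δ : (Fin R → ℝ) →ₗ[ℝ] S →ₗ[ℝ] S} (hC : Clif S γ δ) (k : ℕ)
    {L : Finset (Finset (Fin n))} (hL : Down L) (P Q N : Fin n → Vec R)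
    (hor : ∀ (s : ℝ) v w, ({v, w} : Finset (Fin n)) ∈ L → ip (P v + s • Q v) (P w + s • Q w) = 0)
    (hN : ∀ (s : ℝ) v w, ip (P w + s • Q w) (N v) = if v = w then 1 / 2 else 0)
    (hE : ∀ j, k ≤ j → Ex L ⊤ (fun v => opv γ δ (P v)) univ j) :
    {s : ℝ | ¬ ∀ j, k ≤ j → Ex L ⊤ (fun v => opv γ δ (P v + s • Q v)) univ j}.Finite := by
  have key : ∀ (s : ℝ) (v : Fin n), opv γ δ (P v) + s • opv γ δ (Q v) =
      opv γ δ (P v + s • Q v) := fun s v => by rw [map_add, map_smul]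
  have h : ∀ j ∈ Set.Icc k n,
      {s : ℝ | ¬ Ex L ⊤ (fun v => opv γ δ (P v + s • Q v)) univ j}.Finite := by
    intro j hj
    have h := h2 n j S L (fun v => opv γ δ (P v)) (fun v => opv γ δ (Q v)) hL ?_ ?_ (hE j hj.1)
    · simpa only [key] using h
    · intro s v w hvw x
      simp only [key]
      rw [opv_anti hC (hor s v w hvw), neg_add_cancel]
    · intro s
      simp only [key]
      exact kos_of_dual hC (E := fun v => P v + s • Q v) (M := N) hL (fun v w _ _ => hN s v w)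
  refine ((Set.finite_Icc k n).biUnion h).subset fun s hs => ?_
  obtain ⟨j, hj⟩ := not_forall.1 hs
  obtain ⟨hkj, hj⟩ := Classical.not_imp.1 hj
  rw [Set.mem_iUnion₂]
  refine ⟨j, ⟨hkj, ?_⟩, hj⟩
  by_contra hn
  exact hj (allK_triv L ⊤ _ (not_le.1 hn))

theorem allK_ip {R₁ R₂ : ℕ} (a b : ℝ) (x x' : Vec R₁) (y y' : Vec R₂) (c d : ℝ) :
    ip (a • bl₁ R₁ R₂ x + b • bl₂ R₁ R₂ y) (c • bl₁ R₁ R₂ x' + d • bl₂ R₁ R₂ y') =
      a * c * ip x x' + b * d * ip y y' := by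
  simp only [ip_add_left, ip_add_right, ip_smul_left, ip_smul_right, ip_bl₁, ip_bl₂, ip_bl₁₂,
    ip_bl₂₁]
  ring

/-- F10 -/
theorem st_allK (h1 : StNormK) (h2 : StSCK) : StAllK := by
  intro n X A
  classical
  induction X using Finset.induction_on with
  | empty =>
    intro _
    refine ⟨n, fun R hR S _ _ _ γ δ hC => ?_⟩
    obtain ⟨R₁, rfl⟩ : ∃ R₁, R = R₁ + n := ⟨R - n, by omega⟩
    refine ⟨fun v => bl₂ R₁ n (nu v), ⟨?_, ⟨fun v => bl₂ R₁ n (mud v), ?_⟩, ?_⟩⟩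
    · intro v w _
      rw [ip_bl₂, ip_nu]
    · intro v w
      rw [ip_bl₂]
      exact dual_nu v w
    · intro L hL
      exact absurd hL (Finset.notMem_empty _)
  | insert p X hpX ih =>
    obtain ⟨k, L⟩ := p
    intro hX
    obtain ⟨hdL, hgL, haL, heL⟩ := hX (k, L) (mem_insert_self _ _)
    dsimp only at hdL hgL haL heL
    have hX' : ∀ p ∈ X, Down p.2 ∧ GK p.1 p.2 ∧
        (∀ v w, {v} ∈ p.2 → {w} ∈ p.2 → A v w → ({v, w} : Finset (Fin n)) ∈ p.2) ∧
        (∀ v w, ({v, w} : Finset (Fin n)) ∈ p.2 → A v w) :=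
      fun p h => hX p (mem_insert_of_mem h)
    obtain ⟨a, ha⟩ := ih hX'
    obtain ⟨b, hb⟩ := h1 n k L hdL hgL
    refine ⟨a + b, fun R hR S _ _ _ γ δ hC => ?_⟩
    obtain ⟨R₂, rfl⟩ : ∃ R₂, R = a + R₂ := ⟨R - a, by omega⟩
    obtain ⟨γ₁, δ₁, hC₁, ho₁⟩ := clif_bl₁ hC
    obtain ⟨γ₂, δ₂, hC₂, ho₂⟩ := clif_bl₂ hC
    obtain ⟨E₁, hE₁⟩ := ha a le_rfl S γ₁ δ₁ hC₁
    obtain ⟨E₂, hE₂⟩ := hb R₂ (by omega) S γ₂ δ₂ hC₂
    obtain ⟨M₁, hM₁⟩ := hE₁.dual
    obtain ⟨M₂, hM₂⟩ := hE₂.dual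
    -- orthogonality of the two configurations
    have hNA : ∀ v w, A v w → NAdj L v w := by
      rintro v w hA ⟨hv, hw, hvw⟩
      exact hvw (haL v w hv hw hA)
    have hoA : ∀ v w, A v w → ip (E₁ v) (E₁ w) = 0 ∧ ip (E₂ v) (E₂ w) = 0 :=
      fun v w hA => ⟨hE₁.orth v w hA, hE₂.orth v w (hNA v w hA)⟩
    have hip : ∀ (c d : ℝ) v w, A v w →
        ip (c • bl₁ a R₂ (E₁ v) + d • bl₂ a R₂ (E₂ v))
          (c • bl₁ a R₂ (E₁ w) + d • bl₂ a R₂ (E₂ w)) = 0 := by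
      intro c d v w hA
      rw [allK_ip, (hoA v w hA).1, (hoA v w hA).2, mul_zero, mul_zero, add_zero]
    -- the complex `L`
    have hfin₀ : {s : ℝ | ¬ ∀ j, k ≤ j → Ex L ⊤
        (fun v => opv γ δ (bl₂ a R₂ (E₂ v) + s • bl₁ a R₂ (E₁ v))) univ j}.Finite := by
      refine allK_fin h2 hC k hdL (fun v => bl₂ a R₂ (E₂ v)) (fun v => bl₁ a R₂ (E₁ v))
        (fun v => bl₂ a R₂ (M₂ v)) ?_ ?_ ?_
      · intro s v w hvw
        have := hip s 1 v w (heL v w hvw)
        simp only [one_smul] at this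
        rw [add_comm (bl₂ a R₂ (E₂ v)), add_comm (bl₂ a R₂ (E₂ w))]
        exact this
      · intro s v w
        rw [ip_add_left, ip_smul_left, ip_bl₂, ip_bl₁₂, mul_zero, add_zero]
        exact hM₂ v w
      · intro j hj
        have h := hE₂.ex (k, L) (mem_singleton_self _) j hj
        simpa only [ho₂] using h
    -- the complexes of `X`
    have hfin : ∀ p ∈ X, {t : ℝ | ¬ ∀ j, p.1 ≤ j → Ex p.2 ⊤
        (fun v => opv γ δ (bl₁ a R₂ (E₁ v) + t • bl₂ a R₂ (E₂ v))) univ j}.Finite := by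
      intro p hp
      obtain ⟨hd', -, -, he'⟩ := hX' p hp
      refine allK_fin h2 hC p.1 hd' (fun v => bl₁ a R₂ (E₁ v)) (fun v => bl₂ a R₂ (E₂ v))
        (fun v => bl₁ a R₂ (M₁ v)) ?_ ?_ ?_
      · intro s v w hvw
        have := hip 1 s v w (he' v w hvw)
        simp only [one_smul] at this
        exact this
      · intro s v w
        rw [ip_add_left, ip_smul_left, ip_bl₁, ip_bl₂₁, mul_zero, add_zero]
        exact hM₁ v w
      · intro j hj
        have h := hE₁.ex p hp j hj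
        simpa only [ho₁] using h
    -- the parameter
    have hbad : (({0} : Set ℝ) ∪ {s : ℝ | ¬ ∀ j, k ≤ j → Ex L ⊤
        (fun v => opv γ δ (bl₂ a R₂ (E₂ v) + s • bl₁ a R₂ (E₁ v))) univ j} ∪
        ⋃ p ∈ (X : Set (ℕ × Finset (Finset (Fin n)))), Inv.inv ⁻¹' {t : ℝ | ¬ ∀ j, p.1 ≤ j →
        Ex p.2 ⊤ (fun v => opv γ δ (bl₁ a R₂ (E₁ v) + t • bl₂ a R₂ (E₂ v))) univ j}).Finite := by
      refine ((Set.finite_singleton _).union hfin₀).union ?_
      refine X.finite_toSet.biUnion fun p hp => ?_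
      exact (hfin p hp).preimage inv_injective.injOn
    obtain ⟨s, hs⟩ := hbad.exists_notMem
    rw [Set.mem_union, Set.mem_union, not_or, not_or] at hs
    obtain ⟨⟨hs0, hsL⟩, hsX⟩ := hs
    have hs0' : s ≠ 0 := fun h => hs0 (by simp [h])
    refine ⟨fun v => bl₂ a R₂ (E₂ v) + s • bl₁ a R₂ (E₁ v), ⟨?_, ⟨fun v => bl₂ a R₂ (M₂ v), ?_⟩,
      ?_⟩⟩
    · intro v w hA
      have := hip s 1 v w hA
      simp only [one_smul] at this
      rw [add_comm (bl₂ a R₂ (E₂ v)), add_comm (bl₂ a R₂ (E₂ w))]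
      exact this
    · intro v w
      rw [ip_add_left, ip_smul_left, ip_bl₂, ip_bl₁₂, mul_zero, add_zero]
      exact hM₂ v w
    · intro p hp j hj
      rw [mem_insert] at hp
      rcases hp with rfl | hp
      · by_contra hno
        exact hsL fun hall => hno (hall j hj)
      · obtain ⟨hd', -, -, -⟩ := hX' p hp
        have hE : Ex p.2 ⊤
            (fun v => opv γ δ (bl₁ a R₂ (E₁ v) + s⁻¹ • bl₂ a R₂ (E₂ v))) univ j := by
          by_contra hno
          refine hsX ?_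
          rw [Set.mem_iUnion₂]
          exact ⟨p, hp, fun hall => hno (hall j hj)⟩
        refine Ex_congr hd' (fun v _ x => ?_) hE
        have h3 : bl₂ a R₂ (E₂ v) + s • bl₁ a R₂ (E₁ v) =
            s • (bl₁ a R₂ (E₁ v) + s⁻¹ • bl₂ a R₂ (E₂ v)) := by
          rw [smul_add, smul_smul, mul_inv_cancel₀ hs0', one_smul]
          exact add_comm _ _
        rw [h3, map_smul, LinearMap.smul_apply, smul_eq_zero]
        simp [hs0']

end Pool.Agent.H14.CL
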