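import Pool.Agent.H14.CL.Stm2

/-!
Project CL: vectors of `ℝ^{R,R}`, orthogonal blocks, fresh null vectors, duals.
-/

set_option autoImplicit false

namespace Pool.Agent.H14.CL

open Finset

variable {R : ℕ}

theorem ip_comm (x y : Vec R) : ip x y = ip y x := by
  rw [ip, ip, dotProduct_comm x.1, dotProduct_comm x.2]

theorem ip_add_left (x y z : Vec R) : ip (x + y) z = ip x z + ip y z := by
  simp only [ip, Prod.fst_add, Prod.snd_add, add_dotProduct]; ring

theorem ip_add_right (x y z : Vec R) : ip x (y + z) = ip x y + ip x z := by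
  simp only [ip, Prod.fst_add, Prod.snd_add, dotProduct_add]; ring

theorem ip_smul_left (c : ℝ) (x y : Vec R) : ip (c • x) y = c * ip x y := by
  simp only [ip, Prod.smul_fst, Prod.smul_snd, smul_dotProduct, smul_eq_mul]; ring

theorem ip_smul_right (c : ℝ) (x y : Vec R) : ip x (c • y) = c * ip x y := by
  simp only [ip, Prod.smul_fst, Prod.smul_snd, dotProduct_smul, smul_eq_mul]; ring

theorem ip_zero_left (x : Vec R) : ip 0 x = 0 := by simp [ip]

theorem ip_zero_right (x : Vec R) : ip x 0 = 0 := by simp [ip]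

theorem ip_neg_left (x y : Vec R) : ip (-x) y = - ip x y := by
  simp only [ip, Prod.fst_neg, Prod.snd_neg, neg_dotProduct]; ring

theorem ip_neg_right (x y : Vec R) : ip x (-y) = - ip x y := by
  simp only [ip, Prod.fst_neg, Prod.snd_neg, dotProduct_neg]; ring

theorem ip_sub_left (x y z : Vec R) : ip (x - y) z = ip x z - ip y z := by
  rw [sub_eq_add_neg, ip_add_left, ip_neg_left]; ring

theorem ip_sub_right (x y z : Vec R) : ip x (y - z) = ip x y - ip x z := by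
  rw [sub_eq_add_neg, ip_add_right, ip_neg_right]; ring

section cliff

variable {S : Type} [NormedAddCommGroup S] [InnerProductSpace ℝ S]
  {γ δ : (Fin R → ℝ) →ₗ[ℝ] S →ₗ[ℝ] S}

/-- the Clifford relation -/
theorem opv_rel (hC : Clif S γ δ) (x y : Vec R) (t : S) :
    opv γ δ x (opv γ δ y t) + opv γ δ y (opv γ δ x t) = (2 * ip x y) • t := by
  simp only [opv_apply, map_add]
  have h1 := hC.gg x.1 y.1 t
  have h2 := hC.dd x.2 y.2 t
  have h3 := hC.gd x.1 y.2 t
  have h4 := hC.gd y.1 x.2 t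
  have h5 : (2 * ip x y) • t = (2 * (x.1 ⬝ᵥ y.1)) • t + (-2 * (x.2 ⬝ᵥ y.2)) • t := by
    rw [← add_smul, ip]; congr 1; ring
  rw [h5, ← h1, ← h2]
  have h6 : γ x.1 (δ y.2 t) = - δ y.2 (γ x.1 t) := eq_neg_of_add_eq_zero_left h3
  have h7 : γ y.1 (δ x.2 t) = - δ x.2 (γ y.1 t) := eq_neg_of_add_eq_zero_left h4
  rw [h6, h7]
  abel

theorem opv_anti (hC : Clif S γ δ) {x y : Vec R} (h : ip x y = 0) (t : S) :
    opv γ δ x (opv γ δ y t) = - opv γ δ y (opv γ δ x t) := by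
  have h1 := opv_rel hC x y t
  rw [h, mul_zero, zero_smul] at h1
  exact eq_neg_of_add_eq_zero_left h1

theorem opv_sq (hC : Clif S γ δ) {x : Vec R} (h : ip x x = 0) (t : S) :
    opv γ δ x (opv γ δ x t) = 0 := by
  have h1 := opv_rel hC x x t
  rw [h, mul_zero, zero_smul, ← two_smul ℝ] at h1
  exact (smul_eq_zero.mp h1).resolve_left (by norm_num)

theorem opv_half (hC : Clif S γ δ) {x y : Vec R} (h : ip x y = 1 / 2) (t : S) :
    opv γ δ x (opv γ δ y t) + opv γ δ y (opv γ δ x t) = t := by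
  rw [opv_rel hC x y t, h]
  norm_num

/-- duals give the exactness of the local complexes -/
theorem kos_of_dual {n : ℕ} (hC : Clif S γ δ) {L : Finset (Finset (Fin n))}
    {E M : Fin n → Vec R} (hL : Down L)
    (hM : ∀ v w, {v} ∈ L → {w} ∈ L → ip (E w) (M v) = if v = w then 1 / 2 else 0) :
    ∀ F u, u ∉ F → insert u F ∈ L → ∀ x ∈ KK ⊤ (fun v => opv γ δ (E v)) F,
      opv γ δ (E u) x = 0 → ∃ y ∈ KK ⊤ (fun v => opv γ δ (E v)) F, opv γ δ (E u) y = x := by
  intro F u hu hF x hx hux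
  have hv : ∀ v ∈ insert u F, {v} ∈ L := fun v hv => hL _ hF _ (singleton_subset_iff.2 hv)
  have hu' := hv u (mem_insert_self _ _)
  refine ⟨opv γ δ (M u) x, ⟨trivial, fun f hf => ?_⟩, ?_⟩
  · have hfu : u ≠ f := fun h => hu (h ▸ hf)
    have h1 := hM u f hu' (hv f (mem_insert_of_mem hf))
    rw [if_neg hfu] at h1
    change opv γ δ (E f) (opv γ δ (M u) x) = 0
    rw [opv_anti hC h1]
    have h2 : opv γ δ (E f) x = 0 := hx.2 f hf
    rw [h2, map_zero, neg_zero]
  · have h1 := hM u u hu' hu'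
    rw [if_pos rfl] at h1
    have h2 := opv_half hC h1 x
    rw [hux, map_zero, add_zero] at h2
    exact h2

end cliff

/-! ### blocks -/

/-- first block -/
def bl₁ (R₁ R₂ : ℕ) : Vec R₁ →ₗ[ℝ] Vec (R₁ + R₂) where
  toFun x := (Fin.append x.1 0, Fin.append x.2 0)
  map_add' := by
    intro x y
    refine Prod.ext ?_ ?_ <;> funext i <;> refine Fin.addCases (fun j => ?_) (fun j => ?_) i <;>
      simp
  map_smul' := by
    intro c x
    refine Prod.ext ?_ ?_ <;> funext i <;> refine Fin.addCases (fun j => ?_) (fun j => ?_) i <;>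
      simp

/-- second block -/
def bl₂ (R₁ R₂ : ℕ) : Vec R₂ →ₗ[ℝ] Vec (R₁ + R₂) where
  toFun x := (Fin.append 0 x.1, Fin.append 0 x.2)
  map_add' := by
    intro x y
    refine Prod.ext ?_ ?_ <;> funext i <;> refine Fin.addCases (fun j => ?_) (fun j => ?_) i <;>
      simp
  map_smul' := by
    intro c x
    refine Prod.ext ?_ ?_ <;> funext i <;> refine Fin.addCases (fun j => ?_) (fun j => ?_) i <;>
      simp

theorem ip_bl₁ (R₁ R₂ : ℕ) (x y : Vec R₁) : ip (bl₁ R₁ R₂ x) (bl₁ R₁ R₂ y) = ip x y := by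
  simp [ip, bl₁, dotProduct, Fin.sum_univ_add]

theorem ip_bl₂ (R₁ R₂ : ℕ) (x y : Vec R₂) : ip (bl₂ R₁ R₂ x) (bl₂ R₁ R₂ y) = ip x y := by
  simp [ip, bl₂, dotProduct, Fin.sum_univ_add]

theorem ip_bl₁₂ (R₁ R₂ : ℕ) (x : Vec R₁) (y : Vec R₂) :
    ip (bl₁ R₁ R₂ x) (bl₂ R₁ R₂ y) = 0 := by
  simp [ip, bl₁, bl₂, dotProduct, Fin.sum_univ_add]

theorem ip_bl₂₁ (R₁ R₂ : ℕ) (x : Vec R₂) (y : Vec R₁) :
    ip (bl₂ R₁ R₂ x) (bl₁ R₁ R₂ y) = 0 := by
  simp [ip, bl₁, bl₂, dotProduct, Fin.sum_univ_add]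

/-- the first block of a Clifford module -/
theorem clif_bl₁ {R₁ R₂ : ℕ} {S : Type} [NormedAddCommGroup S] [InnerProductSpace ℝ S]
    {γ δ : (Fin (R₁ + R₂) → ℝ) →ₗ[ℝ] S →ₗ[ℝ] S} (hC : Clif S γ δ) :
    ∃ γ' δ' : (Fin R₁ → ℝ) →ₗ[ℝ] S →ₗ[ℝ] S, Clif S γ' δ' ∧
      ∀ x, opv γ' δ' x = opv γ δ (bl₁ R₁ R₂ x) := by
  let a : (Fin R₁ → ℝ) →ₗ[ℝ] (Fin (R₁ + R₂) → ℝ) :=
    { toFun := fun x => Fin.append x 0
      map_add' := by
        intro x y
        funext i
        refine Fin.addCases (fun j => ?_) (fun j => ?_) i <;> simp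
      map_smul' := by
        intro c x
        funext i
        refine Fin.addCases (fun j => ?_) (fun j => ?_) i <;> simp }
  have ha : ∀ x y, a x ⬝ᵥ a y = x ⬝ᵥ y := by
    intro x y
    simp [a, dotProduct, Fin.sum_univ_add]
  refine ⟨γ ∘ₗ a, δ ∘ₗ a, ⟨?_, ?_, ?_, ?_, ?_⟩, ?_⟩
  · intro p p' x
    simpa [ha] using hC.gg (a p) (a p') x
  · intro p p' x
    simpa [ha] using hC.dd (a p) (a p') x
  · intro p q x
    exact hC.gd (a p) (a q) x
  · intro p x y
    exact hC.ga (a p) x y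
  · intro p x y
    exact hC.da (a p) x y
  · intro x
    refine LinearMap.ext fun t => ?_
    rw [opv_apply, opv_apply]
    rfl

/-- the second block of a Clifford module -/
theorem clif_bl₂ {R₁ R₂ : ℕ} {S : Type} [NormedAddCommGroup S] [InnerProductSpace ℝ S]
    {γ δ : (Fin (R₁ + R₂) → ℝ) →ₗ[ℝ] S →ₗ[ℝ] S} (hC : Clif S γ δ) :
    ∃ γ' δ' : (Fin R₂ → ℝ) →ₗ[ℝ] S →ₗ[ℝ] S, Clif S γ' δ' ∧
      ∀ x, opv γ' δ' x = opv γ δ (bl₂ R₁ R₂ x) := by
  let a : (Fin R₂ → ℝ) →ₗ[ℝ] (Fin (R₁ + R₂) → ℝ) :=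
    { toFun := fun x => Fin.append 0 x
      map_add' := by
        intro x y
        funext i
        refine Fin.addCases (fun j => ?_) (fun j => ?_) i <;> simp
      map_smul' := by
        intro c x
        funext i
        refine Fin.addCases (fun j => ?_) (fun j => ?_) i <;> simp }
  have ha : ∀ x y, a x ⬝ᵥ a y = x ⬝ᵥ y := by
    intro x y
    simp [a, dotProduct, Fin.sum_univ_add]
  refine ⟨γ ∘ₗ a, δ ∘ₗ a, ⟨?_, ?_, ?_, ?_, ?_⟩, ?_⟩
  · intro p p' x
    simpa [ha] using hC.gg (a p) (a p') x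
  · intro p p' x
    simpa [ha] using hC.dd (a p) (a p') x
  · intro p q x
    exact hC.gd (a p) (a q) x
  · intro p x y
    exact hC.ga (a p) x y
  · intro p x y
    exact hC.da (a p) x y
  · intro x
    refine LinearMap.ext fun t => ?_
    rw [opv_apply, opv_apply]
    rfl

/-! ### fresh null vectors -/

/-- null vectors -/
def nu {n : ℕ} (v : Fin n) : Vec n := (Pi.single v 1, Pi.single v 1)

/-- their duals -/
noncomputable def mud {n : ℕ} (v : Fin n) : Vec n := (Pi.single v (1 / 4), Pi.single v (-1 / 4))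

theorem ip_nu {n : ℕ} (v w : Fin n) : ip (nu v) (nu w) = 0 := by
  simp [ip, nu]

theorem ip_mud {n : ℕ} (v w : Fin n) : ip (mud v) (mud w) = 0 := by
  rcases eq_or_ne v w with rfl | h
  · simp [ip, mud]; norm_num
  · simp [ip, mud, Pi.single_eq_of_ne h.symm]

theorem ip_nu_mud {n : ℕ} (v w : Fin n) : ip (nu w) (mud v) = if v = w then 1 / 2 else 0 := by
  rcases eq_or_ne v w with rfl | h
  · simp [ip, nu, mud]; norm_num
  · simp [ip, nu, mud, h]

theorem dual_nu {n : ℕ} : Dual (nu : Fin n → Vec n) mud := fun v w => ip_nu_mud v w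

/-! ### exactness depends only on the operators of the vertices -/

theorem KK_congr {n : ℕ} {K S : Type} [Field K] [AddCommGroup S] [Module K S]
    {U : Submodule K S} {e e' : Fin n → S →ₗ[K] S} {G : Finset (Fin n)}
    (h : ∀ v ∈ G, ∀ x, e v x = 0 ↔ e' v x = 0) : KK U e G = KK U e' G := by
  ext x
  rw [mem_KK, mem_KK]
  exact and_congr_right fun _ => forall_congr' fun v => forall_congr' fun hv => h v hv x

theorem Ch_congr {n : ℕ} {K S : Type} [Field K] [AddCommGroup S] [Module K S]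
    {L : Finset (Finset (Fin n))} (hL : Down L) {U : Submodule K S}
    {e e' : Fin n → S →ₗ[K] S}
    (h : ∀ v, {v} ∈ L → ∀ x, e v x = 0 ↔ e' v x = 0) (A : Finset (Fin n)) (j : ℕ) :
    Ch L U e A j = Ch L U e' A j := by
  ext x
  rw [mem_Ch, mem_Ch]
  refine forall_congr' fun G => ?_
  by_cases hG : G ∈ L ∧ G ⊆ A ∧ G.card = j
  · rw [KK_congr fun v hv => h v (hL _ hG.1 _ (singleton_subset_iff.2 hv))]
  · constructor
    · rintro ⟨_, h2⟩
      exact ⟨by rw [h2 hG]; exact Submodule.zero_mem _, h2⟩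
    · rintro ⟨_, h2⟩
      exact ⟨by rw [h2 hG]; exact Submodule.zero_mem _, h2⟩

theorem Ex_congr {n : ℕ} {K S : Type} [Field K] [AddCommGroup S] [Module K S]
    {L : Finset (Finset (Fin n))} (hL : Down L) {U : Submodule K S}
    {e e' : Fin n → S →ₗ[K] S}
    (h : ∀ v, {v} ∈ L → ∀ x, e v x = 0 ↔ e' v x = 0) {A : Finset (Fin n)} {j : ℕ}
    (hE : Ex L U e A j) : Ex L U e' A j := by
  intro x hx hx0
  rw [← Ch_congr hL h] at hx
  obtain ⟨y, hy, hyx⟩ := hE x hx hx0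
  exact ⟨y, by rw [← Ch_congr hL h]; exact hy, hyx⟩

end Pool.Agent.H14.CL
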