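import Pool.Agent.H14.CL.All

/-!
Project CL: the inequality for all links of a complex with a spectral certificate.
-/

set_option autoImplicit false

namespace Pool.Agent.H14.CL

open Finset

theorem lkF_empty {n : ℕ} (Δ : Finset (Finset (Fin n))) : lkF Δ ∅ = Δ := by
  ext G
  simp [mem_lkF]

/-- the inequality for all links of faces -/
theorem cd_links {n : ℕ} {S : Type} [AddCommGroup S] [Module ℝ S] [FiniteDimensional ℝ S]
    {e : Fin n → S →ₗ[ℝ] S} {B : Fin n → Fin n → ℝ} (F : Finset (Fin n)) :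
    ∀ (Δ : Finset (Finset (Fin n))) (U : Submodule ℝ S) (h : S →ₗ[ℝ] S →ₗ[ℝ] ℝ)
      (ε : Finset (Fin n) → ℝ) (d m : ℕ), Dat Δ U e B h ε d → Neg Δ B d → Pos Δ U e h ε d →
      U ≠ ⊥ → F ∈ Δ → F.card + 2 * m = d →
      0 ≤ (-1 : ℤ) ^ m * ∑ G ∈ lkF Δ F, (-1 : ℤ) ^ G.card * 2 ^ (2 * m - G.card) := by
  induction F using Finset.induction_on with
  | empty =>
    intro Δ U h ε d m D hn hp hU _ hd
    rw [card_empty, zero_add] at hd
    subst hd
    rw [lkF_empty]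
    exact main_all n S Δ U e B h ε m D hn hp hU
  | insert u F huF ih =>
    intro Δ U h ε d m D hn hp hU hF hd
    rw [card_insert_of_notMem huF] at hd
    obtain ⟨d', rfl⟩ : ∃ d', d = d' + 1 := ⟨d - 1, by omega⟩
    have hu : {u} ∈ Δ := D.sph.down _ hF _ (by simp)
    obtain ⟨h', hh⟩ := st_hu n ℝ S Δ U e B h ε d' D u hu
    have D' := st_datLk st_sphLk n ℝ S Δ U e B h ε d' D u hu h' hh
    have hn' := st_negLk n ℝ Δ ε B d' D.sph hn u hu
    have hp' := st_posLk n S Δ U e B h ε d' D hp u hu h' hh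
    have hU' : KK U e {u} ≠ ⊥ := by
      intro h0
      apply hU
      rw [Submodule.eq_bot_iff]
      intro x hx
      have h1 : e u x ∈ KK U e {u} := ⟨D.inv u hu x hx, fun z hz => by
        rw [mem_singleton.1 hz]; exact D.sq u hu x hx⟩
      rw [h0, Submodule.mem_bot] at h1
      have h2 : x ∈ KK U e {u} := ⟨hx, fun z hz => by rw [mem_singleton.1 hz]; exact h1⟩
      rw [h0, Submodule.mem_bot] at h2
      exact h2
    have h3 := ih (lk Δ u) (KK U e {u}) h' (eps ε u) d' m D' hn' hp' hU'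
      ((mem_lk' D.sph.dn).2 ⟨huF, hF⟩) (by omega)
    rw [lkF_lk D.sph.dn huF] at h3
    exact h3

/-- the spectral condition gives the inequality for all links -/
theorem spectral_links {n d : ℕ} {Δ : Finset (Finset (Fin n))} {ε : Finset (Fin n) → ℝ}
    (hS : Sph ℝ Δ ε d) (W : Matrix (Fin n) (Fin n) ℝ) (hW : W.IsHermitian)
    (h0 : ∀ u v, ({u, v} : Finset (Fin n)) ∈ Δ → W u v = 0)
    (hpos : ∀ F ∈ Δ, F.card < d → ∃ v, v ∉ F ∧ insert v F ∈ Δ ∧
      ∀ u, u ∉ F → insert u F ∈ Δ → ({u, v} : Finset (Fin n)) ∉ Δ → 0 < W u v)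
    (hneg : (univ.filter (fun i => hW.eigenvalues i < 0)).card ≤ d)
    (F : Finset (Fin n)) (hF : F ∈ Δ) (m : ℕ) (hm : F.card + 2 * m = d) :
    0 ≤ (-1 : ℤ) ^ m * ∑ G ∈ lkF Δ F, (-1 : ℤ) ^ G.card * 2 ^ (2 * m - G.card) := by
  obtain ⟨p, q, hpq⟩ := st_spec n d W hW hneg
  obtain ⟨e, B, h, ε', D, hn, hp⟩ := tight_all n d n Δ ε hS p q
    (fun v w hvw => by
      have := hpq v w
      rw [h0 v w hvw] at this
      linarith)
    (fun F hF hFd => by
      obtain ⟨v, hv1, hv2, hv3⟩ := hpos F hF hFd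
      refine ⟨v, hv1, hv2, fun u hu1 hu2 hu3 => ?_⟩
      have h1 := hv3 u hu1 hu2 hu3
      have h2 := hpq u v
      change p u ⬝ᵥ p v - q u ⬝ᵥ q v < 0
      linarith)
  refine cd_links F Δ ⊤ h ε' d m D hn hp ?_ hF hm
  intro h1
  have h2 : (EuclideanSpace.single ∅ (1 : ℝ) : SS d n) ∈ (⊤ : Submodule ℝ (SS d n)) :=
    Submodule.mem_top
  rw [h1, Submodule.mem_bot] at h2
  have h3 := congrFun (congrArg (fun z : SS d n => z.ofLp) h2) ∅
  simp at h3

end Pool.Agent.H14.CL
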