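import Pool.Agent.H14.CL.Stm4
import Pool.Agent.H14.CL.Core

/-!
Project CL: the classes `B(k)`, their soundness.
-/

set_option autoImplicit false

namespace Pool.Agent.H14.CL

open Finset

/-- The classes `B(k)` of finite complexes on the label set `Fin n`. -/
inductive Bk {n : ℕ} : ℕ → Finset (Finset (Fin n)) → Prop
  /-- the classes increase -/
  | mono {k k' : ℕ} {L : Finset (Finset (Fin n))} : Bk k L → k ≤ k' → Bk k' L
  /-- flag homology spheres of dimensions 0 and 2 -/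
  | low {L : Finset (Finset (Fin n))} : (FS 1 L ∨ FS 3 L) → Bk 0 L
  /-- a proper colouring `c` with signs `σ` of the vertices: for every choice `η` of a sign for
  every colour the full subcomplex on the vertices `v` with `σ v = η (c v)` has no reduced real
  homology in dimensions `≥ k - 1` -/
  | col {k N : ℕ} {L : Finset (Finset (Fin n))} (c : Fin n → Fin N) (σ : Fin n → Bool) :
      Down L → (∀ u v, ({u, v} : Finset (Fin n)) ∈ L → u ≠ v → c u ≠ c v) →
      (∀ η : Fin N → Bool, ∀ m, k ≤ m →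
        Acy (ful L (univ.filter (fun v => σ v = η (c v)))) m) → Bk k L
  /-- spheres with a spectral certificate -/
  | spec {d : ℕ} {L : Finset (Finset (Fin n))} (W : Matrix (Fin n) (Fin n) ℝ)
      (hW : W.IsHermitian) : FS d L →
      (∀ u v, ({u, v} : Finset (Fin n)) ∈ L → W u v = 0) →
      (∀ F ∈ L, F.card < d → ∃ v, v ∉ F ∧ insert v F ∈ L ∧
        ∀ u, u ∉ F → insert u F ∈ L → ({u, v} : Finset (Fin n)) ∉ L → 0 < W u v) →
      (univ.filter (fun i => hW.eigenvalues i < 0)).card ≤ d →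
      Bk (if Odd d then 0 else d / 2 + 1) L
  /-- adding a vertex -/
  | add {k : ℕ} {L : Finset (Finset (Fin n))} {v : Fin n} : Down L → Flag L → {v} ∈ L →
      Bk (k - 1) (lk L v) → Bk k (dl L v) → Bk k L
  /-- deleting a vertex -/
  | del {k : ℕ} {L : Finset (Finset (Fin n))} {v : Fin n} : Down L → Flag L → {v} ∈ L →
      Bk k (lk L v) → Bk k L → Bk k (dl L v)
  /-- gluing two full subcomplexes -/
  | glue {k : ℕ} {L : Finset (Finset (Fin n))} {A₁ A₂ : Finset (Fin n)} : Down L → Flag L →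
      (∀ a b, ({a, b} : Finset (Fin n)) ∈ L → (a ∈ A₁ ∧ b ∈ A₁) ∨ (a ∈ A₂ ∧ b ∈ A₂)) →
      Bk k (ful L A₁) → Bk k (ful L A₂) → Bk (k - 1) (ful L (A₁ ∩ A₂)) → Bk k L
  /-- splitting a vertex: the edge `{u, v}` of `L` is contracted -/
  | split {k : ℕ} {L : Finset (Finset (Fin n))} {u v : Fin n} : Down L → Flag L → u ≠ v →
      ({u, v} : Finset (Fin n)) ∈ L → Bk k (contr L u v) → Bk (k - 1) (lk (lk L u) v) → Bk k L
  /-- local to global -/
  | loc {m : ℕ} {L : Finset (Finset (Fin n))} : Down L → Flag L → (∀ F ∈ L, F.card ≤ 2 * m) →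
      (∀ F ∈ L, Odd F.card → Bk 0 (lkF L F)) → Bk (m + 1) L
  /-- duality -/
  | dual {d k : ℕ} {L : Finset (Finset (Fin n))} : FS d L → 2 * k ≤ d + 1 → Bk k L → Bk 0 L
  /-- Euler characteristic zero -/
  | euler {m : ℕ} {L : Finset (Finset (Fin n))} : FS (2 * m) L →
      ∑ F ∈ L, (-1 : ℤ) ^ F.card * 2 ^ (2 * m - F.card) = 0 → Bk (m + 1) L → Bk 0 L

/-- all rows used for the soundness -/
structure AllK : Prop where
  low : StFS3
  col : StColG
  hom : StHomRank
  spec : StSpecGK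
  add : StAddGK
  del : StDelGK
  glue : StGlueGK
  split : StSplitGK
  loc : StLocG
  dual : StDualG
  euler : StEulerG

theorem FS.sph {n d : ℕ} {L : Finset (Finset (Fin n))} (h : FS d L) :
    ∃ ε : Finset (Fin n) → ℝ, Sph ℝ L ε d :=
  rankSph_all n ℝ L d h.1 h.2.1 h.2.2.1 h.2.2.2.1 h.2.2.2.2

theorem down_ful {n : ℕ} {L : Finset (Finset (Fin n))} (hL : Down L) (A : Finset (Fin n)) :
    Down (ful L A) := by
  intro F hF G hG
  rw [ful, mem_filter] at hF ⊢
  exact ⟨hL F hF.1 G hG, hG.trans hF.2⟩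

theorem GK.mono {n k k' : ℕ} {L : Finset (Finset (Fin n))} (h : GK k L) (hk : k ≤ k') :
    GK k' L := by
  obtain ⟨R₀, hR⟩ := h
  refine ⟨R₀, fun R hRR S _ _ _ γ δ hC => ?_⟩
  obtain ⟨E, hE⟩ := hR R hRR S γ δ hC
  refine ⟨E, hE.orth, hE.dual, ?_⟩
  intro p hp j hj
  rw [mem_singleton] at hp
  subst hp
  exact hE.ex (k, L) (mem_singleton_self _) j (hk.trans hj)

theorem Bk.sound (H : AllK) {n k : ℕ} {L : Finset (Finset (Fin n))} (h : Bk k L) :
    GK k L := by
  induction h with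
  | mono _ hk ih => exact ih.mono hk
  | low h => exact H.low n _ h
  | @col k N L c σ hd hc ha =>
    exact H.col n N k L c σ hd hc fun η j hj =>
      H.hom n j _ (down_ful hd _) (ha η j hj)
  | @spec d L W hW hS h0 hp hn =>
    obtain ⟨ε, hε⟩ := hS.sph
    exact H.spec n d L ε hε W hW h0 hp hn
  | @add k L v hd hf hv _ _ ih1 ih2 => exact H.add n k L v hd hf hv ih1 ih2
  | @del k L v hd hf hv _ _ ih1 ih2 => exact H.del n k L v hd hf hv ih1 ih2
  | @glue k L A₁ A₂ hd hf ha _ _ _ ih1 ih2 ih3 => exact H.glue n k L A₁ A₂ hd hf ha ih1 ih2 ih3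
  | @split k L u v hd hf huv he _ _ ih1 ih2 => exact H.split n k L u v hd hf huv he ih1 ih2
  | @loc m L hd hf hc _ ih =>
    exact H.loc n m L hd hf (hf ∅ (by simp)) hc ih
  | @dual d k L hS hk _ ih =>
    obtain ⟨ε, hε⟩ := hS.sph
    exact H.dual n d k L ε hε ih hk
  | @euler m L hS h0 _ ih =>
    obtain ⟨ε, hε⟩ := hS.sph
    exact H.euler n m L ε hε ih h0

end Pool.Agent.H14.CL
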