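import Pool.Agent.H14.CL.ColGA

/-!
Project CL, row F11: coloured complexes.
-/

set_option autoImplicit false

namespace Pool.Agent.H14.CL

open Finset

/-- the hyperbolic null vectors -/
noncomputable def pvc {m : ℕ} (v : Fin m) (b : Bool) : Vec m := if b then nu v else mud v

theorem pvc_ip {m : ℕ} (v w : Fin m) (b b' : Bool) :
    ip (pvc v b) (pvc w b') = if v = w ∧ b ≠ b' then 1 / 2 else 0 := by
  cases b <;> cases b'
  · simp [pvc, ip_mud]
  · have h : ip (mud v) (nu w) = if v = w then 1 / 2 else 0 := by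
      rw [ip_comm, ip_nu_mud]
    simp [pvc, h]
  · have h : ip (nu v) (mud w) = if v = w then 1 / 2 else 0 := by
      rw [ip_nu_mud]
      exact if_congr eq_comm rfl rfl
    simp [pvc, h]
  · simp [pvc, ip_nu]

theorem pvc_same {m : ℕ} (v w : Fin m) (b : Bool) : ip (pvc v b) (pvc w b) = 0 := by
  rw [pvc_ip, if_neg fun h => h.2 rfl]

theorem pvc_ne {m : ℕ} {v w : Fin m} (h : v ≠ w) (b b' : Bool) :
    ip (pvc v b) (pvc w b') = 0 := by
  rw [pvc_ip, if_neg fun h' => h h'.1]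

theorem pvc_dual {m : ℕ} (v : Fin m) (b : Bool) : ip (pvc v b) (pvc v (!b)) = 1 / 2 := by
  rw [pvc_ip, if_pos]
  exact ⟨rfl, by cases b <;> decide⟩

theorem colGK_ip {R₁ n : ℕ} (x y : Vec R₁) (s t : ℝ) (v w : Fin n) :
    ip (bl₁ R₁ n x + s • bl₂ R₁ n (nu v)) (bl₁ R₁ n y + t • bl₂ R₁ n (nu w)) = ip x y := by
  simp only [ip_add_left, ip_add_right, ip_smul_left, ip_smul_right, ip_bl₁, ip_bl₁₂, ip_bl₂₁,
    ip_bl₂, ip_nu]
  ring

theorem colGK_dual {R₁ n : ℕ} (x : Vec R₁) {s : ℝ} (hs : s ≠ 0) (v w : Fin n) :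
    ip (bl₁ R₁ n x + s • bl₂ R₁ n (nu w)) (s⁻¹ • bl₂ R₁ n (mud v)) =
      if v = w then 1 / 2 else 0 := by
  simp only [ip_add_left, ip_smul_left, ip_smul_right, ip_bl₁₂, ip_bl₂, ip_nu_mud]
  rw [zero_add, ← mul_assoc, inv_mul_cancel₀ hs, one_mul]

/-- exactness in large degrees -/
theorem colGK_big {n : ℕ} {S : Type} [AddCommGroup S] [Module ℝ S]
    (L : Finset (Finset (Fin n))) (U : Submodule ℝ S) (e : Fin n → S →ₗ[ℝ] S) (j : ℕ)
    (hj : n < j) : Ex L U e univ j := by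
  intro x hx _
  have h1 : x = 0 := by
    funext G
    refine (hx G).2 fun h => ?_
    have h2 := card_le_univ G
    rw [Fintype.card_fin, h.2.2] at h2
    omega
  exact ⟨0, Submodule.zero_mem _, by rw [h1, map_zero]⟩

/-- a configuration exact at `s = 0` can be deformed to one with duals -/
theorem colGK_deform (h1 : StSCK) {n k R₁ : ℕ} {S : Type} [NormedAddCommGroup S]
    [InnerProductSpace ℝ S] [FiniteDimensional ℝ S]
    {γ δ : (Fin (R₁ + n) → ℝ) →ₗ[ℝ] S →ₗ[ℝ] S} (hC : Clif S γ δ)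
    {L : Finset (Finset (Fin n))} (hL : Down L) (P : Fin n → Vec R₁)
    (hPP : ∀ v w, ({v, w} : Finset (Fin n)) ∈ L → ip (P v) (P w) = 0)
    (hkos : ∀ F u, u ∉ F → insert u F ∈ L → ∀ x ∈ KK ⊤ (fun v => opv γ δ (bl₁ R₁ n (P v))) F,
      opv γ δ (bl₁ R₁ n (P u)) x = 0 →
      ∃ y ∈ KK ⊤ (fun v => opv γ δ (bl₁ R₁ n (P v))) F, opv γ δ (bl₁ R₁ n (P u)) y = x)
    (hex : ∀ j, k ≤ j → Ex L ⊤ (fun v => opv γ δ (bl₁ R₁ n (P v))) univ j) :
    ∃ E : Fin n → Vec (R₁ + n), CfgK γ δ {(k, L)} (Adj L) E := by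
  have hs1 : ∀ (s : ℝ) (v : Fin n), opv γ δ (bl₁ R₁ n (P v)) + s • opv γ δ (bl₂ R₁ n (nu v)) =
      opv γ δ (bl₁ R₁ n (P v) + s • bl₂ R₁ n (nu v)) := by
    intro s v
    rw [map_add, map_smul]
  have hfin : ∀ j, k ≤ j → {s : ℝ | ¬ Ex L ⊤ (fun v => opv γ δ (bl₁ R₁ n (P v)) +
      s • opv γ δ (bl₂ R₁ n (nu v))) univ j}.Finite := fun j hj =>
    h1 n j S L (fun v => opv γ δ (bl₁ R₁ n (P v)))
    (fun v => opv γ δ (bl₂ R₁ n (nu v))) hL (fun s v w hvw x => by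
      change (opv γ δ (bl₁ R₁ n (P v)) + s • opv γ δ (bl₂ R₁ n (nu v)))
          ((opv γ δ (bl₁ R₁ n (P w)) + s • opv γ δ (bl₂ R₁ n (nu w))) x) +
        (opv γ δ (bl₁ R₁ n (P w)) + s • opv γ δ (bl₂ R₁ n (nu w)))
          ((opv γ δ (bl₁ R₁ n (P v)) + s • opv γ δ (bl₂ R₁ n (nu v))) x) = 0
      rw [hs1, hs1, opv_rel hC, colGK_ip, hPP v w hvw, mul_zero, zero_smul]) (fun s F u hu hF => by
      by_cases hs : s = 0
      · subst hs
        have h3 : (fun v => opv γ δ (bl₁ R₁ n (P v)) +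
            (0 : ℝ) • opv γ δ (bl₂ R₁ n (nu v))) = fun v => opv γ δ (bl₁ R₁ n (P v)) := by
          funext v
          rw [zero_smul, add_zero]
        change ∀ x ∈ KK ⊤ (fun v => opv γ δ (bl₁ R₁ n (P v)) +
            (0 : ℝ) • opv γ δ (bl₂ R₁ n (nu v))) F,
          (fun v => opv γ δ (bl₁ R₁ n (P v)) +
            (0 : ℝ) • opv γ δ (bl₂ R₁ n (nu v))) u x = 0 →
          ∃ y ∈ KK ⊤ (fun v => opv γ δ (bl₁ R₁ n (P v)) +
            (0 : ℝ) • opv γ δ (bl₂ R₁ n (nu v))) F,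
          (fun v => opv γ δ (bl₁ R₁ n (P v)) +
            (0 : ℝ) • opv γ δ (bl₂ R₁ n (nu v))) u y = x
        rw [h3]
        exact hkos F u hu hF
      · have h3 : (fun v => opv γ δ (bl₁ R₁ n (P v)) + s • opv γ δ (bl₂ R₁ n (nu v))) =
            fun v => opv γ δ (bl₁ R₁ n (P v) + s • bl₂ R₁ n (nu v)) := funext fun v => hs1 s v
        have h4 := kos_of_dual (E := fun v => bl₁ R₁ n (P v) + s • bl₂ R₁ n (nu v))
          (M := fun v => s⁻¹ • bl₂ R₁ n (mud v)) hC hL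
          (fun v w _ _ => colGK_dual (P w) hs v w) F u hu hF
        change ∀ x ∈ KK ⊤ (fun v => opv γ δ (bl₁ R₁ n (P v)) +
            s • opv γ δ (bl₂ R₁ n (nu v))) F,
          (fun v => opv γ δ (bl₁ R₁ n (P v)) + s • opv γ δ (bl₂ R₁ n (nu v))) u x = 0 →
          ∃ y ∈ KK ⊤ (fun v => opv γ δ (bl₁ R₁ n (P v)) +
            s • opv γ δ (bl₂ R₁ n (nu v))) F,
          (fun v => opv γ δ (bl₁ R₁ n (P v)) + s • opv γ δ (bl₂ R₁ n (nu v))) u y = x
        rw [h3]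
        exact h4) (hex j hj)
  have hfin2 : (⋃ j ∈ (range (n + 1)).filter (fun j => k ≤ j),
      {s : ℝ | ¬ Ex L ⊤ (fun v => opv γ δ (bl₁ R₁ n (P v)) +
      s • opv γ δ (bl₂ R₁ n (nu v))) univ j}).Finite := by
    refine Set.Finite.biUnion (Finset.finite_toSet _) fun j hj => hfin j ?_
    exact (mem_filter.1 (mem_coe.1 hj)).2
  obtain ⟨s, hs⟩ := (hfin2.union (Set.finite_singleton (0 : ℝ))).infinite_compl.nonempty
  rw [Set.mem_compl_iff, Set.mem_union, not_or] at hs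
  have hs0 : s ≠ 0 := hs.2
  refine ⟨fun v => bl₁ R₁ n (P v) + s • bl₂ R₁ n (nu v), ?_, ?_, ?_⟩
  · intro v w hvw
    rw [colGK_ip]
    exact hPP v w hvw
  · exact ⟨fun v => s⁻¹ • bl₂ R₁ n (mud v), fun v w => colGK_dual (P w) hs0 v w⟩
  · intro p hp j hj
    rw [mem_singleton.1 hp] at hj ⊢
    show Ex L ⊤ _ univ j
    by_cases hjn : n < j
    · exact colGK_big _ _ _ j hjn
    · have h3 : (fun v => opv γ δ (bl₁ R₁ n (P v)) + s • opv γ δ (bl₂ R₁ n (nu v))) =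
          fun v => opv γ δ (bl₁ R₁ n (P v) + s • bl₂ R₁ n (nu v)) := funext fun v => hs1 s v
      rw [← h3]
      by_contra hcon
      refine hs.1 ?_
      refine Set.mem_biUnion (x := j) ?_ hcon
      exact mem_coe.2 (mem_filter.2 ⟨mem_range.2 (by omega), hj⟩)

/-- F11: colourings -/
theorem st_colG (h1 : StSCK) : StColG := by
  intro n N k L c σ hL hc hη
  refine ⟨N + n, fun R hR S _ _ _ γ δ hC => ?_⟩
  obtain ⟨R₁, hR₁, rfl⟩ : ∃ R₁, N ≤ R₁ ∧ R = R₁ + n := ⟨R - n, by omega, by omega⟩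
  have hinj : ∀ i i' : Fin N, i ≠ i' → Fin.castLE hR₁ i ≠ Fin.castLE hR₁ i' := fun i i' h h' =>
    h (Fin.castLE_injective hR₁ h')
  obtain ⟨q, hq⟩ : ∃ q : Fin N → Bool → S →ₗ[ℝ] S,
      ∀ i b, q i b = opv γ δ (bl₁ R₁ n (pvc (Fin.castLE hR₁ i) b)) := ⟨_, fun _ _ => rfl⟩
  have hQ : HypQ q := by
    refine ⟨fun i b x => ?_, fun i b x => ?_, fun i i' hi b b' x => ?_⟩
    · rw [hq]
      exact opv_sq hC (by rw [ip_bl₁, pvc_same]) x
    · rw [hq, hq]
      exact opv_half hC (by rw [ip_bl₁, pvc_dual]) x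
    · rw [hq, hq]
      exact opv_anti hC (by rw [ip_bl₁, pvc_ne (hinj i i' hi)]) x
  have hqe : (fun v => q (c v) (σ v)) =
      fun v => opv γ δ (bl₁ R₁ n (pvc (Fin.castLE hR₁ (c v)) (σ v))) :=
    funext fun v => hq _ _
  refine colGK_deform h1 hC hL (fun v => pvc (Fin.castLE hR₁ (c v)) (σ v)) ?_ ?_ ?_
  · intro v w hvw
    by_cases h2 : v = w
    · subst h2
      exact pvc_same _ _ _
    · exact pvc_ne (hinj _ _ (hc v w hvw h2)) _ _
  · have hcol : ∀ F : Finset (Fin n), ∀ u, u ∉ F → insert u F ∈ L → ∀ f ∈ F, c f ≠ c u := by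
      intro F u hu hF f hf
      refine hc f u (hL _ hF _ ?_) fun h => hu (h ▸ hf)
      intro z hz
      rw [mem_insert, mem_singleton] at hz
      rcases hz with rfl | rfl
      · exact mem_insert_of_mem hf
      · exact mem_insert_self _ _
    intro F u hu hF x hx hux
    have hx' : ∀ v ∈ F, q (c v) (σ v) x = 0 := fun v hv => by
      rw [hq]
      exact hx.2 v hv
    have hux' : q (c u) (σ u) x = 0 := by
      rw [hq]
      exact hux
    refine ⟨q (c u) (!(σ u)) x, ⟨trivial, fun f hf => ?_⟩, ?_⟩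
    · show opv γ δ (bl₁ R₁ n (pvc (Fin.castLE hR₁ (c f)) (σ f))) _ = 0
      rw [← hq, hQ.anti _ _ (hcol F u hu hF f hf), hx' f hf, map_zero, neg_zero]
    · show opv γ δ (bl₁ R₁ n (pvc (Fin.castLE hR₁ (c u)) (σ u))) _ = x
      have h3 := hQ.one (c u) (σ u) x
      rw [hux', map_zero, add_zero] at h3
      rw [← hq]
      exact h3
  · intro j hj
    have h2 := colGK_ex hQ c σ fun η => hη η j hj
    rw [hqe] at h2
    exact h2

end Pool.Agent.H14.CL
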