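import Pool.Agent.H14.CL.Stm3

/-!
Project CL, row F11, first part: exactness for coloured complexes with the hyperbolic
coefficients.
-/

set_option autoImplicit false

namespace Pool.Agent.H14.CL

open Finset

section base

variable {n : ℕ} {S : Type} [AddCommGroup S] [Module ℝ S]

/-- a linear functional applied to a boundary -/
theorem colGK_dual_bd (φ : S →ₗ[ℝ] ℝ) (x : Finset (Fin n) → S) (G : Finset (Fin n)) :
    bd ℝ (fun G => φ (x G)) G = φ (bd ℝ x G) := by
  rw [bd_apply, bd_apply, map_sum]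
  refine sum_congr rfl fun u _ => ?_
  rw [map_smul]

/-- scalar exactness gives exactness with values in a space killed by the operators -/
theorem colGK_base {L : Finset (Finset (Fin n))} {U : Submodule ℝ S} {e : Fin n → S →ₗ[ℝ] S}
    (hU : ∀ G ∈ L, ∀ v ∈ G, ∀ x ∈ U, e v x = 0) {j : ℕ}
    (h : Ex L (⊤ : Submodule ℝ ℝ) (fun _ => 0) univ j) : Ex L U e univ j := by
  classical
  set C1 := Ch L (⊤ : Submodule ℝ ℝ) (fun _ => 0) univ (j + 1) with hC1
  set g : C1 →ₗ[ℝ] (Finset (Fin n) → ℝ) := (bd ℝ (n := n) (S := ℝ)) ∘ₗ C1.subtype with hg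
  obtain ⟨r0, hr0⟩ := LinearMap.exists_rightInverse_of_surjective g.rangeRestrict
    (LinearMap.range_eq_top.2 g.surjective_rangeRestrict)
  obtain ⟨r, hr⟩ := LinearMap.exists_extend r0
  have hrr : ∀ z ∈ LinearMap.range g, g (r z) = z := by
    intro z hz
    have h1 : r z = r0 ⟨z, hz⟩ := by
      rw [← hr]
      rfl
    have h2 := LinearMap.congr_fun hr0 ⟨z, hz⟩
    rw [h1]
    exact congrArg Subtype.val h2
  -- the matrix of `r`
  obtain ⟨m, hm⟩ : ∃ m : Finset (Fin n) → Finset (Fin n) → ℝ,
      ∀ G G', m G G' = (r (Pi.single G' 1)).1 G := ⟨_, fun _ _ => rfl⟩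
  have hmat : ∀ (z : Finset (Fin n) → ℝ) G, (r z).1 G = ∑ G', m G G' * z G' := by
    intro z G
    have h1 : z = ∑ G', z G' • (Pi.single G' (1 : ℝ) : Finset (Fin n) → ℝ) := by
      funext H
      rw [Finset.sum_apply, Finset.sum_eq_single H]
      · simp
      · intro G' _ hG'
        simp [Pi.single_eq_of_ne hG'.symm]
      · intro hH
        exact absurd (mem_univ _) hH
    conv_lhs => rw [h1]
    rw [map_sum, AddSubmonoidClass.coe_finsetSum, Finset.sum_apply]
    refine sum_congr rfl fun G' _ => ?_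
    rw [map_smul, Submodule.coe_smul, Pi.smul_apply, smul_eq_mul, hm, mul_comm]
  have hm0 : ∀ G, ¬ (G ∈ L ∧ G.card = j + 1) → ∀ G', m G G' = 0 := by
    intro G hG G'
    rw [hm]
    refine ((r (Pi.single G' 1)).2 G).2 fun h1 => hG ⟨h1.1, h1.2.2⟩
  intro x hx hx0
  refine ⟨fun G => ∑ G', m G G' • x G', ?_, ?_⟩
  · intro G
    by_cases hG : G ∈ L ∧ G.card = j + 1
    · have h1 : ∑ G', m G G' • x G' ∈ U :=
        U.sum_mem fun G' _ => U.smul_mem _ (hx G').1.1
      exact ⟨⟨h1, fun v hv => hU G hG.1 v hv _ h1⟩, fun h2 => absurd ⟨hG.1, subset_univ _, hG.2⟩ h2⟩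
    · have h1 : ∑ G', m G G' • x G' = 0 :=
        sum_eq_zero fun G' _ => by rw [hm0 G hG G', zero_smul]
      show (∑ G', m G G' • x G') ∈ KK U e G ∧ _
      rw [h1]
      exact ⟨Submodule.zero_mem _, fun _ => h1⟩
  · funext G
    rw [← sub_eq_zero, ← Module.forall_dual_apply_eq_zero_iff ℝ]
    intro φ
    rw [map_sub, sub_eq_zero, ← colGK_dual_bd]
    have hz : (fun G => φ (x G)) ∈ LinearMap.range g := by
      have h1 : (fun G => φ (x G)) ∈ Ch L (⊤ : Submodule ℝ ℝ) (fun _ => 0) univ j := by
        intro G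
        refine ⟨⟨trivial, fun v _ => rfl⟩, fun hG => ?_⟩
        show φ (x G) = 0
        rw [(hx G).2 hG, map_zero]
      obtain ⟨y, hy, hyx⟩ := h _ h1 (by
        funext G
        rw [colGK_dual_bd, hx0]
        exact map_zero φ)
      exact ⟨⟨y, hy⟩, hyx⟩
    have h2 : (fun G => φ (∑ G', m G G' • x G')) = (r fun G => φ (x G)).1 := by
      funext G
      rw [hmat, map_sum]
      refine sum_congr rfl fun G' _ => ?_
      rw [map_smul, smul_eq_mul]
    rw [h2]
    exact congrFun (hrr _ hz) G

/-- splitting the coefficients in two parts -/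
theorem colGK_step {L : Finset (Finset (Fin n))} {U : Submodule ℝ S} {e : Fin n → S →ₗ[ℝ] S}
    {j : ℕ} (L' : Bool → Finset (Finset (Fin n))) (U' : Bool → Submodule ℝ S)
    (P : Bool → S →ₗ[ℝ] S) (hsum : ∀ x, P true x + P false x = x)
    (hP : ∀ b, ∀ G ∈ L, ∀ x ∈ KK U e G, P b x ∈ KK (U' b) e G ∧ (G ∉ L' b → P b x = 0))
    (hL : ∀ b, L' b ⊆ L) (hU : ∀ b, U' b ≤ U)
    (h : ∀ b, Ex (L' b) (U' b) e univ j) : Ex L U e univ j := by
  intro x hx hx0
  have key : ∀ b, ∃ y ∈ Ch L U e univ (j + 1), bd ℝ y = fun G => P b (x G) := by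
    intro b
    have h1 : (fun G => P b (x G)) ∈ Ch (L' b) (U' b) e univ j := by
      intro G
      by_cases hG : G ∈ L ∧ G.card = j
      · obtain ⟨h2, h3⟩ := hP b G hG.1 (x G) (hx G).1
        refine ⟨h2, fun h4 => h3 fun h5 => h4 ⟨h5, subset_univ _, hG.2⟩⟩
      · have h2 : x G = 0 := (hx G).2 fun h3 => hG ⟨h3.1, h3.2.2⟩
        have h3 : P b (x G) = 0 := by rw [h2, map_zero]
        show P b (x G) ∈ _ ∧ _
        rw [h3]
        exact ⟨Submodule.zero_mem _, fun _ => h3⟩
    have h2 : bd ℝ (fun G => P b (x G)) = 0 := by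
      funext G
      have h3 : bd ℝ (fun G => P b (x G)) G = P b (bd ℝ x G) := by
        rw [bd_apply, bd_apply, map_sum]
        refine sum_congr rfl fun u _ => ?_
        rw [map_smul]
      rw [h3, hx0]
      exact map_zero _
    obtain ⟨y, hy, hyx⟩ := h b _ h1 h2
    refine ⟨y, fun G => ?_, hyx⟩
    obtain ⟨h4, h5⟩ := hy G
    exact ⟨⟨hU b h4.1, h4.2⟩, fun h6 => h5 fun h7 => h6 ⟨hL b h7.1, h7.2⟩⟩
  obtain ⟨y1, h1, h1'⟩ := key true
  obtain ⟨y2, h2, h2'⟩ := key false
  refine ⟨y1 + y2, Submodule.add_mem _ h1 h2, ?_⟩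
  rw [map_add, h1', h2']
  funext G
  exact hsum (x G)

end base

section colour

variable {n N : ℕ} {S : Type} [AddCommGroup S] [Module ℝ S]

/-- hyperbolic operators -/
structure HypQ (q : Fin N → Bool → S →ₗ[ℝ] S) : Prop where
  sq : ∀ i b x, q i b (q i b x) = 0
  one : ∀ i b x, q i b (q i (!b) x) + q i (!b) (q i b x) = x
  anti : ∀ i i', i ≠ i' → ∀ b b' x, q i b (q i' b' x) = - q i' b' (q i b x)

/-- the vertices compatible with a choice of signs of the colours outside `F` -/
def colA (c : Fin n → Fin N) (σ : Fin n → Bool) (F : Finset (Fin N)) (η : Fin N → Bool) :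
    Finset (Fin n) := univ.filter (fun v => c v ∉ F → σ v = η (c v))

/-- the coefficients compatible with a choice of signs of the colours outside `F` -/
def colU (q : Fin N → Bool → S →ₗ[ℝ] S) (F : Finset (Fin N)) (η : Fin N → Bool) :
    Submodule ℝ S where
  carrier := {x | ∀ i, i ∉ F → q i (η i) x = 0}
  add_mem' := by
    intro a b ha hb i hi
    rw [map_add, ha i hi, hb i hi, add_zero]
  zero_mem' := fun i _ => map_zero _
  smul_mem' := by
    intro c x hx i hi
    rw [map_smul, hx i hi, smul_zero]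

theorem mem_colU {q : Fin N → Bool → S →ₗ[ℝ] S} {F : Finset (Fin N)} {η : Fin N → Bool}
    {x : S} : x ∈ colU q F η ↔ ∀ i, i ∉ F → q i (η i) x = 0 := Iff.rfl

theorem colGK_all {q : Fin N → Bool → S →ₗ[ℝ] S} (hq : HypQ q)
    {L : Finset (Finset (Fin n))} (c : Fin n → Fin N) (σ : Fin n → Bool) {j : ℕ}
    (h : ∀ η : Fin N → Bool, Ex (ful L (univ.filter (fun v => σ v = η (c v))))
      (⊤ : Submodule ℝ ℝ) (fun _ => 0) univ j) (F : Finset (Fin N)) :
    ∀ η : Fin N → Bool, Ex (ful L (colA c σ F η)) (colU q F η) (fun v => q (c v) (σ v)) univ j := by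
  classical
  induction F using Finset.induction_on with
  | empty =>
    intro η
    have h1 : colA c σ ∅ η = univ.filter (fun v => σ v = η (c v)) := by
      unfold colA
      refine filter_congr fun v _ => ?_
      simp
    rw [h1]
    refine colGK_base ?_ (h η)
    intro G hG v hv x hx
    have h2 := (mem_filter.1 ((mem_filter.1 hG).2 hv)).2
    show q (c v) (σ v) x = 0
    rw [h2]
    exact hx (c v) (notMem_empty _)
  | insert i F hi ih =>
    intro η
    have hup : ∀ b, ∀ i', i' ≠ i → Function.update η i b i' = η i' := fun b i' h1 =>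
      Function.update_of_ne h1 _ _
    refine colGK_step (fun b => ful L (colA c σ F (Function.update η i b)))
      (fun b => colU q F (Function.update η i b)) (fun b => q i b ∘ₗ q i (!b)) ?_ ?_ ?_ ?_
      (fun b => ih _)
    · intro x
      have h1 := hq.one i true x
      exact h1
    · intro b G hG x hx
      have hzero : ∀ v ∈ G, c v = i → σ v = !b → q i b (q i (!b) x) = 0 := by
        intro v hv h1 h2
        have h3 : q (c v) (σ v) x = 0 := hx.2 v hv
        rw [h1, h2] at h3
        rw [h3, map_zero]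
      have hbool : ∀ s t : Bool, s ≠ t → s = !t := by decide
      refine ⟨⟨?_, ?_⟩, ?_⟩
      · intro i' hi'
        show q i' (Function.update η i b i') (q i b (q i (!b) x)) = 0
        by_cases h1 : i' = i
        · subst h1
          rw [Function.update_self]
          exact hq.sq _ _ _
        · rw [hup b i' h1, hq.anti i' i h1, hq.anti i' i h1]
          have h2 : q i' (η i') x = 0 := hx.1 i' (fun h3 => (mem_insert.1 h3).elim h1 hi')
          rw [h2, map_zero, neg_zero, map_zero, neg_zero]
      · intro v hv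
        show q (c v) (σ v) (q i b (q i (!b) x)) = 0
        by_cases h1 : c v = i
        · by_cases h2 : σ v = b
          · rw [h1, h2]
            exact hq.sq _ _ _
          · rw [hzero v hv h1 (hbool _ _ h2), map_zero]
        · rw [hq.anti _ i h1, hq.anti _ i h1]
          have h2 : q (c v) (σ v) x = 0 := hx.2 v hv
          rw [h2, map_zero, neg_zero, map_zero, neg_zero]
      · intro hGb
        show q i b (q i (!b) x) = 0
        obtain ⟨hGL, hGA⟩ := mem_filter.1 hG
        have h1 : ¬ G ⊆ colA c σ F (Function.update η i b) := fun h2 =>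
          hGb (mem_filter.2 ⟨hGL, h2⟩)
        obtain ⟨v, hv, hv'⟩ := not_subset.1 h1
        have h2 : ¬ (c v ∉ F → σ v = Function.update η i b (c v)) := fun h3 =>
          hv' (mem_filter.2 ⟨mem_univ _, h3⟩)
        rw [Classical.not_imp] at h2
        have h3 := (mem_filter.1 (hGA hv)).2
        by_cases h4 : c v = i
        · have h5 : σ v ≠ b := by
            intro h6
            apply h2.2
            rw [h4, Function.update_self]
            exact h6
          exact hzero v hv h4 (hbool _ _ h5)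
        · refine absurd ?_ h2.2
          rw [hup b _ h4]
          exact h3 fun h5 => (mem_insert.1 h5).elim h4 h2.1
    · intro b G hG
      obtain ⟨hGL, hGA⟩ := mem_filter.1 hG
      refine mem_filter.2 ⟨hGL, fun v hv => mem_filter.2 ⟨mem_univ _, fun h1 => ?_⟩⟩
      have h2 := (mem_filter.1 (hGA hv)).2 fun h3 => h1 (mem_insert_of_mem h3)
      rw [h2, hup b _ fun h3 => h1 (h3 ▸ mem_insert_self _ _)]
    · intro b x hx i' hi'
      have h2 := hx i' fun h3 => hi' (mem_insert_of_mem h3)
      rw [hup b _ fun h3 => hi' (h3 ▸ mem_insert_self _ _)] at h2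
      exact h2

/-- exactness for coloured complexes with hyperbolic coefficients -/
theorem colGK_ex {q : Fin N → Bool → S →ₗ[ℝ] S} (hq : HypQ q)
    {L : Finset (Finset (Fin n))} (c : Fin n → Fin N) (σ : Fin n → Bool) {j : ℕ}
    (h : ∀ η : Fin N → Bool, Ex (ful L (univ.filter (fun v => σ v = η (c v))))
      (⊤ : Submodule ℝ ℝ) (fun _ => 0) univ j) :
    Ex L ⊤ (fun v => q (c v) (σ v)) univ j := by
  have h1 := colGK_all hq c σ h univ (fun _ => true)
  have h2 : colA c σ univ (fun _ => true) = univ := by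
    unfold colA
    rw [filter_true_of_mem]
    intro v _ h3
    exact absurd (mem_univ _) h3
  have h3 : ful L (univ : Finset (Fin n)) = L := by
    unfold ful
    exact filter_true_of_mem fun G _ => subset_univ _
  have h4 : colU q univ (fun _ => true) = ⊤ := by
    rw [eq_top_iff]
    intro x _ i hi
    exact absurd (mem_univ _) hi
  rw [h2, h3, h4] at h1
  exact h1

end colour

end Pool.Agent.H14.CL
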