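import Pool.Agent.H14.CL.Stm4

/-!
Project CL, fourth part, rows A16 and A18: contractions of flag 2-spheres, and flag 2-spheres
belong to `B(0)`.
-/

set_option autoImplicit false

namespace Pool.Agent.H14.CL

open Finset

/-- A16: contractions of flag 2-spheres -/
theorem st_ctr (h1 : StCtrF) (h2 : StCtrE) (h3 : StCtrTwo) (h4 : StCtrLk) (h5 : StCtrCon)
    (h6 : StCtrChi) : StCtr := by
  intro n L u v hL huv hc
  obtain ⟨a1, a2, a3, a4⟩ := h1 n L u v hL huv hc
  have hG := h2 n L u v hL huv
  obtain ⟨b1, b2⟩ := h5 n L _ u v hL huv hG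
  exact ⟨a1, a2, a3, a4, b1, h3 n L _ u v hL huv hc hG, h4 n L _ u v hL huv hc hG, b2,
    h6 n L u v hL huv⟩

/-- good complexes belong to `B(0)` -/
theorem cr_gk {n : ℕ} {L : Finset (Finset (Fin n))} (h : Good L) : GK 0 L := by
  obtain ⟨R₀, hR⟩ := h
  refine ⟨R₀, fun R hRR S _ _ _ γ δ hC => ?_⟩
  obtain ⟨E, hE⟩ := hR R hRR S γ δ hC
  refine ⟨E, hE.orth, hE.dual, fun p hp j _ => ?_⟩
  rw [mem_singleton] at hp
  subst hp
  exact hE.ex L (mem_singleton_self L) j

/-- the contraction has fewer faces -/
theorem cr_card {n : ℕ} {L : Finset (Finset (Fin n))} {u v : Fin n} (hu : {u} ∈ L)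
    (hv : {v} ∈ L) (huv : u ≠ v) : (contr L u v).card < L.card := by
  refine lt_of_le_of_ne card_image_le fun h => ?_
  have hinj := card_image_iff.1 h
  have h1 : (if v ∈ ({u} : Finset (Fin n)) then insert u (({u} : Finset (Fin n)).erase v)
      else {u}) = {u} := if_neg fun h2 => huv (mem_singleton.1 h2).symm
  have h2 : (if v ∈ ({v} : Finset (Fin n)) then insert u (({v} : Finset (Fin n)).erase v)
      else {v}) = {u} := by
    rw [if_pos (mem_singleton_self v)]
    ext x
    simp only [mem_insert, mem_erase, mem_singleton]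
    tauto
  have h3 : ({u} : Finset (Fin n)) = {v} := hinj hu hv (h1.trans h2.symm)
  exact huv (singleton_injective h3)

/-- the link of an edge -/
theorem cr_lk {n : ℕ} {L : Finset (Finset (Fin n))} (hL : P3 L) {u v c d : Fin n}
    (huv : Ed L u v) (huc : Ed L u c) (hvc : Ed L v c) (hud : Ed L u d) (hvd : Ed L v d)
    (hall : ∀ x, Ed L u x → Ed L v x → x = c ∨ x = d) :
    lk (lk L u) v = {∅, {c}, {d}} := by
  have hone : ∀ x, Ed L u x → Ed L v x → ({x} : Finset (Fin n)) ∈ lk (lk L u) v := by
    intro x hux hvx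
    unfold lk
    rw [mem_filter, mem_filter, mem_filter]
    have hxv : ({v, x} : Finset (Fin n)) ∈ L := hvx.2
    have h3 : ({u, v, x} : Finset (Fin n)) ∈ L := hL.tri huv hux hvx
    refine ⟨⟨hL.vr hux, fun h => hux.1 (mem_singleton.1 h), hux.2⟩,
      fun h => hvx.1 (mem_singleton.1 h), hxv, fun h => ?_, h3⟩
    rw [mem_insert, mem_singleton] at h
    rcases h with h | h
    · exact huv.1 h
    · exact hux.1 h
  ext G
  rw [mem_insert, mem_insert, mem_singleton]
  constructor
  · intro hG
    unfold lk at hG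
    rw [mem_filter, mem_filter, mem_filter] at hG
    obtain ⟨⟨g1, g2, g3⟩, g4, g5, g6, g7⟩ := hG
    have hc : (insert u (insert v G)).card = G.card + 2 := by
      rw [card_insert_of_notMem g6, card_insert_of_notMem g4]
    have hle := hL.le3 _ g7
    rw [hc] at hle
    rcases Nat.lt_or_ge G.card 1 with h0 | h0
    · left
      exact card_eq_zero.1 (by omega)
    · right
      obtain ⟨x, rfl⟩ := card_eq_one.1 (by omega : G.card = 1)
      have hux : Ed L u x := ⟨fun h => g2 (mem_singleton.2 h), g3⟩
      have hvx : Ed L v x := ⟨fun h => g4 (mem_singleton.2 h), g5⟩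
      rcases hall x hux hvx with h | h
      · left
        rw [h]
      · right
        rw [h]
  · rintro (rfl | rfl | rfl)
    · unfold lk
      rw [mem_filter, mem_filter, mem_filter]
      refine ⟨⟨hL.emp, notMem_empty _, hL.vl huv⟩, notMem_empty _, hL.vr huv, fun h => ?_,
        huv.2⟩
      exact huv.1 (mem_singleton.1 h)
    · exact hone c huc hvc
    · exact hone d hud hvd

/-- A18: flag 2-spheres belong to `B(0)` -/
theorem st_p3G (h1 : StDeg4) (h2 : StOct5) (h3 : StCtr) (h4 : StOctG) (h5 : StSplitGK)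
    (h6 : StTwo) : StP3G := by
  intro n
  have key : ∀ m : ℕ, ∀ L : Finset (Finset (Fin n)), L.card ≤ m → P3 L → GK 0 L := by
    intro m
    induction m with
    | zero =>
      intro L hm hL
      have h0 := card_eq_zero.1 (Nat.le_zero.1 hm)
      have h7 := hL.emp
      rw [h0] at h7
      exact absurd h7 (notMem_empty _)
    | succ m ih =>
      intro L hm hL
      by_cases hC : ∀ a b, Ed L a b → ∃ c d, C4 L a b c d
      · obtain ⟨t, p, q, r, s, hW⟩ := h1 n L hL hC
        obtain ⟨x, hx⟩ := h2 n L hL t p q r s hW (hC _ _ hW.1) (hC _ _ hW.2.1)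
        exact h4 n L t x p r q s hL hx
      · push Not at hC
        obtain ⟨u, v, huv, hno⟩ := hC
        have hP := h3 n L u v hL huv hno
        have hcard := cr_card (hL.vl huv) (hL.vr huv) huv.1
        have hG := ih (contr L u v) (by omega) hP
        obtain ⟨c, d, hcd, huc, hvc, hud, hvd, hall⟩ := hL.two u v huv
        have hlk := cr_lk hL huv huc hvc hud hvd hall
        refine h5 n 0 L u v hL.down hL.flag huv.1 huv.2 hG ?_
        rw [hlk]
        exact cr_gk (h6 n c d hcd)
  intro L hL
  exact key L.card L le_rfl hL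

end Pool.Agent.H14.CL
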