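import Pool.Agent.H14.CL.Stm4

/-!
Project CL, row A15: the Euler characteristic of the contraction of an edge.
-/

set_option autoImplicit false

namespace Pool.Agent.H14.CL

open Finset

section

variable {n : ℕ}

private theorem cx_card {F : Finset (Fin n)} {u v : Fin n} (hv : v ∈ F) (hu : u ∉ F) :
    (insert u (F.erase v)).card = F.card := by
  have h1 : u ∉ F.erase v := fun h => hu (mem_of_mem_erase h)
  rw [card_insert_of_notMem h1, card_erase_of_mem hv]
  have h2 : 0 < F.card := card_pos.2 ⟨v, hv⟩
  omega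

private theorem cx_inj {F G : Finset (Fin n)} {u v : Fin n} (hvF : v ∈ F) (huF : u ∉ F)
    (hvG : v ∈ G) (huG : u ∉ G) (h : insert u (F.erase v) = insert u (G.erase v)) : F = G := by
  have hF : u ∉ F.erase v := fun h => huF (mem_of_mem_erase h)
  have hG : u ∉ G.erase v := fun h => huG (mem_of_mem_erase h)
  have h1 : F.erase v = G.erase v := by
    rw [← erase_insert hF, ← erase_insert hG, h]
  rw [← insert_erase hvF, ← insert_erase hvG, h1]

/-- `insert u (F.erase v)` depends only on `F` up to `u` -/
private theorem cx_er {F : Finset (Fin n)} {u v : Fin n} :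
    insert u ((F.erase u).erase v) = insert u (F.erase v) := by
  ext x
  simp only [mem_insert, mem_erase]
  tauto

private theorem cx_ins {F : Finset (Fin n)} {u v : Fin n} :
    insert u ((insert u F).erase v) = insert u (F.erase v) := by
  ext x
  simp only [mem_insert, mem_erase]
  constructor
  · rintro (h | ⟨h1, h | h⟩)
    · exact Or.inl h
    · exact Or.inl h
    · exact Or.inr ⟨h1, h⟩
  · rintro (h | ⟨h1, h⟩)
    · exact Or.inl h
    · exact Or.inr ⟨h1, Or.inr h⟩

/-- if `F` and `insert u (F.erase v)` are faces and `{u, v}` is an edge, then `insert u F` is a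
face -/
private theorem cx_up {L : Finset (Finset (Fin n))} (hd : Down L) (hf : Flag L) {u v : Fin n}
    (huv : ({u, v} : Finset (Fin n)) ∈ L) {F : Finset (Fin n)} (hF : F ∈ L)
    (hF' : insert u (F.erase v) ∈ L) : insert u F ∈ L := by
  have hu : ({u, u} : Finset (Fin n)) ∈ L := by
    refine hd _ huv _ ?_
    intro x hx
    simp only [mem_insert, mem_singleton] at hx ⊢
    tauto
  have key : ∀ b ∈ F, ({u, b} : Finset (Fin n)) ∈ L := by
    intro b hb
    by_cases hbv : b = v
    · rw [hbv]; exact huv
    · refine hd _ hF' _ ?_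
      intro x hx
      simp only [mem_insert, mem_singleton] at hx
      rcases hx with rfl | rfl
      · exact mem_insert_self _ _
      · exact mem_insert_of_mem (mem_erase.2 ⟨hbv, hb⟩)
  apply hf
  intro a ha b hb
  rcases mem_insert.1 ha with ha1 | ha1
  · rcases mem_insert.1 hb with hb1 | hb1
    · rw [ha1, hb1]; exact hu
    · rw [ha1]; exact key b hb1
  · rcases mem_insert.1 hb with hb1 | hb1
    · rw [hb1, pair_comm]; exact key a ha1
    · refine hd _ hF _ ?_
      intro x hx
      rcases mem_insert.1 hx with hx1 | hx1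
      · rw [hx1]; exact ha1
      · rw [mem_singleton.1 hx1]; exact hb1

private theorem cx_zero {L : Finset (Finset (Fin n))} (hd : Down L) (hf : Flag L) {u v : Fin n}
    (hne : u ≠ v) (huv : ({u, v} : Finset (Fin n)) ∈ L) :
    ∑ F ∈ L.filter (fun F => v ∈ F ∧ insert u (F.erase v) ∈ L), (-1 : ℤ) ^ F.card = 0 := by
  refine Finset.sum_involution
    (fun F _ => if u ∈ F then F.erase u else insert u F) ?_ ?_ ?_ ?_
  · intro F hF
    by_cases hu : u ∈ F
    · rw [if_pos hu]
      have h1 : F.card = (F.erase u).card + 1 := (card_erase_add_one hu).symm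
      rw [h1, pow_succ]
      ring
    · rw [if_neg hu, card_insert_of_notMem hu, pow_succ]
      ring
  · intro F hF _
    by_cases hu : u ∈ F
    · rw [if_pos hu]
      intro h
      rw [← h] at hu
      exact notMem_erase u F hu
    · rw [if_neg hu]
      intro h
      exact hu (by rw [← h]; exact mem_insert_self _ _)
  · intro F hF
    rw [mem_filter] at hF ⊢
    obtain ⟨h1, h2, h3⟩ := hF
    by_cases hu : u ∈ F
    · rw [if_pos hu]
      refine ⟨hd _ h1 _ (erase_subset _ _), mem_erase.2 ⟨hne.symm, h2⟩, ?_⟩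
      rw [cx_er]
      exact h3
    · rw [if_neg hu]
      refine ⟨cx_up hd hf huv h1 h3, mem_insert_of_mem h2, ?_⟩
      rw [cx_ins]
      exact h3
  · intro F hF
    by_cases hu : u ∈ F
    · have h1 : u ∉ F.erase u := notMem_erase u F
      simp only [if_pos hu, if_neg h1]
      exact insert_erase hu
    · have h1 : u ∈ insert u F := mem_insert_self u F
      simp only [if_neg hu, if_pos h1]
      exact erase_insert hu

end

/-- A15: the Euler characteristic of the contraction -/
theorem st_ctrChi : StCtrChi := by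
  intro n L u v hP huv
  have hd := hP.down
  have hf := hP.flag
  have hne : u ≠ v := huv.1
  have h2 : ({u, v} : Finset (Fin n)) ∈ L := huv.2
  have hset : contr L u v = L.filter (fun F => v ∉ F) ∪
      (L.filter (fun F => v ∈ F ∧ insert u (F.erase v) ∉ L)).image
        (fun F => insert u (F.erase v)) := by
    ext G
    simp only [contr, mem_union, mem_image, mem_filter]
    constructor
    · rintro ⟨F, hF, rfl⟩
      by_cases hv : v ∈ F
      · rw [if_pos hv]
        by_cases h : insert u (F.erase v) ∈ L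
        · left
          refine ⟨h, ?_⟩
          rw [mem_insert, mem_erase]
          rintro (h | h)
          · exact hne h.symm
          · exact h.1 rfl
        · exact Or.inr ⟨F, ⟨hF, hv, h⟩, rfl⟩
      · rw [if_neg hv]
        exact Or.inl ⟨hF, hv⟩
    · rintro (⟨hG, hv⟩ | ⟨F, ⟨hF, hv, h⟩, rfl⟩)
      · exact ⟨G, hG, if_neg hv⟩
      · exact ⟨F, hF, if_pos hv⟩
  have hdisj : Disjoint (L.filter (fun F => v ∉ F))
      ((L.filter (fun F => v ∈ F ∧ insert u (F.erase v) ∉ L)).image
        (fun F => insert u (F.erase v))) := by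
    rw [disjoint_left]
    intro G hG hG'
    obtain ⟨F, hF, rfl⟩ := mem_image.1 hG'
    exact (mem_filter.1 hF).2.2 (mem_filter.1 hG).1
  have hu : ∀ F ∈ L.filter (fun F => v ∈ F ∧ insert u (F.erase v) ∉ L), u ∉ F := by
    intro F hF h
    obtain ⟨h1, h3, h4⟩ := mem_filter.1 hF
    apply h4
    refine hd _ h1 _ ?_
    intro x hx
    rcases mem_insert.1 hx with rfl | hx
    · exact h
    · exact mem_of_mem_erase hx
  have himg : ∑ F ∈ (L.filter (fun F => v ∈ F ∧ insert u (F.erase v) ∉ L)).image
        (fun F => insert u (F.erase v)), (-1 : ℤ) ^ F.card =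
      ∑ F ∈ L.filter (fun F => v ∈ F ∧ insert u (F.erase v) ∉ L), (-1 : ℤ) ^ F.card := by
    rw [sum_image]
    · refine sum_congr rfl ?_
      intro F hF
      rw [cx_card (mem_filter.1 hF).2.1 (hu F hF)]
    · intro F hF G hG h
      exact cx_inj (mem_filter.1 hF).2.1 (hu F hF) (mem_filter.1 hG).2.1 (hu G hG) h
  have hL1 : ∑ F ∈ L, (-1 : ℤ) ^ F.card =
      ∑ F ∈ L.filter (fun F => v ∉ F), (-1 : ℤ) ^ F.card +
        ∑ F ∈ L.filter (fun F => ¬ v ∉ F), (-1 : ℤ) ^ F.card :=
    (sum_filter_add_sum_filter_not L (fun F => v ∉ F) _).symm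
  have hL2 : ∑ F ∈ L.filter (fun F => ¬ v ∉ F), (-1 : ℤ) ^ F.card =
      ∑ F ∈ L.filter (fun F => v ∈ F ∧ insert u (F.erase v) ∈ L), (-1 : ℤ) ^ F.card +
        ∑ F ∈ L.filter (fun F => v ∈ F ∧ insert u (F.erase v) ∉ L), (-1 : ℤ) ^ F.card := by
    rw [← sum_filter_add_sum_filter_not (L.filter (fun F => ¬ v ∉ F))
      (fun F => insert u (F.erase v) ∈ L)]
    have e1 : (L.filter (fun F => ¬ v ∉ F)).filter (fun F => insert u (F.erase v) ∈ L) =
        L.filter (fun F => v ∈ F ∧ insert u (F.erase v) ∈ L) := by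
      ext F
      simp only [mem_filter, not_not]
      tauto
    have e2 : (L.filter (fun F => ¬ v ∉ F)).filter (fun F => ¬ insert u (F.erase v) ∈ L) =
        L.filter (fun F => v ∈ F ∧ insert u (F.erase v) ∉ L) := by
      ext F
      simp only [mem_filter, not_not]
      tauto
    rw [e1, e2]
  have hz := cx_zero hd hf hne h2
  have hchi := hP.chi
  rw [hset, sum_union hdisj, himg]
  rw [hL1, hL2, hz] at hchi
  linarith

end Pool.Agent.H14.CL
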