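import Pool.Agent.H14.CL.Stm4

/-!
Project CL, fourth part, row A14: the contraction of an edge is connected.
-/

set_option autoImplicit false

namespace Pool.Agent.H14.CL

open Finset

/-- A14: the contraction is connected -/
theorem st_ctrCon : StCtrCon := by
  classical
  intro n L L' u v hP huv hG
  have huv' : u ≠ v := huv.1
  refine ⟨fun x hx => ?_, fun T hT hTv hTc y hy => ?_⟩
  · obtain ⟨hx1, hxv⟩ := (hG.ver x).1 hx
    by_cases hxu : x = u
    · subst hxu
      obtain ⟨c, d, -, hc, hvc, -⟩ := hP.two x v huv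
      exact ⟨c, (hG.edg x c).2 ⟨huv', hvc.1.symm, hc.1, Or.inl hc⟩⟩
    · obtain ⟨y, hy⟩ := hP.nb x hx1
      by_cases hyv : y = v
      · subst hyv
        exact ⟨u, (hG.edg x u).2 ⟨hxv, huv', hxu, Or.inr (Or.inr ⟨rfl, hy.symm⟩)⟩⟩
      · exact ⟨y, (hG.edg x y).2 ⟨hxv, hyv, hy.1, Or.inl hy⟩⟩
  · have key : ∀ y, {y} ∈ L → (if y = v then u else y) ∈ T := by
      have h := hP.con (univ.filter fun y => {y} ∈ L ∧ (if y = v then u else y) ∈ T) ?_ ?_ ?_
      · intro y hy
        exact (mem_filter.1 (h y hy)).2.2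
      · obtain ⟨y, hy⟩ := hT
        obtain ⟨h1, h2⟩ := (hG.ver y).1 (hTv y hy)
        refine ⟨y, mem_filter.2 ⟨mem_univ _, h1, ?_⟩⟩
        rw [if_neg h2]
        exact hy
      · intro y hy
        exact (mem_filter.1 hy).2.1
      · intro y hy z hyz
        obtain ⟨-, -, h2⟩ := mem_filter.1 hy
        refine mem_filter.2 ⟨mem_univ _, hP.vr hyz, ?_⟩
        by_cases hyv : y = v
        · subst hyv
          rw [if_pos rfl] at h2
          have hzv : z ≠ y := hyz.1.symm
          rw [if_neg hzv]
          by_cases hzu : z = u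
          · rw [hzu]
            exact h2
          · exact hTc u h2 z ((hG.edg u z).2 ⟨huv', hzv, fun h => hzu h.symm,
              Or.inr (Or.inl ⟨rfl, hyz⟩)⟩)
        · rw [if_neg hyv] at h2
          by_cases hzv : z = v
          · subst hzv
            rw [if_pos rfl]
            by_cases hyu : y = u
            · rw [← hyu]
              exact h2
            · exact hTc y h2 u ((hG.edg y u).2 ⟨hyv, huv', hyu,
                Or.inr (Or.inr ⟨rfl, hyz.symm⟩)⟩)
          · rw [if_neg hzv]
            exact hTc y h2 z ((hG.edg y z).2 ⟨hyv, hzv, hyz.1, Or.inl hyz⟩)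
    obtain ⟨h1, h2⟩ := (hG.ver y).1 hy
    have h3 := key y h1
    rw [if_neg h2] at h3
    exact h3

end Pool.Agent.H14.CL
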