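import Pool.Agent.H14.CL.Stm4

/-!
Project CL, fourth part, row A10: the graph of the contraction.
-/

set_option autoImplicit false

namespace Pool.Agent.H14.CL

open Finset

/-- faces of the contraction -/
private theorem ce_mem {n : ℕ} {L : Finset (Finset (Fin n))} {u v : Fin n}
    {G : Finset (Fin n)} : G ∈ contr L u v ↔
      (∃ F ∈ L, v ∉ F ∧ F = G) ∨ (∃ F ∈ L, v ∈ F ∧ insert u (F.erase v) = G) := by
  unfold contr
  rw [mem_image]
  constructor
  · rintro ⟨F, hF, h⟩
    by_cases hv : v ∈ F
    · rw [if_pos hv] at h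
      exact Or.inr ⟨F, hF, hv, h⟩
    · rw [if_neg hv] at h
      exact Or.inl ⟨F, hF, hv, h⟩
  · rintro (⟨F, hF, hv, h⟩ | ⟨F, hF, hv, h⟩)
    · exact ⟨F, hF, by rw [if_neg hv]; exact h⟩
    · exact ⟨F, hF, by rw [if_pos hv]; exact h⟩

/-- the other vertex -/
private theorem ce_two {n : ℕ} {L : Finset (Finset (Fin n))} {u v : Fin n} (hd : Down L)
    {F : Finset (Fin n)} (hF : F ∈ L) (hv : v ∈ F) {y : Fin n} (hyu : y ≠ u)
    (hy : y ∈ insert u (F.erase v)) : Ed L v y := by
  rw [mem_insert, mem_erase] at hy
  rcases hy with hy | ⟨h1, h2⟩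
  · exact absurd hy hyu
  · refine ⟨h1.symm, hd _ hF _ ?_⟩
    intro x hx
    rw [mem_insert, mem_singleton] at hx
    rcases hx with rfl | rfl
    · exact hv
    · exact h2

private theorem ce_ins {n : ℕ} {L : Finset (Finset (Fin n))} {u v : Fin n}
    {x y : Fin n} (hyv : y ≠ v) (h : x = u ∧ Ed L v y) : ({x, y} : Finset (Fin n)) ∈ contr L u v := by
  rw [ce_mem]
  right
  refine ⟨{v, y}, h.2.2, mem_insert_self _ _, ?_⟩
  ext z
  simp only [mem_insert, mem_erase, mem_singleton]
  rw [h.1]
  constructor
  · rintro (h1 | ⟨h1, h2 | h2⟩)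
    · exact Or.inl h1
    · exact absurd h2 h1
    · exact Or.inr h2
  · rintro (h1 | h1)
    · exact Or.inl h1
    · exact Or.inr ⟨by rw [h1]; exact hyv, Or.inr h1⟩

/-- A10: the graph of the contraction -/
theorem st_ctrE : StCtrE := by
  intro n L u v hL huv
  have huv' : u ≠ v := huv.1
  constructor
  · intro x
    constructor
    · intro hx
      rw [ce_mem] at hx
      rcases hx with ⟨F, hF, hv, rfl⟩ | ⟨F, hF, hv, h⟩
      · exact ⟨hF, fun h => hv (by rw [h]; exact mem_singleton_self v)⟩
      · have h1 : u ∈ ({x} : Finset (Fin n)) := by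
          rw [← h]
          exact mem_insert_self _ _
        have h2 : u = x := mem_singleton.1 h1
        subst h2
        exact ⟨hL.vl huv, huv'⟩
    · rintro ⟨h1, h2⟩
      rw [ce_mem]
      exact Or.inl ⟨{x}, h1, fun h => h2 (mem_singleton.1 h).symm, rfl⟩
  · intro x y
    constructor
    · rintro ⟨hxy, hx⟩
      rw [ce_mem] at hx
      rcases hx with ⟨F, hF, hv, rfl⟩ | ⟨F, hF, hv, h⟩
      · refine ⟨fun h => hv (by rw [h]; exact mem_insert_self _ _),
          fun h => hv (by rw [h]; exact mem_insert_of_mem (mem_singleton_self _)), hxy,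
          Or.inl ⟨hxy, hF⟩⟩
      · have hvn : v ∉ insert u (F.erase v) := by
          rw [mem_insert, mem_erase]
          rintro (h1 | h1)
          · exact huv' h1.symm
          · exact h1.1 rfl
        have hxm : x ∈ insert u (F.erase v) := by
          rw [h]
          exact mem_insert_self _ _
        have hym : y ∈ insert u (F.erase v) := by
          rw [h]
          exact mem_insert_of_mem (mem_singleton_self _)
        have hum : u ∈ ({x, y} : Finset (Fin n)) := by
          rw [← h]
          exact mem_insert_self _ _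
        refine ⟨fun h1 => hvn (by rw [h1] at hxm; exact hxm),
          fun h1 => hvn (by rw [h1] at hym; exact hym), hxy, Or.inr ?_⟩
        rw [mem_insert, mem_singleton] at hum
        rcases hum with h1 | h1
        · left
          exact ⟨h1.symm, ce_two hL.down hF hv (fun h2 => hxy (h1.symm.trans h2.symm)) hym⟩
        · right
          exact ⟨h1.symm, ce_two hL.down hF hv (fun h2 => hxy (h2.trans h1)) hxm⟩
    · rintro ⟨hxv, hyv, hxy, h⟩
      refine ⟨hxy, ?_⟩
      rcases h with h | h | h
      · rw [ce_mem]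
        refine Or.inl ⟨{x, y}, h.2, fun h1 => ?_, rfl⟩
        rw [mem_insert, mem_singleton] at h1
        rcases h1 with h1 | h1
        · exact hxv h1.symm
        · exact hyv h1.symm
      · exact ce_ins hyv h
      · rw [Finset.pair_comm]
        exact ce_ins hxv h

end Pool.Agent.H14.CL
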