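import Pool.Agent.H14.CL.Blk
import Pool.Agent.H14.CL.ChA

/-!
Project CL, part 2, row D4: doubling a vertex.
-/

set_option autoImplicit false

namespace Pool.Agent.H14.CL

open Finset

section dbl

variable {n : ℕ} {K : Type*} [Field K] {S : Type*} [AddCommGroup S] [Module K S]

/-- boundary of a cone -/
theorem dbl_bd_con (u : Fin n) (y : Finset (Fin n) → S) :
    bd K (con K u y) = y - con K u (bd K y) := by
  funext G
  rw [bd_apply, Pi.sub_apply, con_apply]
  by_cases hu : u ∈ G
  · obtain ⟨H, hH, rfl⟩ : ∃ H, u ∉ H ∧ G = insert u H :=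
      ⟨G.erase u, notMem_erase _ _, (insert_erase hu).symm⟩
    rw [if_pos hu, erase_insert hH, tau_insert_self, bd_apply]
    have hs : univ.filter (fun w => w ∉ H) = insert u (univ.filter fun w => w ∉ insert u H) := by
      ext w
      simp only [mem_filter, mem_univ, true_and, mem_insert, not_or]
      constructor
      · intro h
        by_cases hw : w = u
        · exact Or.inl hw
        · exact Or.inr ⟨hw, h⟩
      · rintro (h | h)
        · rw [h]; exact hH
        · exact h.2
    have hn : u ∉ univ.filter fun w => w ∉ insert u H := by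
      simp
    rw [hs, Finset.sum_insert hn, smul_add, smul_smul, tau_sq, one_smul, sub_add_eq_sub_sub,
      sub_self, zero_sub, Finset.smul_sum, ← Finset.sum_neg_distrib]
    refine Finset.sum_congr rfl fun w hw => ?_
    simp only [mem_filter, mem_univ, true_and, mem_insert, not_or] at hw
    obtain ⟨hwu, hwH⟩ := hw
    have h1 : u ∈ insert w (insert u H) := mem_insert_of_mem (mem_insert_self _ _)
    have h2 : u ∉ insert w H := by
      rw [mem_insert, not_or]
      exact ⟨fun h => hwu h.symm, hH⟩
    rw [con_apply, if_pos h1, Finset.insert_comm w u H, erase_insert h2, tau_insert_self,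
      smul_smul, smul_smul, ← neg_smul]
    congr 1
    have h3 := tau_swap' K hwu hwH hH
    linear_combination h3
  · rw [if_neg hu, sub_zero, Finset.sum_eq_single u]
    · rw [con_apply, if_pos (mem_insert_self _ _), erase_insert hu, tau_insert_self, smul_smul,
        tau_sq, one_smul]
    · intro w _ hw
      rw [con_apply, if_neg, smul_zero]
      rw [mem_insert, not_or]
      exact ⟨fun h => hw h.symm, hu⟩
    · intro h
      exact absurd (by simp [hu]) h

variable (K) in
/-- the push forward to the contraction -/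
def dblPi (u v : Fin n) : (Finset (Fin n) → S) →ₗ[K] (Finset (Fin n) → S) :=
  LinearMap.id - con K v ∘ₗ res K v + con K u ∘ₗ res K v

theorem dblPi_apply (u v : Fin n) (x : Finset (Fin n) → S) :
    dblPi K u v x = x - con K v (res K v x) + con K u (res K v x) := rfl

theorem dblPi_bd (u v : Fin n) (x : Finset (Fin n) → S) :
    bd K (dblPi K u v x) = dblPi K u v (bd K x) := by
  have h1 : bd K (res K v x) = - res K v (bd K x) := bd_res v x
  rw [dblPi_apply, dblPi_apply, map_add, map_sub, dbl_bd_con, dbl_bd_con, h1, map_neg, map_neg]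
  abel

theorem dblPi_v {u v : Fin n} (huv : u ≠ v) (x : Finset (Fin n) → S) {G : Finset (Fin n)}
    (hv : v ∈ G) : dblPi K u v x G = 0 := by
  rw [dblPi_apply, Pi.add_apply, Pi.sub_apply, con_apply, if_pos hv, res_apply,
    if_neg (notMem_erase _ _), insert_erase hv, tau_erase_self, smul_smul, tau_sq, one_smul,
    sub_self, zero_add, con_apply]
  split_ifs with hu
  · rw [res_apply, if_pos (mem_erase.2 ⟨huv.symm, hv⟩), smul_zero]
  · rfl

theorem dblPi_0 {u v : Fin n} (x : Finset (Fin n) → S) {G : Finset (Fin n)}
    (hv : v ∉ G) (hu : u ∉ G) : dblPi K u v x G = x G := by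
  rw [dblPi_apply, Pi.add_apply, Pi.sub_apply, con_apply, if_neg hv, con_apply, if_neg hu,
    sub_zero, add_zero]

theorem dblPi_u {u v : Fin n} (x : Finset (Fin n) → S) {H : Finset (Fin n)} (huv : u ≠ v)
    (hv : v ∉ H) (hu : u ∉ H) : dblPi K u v x (insert u H) =
      x (insert u H) + (tau K u H * tau K v H) • x (insert v H) := by
  have h1 : v ∉ insert u H := by
    rw [mem_insert, not_or]
    exact ⟨huv.symm, hv⟩
  rw [dblPi_apply, Pi.add_apply, Pi.sub_apply, con_apply, if_neg h1, con_apply,
    if_pos (mem_insert_self _ _), sub_zero, erase_insert hu, tau_insert_self, res_apply,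
    if_neg hv, smul_smul]

/-! ### the contraction -/

theorem mem_contr {L : Finset (Finset (Fin n))} {u v : Fin n} {G : Finset (Fin n)} :
    G ∈ contr L u v ↔ ∃ F ∈ L, (if v ∈ F then insert u (F.erase v) else F) = G := by
  unfold contr
  rw [mem_image]

theorem contr_v {L : Finset (Finset (Fin n))} {u v : Fin n} (huv : u ≠ v) {G : Finset (Fin n)}
    (h : G ∈ contr L u v) : v ∉ G := by
  obtain ⟨F, _, hG⟩ := mem_contr.1 h
  rw [← hG]
  split_ifs with hv
  · rw [mem_insert, not_or]
    exact ⟨huv.symm, notMem_erase _ _⟩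
  · exact hv

theorem contr_of_mem {L : Finset (Finset (Fin n))} {u v : Fin n} {G : Finset (Fin n)}
    (hv : v ∉ G) (h : G ∈ L) : G ∈ contr L u v :=
  mem_contr.2 ⟨G, h, if_neg hv⟩

theorem contr_of_mem' {L : Finset (Finset (Fin n))} {u v : Fin n} {H : Finset (Fin n)}
    (hv : v ∉ H) (h : insert v H ∈ L) : insert u H ∈ contr L u v :=
  mem_contr.2 ⟨insert v H, h, by rw [if_pos (mem_insert_self _ _), erase_insert hv]⟩

theorem contr_0 {L : Finset (Finset (Fin n))} {u v : Fin n} {G : Finset (Fin n)}
    (h : G ∈ contr L u v) (hu : u ∉ G) : G ∈ L := by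
  obtain ⟨F, hF, hG⟩ := mem_contr.1 h
  by_cases hv : v ∈ F
  · rw [if_pos hv] at hG
    exact absurd (hG ▸ mem_insert_self _ _) hu
  · rw [if_neg hv] at hG
    rwa [← hG]

theorem contr_u {L : Finset (Finset (Fin n))} (hd : Down L) {u v : Fin n}
    {H : Finset (Fin n)} (hu : u ∉ H) (h : insert u H ∈ contr L u v) :
    insert u H ∈ L ∨ insert v H ∈ L := by
  obtain ⟨F, hF, hG⟩ := mem_contr.1 h
  by_cases hv : v ∈ F
  · rw [if_pos hv] at hG
    by_cases huF : u ∈ F.erase v
    · left
      rw [insert_eq_of_mem huF] at hG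
      rw [← hG]
      exact hd _ hF _ (erase_subset _ _)
    · right
      have h1 : F.erase v = H := by
        rw [← erase_insert huF, hG, erase_insert hu]
      rw [← h1, insert_erase hv]
      exact hF
  · rw [if_neg hv] at hG
    left
    rwa [← hG]

theorem dbl_KK {U : Submodule K S} {e : Fin n → S →ₗ[K] S} {u v : Fin n}
    (h : ∀ x ∈ U, e v x = e u x) (H : Finset (Fin n)) :
    KK U e (insert v H) = KK U e (insert u H) := by
  ext x
  simp only [mem_KK, mem_insert]
  constructor
  · rintro ⟨h1, h2⟩
    refine ⟨h1, fun w hw => ?_⟩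
    rcases hw with rfl | hw
    · rw [← h x h1]
      exact h2 v (Or.inl rfl)
    · exact h2 w (Or.inr hw)
  · rintro ⟨h1, h2⟩
    refine ⟨h1, fun w hw => ?_⟩
    rcases hw with rfl | hw
    · rw [h x h1]
      exact h2 u (Or.inl rfl)
    · exact h2 w (Or.inr hw)

theorem dblPi_mem {L : Finset (Finset (Fin n))} {U : Submodule K S} {e : Fin n → S →ₗ[K] S}
    {u v : Fin n} (huv : u ≠ v) (h : ∀ x ∈ U, e v x = e u x) {j : ℕ}
    {x : Finset (Fin n) → S} (hx : x ∈ Ch L U e univ j) :
    dblPi K u v x ∈ Ch (contr L u v) U e univ j := by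
  rw [mem_Ch] at hx ⊢
  intro G
  by_cases hv : v ∈ G
  · rw [dblPi_v huv x hv]
    exact ⟨Submodule.zero_mem _, fun _ => rfl⟩
  by_cases hu : u ∈ G
  · obtain ⟨H, hH, rfl⟩ : ∃ H, u ∉ H ∧ G = insert u H :=
      ⟨G.erase u, notMem_erase _ _, (insert_erase hu).symm⟩
    have hvH : v ∉ H := fun h1 => hv (mem_insert_of_mem h1)
    rw [dblPi_u x huv hvH hH]
    constructor
    · refine Submodule.add_mem _ (hx _).1 (Submodule.smul_mem _ _ ?_)
      rw [← dbl_KK h]
      exact (hx _).1
    · intro h1
      rw [(hx (insert u H)).2, (hx (insert v H)).2, smul_zero, add_zero]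
      · rintro ⟨h2, h3, h4⟩
        refine h1 ⟨contr_of_mem' hvH h2, subset_univ _, ?_⟩
        rw [card_insert_of_notMem hH, ← card_insert_of_notMem hvH]
        exact h4
      · rintro ⟨h2, h3, h4⟩
        exact h1 ⟨contr_of_mem hv h2, subset_univ _, h4⟩
  · rw [dblPi_0 x hv hu]
    exact ⟨(hx G).1, fun h1 => (hx G).2 fun h2 =>
      h1 ⟨contr_of_mem hv h2.1, subset_univ _, h2.2.2⟩⟩

/-- a section of the push forward -/
noncomputable def dblSec (L : Finset (Finset (Fin n))) (u v : Fin n)
    (y : Finset (Fin n) → S) : Finset (Fin n) → S := fun G =>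
  if v ∈ G then
    (if u ∉ G ∧ insert u (G.erase v) ∉ L then
      (tau K u (G.erase v) * tau K v (G.erase v)) • y (insert u (G.erase v)) else 0)
  else if G ∈ L then y G else 0

theorem dblSec_mem {L : Finset (Finset (Fin n))} (hd : Down L) {U : Submodule K S}
    {e : Fin n → S →ₗ[K] S} {u v : Fin n} (h : ∀ x ∈ U, e v x = e u x) {j : ℕ}
    {y : Finset (Fin n) → S} (hy : y ∈ Ch (contr L u v) U e univ j) :
    dblSec (K := K) L u v y ∈ Ch L U e univ j := by
  rw [mem_Ch] at hy ⊢
  intro G
  unfold dblSec
  by_cases hv : v ∈ G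
  · rw [if_pos hv]
    obtain ⟨H, hH, rfl⟩ : ∃ H, v ∉ H ∧ G = insert v H :=
      ⟨G.erase v, notMem_erase _ _, (insert_erase hv).symm⟩
    rw [erase_insert hH]
    by_cases h1 : u ∉ insert v H ∧ insert u H ∉ L
    · rw [if_pos h1]
      have huH : u ∉ H := fun h2 => h1.1 (mem_insert_of_mem h2)
      constructor
      · refine Submodule.smul_mem _ _ ?_
        rw [dbl_KK h]
        exact (hy _).1
      · intro h2
        rw [(hy (insert u H)).2, smul_zero]
        rintro ⟨h3, h4, h5⟩
        refine h2 ⟨(contr_u hd huH h3).resolve_left h1.2, subset_univ _, ?_⟩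
        rw [card_insert_of_notMem hH, ← card_insert_of_notMem huH]
        exact h5
    · rw [if_neg h1]
      exact ⟨Submodule.zero_mem _, fun _ => rfl⟩
  · rw [if_neg hv]
    by_cases hG : G ∈ L
    · rw [if_pos hG]
      exact ⟨(hy G).1, fun h1 => (hy G).2 fun h2 => h1 ⟨hG, subset_univ _, h2.2.2⟩⟩
    · rw [if_neg hG]
      exact ⟨Submodule.zero_mem _, fun _ => rfl⟩

theorem dblSec_pi {L : Finset (Finset (Fin n))} {U : Submodule K S}
    {e : Fin n → S →ₗ[K] S} {u v : Fin n} (huv : u ≠ v) {j : ℕ}
    {y : Finset (Fin n) → S} (hy : y ∈ Ch (contr L u v) U e univ j) :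
    dblPi K u v (dblSec (K := K) L u v y) = y := by
  rw [mem_Ch] at hy
  funext G
  by_cases hv : v ∈ G
  · rw [dblPi_v huv _ hv, (hy G).2]
    exact fun h => contr_v huv h.1 hv
  by_cases hu : u ∈ G
  · obtain ⟨H, hH, rfl⟩ : ∃ H, u ∉ H ∧ G = insert u H :=
      ⟨G.erase u, notMem_erase _ _, (insert_erase hu).symm⟩
    have hvH : v ∉ H := fun h1 => hv (mem_insert_of_mem h1)
    have huv' : u ∉ insert v H := by
      rw [mem_insert, not_or]
      exact ⟨huv, hH⟩
    rw [dblPi_u _ huv hvH hH]
    unfold dblSec
    rw [if_neg hv, if_pos (mem_insert_self v H), erase_insert hvH]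
    by_cases hG : insert u H ∈ L
    · rw [if_pos hG, if_neg (fun h => h.2 hG), smul_zero, add_zero]
    · rw [if_neg hG, if_pos ⟨huv', hG⟩, smul_smul, zero_add]
      have h1 : tau K u H * tau K v H * (tau K u H * tau K v H) = 1 := by
        have h2 := tau_sq K u H
        have h3 := tau_sq K v H
        linear_combination (tau K v H * tau K v H) * h2 + h3
      rw [h1, one_smul]
  · rw [dblPi_0 _ hv hu]
    unfold dblSec
    rw [if_neg hv]
    split_ifs with hG
    · rfl
    · rw [(hy G).2]
      exact fun h => hG (contr_0 h.1 hu)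

/-- closed chains in the kernel are boundaries -/
theorem dbl_ker {L : Finset (Finset (Fin n))} (hd : Down L) (hf : Flag L) {U : Submodule K S}
    {e : Fin n → S →ₗ[K] S} {u v : Fin n} (huv : u ≠ v)
    (hL : ({u, v} : Finset (Fin n)) ∈ L) (h : ∀ x ∈ U, e v x = e u x) {j : ℕ}
    {x : Finset (Fin n) → S} (hx : x ∈ Ch L U e univ j) (hc : bd K x = 0)
    (hp : dblPi K u v x = 0) : Bd L U e univ j x := by
  rw [mem_Ch] at hx
  have hx0 : ∀ G, v ∉ G → u ∉ G → x G = 0 := by
    intro G hv hu
    rw [← dblPi_0 (K := K) x hv hu, hp, Pi.zero_apply]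
  have hxu : ∀ H, u ∉ H → v ∉ H →
      x (insert u H) + (tau K u H * tau K v H) • x (insert v H) = 0 := by
    intro H hu hv
    rw [← dblPi_u x huv hv hu, hp, Pi.zero_apply]
  have hsq : ∀ H, tau K u H * tau K v H * (tau K u H * tau K v H) = 1 := by
    intro H
    have h2 := tau_sq K u H
    have h3 := tau_sq K v H
    linear_combination (tau K v H * tau K v H) * h2 + h3
  have hxv : ∀ H, u ∉ H → v ∉ H →
      x (insert v H) = - ((tau K u H * tau K v H) • x (insert u H)) := by
    intro H hu hv
    have h1 := congrArg (fun t => (tau K u H * tau K v H) • t) (hxu H hu hv)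
    simp only [smul_add, smul_smul, hsq, one_smul, smul_zero] at h1
    exact eq_neg_of_add_eq_zero_right h1
  refine ⟨con K v (con K u (res K u x)), ?_, ?_⟩
  · rw [mem_Ch]
    intro G
    rw [con_apply]
    by_cases hv : v ∈ G
    · rw [if_pos hv]
      obtain ⟨F, hF, rfl⟩ : ∃ F, v ∉ F ∧ G = insert v F :=
        ⟨G.erase v, notMem_erase _ _, (insert_erase hv).symm⟩
      rw [erase_insert hF, con_apply]
      by_cases hu : u ∈ F
      · rw [if_pos hu]
        obtain ⟨H, hH, rfl⟩ : ∃ H, u ∉ H ∧ F = insert u H :=
          ⟨F.erase u, notMem_erase _ _, (insert_erase hu).symm⟩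
        have hvH : v ∉ H := fun h1 => hF (mem_insert_of_mem h1)
        rw [erase_insert hH, res_apply, if_neg hH]
        have hxm : x (insert u H) ∈ KK U e (insert v (insert u H)) := by
          have h1 := (hx (insert u H)).1
          refine ⟨h1.1, fun w hw => ?_⟩
          rcases mem_insert.1 hw with rfl | hw
          · rw [h _ h1.1]
            exact h1.2 u (mem_insert_self _ _)
          · exact h1.2 w hw
        refine ⟨Submodule.smul_mem _ _ (Submodule.smul_mem _ _ (Submodule.smul_mem _ _ hxm)),
          fun h1 => ?_⟩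
        have h2 : x (insert u H) = 0 := by
          by_contra h3
          have h4 : insert u H ∈ L ∧ insert u H ⊆ univ ∧ (insert u H).card = j := by
            by_contra h5
            exact h3 ((hx _).2 h5)
          have h5 : insert v H ∈ L := by
            by_contra h6
            have h7 : x (insert v H) = 0 := (hx _).2 fun h8 => h6 h8.1
            have h8 := hxu H hH hvH
            rw [h7, smul_zero, add_zero] at h8
            exact h3 h8
          apply h1
          refine ⟨?_, subset_univ _, ?_⟩
          · apply hf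
            intro a ha b hb
            rw [mem_insert] at ha hb
            rcases ha with rfl | ha
            · rcases hb with rfl | hb
              · exact hd _ h5 _ (by simp)
              · rcases mem_insert.1 hb with rfl | hb
                · rw [Finset.pair_comm]
                  exact hL
                · refine hd _ h5 _ ?_
                  intro w hw
                  rw [mem_insert, mem_singleton] at hw
                  rcases hw with rfl | rfl
                  · exact mem_insert_self _ _
                  · exact mem_insert_of_mem hb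
            · rcases hb with rfl | hb
              · rcases mem_insert.1 ha with rfl | ha
                · exact hL
                · refine hd _ h5 _ ?_
                  intro w hw
                  rw [mem_insert, mem_singleton] at hw
                  rcases hw with rfl | rfl
                  · exact mem_insert_of_mem ha
                  · exact mem_insert_self _ _
              · refine hd _ h4.1 _ ?_
                intro w hw
                rw [mem_insert, mem_singleton] at hw
                rcases hw with rfl | rfl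
                · exact ha
                · exact hb
          · rw [card_insert_of_notMem hF, h4.2.2]
        rw [h2, smul_zero, smul_zero, smul_zero]
      · rw [if_neg hu, smul_zero]
        exact ⟨Submodule.zero_mem _, fun _ => rfl⟩
    · rw [if_neg hv]
      exact ⟨Submodule.zero_mem _, fun _ => rfl⟩
  · have h1 : bd K (res K u x) = 0 := by rw [bd_res, hc, map_zero, neg_zero]
    rw [dbl_bd_con, dbl_bd_con, h1, map_zero, sub_zero]
    funext G
    rw [Pi.sub_apply, con_apply, con_apply]
    by_cases hu : u ∈ G
    · rw [if_pos hu, res_apply, if_neg (notMem_erase _ _), insert_erase hu, tau_erase_self,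
        smul_smul, tau_sq, one_smul]
      split_ifs with hv
      · rw [res_apply, if_pos (mem_erase.2 ⟨huv, hu⟩), smul_zero, sub_zero]
      · rw [sub_zero]
    · rw [if_neg hu, zero_sub]
      split_ifs with hv
      · obtain ⟨H, hH, rfl⟩ : ∃ H, v ∉ H ∧ G = insert v H :=
          ⟨G.erase v, notMem_erase _ _, (insert_erase hv).symm⟩
        have huH : u ∉ H := fun h2 => hu (mem_insert_of_mem h2)
        rw [erase_insert hH, res_apply, if_neg huH, tau_insert_self, smul_smul,
          hxv H huH hH, mul_comm]
      · rw [neg_zero, hx0 G hv hu]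

end dbl

theorem st_dbl : StDbl := by
  intro n K S _ _ _ L U e u v hd hf huv hL h hex j x hx hc
  have h1 : dblPi K u v x ∈ Ch (contr L u v) U e univ j := dblPi_mem huv h hx
  obtain ⟨y, hy, hyb⟩ := hex j (dblPi K u v x) h1 (by rw [dblPi_bd, hc, map_zero])
  have h2 := dblSec_mem (K := K) hd h hy
  have h3 := dblSec_pi (K := K) huv hy
  obtain ⟨z, hz⟩ : ∃ z, z = dblSec (K := K) L u v y := ⟨_, rfl⟩
  rw [← hz] at h2 h3
  have h4 : x - bd K z ∈ Ch L U e univ j := Submodule.sub_mem _ hx (bd_mem_Ch hd h2)
  obtain ⟨w, hw, hwb⟩ := dbl_ker hd hf huv hL h h4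
    (by rw [map_sub, hc, bd_bd, sub_zero])
    (by rw [map_sub, ← dblPi_bd, h3, hyb, sub_self])
  refine ⟨w + z, Submodule.add_mem _ hw h2, ?_⟩
  rw [map_add, hwb, sub_add_cancel]

end Pool.Agent.H14.CL
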