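import Pool.Agent.H14.CL.Stm3
import Pool.Agent.H14.CL.ChA
import Pool.Agent.H14.CL.Dbl

/-!
Project CL, part 3, row F7: splitting a vertex, with an index (helper63).
-/

set_option autoImplicit false

namespace Pool.Agent.H14.CL

open Finset

section

variable {n : ℕ} {K : Type*} [Field K] {S : Type*} [AddCommGroup S] [Module K S]

theorem splK_bd (f : S →ₗ[K] S) (x : Finset (Fin n) → S) :
    bd K (fun G => f (x G)) = fun G => f (bd K x G) := by
  funext G
  rw [bd_apply, bd_apply, map_sum]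
  exact Finset.sum_congr rfl fun u _ => by rw [map_smul]

theorem splK_down {L : Finset (Finset (Fin n))} (hd : Down L) (u v : Fin n) :
    Down (contr L u v) := by
  intro G hG G' hG'
  obtain ⟨F, hF, hFG⟩ := mem_contr.1 hG
  by_cases hv : v ∈ F
  · rw [if_pos hv] at hFG
    subst hFG
    by_cases huv : v ∈ G'
    · -- then `v = u`
      have h1 := hG' huv
      rw [mem_insert] at h1
      rcases h1 with h1 | h1
      · subst h1
        rw [insert_erase hv] at hG'
        refine mem_contr.2 ⟨G', hd _ hF _ hG', ?_⟩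
        rw [if_pos huv, insert_erase huv]
      · exact absurd h1 (notMem_erase _ _)
    · by_cases hu : u ∈ G'
      · refine mem_contr.2 ⟨insert v (G'.erase u), hd _ hF _ ?_, ?_⟩
        · intro w hw
          rw [mem_insert] at hw
          rcases hw with hw | hw
          · rw [hw]
            exact hv
          · rw [mem_erase] at hw
            have h2 := hG' hw.2
            rw [mem_insert] at h2
            rcases h2 with h2 | h2
            · exact absurd h2 hw.1
            · exact (mem_erase.1 h2).2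
        · rw [if_pos (mem_insert_self _ _), erase_insert, insert_erase hu]
          intro h
          exact huv (mem_erase.1 h).2
      · refine contr_of_mem huv (hd _ hF _ fun w hw => ?_)
        have h2 := hG' hw
        rw [mem_insert] at h2
        rcases h2 with h2 | h2
        · exact absurd (h2 ▸ hw) hu
        · exact (mem_erase.1 h2).2
  · rw [if_neg hv] at hFG
    subst hFG
    exact contr_of_mem (fun h => hv (hG' h)) (hd _ hF _ hG')

theorem splK_vert {L : Finset (Finset (Fin n))} (hd : Down L) {u v w : Fin n} (huv : u ≠ v)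
    (hL : ({u, v} : Finset (Fin n)) ∈ L) (h : ({w} : Finset (Fin n)) ∈ contr L u v) :
    ({w} : Finset (Fin n)) ∈ L ∧ w ≠ v := by
  refine ⟨?_, fun h1 => contr_v huv h (by rw [h1]; exact mem_singleton_self _)⟩
  by_cases hw : u = w
  · rw [← hw]
    exact hd _ hL _ (singleton_subset_iff.2 (mem_insert_self _ _))
  · exact contr_0 h fun h1 => hw (mem_singleton.1 h1)

end

theorem st_splitOpK (h1 : StKzK) (h2 : StDblK) (h3 : StOffK) : StSplitOpK := by
  intro n k K S _ _ _ L e r m mu u v hd hf huv huvL hev hrr hrm hrmu hre hme hmue hmuu huu hwu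
    H1 H2
  have hu : ({u} : Finset (Fin n)) ∈ L :=
    hd _ huvL _ (singleton_subset_iff.2 (mem_insert_self _ _))
  -- the kernel of `r`
  have hker : ∀ x, x ∈ LinearMap.ker r ↔ x ∈ (⊤ : Submodule K S) ∧ r x = 0 := fun x =>
    ⟨fun h => ⟨trivial, h⟩, fun h => h.2⟩
  have hz : ∀ x ∈ (⊤ : Submodule K S), r x ∈ (⊤ : Submodule K S) ∧ m x ∈ (⊤ : Submodule K S) ∧
      r (r x) = 0 ∧ r (m x) + m (r x) = x := fun x _ => ⟨trivial, trivial, hrr x, hrm x⟩
  have hevU : ∀ x ∈ LinearMap.ker r, e v x = e u x := by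
    intro x hx
    rw [hev, LinearMap.mem_ker.1 hx, add_zero]
  -- (a)
  have hA : ∀ j, k ≤ j → Ex L (LinearMap.ker r) e univ j := by
    refine h2 n k K S L (LinearMap.ker r) e u v hd hf huv huvL hevU ?_
    refine h1 n k K S (contr L u v) ⊤ (LinearMap.ker r) e r m (splK_down hd u v) hker hz ?_ H1
    intro w hw x _
    obtain ⟨hwL, hwv⟩ := splK_vert hd huv huvL hw
    exact ⟨hre w hwL x, hme w hwL hwv x⟩
  -- (b)
  have hM : Down (lk (lk L u) v) := down_lk (down_lk hd u) v
  have hMv : ∀ w, ({w} : Finset (Fin n)) ∈ lk (lk L u) v →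
      ({w} : Finset (Fin n)) ∈ L ∧ w ≠ u ∧ w ≠ v ∧ ({u, w} : Finset (Fin n)) ∈ L := by
    intro w hw
    have h4 := (lk_vertex (down_lk hd u)).1 hw
    have h5 := lk_vertex_sub hw
    have h6 := (lk_vertex hd).1 h5
    exact ⟨lk_vertex_sub h5, h6.1.symm, h4.1.symm, h6.2⟩
  have hB0 : ∀ j, k - 1 ≤ j → Ex (lk (lk L u) v) (LinearMap.ker r) e univ j := by
    refine h1 n (k - 1) K S (lk (lk L u) v) ⊤ (LinearMap.ker r) e r m hM hker hz ?_ H2
    intro w hw x _
    obtain ⟨hwL, _, hwv, _⟩ := hMv w hw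
    exact ⟨hre w hwL x, hme w hwL hwv x⟩
  have hB : ∀ j, k - 1 ≤ j → Ex (lk (lk L u) v) (KK (LinearMap.ker r) e {u}) e univ j := by
    refine h1 n (k - 1) K S (lk (lk L u) v) (LinearMap.ker r) (KK (LinearMap.ker r) e {u}) e
      (e u) mu hM ?_ ?_ ?_ hB0
    · intro x
      rw [mem_KK]
      exact ⟨fun h => ⟨h.1, h.2 u (mem_singleton_self u)⟩,
        fun h => ⟨h.1, fun w hw => by rw [mem_singleton.1 hw]; exact h.2⟩⟩
    · intro x hx
      have hx' : r x = 0 := hx
      refine ⟨?_, ?_, huu x, by rw [add_comm]; exact hmuu x⟩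
      · rw [LinearMap.mem_ker, hre u hu, hx', map_zero, neg_zero]
      · rw [LinearMap.mem_ker]
        have h4 := hrmu x
        rwa [hx', map_zero, add_zero] at h4
    · intro w hw x _
      obtain ⟨hwL, hwu', hwv, huw⟩ := hMv w hw
      refine ⟨?_, hmue w hwL hwu' hwv x⟩
      rw [hwu w huw hwu' hwv x, neg_neg]
  -- (c)
  intro j hj x hx hc
  rw [mem_Ch] at hx
  have hrx : (fun G => r (x G)) ∈ Ch L (LinearMap.ker r) e univ j := by
    rw [mem_Ch]
    intro G
    by_cases hG : G ∈ L ∧ G ⊆ univ ∧ G.card = j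
    · refine ⟨⟨LinearMap.mem_ker.2 (hrr _), fun w hw => ?_⟩, fun h => absurd hG h⟩
      have hwL : ({w} : Finset (Fin n)) ∈ L := hd _ hG.1 _ (singleton_subset_iff.2 hw)
      have h4 := hre w hwL (x G)
      rw [(hx G).1.2 w hw, map_zero] at h4
      exact neg_eq_zero.1 h4.symm
    · have h4 := (hx G).2 hG
      refine ⟨?_, fun _ => ?_⟩
      · show r (x G) ∈ KK (LinearMap.ker r) e G
        rw [h4, map_zero]
        exact Submodule.zero_mem _
      · show r (x G) = 0
        rw [h4, map_zero]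
  have hrc : bd K (fun G => r (x G)) = 0 := by
    rw [splK_bd, hc]
    funext G
    exact map_zero r
  have hroff : ∀ G, u ∈ G → v ∈ G → r (x G) = 0 := by
    intro G huG hvG
    have h4 := hev (x G)
    rw [(hx G).1.2 u huG, (hx G).1.2 v hvG, zero_add] at h4
    exact h4.symm
  obtain ⟨y, hy, hyoff, hyb⟩ := h3 n k K S L (LinearMap.ker r) e u v hd huv hevU hA hB j hj
    (fun G => r (x G)) hrx hrc hroff
  rw [mem_Ch] at hy
  have hry : ∀ G, r (y G) = 0 := fun G => (hy G).1.1
  have hrmy : ∀ G, r (m (y G)) = y G := by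
    intro G
    have h4 := hrm (y G)
    rwa [hry, map_zero, add_zero] at h4
  have hrmuy : ∀ G, r (mu (y G)) = 0 := by
    intro G
    have h4 := hrmu (y G)
    rwa [hry, map_zero, add_zero] at h4
  obtain ⟨yt, hyt⟩ : ∃ yt : Finset (Fin n) → S, yt = fun G =>
    if v ∈ G then m (y G) - mu (y G) else m (y G) := ⟨_, rfl⟩
  have hyt1 : ∀ G, v ∈ G → yt G = m (y G) - mu (y G) := fun G h => by rw [hyt]; exact if_pos h
  have hyt2 : ∀ G, v ∉ G → yt G = m (y G) := fun G h => by rw [hyt]; exact if_neg h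
  have hryt : ∀ G, r (yt G) = y G := by
    intro G
    by_cases hvG : v ∈ G
    · rw [hyt1 G hvG, map_sub, hrmy, hrmuy, sub_zero]
    · rw [hyt2 G hvG, hrmy]
  have hyt0 : ∀ G, y G = 0 → yt G = 0 := by
    intro G h
    by_cases hvG : v ∈ G
    · rw [hyt1 G hvG, h, map_zero, map_zero, sub_zero]
    · rw [hyt2 G hvG, h, map_zero]
  have hytC : yt ∈ Ch L ⊤ e univ (j + 1) := by
    rw [mem_Ch]
    intro G
    refine ⟨⟨trivial, fun w hw => ?_⟩, fun h => hyt0 G ((hy G).2 h)⟩
    by_cases hG0 : y G = 0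
    · rw [hyt0 G hG0, map_zero]
    have hG : G ∈ L ∧ G ⊆ univ ∧ G.card = j + 1 := by
      by_contra h
      exact hG0 ((hy G).2 h)
    have hwL : ({w} : Finset (Fin n)) ∈ L := hd _ hG.1 _ (singleton_subset_iff.2 hw)
    have hwy : e w (y G) = 0 := (hy G).1.2 w hw
    by_cases hvG : v ∈ G
    · have huG : u ∉ G := fun h => hG0 (hyoff G h hvG)
      have hwu' : w ≠ u := fun h => huG (h ▸ hw)
      rw [hyt1 G hvG]
      by_cases hwv : w = v
      · subst hwv
        have huy : e u (y G) = 0 := by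
          rw [← hevU (y G) (hy G).1.1]
          exact hwy
        have huv' : u ≠ w := hwu'.symm
        have h5 : e u (m (y G)) = 0 := by
          have h6 := hme u hu huv' (y G)
          rw [huy, map_zero] at h6
          exact neg_eq_zero.1 h6.symm
        have h6 : e u (mu (y G)) = y G := by
          have h7 := hmuu (y G)
          rwa [huy, map_zero, zero_add] at h7
        rw [hev, map_sub, map_sub, h5, h6, hrmy, hrmuy, zero_sub, sub_zero, neg_add_cancel]
      · have h5 : e w (m (y G)) = 0 := by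
          have h6 := hme w hwL hwv (y G)
          rw [hwy, map_zero] at h6
          exact neg_eq_zero.1 h6.symm
        have h6 : e w (mu (y G)) = 0 := by
          have h7 := hmue w hwL hwu' hwv (y G)
          rw [hwy, map_zero] at h7
          exact neg_eq_zero.1 h7.symm
        rw [map_sub, h5, h6, sub_zero]
    · have hwv : w ≠ v := fun h => hvG (h ▸ hw)
      rw [hyt2 G hvG]
      have h6 := hme w hwL hwv (y G)
      rw [hwy, map_zero] at h6
      exact neg_eq_zero.1 h6.symm
  have hbyt : bd K yt ∈ Ch L ⊤ e univ j := bd_mem_Ch hd hytC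
  have hw : x - bd K yt ∈ Ch L (LinearMap.ker r) e univ j := by
    have h4 : x - bd K yt ∈ Ch L ⊤ e univ j := Submodule.sub_mem _ (mem_Ch.2 hx) hbyt
    rw [mem_Ch] at h4 ⊢
    intro G
    refine ⟨⟨?_, (h4 G).1.2⟩, (h4 G).2⟩
    rw [LinearMap.mem_ker, Pi.sub_apply, map_sub]
    have h5 : (fun G => r (bd K yt G)) = fun G => r (x G) := by
      rw [← splK_bd, ← hyb]
      congr 1
      funext G
      exact hryt G
    have h6 : r (bd K yt G) = r (x G) := congrFun h5 G
    rw [h6, sub_self]
  obtain ⟨z, hz', hzb⟩ := hA j hj (x - bd K yt) hw (by rw [map_sub, hc, bd_bd, sub_zero])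
  refine ⟨z + yt, Submodule.add_mem _ ?_ hytC, ?_⟩
  · rw [mem_Ch] at hz' ⊢
    exact fun G => ⟨⟨trivial, (hz' G).1.2⟩, (hz' G).2⟩
  · rw [map_add, hzb, sub_add_cancel]

end Pool.Agent.H14.CL
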