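import Pool.Agent.H14.CL.Stm4
import Pool.Agent.H14.CL.SplitOpK

/-!
Project CL, part 4, row A9: the contraction is a flag complex (helper63).
-/

set_option autoImplicit false

namespace Pool.Agent.H14.CL

open Finset

/-- A9 -/
theorem st_ctrF : StCtrF := by
  intro n L u v hP huv hC
  have huv1 : u ≠ v := huv.1
  refine ⟨splK_down hP.down u v, ?_, ?_, ?_⟩
  · exact contr_of_mem (notMem_empty v) hP.emp
  · intro F hF
    have hvF : ∀ a ∈ F, a ≠ v := by
      intro a ha hav
      have h1 := contr_v huv1 (hF a ha a ha)
      rw [hav] at h1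
      exact h1 (mem_insert_self _ _)
    have hvF' : v ∉ F := fun h => hvF v h rfl
    have hpair : ∀ a ∈ F, ∀ b ∈ F, a ≠ u → b ≠ u → ({a, b} : Finset (Fin n)) ∈ L := by
      intro a ha b hb hau hbu
      refine contr_0 (hF a ha b hb) ?_
      rw [mem_insert, mem_singleton, not_or]
      exact ⟨hau.symm, hbu.symm⟩
    have hadj : ∀ z ∈ F, u ∈ F → z ≠ u →
        ({u, z} : Finset (Fin n)) ∈ L ∨ ({v, z} : Finset (Fin n)) ∈ L := by
      intro z hz hu hzu
      refine contr_u hP.down ?_ (hF u hu z hz)
      rw [mem_singleton]
      exact hzu.symm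
    have huL : ({u, u} : Finset (Fin n)) ∈ L := by
      rw [pair_eq_singleton]
      exact hP.vl huv
    have hvL : ({v, v} : Finset (Fin n)) ∈ L := by
      rw [pair_eq_singleton]
      exact hP.vr huv
    by_cases hu : u ∈ F
    · by_cases h1 : ∀ z ∈ F, z ≠ u → ({u, z} : Finset (Fin n)) ∈ L
      · refine contr_of_mem hvF' (hP.flag F fun a ha b hb => ?_)
        by_cases hau : a = u
        · subst hau
          by_cases hbu : b = a
          · rw [hbu]
            exact huL
          · exact h1 b hb hbu
        · by_cases hbu : b = u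
          · subst hbu
            rw [pair_comm]
            exact h1 a ha hau
          · exact hpair a ha b hb hau hbu
      · by_cases h2 : ∀ z ∈ F, z ≠ u → ({v, z} : Finset (Fin n)) ∈ L
        · have h3 : insert v (F.erase u) ∈ L := by
            refine hP.flag _ fun a ha b hb => ?_
            rw [mem_insert, mem_erase] at ha hb
            rcases ha with rfl | ⟨hau, ha⟩
            · rcases hb with rfl | ⟨hbu, hb⟩
              · exact hvL
              · exact h2 b hb hbu
            · rcases hb with rfl | ⟨hbu, hb⟩
              · rw [pair_comm]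
                exact h2 a ha hau
              · exact hpair a ha b hb hau hbu
          have h4 := contr_of_mem' (u := u) (fun h => hvF' (mem_erase.1 h).2) h3
          rwa [insert_erase hu] at h4
        · exfalso
          push Not at h1 h2
          obtain ⟨z, hz, hzu, hz1⟩ := h1
          obtain ⟨w, hw, hwu, hw1⟩ := h2
          have hz2 := (hadj z hz hu hzu).resolve_left hz1
          have hw2 := (hadj w hw hu hwu).resolve_right hw1
          have hzw : z ≠ w := by
            rintro rfl
            exact hw1 hz2
          refine hC z w ⟨huv, ⟨(hvF z hz).symm, hz2⟩, ⟨hzw, hpair z hz w hw hzu hwu⟩,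
            ⟨hwu, by rw [pair_comm]; exact hw2⟩, hzu.symm, (hvF w hw).symm,
            fun h => hz1 h.2, fun h => hw1 h.2⟩
    · refine contr_of_mem hvF' (hP.flag F fun a ha b hb => ?_)
      exact hpair a ha b hb (fun h => hu (h ▸ ha)) fun h => hu (h ▸ hb)
  · intro F hF
    obtain ⟨G, hG, hGF⟩ := mem_contr.1 hF
    have h1 := hP.le3 G hG
    rw [← hGF]
    split_ifs with hv
    · have h2 := card_insert_le u (G.erase v)
      rw [card_erase_of_mem hv] at h2
      have h3 : 0 < G.card := card_pos.2 ⟨v, hv⟩
      omega
    · exact h1

end Pool.Agent.H14.CL
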