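import Pool.Agent.H14.CL.Stm4

/-!
CL4-A13: the links of the contraction are connected.
-/

set_option autoImplicit false

namespace Pool.Agent.H14.CL

open Finset

theorem st_ctrLk (h : StCyc) : StCtrLk := by
  classical
  intro n L L' u v hP huv _ hG x T hT hTx hTc
  have hne : u ≠ v := huv.1
  by_cases hxv : x = v
  · obtain ⟨y, hy⟩ := hT
    exact absurd hxv ((hG.edg x y).1 (hTx y hy)).1
  by_cases hxu : x = u
  · subst hxu
    -- the link of `u`
    have key1 : ∀ y ∈ T, Ed L x y → ∀ z, Ed L x z → z ≠ v → z ∈ T := by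
      intro y hy hxy z hxz hz
      have := h n L x v hP huv (T.filter fun w => Ed L x w) ⟨y, mem_filter.2 ⟨hy, hxy⟩⟩
        (by
          intro w hw
          rw [mem_filter] at hw
          exact ⟨hw.2, ((hG.edg x w).1 (hTx w hw.1)).2.1⟩)
        (by
          intro w hw t ht htv hwt
          rw [mem_filter] at hw ⊢
          refine ⟨hTc w hw.1 t ((hG.edg x t).2 ⟨hne, htv, ht.1, Or.inl ht⟩)
            ((hG.edg w t).2 ⟨((hG.edg x w).1 (hTx w hw.1)).2.1, htv, hwt.1, Or.inl hwt⟩), ht⟩)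
        z hxz hz
      exact (mem_filter.1 this).1
    have key2 : ∀ y ∈ T, Ed L v y → ∀ z, Ed L v z → z ≠ x → z ∈ T := by
      intro y hy hxy z hxz hz
      have := h n L v x hP huv.symm (T.filter fun w => Ed L v w) ⟨y, mem_filter.2 ⟨hy, hxy⟩⟩
        (by
          intro w hw
          rw [mem_filter] at hw
          exact ⟨hw.2, ((hG.edg x w).1 (hTx w hw.1)).2.2.1.symm⟩)
        (by
          intro w hw t ht htv hwt
          rw [mem_filter] at hw ⊢
          refine ⟨hTc w hw.1 t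
            ((hG.edg x t).2 ⟨hne, ht.1.symm, htv.symm, Or.inr (Or.inl ⟨rfl, ht⟩)⟩)
            ((hG.edg w t).2 ⟨hw.2.1.symm, ht.1.symm, hwt.1, Or.inl hwt⟩), ht⟩)
        z hxz hz
      exact (mem_filter.1 this).1
    obtain ⟨c, -, -, hxc, hvc, -⟩ := hP.two x v huv
    have hcT : c ∈ T := by
      obtain ⟨y, hy⟩ := hT
      obtain ⟨-, hyv, hxy, h1 | ⟨-, h1⟩ | ⟨h1, -⟩⟩ := (hG.edg x y).1 (hTx y hy)
      · exact key1 y hy h1 c hxc hvc.1.symm
      · exact key2 y hy h1 c hvc hxc.1.symm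
      · exact absurd h1.symm hxy
    intro y hy
    obtain ⟨-, hyv, hxy, h1 | ⟨-, h1⟩ | ⟨h1, -⟩⟩ := (hG.edg x y).1 hy
    · exact key1 c hcT hxc y h1 hyv
    · exact key2 c hcT hvc y h1 hxy.symm
    · exact absurd h1.symm hxy
  · -- the link of `x`
    set π : Fin n → Fin n := fun z => if z = v then u else z with hπ
    have hπv : π v = u := if_pos rfl
    have hπn : ∀ z, z ≠ v → π z = z := fun z hz => if_neg hz
    have hπx : ∀ z, Ed L x z → Ed L' x (π z) := by
      intro z hz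
      by_cases hzv : z = v
      · subst hzv
        rw [hπv]
        exact (hG.edg x u).2 ⟨hxv, hne, hxu, Or.inr (Or.inr ⟨rfl, hz.symm⟩)⟩
      · rw [hπn z hzv]
        exact (hG.edg x z).2 ⟨hxv, hzv, hz.1, Or.inl hz⟩
    have hπe : ∀ y z, Ed L y z → π y ≠ π z → Ed L' (π y) (π z) := by
      intro y z hyz hπ'
      by_cases hzv : z = v
      · by_cases hyv : y = v
        · exact absurd (hyv.trans hzv.symm) hyz.1
        · subst hzv
          rw [hπv] at hπ' ⊢
          rw [hπn y hyv] at hπ' ⊢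
          exact (hG.edg y u).2 ⟨hyv, hne, hπ', Or.inr (Or.inr ⟨rfl, hyz.symm⟩)⟩
      · by_cases hyv : y = v
        · subst hyv
          rw [hπv] at hπ' ⊢
          rw [hπn z hzv] at hπ' ⊢
          exact (hG.edg u z).2 ⟨hne, hzv, hπ', Or.inr (Or.inl ⟨rfl, hyz⟩)⟩
        · rw [hπn y hyv, hπn z hzv]
          exact (hG.edg y z).2 ⟨hyv, hzv, hyz.1, Or.inl hyz⟩
    have key := hP.lkc x (univ.filter fun y => Ed L x y ∧ π y ∈ T)
      (by
        obtain ⟨y, hy⟩ := hT
        obtain ⟨-, hyv, -, h1 | ⟨h1, -⟩ | ⟨h1, h2⟩⟩ := (hG.edg x y).1 (hTx y hy)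
        · exact ⟨y, mem_filter.2 ⟨mem_univ _, h1, by rw [hπn y hyv]; exact hy⟩⟩
        · exact absurd h1 hxu
        · subst h1
          exact ⟨v, mem_filter.2 ⟨mem_univ _, h2.symm, by rw [hπv]; exact hy⟩⟩)
      (by
        intro y hy
        exact (mem_filter.1 hy).2.1)
      (by
        intro y hy z hxz hyz
        rw [mem_filter] at hy ⊢
        refine ⟨mem_univ _, hxz, ?_⟩
        by_cases he : π y = π z
        · rw [← he]
          exact hy.2.2
        · exact hTc (π y) hy.2.2 (π z) (hπx z hxz) (hπe y z hyz he))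
    intro y hy
    obtain ⟨-, hyv, -, h1 | ⟨h1, -⟩ | ⟨h1, h2⟩⟩ := (hG.edg x y).1 hy
    · have := (mem_filter.1 (key y h1)).2.2
      rwa [hπn y hyv] at this
    · exact absurd h1 hxu
    · subst h1
      have := (mem_filter.1 (key v h2.symm)).2.2
      rwa [hπv] at this

end Pool.Agent.H14.CL
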