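import Pool.Agent.H14.CL.Stm4

/-!
Project CL, fourth part: the two triangles at an edge of the contraction.
-/

set_option autoImplicit false

namespace Pool.Agent.H14.CL

open Finset

section

variable {n : ℕ} {L L' : Finset (Finset (Fin n))} {u v : Fin n}

/-- edges of the contraction away from the new vertex -/
private theorem ct_far (hc : CtrG L L' u v) {x y : Fin n} (hx : x ≠ u) (hy : y ≠ u)
    (h : Ed L' x y) : Ed L x y := by
  obtain ⟨_, _, _, h4⟩ := (hc.edg x y).1 h
  rcases h4 with h4 | ⟨h4, _⟩ | ⟨h4, _⟩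
  · exact h4
  · exact absurd h4 hx
  · exact absurd h4 hy

/-- edges at the new vertex -/
private theorem ct_near (hc : CtrG L L' u v) {x : Fin n} (h : Ed L' x u) :
    Ed L u x ∨ Ed L v x := by
  obtain ⟨_, _, h3, h4⟩ := (hc.edg x u).1 h
  rcases h4 with h4 | ⟨h4, _⟩ | ⟨_, h4⟩
  · exact Or.inl h4.symm
  · exact absurd h4 h3
  · exact Or.inr h4

private theorem ct_mk (hc : CtrG L L' u v) {x y : Fin n} (hx : x ≠ v) (hy : y ≠ v)
    (h : Ed L x y) : Ed L' x y :=
  (hc.edg x y).2 ⟨hx, hy, h.1, Or.inl h⟩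

private theorem ct_mku (hc : CtrG L L' u v) (huv : u ≠ v) {x : Fin n} (hx : x ≠ v)
    (hxu : x ≠ u) (h : Ed L u x ∨ Ed L v x) : Ed L' x u := by
  refine (hc.edg x u).2 ⟨hx, huv, hxu, ?_⟩
  rcases h with h | h
  · exact Or.inl h.symm
  · exact Or.inr (Or.inr ⟨rfl, h⟩)

/-- the second apex -/
private theorem ct_other (hP : P3 L) {a b w : Fin n} (hab : Ed L a b) (haw : Ed L a w)
    (hbw : Ed L b w) : ∃ c, c ≠ w ∧ Ed L a c ∧ Ed L b c ∧
      ∀ x, Ed L a x → Ed L b x → x = w ∨ x = c := by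
  obtain ⟨c, d, hcd, hac, hbc, had, hbd, hall⟩ := hP.two a b hab
  rcases hall w haw hbw with rfl | rfl
  · exact ⟨d, hcd.symm, had, hbd, hall⟩
  · exact ⟨c, hcd, hac, hbc, fun x h1 h2 => (hall x h1 h2).symm⟩

private theorem ct_u (hP : P3 L) (huv : Ed L u v) (hn : ∀ c d, ¬ C4 L u v c d)
    (hc : CtrG L L' u v) (b : Fin n) (hb : Ed L' b u) :
    ∃ c d, c ≠ d ∧ Ed L' u c ∧ Ed L' b c ∧ Ed L' u d ∧ Ed L' b d ∧
      ∀ x, Ed L' u x → Ed L' b x → x = c ∨ x = d := by
  have hne : u ≠ v := huv.1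
  obtain ⟨hbv, _, hbu, _⟩ := (hc.edg b u).1 hb
  have hx : ∀ x, Ed L' u x → Ed L' b x → x ≠ v ∧ x ≠ u ∧ (Ed L u x ∨ Ed L v x) ∧ Ed L b x := by
    intro x h1 h2
    obtain ⟨_, hxv, hxu, _⟩ := (hc.edg u x).1 h1
    exact ⟨hxv, hxu.symm, ct_near hc h1.symm, ct_far hc hbu hxu.symm h2⟩
  by_cases h1 : Ed L u b
  · by_cases h2 : Ed L v b
    · obtain ⟨c, hcv, huc, hbc, hcall⟩ := ct_other hP h1 huv h2.symm
      obtain ⟨d, hdu, hvd, hbd, hdall⟩ := ct_other hP h2 huv.symm h1.symm
      have hcd : c ≠ d := by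
        rintro rfl
        exact hP.k4 huv h1 huc h2 hvd hbc
      have hcu : c ≠ u := huc.1.symm
      have hdv : d ≠ v := hvd.1.symm
      refine ⟨c, d, hcd, (ct_mku hc hne hcv hcu (Or.inl huc)).symm, ct_mk hc hbv hcv hbc,
        (ct_mku hc hne hdv hdu (Or.inr hvd)).symm, ct_mk hc hbv hdv hbd, fun x h3 h4 => ?_⟩
      obtain ⟨hxv, hxu, h5, h6⟩ := hx x h3 h4
      rcases h5 with h5 | h5
      · rcases hcall x h5 h6 with h7 | h7
        · exact absurd h7 hxv
        · exact Or.inl h7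
      · rcases hdall x h5 h6 with h7 | h7
        · exact absurd h7 hxu
        · exact Or.inr h7
    · obtain ⟨c, d, hcd, huc, hbc, hud, hbd, hall⟩ := hP.two u b h1
      have hcv : c ≠ v := by rintro rfl; exact h2 hbc.symm
      have hdv : d ≠ v := by rintro rfl; exact h2 hbd.symm
      refine ⟨c, d, hcd, (ct_mku hc hne hcv huc.1.symm (Or.inl huc)).symm,
        ct_mk hc hbv hcv hbc, (ct_mku hc hne hdv hud.1.symm (Or.inl hud)).symm,
        ct_mk hc hbv hdv hbd, fun x h3 h4 => ?_⟩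
      obtain ⟨hxv, hxu, h5, h6⟩ := hx x h3 h4
      by_cases h7 : Ed L u x
      · exact hall x h7 h6
      · have h8 : Ed L v x := h5.resolve_left h7
        exact absurd ⟨huv, h8, h6.symm, h1.symm, hxu.symm, hbv.symm, h7, h2⟩ (hn x b)
  · have h2 : Ed L v b := (ct_near hc hb).resolve_left h1
    obtain ⟨c, d, hcd, hvc, hbc, hvd, hbd, hall⟩ := hP.two v b h2
    have hcu : c ≠ u := by rintro rfl; exact h1 hbc.symm
    have hdu : d ≠ u := by rintro rfl; exact h1 hbd.symm
    have hcv : c ≠ v := hvc.1.symm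
    have hdv : d ≠ v := hvd.1.symm
    refine ⟨c, d, hcd, (ct_mku hc hne hcv hcu (Or.inr hvc)).symm, ct_mk hc hbv hcv hbc,
      (ct_mku hc hne hdv hdu (Or.inr hvd)).symm, ct_mk hc hbv hdv hbd, fun x h3 h4 => ?_⟩
    obtain ⟨hxv, hxu, h5, h6⟩ := hx x h3 h4
    by_cases h7 : Ed L v x
    · exact hall x h7 h6
    · have h8 : Ed L u x := h5.resolve_right h7
      exact absurd ⟨huv, h2, h6, h8.symm, hbu.symm, hxv.symm, h1, h7⟩ (hn b x)

private theorem ct_n (hP : P3 L) (huv : Ed L u v) (hn : ∀ c d, ¬ C4 L u v c d)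
    (hc : CtrG L L' u v) (a b : Fin n) (hau : a ≠ u) (hbu : b ≠ u) (h : Ed L' a b) :
    ∃ c d, c ≠ d ∧ Ed L' a c ∧ Ed L' b c ∧ Ed L' a d ∧ Ed L' b d ∧
      ∀ x, Ed L' a x → Ed L' b x → x = c ∨ x = d := by
  have hne : u ≠ v := huv.1
  obtain ⟨hav, hbv, _, _⟩ := (hc.edg a b).1 h
  have hab : Ed L a b := ct_far hc hau hbu h
  obtain ⟨c, d, hcd, hac, hbc, had, hbd, hall⟩ := hP.two a b hab
  have hpi : ∀ w y, w ≠ v → w ≠ u → Ed L w y → Ed L' w (if y = v then u else y) := by
    intro w y hwv hwu hwy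
    split_ifs with hy
    · subst hy
      exact ct_mku hc hne hwv hwu (Or.inr hwy.symm)
    · exact ct_mk hc hwv hy hwy
  refine ⟨if c = v then u else c, if d = v then u else d, ?_, hpi a c hav hau hac,
    hpi b c hbv hbu hbc, hpi a d hav hau had, hpi b d hbv hbu hbd, fun x h1 h2 => ?_⟩
  · intro he
    split_ifs at he with h3 h4 h4
    · exact hcd (h3.trans h4.symm)
    · subst h3
      subst he
      exact hP.k4 hab had hac hbd hbc huv
    · subst h4
      subst he
      exact hP.k4 hab hac had hbc hbd huv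
    · exact hcd he
  · obtain ⟨_, hxv, _, _⟩ := (hc.edg a x).1 h1
    have hL : ∀ y, Ed L a y → Ed L b y →
        (if y = v then u else y) = x → x = (if c = v then u else c) ∨
          x = (if d = v then u else d) := by
      intro y h3 h4 h5
      rcases hall y h3 h4 with rfl | rfl
      · exact Or.inl h5.symm
      · exact Or.inr h5.symm
    by_cases hxu : x = u
    · subst hxu
      have h3 := ct_near hc h1
      have h4 := ct_near hc h2
      have huu : Ed L a x → Ed L b x → x = (if c = v then x else c) ∨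
          x = (if d = v then x else d) := fun h5 h6 => hL x h5 h6 (if_neg hxv)
      have hvv : Ed L a v → Ed L b v → x = (if c = v then x else c) ∨
          x = (if d = v then x else d) := fun h5 h6 => hL v h5 h6 (if_pos rfl)
      rcases h3 with h3 | h3 <;> rcases h4 with h4 | h4
      · exact huu h3.symm h4.symm
      · by_cases h5 : Ed L x b
        · exact huu h3.symm h5.symm
        · by_cases h6 : Ed L v a
          · exact hvv h6.symm h4.symm
          · exact absurd ⟨huv, h4, hab.symm, h3.symm, hbu.symm, hav.symm, h5, h6⟩ (hn b a)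
      · by_cases h5 : Ed L x a
        · exact huu h5.symm h4.symm
        · by_cases h6 : Ed L v b
          · exact hvv h3.symm h6.symm
          · exact absurd ⟨huv, h3, hab, h4.symm, hau.symm, hbv.symm, h5, h6⟩ (hn a b)
      · exact hvv h3.symm h4.symm
    · exact hL x (ct_far hc hau hxu h1) (ct_far hc hbu hxu h2) (if_neg hxv)

end

/-- the two triangles at an edge of the contraction -/
theorem st_ctrTwo : StCtrTwo := by
  intro n L L' u v hP huv hn hc a b h
  by_cases hau : a = u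
  · subst hau
    exact ct_u hP huv hn hc b h.symm
  · by_cases hbu : b = u
    · subst hbu
      obtain ⟨c, d, h1, h2, h3, h4, h5, h6⟩ := ct_u hP huv hn hc a h
      exact ⟨c, d, h1, h3, h2, h5, h4, fun x h7 h8 => h6 x h8 h7⟩
    · exact ct_n hP huv hn hc a b hau hbu h

end Pool.Agent.H14.CL
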