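import Pool.Agent.H14.CL.Stm4

/-!
Project CL, fourth part, row A12: a cycle minus a vertex is connected.
-/

set_option autoImplicit false

namespace Pool.Agent.H14.CL

open Finset

section

variable {n : ℕ} {L : Finset (Finset (Fin n))}

theorem cy_irr (a : Fin n) : ¬ Ed L a a := fun h => h.1 rfl

open Classical in
/-- the number of adjacent pairs is even -/
theorem cy_even (T : Finset (Fin n)) :
    ∑ y ∈ T, ∑ z ∈ T, (if Ed L y z then (1 : ZMod 2) else 0) = 0 := by
  rw [← Finset.sum_product']
  refine Finset.sum_involution (fun p _ => (p.2, p.1)) ?_ ?_ ?_ ?_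
  · rintro ⟨y, z⟩ _
    have h1 : Ed L y z ↔ Ed L z y := Ed.comm
    by_cases h : Ed L y z
    · simp only [if_pos h, if_pos (h1.1 h)]
      decide
    · simp only [if_neg h, if_neg (fun h' => h (h1.2 h')), add_zero]
  · rintro ⟨y, z⟩ _ hne h
    have h1 : z = y := congrArg Prod.fst h
    subst h1
    exact hne (if_neg (cy_irr z))
  · rintro ⟨y, z⟩ hp
    rw [mem_product] at hp ⊢
    exact ⟨hp.2, hp.1⟩
  · rintro ⟨y, z⟩ _
    rfl

open Classical in
theorem cy_row (T U : Finset (Fin n)) (y : Fin n) (h : ∀ z, z ∈ T ∧ Ed L y z ↔ z ∈ U) :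
    ∑ z ∈ T, (if Ed L y z then (1 : ZMod 2) else 0) = (U.card : ZMod 2) := by
  have h1 : T.filter (fun z => Ed L y z) = U := by
    ext z
    rw [mem_filter]
    exact h z
  rw [← h1, Finset.sum_boole]

/-- exactly one end -/
theorem cy_one (h : P3 L) {u v : Fin n} (huv : Ed L u v) {T : Finset (Fin n)}
    (hT : ∀ y ∈ T, Ed L u y ∧ y ≠ v)
    (hcl : ∀ y ∈ T, ∀ z, Ed L u z → z ≠ v → Ed L y z → z ∈ T) {a b : Fin n}
    (hva : Ed L v a) (hx : ∀ x, Ed L u x → Ed L v x → x = a ∨ x = b)
    (haT : a ∈ T) (hbT : b ∉ T) : False := by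
  classical
  have h0 := cy_even (L := L) T
  have h1 : ∀ y ∈ T, y ≠ a → ∑ z ∈ T, (if Ed L y z then (1 : ZMod 2) else 0) = 0 := by
    intro y hy hya
    obtain ⟨c, d, hcd, huc, hyc, hud, hyd, hall⟩ := h.two u y (hT y hy).1
    have hv : ¬ Ed L y v := fun hyv => by
      rcases hx y (hT y hy).1 hyv.symm with h2 | h2
      · exact hya h2
      · exact hbT (h2 ▸ hy)
    have hcv : c ≠ v := fun h2 => hv (h2 ▸ hyc)
    have hdv : d ≠ v := fun h2 => hv (h2 ▸ hyd)
    rw [cy_row T {c, d} y, card_pair hcd]
    · decide
    · intro z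
      rw [mem_insert, mem_singleton]
      constructor
      · rintro ⟨hz, hyz⟩
        exact hall z (hT z hz).1 hyz
      · rintro (rfl | rfl)
        · exact ⟨hcl y hy _ huc hcv hyc, hyc⟩
        · exact ⟨hcl y hy _ hud hdv hyd, hyd⟩
  have h2 : ∑ z ∈ T, (if Ed L a z then (1 : ZMod 2) else 0) = 1 := by
    obtain ⟨c, d, hcd, huc, hac, hud, had, hall⟩ := h.two u a (hT a haT).1
    have key : ∀ c d : Fin n, c ≠ d → Ed L u c → Ed L a c → Ed L u d → Ed L a d →
        (∀ x, Ed L u x → Ed L a x → x = c ∨ x = d) → v = c →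
        ∑ z ∈ T, (if Ed L a z then (1 : ZMod 2) else 0) = 1 := by
      intro c d hcd huc hac hud had hall hvc
      subst hvc
      rw [cy_row T {d} a, card_singleton, Nat.cast_one]
      intro z
      rw [mem_singleton]
      constructor
      · rintro ⟨hz, haz⟩
        rcases hall z (hT z hz).1 haz with h3 | h3
        · exact absurd h3 (hT z hz).2
        · exact h3
      · rintro rfl
        exact ⟨hcl a haT _ hud hcd.symm had, had⟩
    rcases hall v huv hva.symm with h3 | h3
    · exact key c d hcd huc hac hud had hall h3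
    · exact key d c hcd.symm hud had huc hac (fun x h4 h5 => (hall x h4 h5).symm) h3
  rw [← Finset.add_sum_erase T _ haT, h2, Finset.sum_eq_zero, add_zero] at h0
  · exact one_ne_zero h0
  · intro y hy
    rw [mem_erase] at hy
    exact h1 y hy.2 hy.1

end

/-- A12: a cycle minus a vertex is connected -/
theorem st_cyc : StCyc := by
  classical
  intro n L u v h huv T hne hT hcl
  obtain ⟨a, b, hab, hua, hva, hub, hvb, hx⟩ := h.two u v huv
  by_cases haT : a ∈ T
  · by_cases hbT : b ∈ T
    · intro y huy hyv
      have h1 := h.lkc u (insert v T) (insert_nonempty _ _) (by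
        intro y hy
        rcases mem_insert.1 hy with rfl | hy
        · exact huv
        · exact (hT y hy).1) (by
        intro y hy z huz hyz
        by_cases hzv : z = v
        · rw [hzv]
          exact mem_insert_self _ _
        · rcases mem_insert.1 hy with rfl | hy
          · rcases hx z huz hyz with rfl | rfl
            · exact mem_insert_of_mem haT
            · exact mem_insert_of_mem hbT
          · exact mem_insert_of_mem (hcl y hy z huz hzv hyz)) y huy
      rcases mem_insert.1 h1 with h2 | h2
      · exact absurd h2 hyv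
      · exact h2
    · exact (cy_one h huv hT hcl hva hx haT hbT).elim
  · by_cases hbT : b ∈ T
    · exact (cy_one h huv hT hcl hvb (fun x h1 h2 => (hx x h1 h2).symm) hbT haT).elim
    · have h1 := h.lkc u T hne (fun y hy => (hT y hy).1) (by
        intro y hy z huz hyz
        by_cases hzv : z = v
        · rw [hzv] at hyz
          rcases hx y (hT y hy).1 hyz.symm with rfl | rfl
          · exact absurd hy haT
          · exact absurd hy hbT
        · exact hcl y hy z huz hzv hyz) a hua
      exact absurd h1 haT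

end Pool.Agent.H14.CL
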