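import Pool.Agent.H14.CL.Stm3
import Pool.Agent.H14.CL.Dbl

/-!
Project CL, part 3, row F5: doubling a vertex, with an index.
-/

set_option autoImplicit false

namespace Pool.Agent.H14.CL

open Finset

theorem st_dblK : StDblK := by
  intro n k K S _ _ _ L U e u v hd hf huv hL h hex j hj x hx hc
  have h1 : dblPi K u v x ∈ Ch (contr L u v) U e univ j := dblPi_mem huv h hx
  obtain ⟨y, hy, hyb⟩ := hex j hj (dblPi K u v x) h1 (by rw [dblPi_bd, hc, map_zero])
  have h2 := dblSec_mem (K := K) hd h hy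
  have h3 := dblSec_pi (K := K) huv hy
  obtain ⟨z, hz⟩ : ∃ z, z = dblSec (K := K) L u v y := ⟨_, rfl⟩
  rw [← hz] at h2 h3
  have h4 : x - bd K z ∈ Ch L U e univ j := Submodule.sub_mem _ hx (bd_mem_Ch hd h2)
  obtain ⟨w, hw, hwb⟩ := dbl_ker hd hf huv hL h h4
    (by rw [map_sub, hc, bd_bd, sub_zero])
    (by rw [map_sub, ← dblPi_bd, h3, hyb, sub_self])
  refine ⟨w + z, Submodule.add_mem _ hw h2, ?_⟩
  rw [map_add, hwb, sub_add_cancel]

end Pool.Agent.H14.CL
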