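import Mathlib

/-!
Project CL (MP_32beb3_co): Clifford chains on a flag sphere, the double complex `Tot`, the
symmetric pairing on it.  Definitions.
-/

set_option autoImplicit false

namespace Pool.Agent.H14.CL

open Finset

variable {n : ℕ}

/-- `(-1)^#{x ∈ N, x < u}` -/
def tau (K : Type*) [CommRing K] (u : Fin n) (N : Finset (Fin n)) : K :=
  (-1) ^ (N.filter (fun x => x < u)).card

/-- `(-1)^#{(x, y) ∈ N × M, y < x}` -/
def sh (K : Type*) [CommRing K] (N M : Finset (Fin n)) : K :=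
  (-1) ^ ((N ×ˢ M).filter (fun p => p.2 < p.1)).card

/-- link of a vertex -/
def lk (Δ : Finset (Finset (Fin n))) (u : Fin n) : Finset (Finset (Fin n)) :=
  Δ.filter (fun G => u ∉ G ∧ insert u G ∈ Δ)

/-- link of a face (the same set as in the frozen statement) -/
def lkF (Δ : Finset (Finset (Fin n))) (F : Finset (Fin n)) : Finset (Finset (Fin n)) :=
  Δ.filter (fun G => G ∩ F = ∅ ∧ G ∪ F ∈ Δ)

/-- the fundamental cycle of the link of `u` -/
def eps {K : Type*} [CommRing K] (ε : Finset (Fin n) → K) (u : Fin n) : Finset (Fin n) → K :=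
  fun Φ => if u ∈ Φ then 0 else tau K u Φ * ε (insert u Φ)

section field

variable (K : Type*) [Field K]

/-- A flag sphere of type `d` (dimension `d - 1`) over `K` with fundamental cycle `ε`. -/
structure Sph (Δ : Finset (Finset (Fin n))) (ε : Finset (Fin n) → K) (d : ℕ) : Prop where
  down : ∀ F ∈ Δ, ∀ G, G ⊆ F → G ∈ Δ
  empty : ∅ ∈ Δ
  flag : ∀ F : Finset (Fin n), (∀ a ∈ F, ∀ b ∈ F, ({a, b} : Finset (Fin n)) ∈ Δ) → F ∈ Δ
  card_le : ∀ F ∈ Δ, F.card ≤ d
  pure : ∀ F ∈ Δ, ∃ Φ ∈ Δ, F ⊆ Φ ∧ Φ.card = d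
  nz : ∀ Φ ∈ Δ, Φ.card = d → ε Φ ≠ 0
  off : ∀ Φ, ¬ (Φ ∈ Δ ∧ Φ.card = d) → ε Φ = 0
  cyc : ∀ Γ, ∑ u ∈ univ.filter (fun u => u ∉ Γ), tau K u Γ * ε (insert u Γ) = 0
  /-- cohomology of the link of `G` in degrees below the top -/
  low : ∀ G ∈ Δ, ∀ j, j + G.card < d → ∀ φ : Finset (Fin n) → K,
    (∀ N ∈ lkF Δ G, N.card = j + 1 → ∑ u ∈ N, tau K u N * φ (N.erase u) = 0) →
    ∃ ψ : Finset (Fin n) → K, ∀ N ∈ lkF Δ G, N.card = j →
      φ N = ∑ u ∈ N, tau K u N * ψ (N.erase u)
  /-- cohomology of the link of `G` in the top degree -/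
  top : ∀ G ∈ Δ, ∀ j, j + G.card = d → ∀ φ : Finset (Fin n) → K,
    ∑ N ∈ (lkF Δ G).filter (fun N => N.card = j), sh K N G * ε (N ∪ G) * φ N = 0 →
    ∃ ψ : Finset (Fin n) → K, ∀ N ∈ lkF Δ G, N.card = j →
      φ N = ∑ u ∈ N, tau K u N * ψ (N.erase u)
  /-- reduced Euler characteristic of the links -/
  euler : ∀ G ∈ Δ, ∑ N ∈ lkF Δ G, (-1 : ℤ) ^ N.card = (-1) ^ (d - G.card)

end field

variable {K : Type*} [Field K] {S : Type*} [AddCommGroup S] [Module K S]

/-- common kernel of the `e v`, `v ∈ G`, inside `U` -/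
def KK (U : Submodule K S) (e : Fin n → S →ₗ[K] S) (G : Finset (Fin n)) : Submodule K S where
  carrier := {x | x ∈ U ∧ ∀ v ∈ G, e v x = 0}
  add_mem' := by
    rintro a b ⟨ha, ha'⟩ ⟨hb, hb'⟩
    exact ⟨U.add_mem ha hb, fun v hv => by rw [map_add, ha' v hv, hb' v hv, add_zero]⟩
  zero_mem' := ⟨U.zero_mem, fun v _ => map_zero _⟩
  smul_mem' := by
    rintro c x ⟨hx, hx'⟩
    exact ⟨U.smul_mem c hx, fun v hv => by rw [map_smul, hx' v hv, smul_zero]⟩

theorem mem_KK {U : Submodule K S} {e : Fin n → S →ₗ[K] S} {G : Finset (Fin n)} {x : S} :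
    x ∈ KK U e G ↔ x ∈ U ∧ ∀ v ∈ G, e v x = 0 := Iff.rfl

/-! ### chains -/

variable (K) in
/-- boundary of a chain -/
def bd : (Finset (Fin n) → S) →ₗ[K] (Finset (Fin n) → S) where
  toFun x := fun G => ∑ u ∈ univ.filter (fun u => u ∉ G), tau K u G • x (insert u G)
  map_add' := by
    intro a b
    funext G
    simp only [Pi.add_apply, smul_add, Finset.sum_add_distrib]
  map_smul' := by
    intro c a
    funext G
    simp only [Pi.smul_apply, RingHom.id_apply, Finset.smul_sum]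
    refine Finset.sum_congr rfl fun u _ => ?_
    rw [smul_comm]

theorem bd_apply (x : Finset (Fin n) → S) (G : Finset (Fin n)) :
    bd K x G = ∑ u ∈ univ.filter (fun u => u ∉ G), tau K u G • x (insert u G) := rfl

/-- chains of size `j` supported on the full subcomplex with vertex set `A` -/
def Ch (Δ : Finset (Finset (Fin n))) (U : Submodule K S) (e : Fin n → S →ₗ[K] S)
    (A : Finset (Fin n)) (j : ℕ) : Submodule K (Finset (Fin n) → S) where
  carrier := {x | ∀ G, x G ∈ KK U e G ∧ (¬ (G ∈ Δ ∧ G ⊆ A ∧ G.card = j) → x G = 0)}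
  add_mem' := by
    intro a b ha hb G
    refine ⟨(KK U e G).add_mem (ha G).1 (hb G).1, fun h => ?_⟩
    rw [Pi.add_apply, (ha G).2 h, (hb G).2 h, add_zero]
  zero_mem' := fun G => ⟨(KK U e G).zero_mem, fun _ => rfl⟩
  smul_mem' := by
    intro c x hx G
    refine ⟨(KK U e G).smul_mem c (hx G).1, fun h => ?_⟩
    rw [Pi.smul_apply, (hx G).2 h, smul_zero]

theorem mem_Ch {Δ : Finset (Finset (Fin n))} {U : Submodule K S} {e : Fin n → S →ₗ[K] S}
    {A : Finset (Fin n)} {j : ℕ} {x : Finset (Fin n) → S} :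
    x ∈ Ch Δ U e A j ↔
      ∀ G, x G ∈ KK U e G ∧ (¬ (G ∈ Δ ∧ G ⊆ A ∧ G.card = j) → x G = 0) := Iff.rfl

/-- `x` is a boundary of a chain on the full subcomplex of `A` -/
def Bd (Δ : Finset (Finset (Fin n))) (U : Submodule K S) (e : Fin n → S →ₗ[K] S)
    (A : Finset (Fin n)) (j : ℕ) (x : Finset (Fin n) → S) : Prop :=
  ∃ y ∈ Ch Δ U e A (j + 1), bd K y = x

/-- `H_j(A) = 0` -/
def Ex (Δ : Finset (Finset (Fin n))) (U : Submodule K S) (e : Fin n → S →ₗ[K] S)
    (A : Finset (Fin n)) (j : ℕ) : Prop :=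
  ∀ x ∈ Ch Δ U e A j, bd K x = 0 → Bd Δ U e A j x

variable (K) in
/-- restriction of a chain to the link of `u` -/
def res (u : Fin n) : (Finset (Fin n) → S) →ₗ[K] (Finset (Fin n) → S) where
  toFun x := fun G => if u ∈ G then 0 else tau K u G • x (insert u G)
  map_add' := by
    intro a b
    funext G
    by_cases h : u ∈ G
    · simp [h]
    · simp [h]
  map_smul' := by
    intro c a
    funext G
    by_cases h : u ∈ G
    · simp [h]
    · simp only [h, if_false, Pi.smul_apply, RingHom.id_apply]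
      rw [smul_comm]

theorem res_apply (u : Fin n) (x : Finset (Fin n) → S) (G : Finset (Fin n)) :
    res K u x G = if u ∈ G then 0 else tau K u G • x (insert u G) := rfl

variable (K) in
/-- the cone over a chain in the link of `u` -/
def con (u : Fin n) : (Finset (Fin n) → S) →ₗ[K] (Finset (Fin n) → S) where
  toFun x := fun G => if u ∈ G then tau K u G • x (G.erase u) else 0
  map_add' := by
    intro a b
    funext G
    by_cases h : u ∈ G
    · simp [h]
    · simp [h]
  map_smul' := by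
    intro c a
    funext G
    by_cases h : u ∈ G
    · simp only [h, if_true, Pi.smul_apply, RingHom.id_apply]
      rw [smul_comm]
    · simp [h]

theorem con_apply (u : Fin n) (x : Finset (Fin n) → S) (G : Finset (Fin n)) :
    con K u x G = if u ∈ G then tau K u G • x (G.erase u) else 0 := rfl

/-! ### the double complex -/

/-- the total complex: `w N G ∈ K_G`, `N`, `G` disjoint, `N ∪ G` a face, degree `#N` -/
def Tot (Δ : Finset (Finset (Fin n))) (U : Submodule K S) (e : Fin n → S →ₗ[K] S) (j : ℕ) :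
    Submodule K (Finset (Fin n) → Finset (Fin n) → S) where
  carrier := {w | ∀ N G, w N G ∈ KK U e G ∧
    (¬ (Disjoint N G ∧ N ∪ G ∈ Δ ∧ N.card = j) → w N G = 0)}
  add_mem' := by
    intro a b ha hb N G
    refine ⟨(KK U e G).add_mem (ha N G).1 (hb N G).1, fun h => ?_⟩
    rw [Pi.add_apply, Pi.add_apply, (ha N G).2 h, (hb N G).2 h, add_zero]
  zero_mem' := fun N G => ⟨(KK U e G).zero_mem, fun _ => rfl⟩
  smul_mem' := by
    intro c x hx N G
    refine ⟨(KK U e G).smul_mem c (hx N G).1, fun h => ?_⟩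
    rw [Pi.smul_apply, Pi.smul_apply, (hx N G).2 h, smul_zero]

theorem mem_Tot {Δ : Finset (Finset (Fin n))} {U : Submodule K S} {e : Fin n → S →ₗ[K] S}
    {j : ℕ} {w : Finset (Fin n) → Finset (Fin n) → S} :
    w ∈ Tot Δ U e j ↔ ∀ N G, w N G ∈ KK U e G ∧
      (¬ (Disjoint N G ∧ N ∪ G ∈ Δ ∧ N.card = j) → w N G = 0) := Iff.rfl

variable (K) in
/-- the differential of the double complex -/
def DD (Δ : Finset (Finset (Fin n))) :
    (Finset (Fin n) → Finset (Fin n) → S) →ₗ[K] (Finset (Fin n) → Finset (Fin n) → S) where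
  toFun w := fun N G => if Disjoint N G ∧ N ∪ G ∈ Δ then
    ∑ u ∈ N, tau K u N • (w (N.erase u) G + w (N.erase u) (insert u G)) else 0
  map_add' := by
    intro a b
    funext N G
    by_cases h : Disjoint N G ∧ N ∪ G ∈ Δ
    · simp only [Pi.add_apply, if_pos h, ← Finset.sum_add_distrib]
      refine Finset.sum_congr rfl fun u _ => ?_
      simp only [smul_add]; abel
    · simp only [Pi.add_apply, if_neg h, add_zero]
  map_smul' := by
    intro c a
    funext N G
    by_cases h : Disjoint N G ∧ N ∪ G ∈ Δ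
    · simp only [Pi.smul_apply, RingHom.id_apply, if_pos h, Finset.smul_sum]
      refine Finset.sum_congr rfl fun u _ => ?_
      rw [← smul_add, smul_comm]
    · simp only [Pi.smul_apply, RingHom.id_apply, if_neg h, smul_zero]

theorem DD_apply (Δ : Finset (Finset (Fin n))) (w : Finset (Fin n) → Finset (Fin n) → S)
    (N G : Finset (Fin n)) :
    DD K Δ w N G = if Disjoint N G ∧ N ∪ G ∈ Δ then
      ∑ u ∈ N, tau K u N • (w (N.erase u) G + w (N.erase u) (insert u G)) else 0 := rfl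

/-- elements of degree `j - 1` (zero for `j = 0`) -/
def TotP (Δ : Finset (Finset (Fin n))) (U : Submodule K S) (e : Fin n → S →ₗ[K] S) :
    ℕ → Submodule K (Finset (Fin n) → Finset (Fin n) → S)
  | 0 => ⊥
  | j + 1 => Tot Δ U e j

/-- `w` is exact -/
def TB (Δ : Finset (Finset (Fin n))) (U : Submodule K S) (e : Fin n → S →ₗ[K] S) (j : ℕ)
    (w : Finset (Fin n) → Finset (Fin n) → S) : Prop :=
  ∃ b ∈ TotP Δ U e j, DD K Δ b = w

/-- `H^j(Tot) = 0` -/
def TEx (Δ : Finset (Finset (Fin n))) (U : Submodule K S) (e : Fin n → S →ₗ[K] S)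
    (j : ℕ) : Prop :=
  ∀ w ∈ Tot Δ U e j, DD K Δ w = 0 → TB Δ U e j w

variable (K) in
/-- restriction to the link of `u` -/
def sg (u : Fin n) :
    (Finset (Fin n) → Finset (Fin n) → S) →ₗ[K] (Finset (Fin n) → Finset (Fin n) → S) where
  toFun w := fun N G => if u ∈ G then 0 else w N (insert u G)
  map_add' := by
    intro a b
    funext N G
    by_cases h : u ∈ G <;> simp [h]
  map_smul' := by
    intro c a
    funext N G
    by_cases h : u ∈ G <;> simp [h]

theorem sg_apply (u : Fin n) (w : Finset (Fin n) → Finset (Fin n) → S) (N G : Finset (Fin n)) :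
    sg K u w N G = if u ∈ G then 0 else w N (insert u G) := rfl

variable (K) in
/-- extension from the link of `u` -/
def jj (u : Fin n) :
    (Finset (Fin n) → Finset (Fin n) → S) →ₗ[K] (Finset (Fin n) → Finset (Fin n) → S) where
  toFun w := fun N G => if u ∈ G then w N (G.erase u) else 0
  map_add' := by
    intro a b
    funext N G
    by_cases h : u ∈ G <;> simp [h]
  map_smul' := by
    intro c a
    funext N G
    by_cases h : u ∈ G <;> simp [h]

theorem jj_apply (u : Fin n) (w : Finset (Fin n) → Finset (Fin n) → S) (N G : Finset (Fin n)) :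
    jj K u w N G = if u ∈ G then w N (G.erase u) else 0 := rfl

/-- a linear map applied to the values -/
def vm (α : S →ₗ[K] S) :
    (Finset (Fin n) → Finset (Fin n) → S) →ₗ[K] (Finset (Fin n) → Finset (Fin n) → S) where
  toFun w := fun N G => α (w N G)
  map_add' := by
    intro a b
    funext N G
    simp
  map_smul' := by
    intro c a
    funext N G
    simp

theorem vm_apply (α : S →ₗ[K] S) (w : Finset (Fin n) → Finset (Fin n) → S)
    (N G : Finset (Fin n)) : vm α w N G = α (w N G) := rfl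

/-- projection of the double complex to chains -/
def Pr (ε : Finset (Fin n) → K) :
    (Finset (Fin n) → Finset (Fin n) → S) →ₗ[K] (Finset (Fin n) → S) where
  toFun w := fun G => ∑ N ∈ univ.filter (fun N => Disjoint N G), (sh K N G * ε (N ∪ G)) • w N G
  map_add' := by
    intro a b
    funext G
    simp only [Pi.add_apply, smul_add, Finset.sum_add_distrib]
  map_smul' := by
    intro c a
    funext G
    simp only [Pi.smul_apply, RingHom.id_apply, Finset.smul_sum]
    refine Finset.sum_congr rfl fun u _ => ?_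
    rw [smul_comm]

theorem Pr_apply (ε : Finset (Fin n) → K) (w : Finset (Fin n) → Finset (Fin n) → S)
    (G : Finset (Fin n)) :
    Pr ε w G = ∑ N ∈ univ.filter (fun N => Disjoint N G), (sh K N G * ε (N ∪ G)) • w N G := rfl

variable (K) in
/-- alternating sum over the inner faces -/
def hat (N M : Finset (Fin n)) : (Finset (Fin n) → Finset (Fin n) → S) →ₗ[K] S where
  toFun w := ∑ G ∈ M.powerset, ((-1 : K) ^ G.card) • w N G
  map_add' := by
    intro a b
    simp only [Pi.add_apply, smul_add, Finset.sum_add_distrib]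
  map_smul' := by
    intro c a
    simp only [Pi.smul_apply, RingHom.id_apply, Finset.smul_sum]
    refine Finset.sum_congr rfl fun u _ => ?_
    rw [smul_comm]

theorem hat_apply (N M : Finset (Fin n)) (w : Finset (Fin n) → Finset (Fin n) → S) :
    hat K N M w = ∑ G ∈ M.powerset, ((-1 : K) ^ G.card) • w N G := rfl

/-- the pairing on the double complex -/
def PP (ε : Finset (Fin n) → K) (h : S →ₗ[K] S →ₗ[K] K) :
    (Finset (Fin n) → Finset (Fin n) → S) →ₗ[K] (Finset (Fin n) → Finset (Fin n) → S) →ₗ[K] K :=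
  ∑ Φ, ε Φ • ∑ N ∈ Φ.powerset, sh K N (Φ \ N) • h.compl₁₂ (hat K N (Φ \ N)) (hat K (Φ \ N) N)

theorem PP_apply (ε : Finset (Fin n) → K) (h : S →ₗ[K] S →ₗ[K] K)
    (w w' : Finset (Fin n) → Finset (Fin n) → S) :
    PP ε h w w' = ∑ Φ, ε Φ * ∑ N ∈ Φ.powerset,
      sh K N (Φ \ N) * h (hat K N (Φ \ N) w) (hat K (Φ \ N) N w') := by
  simp only [PP, LinearMap.sum_apply, LinearMap.smul_apply, LinearMap.compl₁₂_apply, smul_eq_mul]

/-- the data of the induction: complex, coefficient space, Clifford operators, invariant form,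
orientation -/
structure Dat (Δ : Finset (Finset (Fin n))) (U : Submodule K S) (e : Fin n → S →ₗ[K] S)
    (B : Fin n → Fin n → K) (h : S →ₗ[K] S →ₗ[K] K) (ε : Finset (Fin n) → K) (d : ℕ) :
    Prop where
  sph : Sph K Δ ε d
  inv : ∀ v, {v} ∈ Δ → ∀ x ∈ U, e v x ∈ U
  sq : ∀ v, {v} ∈ Δ → ∀ x ∈ U, e v (e v x) = 0
  rel : ∀ v w, {v} ∈ Δ → {w} ∈ Δ → ∀ x ∈ U, e v (e w x) + e w (e v x) = B v w • x
  bz : ∀ v w, ({v, w} : Finset (Fin n)) ∈ Δ → B v w = 0
  bs : ∀ v w, B v w = B w v
  kos : ∀ F ∈ Δ, ∀ u, u ∉ F → insert u F ∈ Δ → ∀ x ∈ KK U e F, e u x = 0 →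
    ∃ y ∈ KK U e F, e u y = x
  adj : ∀ v, {v} ∈ Δ → ∀ x ∈ U, ∀ y ∈ U, h (e v x) y = (-1) ^ (d + 1) * h x (e v y)
  sym : ∀ x ∈ U, ∀ y ∈ U, h x y = (-1) ^ (d.choose 2) * h y x
  nd : ∀ x ∈ U, (∀ y ∈ U, h x y = 0) → x = 0

/-- sign of a list -/
def sgL (K : Type*) [CommRing K] : List (Fin n) → K
  | [] => 1
  | u :: L => tau K u L.toFinset * sgL K L

/-- the operators of a list, the head first -/
def opL (e : Fin n → S →ₗ[K] S) : List (Fin n) → S →ₗ[K] S
  | [] => LinearMap.id
  | u :: L => opL e L ∘ₗ e u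

/-- positivity of the forms of all facets -/
def Pos {S : Type*} [AddCommGroup S] [Module ℝ S] (Δ : Finset (Finset (Fin n)))
    (U : Submodule ℝ S) (e : Fin n → S →ₗ[ℝ] S) (h : S →ₗ[ℝ] S →ₗ[ℝ] ℝ)
    (ε : Finset (Fin n) → ℝ) (d : ℕ) : Prop :=
  ∀ L : List (Fin n), L.Nodup → L.toFinset ∈ Δ → L.length = d → ∀ t ∈ U, opL e L t ≠ 0 →
    0 < ε L.toFinset * sgL ℝ L * h (opL e L t) t

/-- in the link of every face which is not a facet some vertex `v` has `B u v < 0` for all
vertices `u` of the link which are not adjacent to `v` -/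
def Neg (Δ : Finset (Finset (Fin n))) (B : Fin n → Fin n → ℝ) (d : ℕ) : Prop :=
  ∀ F ∈ Δ, F.card < d → ∃ v, v ∉ F ∧ insert v F ∈ Δ ∧
    ∀ u, u ∉ F → insert u F ∈ Δ → ({u, v} : Finset (Fin n)) ∉ Δ → B u v < 0

/-- boundary matrices, as in the frozen statement -/
def bdM (K : Type*) [Field K] (L : Finset (Finset (Fin n))) (m : ℕ) :
    Matrix (Finset (Fin n)) (Finset (Fin n)) K :=
  Matrix.of (fun G H =>
    if G ∈ L ∧ H ∈ L ∧ G.card + 1 = m ∧ H.card = m ∧ G ⊆ H then
      (-1 : K) ^ ((G ×ˢ (H \ G)).filter (fun p => p.1 < p.2)).card else 0)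

/-- the rank condition of the frozen statement -/
def RankHyp (K : Type*) [Field K] (Δ : Finset (Finset (Fin n))) (d : ℕ) : Prop :=
  ∀ F ∈ Δ, ∀ m : ℕ,
    ((((lkF Δ F).filter (fun G => G.card = m)).card : ℤ)
      - ((bdM K (lkF Δ F) m).rank : ℤ) - ((bdM K (lkF Δ F) (m + 1)).rank : ℤ))
      = if m = d - F.card then 1 else 0

end Pool.Agent.H14.CL
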