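import Pool.Agent.H14.CL.Stm4

/-!
Project CL, row A7: if every edge belongs to an induced 4-cycle then some vertex has degree 4.
-/

set_option autoImplicit false

namespace Pool.Agent.H14.CL

open Finset

section

variable {n : ℕ} {L : Finset (Finset (Fin n))}

theorem dg_mem {a b c d x : Fin n} (hx : x ∈ ({a, b, c, d} : Finset (Fin n))) :
    x = a ∨ x = b ∨ x = c ∨ x = d := by
  simpa only [mem_insert, mem_singleton] using hx

theorem dg_rot2 {a b c d : Fin n} : ({a, b, c, d} : Finset (Fin n)) = {c, d, a, b} := by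
  ext x
  simp only [mem_insert, mem_singleton]
  tauto

/-- the vertices of an induced 4-cycle have neighbours on every side -/
theorem dg_nb (hL : P3 L) (h2 : StSideAp) {a b c d : Fin n} (hC : C4 L a b c d)
    {T O : Finset (Fin n)} (hS : Side L {a, b, c, d} T O) :
    ∀ p ∈ ({a, b, c, d} : Finset (Fin n)), ∃ y ∈ O, Ed L p y := by
  obtain ⟨x, -, y, hy, -, -, hay, hby⟩ := h2 n L hL a b c d hC T O hS
  have hS' : Side L {c, d, a, b} T O := by rw [← dg_rot2]; exact hS
  obtain ⟨x', -, y', hy', -, -, hcy, hdy⟩ := h2 n L hL c d a b hC.rot.rot T O hS'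
  intro p hp
  rcases dg_mem hp with rfl | rfl | rfl | rfl
  · exact ⟨y, hy, hay⟩
  · exact ⟨y, hy, hby⟩
  · exact ⟨y', hy', hcy⟩
  · exact ⟨y', hy', hdy⟩

/-- one side of a second 4-cycle is smaller -/
theorem dg_sub (hL : P3 L) (h2 : StSideAp) (h3 : StSideCon) {a b c d : Fin n}
    (hC : C4 L a b c d) {T O : Finset (Fin n)} (hS : Side L {a, b, c, d} T O)
    {Q T' O' : Finset (Fin n)} (hS' : Side L Q T' O')
    (hQ : ∀ x ∈ Q, x ∈ T ∨ x ∈ ({a, b, c, d} : Finset (Fin n))) {q : Fin n} (hq : q ∈ Q)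
    (hqT : q ∈ T) (hO : O ⊆ O') : T'.card < T.card := by
  have hPO : ∀ p ∈ ({a, b, c, d} : Finset (Fin n)), {p} ∈ L → p ∉ Q → p ∈ O' := by
    intro p hp hpL hpQ
    obtain ⟨y, hy, hpy⟩ := dg_nb hL h2 hC hS p hp
    rcases hS'.all p hpL hpQ with h | h
    · exact absurd hpy (hS'.no p h y (hO hy))
    · exact h
  have hsub : T' ⊆ T.erase q := by
    intro x hx
    obtain ⟨hxL, hxQ⟩ := hS'.tv x hx
    have hxO' : x ∉ O' := hS'.dj x hx
    have hxO : x ∉ O := fun h => hxO' (hO h)
    have hxP : x ∉ ({a, b, c, d} : Finset (Fin n)) := fun h => hxO' (hPO x h hxL hxQ)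
    have hxT : x ∈ T := (hS.all x hxL hxP).resolve_right hxO
    exact mem_erase.2 ⟨fun h => hxQ (h ▸ hq), hxT⟩
  have h4 := card_le_card hsub
  rw [card_erase_of_mem hqT] at h4
  have h5 : 0 < T.card := card_pos.2 ⟨q, hqT⟩
  omega

/-- (i): a second 4-cycle inside has a smaller side -/
theorem dg_one (hL : P3 L) (h1 : StSideEx) (h2 : StSideAp) (h3 : StSideCon) {a b c d : Fin n}
    (hC : C4 L a b c d) {T O : Finset (Fin n)} (hS : Side L {a, b, c, d} T O)
    {a' b' c' d' : Fin n} (hC' : C4 L a' b' c' d')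
    (hQ : ∀ x ∈ ({a', b', c', d'} : Finset (Fin n)),
      x ∈ T ∨ x ∈ ({a, b, c, d} : Finset (Fin n))) {q : Fin n}
    (hq : q ∈ ({a', b', c', d'} : Finset (Fin n))) (hqT : q ∈ T) :
    ∃ T' O', Side L {a', b', c', d'} T' O' ∧ T'.card < T.card := by
  classical
  obtain ⟨T', O', hS'⟩ := h1 n L hL a' b' c' d' hC'
  have hOQ : ∀ w ∈ O, w ∉ ({a', b', c', d'} : Finset (Fin n)) := by
    intro w hw hwQ
    rcases hQ w hwQ with h | h
    · exact hS.dj w h hw
    · exact (hS.ov w hw).2 h
  have hside : ∀ w ∈ O, w ∈ T' ∨ w ∈ O' := fun w hw => hS'.all w (hS.ov w hw).1 (hOQ w hw)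
  by_cases hZ : (O.filter fun w => w ∈ T').Nonempty
  · have hZO := h3 n L hL a b c d hC T O hS (O.filter fun w => w ∈ T') (filter_subset _ _) hZ
      (by
        intro y hy z hz hyz
        rw [mem_filter] at hy ⊢
        refine ⟨hz, ?_⟩
        rcases hside z hz with h | h
        · exact h
        · exact absurd hyz (hS'.no y hy.2 z h))
    have hO : O ⊆ T' := by
      intro w hw
      rw [← hZO, mem_filter] at hw
      exact hw.2
    exact ⟨O', T', hS'.swap, dg_sub hL h2 h3 hC hS hS'.swap hQ hq hqT hO⟩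
  · have hO : O ⊆ O' := by
      intro w hw
      rcases hside w hw with h | h
      · exact absurd ⟨w, mem_filter.2 ⟨hw, h⟩⟩ hZ
      · exact h
    exact ⟨T', O', hS', dg_sub hL h2 h3 hC hS hS' hQ hq hqT hO⟩

/-- (ii): adjacency to the opposite vertex -/
theorem dg_two (hL : P3 L) (h1 : StSideEx) (h2 : StSideAp) (h3 : StSideCon)
    (hE : ∀ a b, Ed L a b → ∃ c d, C4 L a b c d) {a b c d : Fin n}
    (hC : C4 L a b c d) {T O : Finset (Fin n)} (hS : Side L {a, b, c, d} T O) {t : Fin n}
    (ht : t ∈ T) (hta : Ed L t a) : Ed L t c ∨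
      ∃ a' b' c' d' T' O', C4 L a' b' c' d' ∧ Side L {a', b', c', d'} T' O' ∧
        T'.card < T.card := by
  obtain ⟨x, y, hxy⟩ := hE t a hta
  obtain ⟨e1, e2, e3, e4, e5, e6, e7, e8⟩ := id hxy
  have hyO : y ∉ O := fun h => hS.no t ht y h e4.symm
  by_cases hxO : x ∈ O
  · left
    have hyT : y ∉ T := fun h => hS.no y h x hxO e3.symm
    have hyP : y ∈ ({a, b, c, d} : Finset (Fin n)) := by
      by_contra h
      rcases hS.all y (hL.vr e3) h with h | h
      · exact hyT h
      · exact hyO h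
    rcases dg_mem hyP with h | h | h | h
    · exact absurd h.symm e6
    · exact absurd (h ▸ hC.1) e8
    · rw [← h]
      exact e4.symm
    · exact absurd (h ▸ hC.2.2.2.1.symm) e8
  · right
    have hall : ∀ z, {z} ∈ L → z ∉ O → z ∈ T ∨ z ∈ ({a, b, c, d} : Finset (Fin n)) := by
      intro z hz hzO
      by_cases h : z ∈ ({a, b, c, d} : Finset (Fin n))
      · exact Or.inr h
      · rcases hS.all z hz h with h' | h'
        · exact Or.inl h'
        · exact absurd h' hzO
    have hQ : ∀ z ∈ ({t, a, x, y} : Finset (Fin n)),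
        z ∈ T ∨ z ∈ ({a, b, c, d} : Finset (Fin n)) := by
      intro z hz
      rcases dg_mem hz with rfl | rfl | rfl | rfl
      · exact Or.inl ht
      · exact Or.inr (mem_insert_self _ _)
      · exact hall _ (hL.vr e2) hxO
      · exact hall _ (hL.vr e3) hyO
    obtain ⟨T', O', hS', hlt⟩ := dg_one hL h1 h2 h3 hC hS hxy hQ (mem_insert_self t _) ht
    exact ⟨t, a, x, y, T', O', hxy, hS', hlt⟩

/-- the two apices over an edge -/
theorem dg_apex (hL : P3 L) {t p q r z : Fin n} (htp : Ed L t p) (htq : Ed L t q)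
    (hpq : Ed L p q) (htr : Ed L t r) (hpr : Ed L p r) (hqr : q ≠ r) (htz : Ed L t z)
    (hpz : Ed L p z) : z = q ∨ z = r := by
  obtain ⟨u, v, -, -, -, -, -, huv⟩ := hL.two t p htp
  have h1 := huv q htq hpq
  have h2 := huv r htr hpr
  have h3 := huv z htz hpz
  rcases h1 with rfl | rfl <;> rcases h2 with rfl | rfl <;> rcases h3 with rfl | rfl
  · exact absurd rfl hqr
  · exact absurd rfl hqr
  · exact Or.inl rfl
  · exact Or.inr rfl
  · exact Or.inr rfl
  · exact Or.inl rfl
  · exact absurd rfl hqr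
  · exact absurd rfl hqr

/-- the wheel -/
theorem dg_wheel (hL : P3 L) {a b c d t : Fin n} (hC : C4 L a b c d) (ha : Ed L t a)
    (hb : Ed L t b) (hc : Ed L t c) (hd : Ed L t d) : Wh L t a b c d := by
  obtain ⟨e1, e2, e3, e4, e5, e6, e7, e8⟩ := id hC
  refine ⟨ha, hb, hc, hd, hC, fun x hx => ?_⟩
  have h := hL.lkc t {a, b, c, d} ⟨a, mem_insert_self _ _⟩ (by
    intro y hy
    rcases dg_mem hy with rfl | rfl | rfl | rfl
    · exact ha
    · exact hb
    · exact hc
    · exact hd) (by
    intro y hy z htz hyz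
    simp only [mem_insert, mem_singleton]
    rcases dg_mem hy with rfl | rfl | rfl | rfl
    · rcases dg_apex hL ha hb e1 hd e4.symm e6 htz hyz with h | h
      · exact Or.inr (Or.inl h)
      · exact Or.inr (Or.inr (Or.inr h))
    · rcases dg_apex hL hb ha e1.symm hc e2 e5 htz hyz with h | h
      · exact Or.inl h
      · exact Or.inr (Or.inr (Or.inl h))
    · rcases dg_apex hL hc hb e2.symm hd e3 e6 htz hyz with h | h
      · exact Or.inr (Or.inl h)
      · exact Or.inr (Or.inr (Or.inr h))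
    · rcases dg_apex hL hd ha e4 hc e3.symm e5 htz hyz with h | h
      · exact Or.inl h
      · exact Or.inr (Or.inr (Or.inl h))) x hx
  exact dg_mem h

/-- the induction on the size of a side -/
theorem dg_ind (hL : P3 L) (h1 : StSideEx) (h2 : StSideAp) (h3 : StSideCon)
    (hE : ∀ a b, Ed L a b → ∃ c d, C4 L a b c d) : ∀ (m : ℕ) (a b c d : Fin n)
    (T O : Finset (Fin n)), C4 L a b c d → Side L {a, b, c, d} T O → T.card ≤ m →
      ∃ t p q r s, Wh L t p q r s := by
  intro m
  induction m with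
  | zero =>
    intro a b c d T O _ hS hT
    have := card_pos.2 hS.tn
    omega
  | succ m ih =>
    intro a b c d T O hC hS hT
    obtain ⟨t, ht, -, -, hat, hbt, -, -⟩ := h2 n L hL a b c d hC T O hS
    rcases dg_two hL h1 h2 h3 hE hC hS ht hat.symm with hc | hsm
    · have hS' : Side L {b, c, d, a} T O := by rw [← c4_set]; exact hS
      rcases dg_two hL h1 h2 h3 hE hC.rot hS' ht hbt.symm with hd | hsm
      · exact ⟨t, a, b, c, d, dg_wheel hL hC hat.symm hbt.symm hc hd⟩
      · obtain ⟨a', b', c', d', T', O', hC', hS'', hlt⟩ := hsm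
        exact ih a' b' c' d' T' O' hC' hS'' (by omega)
    · obtain ⟨a', b', c', d', T', O', hC', hS'', hlt⟩ := hsm
      exact ih a' b' c' d' T' O' hC' hS'' (by omega)

end

/-- row A7 -/
theorem st_deg4 (h1 : StSideEx) (h2 : StSideAp) (h3 : StSideCon) : StDeg4 := by
  intro n L hL hE
  have hv : ∃ x, {x} ∈ L := by
    by_contra hno
    push Not at hno
    have hL0 : L = {∅} := by
      ext F
      rw [mem_singleton]
      constructor
      · intro hF
        by_contra hne
        obtain ⟨x, hx⟩ := nonempty_iff_ne_empty.2 hne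
        exact hno x (hL.down F hF {x} (by
          intro y hy
          rw [mem_singleton.1 hy]
          exact hx))
      · rintro rfl
        exact hL.emp
    have hchi := hL.chi
    rw [hL0, sum_singleton, card_empty, pow_zero] at hchi
    norm_num at hchi
  obtain ⟨x, hx⟩ := hv
  obtain ⟨y, hy⟩ := hL.nb x hx
  obtain ⟨c, d, hC⟩ := hE x y hy
  obtain ⟨T, O, hS⟩ := h1 n L hL x y c d hC
  exact dg_ind hL h1 h2 h3 hE T.card x y c d T O hC hS le_rfl

end Pool.Agent.H14.CL
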