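import Pool.Agent.H14.CL.Blk

/-!
Project CL, part 2, row D20: the data of a configuration.
-/

set_option autoImplicit false

namespace Pool.Agent.H14.CL

open Finset

theorem d20_choose (a r : ℕ) :
    (-1 : ℝ) ^ ((4 * a + r).choose 2) = (-1) ^ (r.choose 2) := by
  induction a with
  | zero => rw [Nat.mul_zero, Nat.zero_add]
  | succ a ih =>
    have h1 : 4 * (a + 1) + r = (4 * a + r) + 4 := by ring
    have h2 : ((4 * a + r) + 4).choose 2 = 2 * (2 * (4 * a + r) + 3) + (4 * a + r).choose 2 := by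
      generalize 4 * a + r = m
      have e1 : (m + 4).choose 2 = (m + 3) + (m + 3).choose 2 := by
        rw [Nat.choose_succ_succ' (m + 3) 1, Nat.choose_one_right]
      have e2 : (m + 3).choose 2 = (m + 2) + (m + 2).choose 2 := by
        rw [Nat.choose_succ_succ' (m + 2) 1, Nat.choose_one_right]
      have e3 : (m + 2).choose 2 = (m + 1) + (m + 1).choose 2 := by
        rw [Nat.choose_succ_succ' (m + 1) 1, Nat.choose_one_right]
      have e4 : (m + 1).choose 2 = m + m.choose 2 := by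
        rw [Nat.choose_succ_succ' m 1, Nat.choose_one_right]
      rw [e1, e2, e3, e4]
      ring
    rw [h1, h2, pow_add, pow_mul, neg_one_sq, one_pow, one_mul, ih]

theorem d20_par {R d : ℕ} (h : R % 4 = d % 4) : (-1 : ℝ) ^ (R + 1) = (-1) ^ (d + 1) := by
  have h1 : R = 4 * (R / 4) + R % 4 := (Nat.div_add_mod R 4).symm
  have h2 : d = 4 * (d / 4) + R % 4 := by rw [h]; exact (Nat.div_add_mod d 4).symm
  have h4 : ((-1 : ℝ)) ^ 4 = 1 := by norm_num
  rw [h1, h2, pow_add, pow_add, pow_mul, h4, one_pow, pow_add, pow_add _ (4 * (d / 4)), pow_mul,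
    h4, one_pow]

theorem d20_par2 {R d : ℕ} (h : R % 4 = d % 4) :
    (-1 : ℝ) ^ (R.choose 2) = (-1) ^ (d.choose 2) := by
  have h1 : R = 4 * (R / 4) + R % 4 := (Nat.div_add_mod R 4).symm
  have h2 : d = 4 * (d / 4) + R % 4 := by rw [h]; exact (Nat.div_add_mod d 4).symm
  calc (-1 : ℝ) ^ (R.choose 2) = (-1) ^ ((4 * (R / 4) + R % 4).choose 2) := by rw [← h1]
    _ = (-1) ^ ((4 * (d / 4) + R % 4).choose 2) := by rw [d20_choose, d20_choose]
    _ = _ := by rw [← h2]

/-- Row D20. -/
theorem st_finC : StFinC := by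
  intro n R d S _ _ _ γ δ hC Δ ε E M hS hE hM hR
  obtain ⟨h, hh⟩ : ∃ h : S →ₗ[ℝ] S →ₗ[ℝ] ℝ, ∀ x y, h x y = inner ℝ (om γ x) y := by
    refine ⟨LinearMap.mk₂ ℝ (fun x y => inner ℝ (om γ x) y) ?_ ?_ ?_ ?_, fun x y => rfl⟩
    · intro x x' y
      rw [map_add, inner_add_left]
    · intro c x y
      rw [map_smul, real_inner_smul_left, smul_eq_mul]
    · intro x y y'
      rw [inner_add_right]
    · intro c x y
      rw [real_inner_smul_right, smul_eq_mul]
  obtain ⟨ho1, ho2, ho3, ho4⟩ := st_om R R S γ δ hC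
  refine ⟨fun v w => 2 * ip (E v) (E w), h, hS, fun v _ x _ => trivial, ?_,
    fun v w _ _ x _ => opv_rel hC (E v) (E w) x, ?_, ?_, ?_, ?_, ?_, ?_⟩
  · intro v hv x _
    exact opv_sq hC (hE v v (by rwa [Finset.pair_eq_singleton])) x
  · intro v w hvw
    show 2 * ip (E v) (E w) = 0
    rw [hE v w hvw, mul_zero]
  · intro v w
    show 2 * ip (E v) (E w) = 2 * ip (E w) (E v)
    rw [ip_comm]
  · intro F _ u hu huF x hx hux
    exact kos_of_dual hC hS.down (M := M) (fun v w _ _ => hM v w) F u hu huF x hx hux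
  · intro v _ x _ y _
    have h1 := ti9_adj hC st_om (E v).1 (E v).2 x y
    have h2 : γ (E v).1 + δ (E v).2 = opv γ δ (E v) := by
      refine LinearMap.ext fun t => ?_
      rw [opv_apply, LinearMap.add_apply]
    rw [h2, d20_par hR] at h1
    rw [hh, hh]
    exact h1
  · intro x _ y _
    rw [hh, hh, ho3, real_inner_comm, d20_par2 hR]
  · intro x _ hx
    have h9 : om γ x = 0 := by
      have h10 := hx (om γ x) trivial
      rw [hh] at h10
      exact inner_self_eq_zero.mp h10
    exact ho4.1 (by rw [h9, map_zero])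

end Pool.Agent.H14.CL
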