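import Pool.Agent.H14.CL.Stm3
import Pool.Agent.H14.CL.FinC
import Pool.Agent.H14.CL.All

/-!
Project CL, third part, rows F18, F19, F20: duality and the Euler characteristic.
-/

set_option autoImplicit false

namespace Pool.Agent.H14.CL

open Finset

/-- the data of a configuration which is exact in degrees `≥ k` -/
theorem dualG_dat {n d k : ℕ} {L : Finset (Finset (Fin n))} {ε : Finset (Fin n) → ℝ}
    (hS : Sph ℝ L ε d) (hG : GK k L) :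
    ∃ R₀ : ℕ, ∀ R, R₀ ≤ R → ∀ (S : Type) [NormedAddCommGroup S] [InnerProductSpace ℝ S]
      [FiniteDimensional ℝ S] (γ δ : (Fin R → ℝ) →ₗ[ℝ] S →ₗ[ℝ] S), Clif S γ δ →
      ∃ (E M : Fin n → Vec R) (B : Fin n → Fin n → ℝ) (h : S →ₗ[ℝ] S →ₗ[ℝ] ℝ),
        (∀ v w, Adj L v w → ip (E v) (E w) = 0) ∧ Dual E M ∧
        Dat L ⊤ (fun v => opv γ δ (E v)) B h ε d ∧
        ∀ j, (k ≤ j ∨ j + k ≤ d) → Ex L ⊤ (fun v => opv γ δ (E v)) univ j := by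
  obtain ⟨R₀, hR⟩ := hG
  refine ⟨R₀ + 4, fun R hRR S _ _ _ γ δ hC => ?_⟩
  obtain ⟨R1, c, h1, h2, rfl⟩ : ∃ R1 c : ℕ, R₀ ≤ R1 ∧ R1 % 4 = d % 4 ∧ R = R1 + c := by
    refine ⟨R₀ + (d % 4 + 4 - R₀ % 4) % 4, R - (R₀ + (d % 4 + 4 - R₀ % 4) % 4), ?_, ?_, ?_⟩
    · omega
    · omega
    · omega
  obtain ⟨γ', δ', hC', hb⟩ := clif_bl₁ hC
  obtain ⟨E, hE⟩ := hR R1 h1 S γ' δ' hC'
  obtain ⟨M, hM⟩ := hE.dual
  obtain ⟨B, h, D⟩ := st_finC n R1 d S γ' δ' hC' L ε E M hS (fun v w hvw => hE.orth v w hvw) hM h2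
  have hop : (fun v => opv γ δ (bl₁ R1 c (E v))) = (fun v => opv γ' δ' (E v)) := by
    funext v
    exact (hb (E v)).symm
  refine ⟨fun v => bl₁ R1 c (E v), fun v => bl₁ R1 c (M v), B, h, ?_, ?_, ?_, ?_⟩
  · intro v w hvw
    rw [ip_bl₁]
    exact hE.orth v w hvw
  · intro v w
    rw [ip_bl₁]
    exact hM v w
  · rw [hop]
    exact D
  · rw [hop]
    have hup : ∀ j, k ≤ j → Ex L ⊤ (fun v => opv γ' δ' (E v)) univ j :=
      fun j hj => hE.ex (k, L) (mem_singleton_self _) j hj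
    intro j hj
    rcases hj with hj | hj
    · exact hup j hj
    · exact allSt.row n ℝ S L ⊤ _ B h ε d D j
        (TEx_of_Ex allSt.totPr allSt.col D.sph (j := j) (i := d - j) (by omega)
          (hup _ (by omega)))

/-- Row F18. -/
theorem st_dualG : StDualG := by
  intro n d k L ε hS hG hk
  obtain ⟨R₀, hR⟩ := dualG_dat hS hG
  refine ⟨R₀, fun R hRR S _ _ _ γ δ hC => ?_⟩
  obtain ⟨E, M, B, h, hE, hM, _, hX⟩ := hR R hRR S γ δ hC
  refine ⟨E, hE, ⟨M, hM⟩, fun p hp j _ => ?_⟩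
  obtain rfl := mem_singleton.1 hp
  exact hX j (by omega)

/-- Row F19. -/
theorem st_eulerG : StEulerG := by
  intro n m L ε hS hG h0
  obtain ⟨R₀, hR⟩ := dualG_dat hS hG
  refine ⟨R₀, fun R hRR S _ _ _ γ δ hC => ?_⟩
  obtain ⟨E, M, B, h, hE, hM, D, hX⟩ := hR R hRR S γ δ hC
  refine ⟨E, hE, ⟨M, hM⟩, fun p hp j _ => ?_⟩
  obtain rfl := mem_singleton.1 hp
  obtain ⟨c, hc1, hc2⟩ := allSt.euler n ℝ S L ⊤ _ B h ε (2 * m) D m
    (fun j hj => hX j (by omega))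
  rcases eq_or_ne j m with rfl | hj
  · refine hc2 ?_
    rw [h0, mul_zero] at hc1
    have h3 : ((-1 : ℤ)) ^ j * 2 ^ (2 * j) ≠ 0 := mul_ne_zero (by simp) (by simp)
    have h4 : (c : ℤ) = 0 := by
      rcases mul_eq_zero.1 hc1.symm with h5 | h5
      · exact absurd h5 h3
      · exact h5
    exact_mod_cast h4
  · exact hX j (by omega)

/-- Row F20. -/
theorem st_finD : StFinD := by
  intro n m L ε hS hG
  obtain ⟨R₀, hR⟩ := dualG_dat hS hG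
  obtain ⟨γ, δ, hC⟩ := st_clif R₀ R₀
  obtain ⟨E, M, B, h, hE, hM, D, hX⟩ := hR R₀ le_rfl (SS R₀ R₀) γ δ hC
  obtain ⟨c, hc1, _⟩ := allSt.euler n ℝ (SS R₀ R₀) L ⊤ _ B h ε (2 * m) D m
    (fun j hj => hX j (by omega))
  have hU : (⊤ : Submodule ℝ (SS R₀ R₀)) ≠ ⊥ := by
    intro h1
    have h2 : (EuclideanSpace.single ∅ (1 : ℝ) : SS R₀ R₀) ∈ (⊤ : Submodule ℝ (SS R₀ R₀)) :=
      Submodule.mem_top
    rw [h1, Submodule.mem_bot] at h2
    have h3 := congrFun (congrArg (fun z : SS R₀ R₀ => z.ofLp) h2) ∅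
    simp at h3
  have hr : 0 < (Module.finrank ℝ (⊤ : Submodule ℝ (SS R₀ R₀)) : ℤ) := by
    have : 0 < Module.finrank ℝ (⊤ : Submodule ℝ (SS R₀ R₀)) := by
      rw [Module.finrank_pos_iff]
      exact (Submodule.nontrivial_iff_ne_bot).2 hU
    exact_mod_cast this
  have h1 : (Module.finrank ℝ (⊤ : Submodule ℝ (SS R₀ R₀)) : ℤ) *
      ((-1 : ℤ) ^ m * ∑ F ∈ L, (-1 : ℤ) ^ F.card * 2 ^ (2 * m - F.card)) =
      2 ^ (2 * m) * c := by
    have h2 := neg_one_sq_pow ℤ m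
    linear_combination (-1 : ℤ) ^ m * hc1 + 2 ^ (2 * m) * (c : ℤ) * h2
  by_contra hneg'
  push Not at hneg'
  have h3 := mul_neg_of_pos_of_neg hr hneg'
  rw [h1] at h3
  have h4 : (0 : ℤ) ≤ 2 ^ (2 * m) * c := by positivity
  linarith

end Pool.Agent.H14.CL
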