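import Pool.Agent.H14.CL.Stm4
import Pool.Agent.H14.CL.RankSph
import Pool.Agent.H14.CL.RankA

/-!
Project CL: flag homology spheres of types 1 and 3 belong to `B(0)` (A19).
-/

set_option autoImplicit false

namespace Pool.Agent.H14.CL

open Finset

private theorem fs_good {n : ℕ} {L : Finset (Finset (Fin n))} (h : Good L) : GK 0 L := by
  obtain ⟨R₀, hR⟩ := h
  refine ⟨R₀, fun R hR' S _ _ _ γ δ hC => ?_⟩
  obtain ⟨E, hE⟩ := hR R hR' S γ δ hC
  refine ⟨E, ⟨hE.orth, hE.dual, ?_⟩⟩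
  intro p hp j _
  rw [mem_singleton.1 hp]
  exact hE.ex L (mem_singleton_self L) j

private theorem fs_bd0 {n : ℕ} (L : Finset (Finset (Fin n))) : (bdM ℝ L 0).rank = 0 := by
  have h : bdM ℝ L 0 = 0 := by
    ext G H
    simp [bdM]
  rw [h, Matrix.rank_zero]

private theorem fs_bd2 {n : ℕ} {L : Finset (Finset (Fin n))} (h1 : ∀ F ∈ L, F.card ≤ 1) :
    (bdM ℝ L 2).rank = 0 := by
  have h : bdM ℝ L 2 = 0 := by
    ext G H
    rw [bdM, Matrix.of_apply, Matrix.zero_apply, if_neg]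
    rintro ⟨_, hH, _, h2, _⟩
    have := h1 H hH
    omega
  rw [h, Matrix.rank_zero]

private theorem fs_two {n : ℕ} {L : Finset (Finset (Fin n))} (h : FS 1 L) :
    ∃ a b : Fin n, a ≠ b ∧ L = {∅, {a}, {b}} := by
  obtain ⟨h0, -, -, hc, hR⟩ := h
  have e0 := RS.rank_one_at_empty h0 hR 0
  have e1 := RS.rank_one_at_empty h0 hR 1
  rw [fs_bd0, if_neg (by omega)] at e0
  rw [fs_bd2 hc, if_pos rfl] at e1
  have hf0 : L.filter (fun G => G.card = 0) = {∅} := by
    ext G
    rw [mem_filter, mem_singleton, card_eq_zero]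
    constructor
    · exact fun h => h.2
    · rintro rfl
      exact ⟨h0, rfl⟩
  rw [hf0, card_singleton] at e0
  have hf1 : (L.filter (fun G => G.card = 1)).card = 2 := by
    norm_num at e0 e1
    omega
  obtain ⟨A, B, hAB, hL⟩ := card_eq_two.1 hf1
  have hA : A ∈ L.filter (fun G => G.card = 1) := by rw [hL]; exact mem_insert_self _ _
  have hB : B ∈ L.filter (fun G => G.card = 1) := by
    rw [hL]; exact mem_insert_of_mem (mem_singleton_self _)
  obtain ⟨hA1, hA2⟩ := mem_filter.1 hA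
  obtain ⟨hB1, hB2⟩ := mem_filter.1 hB
  obtain ⟨a, rfl⟩ := card_eq_one.1 hA2
  obtain ⟨b, rfl⟩ := card_eq_one.1 hB2
  refine ⟨a, b, fun h => hAB (by rw [h]), ?_⟩
  ext F
  rw [mem_insert]
  constructor
  · intro hF
    rcases Nat.eq_zero_or_pos F.card with h | h
    · exact Or.inl (card_eq_zero.1 h)
    · right
      rw [← hL, mem_filter]
      exact ⟨hF, le_antisymm (hc F hF) h⟩
  · rintro (rfl | hF)
    · exact h0
    · rw [← hL, mem_filter] at hF
      exact hF.1

theorem st_fs3 (h1 : StSphP3) (h2 : StP3G) (h3 : StTwo) : StFS3 := by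
  intro n L h
  rcases h with h | h
  · obtain ⟨a, b, hab, rfl⟩ := fs_two h
    exact fs_good (h3 n a b hab)
  · obtain ⟨h0, hd, hf, hc, hR⟩ := h
    obtain ⟨ε, hε⟩ := st_rankSph st_lowRank st_topRank st_cycRank n ℝ L 3 h0 hd hf hc hR
    exact h2 n L (h1 n L ε hε)

end Pool.Agent.H14.CL
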