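import Pool.Agent.H14.CL.Stm3

/-!
Project CL, third part, row F21: local to global for the classes closed under (add) and (del).
-/

set_option autoImplicit false

namespace Pool.Agent.H14.CL

open Finset

theorem locG_mono {n k k' : ℕ} {L : Finset (Finset (Fin n))} (h : GK k L) (hk : k ≤ k') :
    GK k' L := by
  obtain ⟨R₀, hR⟩ := h
  refine ⟨R₀, fun R hRR S _ _ _ γ δ hC => ?_⟩
  obtain ⟨E, hE⟩ := hR R hRR S γ δ hC
  refine ⟨E, hE.orth, hE.dual, fun p hp j hj => ?_⟩
  obtain rfl := mem_singleton.1 hp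
  exact hE.ex (k, L) (mem_singleton_self _) j (le_trans hk hj)

theorem locG_one {n : ℕ} : GK 1 ({∅} : Finset (Finset (Fin n))) := by
  refine ⟨n, fun R hRR S _ _ _ γ δ hC => ?_⟩
  obtain ⟨R1, rfl⟩ : ∃ R1, R = R1 + n := ⟨R - n, by omega⟩
  refine ⟨fun v => bl₂ R1 n (nu v), ?_, ⟨fun v => bl₂ R1 n (mud v), ?_⟩, ?_⟩
  · intro v w _
    rw [ip_bl₂, ip_nu]
  · intro v w
    rw [ip_bl₂, ip_nu_mud]
  · intro p hp j hj x hx _
    obtain rfl := mem_singleton.1 hp
    have h0 : x = 0 := by
      funext G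
      refine (hx G).2 ?_
      rintro ⟨hG, _, hc⟩
      have hG' : G = ∅ := mem_singleton.1 hG
      rw [hG', card_empty] at hc
      have hj' : 1 ≤ j := hj
      omega
    refine ⟨0, Submodule.zero_mem _, ?_⟩
    rw [h0, map_zero]

theorem locG_down_lkF {n : ℕ} {L : Finset (Finset (Fin n))} (hD : Down L)
    (F : Finset (Fin n)) : Down (lkF L F) := by
  intro G hG H hH
  rw [mem_lkF' hD] at hG ⊢
  exact ⟨disjoint_of_subset_left hH hG.1, hD _ hG.2 _ (union_subset_union hH (Subset.refl _))⟩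

theorem locG_flag_lkF {n : ℕ} {L : Finset (Finset (Fin n))} (hD : Down L) (hF : Flag L)
    {F : Finset (Fin n)} (hFL : F ∈ L) : Flag (lkF L F) := by
  intro G hG
  rw [mem_lkF' hD]
  have h1 : ∀ a ∈ G, a ∉ F := by
    intro a ha haF
    have h2 := hG a ha a ha
    rw [mem_lkF' hD] at h2
    exact disjoint_left.1 h2.1 (mem_insert_self a _) haF
  refine ⟨disjoint_left.2 h1, hF _ fun a ha b hb => ?_⟩
  rw [mem_union] at ha hb
  rcases ha with ha | ha <;> rcases hb with hb | hb
  · have h2 := hG a ha b hb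
    rw [mem_lkF' hD] at h2
    exact hD _ h2.2 _ subset_union_left
  · have h2 := hG a ha a ha
    rw [mem_lkF' hD] at h2
    refine hD _ h2.2 _ fun x hx => ?_
    rw [mem_insert, mem_singleton] at hx
    rcases hx with rfl | rfl
    · exact mem_union_left _ (mem_insert_self _ _)
    · exact mem_union_right _ hb
  · have h2 := hG b hb b hb
    rw [mem_lkF' hD] at h2
    refine hD _ h2.2 _ fun x hx => ?_
    rw [mem_insert, mem_singleton] at hx
    rcases hx with rfl | rfl
    · exact mem_union_right _ ha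
    · exact mem_union_left _ (mem_insert_self _ _)
  · refine hD _ hFL _ fun x hx => ?_
    rw [mem_insert, mem_singleton] at hx
    rcases hx with rfl | rfl
    · exact ha
    · exact hb

theorem locG_mem_ful {n : ℕ} {L : Finset (Finset (Fin n))} {A G : Finset (Fin n)} :
    G ∈ ful L A ↔ G ∈ L ∧ G ⊆ A := by
  unfold ful
  rw [mem_filter]

theorem locG_down_ful {n : ℕ} {L : Finset (Finset (Fin n))} (hD : Down L)
    (A : Finset (Fin n)) : Down (ful L A) := by
  intro G hG H hH
  rw [locG_mem_ful] at hG ⊢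
  exact ⟨hD _ hG.1 _ hH, hH.trans hG.2⟩

theorem locG_flag_ful {n : ℕ} {L : Finset (Finset (Fin n))} (hF : Flag L)
    (A : Finset (Fin n)) : Flag (ful L A) := by
  intro G hG
  rw [locG_mem_ful]
  refine ⟨hF _ fun a ha b hb => (locG_mem_ful.1 (hG a ha b hb)).1, fun a ha => ?_⟩
  exact (locG_mem_ful.1 (hG a ha a ha)).2 (mem_insert_self _ _)

theorem locG_dl_ful {n : ℕ} (X : Finset (Finset (Fin n))) (A : Finset (Fin n)) (v : Fin n) :
    dl (ful X A) v = ful X (A.erase v) := by
  ext G
  unfold dl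
  rw [mem_filter, locG_mem_ful, locG_mem_ful]
  constructor
  · rintro ⟨⟨h1, h2⟩, h3⟩
    exact ⟨h1, fun x hx => mem_erase.2 ⟨fun h => h3 (h ▸ hx), h2 hx⟩⟩
  · rintro ⟨h1, h2⟩
    exact ⟨⟨h1, h2.trans (erase_subset _ _)⟩, fun h => (mem_erase.1 (h2 h)).1 rfl⟩

theorem locG_ful_of_not {n : ℕ} {X : Finset (Finset (Fin n))} (hD : Down X)
    {A : Finset (Fin n)} {v : Fin n} (hv : {v} ∉ ful X A) : ful X (A.erase v) = ful X A := by
  ext G
  rw [locG_mem_ful, locG_mem_ful]
  constructor
  · rintro ⟨h1, h2⟩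
    exact ⟨h1, h2.trans (erase_subset _ _)⟩
  · rintro ⟨h1, h2⟩
    refine ⟨h1, fun x hx => mem_erase.2 ⟨fun h => hv ?_, h2 hx⟩⟩
    rw [locG_mem_ful]
    rw [h] at hx
    exact ⟨hD _ h1 _ (singleton_subset_iff.2 hx), singleton_subset_iff.2 (h2 hx)⟩

theorem locG_vertex {n : ℕ} {L : Finset (Finset (Fin n))} (hD : Down L)
    {F A : Finset (Fin n)} {v : Fin n} (hv : {v} ∈ ful (lkF L F) A) :
    v ∉ F ∧ v ∈ A ∧ insert v F ∈ L := by
  rw [locG_mem_ful, mem_lkF' hD] at hv
  exact ⟨disjoint_singleton_left.1 hv.1.1, singleton_subset_iff.1 hv.2, hv.1.2⟩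

theorem locG_lk_ful {n : ℕ} {L : Finset (Finset (Fin n))} (hD : Down L)
    {F A : Finset (Fin n)} {v : Fin n} (hvF : v ∉ F) (hvA : v ∈ A) :
    lk (ful (lkF L F) A) v = ful (lkF L (insert v F)) A := by
  ext G
  rw [mem_lk' (locG_down_ful (locG_down_lkF hD F) A), locG_mem_ful, locG_mem_ful, mem_lkF' hD,
    mem_lkF' hD, disjoint_insert_right, disjoint_insert_left, insert_union, union_insert,
    insert_subset_iff]
  constructor
  · rintro ⟨h1, ⟨⟨h2, h3⟩, h4⟩, h5, h6⟩
    exact ⟨⟨⟨h1, h3⟩, h4⟩, h6⟩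
  · rintro ⟨⟨⟨h1, h3⟩, h4⟩, h6⟩
    exact ⟨h1, ⟨⟨hvF, h3⟩, h4⟩, hvA, h6⟩

theorem locG_empty {n : ℕ} {L : Finset (Finset (Fin n))} (hD : Down L)
    {F A : Finset (Fin n)} (hFL : F ∈ L)
    (h : ∀ v, {v} ∉ ful (lkF L F) A) : ful (lkF L F) A = {∅} := by
  ext G
  rw [mem_singleton]
  constructor
  · intro hG
    by_contra hne
    obtain ⟨v, hv⟩ := nonempty_iff_ne_empty.2 hne
    exact h v (locG_down_ful (locG_down_lkF hD F) A _ hG _ (singleton_subset_iff.2 hv))
  · rintro rfl
    rw [locG_mem_ful, mem_lkF' hD]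
    exact ⟨⟨disjoint_empty_left _, by rwa [empty_union]⟩, empty_subset _⟩

theorem locG_aux (h1 : StAddGK) (h2 : StDelGK) {n m : ℕ} {L : Finset (Finset (Fin n))}
    (hD : Down L) (hF : Flag L) (hc : ∀ F ∈ L, F.card ≤ 2 * m)
    (ho : ∀ F ∈ L, Odd F.card → GK 0 (lkF L F)) :
    ∀ t, ∀ F ∈ L, F.card + t = 2 * m → ∀ A : Finset (Fin n),
      GK (t / 2 + 1) (ful (lkF L F) A) := by
  intro t
  induction t with
  | zero =>
    intro F hFL hFc A
    rw [locG_empty hD hFL]
    · exact locG_one
    · intro v hv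
      obtain ⟨hvF, _, hvL⟩ := locG_vertex hD hv
      have h3 := hc _ hvL
      rw [card_insert_of_notMem hvF] at h3
      omega
  | succ t ih =>
    intro F hFL hFc
    have hdn : ∀ A, Down (ful (lkF L F) A) := fun A => locG_down_ful (locG_down_lkF hD F) A
    have hfl : ∀ A, Flag (ful (lkF L F) A) := fun A => locG_flag_ful (locG_flag_lkF hD hF hFL) A
    have hlk : ∀ A v, {v} ∈ ful (lkF L F) A → GK (t / 2 + 1) (lk (ful (lkF L F) A) v) := by
      intro A v hv
      obtain ⟨hvF, hvA, hvL⟩ := locG_vertex hD hv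
      rw [locG_lk_ful hD hvF hvA]
      refine ih _ hvL ?_ A
      rw [card_insert_of_notMem hvF]
      omega
    rcases Nat.even_or_odd t with ht | ht
    · have hodd : Odd F.card := by
        obtain ⟨a, ha⟩ := ht
        exact ⟨m - a - 1, by omega⟩
      have ht2 : (t + 1) / 2 = t / 2 := by
        obtain ⟨a, ha⟩ := ht
        omega
      rw [ht2]
      have key : ∀ B : Finset (Fin n), GK (t / 2 + 1) (ful (lkF L F) (univ \ B)) := by
        intro B
        induction B using Finset.induction_on with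
        | empty =>
          have h3 : ful (lkF L F) (univ \ ∅) = lkF L F := by
            ext G
            rw [locG_mem_ful]
            simp
          rw [h3]
          exact locG_mono (ho F hFL hodd) (Nat.zero_le _)
        | insert v B hv ihB =>
          rw [sdiff_insert]
          by_cases hvX : {v} ∈ ful (lkF L F) (univ \ B)
          · rw [← locG_dl_ful]
            exact h2 n _ _ v (hdn _) (hfl _) hvX (hlk _ v hvX) ihB
          · rw [locG_ful_of_not (locG_down_lkF hD F) hvX]
            exact ihB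
      intro A
      have h4 := key (univ \ A)
      rwa [sdiff_sdiff_right_self, inf_eq_inter, univ_inter] at h4
    · have ht2 : (t + 1) / 2 = t / 2 + 1 := by
        obtain ⟨a, ha⟩ := ht
        omega
      rw [ht2]
      intro A
      induction A using Finset.induction_on with
      | empty =>
        rw [locG_empty hD hFL]
        · exact locG_mono locG_one (by omega)
        · intro v hv
          obtain ⟨_, hvA, _⟩ := locG_vertex hD hv
          exact notMem_empty _ hvA
      | insert v A hv ihA =>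
        by_cases hvX : {v} ∈ ful (lkF L F) (insert v A)
        · refine h1 n _ _ v (hdn _) (hfl _) hvX ?_ ?_
          · rw [Nat.add_sub_cancel]
            exact hlk _ v hvX
          · rw [locG_dl_ful, erase_insert hv]
            exact ihA
        · rw [← locG_ful_of_not (locG_down_lkF hD F) hvX, erase_insert hv]
          exact ihA

/-- Row F21. -/
theorem st_locG (h1 : StAddGK) (h2 : StDelGK) : StLocG := by
  intro n m L hD hF h0 hc ho
  have h3 := locG_aux h1 h2 hD hF hc ho (2 * m) ∅ h0 (by rw [card_empty]; omega) univ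
  have h4 : ful (lkF L ∅) univ = L := by
    ext G
    rw [locG_mem_ful, mem_lkF]
    simp
  rw [h4] at h3
  have h5 : 2 * m / 2 + 1 = m + 1 := by omega
  rwa [h5] at h3

end Pool.Agent.H14.CL
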