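import Pool.Agent.H14.CL.ClassD
import Pool.Agent.H14.CL.LocG

/-!
Project CL: links of flag homology spheres, and the local to global rule for spheres.
-/

set_option autoImplicit false

namespace Pool.Agent.H14.CL

open Finset

theorem lkF_lkF {n : ℕ} {L : Finset (Finset (Fin n))} (hd : Down L) {F G : Finset (Fin n)}
    (h : Disjoint G F) : lkF (lkF L F) G = lkF L (F ∪ G) := by
  ext N
  rw [mem_lkF' (locG_down_lkF hd F), mem_lkF' hd, mem_lkF' hd, disjoint_union_left,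
    disjoint_union_right]
  constructor
  · rintro ⟨h1, ⟨h2, -⟩, h3⟩
    refine ⟨⟨h2, h1⟩, ?_⟩
    rwa [union_comm F G, ← union_assoc]
  · rintro ⟨⟨h2, h1⟩, h3⟩
    refine ⟨h1, ⟨h2, h⟩, ?_⟩
    rwa [union_comm F G, ← union_assoc] at h3

theorem FS.lkF {n d : ℕ} {L : Finset (Finset (Fin n))} (h : FS d L) {F : Finset (Fin n)}
    (hF : F ∈ L) : FS (d - F.card) (lkF L F) := by
  obtain ⟨h0, hd, hf, hc, hR⟩ := h
  have hm : ∀ G, G ∈ Pool.Agent.H14.CL.lkF L F ↔ Disjoint G F ∧ G ∪ F ∈ L :=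
    fun G => mem_lkF' hd
  refine ⟨?_, locG_down_lkF hd F, locG_flag_lkF hd hf hF, ?_, ?_⟩
  · rw [hm, empty_union]
    exact ⟨disjoint_empty_left F, hF⟩
  · intro G hG
    rw [hm] at hG
    have h1 := hc _ hG.2
    rw [card_union_of_disjoint hG.1] at h1
    omega
  · intro G hG m
    have hG' := (hm G).1 hG
    have h1 := hR (F ∪ G) (by rw [union_comm]; exact hG'.2) m
    rw [← lkF_lkF hd hG'.1, card_union_of_disjoint hG'.1.symm, ← Nat.sub_sub] at h1
    exact h1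

theorem Bk.of_links {n m : ℕ} {L : Finset (Finset (Fin n))} (h : FS (2 * m) L)
    (hl : ∀ F ∈ L, Odd F.card → F.card + 5 ≤ 2 * m → Bk 0 (Pool.Agent.H14.CL.lkF L F)) :
    Bk (m + 1) L := by
  refine Bk.loc h.2.1 h.2.2.1 h.2.2.2.1 fun F hF ho => ?_
  by_cases h5 : F.card + 5 ≤ 2 * m
  · exact hl F hF ho h5
  · have h1 := h.lkF hF
    have h2 : F.card ≤ 2 * m := h.2.2.2.1 F hF
    obtain ⟨j, hj⟩ := ho
    have h3 : 2 * m - F.card = 1 ∨ 2 * m - F.card = 3 := by omega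
    rcases h3 with h3 | h3
    · rw [h3] at h1
      exact Bk.low (Or.inl h1)
    · rw [h3] at h1
      exact Bk.low (Or.inr h1)

end Pool.Agent.H14.CL
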