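import Pool.Agent.H14.CL.Stm2
import Pool.Agent.H14.CL.Core

/-!
Project CL, row D18: vanishing above the middle.
-/

set_option autoImplicit false

namespace Pool.Agent.H14.CL

open Finset

private theorem fa_down {n : ℕ} {Δ : Finset (Finset (Fin n))} (hd : Down Δ)
    (F : Finset (Fin n)) : Down (lkF Δ F) := by
  intro G hG H hH
  rw [mem_lkF' hd] at hG ⊢
  exact ⟨disjoint_of_subset_left hH hG.1, hd _ hG.2 _ (union_subset_union_left hH)⟩

private theorem fa_lk {n : ℕ} {Δ : Finset (Finset (Fin n))} (hd : Down Δ)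
    (F : Finset (Fin n)) {u : Fin n} (hu : u ∉ F) : lk (lkF Δ F) u = lkF Δ (insert u F) := by
  ext N
  rw [mem_lk' (fa_down hd F), mem_lkF' hd, mem_lkF' hd, disjoint_insert_left,
    disjoint_insert_right, union_insert, insert_union]
  constructor
  · rintro ⟨h1, ⟨_, h2⟩, h3⟩
    exact ⟨⟨h1, h2⟩, h3⟩
  · rintro ⟨⟨h1, h2⟩, h3⟩
    exact ⟨h1, ⟨hu, h2⟩, h3⟩

private theorem fa_ind {n : ℕ} {S : Type} [AddCommGroup S] [Module ℝ S]
    {Δ : Finset (Finset (Fin n))} {e : Fin n → S →ₗ[ℝ] S} (hd : Down Δ) (m : ℕ)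
    (hc : ∀ F ∈ Δ, F.card ≤ 2 * m)
    (hodd : ∀ F ∈ Δ, Odd F.card → ∀ j, Ex (lkF Δ F) (KK ⊤ e F) e univ j) :
    ∀ k, ∀ F ∈ Δ, F.card + k = 2 * m → PEx (lkF Δ F) (KK ⊤ e F) e k := by
  intro k
  induction k with
  | zero =>
    intro F hF hFk A j hj
    apply Ex_large
    intro G hG
    rw [mem_lkF' hd] at hG
    have h1 := hc _ hG.2
    rw [card_union_of_disjoint hG.1] at h1
    omega
  | succ k ih =>
    intro F hF hFk A j hj
    have hL : Down (lkF Δ F) := fa_down hd F
    have hv : ∀ u, {u} ∈ lkF Δ F →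
        PEx (lk (lkF Δ F) u) (KK (KK ⊤ e F) e {u}) e k := by
      intro u hu
      rw [mem_lkF' hd, disjoint_singleton_left] at hu
      rw [fa_lk hd F hu.1, KK_KK, union_comm, ← insert_eq]
      refine ih (insert u F) (by rw [insert_eq]; exact hu.2) ?_
      rw [card_insert_of_notMem hu.1]
      omega
    by_cases hj2 : k + 2 < 2 * j
    · exact st_up n ℝ S (lkF Δ F) (KK ⊤ e F) e k hL hv A j hj2
    · have hj3 : 2 * j = k + 2 := by omega
      have hFodd : Odd F.card := by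
        rw [Nat.odd_iff]
        omega
      intro x hx hx0
      refine st_inj n ℝ S (lkF Δ F) (KK ⊤ e F) e k hL hv j (by omega) A univ
        (subset_univ A) x hx hx0 ?_
      exact hodd F hF hFodd j x (Ch_mono (subset_univ A) hx) hx0

/-- D18 -/
theorem st_finA : StFinA := by
  intro n S _ _ Δ e B h ε m D hodd
  have h1 := fa_ind (e := e) D.sph.dn m D.sph.card_le hodd (2 * m) ∅ D.sph.empty (by simp)
  rw [lkF_empty, KK_empty] at h1
  exact h1

end Pool.Agent.H14.CL
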