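import Pool.Agent.H14.CL.Blk
import Pool.Agent.H14.CL.All

/-!
Project CL, part 2: the inequality from exactness in the upper half.
-/

set_option autoImplicit false

namespace Pool.Agent.H14.CL

open Finset

theorem st_finB : StFinB := by
  intro n S _ _ _ Δ e B h ε m D hP hx
  have hEx : ∀ j, j ≠ m → Ex Δ ⊤ e univ j := by
    intro j hj
    rcases lt_or_gt_of_ne hj with hj | hj
    · exact allSt.row n ℝ S Δ ⊤ e B h ε (2 * m) D j
        (TEx_of_Ex allSt.totPr allSt.col D.sph (j := j) (i := 2 * m - j) (by omega)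
          (hP univ _ (by omega)))
    · exact hP univ j (by omega)
  obtain ⟨c, hc1, _⟩ := allSt.euler n ℝ S Δ ⊤ e B h ε (2 * m) D m hEx
  have hU : (⊤ : Submodule ℝ S) ≠ ⊥ := by
    obtain ⟨x, hx⟩ := hx
    intro h0
    apply hx
    have h1 : x ∈ (⊤ : Submodule ℝ S) := Submodule.mem_top
    rw [h0] at h1
    exact (Submodule.mem_bot ℝ).1 h1
  have hr : 0 < (Module.finrank ℝ (⊤ : Submodule ℝ S) : ℤ) := by
    have : 0 < Module.finrank ℝ (⊤ : Submodule ℝ S) := by
      rw [Module.finrank_pos_iff]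
      exact (Submodule.nontrivial_iff_ne_bot).2 hU
    exact_mod_cast this
  have h1 : (Module.finrank ℝ (⊤ : Submodule ℝ S) : ℤ) *
      ((-1 : ℤ) ^ m * ∑ F ∈ Δ, (-1 : ℤ) ^ F.card * 2 ^ (2 * m - F.card)) =
      2 ^ (2 * m) * c := by
    have h2 := neg_one_sq_pow ℤ m
    linear_combination (-1 : ℤ) ^ m * hc1 + 2 ^ (2 * m) * (c : ℤ) * h2
  by_contra hneg'
  push Not at hneg'
  have h3 := mul_neg_of_pos_of_neg hr hneg'
  rw [h1] at h3
  have h4 : (0 : ℤ) ≤ 2 ^ (2 * m) * c := by positivity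
  linarith

end Pool.Agent.H14.CL
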