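import Pool.Agent.H14.CL.Stm2

/-!
Project CL, second part, row D14: gluing of good complexes.
-/

set_option autoImplicit false

namespace Pool.Agent.H14.CL

open Finset

theorem mem_ful {n : ℕ} {L : Finset (Finset (Fin n))} {A F : Finset (Fin n)} :
    F ∈ ful L A ↔ F ∈ L ∧ F ⊆ A := by
  unfold ful
  rw [mem_filter]

theorem down_ful {n : ℕ} {L : Finset (Finset (Fin n))} (hL : Down L) (A : Finset (Fin n)) :
    Down (ful L A) := by
  intro F hF G hG
  rw [mem_ful] at hF ⊢
  exact ⟨hL F hF.1 G hG, hG.trans hF.2⟩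

/-- full subcomplexes are induced -/
theorem ful_induced {n : ℕ} {L : Finset (Finset (Fin n))} {A : Finset (Fin n)} (v w : Fin n)
    (hv : ({v} : Finset (Fin n)) ∈ ful L A) (hw : ({w} : Finset (Fin n)) ∈ ful L A)
    (h : Adj L v w) : ({v, w} : Finset (Fin n)) ∈ ful L A := by
  rw [mem_ful] at hv hw ⊢
  refine ⟨h, fun x hx => ?_⟩
  rw [mem_insert, mem_singleton] at hx
  rcases hx with rfl | rfl
  · exact hv.2 (mem_singleton_self _)
  · exact hw.2 (mem_singleton_self _)

theorem st_glueG (h1 : StAll) (h2 : StMV) : StGlueG := by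
  intro n L A₁ A₂ hD _ hE g1 g2 g3
  have hc : ∀ F ∈ L, F ⊆ A₁ ∨ F ⊆ A₂ := by
    intro F hF
    by_contra hcon
    rw [not_or, not_subset, not_subset] at hcon
    obtain ⟨⟨a, haF, haA⟩, b, hbF, hbA⟩ := hcon
    have hab : ({a, b} : Finset (Fin n)) ∈ L := by
      refine hD F hF _ fun x hx => ?_
      rw [mem_insert, mem_singleton] at hx
      rcases hx with rfl | rfl
      · exact haF
      · exact hbF
    rcases hE a b hab with h | h
    · exact haA h.1
    · exact hbA h.2
  have hX : GoodF ({ful L A₁, ful L A₂, ful L (A₁ ∩ A₂)} : Finset (Finset (Finset (Fin n))))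
      (Adj L) := by
    refine h1 n _ _ fun L' hL' => ?_
    have hgen : ∀ A : Finset (Fin n), Good (ful L A) → Down (ful L A) ∧ Good (ful L A) ∧
        (∀ v w, ({v} : Finset (Fin n)) ∈ ful L A → ({w} : Finset (Fin n)) ∈ ful L A →
          Adj L v w → ({v, w} : Finset (Fin n)) ∈ ful L A) ∧
        (∀ v w, ({v, w} : Finset (Fin n)) ∈ ful L A → Adj L v w) := fun A hA =>
      ⟨down_ful hD A, hA, fun v w hv hw h => ful_induced v w hv hw h,
        fun v w h => (mem_ful.1 h).1⟩
    rw [mem_insert, mem_insert, mem_singleton] at hL'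
    rcases hL' with rfl | rfl | rfl
    · exact hgen _ g1
    · exact hgen _ g2
    · exact hgen _ g3
  obtain ⟨R₀, hR⟩ := hX
  refine ⟨R₀, fun R hRR S _ _ _ γ δ hcl => ?_⟩
  obtain ⟨E, hEc⟩ := hR R hRR S γ δ hcl
  refine ⟨E, hEc.orth, hEc.dual, fun L' hL' => ?_⟩
  rw [mem_singleton] at hL'
  subst hL'
  refine h2 n ℝ S L' ⊤ _ A₁ A₂ hD hc ?_ ?_ ?_
  · exact hEc.ex _ (mem_insert_self _ _)
  · exact hEc.ex _ (mem_insert_of_mem (mem_insert_self _ _))
  · exact hEc.ex _ (mem_insert_of_mem (mem_insert_of_mem (mem_singleton_self _)))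

end Pool.Agent.H14.CL
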