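import Pool.Agent.H14.CL.Stm3

/-!
Project CL, third part, row F15: gluing, for complexes with vanishing homology in degrees `≥ k`.
-/

set_option autoImplicit false

namespace Pool.Agent.H14.CL

open Finset

theorem glueGK_mem {n : ℕ} {L : Finset (Finset (Fin n))} {A G : Finset (Fin n)} :
    G ∈ ful L A ↔ G ∈ L ∧ G ⊆ A := by
  unfold ful
  rw [mem_filter]

theorem glueGK_down {n : ℕ} {L : Finset (Finset (Fin n))} (hD : Down L) (A : Finset (Fin n)) :
    Down (ful L A) := by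
  intro F hF G hG
  rw [glueGK_mem] at hF ⊢
  exact ⟨hD F hF.1 G hG, hG.trans hF.2⟩

theorem glueGK_cond {n : ℕ} {L : Finset (Finset (Fin n))} (A : Finset (Fin n)) :
    (∀ v w, {v} ∈ ful L A → {w} ∈ ful L A → Adj L v w →
      ({v, w} : Finset (Fin n)) ∈ ful L A) ∧
    (∀ v w, ({v, w} : Finset (Fin n)) ∈ ful L A → Adj L v w) := by
  constructor
  · intro v w hv hw h
    rw [glueGK_mem] at hv hw ⊢
    refine ⟨h, fun x hx => ?_⟩
    rcases mem_insert.1 hx with rfl | hx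
    · exact hv.2 (mem_singleton_self _)
    · exact hw.2 hx
  · intro v w h
    exact (glueGK_mem.1 h).1

/-- every face is in one of the two parts -/
theorem glueGK_face {n : ℕ} {L : Finset (Finset (Fin n))} {A₁ A₂ : Finset (Fin n)}
    (hD : Down L) (hA : ∀ a b, ({a, b} : Finset (Fin n)) ∈ L →
      (a ∈ A₁ ∧ b ∈ A₁) ∨ (a ∈ A₂ ∧ b ∈ A₂)) : ∀ F ∈ L, F ⊆ A₁ ∨ F ⊆ A₂ := by
  intro F hF
  by_contra h
  rw [not_or, not_subset, not_subset] at h
  obtain ⟨⟨a, ha, ha'⟩, b, hb, hb'⟩ := h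
  have h1 : ({a, b} : Finset (Fin n)) ∈ L := by
    refine hD F hF _ fun x hx => ?_
    rcases mem_insert.1 hx with rfl | hx
    · exact ha
    · rw [mem_singleton.1 hx]
      exact hb
  rcases hA a b h1 with h2 | h2
  · exact ha' h2.1
  · exact hb' h2.2

/-- F15: gluing -/
theorem st_glueGK (h1 : StAllK) (h2 : StMVK) : StGlueGK := by
  intro n k L A₁ A₂ hD _ hA hG₁ hG₂ hG₃
  have hX : GoodK {(k, ful L A₁), (k, ful L A₂), (k - 1, ful L (A₁ ∩ A₂))} (Adj L) := by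
    refine h1 n _ _ fun p hp => ?_
    rw [mem_insert, mem_insert, mem_singleton] at hp
    rcases hp with rfl | rfl | rfl
    · exact ⟨glueGK_down hD _, hG₁, glueGK_cond _⟩
    · exact ⟨glueGK_down hD _, hG₂, glueGK_cond _⟩
    · exact ⟨glueGK_down hD _, hG₃, glueGK_cond _⟩
  obtain ⟨R₀, hR⟩ := hX
  refine ⟨R₀, fun R hRR S _ _ _ γ δ hCl => ?_⟩
  obtain ⟨E, hE⟩ := hR R hRR S γ δ hCl
  refine ⟨E, hE.orth, hE.dual, fun p hp => ?_⟩
  rw [mem_singleton.1 hp]
  refine h2 n k ℝ S L ⊤ (fun v => opv γ δ (E v)) A₁ A₂ hD (glueGK_face hD hA) ?_ ?_ ?_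
  · exact hE.ex (k, ful L A₁) (mem_insert_self _ _)
  · exact hE.ex (k, ful L A₂) (mem_insert_of_mem (mem_insert_self _ _))
  · exact hE.ex (k - 1, ful L (A₁ ∩ A₂))
      (mem_insert_of_mem (mem_insert_of_mem (mem_singleton_self _)))

end Pool.Agent.H14.CL
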