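import Pool.Agent.H14.CL.Stm3
import Pool.Agent.H14.CL.RankA

/-!
Project CL, row F12: real homology and the ranks of the boundary matrices.
-/

set_option autoImplicit false

namespace Pool.Agent.H14.CL

open Finset

variable {n : ℕ}

/-- the double boundary vanishes, for scalar chains -/
theorem hr_bdbd (x : Finset (Fin n) → ℝ) : bd ℝ (bd ℝ x) = 0 := by
  funext G
  rw [bd_apply]
  simp only [bd_apply, Pi.zero_apply, Finset.smul_sum]
  rw [sum_sigma']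
  refine sum_involution (fun p _ => ⟨p.2, p.1⟩) ?_ ?_ ?_ ?_
  · rintro ⟨u, v⟩ hp
    obtain ⟨hu, hv⟩ := mem_sigma.1 hp
    obtain ⟨-, hu⟩ := mem_filter.1 hu
    obtain ⟨-, hv⟩ := mem_filter.1 hv
    simp only [mem_insert, not_or] at hu hv ⊢
    have h1 := tau_swap ℝ (u := u) (v := v) (N := G) (Ne.symm hv.1) hu hv.2
    have h2 : insert v (insert u G) = insert u (insert v G) := insert_comm v u G
    rw [h2]
    simp only [smul_eq_mul]
    have h3 : tau ℝ v (insert u G) * tau ℝ u G = - (tau ℝ u (insert v G) * tau ℝ v G) := by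
      rw [h1, neg_neg]
    linear_combination (x (insert u (insert v G))) * h3
  · rintro ⟨u, v⟩ hp _ e
    obtain ⟨hu, hv⟩ := mem_sigma.1 hp
    obtain ⟨-, hv⟩ := mem_filter.1 hv
    simp only [mem_insert, not_or] at hv
    simp only [Sigma.mk.injEq] at e
    exact hv.1 e.1
  · rintro ⟨u, v⟩ hp
    obtain ⟨hu, hv⟩ := mem_sigma.1 hp
    obtain ⟨-, hu⟩ := mem_filter.1 hu
    obtain ⟨-, hv⟩ := mem_filter.1 hv
    simp only [mem_insert, not_or] at hu hv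
    refine mem_sigma.2 ⟨mem_filter.2 ⟨mem_univ _, hv.2⟩, mem_filter.2 ⟨mem_univ _, ?_⟩⟩
    simp only [mem_insert, not_or]
    exact ⟨Ne.symm hv.1, hu⟩
  · rintro ⟨u, v⟩ _
    rfl

/-- the boundary matrix acts as the boundary -/
theorem hr_val {L : Finset (Finset (Fin n))} (hL : Down L) (m : ℕ)
    {z : Finset (Fin n) → ℝ} (hz : z ∈ Wsp ℝ (lay L m)) :
    (bdM ℝ L m).mulVecLin z = bd ℝ z := by
  funext Γ
  have h0 : (bdM ℝ L m).mulVecLin z Γ = ∑ H, bdM ℝ L m Γ H * z H := rfl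
  rw [h0, bd_apply]
  by_cases h : Γ ∈ L ∧ Γ.card + 1 = m
  · rw [bdM_mul m z h.1 h.2]
    refine sum_subset (fun u hu => ?_) (fun u hu hu' => ?_)
    · exact mem_filter.2 ⟨mem_univ _, (mem_filter.1 hu).2.1⟩
    · have h1 := (mem_filter.1 hu).2
      have h2 : insert u Γ ∉ lay L m := fun h3 =>
        hu' (mem_filter.2 ⟨mem_univ _, h1, (mem_lay.1 h3).1⟩)
      rw [hz _ h2, mul_zero]
  · have h1 : ∑ H, bdM ℝ L m Γ H * z H = 0 := by
      refine sum_eq_zero fun H _ => ?_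
      by_cases h2 : bdM ℝ L m Γ H = 0
      · rw [h2, zero_mul]
      · obtain ⟨h3, -, h4, -⟩ := bdM_ne h2
        exact absurd ⟨h3, h4⟩ h
    rw [h1]
    symm
    refine sum_eq_zero fun u hu => ?_
    have h2 := (mem_filter.1 hu).2
    have h3 : insert u Γ ∉ lay L m := by
      intro h4
      obtain ⟨h5, h6⟩ := mem_lay.1 h4
      rw [card_insert_of_notMem h2] at h6
      exact h ⟨hL _ h5 _ (subset_insert _ _), h6⟩
    rw [hz _ h3, smul_zero]

theorem hr_rs (L : Finset (Finset (Fin n))) (m : ℕ) (φ : Finset (Fin n) → ℝ) :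
    (bdM ℝ L m).mulVecLin (rsI (lay L m) φ) = (bdM ℝ L m).mulVecLin φ := by
  funext Γ
  have h0 : ∀ z, (bdM ℝ L m).mulVecLin z Γ = ∑ H, bdM ℝ L m Γ H * z H := fun _ => rfl
  rw [h0, h0]
  refine sum_congr rfl fun H _ => ?_
  by_cases h : bdM ℝ L m Γ H = 0
  · rw [h, zero_mul, zero_mul]
  · obtain ⟨-, h1, -, h2, -⟩ := bdM_ne h
    unfold rsI
    rw [if_pos (mem_lay.2 ⟨h1, h2⟩)]

theorem hr_mem (L : Finset (Finset (Fin n))) (m : ℕ) (φ : Finset (Fin n) → ℝ) :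
    (bdM ℝ L (m + 1)).mulVecLin φ ∈ Wsp ℝ (lay L m) := by
  intro Γ hΓ
  have h0 : (bdM ℝ L (m + 1)).mulVecLin φ Γ = ∑ H, bdM ℝ L (m + 1) Γ H * φ H := rfl
  rw [h0]
  refine sum_eq_zero fun H _ => ?_
  by_cases h : bdM ℝ L (m + 1) Γ H = 0
  · rw [h, zero_mul]
  · obtain ⟨h1, -, h2, -⟩ := bdM_ne h
    exact absurd (mem_lay.2 ⟨h1, by omega⟩) hΓ

/-- F12: real homology and ranks -/
theorem st_homRank : StHomRank := by
  intro n j L hL hA x hx hbx
  have h1 := dim_ker (K := ℝ) (I := lay L j) (bdM ℝ L j).mulVecLin (hr_rs L j)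
  have h2 : LinearMap.range (bdM ℝ L (j + 1)).mulVecLin =
      Wsp ℝ (lay L j) ⊓ LinearMap.ker (bdM ℝ L j).mulVecLin := by
    apply Submodule.eq_of_le_of_finrank_eq
    · rintro _ ⟨ψ, rfl⟩
      refine ⟨hr_mem L j ψ, LinearMap.mem_ker.2 ?_⟩
      rw [hr_val hL j (hr_mem L j ψ), ← hr_rs, hr_val hL (j + 1) (rsI_mem _ _), hr_bdbd]
    · have h3 : Module.finrank ℝ (LinearMap.range (bdM ℝ L (j + 1)).mulVecLin) =
        (bdM ℝ L (j + 1)).rank := rfl
      have h4 : Module.finrank ℝ (LinearMap.range (bdM ℝ L j).mulVecLin) =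
        (bdM ℝ L j).rank := rfl
      have h5 : (lay L j).card = (bdM ℝ L j).rank + (bdM ℝ L (j + 1)).rank := hA
      rw [h4] at h1
      rw [h3]
      omega
  have hxW : x ∈ Wsp ℝ (lay L j) := by
    intro G hG
    refine (hx G).2 fun h => hG (mem_lay.2 ⟨h.1, h.2.2⟩)
  have h3 : x ∈ Wsp ℝ (lay L j) ⊓ LinearMap.ker (bdM ℝ L j).mulVecLin :=
    ⟨hxW, LinearMap.mem_ker.2 (by rw [hr_val hL j hxW, hbx])⟩
  rw [← h2] at h3
  obtain ⟨ψ, hψ⟩ := h3
  refine ⟨rsI (lay L (j + 1)) ψ, fun G => ⟨⟨trivial, fun v _ => rfl⟩, fun h => ?_⟩, ?_⟩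
  · exact rsI_mem (lay L (j + 1)) ψ G fun h' =>
      h ⟨(mem_lay.1 h').1, subset_univ _, (mem_lay.1 h').2⟩
  · rw [← hr_val hL (j + 1) (rsI_mem _ _), hr_rs]
    exact hψ

end Pool.Agent.H14.CL
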