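import Pool.Agent.H14.CL.Stm

/-!
Project CL: the even identity (PP6).
-/

set_option autoImplicit false

namespace Pool.Agent.H14.CL

open Finset

section i2

variable {n : ℕ} {K S : Type} [Field K] [AddCommGroup S] [Module K S]

/-! ### general facts -/

theorem i2_DD_vm (Δ : Finset (Finset (Fin n))) (α : S →ₗ[K] S)
    (w : Finset (Fin n) → Finset (Fin n) → S) :
    DD K Δ (vm α w) = vm α (DD K Δ w) := by
  funext N G
  rw [vm_apply, DD_apply, DD_apply]
  split_ifs
  · rw [map_sum]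
    refine Finset.sum_congr rfl fun u _ => ?_
    rw [map_smul, map_add, vm_apply, vm_apply]
  · rw [map_zero]

theorem i2_sg_vm (u : Fin n) (α : S →ₗ[K] S) (w : Finset (Fin n) → Finset (Fin n) → S) :
    sg K u (vm α w) = vm α (sg K u w) := by
  funext N G
  rw [vm_apply, sg_apply, sg_apply]
  split_ifs
  · rw [map_zero]
  · rfl

theorem i2_hat_mem {X : Submodule K S} {w : Finset (Fin n) → Finset (Fin n) → S}
    (hw : ∀ N G, w N G ∈ X) (N M : Finset (Fin n)) : hat K N M w ∈ X := by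
  rw [hat_apply]
  exact X.sum_mem fun G _ => X.smul_mem _ (hw N G)

theorem i2_hat_vm (α : S →ₗ[K] S) (w : Finset (Fin n) → Finset (Fin n) → S)
    (N M : Finset (Fin n)) : hat K N M (vm α w) = α (hat K N M w) := by
  rw [hat_apply, hat_apply, map_sum]
  refine Finset.sum_congr rfl fun G _ => ?_
  rw [map_smul, vm_apply]

theorem i2_PP_congr {ε : Finset (Fin n) → K} {h h' : S →ₗ[K] S →ₗ[K] K} (c : K)
    {w w' v v' : Finset (Fin n) → Finset (Fin n) → S}
    (H : ∀ N M, h (hat K N M w) (hat K M N w') = c * h' (hat K N M v) (hat K M N v')) :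
    PP ε h w w' = c * PP ε h' v v' := by
  rw [PP_apply, PP_apply, Finset.mul_sum]
  refine Finset.sum_congr rfl fun Φ _ => ?_
  have h1 : ∑ N ∈ Φ.powerset, sh K N (Φ \ N) * h (hat K N (Φ \ N) w) (hat K (Φ \ N) N w') =
      c * ∑ N ∈ Φ.powerset, sh K N (Φ \ N) * h' (hat K N (Φ \ N) v) (hat K (Φ \ N) N v') := by
    rw [Finset.mul_sum]
    refine Finset.sum_congr rfl fun N _ => ?_
    rw [H]
    ring
  rw [h1]
  ring

theorem i2_PP_zero {ε : Finset (Fin n) → K} {h : S →ₗ[K] S →ₗ[K] K}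
    {w w' : Finset (Fin n) → Finset (Fin n) → S}
    (H : ∀ N M, h (hat K N M w) (hat K M N w') = 0) : PP ε h w w' = 0 := by
  have := i2_PP_congr (ε := ε) (h := h) (h' := h) (w := w) (w' := w') (v := w) (v' := w') 0
    (fun N M => by rw [H N M, zero_mul])
  rw [this, zero_mul]

theorem i2_PP_eps {ε : Finset (Fin n) → K} (hε : ∀ Φ, ε Φ = 0) (h : S →ₗ[K] S →ₗ[K] K)
    (w w' : Finset (Fin n) → Finset (Fin n) → S) : PP ε h w w' = 0 := by
  rw [PP_apply]
  exact Finset.sum_eq_zero fun Φ _ => by rw [hε, zero_mul]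

theorem i2_PP_neg {ε ε' : Finset (Fin n) → K} (hε : ∀ Φ, ε' Φ = - ε Φ) (h : S →ₗ[K] S →ₗ[K] K)
    (w w' : Finset (Fin n) → Finset (Fin n) → S) : PP ε' h w w' = - PP ε h w w' := by
  rw [PP_apply, PP_apply, ← Finset.sum_neg_distrib]
  refine Finset.sum_congr rfl fun Φ _ => ?_
  rw [hε, neg_mul]

theorem i2_PP_form {ε : Finset (Fin n) → K} (β : K) (h f : S →ₗ[K] S →ₗ[K] K)
    (w w' : Finset (Fin n) → Finset (Fin n) → S) :
    PP ε (β • h - f) w w' = β * PP ε h w w' - PP ε f w w' := by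
  rw [PP_apply, PP_apply, PP_apply, Finset.mul_sum, ← Finset.sum_sub_distrib]
  refine Finset.sum_congr rfl fun Φ _ => ?_
  have h1 : ∑ N ∈ Φ.powerset, sh K N (Φ \ N) *
      (β • h - f) (hat K N (Φ \ N) w) (hat K (Φ \ N) N w') =
      β * ∑ N ∈ Φ.powerset, sh K N (Φ \ N) * h (hat K N (Φ \ N) w) (hat K (Φ \ N) N w') -
      ∑ N ∈ Φ.powerset, sh K N (Φ \ N) * f (hat K N (Φ \ N) w) (hat K (Φ \ N) N w') := by
    rw [Finset.mul_sum, ← Finset.sum_sub_distrib]
    refine Finset.sum_congr rfl fun N _ => ?_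
    rw [LinearMap.sub_apply, LinearMap.sub_apply, LinearMap.smul_apply, LinearMap.smul_apply,
      smul_eq_mul]
    ring
  rw [h1]
  ring

/-! ### values and supports -/

/-- functions with values in `X` -/
def i2Val (n : ℕ) (X : Submodule K S) : Submodule K (Finset (Fin n) → Finset (Fin n) → S) where
  carrier := {w | ∀ N G, w N G ∈ X}
  add_mem' := fun ha hb N G => X.add_mem (ha N G) (hb N G)
  zero_mem' := fun _ _ => X.zero_mem
  smul_mem' := fun c _ hx N G => X.smul_mem c (hx N G)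

/-- functions supported on the `N` of size `k` -/
def i2Sup (n : ℕ) (K S : Type) [Field K] [AddCommGroup S] [Module K S] (k : ℕ) :
    Submodule K (Finset (Fin n) → Finset (Fin n) → S) where
  carrier := {w | ∀ N G, N.card ≠ k → w N G = 0}
  add_mem' := fun {a b} ha hb N G hN => by
    rw [Pi.add_apply, Pi.add_apply, ha N G hN, hb N G hN, add_zero]
  zero_mem' := fun _ _ _ => rfl
  smul_mem' := fun c x hx N G hN => by
    rw [Pi.smul_apply, Pi.smul_apply, hx N G hN, smul_zero]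

theorem i2_vm_val {X Y : Submodule K S} {α : S →ₗ[K] S} (hα : ∀ x ∈ X, α x ∈ Y)
    {w : Finset (Fin n) → Finset (Fin n) → S} (hw : w ∈ i2Val n X) : vm α w ∈ i2Val n Y :=
  fun N G => hα _ (hw N G)

theorem i2_sg_val {X : Submodule K S} (u : Fin n)
    {w : Finset (Fin n) → Finset (Fin n) → S} (hw : w ∈ i2Val n X) : sg K u w ∈ i2Val n X := by
  intro N G
  rw [sg_apply]
  split_ifs
  · exact X.zero_mem
  · exact hw _ _

theorem i2_jj_val {X : Submodule K S} (u : Fin n)
    {w : Finset (Fin n) → Finset (Fin n) → S} (hw : w ∈ i2Val n X) : jj K u w ∈ i2Val n X := by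
  intro N G
  rw [jj_apply]
  split_ifs
  · exact hw _ _
  · exact X.zero_mem

theorem i2_DD_val {X : Submodule K S} (Δ : Finset (Finset (Fin n)))
    {w : Finset (Fin n) → Finset (Fin n) → S} (hw : w ∈ i2Val n X) : DD K Δ w ∈ i2Val n X := by
  intro N G
  rw [DD_apply]
  split_ifs
  · exact X.sum_mem fun u _ => X.smul_mem _ (X.add_mem (hw _ _) (hw _ _))
  · exact X.zero_mem

theorem i2_vm_sup {k : ℕ} (α : S →ₗ[K] S)
    {w : Finset (Fin n) → Finset (Fin n) → S} (hw : w ∈ i2Sup n K S k) : vm α w ∈ i2Sup n K S k :=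
  fun N G hN => by rw [vm_apply, hw N G hN, map_zero]

theorem i2_sg_sup {k : ℕ} (u : Fin n)
    {w : Finset (Fin n) → Finset (Fin n) → S} (hw : w ∈ i2Sup n K S k) :
    sg K u w ∈ i2Sup n K S k := by
  intro N G hN
  rw [sg_apply]
  split_ifs
  · rfl
  · exact hw _ _ hN

theorem i2_jj_sup {k : ℕ} (u : Fin n)
    {w : Finset (Fin n) → Finset (Fin n) → S} (hw : w ∈ i2Sup n K S k) :
    jj K u w ∈ i2Sup n K S k := by
  intro N G hN
  rw [jj_apply]
  split_ifs
  · exact hw _ _ hN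
  · rfl

theorem i2_DD_sup {k : ℕ} (Δ : Finset (Finset (Fin n)))
    {w : Finset (Fin n) → Finset (Fin n) → S} (hw : w ∈ i2Sup n K S k) :
    DD K Δ w ∈ i2Sup n K S (k + 1) := by
  intro N G hN
  rw [DD_apply]
  split_ifs
  · refine Finset.sum_eq_zero fun u hu => ?_
    have h1 : (N.erase u).card ≠ k := by
      rw [card_erase_of_mem hu]
      have := card_pos.2 ⟨u, hu⟩
      omega
    rw [hw _ _ h1, hw _ _ h1, add_zero, smul_zero]
  · rfl

theorem i2_Tot_val {Δ : Finset (Finset (Fin n))} {U : Submodule K S} {e : Fin n → S →ₗ[K] S}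
    {j : ℕ} {w : Finset (Fin n) → Finset (Fin n) → S} (hw : w ∈ Tot Δ U e j) :
    w ∈ i2Val n U := fun N G => (hw N G).1.1

theorem i2_Tot_sup {Δ : Finset (Finset (Fin n))} {U : Submodule K S} {e : Fin n → S →ₗ[K] S}
    {j : ℕ} {w : Finset (Fin n) → Finset (Fin n) → S} (hw : w ∈ Tot Δ U e j) :
    w ∈ i2Sup n K S j := fun N G hN => (hw N G).2 fun h => hN h.2.2

/-! ### `sg` and `jj` -/

theorem i2_sg_jj_self {u : Fin n} {y : Finset (Fin n) → Finset (Fin n) → S}
    (hy : ∀ N G, u ∈ G → y N G = 0) : sg K u (jj K u y) = y := by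
  funext N G
  rw [sg_apply, jj_apply]
  by_cases h : u ∈ G
  · rw [if_pos h, hy N G h]
  · rw [if_neg h, if_pos (mem_insert_self _ _), erase_insert h]

theorem i2_sg_jj_ne {u x : Fin n} (hx : x ≠ u) (y : Finset (Fin n) → Finset (Fin n) → S) :
    sg K u (jj K x y) = jj K x (sg K u y) := by
  funext N G
  rw [sg_apply, jj_apply, jj_apply, sg_apply]
  by_cases h : u ∈ G
  · rw [if_pos h]
    by_cases h' : x ∈ G
    · rw [if_pos h', if_pos (mem_erase.2 ⟨hx.symm, h⟩)]
    · rw [if_neg h']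
  · rw [if_neg h]
    by_cases h' : x ∈ G
    · rw [if_pos h', if_pos (mem_insert_of_mem h'), if_neg (fun h2 => h (mem_of_mem_erase h2)),
        erase_insert_of_ne hx.symm]
    · rw [if_neg h', if_neg]
      intro h2
      rcases mem_insert.1 h2 with h3 | h3
      · exact hx h3
      · exact h' h3

end i2

end Pool.Agent.H14.CL
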