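import Pool.Agent.H14.CL.I2bA

/-!
Project CL: the even identity (PP6), facts about the forms.
-/

set_option autoImplicit false

namespace Pool.Agent.H14.CL

open Finset

section i2b

variable {n : ℕ} {K S : Type} [Field K] [AddCommGroup S] [Module K S]
  {Δ : Finset (Finset (Fin n))} {U : Submodule K S} {e : Fin n → S →ₗ[K] S}
  {B : Fin n → Fin n → K} {h : S →ₗ[K] S →ₗ[K] K} {ε : Finset (Fin n) → K} {k : ℕ}

theorem i2_adj (hD : Dat Δ U e B h ε (2 * k + 2)) {v : Fin n} (hv : {v} ∈ Δ) {x y : S}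
    (hx : x ∈ U) (hy : y ∈ U) : h (e v x) y = - h x (e v y) := by
  rw [hD.adj v hv x hx y hy, show 2 * k + 2 + 1 = 2 * (k + 1) + 1 by ring, pow_succ, pow_mul]
  simp

theorem i2_sym (hD : Dat Δ U e B h ε (2 * k + 2)) {x y : S}
    (hx : x ∈ U) (hy : y ∈ U) : h x y = (-1) ^ (k + 1) * h y x := by
  rw [hD.sym x hx y hy]
  congr 1
  have h1 : (2 * k + 2).choose 2 = (2 * k + 1) * (k + 1) := by
    rw [Nat.choose_two_right, show 2 * k + 2 - 1 = 2 * k + 1 by omega,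
      show (2 * k + 2) * (2 * k + 1) = (2 * k + 1) * (k + 1) * 2 by ring]
    exact Nat.mul_div_cancel _ (by norm_num)
  rw [h1, pow_mul, pow_succ (-1 : K) (2 * k), pow_mul]
  simp

theorem i2_kos (hD : Dat Δ U e B h ε (2 * k + 2)) {u : Fin n} (hu : {u} ∈ Δ) {x : S}
    (hx : x ∈ KK U e {u}) : ∃ y ∈ U, e u y = x := by
  have h1 := hD.kos ∅ hD.sph.empty u (notMem_empty u) (by simpa using hu) x
    (by rw [KK_empty]; exact hx.1) (hx.2 u (mem_singleton_self u))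
  rwa [KK_empty] at h1

/-- formula (2) -/
theorem i2_beta (hD : Dat Δ U e B h ε (2 * k + 2)) {u v : Fin n} (hu : {u} ∈ Δ) (hv : {v} ∈ Δ)
    {x y : S} (hx : x ∈ KK U e {u}) (hy : y ∈ U) : h x (e v (e u y)) = B u v * h x y := by
  obtain ⟨x', hx', rfl⟩ := i2_kos hD hu hx
  have hy1 := hD.inv u hu y hy
  have h1 := hD.rel u v hu hv (e u y) hy1
  rw [hD.sq u hu y hy, map_zero, add_zero] at h1
  rw [i2_adj hD hu hx' (hD.inv v hv _ hy1), h1, map_smul, smul_eq_mul, i2_adj hD hu hx' hy]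
  ring

theorem i2_iso (hD : Dat Δ U e B h ε (2 * k + 2)) {u : Fin n} (hu : {u} ∈ Δ)
    {x y : S} (hx : x ∈ KK U e {u}) (hy : y ∈ KK U e {u}) : h x y = 0 := by
  obtain ⟨x', hx', rfl⟩ := i2_kos hD hu hx
  rw [i2_adj hD hu hx' hy.1, hy.2 u (mem_singleton_self u), map_zero, neg_zero]

theorem i2_fsym (hD : Dat Δ U e B h ε (2 * k + 2)) {u v : Fin n} (hu : {u} ∈ Δ) (hv : {v} ∈ Δ)
    {x y : S} (hx : x ∈ U) (hy : y ∈ U) :
    h x (e v (e u y)) = (-1) ^ (k + 1) * (B u v * h y x - h y (e v (e u x))) := by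
  have hx1 := hD.inv v hv x hx
  have h1 : h x (e v (e u y)) = h (e u (e v x)) y := by
    rw [i2_adj hD hu hx1 hy, i2_adj hD hv hx (hD.inv u hu y hy), neg_neg]
  have h2 : e u (e v x) = B u v • x - e v (e u x) := by
    rw [← hD.rel u v hu hv x hx]
    abel
  rw [h1, i2_sym hD (hD.inv u hu _ hx1) hy, h2, map_sub, map_smul, smul_eq_mul]

/-- anticommuting operators of an edge -/
theorem i2_anti (hD : Dat Δ U e B h ε (2 * k + 2)) {u u' : Fin n} (hu : {u} ∈ Δ)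
    (hu' : {u'} ∈ Δ) (huu : ({u, u'} : Finset (Fin n)) ∈ Δ) {x : S} (hx : x ∈ U) :
    e u (e u' x) = - e u' (e u x) := by
  have h1 := hD.rel u u' hu hu' x hx
  rw [hD.bz u u' huu, zero_smul] at h1
  exact eq_neg_of_add_eq_zero_left h1

theorem i2_mem_KK2 (hD : Dat Δ U e B h ε (2 * k + 2)) {u u' : Fin n} (hu : {u} ∈ Δ)
    (hu' : {u'} ∈ Δ) (huu : ({u, u'} : Finset (Fin n)) ∈ Δ) {x : S} (hx : x ∈ KK U e {u'}) :
    e u x ∈ KK (KK U e {u}) e {u'} := by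
  refine ⟨⟨hD.inv u hu x hx.1, fun y hy => ?_⟩, fun y hy => ?_⟩
  · rw [mem_singleton] at hy
    subst hy
    exact hD.sq _ hu x hx.1
  · rw [mem_singleton] at hy
    subst hy
    have h1 := i2_anti hD hu hu' huu hx.1
    rw [hx.2 _ (mem_singleton_self _), map_zero] at h1
    exact neg_eq_zero.mp h1.symm

variable {hJ : Fin n → Fin n → S →ₗ[K] S →ₗ[K] K}

/-- formula (6), first part -/
theorem i2_six (hD : Dat Δ U e B h ε (2 * k + 2))
    (hhJ : ∀ u u', {u} ∈ Δ → {u'} ∈ lk Δ u → ∀ x ∈ KK (KK U e {u}) e {u'}, ∀ t ∈ U,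
      hJ u u' x (e u' (e u t)) = h x t) {u u' v : Fin n} (hu : {u} ∈ Δ) (hv : {v} ∈ Δ)
    (hu' : {u'} ∈ lk Δ u) {x y : S} (hx : x ∈ KK U e {u'}) (hy : y ∈ KK U e {u'}) :
    h x (e v (e u y)) = - (B u' v * hJ u u' (e u x) (e u y)) := by
  have hv' : {u'} ∈ Δ := lk_sub hu'
  have huu : ({u, u'} : Finset (Fin n)) ∈ Δ := ((lk_vertex hD.sph.dn).1 hu').2
  obtain ⟨y', hy', rfl⟩ := i2_kos hD hv' hy
  rw [i2_anti hD hu hv' huu hy', map_neg, map_neg, map_neg,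
    i2_beta hD hv' hv hx (hD.inv u hu y' hy'),
    hhJ u u' hu hu' _ (i2_mem_KK2 hD hu hv' huu hx) y' hy', i2_adj hD hu hx.1 hy']
  ring

/-- formula (6), second part -/
theorem i2_six' (hD : Dat Δ U e B h ε (2 * k + 2))
    (hhJ : ∀ u u', {u} ∈ Δ → {u'} ∈ lk Δ u → ∀ x ∈ KK (KK U e {u}) e {u'}, ∀ t ∈ U,
      hJ u u' x (e u' (e u t)) = h x t) {u u' : Fin n} (hu : {u} ∈ Δ)
    (hu' : {u'} ∈ lk Δ u) {x y : S} (hx : x ∈ KK U e {u}) (hy : y ∈ KK U e {u'}) :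
    h x y = hJ u u' (e u' x) (e u y) := by
  have hv' : {u'} ∈ Δ := lk_sub hu'
  have huu : ({u, u'} : Finset (Fin n)) ∈ Δ := ((lk_vertex hD.sph.dn).1 hu').2
  have huu' : ({u', u} : Finset (Fin n)) ∈ Δ := by rw [pair_comm]; exact huu
  obtain ⟨y', hy', rfl⟩ := i2_kos hD hv' hy
  have h1 : e u' x ∈ KK (KK U e {u}) e {u'} := by
    rw [KK_comm]
    exact i2_mem_KK2 hD hv' hu huu' hx
  rw [i2_anti hD hu hv' huu hy', map_neg, hhJ u u' hu hu' _ h1 y' hy', i2_adj hD hv' hx.1 hy']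
  ring

/-- the two forms of an edge -/
theorem i2_hJ (hD : Dat Δ U e B h ε (2 * k + 2))
    (hhJ : ∀ u u', {u} ∈ Δ → {u'} ∈ lk Δ u → ∀ x ∈ KK (KK U e {u}) e {u'}, ∀ t ∈ U,
      hJ u u' x (e u' (e u t)) = h x t) {u u' : Fin n} (hu : {u} ∈ Δ)
    (hu' : {u'} ∈ lk Δ u) {x y : S} (hx : x ∈ KK (KK U e {u}) e {u'})
    (hy : y ∈ KK (KK U e {u}) e {u'}) : hJ u' u x y = - hJ u u' x y := by
  have hv' : {u'} ∈ Δ := lk_sub hu'
  have h12 := (lk_vertex hD.sph.dn).1 hu'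
  have huu : ({u, u'} : Finset (Fin n)) ∈ Δ := h12.2
  have huL : {u} ∈ lk Δ u' := by
    rw [lk_vertex hD.sph.dn, pair_comm]
    exact ⟨h12.1.symm, huu⟩
  obtain ⟨y1, hy1, rfl⟩ := hD.kos {u} hu u' (by simpa using h12.1.symm)
    (by rw [pair_comm] at huu; exact huu) y hy.1 (hy.2 u' (mem_singleton_self u'))
  obtain ⟨t, ht, rfl⟩ := i2_kos hD hu hy1
  have h1 : e u' (e u t) = - e u (e u' t) := by
    rw [i2_anti hD hu hv' huu ht, neg_neg]
  rw [hhJ u u' hu hu' x hx t ht, h1, map_neg,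
    hhJ u' u hv' huL x (by rw [KK_comm]; exact hx) t ht]

/-- the two orientations of the link of an edge -/
theorem i2_eps (ε : Finset (Fin n) → K) (u u' : Fin n) (Φ : Finset (Fin n)) :
    eps (eps ε u') u Φ = - eps (eps ε u) u' Φ := by
  unfold eps
  by_cases h1 : u = u'
  · subst h1
    simp
  · by_cases h2 : u ∈ Φ
    · rw [if_pos h2]
      by_cases h3 : u' ∈ Φ
      · rw [if_pos h3, neg_zero]
      · rw [if_neg h3, if_pos (mem_insert_of_mem h2), mul_zero, neg_zero]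
    · rw [if_neg h2]
      by_cases h3 : u' ∈ Φ
      · rw [if_pos h3, if_pos (mem_insert_of_mem h3), mul_zero, neg_zero]
      · have h4 : u' ∉ insert u Φ := by
          rw [mem_insert, not_or]
          exact ⟨fun h => h1 h.symm, h3⟩
        have h5 : u ∉ insert u' Φ := by
          rw [mem_insert, not_or]
          exact ⟨h1, h2⟩
        rw [if_neg h3, if_neg h4, if_neg h5, Finset.insert_comm u' u Φ]
        have h6 := tau_swap K (fun h => h1 h.symm : u' ≠ u) h3 h2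
        linear_combination (ε (insert u (insert u' Φ))) * h6

/-- the orientation of the link of something which is not a vertex vanishes -/
theorem i2_eps_zero {d : ℕ} (hS : Sph K Δ ε d) {u : Fin n} (hu : ({u} : Finset (Fin n)) ∉ Δ)
    (Φ : Finset (Fin n)) : eps ε u Φ = 0 := by
  unfold eps
  split_ifs
  · rfl
  · rw [hS.off, mul_zero]
    rintro ⟨h1, _⟩
    exact hu (hS.down _ h1 _ (by simp))

end i2b

end Pool.Agent.H14.CL
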