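import Pool.Agent.H14.CL.I2bB

/-!
Project CL: the even identity (PP6).
-/

set_option autoImplicit false

namespace Pool.Agent.H14.CL

open Finset

section i2c

variable {n : ℕ} {K S : Type} [Field K] [AddCommGroup S] [Module K S]
  {Δ : Finset (Finset (Fin n))} {U : Submodule K S} {e : Fin n → S →ₗ[K] S}
  {B : Fin n → Fin n → K} {h : S →ₗ[K] S →ₗ[K] K} {ε : Finset (Fin n) → K} {k : ℕ}

/-- the sum `Z` -/
def i2Z (B : Fin n → Fin n → K) (v : Fin n)
    (g : Fin n → Finset (Fin n) → Finset (Fin n) → S) : Finset (Fin n) → Finset (Fin n) → S :=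
  ∑ x, B x v • jj K x (g x)

/-- the sum `R` -/
def i2R (B : Fin n → Fin n → K) (v : Fin n)
    (g : Fin n → Finset (Fin n) → Finset (Fin n) → S) (u : Fin n) :
    Finset (Fin n) → Finset (Fin n) → S :=
  ∑ x ∈ univ.erase u, B x v • jj K x (sg K u (g x))

theorem i2_g_zero {g : Fin n → Finset (Fin n) → Finset (Fin n) → S}
    (hg : ∀ u, g u ∈ Tot (lk Δ u) U e k) {u : Fin n} {N G : Finset (Fin n)}
    (h1 : N ∪ G ∉ lk Δ u) : g u N G = 0 := (hg u N G).2 fun h => h1 h.2.1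

theorem i2_sgZ {g : Fin n → Finset (Fin n) → Finset (Fin n) → S} (v : Fin n)
    (hg : ∀ u, g u ∈ Tot (lk Δ u) U e k) (u : Fin n) :
    sg K u (i2Z B v g) = B u v • g u + i2R B v g u := by
  unfold i2Z i2R
  rw [map_sum, ← add_sum_erase univ _ (mem_univ u), map_smul, i2_sg_jj_self]
  · congr 1
    refine Finset.sum_congr rfl fun x hx => ?_
    rw [map_smul, i2_sg_jj_ne (ne_of_mem_erase hx)]
  · intro N G hG
    exact i2_g_zero hg fun h => (mem_lk.1 h).2.1 (mem_union_right _ hG)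

theorem i2_sgR {g : Fin n → Finset (Fin n) → Finset (Fin n) → S} (v : Fin n)
    (hg : ∀ u, g u ∈ Tot (lk Δ u) U e k) {u u' : Fin n} (huu : u' ≠ u) :
    sg K u' (i2R B v g u) = B u' v • sg K u (g u') +
      ∑ x ∈ (univ.erase u).erase u', B x v • jj K x (sg K u' (sg K u (g x))) := by
  unfold i2R
  rw [map_sum, ← add_sum_erase _ _ (mem_erase.2 ⟨huu, mem_univ u'⟩), map_smul, i2_sg_jj_self]
  · congr 1
    refine Finset.sum_congr rfl fun x hx => ?_
    rw [map_smul, i2_sg_jj_ne (ne_of_mem_erase hx)]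
  · intro N G hG
    rw [sg_apply]
    split_ifs
    · rfl
    · exact i2_g_zero hg fun h =>
        (mem_lk.1 h).2.1 (mem_union_right _ (mem_insert_of_mem hG))

/-- values of `sg u` -/
theorem i2_sg_Tot {Δ' : Finset (Finset (Fin n))} {y : Finset (Fin n) → Finset (Fin n) → S}
    (hy : y ∈ Tot Δ' U e k) (u : Fin n) : sg K u y ∈ i2Val n (KK U e {u}) := by
  intro N G
  rw [sg_apply]
  split_ifs
  · exact (KK U e {u}).zero_mem
  · exact KK_anti U e (by simp) (hy N (insert u G)).1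

theorem i2_R_val {g : Fin n → Finset (Fin n) → Finset (Fin n) → S} (v : Fin n)
    (hg : ∀ u, g u ∈ Tot (lk Δ u) U e k) (u : Fin n) : i2R B v g u ∈ i2Val n (KK U e {u}) :=
  Submodule.sum_mem _ fun x _ => Submodule.smul_mem _ _ (i2_jj_val x (i2_sg_Tot (hg x) u))

theorem i2_R_sup {g : Fin n → Finset (Fin n) → Finset (Fin n) → S} (v : Fin n)
    (hg : ∀ u, g u ∈ Tot (lk Δ u) U e k) (u : Fin n) : i2R B v g u ∈ i2Sup n K S k :=
  Submodule.sum_mem _ fun x _ => Submodule.smul_mem _ _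
    (i2_jj_sup x (i2_sg_sup u (i2_Tot_sup (hg x))))

theorem i2_Z_val {g : Fin n → Finset (Fin n) → Finset (Fin n) → S} (v : Fin n)
    (hg : ∀ u, g u ∈ Tot (lk Δ u) U e k) : i2Z B v g ∈ i2Val n U :=
  Submodule.sum_mem _ fun x _ => Submodule.smul_mem _ _ (i2_jj_val x (i2_Tot_val (hg x)))

theorem i2_Z_sup {g : Fin n → Finset (Fin n) → Finset (Fin n) → S} (v : Fin n)
    (hg : ∀ u, g u ∈ Tot (lk Δ u) U e k) : i2Z B v g ∈ i2Sup n K S k :=
  Submodule.sum_mem _ fun x _ => Submodule.smul_mem _ _ (i2_jj_sup x (i2_Tot_sup (hg x)))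

theorem i2_val_le {X Y : Submodule K S} (hXY : X ≤ Y)
    {w : Finset (Fin n) → Finset (Fin n) → S} (hw : w ∈ i2Val n X) : w ∈ i2Val n Y :=
  fun N G => hXY (hw N G)

theorem i2_sgn1 (k : ℕ) : (-1 : K) ^ ((k + 1) * k) = 1 := by
  rw [mul_comm]
  exact (Nat.even_mul_succ_self k).neg_one_pow

theorem i2_sgn2 (k : ℕ) : (-1 : K) ^ (k * k) = (-1) ^ k := by
  rcases Nat.even_or_odd k with h | h
  · rw [h.neg_one_pow, (h.mul_right k).neg_one_pow]
  · rw [h.neg_one_pow, (h.mul h).neg_one_pow]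

/-- step (5), (6): the pairing on the link of an edge -/
theorem i2_edge (hD : Dat Δ U e B h ε (2 * k + 2))
    {hJ : Fin n → Fin n → S →ₗ[K] S →ₗ[K] K}
    (hhJ : ∀ u u', {u} ∈ Δ → {u'} ∈ lk Δ u → ∀ x ∈ KK (KK U e {u}) e {u'}, ∀ t ∈ U,
      hJ u u' x (e u' (e u t)) = h x t) {v : Fin n} (hv : {v} ∈ Δ)
    {g : Fin n → Finset (Fin n) → Finset (Fin n) → S} (hg : ∀ u, g u ∈ Tot (lk Δ u) U e k)
    {u : Fin n} (hu : {u} ∈ Δ) (hS : Sph K (lk Δ u) (eps ε u) (2 * k + 1)) (u' : Fin n) :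
    PP (eps (eps ε u) u') (h.compl₂ (e v ∘ₗ e u)) (sg K u' (g u)) (sg K u' (g u)) +
      PP (eps (eps ε u) u') h (sg K u' (i2R B v g u)) (sg K u' (g u)) =
    - (B u' v * PP (eps (eps ε u) u') (hJ u u')
      (sg K u' (vm (e u) (g u)) - sg K u (vm (e u') (g u'))) (sg K u' (vm (e u) (g u)))) := by
  by_cases hu' : {u'} ∈ lk Δ u
  swap
  · have h0 := i2_eps_zero hS hu'
    rw [i2_PP_eps h0, i2_PP_eps h0, i2_PP_eps h0]
    ring
  have h12 := (lk_vertex hD.sph.dn).1 hu'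
  have h1 : PP (eps (eps ε u) u') (h.compl₂ (e v ∘ₗ e u)) (sg K u' (g u)) (sg K u' (g u)) =
      - B u' v * PP (eps (eps ε u) u') (hJ u u') (sg K u' (vm (e u) (g u)))
        (sg K u' (vm (e u) (g u))) := by
    apply i2_PP_congr
    intro N M
    rw [i2_sg_vm, i2_hat_vm, i2_hat_vm, LinearMap.compl₂_apply, LinearMap.comp_apply,
      i2_six hD hhJ hu hv hu' (i2_hat_mem (i2_sg_Tot (hg u) u') N M)
        (i2_hat_mem (i2_sg_Tot (hg u) u') M N)]
    ring
  have h2 : PP (eps (eps ε u) u') h (sg K u (g u')) (sg K u' (g u)) =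
      1 * PP (eps (eps ε u) u') (hJ u u') (sg K u (vm (e u') (g u')))
        (sg K u' (vm (e u) (g u))) := by
    apply i2_PP_congr
    intro N M
    rw [i2_sg_vm, i2_sg_vm, i2_hat_vm, i2_hat_vm,
      i2_six' hD hhJ hu hu' (i2_hat_mem (i2_sg_Tot (hg u') u) N M)
        (i2_hat_mem (i2_sg_Tot (hg u) u') M N), one_mul]
  have h3 : PP (eps (eps ε u) u') h
      (∑ x ∈ (univ.erase u).erase u', B x v • jj K x (sg K u' (sg K u (g x))))
      (sg K u' (g u)) = 0 := by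
    apply i2_PP_zero
    intro N M
    have h4 : (∑ x ∈ (univ.erase u).erase u', B x v • jj K x (sg K u' (sg K u (g x)))) ∈
        i2Val n (KK U e {u'}) := by
      refine Submodule.sum_mem _ fun x _ => Submodule.smul_mem _ _ (i2_jj_val x ?_)
      intro N G
      rw [sg_apply]
      split_ifs
      · exact (KK U e {u'}).zero_mem
      · rw [sg_apply]
        split_ifs
        · exact (KK U e {u'}).zero_mem
        · exact KK_anti U e (by simp) (hg x N (insert u (insert u' G))).1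
    exact i2_iso hD (lk_sub hu') (i2_hat_mem h4 N M) (i2_hat_mem (i2_sg_Tot (hg u) u') M N)
  rw [i2_sgR v hg h12.1.symm, map_add, map_smul, LinearMap.add_apply, LinearMap.smul_apply,
    smul_eq_mul, h3, h2, h1, map_sub, LinearMap.sub_apply]
  ring

/-- the contribution of a vertex -/
theorem i2_T (h2 : StStokes) (h3 : StSym) (hD : Dat Δ U e B h ε (2 * k + 2))
    {hJ : Fin n → Fin n → S →ₗ[K] S →ₗ[K] K}
    (hhJ : ∀ u u', {u} ∈ Δ → {u'} ∈ lk Δ u → ∀ x ∈ KK (KK U e {u}) e {u'}, ∀ t ∈ U,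
      hJ u u' x (e u' (e u t)) = h x t) {v : Fin n} (hv : {v} ∈ Δ)
    {w : Finset (Fin n) → Finset (Fin n) → S}
    {g : Fin n → Finset (Fin n) → Finset (Fin n) → S} (hg : ∀ u, g u ∈ Tot (lk Δ u) U e k)
    (hg' : ∀ u, {u} ∈ Δ → DD K (lk Δ u) (vm (e u) (g u)) = sg K u w)
    {u : Fin n} (hu : {u} ∈ Δ) (hS : Sph K (lk Δ u) (eps ε u) (2 * k + 1)) :
    4 * PP (eps ε u) h (sg K u (i2Z B v g)) (sg K u (vm (e v) w)) -
      2 * PP (eps ε u) h (sg K u (i2Z B v g)) (DD K (lk Δ u) (sg K u (i2Z B v g))) =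
    -4 * (-1) ^ (k + 1) * ∑ u', B u v * B u' v * PP (eps (eps ε u) u') (hJ u u')
      (sg K u' (vm (e u) (g u)) - sg K u (vm (e u') (g u'))) (sg K u' (vm (e u) (g u))) := by
  have hA : sg K u (vm (e v) w) = vm (e v) (vm (e u) (DD K (lk Δ u) (g u))) := by
    rw [i2_sg_vm, ← hg' u hu, i2_DD_vm]
  have hgv : g u ∈ i2Val n U := i2_Tot_val (hg u)
  have hgs : g u ∈ i2Sup n K S k := i2_Tot_sup (hg u)
  have hDgv : DD K (lk Δ u) (g u) ∈ i2Val n U := i2_DD_val _ hgv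
  have hDgs : DD K (lk Δ u) (g u) ∈ i2Sup n K S (k + 1) := i2_DD_sup _ hgs
  have hRv : i2R B v g u ∈ i2Val n (KK U e {u}) := i2_R_val v hg u
  have hRs : i2R B v g u ∈ i2Sup n K S k := i2_R_sup v hg u
  have hRv' : i2R B v g u ∈ i2Val n U := i2_val_le (KK_le U e {u}) hRv
  -- (2)
  have e1 : PP (eps ε u) h (i2R B v g u) (vm (e v) (vm (e u) (DD K (lk Δ u) (g u)))) =
      B u v * PP (eps ε u) h (i2R B v g u) (DD K (lk Δ u) (g u)) := by
    apply i2_PP_congr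
    intro N M
    rw [i2_hat_vm, i2_hat_vm, i2_beta hD hu hv (i2_hat_mem hRv N M) (i2_hat_mem hDgv M N)]
  have e2 : PP (eps ε u) h (i2R B v g u) (DD K (lk Δ u) (i2R B v g u)) = 0 := by
    apply i2_PP_zero
    intro N M
    exact i2_iso hD hu (i2_hat_mem hRv N M) (i2_hat_mem (i2_DD_val _ hRv) M N)
  -- (3)
  have e3 := h2 n K S (lk Δ u) (eps ε u) (2 * k + 1) hS h k (g u) (i2R B v g u) hgs
  have e3a : PP (eps ε u) h (DD K (lk Δ u) (g u)) (i2R B v g u) =
      (-1) ^ (k + 1) * PP (eps ε u) h (i2R B v g u) (DD K (lk Δ u) (g u)) := by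
    rw [h3 n K S (eps ε u) h h ((-1) ^ (k + 1)) U U (k + 1) k _ _
      (fun x hx y hy => i2_sym hD hx hy) hDgv hRv' hDgs hRs, i2_sgn1, one_mul]
  have e3b : ∀ u', PP (eps (eps ε u) u') h (sg K u' (g u)) (sg K u' (i2R B v g u)) =
      (-1) ^ k * (-1) ^ (k + 1) *
        PP (eps (eps ε u) u') h (sg K u' (i2R B v g u)) (sg K u' (g u)) := by
    intro u'
    rw [h3 n K S (eps (eps ε u) u') h h ((-1) ^ (k + 1)) U U k k _ _
      (fun x hx y hy => i2_sym hD hx hy) (i2_sg_val u' hgv) (i2_sg_val u' hRv')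
      (i2_sg_sup u' hgs) (i2_sg_sup u' hRs), i2_sgn2]
  -- (4)
  have e4 := h2 n K S (lk Δ u) (eps ε u) (2 * k + 1) hS (h.compl₂ (e v ∘ₗ e u)) k (g u) (g u) hgs
  have e4a : PP (eps ε u) (h.compl₂ (e v ∘ₗ e u)) (DD K (lk Δ u) (g u)) (g u) =
      (-1) ^ (k + 1) * (B u v * PP (eps ε u) h (g u) (DD K (lk Δ u) (g u)) -
        PP (eps ε u) (h.compl₂ (e v ∘ₗ e u)) (g u) (DD K (lk Δ u) (g u))) := by
    rw [h3 n K S (eps ε u) (h.compl₂ (e v ∘ₗ e u)) (B u v • h - h.compl₂ (e v ∘ₗ e u))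
      ((-1) ^ (k + 1)) U U (k + 1) k _ _ ?_ hDgv hgv hDgs hgs, i2_sgn1, one_mul, i2_PP_form]
    intro x hx y hy
    rw [LinearMap.compl₂_apply, LinearMap.comp_apply, i2_fsym hD hu hv hx hy,
      LinearMap.sub_apply, LinearMap.sub_apply, LinearMap.smul_apply, LinearMap.smul_apply,
      smul_eq_mul, LinearMap.compl₂_apply, LinearMap.comp_apply]
  have e4b : PP (eps ε u) (h.compl₂ (e v ∘ₗ e u)) (g u) (DD K (lk Δ u) (g u)) =
      1 * PP (eps ε u) h (g u) (vm (e v) (vm (e u) (DD K (lk Δ u) (g u)))) := by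
    apply i2_PP_congr
    intro N M
    rw [i2_hat_vm, i2_hat_vm, LinearMap.compl₂_apply, LinearMap.comp_apply, one_mul]
  -- (5), (6)
  have e5 := fun u' => i2_edge hD hhJ hv hg hu hS u'
  have e6 : ∑ u', PP (eps (eps ε u) u') (h.compl₂ (e v ∘ₗ e u)) (sg K u' (g u)) (sg K u' (g u)) +
      ∑ u', PP (eps (eps ε u) u') h (sg K u' (i2R B v g u)) (sg K u' (g u)) =
      - ∑ u', B u' v * PP (eps (eps ε u) u') (hJ u u')
        (sg K u' (vm (e u) (g u)) - sg K u (vm (e u') (g u'))) (sg K u' (vm (e u) (g u))) := by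
    rw [← Finset.sum_add_distrib, ← Finset.sum_neg_distrib]
    exact Finset.sum_congr rfl fun u' _ => e5 u'
  have e7 : ∑ u', B u v * B u' v * PP (eps (eps ε u) u') (hJ u u')
      (sg K u' (vm (e u) (g u)) - sg K u (vm (e u') (g u'))) (sg K u' (vm (e u) (g u))) =
      B u v * ∑ u', B u' v * PP (eps (eps ε u) u') (hJ u u')
      (sg K u' (vm (e u) (g u)) - sg K u (vm (e u') (g u'))) (sg K u' (vm (e u) (g u))) := by
    rw [Finset.mul_sum]
    exact Finset.sum_congr rfl fun u' _ => mul_assoc _ _ _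
  rw [Finset.sum_congr rfl fun u' _ => e3b u', ← Finset.mul_sum, e3a] at e3
  rw [e4a, e4b, one_mul] at e4
  have hs : ((-1 : K) ^ (k + 1)) * (-1) ^ (k + 1) = 1 := neg_one_sq_pow K _
  have hk : (-1 : K) ^ k = - (-1) ^ (k + 1) := by rw [pow_succ]; ring
  rw [hA, i2_sgZ v hg u, e7]
  simp only [map_add, map_smul, LinearMap.add_apply, LinearMap.smul_apply, smul_eq_mul, e1, e2]
  rw [hk] at e3 e4
  set s : K := (-1) ^ (k + 1) with hsd
  set X1 := PP (eps ε u) h (g u) (vm (e v) (vm (e u) (DD K (lk Δ u) (g u))))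
  set X2 := PP (eps ε u) h (g u) (DD K (lk Δ u) (g u))
  set X3 := PP (eps ε u) h (i2R B v g u) (DD K (lk Δ u) (g u))
  set X4 := PP (eps ε u) h (g u) (DD K (lk Δ u) (i2R B v g u))
  set Y4 := ∑ u', PP (eps (eps ε u) u') (h.compl₂ (e v ∘ₗ e u)) (sg K u' (g u)) (sg K u' (g u))
  set Y3 := ∑ u', PP (eps (eps ε u) u') h (sg K u' (i2R B v g u)) (sg K u' (g u))
  set Y := ∑ u', B u' v * PP (eps (eps ε u) u') (hJ u u')
      (sg K u' (vm (e u) (g u)) - sg K u (vm (e u') (g u'))) (sg K u' (vm (e u) (g u)))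
  have f3 : X3 - X4 = 2 * s * Y3 := by
    linear_combination s * e3 - (X3 - X4 - 2 * s * Y3) * hs
  have f4 : 2 * X1 - B u v * X2 = 2 * s * Y4 := by
    linear_combination (-s) * e4 + (B u v * X2 - 2 * X1) * hs
  linear_combination 2 * B u v * f4 + 2 * B u v * f3 + 4 * s * B u v * e6

end i2c

end Pool.Agent.H14.CL
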