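import Pool.Agent.H14.CL.Blk
import Pool.Agent.H14.CL.ChA

/-!
Project CL, part 2, row D1: passing to the kernel of an operator with a homotopy (helper15).
-/

set_option autoImplicit false

namespace Pool.Agent.H14.CL

open Finset

section kz

variable {n : ℕ} {K : Type*} [Field K] {S : Type*} [AddCommGroup S] [Module K S]
  {L : Finset (Finset (Fin n))} {U U' : Submodule K S} {e : Fin n → S →ₗ[K] S}

/-- the boundary commutes with a linear map applied to the values -/
theorem kz_bd (α : S →ₗ[K] S) (x : Finset (Fin n) → S) :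
    bd K (fun G => α (x G)) = fun G => α (bd K x G) := by
  funext G
  rw [bd_apply, bd_apply, map_sum]
  refine Finset.sum_congr rfl fun u _ => ?_
  rw [map_smul]

/-- a map anticommuting with the operators maps chains to chains -/
theorem kz_mem (hd : Down L) (α : S →ₗ[K] S) (h1 : ∀ x ∈ U, α x ∈ U')
    (h2 : ∀ v, {v} ∈ L → ∀ x ∈ U, α (e v x) = - e v (α x)) {j : ℕ} {x : Finset (Fin n) → S}
    (hx : x ∈ Ch L U e univ j) : (fun G => α (x G)) ∈ Ch L U' e univ j := by
  rw [mem_Ch] at hx ⊢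
  intro G
  obtain ⟨hG1, hG2⟩ := hx G
  refine ⟨⟨h1 _ hG1.1, fun v hv => ?_⟩, fun h => ?_⟩
  · by_cases hG : G ∈ L
    · have h3 := h2 v (hd G hG {v} (Finset.singleton_subset_iff.2 hv)) (x G) hG1.1
      rw [hG1.2 v hv, map_zero] at h3
      exact neg_eq_zero.1 h3.symm
    · rw [hG2 fun h => hG h.1, map_zero, map_zero]
  · rw [hG2 h, map_zero]

theorem kz_large {j : ℕ} (hj : ∀ F ∈ L, F.card < j) : Ex L U e univ j := by
  intro x hx _
  have h0 : x = 0 := by
    funext G
    refine (hx G).2 ?_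
    rintro ⟨h1, _, h3⟩
    have := hj G h1
    omega
  refine ⟨0, Submodule.zero_mem _, ?_⟩
  rw [h0, map_zero]

theorem kz_step (hd : Down L) (z m : S →ₗ[K] S) (hU : ∀ x, x ∈ U' ↔ x ∈ U ∧ z x = 0)
    (hz : ∀ x ∈ U, z x ∈ U ∧ m x ∈ U ∧ z (z x) = 0 ∧ z (m x) + m (z x) = x)
    (he : ∀ v, {v} ∈ L → ∀ x ∈ U, z (e v x) = - e v (z x) ∧ m (e v x) = - e v (m x))
    {j : ℕ} (hE : Ex L U e univ j) (ih : Ex L U' e univ (j + 1)) : Ex L U' e univ j := by
  intro x hx hc
  have hx' : x ∈ Ch L U e univ j := by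
    rw [mem_Ch] at hx ⊢
    exact fun G => ⟨⟨((hU _).1 (hx G).1.1).1, (hx G).1.2⟩, (hx G).2⟩
  obtain ⟨y, hy, hyb⟩ := hE x hx' hc
  have hzy : (fun G => z (y G)) ∈ Ch L U' e univ (j + 1) :=
    kz_mem hd z (fun t ht => (hU _).2 ⟨(hz t ht).1, (hz t ht).2.2.1⟩)
      (fun v hv t ht => (he v hv t ht).1) hy
  have hzyb : bd K (fun G => z (y G)) = 0 := by
    rw [kz_bd, hyb]
    funext G
    exact ((hU _).1 (hx G).1.1).2
  obtain ⟨y2, hy2, hy2b⟩ := ih _ hzy hzyb
  have hy2' : y2 ∈ Ch L U e univ (j + 1 + 1) := by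
    rw [mem_Ch] at hy2 ⊢
    exact fun G => ⟨⟨((hU _).1 (hy2 G).1.1).1, (hy2 G).1.2⟩, (hy2 G).2⟩
  have hmy : (fun G => m (y2 G)) ∈ Ch L U e univ (j + 1 + 1) :=
    kz_mem hd m (fun t ht => (hz t ht).2.1) (fun v hv t ht => (he v hv t ht).2) hy2'
  have hmy1 := bd_mem_Ch hd hmy
  have hzm : ∀ G, z (bd K (fun G => m (y2 G)) G) = z (y G) := by
    intro G
    have h1 := congrFun (kz_bd z (fun G => m (y2 G))) G
    have h2 : (fun G => z (m (y2 G))) = y2 := by
      funext H
      have h3 := (hz (y2 H) (hy2' H).1.1).2.2.2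
      rw [((hU _).1 (hy2 H).1.1).2, map_zero, add_zero] at h3
      exact h3
    rw [h2, hy2b] at h1
    exact h1.symm
  refine ⟨y - bd K (fun G => m (y2 G)), ?_, ?_⟩
  · have h4 := Submodule.sub_mem _ hy hmy1
    rw [mem_Ch] at h4 ⊢
    refine fun G => ⟨⟨(hU _).2 ⟨(h4 G).1.1, ?_⟩, (h4 G).1.2⟩, (h4 G).2⟩
    rw [Pi.sub_apply, map_sub, hzm G, sub_self]
  · rw [map_sub, bd_bd, sub_zero, hyb]

end kz

theorem st_kz : StKz := by
  intro n K S _ _ _ L U U' e z m hd hU hz he hE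
  have key : ∀ k j, n < j + k → Ex L U' e univ j := by
    intro k
    induction k with
    | zero =>
      intro j hj
      refine kz_large fun F _ => ?_
      have h1 := Finset.card_le_univ F
      rw [Fintype.card_fin] at h1
      omega
    | succ k ih =>
      intro j hj
      exact kz_step hd z m hU hz he (hE j) (ih (j + 1) (by omega))
  exact fun j => key (n + 1) j (by omega)

end Pool.Agent.H14.CL
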