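import Pool.Agent.H14.CL.Blk

/-!
Project CL: links, coefficients in the kernels of the vertices of a face.
-/

set_option autoImplicit false

namespace Pool.Agent.H14.CL

open Finset

private theorem down_lkF_kz {n : ℕ} {L : Finset (Finset (Fin n))} (hL : Down L) (F : Finset (Fin n)) :
    Down (lkF L F) := by
  intro G hG G' hG'
  rw [lkF, mem_filter] at hG ⊢
  obtain ⟨h1, h2, h3⟩ := hG
  refine ⟨hL _ h1 _ hG', ?_, hL _ h3 _ (union_subset_union hG' (subset_refl _))⟩
  exact subset_empty.1 (h2 ▸ inter_subset_inter hG' (subset_refl _))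

theorem st_kzF (h : StKz) : StKzF := by
  intro n R S _ _ γ δ hC Δ E M hD hE hM F hF hX
  have hL : Down (lkF Δ F) := down_lkF_kz hD F
  -- products of the vertices of the face
  have hFF : ∀ f ∈ F, ∀ g ∈ F, ip (E f) (E g) = 0 := fun f hf g hg =>
    hE f g (hD _ hF _ (by
      intro x hx
      rcases mem_insert.1 hx with rfl | hx
      · exact hf
      · rw [mem_singleton.1 hx]; exact hg))
  -- products of a vertex of the link with a vertex of the face
  have hvF : ∀ v, {v} ∈ lkF Δ F → ∀ f ∈ F, v ≠ f ∧ ip (E v) (E f) = 0 := by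
    intro v hv f hf
    rw [lkF, mem_filter] at hv
    obtain ⟨_, h2, h3⟩ := hv
    refine ⟨?_, hE v f (hD _ h3 _ ?_)⟩
    · rintro rfl
      have : v ∈ ({v} : Finset (Fin n)) ∩ F := mem_inter.2 ⟨mem_singleton_self _, hf⟩
      rw [h2] at this
      exact notMem_empty _ this
    · intro x hx
      rcases mem_insert.1 hx with rfl | hx
      · exact mem_union_left _ (mem_singleton_self _)
      · rw [mem_singleton.1 hx]; exact mem_union_right _ hf
  have key : ∀ F' : Finset (Fin n), F' ⊆ F →
      ∀ j, Ex (lkF Δ F) (KK ⊤ (fun v => opv γ δ (E v)) F') (fun v => opv γ δ (E v)) univ j := by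
    intro F'
    induction F' using Finset.induction_on with
    | empty =>
      intro _ j
      have h0 : KK (⊤ : Submodule ℝ S) (fun v => opv γ δ (E v)) ∅ = ⊤ := by
        ext x
        simp [mem_KK]
      rw [h0]
      exact hX j
    | insert w F' hw ih =>
      intro hF' 
      have hwF : w ∈ F := hF' (mem_insert_self _ _)
      have hF'F : F' ⊆ F := fun f hf => hF' (mem_insert_of_mem hf)
      refine h n ℝ S (lkF Δ F) (KK ⊤ (fun v => opv γ δ (E v)) F')
        (KK ⊤ (fun v => opv γ δ (E v)) (insert w F')) (fun v => opv γ δ (E v))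
        (opv γ δ (E w)) (opv γ δ (M w)) hL ?_ ?_ ?_ (ih hF'F)
      · intro x
        simp only [mem_KK, forall_mem_insert]
        tauto
      · intro x hx
        refine ⟨⟨trivial, fun f hf => ?_⟩, ⟨trivial, fun f hf => ?_⟩, ?_, ?_⟩
        · change opv γ δ (E f) (opv γ δ (E w) x) = 0
          rw [opv_anti hC (hFF f (hF'F hf) w hwF)]
          have h2 : opv γ δ (E f) x = 0 := hx.2 f hf
          rw [h2, map_zero, neg_zero]
        · have hfw : w ≠ f := fun hh => hw (hh ▸ hf)
          have h1 := hM w f
          rw [if_neg hfw] at h1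
          change opv γ δ (E f) (opv γ δ (M w) x) = 0
          rw [opv_anti hC h1]
          have h2 : opv γ δ (E f) x = 0 := hx.2 f hf
          rw [h2, map_zero, neg_zero]
        · exact opv_sq hC (hFF w hwF w hwF) x
        · have h1 := hM w w
          rw [if_pos rfl] at h1
          exact opv_half hC h1 x
      · intro v hv x _
        obtain ⟨hvw, h0⟩ := hvF v hv w hwF
        refine ⟨opv_anti hC (by rw [ip_comm]; exact h0) x, ?_⟩
        have h1 := hM w v
        rw [if_neg (Ne.symm hvw)] at h1
        exact opv_anti hC (by rw [ip_comm]; exact h1) x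
  exact key F (subset_refl _)

end Pool.Agent.H14.CL
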