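import Pool.Agent.H14.CL.Stm3
import Pool.Agent.H14.CL.Kz

/-!
Project CL, part 3, row F1: passing to the kernel of an operator with a homotopy, with an
index (helper15).
-/

set_option autoImplicit false

namespace Pool.Agent.H14.CL

open Finset

theorem st_kzK : StKzK := by
  intro n k K S _ _ _ L U U' e z m hd hU hz he hE
  have key : ∀ i j, k ≤ j → n < j + i → Ex L U' e univ j := by
    intro i
    induction i with
    | zero =>
      intro j _ hj
      refine kz_large fun F _ => ?_
      have h1 := Finset.card_le_univ F
      rw [Fintype.card_fin] at h1
      omega
    | succ i ih =>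
      intro j hk hj
      exact kz_step hd z m hU hz he (hE j hk) (ih (j + 1) (by omega) (by omega))
  exact fun j hk => key (n + 1) j hk (by omega)

end Pool.Agent.H14.CL
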