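import Pool.Agent.H14.CL.Blk
import Pool.Agent.H14.CL.ChA

/-!
Project CL, part 2, row D3: gluing.
-/

set_option autoImplicit false

namespace Pool.Agent.H14.CL

open Finset

section mv

variable {n : ℕ} {K : Type*} [Field K] {S : Type*} [AddCommGroup S] [Module K S]
  {L : Finset (Finset (Fin n))} {U : Submodule K S} {e : Fin n → S →ₗ[K] S}

theorem mv_Ch {A : Finset (Fin n)} {j : ℕ} {x : Finset (Fin n) → S} :
    x ∈ Ch (ful L A) U e univ j ↔ x ∈ Ch L U e A j := by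
  rw [mem_Ch, mem_Ch]
  have h : ∀ G : Finset (Fin n), (G ∈ ful L A ∧ G ⊆ univ ∧ G.card = j) ↔
      (G ∈ L ∧ G ⊆ A ∧ G.card = j) := by
    intro G
    unfold ful
    rw [mem_filter]
    exact ⟨fun h => ⟨h.1.1, h.1.2, h.2.2⟩, fun h => ⟨⟨h.1, h.2.1⟩, subset_univ _, h.2.2⟩⟩
  exact forall_congr' fun G => by rw [h G]

theorem mv_Ex {A : Finset (Fin n)} {j : ℕ} (h : Ex (ful L A) U e univ j) : Ex L U e A j := by
  intro x hx hc
  obtain ⟨y, hy, hyb⟩ := h x (mv_Ch.2 hx) hc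
  exact ⟨y, mv_Ch.1 hy, hyb⟩

theorem mv_inter {A₁ A₂ : Finset (Fin n)} {j : ℕ} {x : Finset (Fin n) → S}
    (h1 : x ∈ Ch L U e A₁ j) (h2 : x ∈ Ch L U e A₂ j) : x ∈ Ch L U e (A₁ ∩ A₂) j := by
  rw [mem_Ch] at h1 h2 ⊢
  refine fun G => ⟨(h1 G).1, fun h => ?_⟩
  by_cases h3 : G ∈ L ∧ G ⊆ A₁ ∧ G.card = j
  · refine (h2 G).2 fun h4 => h ⟨h3.1, subset_inter h3.2.1 h4.2.1, h3.2.2⟩
  · exact (h1 G).2 h3

end mv

theorem st_mv : StMV := by
  intro n K S _ _ _ L U e A₁ A₂ hd hc g1 g2 g12 j x hx hb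
  have e1 : ∀ j, Ex L U e A₁ j := fun j => mv_Ex (g1 j)
  have e2 : ∀ j, Ex L U e A₂ j := fun j => mv_Ex (g2 j)
  have e12 : ∀ j, Ex L U e (A₁ ∩ A₂) j := fun j => mv_Ex (g12 j)
  rcases j with _ | j
  · have h0 : x ∈ Ch L U e (A₁ ∩ A₂) 0 := by
      rw [mem_Ch] at hx ⊢
      refine fun G => ⟨(hx G).1, fun h => (hx G).2 fun h1 => h ⟨h1.1, ?_, h1.2.2⟩⟩
      rw [card_eq_zero.1 h1.2.2]
      exact empty_subset _
    obtain ⟨w, hw, hwb⟩ := e12 0 x h0 hb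
    exact ⟨w, Ch_mono (subset_univ _) hw, hwb⟩
  · obtain ⟨x1, hx1⟩ : ∃ x1 : Finset (Fin n) → S, x1 = fun G => if G ⊆ A₁ then x G else 0 :=
      ⟨_, rfl⟩
    have m1 : x1 ∈ Ch L U e A₁ (j + 1) := by
      rw [mem_Ch] at hx ⊢
      intro G
      rw [hx1]
      beta_reduce
      split_ifs with h
      · exact ⟨(hx G).1, fun h1 => (hx G).2 fun h2 => h1 ⟨h2.1, h, h2.2.2⟩⟩
      · exact ⟨Submodule.zero_mem _, fun _ => rfl⟩
    have m2 : x - x1 ∈ Ch L U e A₂ (j + 1) := by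
      rw [mem_Ch] at hx ⊢
      intro G
      rw [hx1, Pi.sub_apply]
      beta_reduce
      split_ifs with h
      · rw [sub_self]
        exact ⟨Submodule.zero_mem _, fun _ => rfl⟩
      · rw [sub_zero]
        exact ⟨(hx G).1, fun h1 => (hx G).2 fun h2 =>
          h1 ⟨h2.1, (hc G h2.1).resolve_left h, h2.2.2⟩⟩
    have hb2 : bd K (x - x1) = - bd K x1 := by rw [map_sub, hb, zero_sub]
    have m3 : bd K x1 ∈ Ch L U e A₂ j := by
      have h := bd_mem_Ch hd m2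
      rw [hb2] at h
      exact neg_mem_iff.1 h
    obtain ⟨w, hw, hwb⟩ := e12 j (bd K x1) (mv_inter (bd_mem_Ch hd m1) m3) (bd_bd _)
    obtain ⟨y1, hy1, hyb1⟩ := e1 (j + 1) (x1 - w)
      (Submodule.sub_mem _ m1 (Ch_mono inter_subset_left hw)) (by rw [map_sub, hwb, sub_self])
    obtain ⟨y2, hy2, hyb2⟩ := e2 (j + 1) (x - x1 + w)
      (Submodule.add_mem _ m2 (Ch_mono inter_subset_right hw))
      (by rw [map_add, hb2, hwb, neg_add_cancel])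
    refine ⟨y1 + y2, Submodule.add_mem _ (Ch_mono (subset_univ _) hy1)
      (Ch_mono (subset_univ _) hy2), ?_⟩
    rw [map_add, hyb1, hyb2]
    abel

end Pool.Agent.H14.CL
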