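import Pool.Agent.H14.CL.Blk

/-!
Project CL, third part: the classes `B(k)` (homology vanishes in degrees `≥ k`).
-/

set_option autoImplicit false

namespace Pool.Agent.H14.CL

open Finset

/-- a configuration, orthogonal on `A`, with `H_j = 0` for `j ≥ k` for all pairs `(k, L)` of the
family -/
structure CfgK {n R : ℕ} {S : Type} [AddCommGroup S] [Module ℝ S]
    (γ δ : (Fin R → ℝ) →ₗ[ℝ] S →ₗ[ℝ] S) (X : Finset (ℕ × Finset (Finset (Fin n))))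
    (A : Fin n → Fin n → Prop) (E : Fin n → Vec R) : Prop where
  orth : ∀ v w, A v w → ip (E v) (E w) = 0
  dual : ∃ M, Dual E M
  ex : ∀ p ∈ X, ∀ j, p.1 ≤ j → Ex p.2 ⊤ (fun v => opv γ δ (E v)) univ j

/-- configurations exist on all Clifford modules of large rank -/
def GoodK {n : ℕ} (X : Finset (ℕ × Finset (Finset (Fin n)))) (A : Fin n → Fin n → Prop) :
    Prop :=
  ∃ R₀ : ℕ, ∀ R, R₀ ≤ R → ∀ (S : Type) [NormedAddCommGroup S] [InnerProductSpace ℝ S]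
    [FiniteDimensional ℝ S] (γ δ : (Fin R → ℝ) →ₗ[ℝ] S →ₗ[ℝ] S), Clif S γ δ →
    ∃ E : Fin n → Vec R, CfgK γ δ X A E

/-- the class `B(k)` -/
def GK {n : ℕ} (k : ℕ) (L : Finset (Finset (Fin n))) : Prop := GoodK {(k, L)} (Adj L)

/-- flag real homology spheres of type `d` (dimension `d - 1`) -/
def FS {n : ℕ} (d : ℕ) (L : Finset (Finset (Fin n))) : Prop :=
  ∅ ∈ L ∧ Down L ∧ Flag L ∧ (∀ F ∈ L, F.card ≤ d) ∧ RankHyp ℝ L d

/-- reduced real homology of `L` vanishes in dimension `m - 1` -/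
def Acy {n : ℕ} (L : Finset (Finset (Fin n))) (m : ℕ) : Prop :=
  (L.filter (fun G => G.card = m)).card = (bdM ℝ L m).rank + (bdM ℝ L (m + 1)).rank

/-! ### rows, homological algebra -/

/-- F1 -/
def StKzK : Prop := ∀ (n k : ℕ) (K S : Type) [Field K] [AddCommGroup S] [Module K S]
  (L : Finset (Finset (Fin n))) (U U' : Submodule K S) (e : Fin n → S →ₗ[K] S)
  (z m : S →ₗ[K] S), Down L → (∀ x, x ∈ U' ↔ x ∈ U ∧ z x = 0) →
  (∀ x ∈ U, z x ∈ U ∧ m x ∈ U ∧ z (z x) = 0 ∧ z (m x) + m (z x) = x) →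
  (∀ v, {v} ∈ L → ∀ x ∈ U, z (e v x) = - e v (z x) ∧ m (e v x) = - e v (m x)) →
  (∀ j, k ≤ j → Ex L U e univ j) → ∀ j, k ≤ j → Ex L U' e univ j

/-- F2 -/
def StAddK : Prop := ∀ (n k : ℕ) (K S : Type) [Field K] [AddCommGroup S] [Module K S]
  (L : Finset (Finset (Fin n))) (U : Submodule K S) (e : Fin n → S →ₗ[K] S) (v : Fin n),
  Down L → (∀ j, k - 1 ≤ j → Ex (lk L v) (KK U e {v}) e univ j) →
  (∀ j, k ≤ j → Ex (dl L v) U e univ j) → ∀ j, k ≤ j → Ex L U e univ j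

/-- F3 -/
def StDelK : Prop := ∀ (n k : ℕ) (K S : Type) [Field K] [AddCommGroup S] [Module K S]
  (L : Finset (Finset (Fin n))) (U : Submodule K S) (e : Fin n → S →ₗ[K] S) (v : Fin n),
  Down L → (∀ j, k ≤ j → Ex (lk L v) (KK U e {v}) e univ j) →
  (∀ j, k ≤ j → Ex L U e univ j) → ∀ j, k ≤ j → Ex (dl L v) U e univ j

/-- F4 -/
def StMVK : Prop := ∀ (n k : ℕ) (K S : Type) [Field K] [AddCommGroup S] [Module K S]
  (L : Finset (Finset (Fin n))) (U : Submodule K S) (e : Fin n → S →ₗ[K] S)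
  (A₁ A₂ : Finset (Fin n)), Down L → (∀ F ∈ L, F ⊆ A₁ ∨ F ⊆ A₂) →
  (∀ j, k ≤ j → Ex (ful L A₁) U e univ j) → (∀ j, k ≤ j → Ex (ful L A₂) U e univ j) →
  (∀ j, k - 1 ≤ j → Ex (ful L (A₁ ∩ A₂)) U e univ j) → ∀ j, k ≤ j → Ex L U e univ j

/-- F5 -/
def StDblK : Prop := ∀ (n k : ℕ) (K S : Type) [Field K] [AddCommGroup S] [Module K S]
  (L : Finset (Finset (Fin n))) (U : Submodule K S) (e : Fin n → S →ₗ[K] S) (u v : Fin n),
  Down L → Flag L → u ≠ v → ({u, v} : Finset (Fin n)) ∈ L → (∀ x ∈ U, e v x = e u x) →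
  (∀ j, k ≤ j → Ex (contr L u v) U e univ j) → ∀ j, k ≤ j → Ex L U e univ j

/-- F6 -/
def StOffK : Prop := ∀ (n k : ℕ) (K S : Type) [Field K] [AddCommGroup S] [Module K S]
  (L : Finset (Finset (Fin n))) (U : Submodule K S) (e : Fin n → S →ₗ[K] S) (u v : Fin n),
  Down L → u ≠ v → (∀ x ∈ U, e v x = e u x) → (∀ j, k ≤ j → Ex L U e univ j) →
  (∀ j, k - 1 ≤ j → Ex (lk (lk L u) v) (KK U e {u}) e univ j) →
  ∀ j, k ≤ j → ∀ x ∈ Ch L U e univ j, bd K x = 0 → (∀ G, u ∈ G → v ∈ G → x G = 0) →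
  ∃ y ∈ Ch L U e univ (j + 1), (∀ G, u ∈ G → v ∈ G → y G = 0) ∧ bd K y = x

/-- F7 -/
def StSplitOpK : Prop := ∀ (n k : ℕ) (K S : Type) [Field K] [AddCommGroup S] [Module K S]
  (L : Finset (Finset (Fin n))) (e : Fin n → S →ₗ[K] S) (r m mu : S →ₗ[K] S) (u v : Fin n),
  Down L → Flag L → u ≠ v → ({u, v} : Finset (Fin n)) ∈ L →
  (∀ x, e v x = e u x + r x) → (∀ x, r (r x) = 0) → (∀ x, r (m x) + m (r x) = x) →
  (∀ x, r (mu x) + mu (r x) = 0) →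
  (∀ w, {w} ∈ L → ∀ x, r (e w x) = - e w (r x)) →
  (∀ w, {w} ∈ L → w ≠ v → ∀ x, m (e w x) = - e w (m x)) →
  (∀ w, {w} ∈ L → w ≠ u → w ≠ v → ∀ x, mu (e w x) = - e w (mu x)) →
  (∀ x, mu (e u x) + e u (mu x) = x) → (∀ x, e u (e u x) = 0) →
  (∀ w, ({u, w} : Finset (Fin n)) ∈ L → w ≠ u → w ≠ v → ∀ x, e w (e u x) = - e u (e w x)) →
  (∀ j, k ≤ j → Ex (contr L u v) ⊤ e univ j) →
  (∀ j, k - 1 ≤ j → Ex (lk (lk L u) v) ⊤ e univ j) →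
  ∀ j, k ≤ j → Ex L ⊤ e univ j

/-! ### rows, deformation and configurations -/

/-- F8 -/
def StSCK : Prop := ∀ (n j : ℕ) (S : Type) [AddCommGroup S] [Module ℝ S]
  [FiniteDimensional ℝ S]
  (L : Finset (Finset (Fin n))) (e₀ e₁ : Fin n → S →ₗ[ℝ] S), Down L →
  (∀ (s : ℝ) v w, ({v, w} : Finset (Fin n)) ∈ L → ∀ x,
    (e₀ v + s • e₁ v) ((e₀ w + s • e₁ w) x) + (e₀ w + s • e₁ w) ((e₀ v + s • e₁ v) x) = 0) →
  (∀ (s : ℝ) F u, u ∉ F → insert u F ∈ L → ∀ x ∈ KK ⊤ (fun v => e₀ v + s • e₁ v) F,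
    (e₀ u + s • e₁ u) x = 0 →
    ∃ y ∈ KK ⊤ (fun v => e₀ v + s • e₁ v) F, (e₀ u + s • e₁ u) y = x) →
  Ex L ⊤ e₀ univ j →
  {s : ℝ | ¬ Ex L ⊤ (fun v => e₀ v + s • e₁ v) univ j}.Finite

/-- F9 -/
def StNormK : Prop := ∀ (n k : ℕ) (L : Finset (Finset (Fin n))), Down L → GK k L →
  GoodK {(k, L)} (NAdj L)

/-- F10 -/
def StAllK : Prop := ∀ (n : ℕ) (X : Finset (ℕ × Finset (Finset (Fin n))))
  (A : Fin n → Fin n → Prop), (∀ p ∈ X, Down p.2 ∧ GK p.1 p.2 ∧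
    (∀ v w, {v} ∈ p.2 → {w} ∈ p.2 → A v w → ({v, w} : Finset (Fin n)) ∈ p.2) ∧
    (∀ v w, ({v, w} : Finset (Fin n)) ∈ p.2 → A v w)) → GoodK X A

/-- F11: colourings -/
def StColG : Prop := ∀ (n N k : ℕ) (L : Finset (Finset (Fin n))) (c : Fin n → Fin N)
  (σ : Fin n → Bool), Down L →
  (∀ u v, ({u, v} : Finset (Fin n)) ∈ L → u ≠ v → c u ≠ c v) →
  (∀ η : Fin N → Bool, ∀ j, k ≤ j → Ex (ful L (univ.filter (fun v => σ v = η (c v))))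
    (⊤ : Submodule ℝ ℝ) (fun _ => 0) univ j) → GK k L

/-- F12: real homology and ranks -/
def StHomRank : Prop := ∀ (n j : ℕ) (L : Finset (Finset (Fin n))), Down L → Acy L j →
  Ex L (⊤ : Submodule ℝ ℝ) (fun _ => 0) univ j

/-- F13 -/
def StAddGK : Prop := ∀ (n k : ℕ) (L : Finset (Finset (Fin n))) (v : Fin n), Down L →
  Flag L → {v} ∈ L → GK (k - 1) (lk L v) → GK k (dl L v) → GK k L

/-- F14 -/
def StDelGK : Prop := ∀ (n k : ℕ) (L : Finset (Finset (Fin n))) (v : Fin n), Down L →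
  Flag L → {v} ∈ L → GK k (lk L v) → GK k L → GK k (dl L v)

/-- F15 -/
def StGlueGK : Prop := ∀ (n k : ℕ) (L : Finset (Finset (Fin n))) (A₁ A₂ : Finset (Fin n)),
  Down L → Flag L → (∀ a b, ({a, b} : Finset (Fin n)) ∈ L →
    (a ∈ A₁ ∧ b ∈ A₁) ∨ (a ∈ A₂ ∧ b ∈ A₂)) →
  GK k (ful L A₁) → GK k (ful L A₂) → GK (k - 1) (ful L (A₁ ∩ A₂)) → GK k L

/-- F16 -/
def StSplitGK : Prop := ∀ (n k : ℕ) (L : Finset (Finset (Fin n))) (u v : Fin n),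
  Down L → Flag L → u ≠ v → ({u, v} : Finset (Fin n)) ∈ L →
  GK k (contr L u v) → GK (k - 1) (lk (lk L u) v) → GK k L

/-- F17 -/
def StSpecGK : Prop := ∀ (n d : ℕ) (L : Finset (Finset (Fin n))) (ε : Finset (Fin n) → ℝ),
  Sph ℝ L ε d → ∀ (W : Matrix (Fin n) (Fin n) ℝ) (hW : W.IsHermitian),
  (∀ u v, ({u, v} : Finset (Fin n)) ∈ L → W u v = 0) →
  (∀ F ∈ L, F.card < d → ∃ v, v ∉ F ∧ insert v F ∈ L ∧
    ∀ u, u ∉ F → insert u F ∈ L → ({u, v} : Finset (Fin n)) ∉ L → 0 < W u v) →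
  (univ.filter (fun i => hW.eigenvalues i < 0)).card ≤ d →
  GK (if Odd d then 0 else d / 2 + 1) L

/-- F18: duality -/
def StDualG : Prop := ∀ (n d k : ℕ) (L : Finset (Finset (Fin n))) (ε : Finset (Fin n) → ℝ),
  Sph ℝ L ε d → GK k L → 2 * k ≤ d + 1 → GK 0 L

/-- F19: Euler characteristic zero -/
def StEulerG : Prop := ∀ (n m : ℕ) (L : Finset (Finset (Fin n))) (ε : Finset (Fin n) → ℝ),
  Sph ℝ L ε (2 * m) → GK (m + 1) L →
  ∑ F ∈ L, (-1 : ℤ) ^ F.card * 2 ^ (2 * m - F.card) = 0 → GK 0 L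

/-- F20: the inequality -/
def StFinD : Prop := ∀ (n m : ℕ) (L : Finset (Finset (Fin n))) (ε : Finset (Fin n) → ℝ),
  Sph ℝ L ε (2 * m) → GK (m + 1) L →
  0 ≤ (-1 : ℤ) ^ m * ∑ F ∈ L, (-1 : ℤ) ^ F.card * 2 ^ (2 * m - F.card)

/-- F21: local to global, for a class of complexes closed under (add) and (del) -/
def StLocG : Prop := ∀ (n m : ℕ) (L : Finset (Finset (Fin n))), Down L → Flag L → ∅ ∈ L →
  (∀ F ∈ L, F.card ≤ 2 * m) → (∀ F ∈ L, Odd F.card → GK 0 (lkF L F)) → GK (m + 1) L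

end Pool.Agent.H14.CL
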