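import Pool.Agent.H14.CL.MV
import Pool.Agent.H14.CL.Stm3

/-!
Project CL, part 3, row F4: gluing for the classes `B(k)` (copy of helper76's MV.lean with an
index; helper19).
-/

set_option autoImplicit false

namespace Pool.Agent.H14.CL

open Finset

/-- gluing for complexes without homology in degrees at least `k` -/
theorem st_mvK : StMVK := by
  intro n k K S _ _ _ L U e A₁ A₂ hd hc g1 g2 g12 j hkj x hx hb
  have e1 : ∀ j, k ≤ j → Ex L U e A₁ j := fun j hj => mv_Ex (g1 j hj)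
  have e2 : ∀ j, k ≤ j → Ex L U e A₂ j := fun j hj => mv_Ex (g2 j hj)
  have e12 : ∀ j, k - 1 ≤ j → Ex L U e (A₁ ∩ A₂) j := fun j hj => mv_Ex (g12 j hj)
  rcases j with _ | j
  · have h0 : x ∈ Ch L U e (A₁ ∩ A₂) 0 := by
      rw [mem_Ch] at hx ⊢
      refine fun G => ⟨(hx G).1, fun h => (hx G).2 fun h1 => h ⟨h1.1, ?_, h1.2.2⟩⟩
      rw [card_eq_zero.1 h1.2.2]
      exact empty_subset _
    obtain ⟨w, hw, hwb⟩ := e12 0 (by omega) x h0 hb
    exact ⟨w, Ch_mono (subset_univ _) hw, hwb⟩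
  · obtain ⟨x1, hx1⟩ : ∃ x1 : Finset (Fin n) → S, x1 = fun G => if G ⊆ A₁ then x G else 0 :=
      ⟨_, rfl⟩
    have m1 : x1 ∈ Ch L U e A₁ (j + 1) := by
      rw [mem_Ch] at hx ⊢
      intro G
      rw [hx1]
      beta_reduce
      split_ifs with h
      · exact ⟨(hx G).1, fun h1 => (hx G).2 fun h2 => h1 ⟨h2.1, h, h2.2.2⟩⟩
      · exact ⟨Submodule.zero_mem _, fun _ => rfl⟩
    have m2 : x - x1 ∈ Ch L U e A₂ (j + 1) := by
      rw [mem_Ch] at hx ⊢
      intro G
      rw [hx1, Pi.sub_apply]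
      beta_reduce
      split_ifs with h
      · rw [sub_self]
        exact ⟨Submodule.zero_mem _, fun _ => rfl⟩
      · rw [sub_zero]
        exact ⟨(hx G).1, fun h1 => (hx G).2 fun h2 =>
          h1 ⟨h2.1, (hc G h2.1).resolve_left h, h2.2.2⟩⟩
    have hb2 : bd K (x - x1) = - bd K x1 := by rw [map_sub, hb, zero_sub]
    have m3 : bd K x1 ∈ Ch L U e A₂ j := by
      have h := bd_mem_Ch hd m2
      rw [hb2] at h
      exact neg_mem_iff.1 h
    obtain ⟨w, hw, hwb⟩ := e12 j (by omega) (bd K x1) (mv_inter (bd_mem_Ch hd m1) m3) (bd_bd _)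
    obtain ⟨y1, hy1, hyb1⟩ := e1 (j + 1) hkj (x1 - w)
      (Submodule.sub_mem _ m1 (Ch_mono inter_subset_left hw)) (by rw [map_sub, hwb, sub_self])
    obtain ⟨y2, hy2, hyb2⟩ := e2 (j + 1) hkj (x - x1 + w)
      (Submodule.add_mem _ m2 (Ch_mono inter_subset_right hw))
      (by rw [map_add, hb2, hwb, neg_add_cancel])
    refine ⟨y1 + y2, Submodule.add_mem _ (Ch_mono (subset_univ _) hy1)
      (Ch_mono (subset_univ _) hy2), ?_⟩
    rw [map_add, hyb1, hyb2]
    abel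

end Pool.Agent.H14.CL
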