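import Pool.Agent.H14.CL.Stm

/-!
Project CL: preparations for the main induction.
-/

set_option autoImplicit false

namespace Pool.Agent.H14.CL

open Finset

variable {n : ℕ} {K S : Type} [Field K] [AddCommGroup S] [Module K S]
  {Δ : Finset (Finset (Fin n))} {U : Submodule K S} {e : Fin n → S →ₗ[K] S}
  {B : Fin n → Fin n → K} {h : S →ₗ[K] S →ₗ[K] K} {ε : Finset (Fin n) → K}

theorem Bd_zero (A : Finset (Fin n)) (j : ℕ) : Bd Δ U e A j (0 : Finset (Fin n) → S) :=
  ⟨0, Submodule.zero_mem _, map_zero _⟩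

/-- chains in too large degree vanish -/
theorem Ch_zero {A : Finset (Fin n)} {j : ℕ} (hj : ∀ F ∈ Δ, F.card < j)
    {x : Finset (Fin n) → S} (hx : x ∈ Ch Δ U e A j) : x = 0 := by
  funext G
  refine (hx G).2 ?_
  rintro ⟨h1, _, h3⟩
  exact absurd (hj G h1) (by omega)

theorem Tot_zero {j : ℕ} (hj : ∀ F ∈ Δ, F.card < j)
    {w : Finset (Fin n) → Finset (Fin n) → S} (hw : w ∈ Tot Δ U e j) : w = 0 := by
  funext N G
  refine (hw N G).2 ?_
  rintro ⟨h1, h2, h3⟩
  have h4 := hj _ h2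
  have h5 := card_le_card (subset_union_left : N ⊆ N ∪ G)
  omega

theorem TB_zero (j : ℕ) : TB Δ U e j (0 : Finset (Fin n) → Finset (Fin n) → S) :=
  ⟨0, Submodule.zero_mem _, map_zero _⟩

theorem mn_Ch_mono {A A' : Finset (Fin n)} (hA : A ⊆ A') (j : ℕ) :
    Ch Δ U e A j ≤ Ch Δ U e A' j := by
  intro x hx G
  refine ⟨(hx G).1, fun h => (hx G).2 ?_⟩
  rintro ⟨h1, h2, h3⟩
  exact h ⟨h1, h2.trans hA, h3⟩

/-- homogeneity of elements of `Tot` -/
theorem Tot_hom {j : ℕ} {w : Finset (Fin n) → Finset (Fin n) → S} (hw : w ∈ Tot Δ U e j)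
    (N G : Finset (Fin n)) (h : N.card ≠ j) : w N G = 0 :=
  (hw N G).2 fun h' => h h'.2.2

theorem sg_nonvertex (hd : Down Δ) {j : ℕ} {w : Finset (Fin n) → Finset (Fin n) → S}
    (hw : w ∈ Tot Δ U e j) {u : Fin n} (hu : ({u} : Finset (Fin n)) ∉ Δ) :
    sg K u w = 0 := by
  funext N G
  rw [sg_apply]
  by_cases hG : u ∈ G
  · simp [hG]
  · rw [if_neg hG]
    refine (hw N _).2 ?_
    rintro ⟨_, h2, _⟩
    exact hu (hd _ h2 _ (by simp))

theorem sg_mem_K {j : ℕ} {w : Finset (Fin n) → Finset (Fin n) → S} (hw : w ∈ Tot Δ U e j)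
    (u : Fin n) (N G : Finset (Fin n)) : sg K u w N G ∈ KK U e {u} := by
  rw [sg_apply]
  by_cases hG : u ∈ G
  · rw [if_pos hG]; exact Submodule.zero_mem _
  · rw [if_neg hG]
    exact KK_anti U e (by simp) (hw N _).1

/-- the form vanishes on the kernel of `e u` -/
theorem iso_K {d : ℕ} (D : Dat Δ U e B h ε d) {u : Fin n} (hu : {u} ∈ Δ) {x y : S}
    (hx : x ∈ KK U e {u}) (hy : y ∈ KK U e {u}) : h x y = 0 := by
  have h1 : e u x = 0 := hx.2 u (by simp)
  obtain ⟨t, ht, rfl⟩ := D.kos ∅ D.sph.empty u (by simp) (by simpa using hu) x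
    (by rw [KK_empty]; exact hx.1) h1
  rw [KK_empty] at ht
  rw [D.adj u hu t ht y hy.1, hy.2 u (by simp), map_zero, mul_zero]

/-- the pairing vanishes if one side is exact -/
theorem PP_exact_left (hst : StStokes) (hmap : StMap) {d : ℕ} (D : Dat Δ U e B h ε d) {i j : ℕ}
    {c w : Finset (Fin n) → Finset (Fin n) → S} (hc : c ∈ Tot Δ U e i)
    (hw : w ∈ Tot Δ U e j) (hDw : DD K Δ w = 0) : PP ε h (DD K Δ c) w = 0 := by
  have h1 := hst n K S Δ ε d D.sph h i c w (Tot_hom hc)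
  have h2 : ∀ u, PP (eps ε u) h (sg K u c) (sg K u w) = 0 := by
    intro u
    by_cases hu : ({u} : Finset (Fin n)) ∈ Δ
    · have := hmap n K S (eps ε u) h h 0 (KK U e {u}) (KK U e {u}) LinearMap.id LinearMap.id
        (sg K u c) (sg K u w) (fun x hx y hy => by rw [iso_K D hu hx hy, zero_mul])
        (sg_mem_K hc u) (sg_mem_K hw u)
      rw [this, zero_mul]
    · rw [sg_nonvertex D.sph.dn hc hu, map_zero, LinearMap.zero_apply]
  rw [hDw, map_zero, mul_zero, add_zero, Finset.sum_congr rfl (fun u _ => h2 u)] at h1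
  simpa using h1

theorem PP_exact_right (hst : StStokes) (hmap : StMap) {d : ℕ} (D : Dat Δ U e B h ε d)
    {i j : ℕ} {c w : Finset (Fin n) → Finset (Fin n) → S} (hc : c ∈ Tot Δ U e i)
    (hw : w ∈ Tot Δ U e j) (hDw : DD K Δ w = 0) : PP ε h w (DD K Δ c) = 0 := by
  have h1 := hst n K S Δ ε d D.sph h j w c (Tot_hom hw)
  have h2 : ∀ u, PP (eps ε u) h (sg K u w) (sg K u c) = 0 := by
    intro u
    by_cases hu : ({u} : Finset (Fin n)) ∈ Δ
    · have := hmap n K S (eps ε u) h h 0 (KK U e {u}) (KK U e {u}) LinearMap.id LinearMap.id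
        (sg K u w) (sg K u c) (fun x hx y hy => by rw [iso_K D hu hx hy, zero_mul])
        (sg_mem_K hw u) (sg_mem_K hc u)
      rw [this, zero_mul]
    · rw [sg_nonvertex D.sph.dn hw hu, map_zero, LinearMap.zero_apply]
  rw [hDw, map_zero, LinearMap.zero_apply, zero_add,
    Finset.sum_congr rfl (fun u _ => h2 u)] at h1
  have h3 : ((-1 : K) ^ j) ≠ 0 := pow_ne_zero _ (by norm_num)
  have h4 : (-1 : K) ^ j * PP ε h w (DD K Δ c) = 0 := by simpa using h1
  exact (mul_eq_zero.1 h4).resolve_left h3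

theorem TB_PP_left (hst : StStokes) (hmap : StMap) {d : ℕ} (D : Dat Δ U e B h ε d) {i j : ℕ}
    {w' w : Finset (Fin n) → Finset (Fin n) → S} (hc : TB Δ U e i w')
    (hw : w ∈ Tot Δ U e j) (hDw : DD K Δ w = 0) : PP ε h w' w = 0 := by
  obtain ⟨b, hb, rfl⟩ := hc
  cases i with
  | zero =>
    have : b = 0 := by simpa [TotP] using hb
    rw [this, map_zero, map_zero, LinearMap.zero_apply]
  | succ i => exact PP_exact_left hst hmap D hb hw hDw

theorem TB_PP_right (hst : StStokes) (hmap : StMap) {d : ℕ} (D : Dat Δ U e B h ε d) {i j : ℕ}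
    {w' w : Finset (Fin n) → Finset (Fin n) → S} (hc : TB Δ U e i w')
    (hw : w ∈ Tot Δ U e j) (hDw : DD K Δ w = 0) : PP ε h w w' = 0 := by
  obtain ⟨b, hb, rfl⟩ := hc
  cases i with
  | zero =>
    have : b = 0 := by simpa [TotP] using hb
    rw [this, map_zero, map_zero]
  | succ i => exact PP_exact_right hst hmap D hb hw hDw

/-- projections of exact elements are boundaries -/
theorem TB_Bd (hpr : StTotPr) {d : ℕ} (hS : Sph K Δ ε d) {j i : ℕ} (hji : j + i = d)
    {w : Finset (Fin n) → Finset (Fin n) → S} (hw : TB Δ U e j w) :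
    Bd Δ U e univ i (Pr ε w) := by
  obtain ⟨b, hb, rfl⟩ := hw
  obtain ⟨h1, h2, _⟩ := hpr n K S Δ U e ε d hS
  cases j with
  | zero =>
    have : b = 0 := by simpa [TotP] using hb
    rw [this, map_zero, map_zero]
    exact Bd_zero _ _
  | succ j =>
    have hb' : b ∈ Tot Δ U e j := hb
    refine ⟨(-1 : K) ^ j • Pr ε b, Submodule.smul_mem _ _ (h1 j (i + 1) (by omega) b hb'), ?_⟩
    rw [map_smul, h2 j b hb']

/-- closedness of the projection -/
theorem Pr_closed (hpr : StTotPr) {d : ℕ} (hS : Sph K Δ ε d) {j : ℕ}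
    {w : Finset (Fin n) → Finset (Fin n) → S} (hw : w ∈ Tot Δ U e j) (hD : DD K Δ w = 0) :
    bd K (Pr ε w) = 0 := by
  obtain ⟨_, h2, _⟩ := hpr n K S Δ U e ε d hS
  have h3 := h2 j w hw
  rw [hD, map_zero] at h3
  have h4 : ((-1 : K) ^ j) ≠ 0 := pow_ne_zero _ (by norm_num)
  exact (smul_eq_zero.1 h3.symm).resolve_left h4

/-- exactness of `Tot` from exactness of chains -/
theorem TEx_of_Ex (hpr : StTotPr) (hcol : StCol) {d : ℕ} (hS : Sph K Δ ε d) {j i : ℕ}
    (hji : j + i = d) (hEx : Ex Δ U e univ i) : TEx Δ U e j := by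
  intro w hw hD
  refine hcol n K S Δ U e ε d hS j i hji w hw hD ?_
  exact hEx _ ((hpr n K S Δ U e ε d hS).1 j i hji w hw) (Pr_closed hpr hS hw hD)

theorem TEx_large {j : ℕ} (hj : ∀ F ∈ Δ, F.card < j) : TEx Δ U e j := by
  intro w hw _
  rw [Tot_zero hj hw]
  exact TB_zero j

theorem Ex_large {A : Finset (Fin n)} {j : ℕ} (hj : ∀ F ∈ Δ, F.card < j) : Ex Δ U e A j := by
  intro x hx _
  rw [Ch_zero hj hx]
  exact Bd_zero A j

theorem eps_swap {u v : Fin n} (huv : u ≠ v) : eps (eps ε u) v = - eps (eps ε v) u := by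
  funext Φ
  simp only [eps, Pi.neg_apply]
  by_cases hv : v ∈ Φ
  · by_cases hu : u ∈ Φ
    · simp [hu, hv]
    · simp [hu, hv]
  · by_cases hu : u ∈ Φ
    · simp [hu, hv]
    · have h1 : u ∉ insert v Φ := by simp [hu, huv]
      have h2 : v ∉ insert u Φ := by simp [hv, huv.symm]
      rw [if_neg hv, if_neg h1, if_neg hu, if_neg h2, Finset.insert_comm]
      have := tau_swap K huv hu hv
      linear_combination (ε (insert v (insert u Φ))) * this

theorem eps_nonvertex {d : ℕ} (hS : Sph K Δ ε d) {u : Fin n}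
    (hu : ({u} : Finset (Fin n)) ∉ Δ) : eps ε u = 0 := by
  funext Φ
  simp only [eps, Pi.zero_apply]
  by_cases h : u ∈ Φ
  · simp [h]
  · rw [if_neg h, hS.off, mul_zero]
    rintro ⟨h1, _⟩
    exact hu (hS.down _ h1 _ (by simp))

theorem eps_zero (u : Fin n) : eps (0 : Finset (Fin n) → K) u = 0 := by
  funext Φ
  simp [eps]

theorem eps_self (u : Fin n) : eps (eps ε u) u = 0 := by
  funext Φ
  simp [eps]

theorem PP_zero_eps (w w' : Finset (Fin n) → Finset (Fin n) → S) :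
    PP (0 : Finset (Fin n) → K) h w w' = 0 := by
  rw [PP_apply]
  simp

theorem PP_neg_eps (ε : Finset (Fin n) → K) (w w' : Finset (Fin n) → Finset (Fin n) → S) :
    PP (-ε) h w w' = - PP ε h w w' := by
  rw [PP_apply, PP_apply, ← Finset.sum_neg_distrib]
  refine Finset.sum_congr rfl fun Φ _ => ?_
  rw [Pi.neg_apply, neg_mul]

theorem Pr_neg_eps (ε : Finset (Fin n) → K) (w : Finset (Fin n) → Finset (Fin n) → S) :
    Pr (-ε) w = - Pr ε w := by
  funext G
  rw [Pr_apply, Pi.neg_apply, Pr_apply, ← Finset.sum_neg_distrib]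
  refine Finset.sum_congr rfl fun Φ _ => ?_
  rw [Pi.neg_apply, mul_neg, neg_smul]

end Pool.Agent.H14.CL
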