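import Pool.Agent.H14.CL.MainA

/-!
Project CL: the main induction.
-/

set_option autoImplicit false

namespace Pool.Agent.H14.CL

open Finset

/-- all rows used in the main induction -/
structure AllSt : Prop where
  sphLk : StSphLk
  hu : StHu
  datLk : StDatLk
  posLk : StPosLk
  negLk : StNegLk
  up : StUp
  inj : StInj
  star : StStar
  liftOdd : StLiftOdd
  liftEven : StLiftEven
  totD : StTotD
  totPr : StTotPr
  col : StCol
  row : StRow
  stokes : StStokes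
  map : StMap
  i1 : StI1
  i2a : StI2a
  i2b : StI2b
  euler : StEuler
  oddZero : StOddZero
  rel : StRel

/-- the signs -/
def del : ℕ → ℝ
  | 0 => 1
  | m + 1 => (-1) ^ m * del m

theorem del_sq (m : ℕ) : del m * del m = 1 := by
  induction m with
  | zero => simp [del]
  | succ m ih =>
    rw [del]
    have := neg_one_sq_pow ℝ m
    linear_combination (del m * del m) * this + ih

theorem del_ne (m : ℕ) : del m ≠ 0 := by
  intro h
  have := del_sq m
  rw [h] at this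
  simp at this

variable {n : ℕ} {S : Type} [AddCommGroup S] [Module ℝ S]

/-- the claims of the induction -/
structure Out (Δ : Finset (Finset (Fin n))) (U : Submodule ℝ S) (e : Fin n → S →ₗ[ℝ] S)
    (h : S →ₗ[ℝ] S →ₗ[ℝ] ℝ) (ε : Finset (Fin n) → ℝ) (d : ℕ) : Prop where
  p : PEx Δ U e d
  a : ∀ j, 2 * j ≠ d → Ex Δ U e univ j
  t : ∀ j, 2 * j ≠ d → TEx Δ U e j
  q : ∀ m, d = 2 * m → ∀ w ∈ Tot Δ U e m, DD ℝ Δ w = 0 → ¬ TB Δ U e m w →
    0 < del m * PP ε h w w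
  inj : ∀ j, d ≤ 2 * j → ∀ A, ∀ x ∈ Ch Δ U e A j, bd ℝ x = 0 → Bd Δ U e univ j x →
    Bd Δ U e A j x

variable {Δ : Finset (Finset (Fin n))} {U : Submodule ℝ S} {e : Fin n → S →ₗ[ℝ] S}
  {B : Fin n → Fin n → ℝ} {h : S →ₗ[ℝ] S →ₗ[ℝ] ℝ} {ε : Finset (Fin n) → ℝ}

theorem PP_point {Δ : Finset (Finset (Fin n))} {ε : Finset (Fin n) → ℝ}
    (hS : Sph ℝ Δ ε 0) (w w' : Finset (Fin n) → Finset (Fin n) → S) :
    PP ε h w w' = ε ∅ * h (w ∅ ∅) (w' ∅ ∅) := by
  rw [PP_apply, Finset.sum_eq_single ∅]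
  · simp [hat_apply, sh_empty_left]
  · intro Φ _ hΦ
    rw [hS.off, zero_mul]
    rintro ⟨_, h2⟩
    exact hΦ (card_eq_zero.1 h2)
  · intro h; exact absurd (mem_univ _) h

theorem out_zero (D : Dat Δ U e B h ε 0) (hpos : Pos Δ U e h ε 0) : Out Δ U e h ε 0 := by
  have hc : ∀ F ∈ Δ, F.card = 0 := fun F hF => Nat.le_zero.1 (D.sph.card_le F hF)
  refine ⟨?_, ?_, ?_, ?_, ?_⟩
  · intro A j hj
    exact Ex_large fun F hF => by rw [hc F hF]; omega
  · intro j hj
    exact Ex_large fun F hF => by rw [hc F hF]; omega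
  · intro j hj
    exact TEx_large fun F hF => by rw [hc F hF]; omega
  · intro m hm w hw hD hn
    have hm0 : m = 0 := by omega
    subst hm0
    rw [PP_point D.sph, del, one_mul]
    have h1 : w ∅ ∅ ≠ 0 := by
      intro h0
      apply hn
      have : w = 0 := by
        funext N G
        by_cases hNG : N = ∅ ∧ G = ∅
        · rw [hNG.1, hNG.2, h0]; rfl
        · refine (hw N G).2 ?_
          rintro ⟨h1, h2, h3⟩
          have h4 : N ∪ G = ∅ := card_eq_zero.1 (hc _ h2)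
          rw [union_eq_empty] at h4
          exact hNG h4
      rw [this]
      exact TB_zero 0
    have h2 := hpos [] List.nodup_nil (by simpa using D.sph.empty) rfl (w ∅ ∅)
      (by have := (hw ∅ ∅).1; rw [KK_empty] at this; exact this) (by simpa [opL] using h1)
    simpa [sgL, opL] using h2
  · intro j _ A x hx _ hB
    obtain ⟨y, hy, rfl⟩ := hB
    have : y = 0 := Ch_zero (fun F hF => by rw [hc F hF]; omega) hy
    rw [this, map_zero]
    exact Bd_zero A j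

/-- everything about the link of a vertex -/
theorem link_out (H : AllSt) {d : ℕ}
    (ih : ∀ (Δ : Finset (Finset (Fin n))) (U : Submodule ℝ S) (h : S →ₗ[ℝ] S →ₗ[ℝ] ℝ)
      (ε : Finset (Fin n) → ℝ), Dat Δ U e B h ε d → Neg Δ B d → Pos Δ U e h ε d →
      Out Δ U e h ε d)
    (D : Dat Δ U e B h ε (d + 1)) (hneg : Neg Δ B (d + 1)) (hpos : Pos Δ U e h ε (d + 1))
    {u : Fin n} (hu : {u} ∈ Δ) {h' : S →ₗ[ℝ] S →ₗ[ℝ] ℝ} (hh : IsHu U e h u h') :
    Dat (lk Δ u) (KK U e {u}) e B h' (eps ε u) d ∧ Neg (lk Δ u) B d ∧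
    Pos (lk Δ u) (KK U e {u}) e h' (eps ε u) d ∧
    Out (lk Δ u) (KK U e {u}) e h' (eps ε u) d := by
  have h1 := H.datLk n ℝ S Δ U e B h ε d D u hu h' hh
  have h2 := H.negLk n ℝ Δ ε B d D.sph hneg u hu
  have h3 := H.posLk n S Δ U e B h ε d D hpos u hu h' hh
  exact ⟨h1, h2, h3, ih _ _ _ _ h1 h2 h3⟩

/-- injectivity in degrees at least the middle -/
theorem inj_of_links (H : AllSt) {d : ℕ} (hd : Down Δ)
    (hL : ∀ u, {u} ∈ Δ → PEx (lk Δ u) (KK U e {u}) e d) :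
    ∀ j, d + 1 ≤ 2 * j → ∀ A, ∀ x ∈ Ch Δ U e A j, bd ℝ x = 0 → Bd Δ U e univ j x →
    Bd Δ U e A j x := by
  intro j hj A x hx hx' hB
  exact H.inj n ℝ S Δ U e d hd hL j (by omega) A univ (subset_univ _) x hx hx' hB

/-- the core of the even step -/
theorem core_even [FiniteDimensional ℝ S] (H : AllSt) {k : ℕ}
    (ih : ∀ (Δ : Finset (Finset (Fin n))) (U : Submodule ℝ S) (h : S →ₗ[ℝ] S →ₗ[ℝ] ℝ)
      (ε : Finset (Fin n) → ℝ), Dat Δ U e B h ε (2 * k + 1) → Neg Δ B (2 * k + 1) →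
      Pos Δ U e h ε (2 * k + 1) → Out Δ U e h ε (2 * k + 1))
    (ih2 : ∀ (Δ : Finset (Finset (Fin n))) (U : Submodule ℝ S) (h : S →ₗ[ℝ] S →ₗ[ℝ] ℝ)
      (ε : Finset (Fin n) → ℝ), Dat Δ U e B h ε (2 * k) → Neg Δ B (2 * k) →
      Pos Δ U e h ε (2 * k) → Out Δ U e h ε (2 * k))
    (D : Dat Δ U e B h ε (2 * k + 2)) (hneg : Neg Δ B (2 * k + 2))
    (hpos : Pos Δ U e h ε (2 * k + 2)) {v : Fin n} (hv : {v} ∈ Δ)
    (hvB : ∀ u, {u} ∈ Δ → ({u, v} : Finset (Fin n)) ∉ Δ → B u v < 0)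
    {w : Finset (Fin n) → Finset (Fin n) → S} (hw : w ∈ Tot Δ U e (k + 1))
    (hD : DD ℝ Δ w = 0) {g : Fin n → Finset (Fin n) → Finset (Fin n) → S}
    (hg : ∀ u, g u ∈ Tot (lk Δ u) U e k)
    (hg' : ∀ u, {u} ∈ Δ → DD ℝ (lk Δ u) (vm (e u) (g u)) = sg ℝ u w) :
    0 ≤ del (k + 1) * PP ε h (EE Δ e B v w g) (EE Δ e B v w g) ∧
    (PP ε h (EE Δ e B v w g) (EE Δ e B v w g) = 0 → TB Δ U e (k + 1) w) := by
  have hdn : Down Δ := D.sph.dn
  -- forms of the links
  have hex : ∀ u, ∃ h', ({u} : Finset (Fin n)) ∈ Δ → IsHu U e h u h' := by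
    intro u
    by_cases hu : ({u} : Finset (Fin n)) ∈ Δ
    · obtain ⟨h', hh⟩ := H.hu n ℝ S Δ U e B h ε (2 * k + 1) D u hu
      exact ⟨h', fun _ => hh⟩
    · exact ⟨0, fun h => absurd h hu⟩
  choose hu hhu using hex
  have L1 : ∀ u (hu' : {u} ∈ Δ), _ := fun u hu' => link_out H ih D hneg hpos hu' (hhu u hu')
  have hex2 : ∀ u u', ∃ h', ({u} : Finset (Fin n)) ∈ Δ → {u'} ∈ lk Δ u →
      IsHu (KK U e {u}) e (hu u) u' h' := by
    intro u u'
    by_cases hu' : ({u} : Finset (Fin n)) ∈ Δ ∧ {u'} ∈ lk Δ u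
    · obtain ⟨h', hh⟩ := H.hu n ℝ S _ _ e B _ _ (2 * k) (L1 u hu'.1).1 u' hu'.2
      exact ⟨h', fun _ _ => hh⟩
    · exact ⟨0, fun h1 h2 => absurd ⟨h1, h2⟩ hu'⟩
  choose hJ hhJ using hex2
  have L2 : ∀ u u' (h1 : {u} ∈ Δ) (h2 : {u'} ∈ lk Δ u), _ := fun u u' h1 h2 =>
    link_out H ih2 (L1 u h1).1 (L1 u h1).2.1 (L1 u h1).2.2.1 h2 (hhJ u u' h1 h2)
  have hJ' : ∀ u u', {u} ∈ Δ → {u'} ∈ lk Δ u → ∀ x ∈ KK (KK U e {u}) e {u'}, ∀ t ∈ U,
      hJ u u' x (e u' (e u t)) = h x t := by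
    intro u u' h1 h2 x hx t ht
    have h3 : e u t ∈ KK U e {u} := by
      refine ⟨D.inv u h1 t ht, fun z hz => ?_⟩
      rw [mem_singleton.1 hz]
      exact D.sq u h1 t ht
    rw [hhJ u u' h1 h2 x hx (e u t) h3]
    exact hhu u h1 x hx.1 t ht
  -- the elements b and zeta
  set b : Fin n → Finset (Fin n) → Finset (Fin n) → S := fun u => vm (e u) (g u) with hb
  have hbv : ∀ u N G, b u N G = e u (g u N G) := fun _ _ _ => rfl
  have hbT : ∀ u, {u} ∈ Δ → b u ∈ Tot (lk Δ u) (KK U e {u}) e k := by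
    intro u hu' N G
    have h1 := hg u N G
    refine ⟨?_, fun h2 => ?_⟩
    · rw [KK_single_KK]
      by_cases h2 : Disjoint N G ∧ N ∪ G ∈ lk Δ u ∧ N.card = k
      · have hGu : insert u G ∈ Δ := by
          have := (mem_lk.1 h2.2.1).2.2
          exact hdn _ this _ (insert_subset_insert u subset_union_right)
        refine ⟨D.inv u hu' _ h1.1.1, fun z hz => ?_⟩
        rw [hbv]
        rcases mem_insert.1 hz with rfl | hz
        · exact D.sq z hu' _ h1.1.1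
        · have hzΔ : ({z} : Finset (Fin n)) ∈ Δ := hdn _ hGu _ (by simp [hz])
          have hr := D.rel z u hzΔ hu' _ h1.1.1
          have hB : B z u = 0 := D.bz z u (hdn _ hGu _ (by
            intro y hy
            rcases mem_insert.1 hy with rfl | hy
            · exact mem_insert_of_mem hz
            · rw [mem_singleton.1 hy]; exact mem_insert_self _ _))
          rw [hB, zero_smul, h1.1.2 z hz, map_zero, add_zero] at hr
          exact hr
      · have : b u N G = 0 := by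
          rw [hbv, h1.2 h2, map_zero]
        rw [this]; exact Submodule.zero_mem _
    · rw [hbv, h1.2 h2, map_zero]
  have hTD := H.totD n ℝ S Δ U e hdn
  have hsgc : ∀ u u', {u} ∈ Δ → {u'} ∈ lk Δ u → DD ℝ (lk (lk Δ u) u')
      (sg ℝ u' (b u) - sg ℝ u (b u')) = 0 := by
    intro u u' h1 h2
    have h3 : {u'} ∈ Δ := lk_sub h2
    have e1 := (H.totD n ℝ S (lk Δ u) U e (down_lk hdn u)).2.2.1 u' (b u)
    have e2 := (H.totD n ℝ S (lk Δ u') U e (down_lk hdn u')).2.2.1 u (b u')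
    rw [map_sub, e1, lk_comm Δ hdn u u', e2, hg' u h1, hg' u' h3, sub_eq_zero]
    funext N G
    simp only [sg_apply, mem_insert]
    have hne : u' ≠ u := ((lk_vertex hdn).1 h2).1.symm
    by_cases q1 : u ∈ G
    · by_cases q2 : u' ∈ G
      · simp [q1, q2]
      · simp [q1, q2]
    · by_cases q2 : u' ∈ G
      · simp [q1, q2]
      · simp [q1, q2, hne, hne.symm, Finset.insert_comm]
  have hzT : ∀ u u', {u} ∈ Δ → {u'} ∈ lk Δ u →
      sg ℝ u' (b u) - sg ℝ u (b u') ∈ Tot (lk (lk Δ u) u') (KK (KK U e {u}) e {u'}) e k := by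
    intro u u' h1 h2
    have h3 : {u'} ∈ Δ := lk_sub h2
    refine Submodule.sub_mem _ ?_ ?_
    · exact (H.totD n ℝ S (lk Δ u) (KK U e {u}) e (down_lk hdn u)).2.2.2 u' k _ (hbT u h1)
    · have := (H.totD n ℝ S (lk Δ u') (KK U e {u'}) e (down_lk hdn u')).2.2.2 u k _ (hbT u' h3)
      rw [lk_comm Δ hdn u u', KK_comm]
      exact this
  have hval := H.i2b n ℝ S Δ U e B h ε k D (by norm_num) hJ hJ' v hv w hw hD g hg hg'
  have hBle : ∀ u, {u} ∈ Δ → B u v ≤ 0 := by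
    intro u hu'
    by_cases hf : ({u, v} : Finset (Fin n)) ∈ Δ
    · rw [D.bz u v hf]
    · exact (hvB u hu' hf).le
  -- all terms have the same sign
  have hterm : ∀ u u', 0 ≤ del k * (B u v * B u' v * PP (eps (eps ε u) u') (hJ u u')
        (sg ℝ u' (b u) - sg ℝ u (b u')) (sg ℝ u' (b u) - sg ℝ u (b u'))) := by
    intro u u'
    by_cases h1 : ({u} : Finset (Fin n)) ∈ Δ
    · by_cases h2 : {u'} ∈ lk Δ u
      · have h3 : {u'} ∈ Δ := lk_sub h2
        have h4 : 0 ≤ B u v * B u' v := mul_nonneg_of_nonpos_of_nonpos (hBle u h1) (hBle u' h3)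
        have h5 : 0 ≤ del k * PP (eps (eps ε u) u') (hJ u u')
            (sg ℝ u' (b u) - sg ℝ u (b u')) (sg ℝ u' (b u) - sg ℝ u (b u')) := by
          by_cases h6 : TB (lk (lk Δ u) u') (KK (KK U e {u}) e {u'}) e k
              (sg ℝ u' (b u) - sg ℝ u (b u'))
          · rw [TB_PP_left H.stokes H.map (L2 u u' h1 h2).1 h6 (hzT u u' h1 h2)
              (hsgc u u' h1 h2), mul_zero]
          · exact ((L2 u u' h1 h2).2.2.2.q k rfl _ (hzT u u' h1 h2) (hsgc u u' h1 h2) h6).le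
        calc 0 ≤ (B u v * B u' v) * (del k * PP (eps (eps ε u) u') (hJ u u')
            (sg ℝ u' (b u) - sg ℝ u (b u')) (sg ℝ u' (b u) - sg ℝ u (b u'))) :=
              mul_nonneg h4 h5
          _ = _ := by ring
      · have : eps (eps ε u) u' = 0 :=
          eps_nonvertex (H.sphLk n ℝ Δ ε (2 * k + 1) D.sph u h1) h2
        rw [this, PP_zero_eps, mul_zero, mul_zero]
    · rw [eps_nonvertex D.sph h1, eps_zero, PP_zero_eps, mul_zero, mul_zero]
  have hsum : del (k + 1) * PP ε h (EE Δ e B v w g) (EE Δ e B v w g) =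
      2 * ∑ u, ∑ u', del k * (B u v * B u' v * PP (eps (eps ε u) u') (hJ u u')
        (sg ℝ u' (b u) - sg ℝ u (b u')) (sg ℝ u' (b u) - sg ℝ u (b u'))) := by
    rw [hval, del]
    simp only [← Finset.mul_sum]
    have := neg_one_sq_pow ℝ k
    linear_combination (2 * del k * ∑ u, ∑ u', B u v * B u' v *
      PP (eps (eps ε u) u') (hJ u u')
        (sg ℝ u' (b u) - sg ℝ u (b u')) (sg ℝ u' (b u) - sg ℝ u (b u'))) * this
  refine ⟨?_, fun h0 => ?_⟩
  · rw [hsum]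
    exact mul_nonneg (by norm_num)
      (Finset.sum_nonneg fun u _ => Finset.sum_nonneg fun u' _ => hterm u u')
  · rw [h0, mul_zero] at hsum
    have hs0 : ∑ u, ∑ u', del k * (B u v * B u' v * PP (eps (eps ε u) u') (hJ u u')
        (sg ℝ u' (b u) - sg ℝ u (b u')) (sg ℝ u' (b u) - sg ℝ u (b u'))) = 0 := by
      linarith
    have hz : ∀ u u', del k * (B u v * B u' v * PP (eps (eps ε u) u') (hJ u u')
        (sg ℝ u' (b u) - sg ℝ u (b u')) (sg ℝ u' (b u) - sg ℝ u (b u'))) = 0 := by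
      intro u u'
      have h1 := (Finset.sum_eq_zero_iff_of_nonneg
        (fun u _ => Finset.sum_nonneg fun u' _ => hterm u u')).1 hs0 u (mem_univ _)
      exact (Finset.sum_eq_zero_iff_of_nonneg (fun u' _ => hterm u u')).1 h1 u' (mem_univ _)
    have hTB : ∀ u u', {u} ∈ Δ → ({u, v} : Finset (Fin n)) ∉ Δ → {u'} ∈ lk Δ u →
        ({u', v} : Finset (Fin n)) ∉ Δ →
        TB (lk (lk Δ u) u') (KK (KK U e {u}) e {u'}) e k
          (sg ℝ u' (b u) - sg ℝ u (b u')) := by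
      intro u u' h1 h1' h2 h2'
      by_contra h6
      have h7 := (L2 u u' h1 h2).2.2.2.q k rfl _ (hzT u u' h1 h2) (hsgc u u' h1 h2) h6
      have h3 : {u'} ∈ Δ := lk_sub h2
      have h8 : 0 < B u v * B u' v := mul_pos_of_neg_of_neg (hvB u h1 h1') (hvB u' h3 h2')
      have h9 := mul_pos h8 h7
      have h10 := hz u u'
      have h11 : (B u v * B u' v) * (del k * PP (eps (eps ε u) u') (hJ u u')
            (sg ℝ u' (b u) - sg ℝ u (b u')) (sg ℝ u' (b u) - sg ℝ u (b u'))) = 0 := by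
        rw [← h10]; ring
      linarith
    have hPr := H.totPr n ℝ S Δ U e ε (2 * k + 2) D.sph
    refine H.col n ℝ S Δ U e ε (2 * k + 2) D.sph (k + 1) (k + 1) (by omega) w hw hD ?_
    refine H.liftEven n ℝ S Δ U e v k hdn hv (Pr ε w)
      (hPr.1 (k + 1) (k + 1) (by omega) w hw) (Pr_closed H.totPr D.sph hw hD)
      (fun u => Pr (eps ε u) (b u)) ?_ ?_ ?_ ?_
    · intro u h1 _
      have hS1 := (L1 u h1).1.sph
      have hPu := H.totPr n ℝ S (lk Δ u) (KK U e {u}) e (eps ε u) (2 * k + 1) hS1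
      refine ⟨hPu.1 k (k + 1) (by omega) _ (hbT u h1), ?_⟩
      have e1 := hPu.2.1 k _ (hbT u h1)
      have e2 := hPr.2.2 u (k + 1) w hw
      rw [hg' u h1, e2] at e1
      have e3 : (-1 : ℝ) ^ k ≠ 0 := pow_ne_zero _ (by norm_num)
      have e4 : (-1 : ℝ) ^ k • (bd ℝ (Pr (eps ε u) (b u)) + res ℝ u (Pr ε w)) = 0 := by
        rw [smul_add, ← e1, pow_succ, mul_smul, ← smul_add]
        simp
      have e5 := (smul_eq_zero.1 e4).resolve_left e3
      exact eq_neg_of_add_eq_zero_left e5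
    · intro u u' h1 h1' h2 h2'
      have h3 : {u'} ∈ Δ := lk_sub h2
      have h3' : {u} ∈ lk Δ u' := by
        rw [lk_vertex hdn] at h2 ⊢
        refine ⟨h2.1.symm, ?_⟩
        rw [pair_comm]; exact h2.2
      have hne : u ≠ u' := ((lk_vertex hdn).1 h2).1
      have hS1 := (L1 u h1).1.sph
      have hS1' := (L1 u' h3).1.sph
      have hPu := H.totPr n ℝ S (lk Δ u) (KK U e {u}) e (eps ε u) (2 * k + 1) hS1
      have hPu' := H.totPr n ℝ S (lk Δ u') (KK U e {u'}) e (eps ε u') (2 * k + 1) hS1'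
      have e1 := hPu.2.2 u' k _ (hbT u h1)
      have e2 := hPu'.2.2 u k _ (hbT u' h3)
      have e3 : eps (eps ε u') u = - eps (eps ε u) u' := eps_swap hne.symm
      rw [e3, Pr_neg_eps] at e2
      have e4 := TB_Bd H.totPr (L2 u u' h1 h2).1.sph (j := k) (i := k) (by omega)
        (hTB u u' h1 h1' h2 h2')
      rw [map_sub, e1] at e4
      have e5 : -Pr (eps (eps ε u) u') (sg ℝ u (b u')) =
        (-1 : ℝ) ^ k • res ℝ u (Pr (eps ε u') (b u')) := e2
      rw [sub_eq_add_neg, e5, ← smul_add] at e4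
      obtain ⟨y, hy, hy'⟩ := e4
      refine ⟨(-1 : ℝ) ^ k • y, Submodule.smul_mem _ _ hy, ?_⟩
      rw [map_smul, hy', smul_smul, neg_one_sq_pow, one_smul]
    · intro u u' h1 h2 A z hz hz' hB
      exact (L2 u u' h1 h2).2.2.2.inj k le_rfl A z hz hz' hB
    · refine H.star n ℝ S Δ U e B h ε (2 * k + 2) D v hv (k + 1) ?_
      exact (L1 v hv).2.2.2.a (k + 1) (by omega)

end Pool.Agent.H14.CL
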