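import Pool.Agent.H14.CL.MainB

/-!
Project CL: the main induction, conclusion.
-/

set_option autoImplicit false

namespace Pool.Agent.H14.CL

open Finset

variable {n : ℕ} {S : Type} [AddCommGroup S] [Module ℝ S]
  {Δ : Finset (Finset (Fin n))} {U : Submodule ℝ S} {e : Fin n → S →ₗ[ℝ] S}
  {B : Fin n → Fin n → ℝ} {h : S →ₗ[ℝ] S →ₗ[ℝ] ℝ} {ε : Finset (Fin n) → ℝ}

/-- cocycles of `Tot` -/
noncomputable def ZZ (Δ : Finset (Finset (Fin n))) (U : Submodule ℝ S) (e : Fin n → S →ₗ[ℝ] S) (j : ℕ) :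
    Submodule ℝ (Finset (Fin n) → Finset (Fin n) → S) :=
  Tot Δ U e j ⊓ LinearMap.ker (DD ℝ Δ)

theorem mem_ZZ {j : ℕ} {w : Finset (Fin n) → Finset (Fin n) → S} :
    w ∈ ZZ Δ U e j ↔ w ∈ Tot Δ U e j ∧ DD ℝ Δ w = 0 := by
  rw [ZZ, Submodule.mem_inf, LinearMap.mem_ker]

/-- coboundaries of degree `j + 1` -/
noncomputable def BB (Δ : Finset (Finset (Fin n))) (U : Submodule ℝ S) (e : Fin n → S →ₗ[ℝ] S) (j : ℕ) :
    Submodule ℝ (Finset (Fin n) → Finset (Fin n) → S) :=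
  (Tot Δ U e j).map (DD ℝ Δ)

theorem mem_BB {j : ℕ} {w : Finset (Fin n) → Finset (Fin n) → S} :
    w ∈ BB Δ U e j ↔ TB Δ U e (j + 1) w := by
  rw [BB, Submodule.mem_map]
  rfl

/-- the relation of the even step -/
def RR (Δ : Finset (Finset (Fin n))) (U : Submodule ℝ S) (e : Fin n → S →ₗ[ℝ] S)
    (B : Fin n → Fin n → ℝ) (v : Fin n) (k : ℕ) :
    Submodule ℝ ((Finset (Fin n) → Finset (Fin n) → S) ×
      (Finset (Fin n) → Finset (Fin n) → S)) where
  carrier := {p | p.1 ∈ ZZ Δ U e (k + 1) ∧ ∃ g : Fin n → Finset (Fin n) → Finset (Fin n) → S,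
    (∀ u, g u ∈ Tot (lk Δ u) U e k) ∧
    (∀ u, {u} ∈ Δ → DD ℝ (lk Δ u) (vm (e u) (g u)) = sg ℝ u p.1) ∧
    p.2 = EE Δ e B v p.1 g}
  add_mem' := by
    rintro ⟨w, E⟩ ⟨w', E'⟩ ⟨h1, g, h2, h3, h4⟩ ⟨h1', g', h2', h3', h4'⟩
    refine ⟨Submodule.add_mem _ h1 h1', fun u => g u + g' u,
      fun u => Submodule.add_mem _ (h2 u) (h2' u), fun u hu => ?_, ?_⟩
    · have e1 : sg ℝ u (w + w') = sg ℝ u w + sg ℝ u w' := map_add _ _ _
      change _ = sg ℝ u (w + w')
      rw [map_add, map_add, h3 u hu, h3' u hu, e1]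
    · change E + E' = EE Δ e B v (w + w') _
      have h4a : E = EE Δ e B v w g := h4
      have h4b : E' = EE Δ e B v w' g' := h4'
      rw [h4a, h4b]
      simp only [EE, map_add, smul_add, Finset.sum_add_distrib]
      abel
  zero_mem' := by
    refine ⟨Submodule.zero_mem _, fun _ => 0, fun u => Submodule.zero_mem _, fun u _ => ?_, ?_⟩
    · change _ = sg ℝ u 0
      rw [map_zero, map_zero, map_zero]
    · change 0 = EE Δ e B v 0 _
      simp [EE]
  smul_mem' := by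
    rintro c ⟨w, E⟩ ⟨h1, g, h2, h3, h4⟩
    refine ⟨Submodule.smul_mem _ _ h1, fun u => c • g u,
      fun u => Submodule.smul_mem _ _ (h2 u), fun u hu => ?_, ?_⟩
    · change _ = sg ℝ u (c • w)
      rw [map_smul, map_smul, h3 u hu, map_smul]
    · change c • E = EE Δ e B v (c • w) _
      have h4a : E = EE Δ e B v w g := h4
      rw [h4a]
      simp only [EE, map_smul, smul_sub, Finset.smul_sum, smul_comm c]

theorem mem_RR {v : Fin n} {k : ℕ} {p : (Finset (Fin n) → Finset (Fin n) → S) ×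
      (Finset (Fin n) → Finset (Fin n) → S)} : p ∈ RR Δ U e B v k ↔
    p.1 ∈ ZZ Δ U e (k + 1) ∧ ∃ g : Fin n → Finset (Fin n) → Finset (Fin n) → S,
    (∀ u, g u ∈ Tot (lk Δ u) U e k) ∧
    (∀ u, {u} ∈ Δ → DD ℝ (lk Δ u) (vm (e u) (g u)) = sg ℝ u p.1) ∧
    p.2 = EE Δ e B v p.1 g := Iff.rfl

/-- lifting values through `e u` -/
theorem lift_values {d k : ℕ} (D : Dat Δ U e B h ε d) {u : Fin n}
    {b : Finset (Fin n) → Finset (Fin n) → S} (hb : b ∈ Tot (lk Δ u) (KK U e {u}) e k) :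
    ∃ g ∈ Tot (lk Δ u) U e k, vm (e u) g = b := by
  have hdn : Down Δ := D.sph.dn
  have hex : ∀ N G, ∃ y ∈ KK U e G, e u y = b N G ∧
      (¬ (Disjoint N G ∧ N ∪ G ∈ lk Δ u ∧ N.card = k) → y = 0) := by
    intro N G
    by_cases h1 : Disjoint N G ∧ N ∪ G ∈ lk Δ u ∧ N.card = k
    · have h2 := (hb N G).1
      rw [KK_single_KK] at h2
      have h3 := (mem_lk.1 h1.2.1).2
      have h4 : u ∉ G := fun hG => h3.1 (mem_union_right _ hG)
      have h5 : insert u G ∈ Δ := hdn _ h3.2 _ (insert_subset_insert u subset_union_right)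
      obtain ⟨y, hy, hy'⟩ := D.kos G (hdn _ h5 _ (subset_insert _ _)) u h4 h5 (b N G)
        (KK_anti U e (subset_insert _ _) h2) (h2.2 u (mem_insert_self _ _))
      exact ⟨y, hy, hy', fun h => absurd h1 h⟩
    · exact ⟨0, Submodule.zero_mem _, by rw [map_zero, (hb N G).2 h1], fun _ => rfl⟩
  choose g hg1 hg2 hg3 using hex
  refine ⟨g, fun N G => ⟨hg1 N G, hg3 N G⟩, ?_⟩
  funext N G
  exact hg2 N G

/-- the even step -/
theorem even_q [FiniteDimensional ℝ S] (H : AllSt) {k : ℕ}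
    (ih : ∀ (Δ : Finset (Finset (Fin n))) (U : Submodule ℝ S) (h : S →ₗ[ℝ] S →ₗ[ℝ] ℝ)
      (ε : Finset (Fin n) → ℝ), Dat Δ U e B h ε (2 * k + 1) → Neg Δ B (2 * k + 1) →
      Pos Δ U e h ε (2 * k + 1) → Out Δ U e h ε (2 * k + 1))
    (ih2 : ∀ (Δ : Finset (Finset (Fin n))) (U : Submodule ℝ S) (h : S →ₗ[ℝ] S →ₗ[ℝ] ℝ)
      (ε : Finset (Fin n) → ℝ), Dat Δ U e B h ε (2 * k) → Neg Δ B (2 * k) →
      Pos Δ U e h ε (2 * k) → Out Δ U e h ε (2 * k))
    (D : Dat Δ U e B h ε (2 * k + 2)) (hneg : Neg Δ B (2 * k + 2))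
    (hpos : Pos Δ U e h ε (2 * k + 2))
    {w : Finset (Fin n) → Finset (Fin n) → S} (hw : w ∈ Tot Δ U e (k + 1))
    (hD : DD ℝ Δ w = 0) (hn : ¬ TB Δ U e (k + 1) w) : 0 < del (k + 1) * PP ε h w w := by
  have hdn : Down Δ := D.sph.dn
  obtain ⟨v, _, hv, hvB⟩ := hneg ∅ D.sph.empty (by rw [card_empty]; omega)
  have hv' : ({v} : Finset (Fin n)) ∈ Δ := by simpa using hv
  have hvB' : ∀ u, {u} ∈ Δ → ({u, v} : Finset (Fin n)) ∉ Δ → B u v < 0 := by
    intro u hu hf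
    exact hvB u (by simp) (by simpa using hu) hf
  have hTD := H.totD n ℝ S Δ U e hdn
  have hBZ : BB Δ U e k ≤ ZZ Δ U e (k + 1) := by
    intro x hx
    obtain ⟨b, hb, rfl⟩ := Submodule.mem_map.1 hx
    exact mem_ZZ.2 ⟨hTD.2.1 k b hb, hTD.1 b⟩
  have hcore : ∀ p ∈ RR Δ U e B v k, 0 ≤ del (k + 1) * PP ε h p.2 p.2 ∧
      (PP ε h p.2 p.2 = 0 → p.1 ∈ BB Δ U e k) := by
    intro p hp
    obtain ⟨h1, g, h2, h3, h4⟩ := mem_RR.1 hp
    rw [mem_ZZ] at h1
    have := core_even H ih ih2 D hneg hpos hv' hvB' h1.1 h1.2 h2 h3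
    rw [h4, mem_BB]
    exact this
  have hRZ : ∀ p ∈ RR Δ U e B v k, p.1 ∈ ZZ Δ U e (k + 1) ∧ p.2 ∈ ZZ Δ U e (k + 1) := by
    intro p hp
    obtain ⟨h1, g, h2, h3, h4⟩ := mem_RR.1 hp
    refine ⟨h1, ?_⟩
    rw [mem_ZZ] at h1
    rw [h4, mem_ZZ]
    exact H.i2a n ℝ S Δ U e B h ε (2 * k + 2) k D v hv' p.1 h1.1 h1.2 g h2 h3
  have hRex : ∀ w ∈ ZZ Δ U e (k + 1), ∃ E, (w, E) ∈ RR Δ U e B v k := by
    intro w hw
    have hex : ∀ u, ∃ g ∈ Tot (lk Δ u) U e k, {u} ∈ Δ →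
        DD ℝ (lk Δ u) (vm (e u) g) = sg ℝ u w := by
      intro u
      by_cases hu : ({u} : Finset (Fin n)) ∈ Δ
      · obtain ⟨h', hh⟩ := H.hu n ℝ S Δ U e B h ε (2 * k + 1) D u hu
        have L := link_out H ih D hneg hpos hu hh
        rw [mem_ZZ] at hw
        have h1 : sg ℝ u w ∈ Tot (lk Δ u) (KK U e {u}) e (k + 1) := hTD.2.2.2 u (k + 1) w hw.1
        have h2 : DD ℝ (lk Δ u) (sg ℝ u w) = 0 := by
          rw [hTD.2.2.1 u w, hw.2, map_zero]
        obtain ⟨b, hb, hb'⟩ := L.2.2.2.t (k + 1) (by omega) _ h1 h2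
        obtain ⟨g, hg, hg'⟩ := lift_values D (u := u) (k := k) (b := b) hb
        exact ⟨g, hg, fun _ => by rw [hg', hb']⟩
      · exact ⟨0, Submodule.zero_mem _, fun h => absurd h hu⟩
    choose g hg1 hg2 using hex
    exact ⟨EE Δ e B v w g, mem_RR.2 ⟨hw, g, hg1, hg2, rfl⟩⟩
  have hRB : ∀ p ∈ RR Δ U e B v k, p.2 ∈ BB Δ U e k → p.1 ∈ BB Δ U e k := by
    intro p hp h2
    refine (hcore p hp).2 ?_
    have h3 := mem_ZZ.1 (hRZ p hp).2
    exact TB_PP_left H.stokes H.map D (mem_BB.1 h2) h3.1 h3.2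
  obtain ⟨r1, r2⟩ := H.rel ℝ _ (ZZ Δ U e (k + 1)) (BB Δ U e k) (RR Δ U e B v k) hBZ hRZ hRex hRB
  obtain ⟨p, hp, hp'⟩ := r1 w (mem_ZZ.2 ⟨hw, hD⟩)
  have hwB : w ∉ BB Δ U e k := fun h => hn (mem_BB.1 h)
  have hE : p.2 ∉ BB Δ U e k := by
    intro h
    apply hwB
    have := Submodule.add_mem _ hp' h
    simpa using this
  have hp1 : p.1 ∉ BB Δ U e k := fun h => hE (r2 p hp h)
  have hne : PP ε h p.2 p.2 ≠ 0 := fun h => hp1 ((hcore p hp).2 h)
  have hEz := mem_ZZ.1 (hRZ p hp).2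
  have hTB : TB Δ U e (k + 1) (w - p.2) := mem_BB.1 hp'
  have hcz : w - p.2 ∈ ZZ Δ U e (k + 1) := hBZ hp'
  have hcz' := mem_ZZ.1 hcz
  have hww : PP ε h w w = PP ε h p.2 p.2 := by
    have e1 : w = p.2 + (w - p.2) := by abel
    calc PP ε h w w = PP ε h (p.2 + (w - p.2)) (p.2 + (w - p.2)) := by rw [← e1]
      _ = PP ε h p.2 p.2 + PP ε h p.2 (w - p.2) + (PP ε h (w - p.2) p.2 +
          PP ε h (w - p.2) (w - p.2)) := by
        simp only [map_add, LinearMap.add_apply]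
        ring
      _ = PP ε h p.2 p.2 := by
        rw [TB_PP_right H.stokes H.map D hTB hEz.1 hEz.2,
          TB_PP_left H.stokes H.map D hTB hEz.1 hEz.2,
          TB_PP_left H.stokes H.map D hTB hcz'.1 hcz'.2]
        ring
  rw [hww]
  exact lt_of_le_of_ne (hcore p hp).1 (Ne.symm (mul_ne_zero (del_ne _) hne))

/-- the odd step -/
theorem odd_t (H : AllSt) {m : ℕ}
    (ih : ∀ (Δ : Finset (Finset (Fin n))) (U : Submodule ℝ S) (h : S →ₗ[ℝ] S →ₗ[ℝ] ℝ)
      (ε : Finset (Fin n) → ℝ), Dat Δ U e B h ε (2 * m) → Neg Δ B (2 * m) →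
      Pos Δ U e h ε (2 * m) → Out Δ U e h ε (2 * m))
    (D : Dat Δ U e B h ε (2 * m + 1)) (hneg : Neg Δ B (2 * m + 1))
    (hpos : Pos Δ U e h ε (2 * m + 1)) : TEx Δ U e m := by
  intro w hw hD
  have hdn : Down Δ := D.sph.dn
  obtain ⟨v, _, hv, hvB⟩ := hneg ∅ D.sph.empty (by rw [card_empty]; omega)
  have hv' : ({v} : Finset (Fin n)) ∈ Δ := by simpa using hv
  have hvB' : ∀ u, {u} ∈ Δ → ({u, v} : Finset (Fin n)) ∉ Δ → B u v < 0 := by
    intro u hu hf
    exact hvB u (by simp) (by simpa using hu) hf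
  have hTD := H.totD n ℝ S Δ U e hdn
  have hex : ∀ u, ∃ h', ({u} : Finset (Fin n)) ∈ Δ → IsHu U e h u h' := by
    intro u
    by_cases hu : ({u} : Finset (Fin n)) ∈ Δ
    · obtain ⟨h', hh⟩ := H.hu n ℝ S Δ U e B h ε (2 * m) D u hu
      exact ⟨h', fun _ => hh⟩
    · exact ⟨0, fun h => absurd h hu⟩
  choose hu hhu using hex
  have L1 : ∀ u (hu' : {u} ∈ Δ), _ := fun u hu' => link_out H ih D hneg hpos hu' (hhu u hu')
  have hsT : ∀ u, sg ℝ u w ∈ Tot (lk Δ u) (KK U e {u}) e m := fun u => hTD.2.2.2 u m w hw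
  have hsc : ∀ u, DD ℝ (lk Δ u) (sg ℝ u w) = 0 := by
    intro u
    rw [hTD.2.2.1 u w, hD, map_zero]
  have hI := H.i1 n ℝ S Δ U e B h ε m D (by norm_num) hu hhu v hv' w hw hD
  have hterm : ∀ u, B u v * (del m * PP (eps ε u) (hu u) (sg ℝ u w) (sg ℝ u w)) ≤ 0 := by
    intro u
    by_cases h1 : ({u} : Finset (Fin n)) ∈ Δ
    · have h2 : 0 ≤ del m * PP (eps ε u) (hu u) (sg ℝ u w) (sg ℝ u w) := by
        by_cases h3 : TB (lk Δ u) (KK U e {u}) e m (sg ℝ u w)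
        · rw [TB_PP_left H.stokes H.map (L1 u h1).1 h3 (hsT u) (hsc u), mul_zero]
        · exact ((L1 u h1).2.2.2.q m rfl _ (hsT u) (hsc u) h3).le
      have h4 : B u v ≤ 0 := by
        by_cases hf : ({u, v} : Finset (Fin n)) ∈ Δ
        · rw [D.bz u v hf]
        · exact (hvB' u h1 hf).le
      exact mul_nonpos_of_nonpos_of_nonneg h4 h2
    · rw [eps_nonvertex D.sph h1, PP_zero_eps, mul_zero, mul_zero]
  have hs0 : ∑ u, B u v * (del m * PP (eps ε u) (hu u) (sg ℝ u w) (sg ℝ u w)) = 0 := by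
    have : ∑ u, B u v * (del m * PP (eps ε u) (hu u) (sg ℝ u w) (sg ℝ u w)) =
        del m * ∑ u, B u v * PP (eps ε u) (hu u) (sg ℝ u w) (sg ℝ u w) := by
      rw [Finset.mul_sum]
      refine Finset.sum_congr rfl fun u _ => ?_
      ring
    rw [this, hI, mul_zero]
  have hTB : ∀ u, {u} ∈ Δ → ({u, v} : Finset (Fin n)) ∉ Δ →
      TB (lk Δ u) (KK U e {u}) e m (sg ℝ u w) := by
    intro u h1 hf
    by_contra h3
    have h4 := (L1 u h1).2.2.2.q m rfl _ (hsT u) (hsc u) h3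
    have h5 := (Finset.sum_eq_zero_iff_of_nonpos (fun u _ => hterm u)).1 hs0 u (mem_univ _)
    have h6 := mul_neg_of_neg_of_pos (hvB' u h1 hf) h4
    linarith
  have hPr := H.totPr n ℝ S Δ U e ε (2 * m + 1) D.sph
  refine H.col n ℝ S Δ U e ε (2 * m + 1) D.sph m (m + 1) (by omega) w hw hD ?_
  refine H.liftOdd n ℝ S Δ U e v m hdn hv' (Pr ε w) (hPr.1 m (m + 1) (by omega) w hw)
    (Pr_closed H.totPr D.sph hw hD) ?_ ?_ ?_
  · intro u h1 hf
    have e1 := TB_Bd H.totPr (L1 u h1).1.sph (j := m) (i := m) (by omega) (hTB u h1 hf)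
    rw [hPr.2.2 u m w hw] at e1
    obtain ⟨y, hy, hy'⟩ := e1
    refine ⟨(-1 : ℝ) ^ m • y, Submodule.smul_mem _ _ hy, ?_⟩
    rw [map_smul, hy', smul_smul, neg_one_sq_pow, one_smul]
  · intro u h1 A z hz hz' hB
    exact (L1 u h1).2.2.2.inj m le_rfl A z hz hz' hB
  · refine H.star n ℝ S Δ U e B h ε (2 * m + 1) D v hv' (m + 1) ?_
    exact (L1 v hv').2.2.2.a (m + 1) (by omega)

/-- the main induction -/
theorem main_ind [FiniteDimensional ℝ S] (H : AllSt) (d : ℕ) :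
    ∀ (Δ : Finset (Finset (Fin n))) (U : Submodule ℝ S) (h : S →ₗ[ℝ] S →ₗ[ℝ] ℝ)
      (ε : Finset (Fin n) → ℝ), Dat Δ U e B h ε d → Neg Δ B d → Pos Δ U e h ε d →
      Out Δ U e h ε d := by
  induction d using Nat.strong_induction_on with
  | _ d ihs =>
  intro Δ U h ε D hneg hpos
  cases d with
  | zero => exact out_zero D hpos
  | succ d =>
    have ih := ihs d (by omega)
    have hdn : Down Δ := D.sph.dn
    have hL : ∀ u, {u} ∈ Δ → PEx (lk Δ u) (KK U e {u}) e d := by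
      intro u hu
      obtain ⟨h', hh⟩ := H.hu n ℝ S Δ U e B h ε d D u hu
      exact (link_out H ih D hneg hpos hu hh).2.2.2.p
    have hup := H.up n ℝ S Δ U e d hdn hL
    have hinj := inj_of_links H hdn hL
    have hbig : ∀ j, d + 1 < j → ∀ F ∈ Δ, F.card < j := fun j hj F hF => by
      have := D.sph.card_le F hF; omega
    rcases Nat.even_or_odd' d with ⟨m, hm | hm⟩
    · -- d = 2m: type 2m+1
      subst hm
      have ht : TEx Δ U e m := odd_t H ih D hneg hpos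
      have ha1 : ∀ j, j ≠ m + 1 → Ex Δ U e univ j := by
        intro j hj
        rcases lt_or_gt_of_ne hj with hj | hj
        · refine H.row n ℝ S Δ U e B h ε (2 * m + 1) D j ?_
          by_cases hjm : j = m
          · rw [hjm]; exact ht
          · have hi : Ex Δ U e univ (2 * m + 1 - j) := hup univ _ (by omega)
            exact TEx_of_Ex H.totPr H.col D.sph (by omega) hi
        · exact hup univ j (by omega)
      have ha : ∀ j, Ex Δ U e univ j := by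
        intro j
        by_cases hj : j = m + 1
        · obtain ⟨c, hc1, hc2⟩ := H.euler n ℝ S Δ U e B h ε (2 * m + 1) D (m + 1) ha1
          rw [H.oddZero n ℝ Δ ε (2 * m + 1) D.sph ⟨m, rfl⟩, mul_zero] at hc1
          have : c = 0 := by
            have h1 : ((-1 : ℤ) ^ (m + 1) * 2 ^ (2 * m + 1)) ≠ 0 :=
              mul_ne_zero (pow_ne_zero _ (by norm_num)) (pow_ne_zero _ (by norm_num))
            have h2 := (mul_eq_zero.1 hc1.symm).resolve_left h1
            exact_mod_cast h2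
          rw [hj]; exact hc2 this
        · exact ha1 j hj
      refine ⟨?_, fun j _ => ha j, ?_, ?_, hinj⟩
      · intro A j hj x hx hx'
        exact hinj j (by omega) A x hx hx' (ha j x (mn_Ch_mono (subset_univ _) j hx) hx')
      · intro j _
        by_cases hj : j ≤ 2 * m + 1
        · exact TEx_of_Ex H.totPr H.col D.sph (j := j) (i := 2 * m + 1 - j) (by omega) (ha _)
        · exact TEx_large (hbig j (by omega))
      · intro m' hm'
        omega
    · -- d = 2m+1: type 2m+2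
      subst hm
      have ih2 := ihs (2 * m) (by omega)
      have hp : PEx Δ U e (2 * m + 1 + 1) := by
        intro A j hj
        exact hup A j (by omega)
      have ht1 : ∀ j, j < m + 1 → TEx Δ U e j := by
        intro j hj
        have hi : Ex Δ U e univ (2 * m + 2 - j) := hp univ _ (by omega)
        exact TEx_of_Ex H.totPr H.col D.sph (by omega) hi
      have ha : ∀ j, 2 * j ≠ 2 * m + 1 + 1 → Ex Δ U e univ j := by
        intro j hj
        by_cases hj' : j < m + 1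
        · exact H.row n ℝ S Δ U e B h ε (2 * m + 1 + 1) D j (ht1 j hj')
        · exact hp univ j (by omega)
      refine ⟨hp, ha, ?_, ?_, hinj⟩
      · intro j hj
        by_cases hj' : j ≤ 2 * m + 2
        · exact TEx_of_Ex H.totPr H.col D.sph (j := j) (i := 2 * m + 2 - j) (by omega)
            (ha _ (by omega))
        · exact TEx_large (hbig j (by omega))
      · intro m' hm' w hw hD hn
        have : m' = m + 1 := by omega
        subst this
        exact even_q H ih ih2 D hneg hpos hw hD hn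

theorem st_main (H : AllSt) : StMain := by
  intro n S _ _ _ Δ U e B h ε m D hneg hpos hU
  have hout := main_ind (n := n) (S := S) (e := e) (B := B) H (2 * m) Δ U h ε D hneg hpos
  obtain ⟨c, hc1, _⟩ := H.euler n ℝ S Δ U e B h ε (2 * m) D m
    (fun j hj => hout.a j (by omega))
  have hr : 0 < (Module.finrank ℝ U : ℤ) := by
    have : 0 < Module.finrank ℝ U := by
      rw [Module.finrank_pos_iff]
      exact (Submodule.nontrivial_iff_ne_bot).2 hU
    exact_mod_cast this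
  have h1 : (Module.finrank ℝ U : ℤ) *
      ((-1 : ℤ) ^ m * ∑ F ∈ Δ, (-1 : ℤ) ^ F.card * 2 ^ (2 * m - F.card)) =
      2 ^ (2 * m) * c := by
    have h2 := neg_one_sq_pow ℤ m
    linear_combination (-1 : ℤ) ^ m * hc1 + 2 ^ (2 * m) * (c : ℤ) * h2
  by_contra hneg'
  push Not at hneg'
  have h3 := mul_neg_of_pos_of_neg hr hneg'
  rw [h1] at h3
  have h4 : (0 : ℤ) ≤ 2 ^ (2 * m) * c := by positivity
  linarith

end Pool.Agent.H14.CL
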