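import Pool.Agent.H14.CL.Stm3

/-!
Project CL part 3, row F9: normalised configurations for the classes `B(k)`.
-/

set_option autoImplicit false

namespace Pool.Agent.H14.CL

open Finset

/-- F9: normalised configurations -/
theorem st_normK : StNormK := by
  intro n k L hL hG
  obtain ⟨R₀, hR₀⟩ := hG
  refine ⟨R₀ + n, fun R hR => ?_⟩
  obtain ⟨R₁, rfl⟩ : ∃ R₁, R = R₁ + n := ⟨R - n, by omega⟩
  have hR₁ : R₀ ≤ R₁ := by omega
  intro S _ _ _ γ δ hC
  obtain ⟨γ', δ', hC', hop⟩ := clif_bl₁ (R₁ := R₁) (R₂ := n) hC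
  obtain ⟨E₁, hE₁⟩ := hR₀ R₁ hR₁ S γ' δ' hC'
  obtain ⟨M₁, hM₁⟩ := hE₁.dual
  refine ⟨fun v => if ({v} : Finset (Fin n)) ∈ L then bl₁ R₁ n (E₁ v) else bl₂ R₁ n (nu v),
    ?_, ?_, ?_⟩
  · intro v w hvw
    by_cases hv : ({v} : Finset (Fin n)) ∈ L
    · by_cases hw : ({w} : Finset (Fin n)) ∈ L
      · have h : ({v, w} : Finset (Fin n)) ∈ L := by
          by_contra hc
          exact hvw ⟨hv, hw, hc⟩
        simp only [if_pos hv, if_pos hw]
        rw [ip_bl₁]
        exact hE₁.orth v w h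
      · simp only [if_pos hv, if_neg hw]
        exact ip_bl₁₂ _ _ _ _
    · by_cases hw : ({w} : Finset (Fin n)) ∈ L
      · simp only [if_neg hv, if_pos hw]
        exact ip_bl₂₁ _ _ _ _
      · simp only [if_neg hv, if_neg hw]
        rw [ip_bl₂]
        exact ip_nu _ _
  · refine ⟨fun v => if ({v} : Finset (Fin n)) ∈ L then bl₁ R₁ n (M₁ v) else bl₂ R₁ n (mud v),
      ?_⟩
    intro v w
    by_cases hv : ({v} : Finset (Fin n)) ∈ L
    · by_cases hw : ({w} : Finset (Fin n)) ∈ L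
      · simp only [if_pos hv, if_pos hw]
        rw [ip_bl₁]
        exact hM₁ v w
      · simp only [if_pos hv, if_neg hw]
        have hne : v ≠ w := fun h => hw (h ▸ hv)
        rw [if_neg hne]
        exact ip_bl₂₁ _ _ _ _
    · by_cases hw : ({w} : Finset (Fin n)) ∈ L
      · simp only [if_neg hv, if_pos hw]
        have hne : v ≠ w := fun h => hv (h ▸ hw)
        rw [if_neg hne]
        exact ip_bl₁₂ _ _ _ _
      · simp only [if_neg hv, if_neg hw]
        rw [ip_bl₂]
        exact ip_nu_mud _ _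
  · intro p hp j hj
    rw [mem_singleton] at hp
    subst hp
    refine Ex_congr hL (e := fun v => opv γ' δ' (E₁ v)) ?_
      (hE₁.ex _ (mem_singleton_self _) j hj)
    intro v hv x
    simp only [if_pos hv]
    rw [hop]

end Pool.Agent.H14.CL
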