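import Pool.Agent.H14.CL.Stm4

/-!
Project CL, fourth part: vertices of degree 4 of a flag 2-sphere.
-/

set_option autoImplicit false

namespace Pool.Agent.H14.CL

open Finset

section

variable {n : ℕ} {L : Finset (Finset (Fin n))}

/-- two common neighbours of an edge are all of them -/
theorem oc_two (h : P3 L) {a b c d x : Fin n} (hab : Ed L a b) (hac : Ed L a c)
    (hbc : Ed L b c) (had : Ed L a d) (hbd : Ed L b d) (hcd : c ≠ d) (hax : Ed L a x)
    (hbx : Ed L b x) : x = c ∨ x = d := by
  obtain ⟨u, v, huv, _, _, _, _, hall⟩ := h.two a b hab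
  have h1 := hall c hac hbc
  have h2 := hall d had hbd
  have h3 := hall x hax hbx
  rcases h1 with h1 | h1 <;> rcases h2 with h2 | h2
  · exact absurd (h1.trans h2.symm) hcd
  · rw [h1, h2]
    exact h3
  · rw [h1, h2]
    exact h3.symm
  · exact absurd (h1.trans h2.symm) hcd

/-- a 4-cycle in the link of a vertex is the whole link -/
theorem oc_lk (h : P3 L) {a b c d e : Fin n} (hab : Ed L a b) (hac : Ed L a c) (had : Ed L a d)
    (hae : Ed L a e) (hbc : Ed L b c) (hcd : Ed L c d) (hde : Ed L d e) (heb : Ed L e b)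
    (hbd : b ≠ d) (hce : c ≠ e) (y : Fin n) (hy : Ed L a y) :
    y = b ∨ y = c ∨ y = d ∨ y = e := by
  have h1 := h.lkc a {b, c, d, e} ⟨b, by simp⟩ (by
    intro z hz
    simp only [mem_insert, mem_singleton] at hz
    rcases hz with rfl | rfl | rfl | rfl
    · exact hab
    · exact hac
    · exact had
    · exact hae) (by
    intro z hz w haw hzw
    simp only [mem_insert, mem_singleton] at hz ⊢
    rcases hz with rfl | rfl | rfl | rfl
    · rcases oc_two h hab hac hbc hae heb.symm hce haw hzw with h2 | h2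
      · exact Or.inr (Or.inl h2)
      · exact Or.inr (Or.inr (Or.inr h2))
    · rcases oc_two h hac hab hbc.symm had hcd hbd haw hzw with h2 | h2
      · exact Or.inl h2
      · exact Or.inr (Or.inr (Or.inl h2))
    · rcases oc_two h had hac hcd.symm hae hde hce haw hzw with h2 | h2
      · exact Or.inr (Or.inl h2)
      · exact Or.inr (Or.inr (Or.inr h2))
    · rcases oc_two h hae hab heb had hde.symm hbd haw hzw with h2 | h2
      · exact Or.inl h2
      · exact Or.inr (Or.inr (Or.inl h2))) y hy
  simpa only [mem_insert, mem_singleton] using h1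

end

theorem st_oct5 (h1 : StSideEx) (h2 : StSideAp) : StOct5 := by
  intro n L h t p q r s hW hA hB
  obtain ⟨htp, htq, htr, hts, ⟨hpq, hqr, hrs, hsp, npr, nqs, epr, eqs⟩, hall⟩ := hW
  obtain ⟨x, y, hA⟩ := hA
  obtain ⟨x', y', hB⟩ := hB
  -- the vertex opposite to `t` in the first cycle
  have hy : y = r := by
    obtain ⟨_, _, _, hyt, _, hpy, _, epy⟩ := hA
    rcases hall y hyt.symm with rfl | rfl | rfl | rfl
    · exact absurd rfl hpy
    · exact absurd hpq epy
    · rfl
    · exact absurd hsp.symm epy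
  subst hy
  have hy' : y' = s := by
    obtain ⟨_, _, _, hyt, _, hpy, _, epy⟩ := hB
    rcases hall y' hyt.symm with rfl | rfl | rfl | rfl
    · exact absurd hpq.symm epy
    · exact absurd rfl hpy
    · exact absurd hqr epy
    · rfl
  subst hy'
  have hA' := hA
  obtain ⟨_, hpx, hxr, _, ntx, _, etx, _⟩ := hA
  obtain ⟨_, hqx', hxs', _, ntx', _, etx', _⟩ := hB
  obtain ⟨T, O, hS⟩ := h1 n L h t p x _ hA'
  obtain ⟨z, hz, w, hw, htz, hpz, htw, hpw⟩ := h2 n L h t p x _ hA' T O hS
  have hzc : z = q ∨ z = y' := by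
    rcases hall z htz with rfl | rfl | rfl | rfl
    · exact absurd rfl hpz.1
    · exact Or.inl rfl
    · exact absurd hpz epr
    · exact Or.inr rfl
  have hwc : w = q ∨ w = y' := by
    rcases hall w htw with rfl | rfl | rfl | rfl
    · exact absurd rfl hpw.1
    · exact Or.inl rfl
    · exact absurd hpw epr
    · exact Or.inr rfl
  have hxz : Ed L x' z := by
    rcases hzc with rfl | rfl
    · exact hqx'.symm
    · exact hxs'
  have hxw : Ed L x' w := by
    rcases hwc with rfl | rfl
    · exact hqx'.symm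
    · exact hxs'
  have hx' : x' ∈ ({t, p, x, y} : Finset (Fin n)) := by
    by_contra hn
    rcases hS.all x' (h.vl hxz) hn with h3 | h3
    · exact hS.no x' h3 w hw hxw
    · exact hS.no z hz x' h3 hxz.symm
  have hxx : x' = x := by
    simp only [mem_insert, mem_singleton] at hx'
    rcases hx' with h3 | h3 | h3 | h3
    · exact absurd h3.symm ntx'
    · exact absurd (h3 ▸ htp) etx'
    · exact h3
    · exact absurd (h3 ▸ htr) etx'
  subst hxx
  have kp := oc_lk h htp.symm hpq hpx hsp.symm htq hqx' hxs' hts.symm ntx nqs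
  have kq := oc_lk h htq.symm hpq.symm hqx' hqr htp hpx hxr htr.symm ntx npr
  have kr := oc_lk h htr.symm hqr.symm hxr.symm hrs htq hqx' hxs' hts.symm ntx nqs
  have ks := oc_lk h hts.symm hsp hxs'.symm hrs.symm htp hpx hxr htr.symm ntx npr
  have kx := oc_lk h hpx.symm hqx'.symm hxr hxs' hpq hqr hrs hsp npr nqs
  refine ⟨x', ⟨?_, ⟨ntx, etx⟩, ⟨npr, epr⟩, ⟨nqs, eqs⟩, ⟨htp, htr, hpx.symm, hxr⟩,
    ⟨htq, hts, hqx'.symm, hxs'⟩, ⟨hpq, hsp.symm, hqr.symm, hrs⟩⟩⟩
  intro v hv
  have h4 := h.con {t, x', p, y, q, y'} ⟨t, by simp⟩ (by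
    intro u hu
    simp only [mem_insert, mem_singleton] at hu
    rcases hu with rfl | rfl | rfl | rfl | rfl | rfl
    · exact h.vl htp
    · exact h.vl hxr
    · exact h.vr htp
    · exact h.vr htr
    · exact h.vr htq
    · exact h.vr hts) (by
    intro u hu m hm
    simp only [mem_insert, mem_singleton] at hu ⊢
    rcases hu with rfl | rfl | rfl | rfl | rfl | rfl
    · rcases hall m hm with h5 | h5 | h5 | h5 <;> simp only [h5, true_or, or_true]
    · rcases kx m hm with h5 | h5 | h5 | h5 <;> simp only [h5, true_or, or_true]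
    · rcases kp m hm with h5 | h5 | h5 | h5 <;> simp only [h5, true_or, or_true]
    · rcases kr m hm with h5 | h5 | h5 | h5 <;> simp only [h5, true_or, or_true]
    · rcases kq m hm with h5 | h5 | h5 | h5 <;> simp only [h5, true_or, or_true]
    · rcases ks m hm with h5 | h5 | h5 | h5 <;> simp only [h5, true_or, or_true]) v hv
  simpa only [mem_insert, mem_singleton] using h4

end Pool.Agent.H14.CL
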