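import Pool.Agent.H14.CL.Stm4
import Pool.Agent.H14.CL.Dbl

/-!
Project CL, row CL4-A17: the octahedron belongs to `B(0)`.
-/

set_option autoImplicit false

namespace Pool.Agent.H14.CL

open Finset

variable {n : ℕ}

/-- real cones are acyclic -/
theorem og_cone (L : Finset (Finset (Fin n))) (z : Fin n) (h : ∀ F ∈ L, insert z F ∈ L)
    (j : ℕ) : Ex L (⊤ : Submodule ℝ ℝ) (fun _ => 0) univ j := by
  intro x hx hb
  refine ⟨con ℝ z x, ?_, ?_⟩
  · rw [mem_Ch] at hx ⊢
    intro G
    refine ⟨⟨Submodule.mem_top, fun _ _ => LinearMap.zero_apply _⟩, fun hG => ?_⟩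
    rw [con_apply]
    by_cases hz : z ∈ G
    · rw [if_pos hz, (hx (G.erase z)).2, smul_zero]
      rintro ⟨h1, -, h3⟩
      apply hG
      refine ⟨?_, subset_univ _, ?_⟩
      · have h4 := h _ h1
        rwa [insert_erase hz] at h4
      · rw [card_erase_of_mem hz] at h3
        have h5 := card_pos.2 ⟨z, hz⟩
        omega
    · rw [if_neg hz]
  · rw [dbl_bd_con, hb, map_zero, sub_zero]

open Classical in
theorem st_octG (h : StColG) : StOctG := by
  intro n L a a' b b' c c' hL hO
  obtain ⟨hall, ⟨aa, naa⟩, ⟨bb, nbb⟩, ⟨cc, ncc⟩, ⟨e1, e2, e3, e4⟩, ⟨f1, f2, f3, f4⟩,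
    ⟨g1, g2, g3, g4⟩⟩ := hO
  have n1 := e1.1
  have n2 := e2.1
  have n3 := e3.1
  have n4 := e4.1
  have n5 := f1.1
  have n6 := f2.1
  have n7 := f3.1
  have n8 := f4.1
  have n9 := g1.1
  have n10 := g2.1
  have n11 := g3.1
  have n12 := g4.1
  let col : Fin n → Fin 3 := fun x => if x = a ∨ x = a' then 0 else if x = b ∨ x = b' then 1 else 2
  let σ : Fin n → Bool := fun x => decide (x = a ∨ x = b ∨ x = c)
  have ca : col a = 0 := if_pos (Or.inl rfl)
  have ca' : col a' = 0 := if_pos (Or.inr rfl)
  have cb : col b = 1 := by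
    show (if b = a ∨ b = a' then (0 : Fin 3) else if b = b ∨ b = b' then 1 else 2) = 1
    rw [if_neg (by rintro (h1 | h1); exacts [n1 h1.symm, n3 h1.symm]), if_pos (Or.inl rfl)]
  have cb' : col b' = 1 := by
    show (if b' = a ∨ b' = a' then (0 : Fin 3) else if b' = b ∨ b' = b' then 1 else 2) = 1
    rw [if_neg (by rintro (h1 | h1); exacts [n2 h1.symm, n4 h1.symm]), if_pos (Or.inr rfl)]
  have cc1 : col c = 2 := by
    show (if c = a ∨ c = a' then (0 : Fin 3) else if c = b ∨ c = b' then 1 else 2) = 2
    rw [if_neg (by rintro (h1 | h1); exacts [n5 h1.symm, n7 h1.symm]),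
      if_neg (by rintro (h1 | h1); exacts [n9 h1.symm, n11 h1.symm])]
  have cc' : col c' = 2 := by
    show (if c' = a ∨ c' = a' then (0 : Fin 3) else if c' = b ∨ c' = b' then 1 else 2) = 2
    rw [if_neg (by rintro (h1 | h1); exacts [n6 h1.symm, n8 h1.symm]),
      if_neg (by rintro (h1 | h1); exacts [n10 h1.symm, n12 h1.symm])]
  have sa : σ a = true := decide_eq_true (Or.inl rfl)
  have sb : σ b = true := decide_eq_true (Or.inr (Or.inl rfl))
  have sc : σ c = true := decide_eq_true (Or.inr (Or.inr rfl))
  have sa' : σ a' = false := decide_eq_false (by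
    rintro (h1 | h1 | h1)
    exacts [aa h1.symm, n3 h1, n7 h1])
  have sb' : σ b' = false := decide_eq_false (by
    rintro (h1 | h1 | h1)
    exacts [n2 h1.symm, bb h1.symm, n11 h1])
  have sc' : σ c' = false := decide_eq_false (by
    rintro (h1 | h1 | h1)
    exacts [n6 h1.symm, n10 h1.symm, cc h1.symm])
  refine h n 3 0 L col σ hL.down ?_ ?_
  · intro u v huv hne hc
    have huv' : Ed L u v := ⟨hne, huv⟩
    have hu := hall u (hL.vl huv')
    have hv := hall v (hL.vr huv')
    have k1 : (0 : Fin 3) ≠ 1 := by decide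
    have k2 : (0 : Fin 3) ≠ 2 := by decide
    have k3 : (1 : Fin 3) ≠ 2 := by decide
    rcases hu with rfl | rfl | rfl | rfl | rfl | rfl <;>
      rcases hv with rfl | rfl | rfl | rfl | rfl | rfl <;>
      simp only [ca, ca', cb, cb', cc1, cc'] at hc <;>
      first
        | exact hne rfl
        | exact naa huv'
        | exact naa huv'.symm
        | exact nbb huv'
        | exact nbb huv'.symm
        | exact ncc huv'
        | exact ncc huv'.symm
        | exact absurd hc (by decide)
  · intro η j _
    -- the transversal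
    obtain ⟨x, hx, hxs, hx'⟩ : ∃ x, col x = 0 ∧ σ x = η 0 ∧ (x = a ∨ x = a') := by
      rcases hη : η 0 with _ | _
      · exact ⟨a', ca', sa', Or.inr rfl⟩
      · exact ⟨a, ca, sa, Or.inl rfl⟩
    obtain ⟨y, hy, hys, hy'⟩ : ∃ y, col y = 1 ∧ σ y = η 1 ∧ (y = b ∨ y = b') := by
      rcases hη : η 1 with _ | _
      · exact ⟨b', cb', sb', Or.inr rfl⟩
      · exact ⟨b, cb, sb, Or.inl rfl⟩
    obtain ⟨z, hz, hzs, hz'⟩ : ∃ z, col z = 2 ∧ σ z = η 2 ∧ (z = c ∨ z = c') := by
      rcases hη : η 2 with _ | _
      · exact ⟨c', cc', sc', Or.inr rfl⟩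
      · exact ⟨c, cc1, sc, Or.inl rfl⟩
    have hxy : Ed L x y := by
      rcases hx' with rfl | rfl <;> rcases hy' with rfl | rfl <;> assumption
    have hxz : Ed L x z := by
      rcases hx' with rfl | rfl <;> rcases hz' with rfl | rfl <;> assumption
    have hyz : Ed L y z := by
      rcases hy' with rfl | rfl <;> rcases hz' with rfl | rfl <;> assumption
    refine og_cone _ x (fun F hF => ?_) j
    unfold ful at hF ⊢
    rw [mem_filter] at hF ⊢
    obtain ⟨hF, hFA⟩ := hF
    -- the vertices of `F`
    have hv : ∀ w ∈ F, w = x ∨ w = y ∨ w = z := by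
      intro w hw
      have h1 := (mem_filter.1 (hFA hw)).2
      have h2 := hall w (hL.down _ hF _ (singleton_subset_iff.2 hw))
      have key : ∀ w' w'' : Fin n, (x = w' ∨ x = w'') → σ w' = true → σ w'' = false →
          col w' = 0 → col w'' = 0 → (w = w' ∨ w = w'') → w = x := by
        intro w' w'' k1 k2 k3 k4 k5 k6
        rcases k6 with rfl | rfl
        · rw [k2, k4, ← hxs] at h1
          rcases k1 with k1 | k1
          · exact k1.symm
          · rw [k1, k3] at h1
            exact absurd h1 (by decide)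
        · rw [k3, k5, ← hxs] at h1
          rcases k1 with k1 | k1
          · rw [k1, k2] at h1
            exact absurd h1 (by decide)
          · exact k1.symm
      have key1 : ∀ w' w'' : Fin n, (y = w' ∨ y = w'') → σ w' = true → σ w'' = false →
          col w' = 1 → col w'' = 1 → (w = w' ∨ w = w'') → w = y := by
        intro w' w'' k1 k2 k3 k4 k5 k6
        rcases k6 with rfl | rfl
        · rw [k2, k4, ← hys] at h1
          rcases k1 with k1 | k1
          · exact k1.symm
          · rw [k1, k3] at h1
            exact absurd h1 (by decide)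
        · rw [k3, k5, ← hys] at h1
          rcases k1 with k1 | k1
          · rw [k1, k2] at h1
            exact absurd h1 (by decide)
          · exact k1.symm
      have key2 : ∀ w' w'' : Fin n, (z = w' ∨ z = w'') → σ w' = true → σ w'' = false →
          col w' = 2 → col w'' = 2 → (w = w' ∨ w = w'') → w = z := by
        intro w' w'' k1 k2 k3 k4 k5 k6
        rcases k6 with rfl | rfl
        · rw [k2, k4, ← hzs] at h1
          rcases k1 with k1 | k1
          · exact k1.symm
          · rw [k1, k3] at h1
            exact absurd h1 (by decide)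
        · rw [k3, k5, ← hzs] at h1
          rcases k1 with k1 | k1
          · rw [k1, k2] at h1
            exact absurd h1 (by decide)
          · exact k1.symm
      rcases h2 with h2 | h2 | h2 | h2 | h2 | h2
      · exact Or.inl (key a a' hx' sa sa' ca ca' (Or.inl h2))
      · exact Or.inl (key a a' hx' sa sa' ca ca' (Or.inr h2))
      · exact Or.inr (Or.inl (key1 b b' hy' sb sb' cb cb' (Or.inl h2)))
      · exact Or.inr (Or.inl (key1 b b' hy' sb sb' cb cb' (Or.inr h2)))
      · exact Or.inr (Or.inr (key2 c c' hz' sc sc' cc1 cc' (Or.inl h2)))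
      · exact Or.inr (Or.inr (key2 c c' hz' sc sc' cc1 cc' (Or.inr h2)))
    constructor
    · refine hL.down _ (hL.tri hxy hxz hyz) _ ?_
      intro w hw
      rw [mem_insert] at hw
      simp only [mem_insert, mem_singleton]
      rcases hw with rfl | hw
      · exact Or.inl rfl
      · exact hv w hw
    · intro w hw
      rw [mem_insert] at hw
      rcases hw with rfl | hw
      · rw [mem_filter]
        refine ⟨mem_univ _, ?_⟩
        rw [hx]
        exact hxs
      · exact hFA hw

end Pool.Agent.H14.CL
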