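import Pool.Agent.H14.CL.Stm3
import Pool.Agent.H14.CL.ChA

/-!
Project CL, row F6: chains off an edge, classes B(k).
-/

set_option autoImplicit false

namespace Pool.Agent.H14.CL

open Finset

theorem ChK_lk_erase {n : ℕ} {K : Type*} [Field K] {S : Type*} [AddCommGroup S] [Module K S]
    {Δ : Finset (Finset (Fin n))} {U' : Submodule K S} {e : Fin n → S →ₗ[K] S} {u : Fin n}
    {j : ℕ} {y : Finset (Fin n) → S} (hy : y ∈ Ch (lk Δ u) U' e univ j) :
    y ∈ Ch (lk Δ u) U' e (univ.erase u) j := by
  rw [mem_Ch] at hy ⊢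
  refine fun G => ⟨(hy G).1, fun h => (hy G).2 fun h1 => h ⟨h1.1, ?_, h1.2.2⟩⟩
  intro v hv
  exact mem_erase.mpr ⟨fun h2 => (mem_lk.1 h1.1).2.1 (h2 ▸ hv), mem_univ _⟩

/-- F6 -/
theorem st_offK : StOffK := by
  intro n k K S _ _ _ L U e u v hd huv hev hL hlk j hj x hx hc hoff
  obtain ⟨y₀, hy₀, hb₀⟩ := hL j hj x hx hc
  rcases j with _ | j
  · refine ⟨y₀, hy₀, fun G hu hv => (mem_Ch.mp hy₀ G).2 ?_, hb₀⟩
    rintro ⟨_, _, h3⟩
    have h4 : ({u, v} : Finset (Fin n)) ⊆ G :=
      insert_subset_iff.mpr ⟨hu, singleton_subset_iff.mpr hv⟩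
    have h5 := card_le_card h4
    rw [card_pair huv] at h5
    omega
  have hKK : KK (KK U e {u}) e {v} = KK U e {u} := by
    ext t
    rw [mem_KK, mem_KK]
    constructor
    · exact fun h => h.1
    · intro h
      refine ⟨h, fun w hw => ?_⟩
      rw [mem_singleton.mp hw, hev t h.1]
      exact h.2 u (mem_singleton_self u)
  have hd1 : Down (lk L u) := down_lk hd u
  have h1 := res_mem_Ch hd u hy₀
  have h2 := res_mem_Ch hd1 v h1
  rw [hKK] at h2
  have h3 : res K v (res K u y₀) ∈ Ch (lk (lk L u) v) (KK U e {u}) e univ j :=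
    Ch_mono (subset_univ _) h2
  have h4 : bd K (res K v (res K u y₀)) = 0 := by
    rw [bd_res, bd_res, map_neg, neg_neg, hb₀]
    funext G
    rw [res_apply, res_apply, Pi.zero_apply]
    by_cases hvG : v ∈ G
    · rw [if_pos hvG]
    · rw [if_neg hvG]
      by_cases huG : u ∈ insert v G
      · rw [if_pos huG, smul_zero]
      · rw [if_neg huG, hoff _ (mem_insert_self _ _) (mem_insert_of_mem (mem_insert_self _ _)),
          smul_zero, smul_zero]
  obtain ⟨w, hw, hwb⟩ := hlk j (by omega) _ h3 h4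
  have h5 : w ∈ Ch (lk (lk L u) v) (KK (KK U e {u}) e {v}) e (univ.erase v) (j + 1) := by
    rw [hKK]
    exact ChK_lk_erase hw
  have h6 : con K v w ∈ Ch (lk L u) (KK U e {u}) e univ (j + 1 + 1) :=
    con_mem_Ch (mem_univ v) h5
  have h7 : con K u (con K v w) ∈ Ch L U e univ (j + 1 + 1 + 1) :=
    con_mem_Ch (mem_univ u) (ChK_lk_erase h6)
  have h8 : bd K (con K u (con K v w)) ∈ Ch L U e univ (j + 1 + 1) := bd_mem_Ch hd h7
  have h9 : res K v (res K u (bd K (con K u (con K v w)))) = res K v (res K u y₀) := by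
    have h10 := bd_res (K := K) u (con K u (con K v w))
    rw [res_con (lk_vanish h6)] at h10
    have h11 := bd_res (K := K) v (con K v w)
    rw [res_con (lk_vanish h5)] at h11
    have h12 : res K u (bd K (con K u (con K v w))) = - bd K (con K v w) := by
      rw [h10, neg_neg]
    rw [h12, map_neg, ← h11, hwb]
  refine ⟨y₀ - bd K (con K u (con K v w)), Submodule.sub_mem _ hy₀ h8, ?_, ?_⟩
  · intro G huG hvG
    have h10 : res K v (res K u (y₀ - bd K (con K u (con K v w)))) = 0 := by
      rw [map_sub, map_sub, h9, sub_self]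
    have h11 := congrFun h10 ((G.erase u).erase v)
    have h12 : insert v ((G.erase u).erase v) = G.erase u :=
      insert_erase (mem_erase.2 ⟨huv.symm, hvG⟩)
    rw [res_apply, if_neg (notMem_erase _ _), res_apply, h12, if_neg (notMem_erase _ _),
      insert_erase huG, Pi.zero_apply, smul_smul] at h11
    have h13 : tau K v ((G.erase u).erase v) * tau K u (G.erase u) ≠ 0 := by
      refine mul_ne_zero ?_ ?_
      · intro h
        have h14 := tau_sq K v ((G.erase u).erase v)
        rw [h, mul_zero] at h14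
        exact zero_ne_one h14
      · intro h
        have h14 := tau_sq K u (G.erase u)
        rw [h, mul_zero] at h14
        exact zero_ne_one h14
    exact (smul_eq_zero.mp h11).resolve_left h13
  · rw [map_sub, bd_bd, sub_zero, hb₀]

end Pool.Agent.H14.CL
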