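import Pool.Agent.H14.CL.Stm4
import Pool.Agent.H14.CL.HomRank

/-!
Project CL, fourth part, row A3: orientation of flag 2-spheres; 1-cycles are boundaries.
-/

set_option autoImplicit false

namespace Pool.Agent.H14.CL

open Finset

variable {n : ℕ}

/-- a subspace with an injective functional has dimension at most one -/
theorem po_le_one (Z : Submodule ℝ (Finset (Fin n) → ℝ)) (F : Finset (Fin n))
    (h : ∀ x ∈ Z, x F = 0 → x = 0) : Module.finrank ℝ Z ≤ 1 := by
  have h1 := LinearMap.finrank_le_finrank_of_injective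
    (f := (LinearMap.proj F : (Finset (Fin n) → ℝ) →ₗ[ℝ] ℝ) ∘ₗ Z.subtype) (by
      rw [← LinearMap.ker_eq_bot, LinearMap.ker_eq_bot']
      intro x hx
      exact Subtype.ext (h x.1 x.2 hx))
  rwa [Module.finrank_self] at h1

/-- the Euler characteristic by layers -/
theorem po_chi {L : Finset (Finset (Fin n))} (h : P3 L) :
    (1 : ℤ) - ((lay L 1).card : ℤ) + ((lay L 2).card : ℤ) - ((lay L 3).card : ℤ) = -1 := by
  have h0 : lay L 0 = {∅} := by
    ext F
    rw [mem_lay, mem_singleton, card_eq_zero]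
    constructor
    · exact fun h1 => h1.2
    · rintro rfl
      exact ⟨h.emp, rfl⟩
  have h1 : ∑ F ∈ L, (-1 : ℤ) ^ F.card =
      ∑ i ∈ range 4, ((lay L i).card : ℤ) * (-1) ^ i := by
    rw [← sum_fiberwise_of_maps_to (g := fun F : Finset (Fin n) => F.card) (t := range 4)
      (fun F hF => mem_range.2 (by have := h.le3 F hF; omega))]
    refine sum_congr rfl fun i _ => ?_
    rw [sum_congr rfl fun F hF => by rw [(mem_filter.1 hF).2], sum_const, nsmul_eq_mul]
    rfl
  have h2 := h.chi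
  rw [h1, sum_range_succ, sum_range_succ, sum_range_succ, sum_range_succ, sum_range_zero, h0,
    card_singleton] at h2
  norm_num at h2
  linarith

theorem po_tau {a b : Fin n} (hab : a ≠ b) :
    tau ℝ a ({a, b} : Finset (Fin n)) = - tau ℝ b ({a, b} : Finset (Fin n)) ∧
      tau ℝ b ({a, b} : Finset (Fin n)) ≠ 0 := by
  unfold tau
  rcases lt_or_gt_of_ne hab with h | h
  · have e1 : ({a, b} : Finset (Fin n)).filter (fun x => x < a) = ∅ := by
      rw [filter_eq_empty_iff]
      intro x hx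
      rcases mem_insert.1 hx with rfl | hx
      · exact lt_irrefl _
      · rw [mem_singleton.1 hx]
        exact not_lt.2 h.le
    have e2 : ({a, b} : Finset (Fin n)).filter (fun x => x < b) = {a} := by
      ext x
      simp only [mem_filter, mem_insert, mem_singleton]
      constructor
      · rintro ⟨rfl | rfl, h1⟩
        · rfl
        · exact absurd h1 (lt_irrefl _)
      · rintro rfl
        exact ⟨Or.inl rfl, h⟩
    rw [e1, e2, card_empty, card_singleton]
    norm_num
  · have e1 : ({a, b} : Finset (Fin n)).filter (fun x => x < a) = {b} := by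
      ext x
      simp only [mem_filter, mem_insert, mem_singleton]
      constructor
      · rintro ⟨rfl | rfl, h1⟩
        · exact absurd h1 (lt_irrefl _)
        · rfl
      · rintro rfl
        exact ⟨Or.inr rfl, h⟩
    have e2 : ({a, b} : Finset (Fin n)).filter (fun x => x < b) = ∅ := by
      rw [filter_eq_empty_iff]
      intro x hx
      rcases mem_insert.1 hx with rfl | hx
      · exact not_lt.2 h.le
      · rw [mem_singleton.1 hx]
        exact lt_irrefl _
    rw [e1, e2, card_empty, card_singleton]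
    norm_num

/-- functions with coboundary zero agree on adjacent vertices -/
theorem po_adj {L : Finset (Finset (Fin n))} (h : P3 L) {φ : Finset (Fin n) → ℝ}
    (hφ : cbd ℝ L 2 φ = 0) {a b : Fin n} (hab : Ed L a b) : φ {a} = φ {b} := by
  have h1 := cbd_val (K := ℝ) h.down (m := 2) φ hab.2 (card_pair hab.1)
  rw [hφ, Pi.zero_apply, sum_pair hab.1] at h1
  have e1 : ({a, b} : Finset (Fin n)).erase a = {b} := by
    rw [erase_insert]
    rw [mem_singleton]
    exact hab.1
  have e2 : ({a, b} : Finset (Fin n)).erase b = {a} := by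
    rw [pair_comm, erase_insert]
    rw [mem_singleton]
    exact hab.1.symm
  rw [e1, e2] at h1
  obtain ⟨h2, h3⟩ := po_tau hab.1
  rw [h2] at h1
  have h4 : tau ℝ b ({a, b} : Finset (Fin n)) * (φ {a} - φ {b}) = 0 := by linarith
  rcases mul_eq_zero.1 h4 with h5 | h5
  · exact absurd h5 h3
  · linarith

/-- the rank of the second boundary matrix -/
theorem po_rank2 {L : Finset (Finset (Fin n))} (h : P3 L) :
    (lay L 1).card ≤ (bdM ℝ L 2).rank + 1 := by
  have h1 := dim_ker (K := ℝ) (I := lay L 1) (cbd ℝ L 2) (cbd_rs L 1)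
  rw [cbd_rank] at h1
  by_cases he : (lay L 1) = ∅
  · rw [he, card_empty]
    exact Nat.zero_le _
  · obtain ⟨F, hF⟩ := nonempty_iff_ne_empty.2 he
    obtain ⟨hF1, hF2⟩ := mem_lay.1 hF
    obtain ⟨x0, rfl⟩ := card_eq_one.1 hF2
    have h2 := po_le_one (Wsp ℝ (lay L 1) ⊓ LinearMap.ker (cbd ℝ L 2)) {x0} (by
      rintro φ ⟨hφ1, hφ2⟩ h0
      have hφ3 : cbd ℝ L 2 φ = 0 := LinearMap.mem_ker.1 hφ2
      have h3 := h.con (univ.filter fun y => {y} ∈ L ∧ φ {y} = 0)
        ⟨x0, mem_filter.2 ⟨mem_univ _, hF1, h0⟩⟩ (fun y hy => (mem_filter.1 hy).2.1)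
        (fun y hy z hyz => by
          obtain ⟨-, hy1, hy2⟩ := mem_filter.1 hy
          refine mem_filter.2 ⟨mem_univ _, h.vr hyz, ?_⟩
          rw [← po_adj h hφ3 hyz]
          exact hy2)
      funext G
      by_cases hG : G ∈ lay L 1
      · obtain ⟨hG1, hG2⟩ := mem_lay.1 hG
        obtain ⟨y, rfl⟩ := card_eq_one.1 hG2
        exact (mem_filter.1 (h3 y hG1)).2.2
      · exact hφ1 G hG)
    omega

/-- 2-cycles -/
theorem po_cyc (h1 : StP3U) {L : Finset (Finset (Fin n))} (h : P3 L) {x : Finset (Fin n) → ℝ}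
    (hx : x ∈ Wsp ℝ (lay L 3) ⊓ LinearMap.ker (bdM ℝ L 3).mulVecLin) {F : Finset (Fin n)}
    (hF : F ∈ lay L 3) (h0 : x F = 0) : x = 0 := by
  refine h1 n L h x (fun G hG => hx.1 G fun hG' => hG (mem_lay.1 hG')) ?_
    ⟨F, (mem_lay.1 hF).1, (mem_lay.1 hF).2, h0⟩
  rw [← hr_val h.down 3 hx.1]
  exact LinearMap.mem_ker.1 hx.2

/-- A3: orientation, and 1-cycles are boundaries -/
theorem st_p3O (h1 : StP3U) (h2 : StHomRank) : StP3O := by
  intro n L h
  have d3 := dim_ker (K := ℝ) (I := lay L 3) (bdM ℝ L 3).mulVecLin (hr_rs L 3)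
  have d2 := dim_ker (K := ℝ) (I := lay L 2) (bdM ℝ L 2).mulVecLin (hr_rs L 2)
  have e3 : Module.finrank ℝ (LinearMap.range (bdM ℝ L 3).mulVecLin) = (bdM ℝ L 3).rank := rfl
  have e2 : Module.finrank ℝ (LinearMap.range (bdM ℝ L 2).mulVecLin) = (bdM ℝ L 2).rank := rfl
  rw [e3] at d3
  rw [e2] at d2
  have z3 : Module.finrank ℝ ↥(Wsp ℝ (lay L 3) ⊓ LinearMap.ker (bdM ℝ L 3).mulVecLin) ≤ 1 := by
    by_cases he : (lay L 3) = ∅
    · rw [he, card_empty] at d3
      rw [he]
      omega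
    · obtain ⟨F, hF⟩ := nonempty_iff_ne_empty.2 he
      exact po_le_one _ F fun x hx h0 => po_cyc h1 h hx hF h0
  have r23 : (bdM ℝ L 3).rank ≤
      Module.finrank ℝ ↥(Wsp ℝ (lay L 2) ⊓ LinearMap.ker (bdM ℝ L 2).mulVecLin) := by
    rw [← e3]
    apply Submodule.finrank_mono
    rintro _ ⟨ψ, rfl⟩
    refine ⟨hr_mem L 2 ψ, LinearMap.mem_ker.2 ?_⟩
    rw [hr_val h.down 2 (hr_mem L 2 ψ), ← hr_rs, hr_val h.down 3 (rsI_mem _ _), hr_bdbd]
  have r2 := po_rank2 h
  have hchi := po_chi h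
  constructor
  · have h4 : 0 < Module.finrank ℝ
        ↥(Wsp ℝ (lay L 3) ⊓ LinearMap.ker (bdM ℝ L 3).mulVecLin) := by omega
    obtain ⟨⟨z, hz⟩, hz3⟩ := Module.finrank_pos_iff_exists_ne_zero.1 h4
    refine ⟨z, fun F => ⟨fun hF => ?_, fun hF h0 => ?_⟩, ?_⟩
    · by_contra hc
      exact hF (hz.1 F fun h5 => hc (mem_lay.1 h5))
    · exact hz3 (Subtype.ext (po_cyc h1 h hz (mem_lay.2 hF) h0))
    · rw [← hr_val h.down 3 hz.1]
      exact LinearMap.mem_ker.1 hz.2
  · refine h2 n 2 L h.down ?_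
    show (lay L 2).card = (bdM ℝ L 2).rank + (bdM ℝ L 3).rank
    omega

end Pool.Agent.H14.CL
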