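import Pool.Agent.H14.CL.Stm4

/-!
Project CL, row A2: closed 2-chains vanishing on a triangle vanish.
-/

set_option autoImplicit false

namespace Pool.Agent.H14.CL

open Finset

private theorem pu_tau_ne {n : ℕ} (u : Fin n) (N : Finset (Fin n)) : tau ℝ u N ≠ 0 := by
  intro h
  have h1 := tau_sq ℝ u N
  rw [h] at h1
  norm_num at h1

/-- the two triangles at an edge -/
private theorem pu_two {n : ℕ} {L : Finset (Finset (Fin n))} (hP : P3 L)
    {x : Finset (Fin n) → ℝ} (h0 : ∀ F, ¬ (F ∈ L ∧ F.card = 3) → x F = 0)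
    (hb : bd ℝ x = 0) {a b c z : Fin n} (hab : Ed L a b) (hac : Ed L a c) (hbc : Ed L b c)
    (haz : Ed L a z) (hbz : Ed L b z) (hx : x {a, b, c} = 0) : x {a, b, z} = 0 := by
  by_cases hcz : z = c
  · rw [hcz]; exact hx
  obtain ⟨p, q, hpq, hap, hbp, haq, hbq, hall⟩ := hP.two a b hab
  have h1 : ∑ u ∈ univ.filter (fun u => u ∉ ({a, b} : Finset (Fin n))),
      tau ℝ u {a, b} • x (insert u {a, b}) = 0 := by
    rw [← bd_apply, hb]; rfl
  have hz : z ∉ ({a, b} : Finset (Fin n)) := by
    simp only [mem_insert, mem_singleton, not_or]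
    exact ⟨fun h => haz.1 h.symm, fun h => hbz.1 h.symm⟩
  have hset : ∀ u : Fin n, insert u ({a, b} : Finset (Fin n)) = {a, b, u} := by
    intro u
    ext y
    simp only [mem_insert, mem_singleton]
    tauto
  rw [Finset.sum_eq_single z] at h1
  · rw [hset, smul_eq_mul] at h1
    rcases mul_eq_zero.1 h1 with h2 | h2
    · exact absurd h2 (pu_tau_ne _ _)
    · exact h2
  · intro u hu huz
    have hu' : u ∉ ({a, b} : Finset (Fin n)) := (mem_filter.1 hu).2
    simp only [mem_insert, mem_singleton, not_or] at hu'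
    by_cases huc : u = c
    · rw [huc, hset, hx, smul_zero]
    · rw [h0, smul_zero]
      rintro ⟨h3, h4⟩
      rw [hset] at h3
      have hau : Ed L a u := by
        refine ⟨fun h => hu'.1 h.symm, hP.down _ h3 _ ?_⟩
        intro y hy
        simp only [mem_insert, mem_singleton] at hy ⊢
        tauto
      have hbu : Ed L b u := by
        refine ⟨fun h => hu'.2 h.symm, hP.down _ h3 _ ?_⟩
        intro y hy
        simp only [mem_insert, mem_singleton] at hy ⊢
        tauto
      have e1 := hall u hau hbu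
      have e2 := hall c hac hbc
      have e3 := hall z haz hbz
      rcases e1 with e1 | e1 <;> rcases e2 with e2 | e2 <;> rcases e3 with e3 | e3
      · exact huz (e1.trans e3.symm)
      · exact huc (e1.trans e2.symm)
      · exact huz (e1.trans e3.symm)
      · exact hcz (e3.trans e2.symm)
      · exact hcz (e3.trans e2.symm)
      · exact huz (e1.trans e3.symm)
      · exact huc (e1.trans e2.symm)
      · exact huz (e1.trans e3.symm)
  · intro h
    exact (h (mem_filter.2 ⟨mem_univ _, hz⟩)).elim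

/-- all triangles at a vertex vanish if one does -/
private theorem pu_star {n : ℕ} {L : Finset (Finset (Fin n))} (hP : P3 L)
    {x : Finset (Fin n) → ℝ} (h0 : ∀ F, ¬ (F ∈ L ∧ F.card = 3) → x F = 0)
    (hb : bd ℝ x = 0) {a b c : Fin n} (hab : Ed L a b) (hac : Ed L a c) (hbc : Ed L b c)
    (hx : x {a, b, c} = 0) (y z : Fin n) (hay : Ed L a y) (haz : Ed L a z) (hyz : Ed L y z) :
    x {a, y, z} = 0 := by
  classical
  have key := hP.lkc a (univ.filter (fun y => Ed L a y ∧ ∀ z, Ed L a z → Ed L y z →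
    x {a, y, z} = 0)) ⟨b, ?_⟩ ?_ ?_ y hay
  · exact (mem_filter.1 key).2.2 z haz hyz
  · refine mem_filter.2 ⟨mem_univ _, hab, fun z haz hbz => ?_⟩
    exact pu_two hP h0 hb hab hac hbc haz hbz hx
  · intro y hy
    exact (mem_filter.1 hy).2.1
  · intro y hy z haz hyz
    have h1 := (mem_filter.1 hy).2
    refine mem_filter.2 ⟨mem_univ _, haz, fun w haw hzw => ?_⟩
    refine pu_two hP h0 hb haz h1.1 hyz.symm haw hzw ?_
    have h2 := h1.2 z haz hyz
    have h3 : ({a, z, y} : Finset (Fin n)) = {a, y, z} := by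
      ext t
      simp only [mem_insert, mem_singleton]
      tauto
    rw [h3]; exact h2

/-- closed 2-chains vanishing on a triangle vanish -/
theorem st_p3U : StP3U := by
  classical
  intro n L hP x h0 hb hF
  obtain ⟨F, hFL, hF3, hxF⟩ := hF
  obtain ⟨a, b, c, rfl, hab, hac, hbc⟩ := hP.tri3 hFL hF3
  have key : ∀ v, {v} ∈ L → v ∈ univ.filter (fun v => {v} ∈ L ∧ ∀ y z, Ed L v y → Ed L v z →
      Ed L y z → x {v, y, z} = 0) := by
    apply hP.con
    · refine ⟨a, mem_filter.2 ⟨mem_univ _, hP.vl hab, fun y z hay haz hyz => ?_⟩⟩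
      exact pu_star hP h0 hb hab hac hbc hxF y z hay haz hyz
    · intro y hy
      exact (mem_filter.1 hy).2.1
    · intro v hv w hvw
      have h1 := (mem_filter.1 hv).2
      obtain ⟨p, q, hpq, hvp, hwp, hvq, hwq, hall⟩ := hP.two v w hvw
      have h2 : x {v, w, p} = 0 := h1.2 w p hvw hvp hwp
      have h3 : ({w, v, p} : Finset (Fin n)) = {v, w, p} := by
        ext t
        simp only [mem_insert, mem_singleton]
        tauto
      refine mem_filter.2 ⟨mem_univ _, hP.vr hvw, fun y z hwy hwz hyz => ?_⟩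
      exact pu_star hP h0 hb hvw.symm hwp hvp (by rw [h3]; exact h2) y z hwy hwz hyz
  funext G
  by_cases hG : G ∈ L ∧ G.card = 3
  · obtain ⟨p, q, r, rfl, hpq, hpr, hqr⟩ := hP.tri3 hG.1 hG.2
    exact (mem_filter.1 (key p (hP.vl hpq))).2.2 q r hpq hpr hqr
  · exact h0 G hG

end Pool.Agent.H14.CL
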