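import Pool.Agent.H14.CL.Blk
import Pool.Agent.H14.CL.Euler

/-!
Project CL, row D8: generators of the coefficient spaces.
-/

set_option autoImplicit false

namespace Pool.Agent.H14.CL

open Finset Module

section par

variable {n : ℕ} {S : Type} [AddCommGroup S] [Module ℝ S]

theorem par_opL_append (e : Fin n → S →ₗ[ℝ] S) (l : List (Fin n)) (u : Fin n) :
    opL e (l ++ [u]) = e u ∘ₗ opL e l := by
  induction l with
  | nil => simp [opL]
  | cons a l ih =>
    rw [List.cons_append, opL, opL, ih, LinearMap.comp_assoc]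

theorem par_KK_inf (e : Fin n → S →ₗ[ℝ] S) (F : Finset (Fin n)) (u : Fin n) :
    KK ⊤ e F ⊓ LinearMap.ker (e u) = KK ⊤ e (insert u F) := by
  ext x
  rw [Submodule.mem_inf, LinearMap.mem_ker, mem_KK, mem_KK]
  constructor
  · rintro ⟨⟨h3, h4⟩, h5⟩
    refine ⟨h3, fun v hv => ?_⟩
    rcases mem_insert.mp hv with rfl | h6
    · exact h5
    · exact h4 v h6
  · rintro ⟨h3, h4⟩
    exact ⟨⟨h3, fun v hv => h4 v (mem_insert_of_mem hv)⟩, h4 u (mem_insert_self u F)⟩

theorem par_map {L : Finset (Finset (Fin n))} {e : Fin n → S →ₗ[ℝ] S} (hL : Down L)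
    (hrel : ∀ v w, ({v, w} : Finset (Fin n)) ∈ L → ∀ x, e v (e w x) + e w (e v x) = 0)
    (hkos : ∀ F u, u ∉ F → insert u F ∈ L → ∀ x ∈ KK ⊤ e F, e u x = 0 →
      ∃ y ∈ KK ⊤ e F, e u y = x)
    (F : Finset (Fin n)) (u : Fin n) (hu : u ∉ F) (hF : insert u F ∈ L) :
    (KK ⊤ e F).map (e u) = KK ⊤ e (insert u F) := by
  ext x
  rw [Submodule.mem_map]
  constructor
  · rintro ⟨y, hy, rfl⟩
    rw [mem_KK]
    refine ⟨trivial, fun v hv => ?_⟩
    have h8 : ({v, u} : Finset (Fin n)) ∈ L := by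
      apply hL _ hF
      intro z hz
      rw [mem_insert, mem_singleton] at hz
      rcases hz with rfl | rfl
      · exact hv
      · exact mem_insert_self _ _
    have h7 := hrel v u h8 y
    rcases mem_insert.mp hv with rfl | h6
    · rw [← two_smul ℝ] at h7
      exact (smul_eq_zero.mp h7).resolve_left (by norm_num)
    · rw [hy.2 v h6, map_zero, add_zero] at h7
      exact h7
  · intro hx
    rw [← par_KK_inf, Submodule.mem_inf, LinearMap.mem_ker] at hx
    obtain ⟨y, hy, hy2⟩ := hkos F u hu hF x hx.1 hx.2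
    exact ⟨y, hy, hy2⟩

theorem par_range {L : Finset (Finset (Fin n))} {e : Fin n → S →ₗ[ℝ] S} (hL : Down L)
    (hrel : ∀ v w, ({v, w} : Finset (Fin n)) ∈ L → ∀ x, e v (e w x) + e w (e v x) = 0)
    (hkos : ∀ F u, u ∉ F → insert u F ∈ L → ∀ x ∈ KK ⊤ e F, e u x = 0 →
      ∃ y ∈ KK ⊤ e F, e u y = x) (l : List (Fin n)) (hl : l.Nodup) (hlL : l.toFinset ∈ L) :
    LinearMap.range (opL e l) = KK ⊤ e l.toFinset := by
  induction l using List.reverseRecOn with
  | nil =>
    rw [List.toFinset_nil, KK_empty, opL, LinearMap.range_id]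
  | append_singleton l u ih =>
    have h1 : (l ++ [u]).toFinset = insert u l.toFinset := by
      ext x
      simp only [List.mem_toFinset, List.mem_append, List.mem_singleton, mem_insert]
      exact or_comm
    rw [List.nodup_append] at hl
    have hu : u ∉ l.toFinset := by
      rw [List.mem_toFinset]
      intro hmem
      exact hl.2.2 u hmem u (List.mem_singleton_self u) rfl
    rw [h1] at hlL ⊢
    have hlL' : l.toFinset ∈ L := hL _ hlL _ (subset_insert u _)
    rw [par_opL_append, LinearMap.range_comp, ih hl.1 hlL', par_map hL hrel hkos _ u hu hlL]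

theorem par_finrank [FiniteDimensional ℝ S] {L : Finset (Finset (Fin n))}
    {e : Fin n → S →ₗ[ℝ] S} (hL : Down L)
    (hrel : ∀ v w, ({v, w} : Finset (Fin n)) ∈ L → ∀ x, e v (e w x) + e w (e v x) = 0)
    (hkos : ∀ F u, u ∉ F → insert u F ∈ L → ∀ x ∈ KK ⊤ e F, e u x = 0 →
      ∃ y ∈ KK ⊤ e F, e u y = x) (F : Finset (Fin n)) (hF : F ∈ L) :
    finrank ℝ (KK ⊤ e F) * 2 ^ F.card = finrank ℝ S := by
  induction F using Finset.induction_on with
  | empty => rw [KK_empty, card_empty, pow_zero, mul_one, finrank_top]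
  | insert u F hu ih =>
    have hF' : F ∈ L := hL _ hF _ (subset_insert u F)
    rw [← ih hF', card_insert_of_notMem hu]
    have h1 : finrank ℝ ((KK ⊤ e F).map (e u)) +
        finrank ℝ (KK ⊤ e F ⊓ LinearMap.ker (e u) : Submodule ℝ S) = finrank ℝ (KK ⊤ e F) := by
      have h := LinearMap.finrank_range_add_finrank_ker ((e u).domRestrict (KK ⊤ e F))
      rw [LinearMap.range_domRestrict] at h
      rw [← h, ((KK ⊤ e F).equivSubtypeMap
        (LinearMap.ker ((e u).domRestrict (KK ⊤ e F)))).finrank_eq,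
        LinearMap.ker_domRestrict, Submodule.map_comap_subtype]
    rw [par_KK_inf, par_map hL hrel hkos F u hu hF] at h1
    rw [← h1, pow_succ]
    ring

end par

theorem st_par : StPar := by
  intro n S _ _ _ L e hL hrel hkos G hG
  refine ⟨?_, par_finrank hL hrel hkos G hG⟩
  have h1 : (G.sort (· ≤ ·)).toFinset = G := Finset.sort_toFinset G (· ≤ ·)
  have h2 := par_range hL hrel hkos (G.sort (· ≤ ·)) (Finset.sort_nodup G (· ≤ ·))
    (by rw [h1]; exact hG)
  rw [h1] at h2
  exact h2

end Pool.Agent.H14.CL
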