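import Pool.Agent.H14.CL.Stm2

/-!
Project CL, second part, row D7: semicontinuity of the rank.
-/

set_option autoImplicit false

namespace Pool.Agent.H14.CL

open Matrix

/-- A real matrix of rank `r` becomes the identity of size `r` after multiplication from both
sides. -/
theorem rk_two_sided {ι κ : Type} [Fintype ι] [Fintype κ] [DecidableEq ι] [DecidableEq κ]
    (M : Matrix ι κ ℝ) :
    ∃ (A : Matrix (Fin M.rank) ι ℝ) (C : Matrix κ (Fin M.rank) ℝ), A * M * C = 1 := by
  have hfr : Module.finrank ℝ (LinearMap.range M.mulVecLin) = M.rank := rfl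
  let b : Module.Basis (Fin M.rank) ℝ (LinearMap.range M.mulVecLin) :=
    Module.finBasisOfFinrankEq ℝ _ hfr
  have hc : ∀ i : Fin M.rank, ∃ c : κ → ℝ, M.mulVecLin c = (b i : ι → ℝ) := fun i => (b i).2
  choose c hc using hc
  let C : Matrix κ (Fin M.rank) ℝ := Matrix.of fun k i => c i k
  have hMC : ∀ x : Fin M.rank → ℝ, (M * C).mulVecLin x = ∑ i, x i • (b i : ι → ℝ) := by
    intro x
    have h1 : C.mulVec x = ∑ i, x i • c i := by
      ext k
      simp [C, Matrix.mulVec, dotProduct, mul_comm]
    rw [Matrix.mulVecLin_apply, ← Matrix.mulVec_mulVec, h1, ← Matrix.mulVecLin_apply, map_sum]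
    refine Finset.sum_congr rfl fun i _ => ?_
    rw [map_smul, hc i]
  have hinj : LinearMap.ker (M * C).mulVecLin = ⊥ := by
    rw [LinearMap.ker_eq_bot']
    intro x hx
    rw [hMC] at hx
    have h2 : ∑ i, x i • b i = 0 := by
      apply Subtype.ext
      rw [Submodule.coe_sum, Submodule.coe_zero]
      rw [← hx]
      refine Finset.sum_congr rfl fun i _ => ?_
      rw [Submodule.coe_smul]
    ext i
    exact (Fintype.linearIndependent_iff.1 b.linearIndependent) x h2 i
  obtain ⟨g, hg⟩ := LinearMap.exists_leftInverse_of_injective _ hinj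
  refine ⟨LinearMap.toMatrix' g, C, ?_⟩
  have h3 : LinearMap.toMatrix' (g.comp (M * C).mulVecLin) = 1 := by
    rw [hg, LinearMap.toMatrix'_id]
  rw [LinearMap.toMatrix'_comp, ← Matrix.toLin'_apply', LinearMap.toMatrix'_toLin'] at h3
  rw [Matrix.mul_assoc, h3]

theorem st_rk : StRk := by
  intro ι κ _ _ _ _ P
  obtain ⟨A, C, hAC⟩ := rk_two_sided (P.map (Polynomial.eval 0))
  set D : Polynomial ℝ := (A.map Polynomial.C * P * C.map Polynomial.C).det with hD
  have hev : ∀ s : ℝ, D.eval s = (A * P.map (Polynomial.eval s) * C).det := by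
    intro s
    have h1 : D.eval s = Polynomial.evalRingHom s D := rfl
    rw [h1, hD, RingHom.map_det]
    congr 1
    rw [RingHom.mapMatrix_apply, Matrix.map_mul, Matrix.map_mul, Matrix.map_map, Matrix.map_map]
    have e1 : (A.map (⇑(Polynomial.evalRingHom s) ∘ ⇑Polynomial.C)) = A := by
      ext i j
      simp
    have e2 : (C.map (⇑(Polynomial.evalRingHom s) ∘ ⇑Polynomial.C)) = C := by
      ext i j
      simp
    rw [e1, e2]
    rfl
  have hD0 : D ≠ 0 := by
    intro h
    have h1 := hev 0
    rw [h, Polynomial.eval_zero, hAC, Matrix.det_one] at h1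
    exact zero_ne_one h1
  refine (Polynomial.finite_setOf_isRoot hD0).subset fun s hs => ?_
  by_contra hn
  have hn' : D.eval s ≠ 0 := hn
  rw [hev s] at hn'
  have h2 := Matrix.rank_of_det_ne_zero hn'
  rw [Fintype.card_fin] at h2
  have h3 : (A * P.map (Polynomial.eval s) * C).rank ≤ (P.map (Polynomial.eval s)).rank :=
    (Matrix.rank_mul_le_left _ _).trans (Matrix.rank_mul_le_right _ _)
  rw [h2] at h3
  have hs' : (P.map (Polynomial.eval s)).rank < (P.map (Polynomial.eval 0)).rank := hs
  omega

end Pool.Agent.H14.CL
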