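import Pool.Agent.H14.CL.Blk
import Pool.Agent.H14.CL.Euler

/-!
Project CL, row D9: semicontinuity of the homology.
-/

set_option autoImplicit false

namespace Pool.Agent.H14.CL

open Finset Module

section polys

variable {V W : Type} [AddCommGroup V] [Module ℝ V] [AddCommGroup W] [Module ℝ W]

/-- families of linear maps, polynomial in the parameter -/
def PolFam (f : ℝ → V →ₗ[ℝ] W) : Prop :=
  ∀ (x : V) (φ : W →ₗ[ℝ] ℝ), ∃ p : Polynomial ℝ, ∀ s, φ (f s x) = p.eval s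

/-- semicontinuity of the rank for polynomial families -/
theorem sc_rank (h1 : StRk) [FiniteDimensional ℝ V] [FiniteDimensional ℝ W]
    {f : ℝ → V →ₗ[ℝ] W} (hf : PolFam f) :
    {s : ℝ | finrank ℝ (LinearMap.range (f s)) < finrank ℝ (LinearMap.range (f 0))}.Finite := by
  classical
  choose p hp using hf
  let b := finBasis ℝ V
  let c := finBasis ℝ W
  let P : Matrix (Fin (finrank ℝ W)) (Fin (finrank ℝ V)) (Polynomial ℝ) :=
    Matrix.of fun i j => p (b j) (c.coord i)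
  have hP : ∀ s, (P.map (Polynomial.eval s)).rank = finrank ℝ (LinearMap.range (f s)) := by
    intro s
    have h : P.map (Polynomial.eval s) = LinearMap.toMatrix b c (f s) := by
      ext i j
      rw [LinearMap.toMatrix_apply, Matrix.map_apply]
      change Polynomial.eval s (p (b j) (c.coord i)) = c.coord i (f s (b j))
      exact (hp (b j) (c.coord i) s).symm
    rw [h, Matrix.rank_eq_finrank_range_toLin _ c b, Matrix.toLin_toMatrix]
  have h2 := h1 _ _ P
  simp only [hP] at h2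
  exact h2

end polys

section lemmas

variable {n : ℕ} {S : Type} [AddCommGroup S] [Module ℝ S]

/-- the operators of a list form a polynomial family -/
theorem sc_opL (e₀ e₁ : Fin n → S →ₗ[ℝ] S) (l : List (Fin n)) :
    PolFam (fun s : ℝ => opL (fun v => e₀ v + s • e₁ v) l) := by
  induction l with
  | nil =>
    intro x φ
    exact ⟨Polynomial.C (φ x), fun s => by simp [opL]⟩
  | cons u l ih =>
    intro x φ
    obtain ⟨p, hp⟩ := ih (e₀ u x) φ
    obtain ⟨q, hq⟩ := ih (e₁ u x) φ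
    refine ⟨p + Polynomial.X * q, fun s => ?_⟩
    simp only [opL, LinearMap.comp_apply, LinearMap.add_apply, LinearMap.smul_apply, map_add,
      map_smul, smul_eq_mul, Polynomial.eval_add, Polynomial.eval_mul, Polynomial.eval_X]
    rw [← hp s, ← hq s]

/-- the generators of the chains -/
noncomputable def scD (L : Finset (Finset (Fin n))) (e : Fin n → S →ₗ[ℝ] S) (j : ℕ) :
    (Finset (Fin n) → S) →ₗ[ℝ] (Finset (Fin n) → S) :=
  LinearMap.pi fun G => if G ∈ L ∧ G.card = j then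
    opL e (G.sort (· ≤ ·)) ∘ₗ LinearMap.proj G else 0

theorem scD_apply (L : Finset (Finset (Fin n))) (e : Fin n → S →ₗ[ℝ] S) (j : ℕ)
    (y : Finset (Fin n) → S) (G : Finset (Fin n)) :
    scD L e j y G = if G ∈ L ∧ G.card = j then opL e (G.sort (· ≤ ·)) (y G) else 0 := by
  rw [scD, LinearMap.pi_apply]
  split_ifs
  · rfl
  · rfl

theorem scD_range {L : Finset (Finset (Fin n))} {e : Fin n → S →ₗ[ℝ] S}
    (h : ∀ G ∈ L, LinearMap.range (opL e (G.sort (· ≤ ·))) = KK ⊤ e G) (j : ℕ) :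
    LinearMap.range (scD L e j) = Ch L ⊤ e univ j := by
  ext x
  rw [LinearMap.mem_range, mem_Ch]
  constructor
  · rintro ⟨y, rfl⟩ G
    rw [scD_apply]
    by_cases hG : G ∈ L ∧ G.card = j
    · rw [if_pos hG, ← h G hG.1]
      exact ⟨⟨y G, rfl⟩, fun h2 => absurd ⟨hG.1, subset_univ _, hG.2⟩ h2⟩
    · rw [if_neg hG]
      exact ⟨Submodule.zero_mem _, fun _ => rfl⟩
  · intro hx
    have h2 : ∀ G, ∃ y : S, G ∈ L → opL e (G.sort (· ≤ ·)) y = x G := by
      intro G
      by_cases hG : G ∈ L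
      · have h3 := (hx G).1
        rw [← h G hG] at h3
        obtain ⟨y, hy⟩ := h3
        exact ⟨y, fun _ => hy⟩
      · exact ⟨0, fun h => absurd h hG⟩
    choose y hy using h2
    refine ⟨y, ?_⟩
    funext G
    rw [scD_apply]
    by_cases hG : G ∈ L ∧ G.card = j
    · rw [if_pos hG, hy G hG.1]
    · rw [if_neg hG]
      exact ((hx G).2 fun h3 => hG ⟨h3.1, h3.2.2⟩).symm

/-- the boundaries form a polynomial family -/
theorem sc_bdD (L : Finset (Finset (Fin n))) (e₀ e₁ : Fin n → S →ₗ[ℝ] S) (j : ℕ) :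
    PolFam (fun s : ℝ => bd ℝ ∘ₗ scD L (fun v => e₀ v + s • e₁ v) j) := by
  intro x φ
  have h : ∀ G : Finset (Fin n), ∃ p : Polynomial ℝ, ∀ s : ℝ,
      φ (bd ℝ (Pi.single G (scD L (fun v => e₀ v + s • e₁ v) j x G))) = p.eval s := by
    intro G
    by_cases hG : G ∈ L ∧ G.card = j
    · obtain ⟨p, hp⟩ := sc_opL e₀ e₁ (G.sort (· ≤ ·)) (x G)
        (φ ∘ₗ bd ℝ ∘ₗ LinearMap.single ℝ (fun _ : Finset (Fin n) => S) G)
      refine ⟨p, fun s => ?_⟩
      rw [← hp s, scD_apply, if_pos hG]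
      rfl
    · refine ⟨0, fun s => ?_⟩
      rw [scD_apply, if_neg hG, Pi.single_zero, map_zero, map_zero, Polynomial.eval_zero]
  choose p hp using h
  refine ⟨∑ G, p G, fun s => ?_⟩
  rw [Polynomial.eval_finsetSum]
  simp only [← hp]
  rw [LinearMap.comp_apply, ← map_sum, ← map_sum, Finset.univ_sum_single]

/-- rank and nullity for a restriction -/
private theorem sc_rn {V : Type} [AddCommGroup V] [Module ℝ V] [FiniteDimensional ℝ V]
    (f : V →ₗ[ℝ] V) (p : Submodule ℝ V) :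
    finrank ℝ (p.map f) + finrank ℝ (p ⊓ LinearMap.ker f : Submodule ℝ V) = finrank ℝ p := by
  have h := LinearMap.finrank_range_add_finrank_ker (f.domRestrict p)
  rw [LinearMap.range_domRestrict] at h
  rw [← h, (p.equivSubtypeMap (LinearMap.ker (f.domRestrict p))).finrank_eq,
    LinearMap.ker_domRestrict, Submodule.map_comap_subtype]

/-- chains as families -/
private def sc_equiv (Δ : Finset (Finset (Fin n))) (U : Submodule ℝ S) (e : Fin n → S →ₗ[ℝ] S)
    (j : ℕ) : Ch Δ U e univ j ≃ₗ[ℝ] ((F : {F : Finset (Fin n) // F ∈ Δ ∧ F.card = j}) →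
      KK U e F.1) where
  toFun x := fun F => ⟨x.1 F.1, (x.2 F.1).1⟩
  map_add' := fun x y => rfl
  map_smul' := fun c x => rfl
  invFun y := ⟨fun G => if h : G ∈ Δ ∧ G.card = j then (y ⟨G, h⟩ : S) else 0, fun G => by
    constructor
    · by_cases h : G ∈ Δ ∧ G.card = j
      · simp only [dif_pos h]
        exact (y ⟨G, h⟩).2
      · simp only [dif_neg h]
        exact (KK U e G).zero_mem
    · intro hG
      have h : ¬ (G ∈ Δ ∧ G.card = j) := fun h => hG ⟨h.1, subset_univ _, h.2⟩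
      simp only [dif_neg h]⟩
  left_inv x := by
    apply Subtype.ext
    funext G
    by_cases h : G ∈ Δ ∧ G.card = j
    · simp only [dif_pos h]
    · simp only [dif_neg h]
      exact ((x.2 G).2 fun h2 => h ⟨h2.1, h2.2.2⟩).symm
  right_inv y := by
    funext F
    apply Subtype.ext
    simp only [dif_pos F.2]

private theorem sc_finrank_Ch [FiniteDimensional ℝ S] (Δ : Finset (Finset (Fin n)))
    (U : Submodule ℝ S) (e : Fin n → S →ₗ[ℝ] S) (j : ℕ) :
    finrank ℝ (Ch Δ U e univ j) =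
      ∑ F ∈ Δ.filter (fun F => F.card = j), finrank ℝ (KK U e F) := by
  classical
  rw [(sc_equiv Δ U e j).finrank_eq, Module.finrank_pi_fintype]
  symm
  refine Finset.sum_subtype _ (fun F => ?_) _
  rw [mem_filter]

/-- the dimension of the chains does not depend on the operators -/
theorem sc_dim [FiniteDimensional ℝ S] {L : Finset (Finset (Fin n))}
    {e e' : Fin n → S →ₗ[ℝ] S}
    (h : ∀ G ∈ L, finrank ℝ (KK ⊤ e G) * 2 ^ G.card = finrank ℝ S)
    (h' : ∀ G ∈ L, finrank ℝ (KK ⊤ e' G) * 2 ^ G.card = finrank ℝ S) (j : ℕ) :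
    finrank ℝ (Ch L ⊤ e univ j) = finrank ℝ (Ch L ⊤ e' univ j) := by
  rw [sc_finrank_Ch, sc_finrank_Ch]
  refine Finset.sum_congr rfl fun F hF => ?_
  have hF' := (mem_filter.mp hF).1
  have h3 : finrank ℝ (KK ⊤ e F) * 2 ^ F.card = finrank ℝ (KK ⊤ e' F) * 2 ^ F.card := by
    rw [h F hF', h' F hF']
  exact Nat.eq_of_mul_eq_mul_right (by positivity) h3

end lemmas

/-- D9: semicontinuity of the homology -/
theorem st_sc (h1 : StRk) (h2 : StPar) : StSC := by
  intro n S _ _ _ L e₀ e₁ hL hanti hkos hex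
  classical
  have hpar : ∀ s : ℝ, ∀ G ∈ L,
      LinearMap.range (opL (fun v => e₀ v + s • e₁ v) (G.sort (· ≤ ·))) =
        KK ⊤ (fun v => e₀ v + s • e₁ v) G ∧
      finrank ℝ (KK ⊤ (fun v => e₀ v + s • e₁ v) G) * 2 ^ G.card = finrank ℝ S :=
    fun s => h2 n S L (fun v => e₀ v + s • e₁ v) hL (hanti s) (hkos s)
  have hE0 : (fun v => e₀ v + (0 : ℝ) • e₁ v) = e₀ := by
    funext v
    rw [zero_smul, add_zero]
  -- the ranks
  have hrange : ∀ (s : ℝ) (j : ℕ),
      LinearMap.range (bd ℝ ∘ₗ scD L (fun v => e₀ v + s • e₁ v) j) =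
        (Ch L ⊤ (fun v => e₀ v + s • e₁ v) univ j).map (bd ℝ) := by
    intro s j
    rw [LinearMap.range_comp, scD_range (fun G hG => (hpar s G hG).1)]
  have hfin : ∀ j : ℕ, {s : ℝ |
      finrank ℝ ((Ch L ⊤ (fun v => e₀ v + s • e₁ v) univ j).map (bd ℝ)) <
        finrank ℝ ((Ch L ⊤ (fun v => e₀ v + (0 : ℝ) • e₁ v) univ j).map (bd ℝ))}.Finite := by
    intro j
    refine (sc_rank h1 (sc_bdD L e₀ e₁ j)).subset ?_
    intro s hs
    change finrank ℝ (LinearMap.range (bd ℝ ∘ₗ scD L (fun v => e₀ v + s • e₁ v) j)) <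
      finrank ℝ (LinearMap.range (bd ℝ ∘ₗ scD L (fun v => e₀ v + (0 : ℝ) • e₁ v) j))
    rw [hrange, hrange]
    exact hs
  have hunion : (⋃ j ∈ Finset.range (n + 2), {s : ℝ |
      finrank ℝ ((Ch L ⊤ (fun v => e₀ v + s • e₁ v) univ j).map (bd ℝ)) <
        finrank ℝ ((Ch L ⊤ (fun v => e₀ v + (0 : ℝ) • e₁ v) univ j).map (bd ℝ))}).Finite :=
    Set.Finite.biUnion (Finset.finite_toSet _) fun j _ => hfin j
  refine hunion.subset ?_
  intro s hs
  by_contra hs2
  apply hs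
  have hle : ∀ j, j < n + 2 →
      finrank ℝ ((Ch L ⊤ (fun v => e₀ v + (0 : ℝ) • e₁ v) univ j).map (bd ℝ)) ≤
        finrank ℝ ((Ch L ⊤ (fun v => e₀ v + s • e₁ v) univ j).map (bd ℝ)) := by
    intro j hj
    by_contra h3
    apply hs2
    rw [Set.mem_iUnion₂]
    exact ⟨j, Finset.mem_range.mpr hj, not_le.mp h3⟩
  intro j x hx hx2
  by_cases hj : n < j
  · -- no chains
    have hx0 : x = 0 := by
      funext G
      refine ((mem_Ch.mp hx) G).2 ?_
      rintro ⟨_, _, h5⟩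
      have h6 := card_le_univ G
      rw [Fintype.card_fin] at h6
      omega
    exact ⟨0, Submodule.zero_mem _, by rw [hx0, map_zero]⟩
  · have hj1 := hle j (by omega)
    have hj2 := hle (j + 1) (by omega)
    have hd := sc_dim (fun G hG => (hpar s G hG).2) (fun G hG => (hpar 0 G hG).2) j
    have hr1 := sc_rn (bd ℝ) (Ch L ⊤ (fun v => e₀ v + s • e₁ v) univ j)
    have hr2 := sc_rn (bd ℝ) (Ch L ⊤ (fun v => e₀ v + (0 : ℝ) • e₁ v) univ j)
    have hRZ : (Ch L ⊤ (fun v => e₀ v + s • e₁ v) univ (j + 1)).map (bd ℝ) ≤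
        Ch L ⊤ (fun v => e₀ v + s • e₁ v) univ j ⊓ LinearMap.ker (bd ℝ) := by
      rintro y ⟨z, hz, rfl⟩
      exact ⟨eu_bd_mem hL hz, LinearMap.mem_ker.mpr (eu_bd_bd z)⟩
    have hRZ0 : Ch L ⊤ (fun v => e₀ v + (0 : ℝ) • e₁ v) univ j ⊓ LinearMap.ker (bd ℝ) =
        (Ch L ⊤ (fun v => e₀ v + (0 : ℝ) • e₁ v) univ (j + 1)).map (bd ℝ) := by
      apply le_antisymm
      · rintro y ⟨hy, hy2⟩
        rw [hE0] at hy ⊢
        obtain ⟨z, hz, hz2⟩ := hex j y hy (LinearMap.mem_ker.mp hy2)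
        exact ⟨z, hz, hz2⟩
      · rintro y ⟨z, hz, rfl⟩
        exact ⟨eu_bd_mem hL hz, LinearMap.mem_ker.mpr (eu_bd_bd z)⟩
    rw [hRZ0] at hr2
    have h4 : finrank ℝ (Ch L ⊤ (fun v => e₀ v + s • e₁ v) univ j ⊓ LinearMap.ker (bd ℝ) :
        Submodule ℝ (Finset (Fin n) → S)) ≤
        finrank ℝ ((Ch L ⊤ (fun v => e₀ v + s • e₁ v) univ (j + 1)).map (bd ℝ)) := by
      omega
    have h5 := Submodule.eq_of_le_of_finrank_le hRZ h4
    have h6 : x ∈ (Ch L ⊤ (fun v => e₀ v + s • e₁ v) univ (j + 1)).map (bd ℝ) := by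
      rw [h5]
      exact ⟨hx, LinearMap.mem_ker.mpr hx2⟩
    obtain ⟨y, hy, hy2⟩ := h6
    exact ⟨y, hy, hy2⟩

end Pool.Agent.H14.CL
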