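import Pool.Agent.H14.CL.Stm3
import Pool.Agent.H14.CL.SC

/-!
Project CL, row F8: semicontinuity of the homology in one degree.
-/

set_option autoImplicit false

namespace Pool.Agent.H14.CL

open Finset Module

/-- rank and nullity for a restriction -/
private theorem sck_rn {V : Type} [AddCommGroup V] [Module ℝ V] [FiniteDimensional ℝ V]
    (f : V →ₗ[ℝ] V) (p : Submodule ℝ V) :
    finrank ℝ (p.map f) + finrank ℝ (p ⊓ LinearMap.ker f : Submodule ℝ V) = finrank ℝ p := by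
  have h := LinearMap.finrank_range_add_finrank_ker (f.domRestrict p)
  rw [LinearMap.range_domRestrict] at h
  rw [← h, (p.equivSubtypeMap (LinearMap.ker (f.domRestrict p))).finrank_eq,
    LinearMap.ker_domRestrict, Submodule.map_comap_subtype]

/-- F8: semicontinuity of the homology in degree `j` -/
theorem st_scK (h1 : StRk) (h2 : StPar) : StSCK := by
  intro n j S _ _ _ L e₀ e₁ hL hanti hkos hex
  classical
  have hpar : ∀ s : ℝ, ∀ G ∈ L,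
      LinearMap.range (opL (fun v => e₀ v + s • e₁ v) (G.sort (· ≤ ·))) =
        KK ⊤ (fun v => e₀ v + s • e₁ v) G ∧
      finrank ℝ (KK ⊤ (fun v => e₀ v + s • e₁ v) G) * 2 ^ G.card = finrank ℝ S :=
    fun s => h2 n S L (fun v => e₀ v + s • e₁ v) hL (hanti s) (hkos s)
  have hE0 : (fun v => e₀ v + (0 : ℝ) • e₁ v) = e₀ := by
    funext v
    rw [zero_smul, add_zero]
  -- the ranks
  have hrange : ∀ (s : ℝ) (j : ℕ),
      LinearMap.range (bd ℝ ∘ₗ scD L (fun v => e₀ v + s • e₁ v) j) =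
        (Ch L ⊤ (fun v => e₀ v + s • e₁ v) univ j).map (bd ℝ) := by
    intro s j
    rw [LinearMap.range_comp, scD_range (fun G hG => (hpar s G hG).1)]
  have hfin : ∀ j : ℕ, {s : ℝ |
      finrank ℝ ((Ch L ⊤ (fun v => e₀ v + s • e₁ v) univ j).map (bd ℝ)) <
        finrank ℝ ((Ch L ⊤ (fun v => e₀ v + (0 : ℝ) • e₁ v) univ j).map (bd ℝ))}.Finite := by
    intro j
    refine (sc_rank h1 (sc_bdD L e₀ e₁ j)).subset ?_
    intro s hs
    change finrank ℝ (LinearMap.range (bd ℝ ∘ₗ scD L (fun v => e₀ v + s • e₁ v) j)) <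
      finrank ℝ (LinearMap.range (bd ℝ ∘ₗ scD L (fun v => e₀ v + (0 : ℝ) • e₁ v) j))
    rw [hrange, hrange]
    exact hs
  refine ((hfin j).union (hfin (j + 1))).subset ?_
  intro s hs
  by_contra hs2
  apply hs
  rw [Set.mem_union, not_or] at hs2
  have hj1' : finrank ℝ ((Ch L ⊤ (fun v => e₀ v + (0 : ℝ) • e₁ v) univ j).map (bd ℝ)) ≤
      finrank ℝ ((Ch L ⊤ (fun v => e₀ v + s • e₁ v) univ j).map (bd ℝ)) :=
    not_lt.mp fun h => hs2.1 h
  have hj2' : finrank ℝ ((Ch L ⊤ (fun v => e₀ v + (0 : ℝ) • e₁ v) univ (j + 1)).map (bd ℝ)) ≤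
      finrank ℝ ((Ch L ⊤ (fun v => e₀ v + s • e₁ v) univ (j + 1)).map (bd ℝ)) :=
    not_lt.mp fun h => hs2.2 h
  intro x hx hx2
  have hd := sc_dim (fun G hG => (hpar s G hG).2) (fun G hG => (hpar 0 G hG).2) j
  have hr1 := sck_rn (bd ℝ) (Ch L ⊤ (fun v => e₀ v + s • e₁ v) univ j)
  have hr2 := sck_rn (bd ℝ) (Ch L ⊤ (fun v => e₀ v + (0 : ℝ) • e₁ v) univ j)
  have hRZ : (Ch L ⊤ (fun v => e₀ v + s • e₁ v) univ (j + 1)).map (bd ℝ) ≤
      Ch L ⊤ (fun v => e₀ v + s • e₁ v) univ j ⊓ LinearMap.ker (bd ℝ) := by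
    rintro y ⟨z, hz, rfl⟩
    exact ⟨eu_bd_mem hL hz, LinearMap.mem_ker.mpr (eu_bd_bd z)⟩
  have hRZ0 : Ch L ⊤ (fun v => e₀ v + (0 : ℝ) • e₁ v) univ j ⊓ LinearMap.ker (bd ℝ) =
      (Ch L ⊤ (fun v => e₀ v + (0 : ℝ) • e₁ v) univ (j + 1)).map (bd ℝ) := by
    apply le_antisymm
    · rintro y ⟨hy, hy2⟩
      rw [hE0] at hy ⊢
      obtain ⟨z, hz, hz2⟩ := hex y hy (LinearMap.mem_ker.mp hy2)
      exact ⟨z, hz, hz2⟩
    · rintro y ⟨z, hz, rfl⟩
      exact ⟨eu_bd_mem hL hz, LinearMap.mem_ker.mpr (eu_bd_bd z)⟩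
  rw [hRZ0] at hr2
  have h4 : finrank ℝ (Ch L ⊤ (fun v => e₀ v + s • e₁ v) univ j ⊓ LinearMap.ker (bd ℝ) :
      Submodule ℝ (Finset (Fin n) → S)) ≤
      finrank ℝ ((Ch L ⊤ (fun v => e₀ v + s • e₁ v) univ (j + 1)).map (bd ℝ)) := by
    omega
  have h5 := Submodule.eq_of_le_of_finrank_le hRZ h4
  have h6 : x ∈ (Ch L ⊤ (fun v => e₀ v + s • e₁ v) univ (j + 1)).map (bd ℝ) := by
    rw [h5]
    exact ⟨hx, LinearMap.mem_ker.mpr hx2⟩
  obtain ⟨y, hy, hy2⟩ := h6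
  exact ⟨y, hy, hy2⟩

end Pool.Agent.H14.CL
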