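import Pool.Agent.H14.CL.Defs

/-!
Project CL: identities of the signs `tau`, `sh`, and elementary facts on links.
-/

set_option autoImplicit false

namespace Pool.Agent.H14.CL

open Finset

variable {n : ℕ}

section ring
variable (K : Type*) [CommRing K]

theorem neg_one_sq_pow (k : ℕ) : ((-1 : K) ^ k) * (-1) ^ k = 1 := by
  rw [← mul_pow]; simp

theorem tau_sq (u : Fin n) (N : Finset (Fin n)) : tau K u N * tau K u N = 1 :=
  neg_one_sq_pow K _

theorem sh_sq (N M : Finset (Fin n)) : sh K N M * sh K N M = 1 := neg_one_sq_pow K _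

theorem tau_insert_self (u : Fin n) (N : Finset (Fin n)) : tau K u (insert u N) = tau K u N := by
  unfold tau
  congr 2
  ext x
  simp only [mem_filter, mem_insert]
  constructor
  · rintro ⟨h | h, h'⟩
    · exact absurd h' (by rw [h]; exact lt_irrefl _)
    · exact ⟨h, h'⟩
  · rintro ⟨h, h'⟩
    exact ⟨Or.inr h, h'⟩

theorem tau_erase_self (u : Fin n) (N : Finset (Fin n)) : tau K u (N.erase u) = tau K u N := by
  rw [← tau_insert_self K u (N.erase u)]
  by_cases h : u ∈ N
  · rw [insert_erase h]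
  · rw [erase_eq_of_notMem h, tau_insert_self]

theorem tau_empty (u : Fin n) : tau K u (∅ : Finset (Fin n)) = 1 := by simp [tau]

theorem tau_union (u : Fin n) {N M : Finset (Fin n)} (h : Disjoint N M) :
    tau K u (N ∪ M) = tau K u N * tau K u M := by
  unfold tau
  rw [← pow_add, filter_union, card_union_of_disjoint (disjoint_filter_filter h)]

theorem tau_insert {u x : Fin n} {N : Finset (Fin n)} (h : x ∉ N) :
    tau K u (insert x N) = (if x < u then -1 else 1) * tau K u N := by
  rw [insert_eq, tau_union K u (disjoint_singleton_left.2 h)]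
  congr 1
  unfold tau
  split_ifs with h'
  · simp [filter_singleton, h']
  · simp [filter_singleton, h']

theorem tau_swap {u v : Fin n} {N : Finset (Fin n)} (huv : u ≠ v) (hu : u ∉ N) (hv : v ∉ N) :
    tau K u (insert v N) * tau K v N = -(tau K v (insert u N) * tau K u N) := by
  rw [tau_insert K hv, tau_insert K hu]
  rcases lt_or_gt_of_ne huv with h | h
  · rw [if_neg (not_lt.2 h.le), if_pos h]; ring
  · rw [if_pos h, if_neg (not_lt.2 h.le)]; ring

/-- a second form of the exchange rule -/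
theorem tau_swap' {u v : Fin n} {N : Finset (Fin n)} (huv : u ≠ v) (hu : u ∉ N) (hv : v ∉ N) :
    tau K u (insert v N) * tau K v (insert u N) = -(tau K v N * tau K u N) := by
  rw [tau_insert K hv, tau_insert K hu]
  rcases lt_or_gt_of_ne huv with h | h
  · rw [if_neg (not_lt.2 h.le), if_pos h]; ring
  · rw [if_pos h, if_neg (not_lt.2 h.le)]; ring

theorem tau_swap_erase {u v : Fin n} {N : Finset (Fin n)} (huv : u ≠ v) (hu : u ∈ N)
    (hv : v ∈ N) :
    tau K u N * tau K v (N.erase u) = -(tau K v N * tau K u (N.erase v)) := by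
  have h1 : insert v ((N.erase u).erase v) = N.erase u :=
    insert_erase (mem_erase.2 ⟨huv.symm, hv⟩)
  have h2 : insert u ((N.erase u).erase v) = N.erase v := by
    rw [erase_right_comm]
    exact insert_erase (mem_erase.2 ⟨huv, hu⟩)
  have h := tau_swap K (N := (N.erase u).erase v) huv (by simp) (by simp)
  rw [h1, h2] at h
  rw [tau_erase_self K u N] at h
  rw [tau_erase_self K v N] at h
  have h3 : tau K v ((N.erase u).erase v) = tau K v (N.erase u) := tau_erase_self K v _
  have h4 : tau K u ((N.erase u).erase v) = tau K u (N.erase v) := by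
    rw [erase_right_comm]; exact tau_erase_self K u _
  rw [h3, h4] at h
  rw [h]

theorem sh_empty_left (M : Finset (Fin n)) : sh K (∅ : Finset (Fin n)) M = 1 := by simp [sh]

theorem sh_empty_right (M : Finset (Fin n)) : sh K M (∅ : Finset (Fin n)) = 1 := by simp [sh]

theorem sh_union_left {N N' : Finset (Fin n)} (M : Finset (Fin n)) (h : Disjoint N N') :
    sh K (N ∪ N') M = sh K N M * sh K N' M := by
  unfold sh
  rw [← pow_add, union_product, filter_union, card_union_of_disjoint]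
  refine disjoint_filter_filter ?_
  rw [disjoint_left] at h ⊢
  intro p hp hp'
  exact h (mem_product.1 hp).1 (mem_product.1 hp').1

theorem sh_union_right {M M' : Finset (Fin n)} (N : Finset (Fin n)) (h : Disjoint M M') :
    sh K N (M ∪ M') = sh K N M * sh K N M' := by
  unfold sh
  rw [← pow_add, product_union, filter_union, card_union_of_disjoint]
  refine disjoint_filter_filter ?_
  rw [disjoint_left] at h ⊢
  intro p hp hp'
  exact h (mem_product.1 hp).2 (mem_product.1 hp').2

theorem sh_singleton_left (u : Fin n) (M : Finset (Fin n)) : sh K {u} M = tau K u M := by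
  unfold sh tau
  congr 1
  refine card_bij (fun p _ => p.2) ?_ ?_ ?_
  · rintro ⟨a, b⟩ h
    simp only [mem_filter, mem_product, mem_singleton] at h ⊢
    exact ⟨h.1.2, h.1.1 ▸ h.2⟩
  · rintro ⟨a, b⟩ h ⟨a', b'⟩ h' hb
    simp only [mem_filter, mem_product, mem_singleton] at h h' hb ⊢
    rw [h.1.1, h'.1.1, hb]
  · intro b hb
    simp only [mem_filter] at hb
    exact ⟨(u, b), by simp [hb], rfl⟩

theorem sh_singleton_right {u : Fin n} {N : Finset (Fin n)} (hu : u ∉ N) :
    sh K N {u} = (-1) ^ N.card * tau K u N := by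
  have h1 : sh K N {u} = (-1) ^ (N.filter (fun x => u < x)).card := by
    unfold sh
    congr 1
    refine card_bij (fun p _ => p.1) ?_ ?_ ?_
    · rintro ⟨a, b⟩ h
      simp only [mem_filter, mem_product, mem_singleton] at h ⊢
      exact ⟨h.1.1, h.1.2 ▸ h.2⟩
    · rintro ⟨a, b⟩ h ⟨a', b'⟩ h' hb
      simp only [mem_filter, mem_product, mem_singleton] at h h' hb ⊢
      rw [h.1.2, h'.1.2, hb]
    · intro b hb
      simp only [mem_filter] at hb
      exact ⟨(b, u), by simp [hb], rfl⟩
  have h2 : N.card = (N.filter (fun x => x < u)).card + (N.filter (fun x => u < x)).card := by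
    rw [← card_filter_add_card_filter_not (s := N) (fun x => x < u)]
    congr 2
    ext x
    simp only [mem_filter, not_lt]
    constructor
    · rintro ⟨hx, hx'⟩
      exact ⟨hx, lt_of_le_of_ne hx' (fun he => hu (he ▸ hx))⟩
    · rintro ⟨hx, hx'⟩
      exact ⟨hx, hx'.le⟩
  rw [h1, h2, tau, pow_add]
  have h3 := neg_one_sq_pow K (N.filter (fun x => x < u)).card
  linear_combination -(-1 : K) ^ (N.filter (fun x => u < x)).card * h3

theorem sh_insert_left {u : Fin n} {N : Finset (Fin n)} (M : Finset (Fin n)) (hu : u ∉ N) :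
    sh K (insert u N) M = tau K u M * sh K N M := by
  rw [insert_eq, sh_union_left K M (disjoint_singleton_left.2 hu), sh_singleton_left]

theorem sh_insert_right {u : Fin n} {N M : Finset (Fin n)} (hu : u ∉ M) (hN : u ∉ N) :
    sh K N (insert u M) = (-1) ^ N.card * tau K u N * sh K N M := by
  rw [insert_eq, sh_union_right K N (disjoint_singleton_left.2 hu), sh_singleton_right K hN]

theorem sh_comm {N M : Finset (Fin n)} (h : Disjoint N M) :
    sh K N M = (-1) ^ (N.card * M.card) * sh K M N := by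
  induction N using Finset.induction_on with
  | empty => simp [sh_empty_left, sh_empty_right]
  | insert u N hu ih =>
    rw [disjoint_insert_left] at h
    rw [sh_insert_left K M hu, sh_insert_right K hu h.1, ih h.2, card_insert_of_notMem hu, add_mul,
      one_mul, pow_add]
    have h3 := neg_one_sq_pow K M.card
    linear_combination -(tau K u M * (-1) ^ (N.card * M.card) * sh K M N) * h3

end ring

/-! ### links -/

theorem mem_lk {Δ : Finset (Finset (Fin n))} {u : Fin n} {G : Finset (Fin n)} :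
    G ∈ lk Δ u ↔ G ∈ Δ ∧ u ∉ G ∧ insert u G ∈ Δ := by
  simp [lk]

theorem mem_lkF {Δ : Finset (Finset (Fin n))} {F G : Finset (Fin n)} :
    G ∈ lkF Δ F ↔ G ∈ Δ ∧ G ∩ F = ∅ ∧ G ∪ F ∈ Δ := by
  simp [lkF]

/-- closed under subsets -/
def Down (Δ : Finset (Finset (Fin n))) : Prop := ∀ F ∈ Δ, ∀ G, G ⊆ F → G ∈ Δ

theorem Sph.dn {K : Type*} [Field K] {Δ : Finset (Finset (Fin n))} {ε : Finset (Fin n) → K}
    {d : ℕ} (h : Sph K Δ ε d) : Down Δ := h.down

theorem mem_lk' {Δ : Finset (Finset (Fin n))} (hd : Down Δ) {u : Fin n}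
    {G : Finset (Fin n)} : G ∈ lk Δ u ↔ u ∉ G ∧ insert u G ∈ Δ := by
  rw [mem_lk]
  exact ⟨fun h => h.2, fun h => ⟨hd _ h.2 _ (subset_insert _ _), h⟩⟩

theorem mem_lkF' {Δ : Finset (Finset (Fin n))} (hd : Down Δ) {F G : Finset (Fin n)} :
    G ∈ lkF Δ F ↔ Disjoint G F ∧ G ∪ F ∈ Δ := by
  rw [mem_lkF, disjoint_iff_inter_eq_empty]
  exact ⟨fun h => h.2, fun h => ⟨hd _ h.2 _ subset_union_left, h⟩⟩

theorem lk_sub {Δ : Finset (Finset (Fin n))} {u : Fin n} {G : Finset (Fin n)}
    (h : G ∈ lk Δ u) : G ∈ Δ := (mem_lk.1 h).1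

theorem down_lk {Δ : Finset (Finset (Fin n))} (hd : Down Δ) (u : Fin n) : Down (lk Δ u) := by
  intro F hF G hG
  rw [mem_lk' hd] at hF ⊢
  exact ⟨fun h => hF.1 (hG h), hd _ hF.2 _ (insert_subset_insert u hG)⟩

theorem lk_vertex {Δ : Finset (Finset (Fin n))} (hd : Down Δ) {u v : Fin n} :
    ({v} : Finset (Fin n)) ∈ lk Δ u ↔ u ≠ v ∧ ({u, v} : Finset (Fin n)) ∈ Δ := by
  rw [mem_lk' hd]; simp

theorem lk_vertex_sub {Δ : Finset (Finset (Fin n))} {u v : Fin n}
    (h : ({v} : Finset (Fin n)) ∈ lk Δ u) : ({v} : Finset (Fin n)) ∈ Δ := lk_sub h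

theorem lk_comm (Δ : Finset (Finset (Fin n))) (hd : Down Δ) (u v : Fin n) :
    lk (lk Δ u) v = lk (lk Δ v) u := by
  ext G
  rw [mem_lk' (down_lk hd u), mem_lk' (down_lk hd v), mem_lk' hd, mem_lk' hd]
  constructor
  · rintro ⟨h1, h2, h3⟩
    rw [mem_insert, not_or] at h2
    refine ⟨h2.2, ?_, ?_⟩
    · rw [mem_insert, not_or]; exact ⟨Ne.symm h2.1, h1⟩
    · rw [Finset.insert_comm]; exact h3
  · rintro ⟨h1, h2, h3⟩
    rw [mem_insert, not_or] at h2
    refine ⟨h2.2, ?_, ?_⟩
    · rw [mem_insert, not_or]; exact ⟨Ne.symm h2.1, h1⟩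
    · rw [Finset.insert_comm]; exact h3

/-- the link of a non-vertex is empty -/
theorem lk_eq_empty {Δ : Finset (Finset (Fin n))} (hd : Down Δ) {u : Fin n}
    (h : ({u} : Finset (Fin n)) ∉ Δ) : lk Δ u = ∅ := by
  ext G
  rw [mem_lk' hd]
  simp only [notMem_empty, iff_false, not_and]
  intro _ h2
  exact h (hd _ h2 _ (by simp))

theorem lkF_lk {Δ : Finset (Finset (Fin n))} (hd : Down Δ) {u : Fin n} {G : Finset (Fin n)}
    (hG : u ∉ G) : lkF (lk Δ u) G = lkF Δ (insert u G) := by
  ext N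
  rw [mem_lkF' (down_lk hd u), mem_lkF' hd, mem_lk' hd, disjoint_insert_right, union_insert]
  constructor
  · rintro ⟨h1, h2, h3⟩
    exact ⟨⟨fun h => h2 (mem_union_left _ h), h1⟩, h3⟩
  · rintro ⟨⟨h1, h2⟩, h3⟩
    refine ⟨h2, ?_, h3⟩
    rw [mem_union, not_or]; exact ⟨h1, hG⟩

section KKs

variable {K : Type*} [Field K] {S : Type*} [AddCommGroup S] [Module K S]

theorem KK_KK (U : Submodule K S) (e : Fin n → S →ₗ[K] S) (F G : Finset (Fin n)) :
    KK (KK U e F) e G = KK U e (F ∪ G) := by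
  ext x
  simp only [mem_KK, mem_union]
  constructor
  · rintro ⟨⟨h1, h2⟩, h3⟩
    exact ⟨h1, fun v hv => hv.elim (h2 v) (h3 v)⟩
  · rintro ⟨h1, h2⟩
    exact ⟨⟨h1, fun v hv => h2 v (Or.inl hv)⟩, fun v hv => h2 v (Or.inr hv)⟩

theorem KK_single_KK (U : Submodule K S) (e : Fin n → S →ₗ[K] S) (u : Fin n)
    (G : Finset (Fin n)) : KK (KK U e {u}) e G = KK U e (insert u G) := by
  rw [KK_KK, insert_eq]

theorem KK_comm (U : Submodule K S) (e : Fin n → S →ₗ[K] S) (u v : Fin n) :
    KK (KK U e {u}) e {v} = KK (KK U e {v}) e {u} := by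
  rw [KK_KK, KK_KK, union_comm]

theorem KK_empty (U : Submodule K S) (e : Fin n → S →ₗ[K] S) : KK U e ∅ = U := by
  ext x
  simp [mem_KK]

theorem KK_anti (U : Submodule K S) (e : Fin n → S →ₗ[K] S) {F G : Finset (Fin n)}
    (h : F ⊆ G) : KK U e G ≤ KK U e F :=
  fun _ hx => ⟨hx.1, fun v hv => hx.2 v (h hv)⟩

theorem KK_le (U : Submodule K S) (e : Fin n → S →ₗ[K] S) (G : Finset (Fin n)) :
    KK U e G ≤ U := fun _ hx => hx.1

end KKs

end Pool.Agent.H14.CL
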