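import Pool.Agent.H14.CL.Stm4
import Pool.Agent.H14.CL.ChA

/-!
Project CL, fourth part, row A5: the two sides of an edge of an induced 4-cycle.
-/

set_option autoImplicit false

namespace Pool.Agent.H14.CL

open Finset

variable {n : ℕ}

private theorem sa_nz (u : Fin n) (N : Finset (Fin n)) : tau ℝ u N ≠ 0 := by
  unfold tau
  exact pow_ne_zero _ (by norm_num)

private theorem sa_ed {L : Finset (Finset (Fin n))} (hd : Down L) {F : Finset (Fin n)}
    (hF : F ∈ L) {x y : Fin n} (hx : x ∈ F) (hy : y ∈ F) (hxy : x ≠ y) : Ed L x y := by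
  refine ⟨hxy, hd F hF _ ?_⟩
  intro v hv
  rcases mem_insert.1 hv with rfl | hv
  · exact hx
  · rw [mem_singleton.1 hv]
    exact hy

private theorem sa_vx {L : Finset (Finset (Fin n))} (hd : Down L) {F : Finset (Fin n)}
    (hF : F ∈ L) {x : Fin n} (hx : x ∈ F) : {x} ∈ L :=
  hd F hF _ (singleton_subset_iff.2 hx)

/-- a triangle at a vertex -/
private theorem sa_tri {L : Finset (Finset (Fin n))} (hL : P3 L) {x : Fin n} (hx : {x} ∈ L) :
    ∃ F ∈ L, F.card = 3 ∧ x ∈ F := by
  obtain ⟨y, hy⟩ := hL.nb x hx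
  obtain ⟨z, -, -, hxz, hyz, -⟩ := hL.two x y hy
  refine ⟨{x, y, z}, hL.tri hy hxz hyz, ?_, mem_insert_self _ _⟩
  rw [card_eq_three]
  exact ⟨x, y, z, hy.1, hxz.1, hyz.1, rfl⟩

/-- edges inside the cycle -/
private theorem sa_in {L : Finset (Finset (Fin n))} (hL : P3 L) {a b c d : Fin n}
    (hC : C4 L a b c d) {G : Finset (Fin n)} (hG : G ∈ L) (h2 : G.card = 2)
    (hP : G ⊆ {a, b, c, d}) :
    G = {a, b} ∨ G = {b, c} ∨ G = {c, d} ∨ G = {a, d} := by
  obtain ⟨hab, hbc, hcd, hda, hac, hbd, nac, nbd⟩ := hC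
  obtain ⟨x, y, hxy, rfl⟩ := card_eq_two.1 h2
  have e : Ed L x y := ⟨hxy, hG⟩
  have hx := hP (mem_insert_self x {y})
  have hy := hP (mem_insert_of_mem (mem_singleton_self y) : y ∈ ({x, y} : Finset (Fin n)))
  simp only [mem_insert, mem_singleton] at hx hy
  rcases hx with rfl | rfl | rfl | rfl <;> rcases hy with rfl | rfl | rfl | rfl
  · exact absurd rfl hxy
  · exact Or.inl rfl
  · exact absurd e nac
  · exact Or.inr (Or.inr (Or.inr rfl))
  · exact Or.inl (pair_comm _ _)
  · exact absurd rfl hxy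
  · exact Or.inr (Or.inl rfl)
  · exact absurd e nbd
  · exact absurd e.symm nac
  · exact Or.inr (Or.inl (pair_comm _ _))
  · exact absurd rfl hxy
  · exact Or.inr (Or.inr (Or.inl rfl))
  · exact Or.inr (Or.inr (Or.inr (pair_comm _ _)))
  · exact absurd e.symm nbd
  · exact Or.inr (Or.inr (Or.inl (pair_comm _ _)))
  · exact absurd rfl hxy

/-- a closed function on the edges of the cycle at a vertex -/
private theorem sa_vert {q : Finset (Fin n) → ℝ} (hq : bd ℝ q = 0) {x y z : Fin n}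
    (hxy : x ≠ y) (hzy : z ≠ y) (hxz : x ≠ z)
    (h0 : ∀ u, u ≠ y → u ≠ x → u ≠ z → q {u, y} = 0) (h : q {x, y} = 0) : q {z, y} = 0 := by
  have h1 : bd ℝ q {y} = 0 := by rw [hq]; rfl
  have h3 : ({x, z} : Finset (Fin n)) ⊆ univ.filter (fun u => u ∉ ({y} : Finset (Fin n))) := by
    intro u hu
    rw [mem_filter, mem_singleton]
    refine ⟨mem_univ _, ?_⟩
    rcases mem_insert.1 hu with rfl | hu
    · exact hxy
    · rw [mem_singleton.1 hu]
      exact hzy
  rw [bd_apply, ← sum_subset h3, sum_pair hxz, smul_eq_mul, smul_eq_mul, h, mul_zero,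
    zero_add] at h1
  · exact (mul_eq_zero.1 h1).resolve_left (sa_nz _ _)
  · intro u hu hu'
    rw [mem_filter, mem_singleton] at hu
    simp only [mem_insert, mem_singleton, not_or] at hu'
    rw [h0 u hu.2 hu'.1 hu'.2, smul_zero]

/-- row A5 -/
theorem st_sideAp (h : StP3O) (hU : StP3U) : StSideAp := by
  classical
  intro n L hL a b c d hC T O hS
  obtain ⟨⟨ε, hε, hε0⟩, -⟩ := h n L hL
  obtain ⟨hab, hbc, hcd, hda, hac, hbd, nac, nbd⟩ := id hC
  have hεz : ∀ F, ¬ (F ∈ L ∧ F.card = 3) → ε F = 0 := fun F hF => by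
    by_contra h1
    exact hF ((hε F).1 h1)
  set D : Finset (Fin n) → ℝ := fun F => if ∃ x ∈ F, x ∈ T then ε F else 0 with hD
  have hD1 : ∀ F, (∃ x ∈ F, x ∈ T) → D F = ε F := fun F hF => if_pos hF
  have hD2 : ∀ F, ¬ (∃ x ∈ F, x ∈ T) → D F = 0 := fun F hF => if_neg hF
  have hDz : ∀ F, ¬ (F ∈ L ∧ F.card = 3) → D F = 0 := by
    intro F hF
    by_cases h1 : ∃ x ∈ F, x ∈ T
    · rw [hD1 F h1, hεz F hF]
    · exact hD2 F h1
  have hOT : ∀ F ∈ L, ∀ x ∈ F, x ∈ O → ¬ ∃ y ∈ F, y ∈ T := by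
    rintro F hF x hx hxO ⟨y, hy, hyT⟩
    have hne : y ≠ x := fun he => hS.dj y hyT (he ▸ hxO)
    exact hS.no y hyT x hxO (sa_ed hL.down hF hy hx hne)
  -- the support of the boundary
  have hq : ∀ G, bd ℝ D G ≠ 0 → G = {a, b} ∨ G = {b, c} ∨ G = {c, d} ∨ G = {a, d} := by
    intro G hG
    obtain ⟨u, hu, hu'⟩ : ∃ u, u ∉ G ∧ D (insert u G) ≠ 0 := by
      by_contra h1
      push Not at h1
      apply hG
      rw [bd_apply]
      refine sum_eq_zero fun u hu => ?_
      rw [h1 u (mem_filter.1 hu).2, smul_zero]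
    have h2 : insert u G ∈ L ∧ (insert u G).card = 3 := by
      by_contra h1
      exact hu' (hDz _ h1)
    have h3 : G ∈ L := hL.down _ h2.1 _ (subset_insert u G)
    have h4 : G.card = 2 := by
      have h5 := h2.2
      rw [card_insert_of_notMem hu] at h5
      omega
    refine sa_in hL hC h3 h4 fun x hx => ?_
    by_contra hxP
    rcases hS.all x (sa_vx hL.down h3 hx) hxP with hT | hO
    · apply hG
      have h5 : bd ℝ D G = bd ℝ ε G := by
        rw [bd_apply, bd_apply]
        refine sum_congr rfl fun v _ => ?_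
        rw [hD1 _ ⟨x, mem_insert_of_mem hx, hT⟩]
      rw [h5, hε0]
      rfl
    · exact hu' (hD2 _ (hOT _ h2.1 x (mem_insert_of_mem hx) hO))
  have hbb : bd ℝ (bd ℝ D) = 0 := bd_bd D
  have hpr : ∀ u v x y : Fin n, ({u, v} : Finset (Fin n)) = {x, y} →
      (u = x ∧ v = y) ∨ (u = y ∧ v = x) := by
    intro u v x y he
    have h1 : (s(u, v) : Sym2 (Fin n)) = s(x, y) := by
      apply Sym2.ext
      intro w
      have h2 : w ∈ ({u, v} : Finset (Fin n)) ↔ w ∈ ({x, y} : Finset (Fin n)) := by rw [he]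
      simpa using h2
    rcases Sym2.eq_iff.1 h1 with h2 | h2
    · exact Or.inl h2
    · exact Or.inr h2
  -- zero on one edge gives zero
  have hz : bd ℝ D {a, b} = 0 → bd ℝ D = 0 := by
    intro h0
    have hb : bd ℝ D {c, b} = 0 := by
      refine sa_vert hbb hab.1 hbc.1.symm hac ?_ h0
      intro u h1 h2 h3
      by_contra h4
      rcases hq _ h4 with h5 | h5 | h5 | h5 <;> rcases hpr _ _ _ _ h5 with h6 | h6
      · exact h2 h6.1
      · exact h1 h6.1
      · exact h1 h6.1
      · exact h3 h6.1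
      · exact h3 h6.1
      · exact hbc.1 h6.2
      · exact h2 h6.1
      · exact hab.1.symm h6.2
    have hb' : bd ℝ D {b, c} = 0 := by rw [pair_comm]; exact hb
    have hc : bd ℝ D {d, c} = 0 := by
      refine sa_vert hbb hbc.1 hcd.1.symm hbd ?_ hb'
      intro u h1 h2 h3
      by_contra h4
      rcases hq _ h4 with h5 | h5 | h5 | h5 <;> rcases hpr _ _ _ _ h5 with h6 | h6
      · exact hbc.1.symm h6.2
      · exact h2 h6.1
      · exact h2 h6.1
      · exact h1 h6.1
      · exact h1 h6.1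
      · exact h3 h6.1
      · exact hcd.1 h6.2
      · exact h3 h6.1
    have hc' : bd ℝ D {c, d} = 0 := by rw [pair_comm]; exact hc
    have hd : bd ℝ D {a, d} = 0 := by
      refine sa_vert hbb hcd.1 hda.1.symm hac.symm ?_ hc'
      intro u h1 h2 h3
      by_contra h4
      rcases hq _ h4 with h5 | h5 | h5 | h5 <;> rcases hpr _ _ _ _ h5 with h6 | h6
      · exact h3 h6.1
      · exact hda.1 h6.2
      · exact hcd.1.symm h6.2
      · exact h2 h6.1
      · exact h2 h6.1
      · exact h1 h6.1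
      · exact h3 h6.1
      · exact h1 h6.1
    funext G
    by_contra h4
    rcases hq G h4 with h5 | h5 | h5 | h5
    · exact h4 (by rw [h5, h0]; rfl)
    · exact h4 (by rw [h5, hb']; rfl)
    · exact h4 (by rw [h5, hc']; rfl)
    · exact h4 (by rw [h5, hd]; rfl)
  have hne : bd ℝ D {a, b} ≠ 0 := by
    intro h0
    have h1 := hz h0
    have h2 : D - ε = 0 := by
      refine hU n L hL (D - ε) (fun F hF => ?_) ?_ ?_
      · rw [Pi.sub_apply, hDz F hF, hεz F hF, sub_zero]
      · rw [map_sub, h1, hε0, sub_zero]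
      · obtain ⟨x, hx⟩ := hS.tn
        obtain ⟨F, hF, hF3, hxF⟩ := sa_tri hL (hS.tv x hx).1
        exact ⟨F, hF, hF3, by rw [Pi.sub_apply, hD1 F ⟨x, hxF, hx⟩, sub_self]⟩
    obtain ⟨y, hy⟩ := hS.on
    obtain ⟨F, hF, hF3, hyF⟩ := sa_tri hL (hS.ov y hy).1
    have h3 := congrFun h2 F
    rw [Pi.sub_apply, hD2 F (hOT F hF y hyF hy), zero_sub, Pi.zero_apply, neg_eq_zero] at h3
    exact (hε F).2 ⟨hF, hF3⟩ h3
  obtain ⟨z, z', -, haz, hbz, haz', hbz', hall⟩ := hL.two a b hab
  have hTO : ∀ w, Ed L a w → Ed L b w → w ∈ T ∨ w ∈ O := by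
    intro w h1 h2
    refine hS.all w (hL.vr h1) fun h3 => ?_
    simp only [mem_insert, mem_singleton] at h3
    rcases h3 with rfl | rfl | rfl | rfl
    · exact h1.1 rfl
    · exact h2.1 rfl
    · exact nac h1
    · exact nbd h2
  have hP : ∀ w ∈ ({a, b} : Finset (Fin n)), w ∉ T := by
    intro w hw hT
    apply (hS.tv w hT).2
    simp only [mem_insert, mem_singleton] at hw ⊢
    tauto
  have hap : ∀ u, u ∉ ({a, b} : Finset (Fin n)) →
      insert u ({a, b} : Finset (Fin n)) ∈ L → u = z ∨ u = z' := by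
    intro u hu h1
    simp only [mem_insert, mem_singleton, not_or] at hu
    refine hall u (sa_ed hL.down h1 ?_ (mem_insert_self _ _) (fun he => hu.1 he.symm))
      (sa_ed hL.down h1 ?_ (mem_insert_self _ _) (fun he => hu.2 he.symm))
    · simp
    · simp
  rcases hTO z haz hbz with h1 | h1 <;> rcases hTO z' haz' hbz' with h2 | h2
  · exfalso
    apply hne
    have h5 : bd ℝ D {a, b} = bd ℝ ε {a, b} := by
      rw [bd_apply, bd_apply]
      refine sum_congr rfl fun v hv => ?_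
      by_cases h3 : insert v ({a, b} : Finset (Fin n)) ∈ L
      · have h4 : v ∈ T := by
          rcases hap v (mem_filter.1 hv).2 h3 with rfl | rfl
          · exact h1
          · exact h2
        rw [hD1 _ ⟨v, mem_insert_self _ _, h4⟩]
      · rw [hDz _ fun h4 => h3 h4.1, hεz _ fun h4 => h3 h4.1]
    rw [h5, hε0]
    rfl
  · exact ⟨z, h1, z', h2, haz, hbz, haz', hbz'⟩
  · exact ⟨z', h2, z, h1, haz', hbz', haz, hbz⟩
  · exfalso
    apply hne
    rw [bd_apply]
    refine sum_eq_zero fun v hv => ?_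
    rw [smul_eq_mul]
    by_cases h3 : insert v ({a, b} : Finset (Fin n)) ∈ L
    · have h4 : v ∈ O := by
        rcases hap v (mem_filter.1 hv).2 h3 with rfl | rfl
        · exact h1
        · exact h2
      rw [hD2 _ (hOT _ h3 v (mem_insert_self _ _) h4), mul_zero]
    · rw [hDz _ fun h4 => h3 h4.1, mul_zero]

end Pool.Agent.H14.CL
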