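import Pool.Agent.H14.CL.Stm4

/-!
Project CL, fourth part, row A6: the sides of an induced 4-cycle are connected.
-/

set_option autoImplicit false

namespace Pool.Agent.H14.CL

open Finset

/-- splitting a side -/
theorem sc_split {n : ℕ} {L : Finset (Finset (Fin n))} {P T O Z W : Finset (Fin n)}
    (hS : Side L P T O) (hZ : Z.Nonempty) (hZO : Z ⊆ O) (hWO : W ⊆ O)
    (hdj : ∀ x ∈ Z, x ∉ W) (hall : ∀ x ∈ O, x ∈ Z ∨ x ∈ W)
    (hno : ∀ x ∈ Z, ∀ y ∈ W, ¬ Ed L x y) : Side L P Z (T ∪ W) := by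
  refine ⟨hZ, ?_, fun x hx => hS.ov x (hZO hx), ?_, ?_, ?_, ?_⟩
  · obtain ⟨t, ht⟩ := hS.tn
    exact ⟨t, mem_union_left _ ht⟩
  · intro x hx
    rcases mem_union.1 hx with h | h
    · exact hS.tv x h
    · exact hS.ov x (hWO h)
  · intro x hx h
    rcases mem_union.1 h with h | h
    · exact hS.dj x h (hZO hx)
    · exact hdj x hx h
  · intro x hx hxP
    rcases hS.all x hx hxP with h | h
    · exact Or.inr (mem_union_left _ h)
    · rcases hall x h with h' | h'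
      · exact Or.inl h'
      · exact Or.inr (mem_union_right _ h')
  · intro x hx y hy hxy
    rcases mem_union.1 hy with h | h
    · exact hS.no y h x (hZO hx) hxy.symm
    · exact hno x hx y h hxy

/-- A6: the sides are connected -/
theorem st_sideCon (h : StSideAp) : StSideCon := by
  intro n L hP a b c d hC T O hS Z hZO hZ hcl
  by_contra hne
  have hO2 : (O \ Z).Nonempty := by
    rw [sdiff_nonempty]
    exact fun h' => hne (Subset.antisymm hZO h')
  have hno : ∀ x ∈ Z, ∀ y ∈ O \ Z, ¬ Ed L x y := fun x hx y hy hxy =>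
    (mem_sdiff.1 hy).2 (hcl x hx y (mem_sdiff.1 hy).1 hxy)
  have h1 : Side L {a, b, c, d} Z (T ∪ (O \ Z)) :=
    sc_split hS hZ hZO sdiff_subset (fun x hx hx' => (mem_sdiff.1 hx').2 hx)
      (fun x hx => by
        by_cases hxZ : x ∈ Z
        · exact Or.inl hxZ
        · exact Or.inr (mem_sdiff.2 ⟨hx, hxZ⟩)) hno
  have h2 : Side L {a, b, c, d} (O \ Z) (T ∪ Z) :=
    sc_split hS hO2 sdiff_subset hZO (fun x hx hx' => (mem_sdiff.1 hx).2 hx')
      (fun x hx => by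
        by_cases hxZ : x ∈ Z
        · exact Or.inr hxZ
        · exact Or.inl (mem_sdiff.2 ⟨hx, hxZ⟩)) (fun x hx y hy hxy => hno y hy x hx hxy.symm)
  obtain ⟨x1, hx1, _, _, e1, e1', _⟩ := h n L hP a b c d hC T O hS
  obtain ⟨x2, hx2, _, _, e2, e2', _⟩ := h n L hP a b c d hC Z _ h1
  obtain ⟨x3, hx3, _, _, e3, e3', _⟩ := h n L hP a b c d hC (O \ Z) _ h2
  have n12 : x1 ≠ x2 := fun h' => hS.dj x1 hx1 (h' ▸ hZO hx2)
  have n13 : x1 ≠ x3 := fun h' => hS.dj x1 hx1 (h' ▸ (mem_sdiff.1 hx3).1)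
  have n23 : x2 ≠ x3 := fun h' => (mem_sdiff.1 hx3).2 (h' ▸ hx2)
  obtain ⟨p, q, _, _, _, _, _, hall⟩ := hP.two a b hC.1
  rcases hall x1 e1 e1' with r1 | r1 <;> rcases hall x2 e2 e2' with r2 | r2 <;>
    rcases hall x3 e3 e3' with r3 | r3
  · exact n12 (r1.trans r2.symm)
  · exact n12 (r1.trans r2.symm)
  · exact n13 (r1.trans r3.symm)
  · exact n23 (r2.trans r3.symm)
  · exact n23 (r2.trans r3.symm)
  · exact n13 (r1.trans r3.symm)
  · exact n12 (r1.trans r2.symm)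
  · exact n12 (r1.trans r2.symm)

end Pool.Agent.H14.CL
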