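import Pool.Agent.H14.CL.Stm4

/-!
Project CL, fourth part, row A4: induced 4-cycles of flag 2-spheres separate.
-/

set_option autoImplicit false

namespace Pool.Agent.H14.CL

open Finset

variable {n : ℕ}

private theorem se_sq (u : Fin n) (N : Finset (Fin n)) : tau ℝ u N * tau ℝ u N = 1 := by
  unfold tau
  rw [← mul_pow]
  norm_num

private theorem se_nz (u : Fin n) (N : Finset (Fin n)) : tau ℝ u N ≠ 0 := by
  intro h
  have := se_sq u N
  rw [h] at this
  norm_num at this

private theorem se_tau1 {x y : Fin n} (h : x < y) : tau ℝ y ({x} : Finset (Fin n)) = -1 := by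
  unfold tau
  rw [filter_singleton, if_pos h, card_singleton, pow_one]

private theorem se_tau2 {x y : Fin n} (h : ¬ x < y) : tau ℝ y ({x} : Finset (Fin n)) = 1 := by
  unfold tau
  rw [filter_singleton, if_neg h, card_empty, pow_zero]

private theorem se_anti {x y : Fin n} (h : x ≠ y) :
    tau ℝ x ({y} : Finset (Fin n)) * tau ℝ y ({x} : Finset (Fin n)) = -1 := by
  rcases lt_or_gt_of_ne h with h1 | h1
  · rw [se_tau1 h1, se_tau2 (not_lt.2 h1.le)]
    norm_num
  · rw [se_tau1 h1, se_tau2 (not_lt.2 h1.le)]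
    norm_num

/-- the elementary chain on an edge -/
private def seE (x y : Fin n) : Finset (Fin n) → ℝ :=
  fun G => if G = {x, y} then tau ℝ y ({x} : Finset (Fin n)) else 0

/-- the elementary chain on a vertex -/
private def seD (x : Fin n) : Finset (Fin n) → ℝ :=
  fun G => if G = {x} then 1 else 0

private theorem se_bdE {x y : Fin n} (h : x ≠ y) (G : Finset (Fin n)) :
    bd ℝ (seE x y) G = seD x G - seD y G := by
  rw [bd_apply]
  unfold seE seD
  by_cases h1 : G = {x}
  · subst h1
    rw [if_pos rfl, if_neg (by rw [singleton_inj]; exact h), sub_zero, sum_eq_single y]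
    · rw [if_pos (by rw [pair_comm]), smul_eq_mul, se_sq]
    · intro u hu huy
      rw [if_neg, smul_zero]
      intro h2
      have h3 : u ∈ ({x, y} : Finset (Fin n)) := by
        rw [← h2]
        exact mem_insert_self _ _
      rcases mem_insert.1 h3 with h4 | h4
      · exact (mem_filter.1 hu).2 (mem_singleton.2 h4)
      · exact huy (mem_singleton.1 h4)
    · intro h2
      exact absurd (mem_filter.2 ⟨mem_univ _, by rw [mem_singleton]; exact h.symm⟩) h2
  · by_cases h1' : G = {y}
    · subst h1'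
      rw [if_neg h1, if_pos rfl, zero_sub, sum_eq_single x]
      · rw [if_pos rfl, smul_eq_mul, se_anti h]
      · intro u hu hux
        rw [if_neg, smul_zero]
        intro h2
        have h3 : u ∈ ({x, y} : Finset (Fin n)) := by
          rw [← h2]
          exact mem_insert_self _ _
        rcases mem_insert.1 h3 with h4 | h4
        · exact hux h4
        · exact (mem_filter.1 hu).2 h4
      · intro h2
        exact absurd (mem_filter.2 ⟨mem_univ _, by rw [mem_singleton]; exact h⟩) h2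
    · rw [if_neg h1, if_neg h1', sub_zero]
      refine sum_eq_zero fun u hu => ?_
      rw [if_neg, smul_zero]
      intro h2
      have hu' := (mem_filter.1 hu).2
      have h3 : u ∈ ({x, y} : Finset (Fin n)) := by
        rw [← h2]
        exact mem_insert_self _ _
      have h5 : G = ({x, y} : Finset (Fin n)).erase u := by
        rw [← h2, erase_insert hu']
      rcases mem_insert.1 h3 with h4 | h4
      · subst h4
        rw [erase_insert (by rw [mem_singleton]; exact h)] at h5
        exact h1' h5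
      · rw [mem_singleton] at h4
        subst h4
        rw [pair_comm, erase_insert (by rw [mem_singleton]; exact h.symm)] at h5
        exact h1 h5

/-- the boundary at an edge -/
private theorem se_bd {L : Finset (Finset (Fin n))} (hL : P3 L) {X : Finset (Fin n) → ℝ}
    (hX : ∀ F, ¬ (F ∈ L ∧ F.card = 3) → X F = 0) {x y z z' : Fin n}
    (hxy : Ed L x y) (hxz : Ed L x z) (hyz : Ed L y z) (hxz' : Ed L x z') (hyz' : Ed L y z')
    (hz : z ≠ z') :
    bd ℝ X {x, y} = tau ℝ z {x, y} * X {x, y, z} + tau ℝ z' {x, y} * X {x, y, z'} := by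
  obtain ⟨c, d, -, -, -, -, -, h1⟩ := hL.two x y hxy
  have h2 : ∀ u, Ed L x u → Ed L y u → u = z ∨ u = z' := by
    intro u hu hu'
    rcases h1 z hxz hyz with h3 | h3 <;> rcases h1 z' hxz' hyz' with h4 | h4 <;>
      rcases h1 u hu hu' with h5 | h5
    · exact Or.inl (h5.trans h3.symm)
    · exact absurd (h3.trans h4.symm) hz
    · exact Or.inl (h5.trans h3.symm)
    · exact Or.inr (h5.trans h4.symm)
    · exact Or.inr (h5.trans h4.symm)
    · exact Or.inl (h5.trans h3.symm)
    · exact absurd (h3.trans h4.symm) hz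
    · exact absurd (h3.trans h4.symm) hz
  have e : ∀ u : Fin n, (insert u ({x, y} : Finset (Fin n))) = {x, y, u} := by
    intro u
    ext v
    simp only [mem_insert, mem_singleton]
    tauto
  have h3 : ({z, z'} : Finset (Fin n)) ⊆ univ.filter (fun u => u ∉ ({x, y} : Finset (Fin n))) := by
    intro u hu
    rw [mem_filter]
    refine ⟨mem_univ _, ?_⟩
    simp only [mem_insert, mem_singleton, not_or] at hu ⊢
    rcases hu with rfl | rfl
    · exact ⟨hxz.1.symm, hyz.1.symm⟩
    · exact ⟨hxz'.1.symm, hyz'.1.symm⟩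
  rw [bd_apply, ← sum_subset h3, sum_pair hz, smul_eq_mul, smul_eq_mul, e, e]
  intro u hu hu'
  rw [hX, smul_zero]
  rintro ⟨h4, h5⟩
  rw [mem_filter] at hu
  have h6 := hu.2
  simp only [mem_insert, mem_singleton, not_or] at h6 hu'
  have h7 : Ed L x u := by
    refine ⟨fun h => h6.1 h.symm, hL.down _ h4 _ ?_⟩
    intro v hv
    simp only [mem_insert, mem_singleton] at hv ⊢
    tauto
  have h8 : Ed L y u := by
    refine ⟨fun h => h6.2 h.symm, hL.down _ h4 _ ?_⟩
    intro v hv
    simp only [mem_insert, mem_singleton] at hv ⊢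
    tauto
  rcases h2 u h7 h8 with h9 | h9
  · exact hu'.1 h9
  · exact hu'.2 h9

private theorem se_key {e1 e2 d1 d2 t1 t2 p : ℝ} (he1 : e1 ≠ 0) (he2 : e2 ≠ 0) (ht : t1 ≠ 0)
    (h1 : t1 * e1 + t2 * e2 = 0) (h2 : t1 * d1 + t2 * d2 = p) :
    (p = 0 ↔ d1 / e1 = d2 / e2) := by
  have h3 : p = t1 * e1 * (d1 / e1 - d2 / e2) := by
    have h4 : t1 * e1 * (d1 / e1 - d2 / e2) = t1 * d1 * (e1 / e1) - (t1 * e1) * (d2 / e2) := by
      ring
    have h5 : t1 * e1 = - (t2 * e2) := by linarith
    have h6 : - (t2 * e2) * (d2 / e2) = - (t2 * d2) * (e2 / e2) := by ring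
    rw [h4, h5, h6, div_self he1, div_self he2, ← h2]
    ring
  rw [h3, mul_eq_zero, sub_eq_zero]
  constructor
  · rintro (h | h)
    · exact absurd h (mul_ne_zero ht he1)
    · exact h
  · exact Or.inr

/-- row A4 -/
theorem st_sideEx (h : StP3O) : StSideEx := by
  intro n L hL a b c d hC
  obtain ⟨⟨ε, hε, hε0⟩, hex⟩ := h n L hL
  obtain ⟨hab, hbc, hcd, hda, hac, hbd, nac, nbd⟩ := hC
  set p : Finset (Fin n) → ℝ := seE a b + seE b c + seE c d + seE d a with hp
  have hpz : ∀ G, p G = seE a b G + seE b c G + seE c d G + seE d a G := fun G => rfl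
  have hbp : bd ℝ p = 0 := by
    funext G
    rw [hp, map_add, map_add, map_add]
    simp only [Pi.add_apply, Pi.zero_apply]
    rw [se_bdE hab.1, se_bdE hbc.1, se_bdE hcd.1, se_bdE hda.1]
    ring
  have hpc : p ∈ Ch L (⊤ : Submodule ℝ ℝ) (fun _ => 0) univ 2 := by
    intro G
    refine ⟨⟨Submodule.mem_top, fun v _ => rfl⟩, fun hG => ?_⟩
    have e : ∀ x y : Fin n, Ed L x y → seE x y G = 0 := by
      intro x y hxy
      unfold seE
      rw [if_neg]
      rintro rfl
      exact hG ⟨hxy.2, subset_univ _, card_pair hxy.1⟩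
    rw [hpz, e a b hab, e b c hbc, e c d hcd, e d a hda]
    norm_num
  obtain ⟨D, hD, hDp⟩ := hex p hpc hbp
  have hD0 : ∀ F, ¬ (F ∈ L ∧ F.card = 3) → D F = 0 := by
    intro F hF
    refine (hD F).2 fun h1 => hF ⟨h1.1, ?_⟩
    exact h1.2.2
  have hε1 : ∀ F, ¬ (F ∈ L ∧ F.card = 3) → ε F = 0 := by
    intro F hF
    by_contra h1
    exact hF ((hε F).1 h1)
  have htri : ∀ x y z, Ed L x y → Ed L x z → Ed L y z → ε {x, y, z} ≠ 0 := by
    intro x y z hxy hxz hyz
    refine (hε _).2 ⟨hL.tri hxy hxz hyz, ?_⟩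
    rw [card_eq_three]
    exact ⟨x, y, z, hxy.1, hxz.1, hyz.1, rfl⟩
  obtain ⟨g, hg⟩ : ∃ g : Fin n → Fin n → Fin n → ℝ,
      ∀ x y z, g x y z = D {x, y, z} / ε {x, y, z} := ⟨_, fun _ _ _ => rfl⟩
  have g1 : ∀ x y z, g x y z = g y x z := by
    intro x y z
    have e : ({x, y, z} : Finset (Fin n)) = {y, x, z} := by
      ext v
      simp only [mem_insert, mem_singleton]
      tauto
    rw [hg, hg, e]
  have g2 : ∀ x y z, g x y z = g x z y := by
    intro x y z
    have e : ({x, y, z} : Finset (Fin n)) = {x, z, y} := by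
      ext v
      simp only [mem_insert, mem_singleton]
      tauto
    rw [hg, hg, e]
  have key : ∀ x y z z', Ed L x y → Ed L x z → Ed L y z → Ed L x z' → Ed L y z' → z ≠ z' →
      (p {x, y} = 0 ↔ g x y z = g x y z') := by
    intro x y z z' hxy hxz hyz hxz' hyz' hz
    have h1 := se_bd hL hε1 hxy hxz hyz hxz' hyz' hz
    have h2 := se_bd hL hD0 hxy hxz hyz hxz' hyz' hz
    rw [hε0, Pi.zero_apply] at h1
    rw [hDp] at h2
    rw [hg, hg]
    exact se_key (htri x y z hxy hxz hyz) (htri x y z' hxy hxz' hyz') (se_nz z {x, y}) h1.symm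
      h2.symm
  have hpP : ∀ x y, x ∉ ({a, b, c, d} : Finset (Fin n)) → p {x, y} = 0 := by
    intro x y hx
    simp only [mem_insert, mem_singleton, not_or] at hx
    obtain ⟨xa, xb, xc, xd⟩ := hx
    have e : ∀ u v : Fin n, x ≠ u → x ≠ v → seE u v {x, y} = 0 := by
      intro u v hu hv
      unfold seE
      rw [if_neg]
      intro h1
      have h2 : x ∈ ({u, v} : Finset (Fin n)) := by
        rw [← h1]
        exact mem_insert_self _ _
      rcases mem_insert.1 h2 with h3 | h3
      · exact hu h3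
      · exact hv (mem_singleton.1 h3)
    rw [hpz, e a b xa xb, e b c xb xc, e c d xc xd, e d a xd xa]
    norm_num
  have hpab : p {a, b} ≠ 0 := by
    have e1 : seE a b {a, b} = tau ℝ b ({a} : Finset (Fin n)) := if_pos rfl
    have e : ∀ u v w : Fin n, w ∈ ({a, b} : Finset (Fin n)) → w ≠ u → w ≠ v →
        seE u v {a, b} = 0 := by
      intro u v w hw hu hv
      unfold seE
      rw [if_neg]
      intro h1
      rw [h1] at hw
      rcases mem_insert.1 hw with h3 | h3
      · exact hu h3
      · exact hv (mem_singleton.1 h3)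
    have ha : a ∈ ({a, b} : Finset (Fin n)) := mem_insert_self _ _
    have hb : b ∈ ({a, b} : Finset (Fin n)) := mem_insert_of_mem (mem_singleton_self _)
    rw [hpz, e1, e b c a ha hab.1 hac, e c d a ha hac hda.1.symm, e d a b hb hbd hab.1.symm,
      add_zero, add_zero, add_zero]
    exact se_nz _ _
  -- the claim
  have claim : ∀ (g0 : ℝ) (z x y : Fin n), z ∉ ({a, b, c, d} : Finset (Fin n)) → Ed L z x →
      Ed L z y → Ed L x y → g z x y = g0 → ∀ x' y', Ed L z x' → Ed L z y' → Ed L x' y' →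
      g z x' y' = g0 := by
    intro g0 z x y hz hzx hzy hxy h0
    classical
    have hstep : ∀ u v w, Ed L z u → Ed L z v → Ed L z w → Ed L u v → Ed L u w →
        g z u v = g0 → g z u w = g0 := by
      intro u v w hu hv hw huv huw h1
      by_cases hvw : v = w
      · rw [← hvw]
        exact h1
      · rw [← (key z u v w hu hv huv hw huw hvw).1 (hpP z u hz)]
        exact h1
    have h1 := hL.lkc z (univ.filter (fun u => Ed L z u ∧ ∀ v, Ed L z v → Ed L u v →
      g z u v = g0)) ⟨x, ?_⟩ ?_ ?_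
    · intro x' y' hx' hy' hxy'
      exact (mem_filter.1 (h1 x' hx')).2.2 y' hy' hxy'
    · rw [mem_filter]
      exact ⟨mem_univ _, hzx, fun v hv hxv => hstep x y v hzx hzy hv hxy hxv h0⟩
    · intro u hu
      exact (mem_filter.1 hu).2.1
    · intro u hu w hw huw
      have hu' := (mem_filter.1 hu).2
      rw [mem_filter]
      refine ⟨mem_univ _, hw, fun v hv hwv => ?_⟩
      refine hstep w u v hw hu'.1 hv huw.symm hwv ?_
      rw [g2]
      exact hu'.2 w hw huw
  obtain ⟨z1, z2, hz, ha1, hb1, ha2, hb2, -⟩ := hL.two a b hab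
  have hzP : ∀ z, Ed L a z → Ed L b z → z ∉ ({a, b, c, d} : Finset (Fin n)) := by
    intro z h1 h2 h3
    simp only [mem_insert, mem_singleton] at h3
    rcases h3 with rfl | rfl | rfl | rfl
    · exact h1.1 rfl
    · exact h2.1 rfl
    · exact nac h1
    · exact nbd h2
  have hP1 := hzP z1 ha1 hb1
  have hP2 := hzP z2 ha2 hb2
  have hne : g a b z1 ≠ g a b z2 := by
    intro h1
    exact hpab ((key a b z1 z2 hab ha1 hb1 ha2 hb2 hz).2 h1)
  have r : ∀ x y z, g z x y = g x y z := by
    intro x y z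
    rw [g1 z x y, g2 x z y]
  classical
  set q : Fin n → Prop := fun z => ∀ x y, Ed L z x → Ed L z y → Ed L x y →
    g z x y = g a b z1 with hq
  refine ⟨univ.filter (fun z => {z} ∈ L ∧ z ∉ ({a, b, c, d} : Finset (Fin n)) ∧ q z),
    univ.filter (fun z => {z} ∈ L ∧ z ∉ ({a, b, c, d} : Finset (Fin n)) ∧ ¬ q z), ?_⟩
  refine ⟨⟨z1, ?_⟩, ⟨z2, ?_⟩, ?_, ?_, ?_, ?_, ?_⟩
  · rw [mem_filter]
    refine ⟨mem_univ _, hL.vr ha1, hP1, ?_⟩
    exact claim _ z1 a b hP1 ha1.symm hb1.symm hab (r a b z1)
  · rw [mem_filter]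
    refine ⟨mem_univ _, hL.vr ha2, hP2, fun h1 => hne ?_⟩
    rw [← h1 a b ha2.symm hb2.symm hab, r a b z2]
  · intro x hx
    exact ⟨(mem_filter.1 hx).2.1, (mem_filter.1 hx).2.2.1⟩
  · intro x hx
    exact ⟨(mem_filter.1 hx).2.1, (mem_filter.1 hx).2.2.1⟩
  · intro x hx hx'
    exact (mem_filter.1 hx').2.2.2 (mem_filter.1 hx).2.2.2
  · intro x hx hx'
    by_cases h1 : q x
    · exact Or.inl (mem_filter.2 ⟨mem_univ _, hx, hx', h1⟩)
    · exact Or.inr (mem_filter.2 ⟨mem_univ _, hx, hx', h1⟩)
  · intro x hx y hy hxy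
    obtain ⟨z, -, -, hxz, hyz, -, -, -⟩ := hL.two x y hxy
    have h1 := (mem_filter.1 hx).2.2.2 y z hxy hxz hyz
    refine (mem_filter.1 hy).2.2.2 ?_
    rw [g1] at h1
    exact claim _ y x z (mem_filter.1 hy).2.2.1 hxy.symm hyz hxz h1

end Pool.Agent.H14.CL
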