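import Pool.Agent.H14.CL.Blk

/-!
Project CL, row D16: spectral complexes of odd type are good.
-/

set_option autoImplicit false

namespace Pool.Agent.H14.CL

open Finset

theorem specg_emb {m R : ℕ} (h : m ≤ R) :
    ∃ a : (Fin m → ℝ) →ₗ[ℝ] (Fin R → ℝ), ∀ x y, a x ⬝ᵥ a y = x ⬝ᵥ y := by
  obtain ⟨k, rfl⟩ := Nat.exists_eq_add_of_le h
  refine ⟨{ toFun := fun x => Fin.append x 0
            map_add' := ?_
            map_smul' := ?_ }, ?_⟩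
  · intro x y
    funext i
    refine Fin.addCases (fun j => ?_) (fun j => ?_) i <;> simp
  · intro c x
    funext i
    refine Fin.addCases (fun j => ?_) (fun j => ?_) i <;> simp
  · intro x y
    simp [dotProduct, Fin.sum_univ_add]

theorem specg_clif {R R' d N : ℕ} {S : Type} [NormedAddCommGroup S] [InnerProductSpace ℝ S]
    {γ : (Fin R → ℝ) →ₗ[ℝ] S →ₗ[ℝ] S} {δ : (Fin R' → ℝ) →ₗ[ℝ] S →ₗ[ℝ] S} (hC : Clif S γ δ)
    {a : (Fin d → ℝ) →ₗ[ℝ] (Fin R → ℝ)} {b : (Fin N → ℝ) →ₗ[ℝ] (Fin R' → ℝ)}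
    (ha : ∀ x y, a x ⬝ᵥ a y = x ⬝ᵥ y) (hb : ∀ x y, b x ⬝ᵥ b y = x ⬝ᵥ y) :
    Clif S (γ ∘ₗ a) (δ ∘ₗ b) where
  gg p p' x := by simpa [ha] using hC.gg (a p) (a p') x
  dd q q' x := by simpa [hb] using hC.dd (b q) (b q') x
  gd p q x := hC.gd (a p) (b q) x
  ga p x y := hC.ga (a p) x y
  da q x y := hC.da (b q) x y

theorem specg_ip {R₁ n : ℕ} (x y : Vec R₁) (s t : ℝ) (v w : Fin n) :
    ip (bl₁ R₁ n x + s • bl₂ R₁ n (nu v)) (bl₁ R₁ n y + t • bl₂ R₁ n (nu w)) = ip x y := by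
  simp only [ip_add_left, ip_add_right, ip_smul_left, ip_smul_right, ip_bl₁, ip_bl₁₂, ip_bl₂₁,
    ip_bl₂, ip_nu]
  ring

theorem specg_dual {R₁ n : ℕ} (x : Vec R₁) {s : ℝ} (hs : s ≠ 0) (v w : Fin n) :
    ip (bl₁ R₁ n x + s • bl₂ R₁ n (nu w)) (s⁻¹ • bl₂ R₁ n (mud v)) =
      if v = w then 1 / 2 else 0 := by
  simp only [ip_add_left, ip_smul_left, ip_smul_right, ip_bl₁₂, ip_bl₂, ip_nu_mud]
  rw [zero_add, ← mul_assoc, inv_mul_cancel₀ hs, one_mul]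

theorem st_specG (h1 : StSC) : StSpecG := by
  intro n d L ε hS hd W hW h0 hpos hneg
  obtain ⟨p, q, hpq⟩ := st_spec n d W hW hneg
  have hL : Down L := hS.down
  have hpq0 : ∀ v w, ({v, w} : Finset (Fin n)) ∈ L → p v ⬝ᵥ p w = q v ⬝ᵥ q w :=
    fun v w hvw => by
      have := hpq v w
      rw [h0 v w hvw] at this
      linarith
  have hN : Neg L (fun v w => p v ⬝ᵥ p w - q v ⬝ᵥ q w) d := fun F hF hFd => by
    obtain ⟨v, hv1, hv2, hv3⟩ := hpos F hF hFd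
    refine ⟨v, hv1, hv2, fun u hu1 hu2 hu3 => ?_⟩
    have h1 := hv3 u hu1 hu2 hu3
    have h2 := hpq u v
    change p u ⬝ᵥ p v - q u ⬝ᵥ q v < 0
    linarith
  refine ⟨d + n + n, fun R hR S _ _ _ γ δ hC => ?_⟩
  obtain ⟨R₁, hR₁, rfl⟩ : ∃ R₁, d + n ≤ R₁ ∧ R = R₁ + n := ⟨R - n, by omega, by omega⟩
  obtain ⟨γ', δ', hC', hop⟩ := clif_bl₁ (R₁ := R₁) (R₂ := n) hC
  obtain ⟨a, ha⟩ := specg_emb (m := d) (R := R₁) (by omega)
  obtain ⟨b, hb⟩ := specg_emb (m := n) (R := R₁) (by omega)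
  obtain ⟨B, h, ε', D, hn, hp⟩ := tight_gen (specg_clif hC' ha hb) hS p q hpq0 hN
  have hex : ∀ j, Ex L ⊤ (fun v => (γ' ∘ₗ a) (p v) + (δ' ∘ₗ b) (q v)) univ j := fun j => by
    refine (main_ind allSt d L ⊤ h ε' D hn hp).a j ?_
    rcases hd with ⟨k, rfl⟩
    omega
  obtain ⟨P, hP⟩ : ∃ P : Fin n → Vec R₁, ∀ v, P v = (a (p v), b (q v)) := ⟨_, fun _ => rfl⟩
  have hPP : ∀ v w, ({v, w} : Finset (Fin n)) ∈ L → ip (P v) (P w) = 0 := by
    intro v w hvw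
    rw [hP, hP, ip, ha, hb, hpq0 v w hvw, sub_self]
  have he : (fun v => (γ' ∘ₗ a) (p v) + (δ' ∘ₗ b) (q v)) =
      fun v => opv γ δ (bl₁ R₁ n (P v)) := by
    funext v
    refine LinearMap.ext fun t => ?_
    rw [← hop, opv_apply, hP]
    rfl
  rw [he] at D hex
  have hs1 : ∀ (s : ℝ) (v : Fin n), opv γ δ (bl₁ R₁ n (P v)) + s • opv γ δ (bl₂ R₁ n (nu v)) =
      opv γ δ (bl₁ R₁ n (P v) + s • bl₂ R₁ n (nu v)) := by
    intro s v
    rw [map_add, map_smul]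
  have hfin := h1 n S L (fun v => opv γ δ (bl₁ R₁ n (P v)))
    (fun v => opv γ δ (bl₂ R₁ n (nu v))) hL (fun s v w hvw x => by
      change (opv γ δ (bl₁ R₁ n (P v)) + s • opv γ δ (bl₂ R₁ n (nu v)))
          ((opv γ δ (bl₁ R₁ n (P w)) + s • opv γ δ (bl₂ R₁ n (nu w))) x) +
        (opv γ δ (bl₁ R₁ n (P w)) + s • opv γ δ (bl₂ R₁ n (nu w)))
          ((opv γ δ (bl₁ R₁ n (P v)) + s • opv γ δ (bl₂ R₁ n (nu v))) x) = 0
      rw [hs1, hs1, opv_rel hC, specg_ip, hPP v w hvw, mul_zero, zero_smul]) (fun s F u hu hF => by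
      by_cases hs : s = 0
      · subst hs
        have h3 : (fun v => opv γ δ (bl₁ R₁ n (P v)) +
            (0 : ℝ) • opv γ δ (bl₂ R₁ n (nu v))) = fun v => opv γ δ (bl₁ R₁ n (P v)) := by
          funext v
          rw [zero_smul, add_zero]
        have h4 := D.kos F (hL _ hF _ (subset_insert u F)) u hu hF
        change ∀ x ∈ KK ⊤ (fun v => opv γ δ (bl₁ R₁ n (P v)) +
            (0 : ℝ) • opv γ δ (bl₂ R₁ n (nu v))) F,
          (fun v => opv γ δ (bl₁ R₁ n (P v)) +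
            (0 : ℝ) • opv γ δ (bl₂ R₁ n (nu v))) u x = 0 →
          ∃ y ∈ KK ⊤ (fun v => opv γ δ (bl₁ R₁ n (P v)) +
            (0 : ℝ) • opv γ δ (bl₂ R₁ n (nu v))) F,
          (fun v => opv γ δ (bl₁ R₁ n (P v)) +
            (0 : ℝ) • opv γ δ (bl₂ R₁ n (nu v))) u y = x
        rw [h3]
        exact h4
      · have h3 : (fun v => opv γ δ (bl₁ R₁ n (P v)) + s • opv γ δ (bl₂ R₁ n (nu v))) =
            fun v => opv γ δ (bl₁ R₁ n (P v) + s • bl₂ R₁ n (nu v)) := funext fun v => hs1 s v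
        have h4 := kos_of_dual (E := fun v => bl₁ R₁ n (P v) + s • bl₂ R₁ n (nu v))
          (M := fun v => s⁻¹ • bl₂ R₁ n (mud v)) hC hL
          (fun v w _ _ => specg_dual (P w) hs v w) F u hu hF
        change ∀ x ∈ KK ⊤ (fun v => opv γ δ (bl₁ R₁ n (P v)) +
            s • opv γ δ (bl₂ R₁ n (nu v))) F,
          (fun v => opv γ δ (bl₁ R₁ n (P v)) + s • opv γ δ (bl₂ R₁ n (nu v))) u x = 0 →
          ∃ y ∈ KK ⊤ (fun v => opv γ δ (bl₁ R₁ n (P v)) +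
            s • opv γ δ (bl₂ R₁ n (nu v))) F,
          (fun v => opv γ δ (bl₁ R₁ n (P v)) + s • opv γ δ (bl₂ R₁ n (nu v))) u y = x
        rw [h3]
        exact h4) hex
  obtain ⟨s, hs⟩ := (hfin.union (Set.finite_singleton (0 : ℝ))).infinite_compl.nonempty
  rw [Set.mem_compl_iff, Set.mem_union, not_or] at hs
  have hs0 : s ≠ 0 := hs.2
  have hsE := not_not.1 hs.1
  refine ⟨fun v => bl₁ R₁ n (P v) + s • bl₂ R₁ n (nu v), ?_, ?_, ?_⟩
  · intro v w hvw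
    rw [specg_ip]
    exact hPP v w hvw
  · exact ⟨fun v => s⁻¹ • bl₂ R₁ n (mud v), fun v w => specg_dual (P w) hs0 v w⟩
  · intro L' hL' j
    rw [mem_singleton.1 hL']
    have h3 : (fun v => opv γ δ (bl₁ R₁ n (P v)) + s • opv γ δ (bl₂ R₁ n (nu v))) =
        fun v => opv γ δ (bl₁ R₁ n (P v) + s • bl₂ R₁ n (nu v)) := funext fun v => hs1 s v
    have h4 := hsE j
    change Ex L ⊤ (fun v => opv γ δ (bl₁ R₁ n (P v)) +
      s • opv γ δ (bl₂ R₁ n (nu v))) univ j at h4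
    rw [h3] at h4
    exact h4

end Pool.Agent.H14.CL
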