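import Pool.Agent.H14.CL.Stm3
import Pool.Agent.H14.CL.SpecG

/-!
Project CL, row F17: spectral complexes are in the class `B(k)`.
-/

set_option autoImplicit false

namespace Pool.Agent.H14.CL

open Finset

theorem st_specGK (h1 : StSCK) : StSpecGK := by
  intro n d L ε hS W hW h0 hpos hneg
  obtain ⟨p, q, hpq⟩ := st_spec n d W hW hneg
  have hL : Down L := hS.down
  have hpq0 : ∀ v w, ({v, w} : Finset (Fin n)) ∈ L → p v ⬝ᵥ p w = q v ⬝ᵥ q w :=
    fun v w hvw => by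
      have := hpq v w
      rw [h0 v w hvw] at this
      linarith
  have hN : Neg L (fun v w => p v ⬝ᵥ p w - q v ⬝ᵥ q w) d := fun F hF hFd => by
    obtain ⟨v, hv1, hv2, hv3⟩ := hpos F hF hFd
    refine ⟨v, hv1, hv2, fun u hu1 hu2 hu3 => ?_⟩
    have h1 := hv3 u hu1 hu2 hu3
    have h2 := hpq u v
    change p u ⬝ᵥ p v - q u ⬝ᵥ q v < 0
    linarith
  refine ⟨d + n + n, fun R hR S _ _ _ γ δ hC => ?_⟩
  obtain ⟨R₁, hR₁, rfl⟩ : ∃ R₁, d + n ≤ R₁ ∧ R = R₁ + n := ⟨R - n, by omega, by omega⟩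
  obtain ⟨γ', δ', hC', hop⟩ := clif_bl₁ (R₁ := R₁) (R₂ := n) hC
  obtain ⟨a, ha⟩ := specg_emb (m := d) (R := R₁) (by omega)
  obtain ⟨b, hb⟩ := specg_emb (m := n) (R := R₁) (by omega)
  obtain ⟨B, h, ε', D, hn, hp⟩ := tight_gen (specg_clif hC' ha hb) hS p q hpq0 hN
  have hex : ∀ j, 2 * j ≠ d →
      Ex L ⊤ (fun v => (γ' ∘ₗ a) (p v) + (δ' ∘ₗ b) (q v)) univ j :=
    (main_ind allSt d L ⊤ h ε' D hn hp).a
  obtain ⟨P, hP⟩ : ∃ P : Fin n → Vec R₁, ∀ v, P v = (a (p v), b (q v)) := ⟨_, fun _ => rfl⟩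
  have hPP : ∀ v w, ({v, w} : Finset (Fin n)) ∈ L → ip (P v) (P w) = 0 := by
    intro v w hvw
    rw [hP, hP, ip, ha, hb, hpq0 v w hvw, sub_self]
  have he : (fun v => (γ' ∘ₗ a) (p v) + (δ' ∘ₗ b) (q v)) =
      fun v => opv γ δ (bl₁ R₁ n (P v)) := by
    funext v
    refine LinearMap.ext fun t => ?_
    rw [← hop, opv_apply, hP]
    rfl
  rw [he] at D hex
  have hs1 : ∀ (s : ℝ) (v : Fin n), opv γ δ (bl₁ R₁ n (P v)) + s • opv γ δ (bl₂ R₁ n (nu v)) =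
      opv γ δ (bl₁ R₁ n (P v) + s • bl₂ R₁ n (nu v)) := by
    intro s v
    rw [map_add, map_smul]
  have hfin := fun (j : ℕ) (hj : 2 * j ≠ d) => h1 n j S L
    (fun v => opv γ δ (bl₁ R₁ n (P v)))
    (fun v => opv γ δ (bl₂ R₁ n (nu v))) hL (fun s v w hvw x => by
      change (opv γ δ (bl₁ R₁ n (P v)) + s • opv γ δ (bl₂ R₁ n (nu v)))
          ((opv γ δ (bl₁ R₁ n (P w)) + s • opv γ δ (bl₂ R₁ n (nu w))) x) +
        (opv γ δ (bl₁ R₁ n (P w)) + s • opv γ δ (bl₂ R₁ n (nu w)))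
          ((opv γ δ (bl₁ R₁ n (P v)) + s • opv γ δ (bl₂ R₁ n (nu v))) x) = 0
      rw [hs1, hs1, opv_rel hC, specg_ip, hPP v w hvw, mul_zero, zero_smul]) (fun s F u hu hF => by
      by_cases hs : s = 0
      · subst hs
        have h3 : (fun v => opv γ δ (bl₁ R₁ n (P v)) +
            (0 : ℝ) • opv γ δ (bl₂ R₁ n (nu v))) = fun v => opv γ δ (bl₁ R₁ n (P v)) := by
          funext v
          rw [zero_smul, add_zero]
        have h4 := D.kos F (hL _ hF _ (subset_insert u F)) u hu hF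
        change ∀ x ∈ KK ⊤ (fun v => opv γ δ (bl₁ R₁ n (P v)) +
            (0 : ℝ) • opv γ δ (bl₂ R₁ n (nu v))) F,
          (fun v => opv γ δ (bl₁ R₁ n (P v)) +
            (0 : ℝ) • opv γ δ (bl₂ R₁ n (nu v))) u x = 0 →
          ∃ y ∈ KK ⊤ (fun v => opv γ δ (bl₁ R₁ n (P v)) +
            (0 : ℝ) • opv γ δ (bl₂ R₁ n (nu v))) F,
          (fun v => opv γ δ (bl₁ R₁ n (P v)) +
            (0 : ℝ) • opv γ δ (bl₂ R₁ n (nu v))) u y = x
        rw [h3]
        exact h4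
      · have h3 : (fun v => opv γ δ (bl₁ R₁ n (P v)) + s • opv γ δ (bl₂ R₁ n (nu v))) =
            fun v => opv γ δ (bl₁ R₁ n (P v) + s • bl₂ R₁ n (nu v)) := funext fun v => hs1 s v
        have h4 := kos_of_dual (E := fun v => bl₁ R₁ n (P v) + s • bl₂ R₁ n (nu v))
          (M := fun v => s⁻¹ • bl₂ R₁ n (mud v)) hC hL
          (fun v w _ _ => specg_dual (P w) hs v w) F u hu hF
        change ∀ x ∈ KK ⊤ (fun v => opv γ δ (bl₁ R₁ n (P v)) +
            s • opv γ δ (bl₂ R₁ n (nu v))) F,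
          (fun v => opv γ δ (bl₁ R₁ n (P v)) + s • opv γ δ (bl₂ R₁ n (nu v))) u x = 0 →
          ∃ y ∈ KK ⊤ (fun v => opv γ δ (bl₁ R₁ n (P v)) +
            s • opv γ δ (bl₂ R₁ n (nu v))) F,
          (fun v => opv γ δ (bl₁ R₁ n (P v)) + s • opv γ δ (bl₂ R₁ n (nu v))) u y = x
        rw [h3]
        exact h4) (hex j hj)
  have hall : {s : ℝ | ∃ j ∈ (range (d + 1)).filter (fun j => 2 * j ≠ d),
      ¬ Ex L ⊤ (fun v => opv γ δ (bl₁ R₁ n (P v)) +
        s • opv γ δ (bl₂ R₁ n (nu v))) univ j}.Finite := by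
    have h3 : {s : ℝ | ∃ j ∈ (range (d + 1)).filter (fun j => 2 * j ≠ d),
        ¬ Ex L ⊤ (fun v => opv γ δ (bl₁ R₁ n (P v)) +
          s • opv γ δ (bl₂ R₁ n (nu v))) univ j} =
        ⋃ j ∈ (range (d + 1)).filter (fun j => 2 * j ≠ d),
          {s : ℝ | ¬ Ex L ⊤ (fun v => opv γ δ (bl₁ R₁ n (P v)) +
            s • opv γ δ (bl₂ R₁ n (nu v))) univ j} := by
      ext s
      simp only [Set.mem_iUnion, exists_prop]
      rfl
    rw [h3]
    exact Set.Finite.biUnion (Finset.finite_toSet _) fun j hj => hfin j (mem_filter.1 hj).2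
  obtain ⟨s, hs⟩ := (hall.union (Set.finite_singleton (0 : ℝ))).infinite_compl.nonempty
  rw [Set.mem_compl_iff, Set.mem_union, not_or] at hs
  have hs0 : s ≠ 0 := hs.2
  have hsE : ∀ j, (if Odd d then 0 else d / 2 + 1) ≤ j →
      Ex L ⊤ (fun v => opv γ δ (bl₁ R₁ n (P v)) +
        s • opv γ δ (bl₂ R₁ n (nu v))) univ j := by
    intro j hj
    have hjd : 2 * j ≠ d := by
      intro h3
      by_cases h4 : Odd d
      · obtain ⟨k, hk⟩ := h4
        omega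
      · rw [if_neg h4] at hj
        omega
    rcases lt_or_ge d j with h3 | h3
    · exact Ex_large fun F hF => lt_of_le_of_lt (hS.card_le F hF) h3
    · by_contra h4
      exact hs.1 ⟨j, mem_filter.2 ⟨mem_range.2 (by omega), hjd⟩, h4⟩
  refine ⟨fun v => bl₁ R₁ n (P v) + s • bl₂ R₁ n (nu v), ?_, ?_, ?_⟩
  · intro v w hvw
    rw [specg_ip]
    exact hPP v w hvw
  · exact ⟨fun v => s⁻¹ • bl₂ R₁ n (mud v), fun v w => specg_dual (P w) hs0 v w⟩
  · intro L' hL' j hj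
    rw [mem_singleton] at hL'
    subst hL'
    have h3 : (fun v => opv γ δ (bl₁ R₁ n (P v)) + s • opv γ δ (bl₂ R₁ n (nu v))) =
        fun v => opv γ δ (bl₁ R₁ n (P v) + s • bl₂ R₁ n (nu v)) := funext fun v => hs1 s v
    have h4 := hsE j hj
    rw [h3] at h4
    exact h4

end Pool.Agent.H14.CL
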