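import Pool.Agent.H14.CL.Stm4
import Pool.Agent.H14.CL.Ridge

/-!
Project CL, part 4, row A1: homology spheres of type 3 are combinatorial (helper15).
-/

set_option autoImplicit false

namespace Pool.Agent.H14.CL

open Finset

section

variable {n : ℕ} {L : Finset (Finset (Fin n))} {ε : Finset (Fin n) → ℝ}

private theorem sp_tau1 (y : Fin n) : tau ℝ y ({y} : Finset (Fin n)) = 1 := by
  unfold tau
  rw [Finset.filter_singleton, if_neg (lt_irrefl y), Finset.card_empty, pow_zero]

private theorem sp_tau2 {p q : Fin n} (h : p ≠ q) :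
    tau ℝ p ({p, q} : Finset (Fin n)) + tau ℝ q ({p, q} : Finset (Fin n)) = 0 := by
  unfold tau
  rw [Finset.filter_insert, Finset.filter_singleton, Finset.filter_insert,
    Finset.filter_singleton, if_neg (lt_irrefl p), if_neg (lt_irrefl q)]
  rcases lt_or_gt_of_ne h with h1 | h1
  · rw [if_neg (not_lt.2 h1.le), if_pos h1]
    simp
  · rw [if_pos h1, if_neg (not_lt.2 h1.le)]
    simp

open Classical in
private theorem sp_conn (hS : Sph ℝ L ε 3) {G : Finset (Fin n)} (hG : G ∈ L) (hG1 : G.card ≤ 1)
    (T : Finset (Fin n)) (hT : T.Nonempty) (h1 : ∀ y ∈ T, {y} ∈ lkF L G)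
    (h2 : ∀ y ∈ T, ∀ z, y ≠ z → ({y, z} : Finset (Fin n)) ∈ lkF L G → z ∈ T) :
    ∀ z, {z} ∈ lkF L G → z ∈ T := by
  intro z hz
  set φ : Finset (Fin n) → ℝ := fun N => if ∃ y ∈ T, N = {y} then 1 else 0 with hφ
  have hφ1 : ∀ y, φ {y} = if y ∈ T then 1 else 0 := by
    intro y
    rw [hφ]
    simp only
    congr 1
    refine propext ⟨?_, fun h => ⟨y, h, rfl⟩⟩
    rintro ⟨w, hw, h⟩
    rw [Finset.singleton_inj.1 h]
    exact hw
  obtain ⟨ψ, hψ⟩ := hS.low G hG 1 (by omega) φ (by
    intro N hN hc
    obtain ⟨p, q, hpq, rfl⟩ := Finset.card_eq_two.1 hc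
    have e1 : ({p, q} : Finset (Fin n)).erase p = {q} := by
      rw [Finset.erase_insert (by simpa using hpq)]
    have e2 : ({p, q} : Finset (Fin n)).erase q = {p} := by
      rw [Finset.pair_comm, Finset.erase_insert (by simpa using hpq.symm)]
    rw [Finset.sum_pair hpq, e1, e2, hφ1, hφ1]
    have h3 : q ∈ T ↔ p ∈ T := by
      constructor
      · intro h
        exact h2 q h p hpq.symm (by rw [Finset.pair_comm]; exact hN)
      · intro h
        exact h2 p h q hpq hN
    have h4 : (if q ∈ T then (1 : ℝ) else 0) = if p ∈ T then 1 else 0 := by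
      by_cases hp : p ∈ T
      · rw [if_pos hp, if_pos (h3.2 hp)]
      · rw [if_neg hp, if_neg fun h => hp (h3.1 h)]
    rw [h4, ← add_mul, sp_tau2 hpq, zero_mul])
  have key : ∀ y, {y} ∈ lkF L G → φ {y} = ψ ∅ := by
    intro y hy
    rw [hψ {y} hy (Finset.card_singleton y), Finset.sum_singleton, sp_tau1, one_mul]
    congr 1
    rw [Finset.erase_singleton]
  obtain ⟨y, hy⟩ := hT
  have h5 := key y (h1 y hy)
  have h6 := key z hz
  rw [hφ1, if_pos hy] at h5
  rw [hφ1, ← h5] at h6
  by_contra h
  rw [if_neg h] at h6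
  exact zero_ne_one h6

end

theorem st_sphP3 : StSphP3 := by
  intro n L ε hS
  have hd : ∀ F ∈ L, ∀ G, G ⊆ F → G ∈ L := hS.down
  have hvl : ∀ a b, Ed L a b → {a} ∈ L := fun a b hab =>
    hd _ hab.2 _ (by intro x hx; rw [mem_singleton.1 hx]; exact mem_insert_self _ _)
  have hvr : ∀ a b, Ed L a b → {b} ∈ L := fun a b hab => hvl b a hab.symm
  have htri : ∀ a b c, Ed L a b → Ed L a c → Ed L b c → ({a, b, c} : Finset (Fin n)) ∈ L := by
    intro a b c hab hac hbc
    apply hS.flag
    have ha : ({a, a} : Finset (Fin n)) ∈ L := by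
      rw [Finset.pair_eq_singleton]; exact hvl _ _ hab
    have hb : ({b, b} : Finset (Fin n)) ∈ L := by
      rw [Finset.pair_eq_singleton]; exact hvr _ _ hab
    have hc : ({c, c} : Finset (Fin n)) ∈ L := by
      rw [Finset.pair_eq_singleton]; exact hvr _ _ hac
    intro x hx y hy
    simp only [mem_insert, mem_singleton] at hx hy
    rcases hx with rfl | rfl | rfl <;> rcases hy with rfl | rfl | rfl
    · exact ha
    · exact hab.2
    · exact hac.2
    · exact hab.symm.2
    · exact hb
    · exact hbc.2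
    · exact hac.symm.2
    · exact hbc.symm.2
    · exact hc
  have hlk0 : lkF L ∅ = L := by
    unfold lkF
    ext F
    simp
  refine ⟨hS.down, hS.empty, hS.flag, hS.card_le, ?_, ?_, ?_, ?_, ?_⟩
  · intro x hx
    obtain ⟨Φ, hΦ, h1, h2⟩ := hS.pure {x} hx
    have h3 : ∃ y ∈ Φ, y ≠ x := by
      by_contra hcon
      push Not at hcon
      have h4 : Φ ⊆ {x} := fun y hy => mem_singleton.2 (hcon y hy)
      have := card_le_card h4
      rw [card_singleton] at this
      omega
    obtain ⟨y, hy, hyx⟩ := h3
    refine ⟨y, hyx.symm, hd Φ hΦ _ ?_⟩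
    intro z hz
    rw [mem_insert, mem_singleton] at hz
    rcases hz with rfl | rfl
    · exact h1 (mem_singleton_self _)
    · exact hy
  · intro a b hab
    obtain ⟨u, u', hne, hu, hu', hU, hU', -, hall, -⟩ :=
      st_ridge n ℝ L ε 3 hS {a, b} hab.2 (by rw [card_pair hab.1])
    have key : ∀ w, w ∉ ({a, b} : Finset (Fin n)) → insert w ({a, b} : Finset (Fin n)) ∈ L →
        Ed L a w ∧ Ed L b w := by
      intro w hw hW
      rw [mem_insert, mem_singleton, not_or] at hw
      refine ⟨⟨Ne.symm hw.1, hd _ hW _ ?_⟩, ⟨Ne.symm hw.2, hd _ hW _ ?_⟩⟩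
      · intro z hz
        simp only [mem_insert, mem_singleton] at hz ⊢
        tauto
      · intro z hz
        simp only [mem_insert, mem_singleton] at hz ⊢
        tauto
    refine ⟨u, u', hne, (key u hu hU).1, (key u hu hU).2, (key u' hu' hU').1,
      (key u' hu' hU').2, ?_⟩
    intro x hax hbx
    refine hall x ?_ ?_
    · rw [mem_insert, mem_singleton, not_or]
      exact ⟨hax.1.symm, hbx.1.symm⟩
    · have h := htri a b x hab hax hbx
      have e : insert x ({a, b} : Finset (Fin n)) = {a, b, x} := by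
        ext z
        simp only [mem_insert, mem_singleton]
        tauto
      rw [e]
      exact h
  · intro x T hT h1 h2 y hy
    have hx : {x} ∈ L := hvl x y hy
    have hmem : ∀ w, {w} ∈ lkF L {x} ↔ Ed L x w := by
      intro w
      unfold lkF
      rw [mem_filter]
      constructor
      · rintro ⟨h3, h4, h5⟩
        have hwx : w ≠ x := by
          rintro rfl
          rw [inter_self] at h4
          exact singleton_ne_empty _ h4
        refine ⟨hwx.symm, ?_⟩
        have e : ({w} : Finset (Fin n)) ∪ {x} = {x, w} := by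
          ext z
          simp only [mem_union, mem_insert, mem_singleton]
          tauto
        rw [← e]
        exact h5
      · intro h3
        refine ⟨hvr _ _ h3, ?_, ?_⟩
        · rw [singleton_inter_of_notMem]
          rw [mem_singleton]
          exact h3.1.symm
        · have e : ({w} : Finset (Fin n)) ∪ {x} = {x, w} := by
            ext z
            simp only [mem_union, mem_insert, mem_singleton]
            tauto
          rw [e]
          exact h3.2
    refine sp_conn hS hx (by rw [card_singleton]) T hT (fun w hw => (hmem w).2 (h1 w hw)) ?_ y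
      ((hmem y).2 hy)
    intro w hw z hwz hz
    unfold lkF at hz
    rw [mem_filter] at hz
    obtain ⟨h3, h4, h5⟩ := hz
    have hzx : x ≠ z := by
      rintro rfl
      have h6 : x ∈ ({w, x} : Finset (Fin n)) ∩ {x} := by
        rw [mem_inter, mem_insert, mem_singleton]
        exact ⟨Or.inr rfl, rfl⟩
      rw [h4] at h6
      exact absurd h6 (notMem_empty _)
    refine h2 w hw z ⟨hzx, hd _ h5 _ ?_⟩ ⟨hwz, h3⟩
    intro t ht
    simp only [mem_insert, mem_singleton, mem_union] at ht ⊢
    tauto
  · intro T hT h1 h2 y hy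
    refine sp_conn hS hS.empty (by rw [card_empty]; omega) T hT
      (fun w hw => by rw [hlk0]; exact h1 w hw) ?_ y (by rw [hlk0]; exact hy)
    intro w hw z hwz hz
    rw [hlk0] at hz
    exact h2 w hw z ⟨hwz, hz⟩
  · have h := hS.euler ∅ hS.empty
    rw [hlk0, card_empty] at h
    rw [h]
    norm_num

end Pool.Agent.H14.CL
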