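import Pool.Agent.H14.CL.Blk

/-!
Project CL: two points (D12).
-/

set_option autoImplicit false

namespace Pool.Agent.H14.CL

open Finset

/-- the vectors of two points -/
private noncomputable def twoE {n : ℕ} (a b : Fin n) (v : Fin n) : Vec n :=
  if v = b then nu b + mud a else nu v

private theorem two_faces {n : ℕ} {a b v w : Fin n}
    (h : ({v, w} : Finset (Fin n)) ∈ ({∅, {a}, {b}} : Finset (Finset (Fin n)))) :
    (v = a ∧ w = a) ∨ (v = b ∧ w = b) := by
  simp only [mem_insert, mem_singleton] at h
  rcases h with h | h | h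
  · exact absurd (h ▸ mem_insert_self v {w} : v ∈ (∅ : Finset (Fin n))) (notMem_empty v)
  · left
    have h1 : v ∈ ({a} : Finset (Fin n)) := h ▸ mem_insert_self v {w}
    have h2 : w ∈ ({a} : Finset (Fin n)) := h ▸ mem_insert_of_mem (mem_singleton_self w)
    exact ⟨mem_singleton.1 h1, mem_singleton.1 h2⟩
  · right
    have h1 : v ∈ ({b} : Finset (Fin n)) := h ▸ mem_insert_self v {w}
    have h2 : w ∈ ({b} : Finset (Fin n)) := h ▸ mem_insert_of_mem (mem_singleton_self w)
    exact ⟨mem_singleton.1 h1, mem_singleton.1 h2⟩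

private theorem bd_two {n : ℕ} {S : Type} [AddCommGroup S] [Module ℝ S] {a b : Fin n}
    (hab : a ≠ b) (y : Finset (Fin n) → S) (hy : ∀ u, u ≠ a → u ≠ b → y {u} = 0) :
    bd ℝ y ∅ = y {a} + y {b} := by
  rw [bd_apply]
  have h1 : ∀ u ∈ univ.filter (fun u : Fin n => u ∉ (∅ : Finset (Fin n))),
      tau ℝ u (∅ : Finset (Fin n)) • y (insert u ∅) = y {u} := by
    intro u _
    rw [tau_empty, one_smul, insert_empty_eq]
  rw [Finset.sum_congr rfl h1]
  exact Finset.sum_eq_add a b hab (fun c _ hc => hy c hc.1 hc.2)
    (fun h => absurd (mem_filter.2 ⟨mem_univ a, notMem_empty a⟩) h)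
    (fun h => absurd (mem_filter.2 ⟨mem_univ b, notMem_empty b⟩) h)

/-- exactness for two points -/
private theorem ex_two {n : ℕ} {S : Type} [AddCommGroup S] [Module ℝ S] {a b : Fin n}
    (hab : a ≠ b) (e : Fin n → S →ₗ[ℝ] S) (ha : ∀ x, e a (e a x) = 0)
    (hb : ∀ x, e b (e b x) = 0) (hr : ∀ x, e a (e b x) + e b (e a x) = x) (j : ℕ) :
    Ex ({∅, {a}, {b}} : Finset (Finset (Fin n))) ⊤ e univ j := by
  intro x hx hx0
  have hL : ∀ G : Finset (Fin n), G ∈ ({∅, {a}, {b}} : Finset (Finset (Fin n))) →
      G = ∅ ∨ G = {a} ∨ G = {b} := by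
    intro G hG
    simpa only [mem_insert, mem_singleton] using hG
  rcases j with _ | j
  · -- `j = 0`
    have hab' : ({a} : Finset (Fin n)) ≠ {b} := fun h => hab (singleton_injective h)
    set t := x ∅ with ht
    let y : Finset (Fin n) → S := fun G =>
      if G = {a} then e a (e b t) else if G = {b} then e b (e a t) else 0
    have hya : y {a} = e a (e b t) := if_pos rfl
    have hyb : y {b} = e b (e a t) := by
      change (if ({b} : Finset (Fin n)) = {a} then e a (e b t) else
        if ({b} : Finset (Fin n)) = {b} then e b (e a t) else 0) = _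
      rw [if_neg hab'.symm, if_pos rfl]
    have hy0 : ∀ G, G ≠ {a} → G ≠ {b} → y G = 0 := by
      intro G h1 h2
      change (if G = {a} then e a (e b t) else if G = {b} then e b (e a t) else 0) = _
      rw [if_neg h1, if_neg h2]
    refine ⟨y, ?_, ?_⟩
    · intro G
      rcases eq_or_ne G {a} with rfl | h1
      · refine ⟨⟨trivial, fun v hv => ?_⟩, fun h => ?_⟩
        · rw [mem_singleton.1 hv, hya, ha]
        · exact absurd ⟨by simp, subset_univ _, by simp⟩ h
      · rcases eq_or_ne G {b} with rfl | h2
        · refine ⟨⟨trivial, fun v hv => ?_⟩, fun h => ?_⟩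
          · rw [mem_singleton.1 hv, hyb, hb]
          · exact absurd ⟨by simp, subset_univ _, by simp⟩ h
        · rw [hy0 G h1 h2]
          exact ⟨Submodule.zero_mem _, fun _ => rfl⟩
    · funext G
      rcases eq_or_ne G ∅ with rfl | hG
      · rw [bd_two hab y (fun u hu hu' => hy0 _ (fun h => hu (singleton_injective h))
          (fun h => hu' (singleton_injective h))), hya, hyb, hr]
      · have h1 : x G = 0 := by
          refine (hx G).2 fun h => hG ?_
          exact card_eq_zero.1 h.2.2
        rw [h1, bd_apply]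
        refine Finset.sum_eq_zero fun u hu => ?_
        have hu' := (mem_filter.1 hu).2
        have h2 : 2 ≤ (insert u G).card := by
          rw [card_insert_of_notMem hu']
          have := card_pos.2 (nonempty_iff_ne_empty.2 hG)
          omega
        rw [hy0 _ (fun h => by rw [h, card_singleton] at h2; omega)
          (fun h => by rw [h, card_singleton] at h2; omega), smul_zero]
  · -- `x = 0`
    have hz : x = 0 := by
      rcases j with _ | j
      · have h1 : x {a} + x {b} = 0 := by
          rw [← bd_two hab x (fun u hu hu' => (hx {u}).2 fun h => ?_), hx0]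
          · rfl
          · rcases hL _ h.1 with h | h | h
            · exact singleton_ne_empty u h
            · exact hu (singleton_injective h)
            · exact hu' (singleton_injective h)
        have h2 : e a (x {a}) = 0 := (hx {a}).1.2 a (mem_singleton_self a)
        have h3 : e b (x {b}) = 0 := (hx {b}).1.2 b (mem_singleton_self b)
        have h4 : x {a} = - x {b} := eq_neg_of_add_eq_zero_left h1
        have h5 : x {a} = 0 := by
          rw [← hr (x {a}), h2, map_zero, add_zero, h4, map_neg, h3, neg_zero, map_zero]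
        have h6 : x {b} = 0 := by
          rw [h5, zero_add] at h1
          exact h1
        funext G
        by_cases hG : G ∈ ({∅, {a}, {b}} : Finset (Finset (Fin n)))
        · rcases hL _ hG with rfl | rfl | rfl
          · exact (hx ∅).2 fun h => by simp at h
          · exact h5
          · exact h6
        · exact (hx G).2 fun h => hG h.1
      · funext G
        refine (hx G).2 fun h => ?_
        rcases hL _ h.1 with h' | h' | h'
        · rw [h'] at h; simp at h
        · rw [h'] at h; simp at h
        · rw [h'] at h; simp at h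
    rw [hz]
    exact ⟨0, Submodule.zero_mem _, map_zero _⟩

theorem st_two : StTwo := by
  intro n a b hab
  refine ⟨n, ?_⟩
  intro R hR S _ _ _ γ δ hC
  obtain ⟨R₁, rfl⟩ := Nat.exists_eq_add_of_le' hR
  have hEa : twoE a b a = nu a := if_neg hab
  have hEb : twoE a b b = nu b + mud a := if_pos rfl
  have haa : ip (twoE a b a) (twoE a b a) = 0 := by rw [hEa, ip_nu]
  have hbb : ip (twoE a b b) (twoE a b b) = 0 := by
    rw [hEb, ip_add_left, ip_add_right, ip_add_right, ip_nu, ip_mud, ip_comm (mud a) (nu b),
      ip_nu_mud, if_neg hab]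
    norm_num
  have hab2 : ip (twoE a b a) (twoE a b b) = 1 / 2 := by
    rw [hEa, hEb, ip_add_right, ip_nu, ip_nu_mud, if_pos rfl, zero_add]
  refine ⟨fun v => bl₂ R₁ n (twoE a b v), ?_, ⟨fun v => bl₂ R₁ n (mud v), ?_⟩, ?_⟩
  · intro v w hvw
    rw [ip_bl₂]
    rcases two_faces hvw with ⟨rfl, rfl⟩ | ⟨rfl, rfl⟩
    · exact haa
    · exact hbb
  · intro v w
    change ip (bl₂ R₁ n (twoE a b w)) (bl₂ R₁ n (mud v)) = _
    rw [ip_bl₂]
    rcases eq_or_ne w b with rfl | hw
    · rw [hEb, ip_add_left, ip_mud, add_zero, ip_nu_mud]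
    · rw [twoE, if_neg hw, ip_nu_mud]
  · intro L hL j
    rw [mem_singleton.1 hL]
    refine ex_two hab _ (fun x => ?_) (fun x => ?_) (fun x => ?_) j
    · exact opv_sq hC (by rw [ip_bl₂]; exact haa) x
    · exact opv_sq hC (by rw [ip_bl₂]; exact hbb) x
    · exact opv_half hC (by rw [ip_bl₂]; exact hab2) x

end Pool.Agent.H14.CL
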