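import Pool.Agent.H14.CL.ClassD
import Pool.Agent.H14.CL.Rk
import Pool.Agent.H14.CL.Par
import Pool.Agent.H14.CL.SCK
import Pool.Agent.H14.CL.NormK
import Pool.Agent.H14.CL.AllK
import Pool.Agent.H14.CL.KzK
import Pool.Agent.H14.CL.AddK
import Pool.Agent.H14.CL.MVK
import Pool.Agent.H14.CL.DblK
import Pool.Agent.H14.CL.OffK
import Pool.Agent.H14.CL.SplitOpK
import Pool.Agent.H14.CL.ColG
import Pool.Agent.H14.CL.HomRank
import Pool.Agent.H14.CL.AddGK
import Pool.Agent.H14.CL.GlueGK
import Pool.Agent.H14.CL.SplitGK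
import Pool.Agent.H14.CL.SpecGK
import Pool.Agent.H14.CL.DualG
import Pool.Agent.H14.CL.LocG
import Pool.Agent.H14.CL.FSL
import Pool.Agent.H14.CL.Two
import Pool.Agent.H14.CL.SphP3
import Pool.Agent.H14.CL.P3U
import Pool.Agent.H14.CL.P3O
import Pool.Agent.H14.CL.SideEx
import Pool.Agent.H14.CL.SideAp
import Pool.Agent.H14.CL.SideCon
import Pool.Agent.H14.CL.Deg4
import Pool.Agent.H14.CL.Oct5
import Pool.Agent.H14.CL.CtrF
import Pool.Agent.H14.CL.CtrE
import Pool.Agent.H14.CL.CtrTwo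
import Pool.Agent.H14.CL.Cyc
import Pool.Agent.H14.CL.CtrLk
import Pool.Agent.H14.CL.CtrCon
import Pool.Agent.H14.CL.CtrChi
import Pool.Agent.H14.CL.Ctr
import Pool.Agent.H14.CL.OctG
import Pool.Agent.H14.CL.FS3

/-!
Project CL: soundness of the classes `B(k)`, all rows together.
-/

set_option autoImplicit false

namespace Pool.Agent.H14.CL

theorem scK : StSCK := st_scK st_rk st_par

theorem all_k : StAllK := st_allK st_normK scK

theorem splitGK : StSplitGK := st_splitGK all_k (st_splitOpK st_kzK st_dblK st_offK)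

theorem sideAp : StSideAp := st_sideAp (st_p3O st_p3U st_homRank) st_p3U

theorem sideEx : StSideEx := st_sideEx (st_p3O st_p3U st_homRank)

/-- flag homology 2-spheres belong to `B(0)` -/
theorem p3G : StP3G :=
  st_p3G (st_deg4 sideEx sideAp (st_sideCon sideAp)) (st_oct5 sideEx sideAp)
    (st_ctr st_ctrF st_ctrE st_ctrTwo (st_ctrLk st_cyc) st_ctrCon st_ctrChi)
    (st_octG (st_colG scK)) splitGK st_two

theorem allK : AllK where
  low := st_fs3 st_sphP3 p3G st_two
  col := st_colG scK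
  hom := st_homRank
  spec := st_specGK scK
  add := st_addGK all_k st_addK st_kzK
  del := st_delGK all_k st_delK st_kzK
  glue := st_glueGK all_k st_mvK
  split := splitGK
  loc := st_locG (st_addGK all_k st_addK st_kzK) (st_delGK all_k st_delK st_kzK)
  dual := st_dualG
  euler := st_eulerG

/-- the inequality for the class `B(m + 1)` -/
theorem cd_class {n m : ℕ} {Δ : Finset (Finset (Fin n))} {ε : Finset (Fin n) → ℝ}
    (hS : Sph ℝ Δ ε (2 * m)) (h : Bk (m + 1) Δ) :
    0 ≤ (-1 : ℤ) ^ m * ∑ F ∈ Δ, (-1 : ℤ) ^ F.card * 2 ^ (2 * m - F.card) :=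
  st_finD n m Δ ε hS (h.sound allK)

end Pool.Agent.H14.CL
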