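import Pool.Agent.H14.CL.Core

/-!
The Charney-Davis inequality under a spectral condition on the graph of non-adjacent pairs:
there is a real symmetric matrix `W`, indexed by the vertices, which is zero on the diagonal and
on the edges of `Δ`, has at most `d` negative eigenvalues, and is positive on the relevant
non-adjacent pairs: for every face `F` which is not a facet some vertex `v` of the link of `F`
satisfies `0 < W u v` for all vertices `u` of the link which are not adjacent to `v` (for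
instance `W` may be positive on all non-adjacent pairs).

All other hypotheses are those of the frozen statement of the problem.
-/

set_option autoImplicit false

namespace Pool.Agent.H14.CL.SpectralOld

open Finset Pool.Agent.H14

theorem result :
    ∀ (k : Type) [Field k] (n d e : ℕ) (Δ : Finset (Finset (Fin n)))
      (bd : Finset (Finset (Fin n)) → ℕ → Matrix (Finset (Fin n)) (Finset (Fin n)) k),
      bd = (fun L m => Matrix.of (fun G H =>
        if G ∈ L ∧ H ∈ L ∧ G.card + 1 = m ∧ H.card = m ∧ G ⊆ H then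
          (-1 : k) ^ ((G ×ˢ (H \ G)).filter (fun p => p.1 < p.2)).card else 0)) →
      ∅ ∈ Δ →
      (∀ F ∈ Δ, ∀ G : Finset (Fin n), G ⊆ F → G ∈ Δ) →
      (∀ S : Finset (Fin n), (∀ a ∈ S, ∀ b ∈ S, ({a, b} : Finset (Fin n)) ∈ Δ) → S ∈ Δ) →
      (∀ F ∈ Δ, F.card ≤ d) →
      (∃ F ∈ Δ, F.card = d) →
      (∀ F ∈ Δ, ∀ m : ℕ,
        ((((Δ.filter (fun G => G ∩ F = ∅ ∧ G ∪ F ∈ Δ)).filter (fun G => G.card = m)).card : ℤ)
          - ((bd (Δ.filter (fun G => G ∩ F = ∅ ∧ G ∪ F ∈ Δ)) m).rank : ℤ)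
          - ((bd (Δ.filter (fun G => G ∩ F = ∅ ∧ G ∪ F ∈ Δ)) (m + 1)).rank : ℤ))
          = if m = d - F.card then 1 else 0) →
      d = 2 * e →
      ∀ (W : Matrix (Fin n) (Fin n) ℝ) (hW : W.IsHermitian),
      (∀ u v, ({u, v} : Finset (Fin n)) ∈ Δ → W u v = 0) →
      (∀ F ∈ Δ, F.card < d → ∃ v, v ∉ F ∧ insert v F ∈ Δ ∧
        ∀ u, u ∉ F → insert u F ∈ Δ → ({u, v} : Finset (Fin n)) ∉ Δ → 0 < W u v) →
      (univ.filter (fun i => hW.eigenvalues i < 0)).card ≤ d →
      0 ≤ (-1 : ℤ) ^ e * ∑ F ∈ Δ, (-1 : ℤ) ^ F.card * 2 ^ (d - F.card) := by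
  intro k _ n d e Δ bd hbd hempty hdown hflag hdim _ hrank hde W hW h0 hpos hneg
  have hR : CL.RankHyp k Δ d := by
    intro F hF m
    have h := hrank F hF m
    rw [hbd] at h
    exact h
  have hR' : CL.RankHyp ℝ Δ d := CL.st_rankField n k Δ d hdown hR
  obtain ⟨ε, hS⟩ := CL.rankSph_all n ℝ Δ d hempty hdown hflag hdim hR'
  have h1 := CL.spectral_links hS W hW h0 hpos hneg ∅ hempty e (by rw [card_empty]; omega)
  rw [CL.lkF_empty] at h1
  rw [hde]
  exact h1

end Pool.Agent.H14.CL.SpectralOld
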