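import Pool.Agent.H14.CL.Dbl

/-!
Project CL, second part, row D15: splitting a vertex.
-/

set_option autoImplicit false

namespace Pool.Agent.H14.CL

open Finset

theorem splitG_down {n : ℕ} {L : Finset (Finset (Fin n))} (hD : Down L) {u v : Fin n} :
    Down (contr L u v) := by
  intro G hG G' hG'
  obtain ⟨F, hF, rfl⟩ := mem_contr.1 hG
  by_cases hv : v ∈ F
  · rw [if_pos hv] at hG'
    by_cases hu : u ∈ G'
    · have h1 : ∀ x ∈ G'.erase u, x ∈ F.erase v := by
        intro x hx
        rw [mem_erase] at hx
        exact (mem_insert.1 (hG' hx.2)).resolve_left hx.1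
      have h2 : insert u (G'.erase u) ∈ contr L u v := by
        refine contr_of_mem' (fun h => (mem_erase.1 (h1 v h)).1 rfl) (hD F hF _ ?_)
        intro x hx
        rcases mem_insert.1 hx with rfl | hx
        · exact hv
        · exact (mem_erase.1 (h1 x hx)).2
      rwa [insert_erase hu] at h2
    · have h1 : ∀ x ∈ G', x ∈ F.erase v := by
        intro x hx
        exact (mem_insert.1 (hG' hx)).resolve_left (fun h => hu (h ▸ hx))
      exact contr_of_mem (fun h => (mem_erase.1 (h1 v h)).1 rfl)
        (hD F hF _ fun x hx => (mem_erase.1 (h1 x hx)).2)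
  · rw [if_neg hv] at hG'
    exact contr_of_mem (fun h => hv (hG' h)) (hD F hF _ hG')

theorem splitG_memN {n : ℕ} {L : Finset (Finset (Fin n))} (hD : Down L) {u v : Fin n}
    {G : Finset (Fin n)} :
    G ∈ lk (lk L u) v ↔ v ∉ G ∧ u ∉ insert v G ∧ insert u (insert v G) ∈ L := by
  rw [mem_lk' (down_lk hD u), mem_lk' hD]

theorem splitG_indN {n : ℕ} {L : Finset (Finset (Fin n))} (hD : Down L) (hF : Flag L)
    {u v x y : Fin n} (hx : {x} ∈ lk (lk L u) v)
    (hy : {y} ∈ lk (lk L u) v) (hxy : ({x, y} : Finset (Fin n)) ∈ contr L u v) :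
    ({x, y} : Finset (Fin n)) ∈ lk (lk L u) v := by
  rw [splitG_memN hD] at hx hy ⊢
  obtain ⟨hx1, hx2, hx3⟩ := hx
  obtain ⟨hy1, hy2, hy3⟩ := hy
  rw [mem_singleton] at hx1 hy1
  rw [mem_insert, mem_singleton, not_or] at hx2 hy2
  have hxyL : ({x, y} : Finset (Fin n)) ∈ L := by
    refine contr_0 hxy ?_
    rw [mem_insert, mem_singleton, not_or]
    exact ⟨hx2.2, hy2.2⟩
  refine ⟨?_, ?_, ?_⟩
  · rw [mem_insert, mem_singleton, not_or]
    exact ⟨hx1, hy1⟩
  · rw [mem_insert, mem_insert, mem_singleton, not_or, not_or]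
    exact ⟨hx2.1, hx2.2, hy2.2⟩
  · have hux : ∀ a ∈ ({u, v, x} : Finset (Fin n)), ∀ b ∈ ({u, v, x} : Finset (Fin n)),
        ({a, b} : Finset (Fin n)) ∈ L := by
      intro a ha b hb
      refine hD _ hx3 _ fun c hc => ?_
      rcases mem_insert.1 hc with rfl | hc
      · exact ha
      · rw [mem_singleton] at hc
        rw [hc]
        exact hb
    have huy : ∀ a ∈ ({u, v, y} : Finset (Fin n)), ∀ b ∈ ({u, v, y} : Finset (Fin n)),
        ({a, b} : Finset (Fin n)) ∈ L := by
      intro a ha b hb
      refine hD _ hy3 _ fun c hc => ?_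
      rcases mem_insert.1 hc with rfl | hc
      · exact ha
      · rw [mem_singleton] at hc
        rw [hc]
        exact hb
    refine hF _ fun a ha b hb => ?_
    by_cases h1 : a = y
    · subst h1
      by_cases h2 : b = x
      · subst h2
        rw [pair_comm]
        exact hxyL
      · refine huy a (by simp) b ?_
        simp only [mem_insert, mem_singleton] at hb ⊢
        tauto
    · by_cases h2 : b = y
      · subst h2
        by_cases h3 : a = x
        · subst h3
          exact hxyL
        · refine huy a ?_ b (by simp)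
          simp only [mem_insert, mem_singleton] at ha ⊢
          tauto
      · refine hux a ?_ b ?_
        · simp only [mem_insert, mem_singleton] at ha ⊢
          tauto
        · simp only [mem_insert, mem_singleton] at hb ⊢
          tauto

/-- D15: splitting a vertex -/
theorem st_splitG (h1 : StAll) (h2 : StSplitOp) : StSplitG := by
  intro n L u v hD hF huv huvL hC hN
  have huL : ({u} : Finset (Fin n)) ∈ L := hD _ huvL _ (by simp)
  have hX : GoodF {contr L u v, lk (lk L u) v}
      (fun x y => ({x, y} : Finset (Fin n)) ∈ contr L u v ∨ x = v ∨ y = v) := by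
    refine h1 n _ _ fun L' hL' => ?_
    rw [mem_insert, mem_singleton] at hL'
    rcases hL' with rfl | rfl
    · refine ⟨splitG_down hD, hC, fun x y hx hy hxy => ?_, fun x y hxy => Or.inl hxy⟩
      have hxv := contr_v huv hx
      have hyv := contr_v huv hy
      rw [mem_singleton] at hxv hyv
      rcases hxy with h | h | h
      · exact h
      · exact absurd h.symm hxv
      · exact absurd h.symm hyv
    · refine ⟨down_lk (down_lk hD u) v, hN, fun x y hx hy hxy => ?_, fun x y hxy => ?_⟩
      · have hxv := ((splitG_memN hD).1 hx).1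
        have hyv := ((splitG_memN hD).1 hy).1
        rw [mem_singleton] at hxv hyv
        rcases hxy with h | h | h
        · exact splitG_indN hD hF hx hy h
        · exact absurd h.symm hxv
        · exact absurd h.symm hyv
      · have h3 := (splitG_memN hD).1 hxy
        exact Or.inl (contr_of_mem h3.1 (hD _ h3.2.2 _
          ((subset_insert _ _).trans (subset_insert _ _))))
  obtain ⟨R₀, hR⟩ := hX
  refine ⟨R₀, fun R hRR S _ _ _ γ δ hCl => ?_⟩
  obtain ⟨E, hE⟩ := hR R hRR S γ δ hCl
  obtain ⟨M, hM⟩ := hE.dual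
  have hvE : ∀ x, ip (E v) (E x) = 0 := fun x => hE.orth v x (Or.inr (Or.inl rfl))
  have hEv : ∀ x, ip (E x) (E v) = 0 := fun x => hE.orth x v (Or.inr (Or.inr rfl))
  have huu : ip (E u) (E u) = 0 := by
    refine hE.orth u u (Or.inl ?_)
    rw [pair_eq_singleton]
    exact contr_of_mem (fun h => huv (mem_singleton.1 h).symm) huL
  have hEM : ∀ a b, a ≠ b → ip (E b) (M a) = 0 := fun a b h => by
    have := hM a b
    rwa [if_neg h] at this
  have hEMs : ∀ a, ip (E a) (M a) = 1 / 2 := fun a => by
    have := hM a a
    rwa [if_pos rfl] at this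
  have hor : ∀ x y, x ≠ v → y ≠ v → ({x, y} : Finset (Fin n)) ∈ L → ip (E x) (E y) = 0 := by
    intro x y hx hy hxy
    refine hE.orth x y (Or.inl (contr_of_mem ?_ hxy))
    rw [mem_insert, mem_singleton, not_or]
    exact ⟨hx.symm, hy.symm⟩
  have hou : ∀ x, x ≠ v → ({v, x} : Finset (Fin n)) ∈ L → ip (E u) (E x) = 0 := by
    intro x hx hxy
    refine hE.orth u x (Or.inl (contr_of_mem' ?_ hxy))
    rw [mem_singleton]
    exact hx.symm
  -- the new configuration
  let E' : Fin n → Vec R := fun x => if x = v then E u + E v else E x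
  let M' : Fin n → Vec R := fun x => if x = u then M u - M v else M x
  have hE'v : E' v = E u + E v := if_pos rfl
  have hE'n : ∀ x, x ≠ v → E' x = E x := fun x hx => if_neg hx
  have hE'u : E' u = E u := hE'n u huv
  have hdual : Dual E' M' := by
    intro a b
    by_cases hb : b = v
    · subst hb
      rw [hE'v, ip_add_left]
      by_cases ha : a = u
      · subst ha
        change ip (E a) (if a = a then M a - M b else M a) +
          ip (E b) (if a = a then M a - M b else M a) = _
        rw [if_pos rfl, if_neg huv, ip_sub_right, ip_sub_right, hEMs a, hEMs b,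
          hEM b a huv.symm, hEM a b huv]
        ring
      · change ip (E u) (if a = u then M u - M b else M a) +
          ip (E b) (if a = u then M u - M b else M a) = _
        rw [if_neg ha, hEM a u ha, zero_add]
        exact hM a b
    · rw [hE'n b hb]
      by_cases ha : a = u
      · subst ha
        change ip (E b) (if a = a then M a - M v else M a) = _
        rw [if_pos rfl, ip_sub_right, hEM v b (fun h => hb h.symm), sub_zero]
        exact hM a b
      · change ip (E b) (if a = u then M u - M v else M a) = _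
        rw [if_neg ha]
        exact hM a b
  have horth : ∀ x y, ({x, y} : Finset (Fin n)) ∈ L → ip (E' x) (E' y) = 0 := by
    intro x y hxy
    by_cases hx : x = v
    · subst hx
      by_cases hy : y = x
      · subst hy
        rw [hE'v, ip_add_left, ip_add_right, ip_add_right, huu, hEv u, hvE u, hvE y]
        norm_num
      · rw [hE'v, hE'n y hy, ip_add_left, hvE y, hou y hy hxy]
        norm_num
    · by_cases hy : y = v
      · subst hy
        rw [hE'v, hE'n x hx, ip_add_right, hEv x, ip_comm, hou x hx (by rwa [pair_comm])]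
        norm_num
      · rw [hE'n x hx, hE'n y hy]
        exact hor x y hx hy hxy
  refine ⟨E', horth, ⟨M', hdual⟩, fun L' hL' => ?_⟩
  rw [mem_singleton.1 hL']
  refine h2 n ℝ S L (fun x => opv γ δ (E' x)) (opv γ δ (E v)) (opv γ δ (M v)) (opv γ δ (M u)) u v
    hD hF huv huvL ?_ ?_ ?_ ?_ ?_ ?_ ?_ ?_ ?_ ?_ ?_ ?_
  · intro x
    change opv γ δ (E' v) x = opv γ δ (E' u) x + opv γ δ (E v) x
    rw [hE'v, hE'u, map_add, LinearMap.add_apply]
  · exact opv_sq hCl (hvE v)
  · exact opv_half hCl (hEMs v)
  · intro x
    rw [opv_anti hCl (hEM u v huv) x, neg_add_cancel]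
  · intro w _ x
    refine opv_anti hCl ?_ x
    by_cases hw : w = v
    · rw [hw, hE'v, ip_add_right, hvE u, hvE v, add_zero]
    · rw [hE'n w hw]
      exact hvE w
  · intro w _ hw x
    refine opv_anti hCl ?_ x
    rw [hE'n w hw, ip_comm]
    exact hEM v w hw.symm
  · intro w _ hwu hw x
    refine opv_anti hCl ?_ x
    rw [hE'n w hw, ip_comm]
    exact hEM u w hwu.symm
  · intro x
    refine opv_half hCl ?_ x
    rw [hE'u, ip_comm]
    exact hEMs u
  · refine opv_sq hCl ?_
    rw [hE'u]
    exact huu
  · intro w hw _ hwv x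
    refine opv_anti hCl ?_ x
    rw [hE'u, hE'n w hwv]
    exact hor w u hwv huv (by rwa [pair_comm])
  · intro j
    refine Ex_congr (splitG_down hD) (fun w hw x => ?_)
      (hE.ex (contr L u v) (mem_insert_self _ _) j)
    have hwv : w ≠ v := fun h => contr_v huv hw (mem_singleton.2 h.symm)
    change opv γ δ (E w) x = 0 ↔ opv γ δ (E' w) x = 0
    rw [hE'n w hwv]
  · intro j
    refine Ex_congr (down_lk (down_lk hD u) v) (fun w hw x => ?_)
      (hE.ex (lk (lk L u) v) (mem_insert_of_mem (mem_singleton_self _)) j)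
    have hwv : w ≠ v := fun h => ((splitG_memN hD).1 hw).1 (mem_singleton.2 h.symm)
    change opv γ δ (E w) x = 0 ↔ opv γ δ (E' w) x = 0
    rw [hE'n w hwv]

end Pool.Agent.H14.CL
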