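import Pool.Agent.H14.CL.SplitG
import Pool.Agent.H14.CL.Stm3

/-!
Project CL, third part, row F16: splitting a vertex, for the classes `B(k)`.
-/

set_option autoImplicit false

namespace Pool.Agent.H14.CL

open Finset

/-- F16: splitting a vertex -/
theorem st_splitGK (h1 : StAllK) (h2 : StSplitOpK) : StSplitGK := by
  intro n k L u v hD hF huv huvL hC hN
  have huL : ({u} : Finset (Fin n)) ∈ L := hD _ huvL _ (by simp)
  have hX : GoodK {(k, contr L u v), (k - 1, lk (lk L u) v)}
      (fun x y => ({x, y} : Finset (Fin n)) ∈ contr L u v ∨ x = v ∨ y = v) := by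
    refine h1 n _ _ fun p hp => ?_
    rw [mem_insert, mem_singleton] at hp
    rcases hp with rfl | rfl
    · refine ⟨splitG_down hD, hC, fun x y hx hy hxy => ?_, fun x y hxy => Or.inl hxy⟩
      have hxv := contr_v huv hx
      have hyv := contr_v huv hy
      rw [mem_singleton] at hxv hyv
      rcases hxy with h | h | h
      · exact h
      · exact absurd h.symm hxv
      · exact absurd h.symm hyv
    · refine ⟨down_lk (down_lk hD u) v, hN, fun x y hx hy hxy => ?_, fun x y hxy => ?_⟩
      · have hxv := ((splitG_memN hD).1 hx).1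
        have hyv := ((splitG_memN hD).1 hy).1
        rw [mem_singleton] at hxv hyv
        rcases hxy with h | h | h
        · exact splitG_indN hD hF hx hy h
        · exact absurd h.symm hxv
        · exact absurd h.symm hyv
      · have h3 := (splitG_memN hD).1 hxy
        exact Or.inl (contr_of_mem h3.1 (hD _ h3.2.2 _
          ((subset_insert _ _).trans (subset_insert _ _))))
  obtain ⟨R₀, hR⟩ := hX
  refine ⟨R₀, fun R hRR S _ _ _ γ δ hCl => ?_⟩
  obtain ⟨E, hE⟩ := hR R hRR S γ δ hCl
  obtain ⟨M, hM⟩ := hE.dual
  have hvE : ∀ x, ip (E v) (E x) = 0 := fun x => hE.orth v x (Or.inr (Or.inl rfl))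
  have hEv : ∀ x, ip (E x) (E v) = 0 := fun x => hE.orth x v (Or.inr (Or.inr rfl))
  have huu : ip (E u) (E u) = 0 := by
    refine hE.orth u u (Or.inl ?_)
    rw [pair_eq_singleton]
    exact contr_of_mem (fun h => huv (mem_singleton.1 h).symm) huL
  have hEM : ∀ a b, a ≠ b → ip (E b) (M a) = 0 := fun a b h => by
    have := hM a b
    rwa [if_neg h] at this
  have hEMs : ∀ a, ip (E a) (M a) = 1 / 2 := fun a => by
    have := hM a a
    rwa [if_pos rfl] at this
  have hor : ∀ x y, x ≠ v → y ≠ v → ({x, y} : Finset (Fin n)) ∈ L → ip (E x) (E y) = 0 := by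
    intro x y hx hy hxy
    refine hE.orth x y (Or.inl (contr_of_mem ?_ hxy))
    rw [mem_insert, mem_singleton, not_or]
    exact ⟨hx.symm, hy.symm⟩
  have hou : ∀ x, x ≠ v → ({v, x} : Finset (Fin n)) ∈ L → ip (E u) (E x) = 0 := by
    intro x hx hxy
    refine hE.orth u x (Or.inl (contr_of_mem' ?_ hxy))
    rw [mem_singleton]
    exact hx.symm
  -- the new configuration
  let E' : Fin n → Vec R := fun x => if x = v then E u + E v else E x
  let M' : Fin n → Vec R := fun x => if x = u then M u - M v else M x
  have hE'v : E' v = E u + E v := if_pos rfl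
  have hE'n : ∀ x, x ≠ v → E' x = E x := fun x hx => if_neg hx
  have hE'u : E' u = E u := hE'n u huv
  have hdual : Dual E' M' := by
    intro a b
    by_cases hb : b = v
    · subst hb
      rw [hE'v, ip_add_left]
      by_cases ha : a = u
      · subst ha
        change ip (E a) (if a = a then M a - M b else M a) +
          ip (E b) (if a = a then M a - M b else M a) = _
        rw [if_pos rfl, if_neg huv, ip_sub_right, ip_sub_right, hEMs a, hEMs b,
          hEM b a huv.symm, hEM a b huv]
        ring
      · change ip (E u) (if a = u then M u - M b else M a) +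
          ip (E b) (if a = u then M u - M b else M a) = _
        rw [if_neg ha, hEM a u ha, zero_add]
        exact hM a b
    · rw [hE'n b hb]
      by_cases ha : a = u
      · subst ha
        change ip (E b) (if a = a then M a - M v else M a) = _
        rw [if_pos rfl, ip_sub_right, hEM v b (fun h => hb h.symm), sub_zero]
        exact hM a b
      · change ip (E b) (if a = u then M u - M v else M a) = _
        rw [if_neg ha]
        exact hM a b
  have horth : ∀ x y, ({x, y} : Finset (Fin n)) ∈ L → ip (E' x) (E' y) = 0 := by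
    intro x y hxy
    by_cases hx : x = v
    · subst hx
      by_cases hy : y = x
      · subst hy
        rw [hE'v, ip_add_left, ip_add_right, ip_add_right, huu, hEv u, hvE u, hvE y]
        norm_num
      · rw [hE'v, hE'n y hy, ip_add_left, hvE y, hou y hy hxy]
        norm_num
    · by_cases hy : y = v
      · subst hy
        rw [hE'v, hE'n x hx, ip_add_right, hEv x, ip_comm, hou x hx (by rwa [pair_comm])]
        norm_num
      · rw [hE'n x hx, hE'n y hy]
        exact hor x y hx hy hxy
  refine ⟨E', horth, ⟨M', hdual⟩, fun p hp => ?_⟩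
  rw [mem_singleton.1 hp]
  refine h2 n k ℝ S L (fun x => opv γ δ (E' x)) (opv γ δ (E v)) (opv γ δ (M v)) (opv γ δ (M u)) u v
    hD hF huv huvL ?_ ?_ ?_ ?_ ?_ ?_ ?_ ?_ ?_ ?_ ?_ ?_
  · intro x
    change opv γ δ (E' v) x = opv γ δ (E' u) x + opv γ δ (E v) x
    rw [hE'v, hE'u, map_add, LinearMap.add_apply]
  · exact opv_sq hCl (hvE v)
  · exact opv_half hCl (hEMs v)
  · intro x
    rw [opv_anti hCl (hEM u v huv) x, neg_add_cancel]
  · intro w _ x
    refine opv_anti hCl ?_ x
    by_cases hw : w = v
    · rw [hw, hE'v, ip_add_right, hvE u, hvE v, add_zero]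
    · rw [hE'n w hw]
      exact hvE w
  · intro w _ hw x
    refine opv_anti hCl ?_ x
    rw [hE'n w hw, ip_comm]
    exact hEM v w hw.symm
  · intro w _ hwu hw x
    refine opv_anti hCl ?_ x
    rw [hE'n w hw, ip_comm]
    exact hEM u w hwu.symm
  · intro x
    refine opv_half hCl ?_ x
    rw [hE'u, ip_comm]
    exact hEMs u
  · refine opv_sq hCl ?_
    rw [hE'u]
    exact huu
  · intro w hw _ hwv x
    refine opv_anti hCl ?_ x
    rw [hE'u, hE'n w hwv]
    exact hor w u hwv huv (by rwa [pair_comm])
  · intro j hj
    refine Ex_congr (splitG_down hD) (fun w hw x => ?_)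
      (hE.ex (k, contr L u v) (mem_insert_self _ _) j hj)
    have hwv : w ≠ v := fun h => contr_v huv hw (mem_singleton.2 h.symm)
    change opv γ δ (E w) x = 0 ↔ opv γ δ (E' w) x = 0
    rw [hE'n w hwv]
  · intro j hj
    refine Ex_congr (down_lk (down_lk hD u) v) (fun w hw x => ?_)
      (hE.ex (k - 1, lk (lk L u) v) (mem_insert_of_mem (mem_singleton_self _)) j hj)
    have hwv : w ≠ v := fun h => ((splitG_memN hD).1 hw).1 (mem_singleton.2 h.symm)
    change opv γ δ (E w) x = 0 ↔ opv γ δ (E' w) x = 0
    rw [hE'n w hwv]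

end Pool.Agent.H14.CL
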