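import Pool.Agent.H14.CL.Kz

/-!
Project CL, part 2, row D6: splitting a vertex (helper27).
-/

set_option autoImplicit false

namespace Pool.Agent.H14.CL

open Finset

section splitop

variable {n : ℕ} {K : Type*} [Field K] {S : Type*} [AddCommGroup S] [Module K S]

theorem so_mem_contr {L : Finset (Finset (Fin n))} {u v : Fin n} {G : Finset (Fin n)} :
    G ∈ contr L u v ↔ ∃ F ∈ L, (if v ∈ F then insert u (F.erase v) else F) = G := by
  unfold contr
  rw [mem_image]

theorem so_down {L : Finset (Finset (Fin n))} (hd : Down L) {u v : Fin n} (huv : u ≠ v) :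
    Down (contr L u v) := by
  intro G hG G' hGG
  obtain ⟨F, hF, hFG⟩ := so_mem_contr.1 hG
  by_cases hvF : v ∈ F
  · rw [if_pos hvF] at hFG
    have hvG : v ∉ G' := by
      intro h
      have h1 := hGG h
      rw [← hFG, mem_insert] at h1
      rcases h1 with h1 | h1
      · exact huv h1.symm
      · exact notMem_erase v F h1
    by_cases huG : u ∈ G'
    · refine so_mem_contr.2 ⟨insert v (G'.erase u), hd F hF _ ?_, ?_⟩
      · rw [insert_subset_iff]
        refine ⟨hvF, fun w hw => ?_⟩
        rw [mem_erase] at hw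
        have h1 := hGG hw.2
        rw [← hFG, mem_insert] at h1
        rcases h1 with h1 | h1
        · exact absurd h1 hw.1
        · exact mem_of_mem_erase h1
      · rw [if_pos (mem_insert_self _ _), erase_insert, insert_erase huG]
        exact fun h => hvG (mem_of_mem_erase h)
    · refine so_mem_contr.2 ⟨G', hd F hF _ ?_, if_neg hvG⟩
      intro w hw
      have h1 := hGG hw
      rw [← hFG, mem_insert] at h1
      rcases h1 with h1 | h1
      · exact absurd (h1 ▸ hw) huG
      · exact mem_of_mem_erase h1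
  · rw [if_neg hvF] at hFG
    rw [← hFG] at hGG
    exact so_mem_contr.2 ⟨G', hd F hF _ hGG, if_neg fun h => hvF (hGG h)⟩

theorem so_vertex {L : Finset (Finset (Fin n))} (hd : Down L) {u v : Fin n} (huv : u ≠ v)
    (hE : ({u, v} : Finset (Fin n)) ∈ L) {w : Fin n} (hw : ({w} : Finset (Fin n)) ∈ contr L u v) :
    {w} ∈ L ∧ w ≠ v := by
  obtain ⟨F, hF, hFG⟩ := so_mem_contr.1 hw
  by_cases hvF : v ∈ F
  · rw [if_pos hvF] at hFG
    have h1 : u ∈ ({w} : Finset (Fin n)) := hFG ▸ mem_insert_self u _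
    rw [mem_singleton] at h1
    subst h1
    exact ⟨hd _ hE _ (by simp), huv⟩
  · rw [if_neg hvF] at hFG
    subst hFG
    exact ⟨hF, fun h => hvF (mem_singleton.2 h.symm)⟩

theorem so_ch_mono {L : Finset (Finset (Fin n))} {U U' : Submodule K S} (h : U ≤ U')
    {e : Fin n → S →ₗ[K] S} {j : ℕ} {x : Finset (Fin n) → S} (hx : x ∈ Ch L U e univ j) :
    x ∈ Ch L U' e univ j := by
  rw [mem_Ch] at hx ⊢
  exact fun G => ⟨⟨h (hx G).1.1, (hx G).1.2⟩, (hx G).2⟩

end splitop

/-- D6: splitting a vertex -/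
theorem st_splitOp (h1 : StKz) (h2 : StDbl) (h3 : StOff) : StSplitOp := by
  intro n K S _ _ _ L e r m mu u v hd hfl huv hE hv hrr hrm hrmu hre hme hmue hmu hee hew hC hM
  have hu1 : ({u} : Finset (Fin n)) ∈ L := hd _ hE _ (by simp)
  have hv1 : ({v} : Finset (Fin n)) ∈ L := hd _ hE _ (by simp)
  have hker : ∀ x, x ∈ LinearMap.ker r ↔ x ∈ (⊤ : Submodule K S) ∧ r x = 0 := by
    intro x
    rw [LinearMap.mem_ker]
    exact ⟨fun h => ⟨Submodule.mem_top, h⟩, fun h => h.2⟩
  have hev : ∀ x ∈ LinearMap.ker r, e v x = e u x := by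
    intro x hx
    rw [hv, LinearMap.mem_ker.1 hx, add_zero]
  -- (a)
  have hCk : ∀ j, Ex (contr L u v) (LinearMap.ker r) e univ j := by
    refine h1 n K S (contr L u v) ⊤ (LinearMap.ker r) e r m (so_down hd huv) hker ?_ ?_ hC
    · intro x _
      exact ⟨Submodule.mem_top, Submodule.mem_top, hrr x, hrm x⟩
    · intro w hw x _
      obtain ⟨hw1, hw2⟩ := so_vertex hd huv hE hw
      exact ⟨hre w hw1 x, hme w hw1 hw2 x⟩
  have hLk : ∀ j, Ex L (LinearMap.ker r) e univ j :=
    h2 n K S L (LinearMap.ker r) e u v hd hfl huv hE hev hCk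
  -- (b)
  have hdM : Down (lk (lk L u) v) := down_lk (down_lk hd u) v
  have hvM : ∀ w, ({w} : Finset (Fin n)) ∈ lk (lk L u) v →
      {w} ∈ L ∧ w ≠ u ∧ w ≠ v ∧ ({u, w} : Finset (Fin n)) ∈ L := by
    intro w hw
    have h4 := (lk_vertex (down_lk hd u)).1 hw
    have h5 := (lk_vertex hd).1 (lk_sub hw)
    exact ⟨lk_sub (lk_sub hw), fun h => h5.1 h.symm, fun h => h4.1 h.symm, h5.2⟩
  have hMk : ∀ j, Ex (lk (lk L u) v) (LinearMap.ker r) e univ j := by
    refine h1 n K S (lk (lk L u) v) ⊤ (LinearMap.ker r) e r m hdM hker ?_ ?_ hM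
    · intro x _
      exact ⟨Submodule.mem_top, Submodule.mem_top, hrr x, hrm x⟩
    · intro w hw x _
      obtain ⟨hw1, _, hw3, _⟩ := hvM w hw
      exact ⟨hre w hw1 x, hme w hw1 hw3 x⟩
  have hMu : ∀ j, Ex (lk (lk L u) v) (KK (LinearMap.ker r) e {u}) e univ j := by
    refine h1 n K S (lk (lk L u) v) (LinearMap.ker r) (KK (LinearMap.ker r) e {u}) e (e u) mu
      hdM ?_ ?_ ?_ hMk
    · intro x
      rw [mem_KK]
      exact ⟨fun h => ⟨h.1, h.2 u (mem_singleton_self u)⟩,
        fun h => ⟨h.1, fun w hw => by rw [mem_singleton.1 hw]; exact h.2⟩⟩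
    · intro x hx
      rw [LinearMap.mem_ker] at hx
      refine ⟨?_, ?_, hee x, ?_⟩
      · rw [LinearMap.mem_ker, hre u hu1, hx, map_zero, neg_zero]
      · have h4 := hrmu x
        rw [hx, map_zero, add_zero] at h4
        exact LinearMap.mem_ker.2 h4
      · rw [add_comm]
        exact hmu x
    · intro w hw x _
      obtain ⟨hw1, hw2, hw3, hw4⟩ := hvM w hw
      refine ⟨?_, hmue w hw1 hw2 hw3 x⟩
      rw [hew w hw4 hw2 hw3 x, neg_neg]
  -- (c)
  intro j x hx hc
  have hxK := mem_Ch.1 hx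
  have hrx : (fun G => r (x G)) ∈ Ch L (LinearMap.ker r) e univ j :=
    kz_mem hd r (fun t _ => LinearMap.mem_ker.2 (hrr t)) (fun w hw t _ => hre w hw t) hx
  have hrxb : bd K (fun G => r (x G)) = 0 := by
    rw [kz_bd, hc]
    funext G
    exact map_zero r
  have hrx0 : ∀ G, u ∈ G → v ∈ G → r (x G) = 0 := by
    intro G hu hv2
    have h4 := (hxK G).1.2 v hv2
    rw [hv, (hxK G).1.2 u hu, zero_add] at h4
    exact h4
  obtain ⟨y, hy, hy0, hyb⟩ := h3 n K S L (LinearMap.ker r) e u v hd huv hev hLk hMu j _ hrx hrxb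
    hrx0
  have hyK := mem_Ch.1 hy
  have hyr : ∀ G, r (y G) = 0 := fun G => LinearMap.mem_ker.1 (hyK G).1.1
  have hye : ∀ G, ∀ w ∈ G, e w (y G) = 0 := fun G => (hyK G).1.2
  have hv1' : ∀ G ∈ L, ∀ w ∈ G, ({w} : Finset (Fin n)) ∈ L := fun G hG w hw =>
    hd G hG _ (singleton_subset_iff.2 hw)
  have hrm0 : ∀ G, r (m (y G)) = y G := by
    intro G
    have h4 := hrm (y G)
    rwa [hyr, map_zero, add_zero] at h4
  have hrmu0 : ∀ G, r (mu (y G)) = 0 := by
    intro G
    have h4 := hrmu (y G)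
    rwa [hyr, map_zero, add_zero] at h4
  -- the lift
  obtain ⟨yt, hyt⟩ : ∃ yt : Finset (Fin n) → S,
      ∀ G, yt G = if v ∈ G then m (y G) - mu (y G) else m (y G) := ⟨_, fun G => rfl⟩
  have hytr : ∀ G, r (yt G) = y G := by
    intro G
    rw [hyt]
    split_ifs
    · rw [map_sub, hrm0, hrmu0, sub_zero]
    · exact hrm0 G
  have hytC : yt ∈ Ch L ⊤ e univ (j + 1) := by
    rw [mem_Ch]
    intro G
    have h0 : y G = 0 → yt G = 0 := by
      intro h
      rw [hyt, h, map_zero, map_zero, sub_zero, ite_self]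
    refine ⟨⟨Submodule.mem_top, fun w hw => ?_⟩, fun h => h0 ((hyK G).2 h)⟩
    by_cases hG : G ∈ L
    · have hw1 := hv1' G hG w hw
      by_cases hvG : v ∈ G
      · by_cases huG : u ∈ G
        · rw [h0 (hy0 G huG hvG), map_zero]
        · have hwu : w ≠ u := fun h => huG (h ▸ hw)
          rw [hyt, if_pos hvG]
          by_cases hwv : w = v
          · have heu : e u (y G) = 0 := by
              have h4 := hye G v hvG
              rw [hv, hyr, add_zero] at h4
              exact h4
            have h5 : e u (m (y G)) = 0 := by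
              have h6 := hme u hu1 huv (y G)
              rw [heu, map_zero] at h6
              exact neg_eq_zero.1 h6.symm
            have h7 : e u (mu (y G)) = y G := by
              have h8 := hmu (y G)
              rwa [heu, map_zero, zero_add] at h8
            rw [hwv, hv, map_sub, map_sub, h5, h7, hrm0, hrmu0]
            abel
          · have h5 : e w (m (y G)) = 0 := by
              have h6 := hme w hw1 hwv (y G)
              rw [hye G w hw, map_zero] at h6
              exact neg_eq_zero.1 h6.symm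
            have h7 : e w (mu (y G)) = 0 := by
              have h6 := hmue w hw1 hwu hwv (y G)
              rw [hye G w hw, map_zero] at h6
              exact neg_eq_zero.1 h6.symm
            rw [map_sub, h5, h7, sub_zero]
      · have hwv : w ≠ v := fun h => hvG (h ▸ hw)
        rw [hyt, if_neg hvG]
        have h6 := hme w hw1 hwv (y G)
        rw [hye G w hw, map_zero] at h6
        exact neg_eq_zero.1 h6.symm
    · rw [h0 ((hyK G).2 fun h => hG h.1), map_zero]
  have hx' : x - bd K yt ∈ Ch L (LinearMap.ker r) e univ j := by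
    have h4 := mem_Ch.1 (Submodule.sub_mem _ hx (bd_mem_Ch hd hytC))
    rw [mem_Ch]
    intro G
    refine ⟨⟨?_, (h4 G).1.2⟩, (h4 G).2⟩
    have h5 : (fun G => r (yt G)) = y := funext hytr
    have h6 := congrFun (kz_bd r yt) G
    rw [h5, hyb] at h6
    rw [LinearMap.mem_ker, Pi.sub_apply, map_sub, ← h6, sub_self]
  have hx'b : bd K (x - bd K yt) = 0 := by
    rw [map_sub, hc, bd_bd, sub_zero]
  obtain ⟨z, hz, hzb⟩ := hLk j _ hx' hx'b
  refine ⟨z + yt, Submodule.add_mem _ (so_ch_mono le_top hz) hytC, ?_⟩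
  rw [map_add, hzb, sub_add_cancel]

end Pool.Agent.H14.CL
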