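import Pool.Agent.H14.CL.Sgn

/-!
Project CL: statements of the rows.
-/

set_option autoImplicit false

namespace Pool.Agent.H14.CL

open Finset

/-- vanishing above the middle -/
def PEx {n : ℕ} {K S : Type} [Field K] [AddCommGroup S] [Module K S]
    (Δ : Finset (Finset (Fin n))) (U : Submodule K S) (e : Fin n → S →ₗ[K] S) (d : ℕ) : Prop :=
  ∀ A j, d < 2 * j → Ex Δ U e A j

/-- `h'` is the form induced by `h` on the link of `u` -/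
def IsHu {n : ℕ} {K S : Type} [Field K] [AddCommGroup S] [Module K S]
    (U : Submodule K S) (e : Fin n → S →ₗ[K] S) (h : S →ₗ[K] S →ₗ[K] K) (u : Fin n)
    (h' : S →ₗ[K] S →ₗ[K] K) : Prop :=
  ∀ x ∈ KK U e {u}, ∀ y ∈ U, h' x (e u y) = h x y

/-- neighbours of `v`, with `v` -/
def nbr {n : ℕ} (Δ : Finset (Finset (Fin n))) (v : Fin n) : Finset (Fin n) :=
  univ.filter (fun u => ({u, v} : Finset (Fin n)) ∈ Δ)

/-! ### links -/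

/-- LK1 -/
def StSphLk : Prop := ∀ (n : ℕ) (K : Type) [Field K] (Δ : Finset (Finset (Fin n)))
  (ε : Finset (Fin n) → K) (d : ℕ), Sph K Δ ε (d + 1) → ∀ u, {u} ∈ Δ →
    Sph K (lk Δ u) (eps ε u) d

/-- LK2 -/
def StHu : Prop := ∀ (n : ℕ) (K S : Type) [Field K] [AddCommGroup S] [Module K S]
  (Δ : Finset (Finset (Fin n))) (U : Submodule K S) (e : Fin n → S →ₗ[K] S)
  (B : Fin n → Fin n → K) (h : S →ₗ[K] S →ₗ[K] K) (ε : Finset (Fin n) → K) (d : ℕ),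
  Dat Δ U e B h ε (d + 1) → ∀ u, {u} ∈ Δ → ∃ h', IsHu U e h u h'

/-- LK3 -/
def StDatLk : Prop := ∀ (n : ℕ) (K S : Type) [Field K] [AddCommGroup S] [Module K S]
  (Δ : Finset (Finset (Fin n))) (U : Submodule K S) (e : Fin n → S →ₗ[K] S)
  (B : Fin n → Fin n → K) (h : S →ₗ[K] S →ₗ[K] K) (ε : Finset (Fin n) → K) (d : ℕ),
  Dat Δ U e B h ε (d + 1) → ∀ u, {u} ∈ Δ → ∀ h', IsHu U e h u h' →
    Dat (lk Δ u) (KK U e {u}) e B h' (eps ε u) d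

/-- LK4 -/
def StPosLk : Prop := ∀ (n : ℕ) (S : Type) [AddCommGroup S] [Module ℝ S]
  (Δ : Finset (Finset (Fin n))) (U : Submodule ℝ S) (e : Fin n → S →ₗ[ℝ] S)
  (B : Fin n → Fin n → ℝ) (h : S →ₗ[ℝ] S →ₗ[ℝ] ℝ) (ε : Finset (Fin n) → ℝ) (d : ℕ),
  Dat Δ U e B h ε (d + 1) → Pos Δ U e h ε (d + 1) → ∀ u, {u} ∈ Δ → ∀ h', IsHu U e h u h' →
    Pos (lk Δ u) (KK U e {u}) e h' (eps ε u) d

/-- LK5 -/
def StNegLk : Prop := ∀ (n : ℕ) (K : Type) [Field K] (Δ : Finset (Finset (Fin n)))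
  (ε : Finset (Fin n) → K) (B : Fin n → Fin n → ℝ) (d : ℕ), Sph K Δ ε (d + 1) →
  Neg Δ B (d + 1) → ∀ u, {u} ∈ Δ → Neg (lk Δ u) B d

/-! ### chains -/

/-- CH1 -/
def StUp : Prop := ∀ (n : ℕ) (K S : Type) [Field K] [AddCommGroup S] [Module K S]
  (Δ : Finset (Finset (Fin n))) (U : Submodule K S) (e : Fin n → S →ₗ[K] S) (d : ℕ),
  Down Δ → (∀ u, {u} ∈ Δ → PEx (lk Δ u) (KK U e {u}) e d) →
  ∀ A j, d + 2 < 2 * j → Ex Δ U e A j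

/-- CH2 -/
def StInj : Prop := ∀ (n : ℕ) (K S : Type) [Field K] [AddCommGroup S] [Module K S]
  (Δ : Finset (Finset (Fin n))) (U : Submodule K S) (e : Fin n → S →ₗ[K] S) (d : ℕ),
  Down Δ → (∀ u, {u} ∈ Δ → PEx (lk Δ u) (KK U e {u}) e d) →
  ∀ j, d < 2 * j → ∀ A A', A ⊆ A' → ∀ x ∈ Ch Δ U e A j, bd K x = 0 →
    Bd Δ U e A' j x → Bd Δ U e A j x

/-- CH3 -/
def StStar : Prop := ∀ (n : ℕ) (K S : Type) [Field K] [AddCommGroup S] [Module K S]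
  (Δ : Finset (Finset (Fin n))) (U : Submodule K S) (e : Fin n → S →ₗ[K] S)
  (B : Fin n → Fin n → K) (h : S →ₗ[K] S →ₗ[K] K) (ε : Finset (Fin n) → K) (d : ℕ),
  Dat Δ U e B h ε d → ∀ v, {v} ∈ Δ → ∀ j, Ex (lk Δ v) (KK U e {v}) e univ j →
    Ex Δ U e (nbr Δ v) j

/-- CH4 -/
def StLiftOdd : Prop := ∀ (n : ℕ) (K S : Type) [Field K] [AddCommGroup S] [Module K S]
  (Δ : Finset (Finset (Fin n))) (U : Submodule K S) (e : Fin n → S →ₗ[K] S)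
  (v : Fin n) (k : ℕ), Down Δ → {v} ∈ Δ → ∀ x ∈ Ch Δ U e univ (k + 1), bd K x = 0 →
  (∀ u, {u} ∈ Δ → ({u, v} : Finset (Fin n)) ∉ Δ →
    Bd (lk Δ u) (KK U e {u}) e univ k (res K u x)) →
  (∀ u, {u} ∈ Δ → ∀ A, ∀ z ∈ Ch (lk Δ u) (KK U e {u}) e A k, bd K z = 0 →
    Bd (lk Δ u) (KK U e {u}) e univ k z → Bd (lk Δ u) (KK U e {u}) e A k z) →
  Ex Δ U e (nbr Δ v) (k + 1) → Bd Δ U e univ (k + 1) x

/-- CH5 -/
def StLiftEven : Prop := ∀ (n : ℕ) (K S : Type) [Field K] [AddCommGroup S] [Module K S]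
  (Δ : Finset (Finset (Fin n))) (U : Submodule K S) (e : Fin n → S →ₗ[K] S)
  (v : Fin n) (k : ℕ), Down Δ → {v} ∈ Δ → ∀ x ∈ Ch Δ U e univ (k + 1), bd K x = 0 →
  ∀ y : Fin n → Finset (Fin n) → S,
  (∀ u, {u} ∈ Δ → ({u, v} : Finset (Fin n)) ∉ Δ →
    y u ∈ Ch (lk Δ u) (KK U e {u}) e univ (k + 1) ∧ bd K (y u) = - res K u x) →
  (∀ u u', {u} ∈ Δ → ({u, v} : Finset (Fin n)) ∉ Δ → {u'} ∈ lk Δ u →
    ({u', v} : Finset (Fin n)) ∉ Δ →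
    Bd (lk (lk Δ u) u') (KK (KK U e {u}) e {u'}) e univ k
      (res K u' (y u) + res K u (y u'))) →
  (∀ u u', {u} ∈ Δ → {u'} ∈ lk Δ u → ∀ A,
    ∀ z ∈ Ch (lk (lk Δ u) u') (KK (KK U e {u}) e {u'}) e A k, bd K z = 0 →
    Bd (lk (lk Δ u) u') (KK (KK U e {u}) e {u'}) e univ k z →
    Bd (lk (lk Δ u) u') (KK (KK U e {u}) e {u'}) e A k z) →
  Ex Δ U e (nbr Δ v) (k + 1) → Bd Δ U e univ (k + 1) x

/-! ### the double complex -/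

/-- TO1 -/
def StTotD : Prop := ∀ (n : ℕ) (K S : Type) [Field K] [AddCommGroup S] [Module K S]
  (Δ : Finset (Finset (Fin n))) (U : Submodule K S) (e : Fin n → S →ₗ[K] S), Down Δ →
  (∀ w : Finset (Fin n) → Finset (Fin n) → S, DD K Δ (DD K Δ w) = 0) ∧
  (∀ j, ∀ w ∈ Tot Δ U e j, DD K Δ w ∈ Tot Δ U e (j + 1)) ∧
  (∀ u (w : Finset (Fin n) → Finset (Fin n) → S),
    DD K (lk Δ u) (sg K u w) = sg K u (DD K Δ w)) ∧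
  (∀ u j, ∀ w ∈ Tot Δ U e j, sg K u w ∈ Tot (lk Δ u) (KK U e {u}) e j)

/-- TO2 -/
def StTotPr : Prop := ∀ (n : ℕ) (K S : Type) [Field K] [AddCommGroup S] [Module K S]
  (Δ : Finset (Finset (Fin n))) (U : Submodule K S) (e : Fin n → S →ₗ[K] S)
  (ε : Finset (Fin n) → K) (d : ℕ), Sph K Δ ε d →
  (∀ j i, j + i = d → ∀ w ∈ Tot Δ U e j, Pr ε w ∈ Ch Δ U e univ i) ∧
  (∀ j, ∀ w ∈ Tot Δ U e j, Pr ε (DD K Δ w) = (-1 : K) ^ j • bd K (Pr ε w)) ∧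
  (∀ u j, ∀ w ∈ Tot Δ U e j, Pr (eps ε u) (sg K u w) = (-1 : K) ^ j • res K u (Pr ε w))

/-- TO3: columns -/
def StCol : Prop := ∀ (n : ℕ) (K S : Type) [Field K] [AddCommGroup S] [Module K S]
  (Δ : Finset (Finset (Fin n))) (U : Submodule K S) (e : Fin n → S →ₗ[K] S)
  (ε : Finset (Fin n) → K) (d : ℕ), Sph K Δ ε d → ∀ j i, j + i = d → ∀ w ∈ Tot Δ U e j,
    DD K Δ w = 0 → Bd Δ U e univ i (Pr ε w) → TB Δ U e j w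

/-- TO4a: orthogonal complements -/
def StPerp : Prop := ∀ (n : ℕ) (K S : Type) [Field K] [AddCommGroup S] [Module K S]
  [FiniteDimensional K S]
  (Δ : Finset (Finset (Fin n))) (U : Submodule K S) (e : Fin n → S →ₗ[K] S)
  (B : Fin n → Fin n → K) (h : S →ₗ[K] S →ₗ[K] K) (ε : Finset (Fin n) → K) (d : ℕ),
  Dat Δ U e B h ε d → ∀ F ∈ Δ, ∀ a ∈ U, (∀ y ∈ KK U e F, h y a = 0) →
  ∃ c : Fin n → S, (∀ u ∈ F, c u ∈ KK U e {u}) ∧ a = ∑ u ∈ F, c u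

/-- TO4b: the row complex of a face -/
def StRowEx : Prop := ∀ (n : ℕ) (K S : Type) [Field K] [AddCommGroup S] [Module K S]
  [FiniteDimensional K S]
  (Δ : Finset (Finset (Fin n))) (U : Submodule K S) (e : Fin n → S →ₗ[K] S)
  (B : Fin n → Fin n → K) (h : S →ₗ[K] S →ₗ[K] K) (ε : Finset (Fin n) → K) (d : ℕ),
  Dat Δ U e B h ε d → ∀ F ∈ Δ, ∀ i, i + 1 < F.card → ∀ c : Finset (Fin n) → S,
  (∀ N, N ⊆ F → N.card = i + 1 → c N ∈ KK U e (F \ N)) →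
  (∀ N, N ⊆ F → N.card = i + 2 → ∑ u ∈ N, tau K u N • c (N.erase u) = 0) →
  ∃ b : Finset (Fin n) → S, (∀ N, N ⊆ F → N.card = i → b N ∈ KK U e (F \ N)) ∧
    ∀ N, N ⊆ F → N.card = i + 1 → c N = ∑ u ∈ N, tau K u N • b (N.erase u)

/-- TO4: rows -/
def StRow : Prop := ∀ (n : ℕ) (K S : Type) [Field K] [AddCommGroup S] [Module K S]
  [FiniteDimensional K S]
  (Δ : Finset (Finset (Fin n))) (U : Submodule K S) (e : Fin n → S →ₗ[K] S)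
  (B : Fin n → Fin n → K) (h : S →ₗ[K] S →ₗ[K] K) (ε : Finset (Fin n) → K) (d : ℕ),
  Dat Δ U e B h ε d → ∀ i, TEx Δ U e i → Ex Δ U e univ i

/-! ### the pairing -/

/-- PP1: Stokes formula -/
def StStokes : Prop := ∀ (n : ℕ) (K S : Type) [Field K] [AddCommGroup S] [Module K S]
  (Δ : Finset (Finset (Fin n))) (ε : Finset (Fin n) → K) (d : ℕ), Sph K Δ ε d →
  ∀ (h : S →ₗ[K] S →ₗ[K] K) (i : ℕ) (w w' : Finset (Fin n) → Finset (Fin n) → S),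
  (∀ N G, N.card ≠ i → w N G = 0) →
  PP ε h (DD K Δ w) w' + (-1 : K) ^ i * PP ε h w (DD K Δ w') =
    -2 * ∑ u, PP (eps ε u) h (sg K u w) (sg K u w')

/-- PP2: symmetry -/
def StSym : Prop := ∀ (n : ℕ) (K S : Type) [Field K] [AddCommGroup S] [Module K S]
  (ε : Finset (Fin n) → K) (h h' : S →ₗ[K] S →ₗ[K] K) (c : K) (X Y : Submodule K S) (i j : ℕ)
  (w w' : Finset (Fin n) → Finset (Fin n) → S),
  (∀ x ∈ X, ∀ y ∈ Y, h x y = c * h' y x) → (∀ N G, w N G ∈ X) → (∀ N G, w' N G ∈ Y) →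
  (∀ N G, N.card ≠ i → w N G = 0) → (∀ N G, N.card ≠ j → w' N G = 0) →
  PP ε h w w' = (-1 : K) ^ (i * j) * c * PP ε h' w' w

/-- PP3: change of values -/
def StMap : Prop := ∀ (n : ℕ) (K S : Type) [Field K] [AddCommGroup S] [Module K S]
  (ε : Finset (Fin n) → K) (h h' : S →ₗ[K] S →ₗ[K] K) (c : K) (X Y : Submodule K S)
  (α β : S →ₗ[K] S) (w w' : Finset (Fin n) → Finset (Fin n) → S),
  (∀ x ∈ X, ∀ y ∈ Y, h x y = c * h' (α x) (β y)) → (∀ N G, w N G ∈ X) → (∀ N G, w' N G ∈ Y) →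
  PP ε h w w' = c * PP ε h' (vm α w) (vm β w')

/-- PP4: the odd identity -/
def StI1 : Prop := ∀ (n : ℕ) (K S : Type) [Field K] [AddCommGroup S] [Module K S]
  (Δ : Finset (Finset (Fin n))) (U : Submodule K S) (e : Fin n → S →ₗ[K] S)
  (B : Fin n → Fin n → K) (h : S →ₗ[K] S →ₗ[K] K) (ε : Finset (Fin n) → K) (m : ℕ),
  Dat Δ U e B h ε (2 * m + 1) → (2 : K) ≠ 0 → ∀ hu : Fin n → S →ₗ[K] S →ₗ[K] K,
  (∀ u, {u} ∈ Δ → IsHu U e h u (hu u)) → ∀ v, {v} ∈ Δ →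
  ∀ w ∈ Tot Δ U e m, DD K Δ w = 0 →
    ∑ u, B u v * PP (eps ε u) (hu u) (sg K u w) (sg K u w) = 0

/-- the cocycle `E` of the even step -/
def EE {n : ℕ} {K S : Type} [Field K] [AddCommGroup S] [Module K S]
    (Δ : Finset (Finset (Fin n))) (e : Fin n → S →ₗ[K] S) (B : Fin n → Fin n → K) (v : Fin n)
    (w : Finset (Fin n) → Finset (Fin n) → S) (g : Fin n → Finset (Fin n) → Finset (Fin n) → S) :
    Finset (Fin n) → Finset (Fin n) → S :=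
  vm (e v) w - ∑ u, B u v • DD K Δ (jj K u (g u))

/-- PP5: `E` is a cocycle of `Tot` -/
def StI2a : Prop := ∀ (n : ℕ) (K S : Type) [Field K] [AddCommGroup S] [Module K S]
  (Δ : Finset (Finset (Fin n))) (U : Submodule K S) (e : Fin n → S →ₗ[K] S)
  (B : Fin n → Fin n → K) (h : S →ₗ[K] S →ₗ[K] K) (ε : Finset (Fin n) → K) (d k : ℕ),
  Dat Δ U e B h ε d → ∀ v, {v} ∈ Δ → ∀ w ∈ Tot Δ U e (k + 1), DD K Δ w = 0 →
  ∀ g : Fin n → Finset (Fin n) → Finset (Fin n) → S, (∀ u, g u ∈ Tot (lk Δ u) U e k) →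
  (∀ u, {u} ∈ Δ → DD K (lk Δ u) (vm (e u) (g u)) = sg K u w) →
    EE Δ e B v w g ∈ Tot Δ U e (k + 1) ∧ DD K Δ (EE Δ e B v w g) = 0

/-- PP6: the even identity -/
def StI2b : Prop := ∀ (n : ℕ) (K S : Type) [Field K] [AddCommGroup S] [Module K S]
  (Δ : Finset (Finset (Fin n))) (U : Submodule K S) (e : Fin n → S →ₗ[K] S)
  (B : Fin n → Fin n → K) (h : S →ₗ[K] S →ₗ[K] K) (ε : Finset (Fin n) → K) (k : ℕ),
  Dat Δ U e B h ε (2 * k + 2) → (2 : K) ≠ 0 →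
  ∀ hJ : Fin n → Fin n → S →ₗ[K] S →ₗ[K] K,
  (∀ u u', {u} ∈ Δ → {u'} ∈ lk Δ u → ∀ x ∈ KK (KK U e {u}) e {u'}, ∀ t ∈ U,
    hJ u u' x (e u' (e u t)) = h x t) →
  ∀ v, {v} ∈ Δ → ∀ w ∈ Tot Δ U e (k + 1), DD K Δ w = 0 →
  ∀ g : Fin n → Finset (Fin n) → Finset (Fin n) → S, (∀ u, g u ∈ Tot (lk Δ u) U e k) →
  (∀ u, {u} ∈ Δ → DD K (lk Δ u) (vm (e u) (g u)) = sg K u w) →
    PP ε h (EE Δ e B v w g) (EE Δ e B v w g) =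
      2 * (-1 : K) ^ k * ∑ u, ∑ u', B u v * B u' v * PP (eps (eps ε u) u') (hJ u u')
        (sg K u' (vm (e u) (g u)) - sg K u (vm (e u') (g u')))
        (sg K u' (vm (e u) (g u)) - sg K u (vm (e u') (g u')))

/-! ### dimensions -/

/-- EU1 -/
def StEuler : Prop := ∀ (n : ℕ) (K S : Type) [Field K] [AddCommGroup S] [Module K S]
  [FiniteDimensional K S]
  (Δ : Finset (Finset (Fin n))) (U : Submodule K S) (e : Fin n → S →ₗ[K] S)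
  (B : Fin n → Fin n → K) (h : S →ₗ[K] S →ₗ[K] K) (ε : Finset (Fin n) → K) (d : ℕ),
  Dat Δ U e B h ε d → ∀ i, (∀ j, j ≠ i → Ex Δ U e univ j) →
  ∃ c : ℕ, (Module.finrank K U : ℤ) * ∑ F ∈ Δ, (-1 : ℤ) ^ F.card * 2 ^ (d - F.card) =
    (-1) ^ i * 2 ^ d * c ∧ (c = 0 → Ex Δ U e univ i)

/-- EU2 -/
def StOddZero : Prop := ∀ (n : ℕ) (K : Type) [Field K] (Δ : Finset (Finset (Fin n)))
  (ε : Finset (Fin n) → K) (d : ℕ), Sph K Δ ε d → Odd d →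
  ∑ F ∈ Δ, (-1 : ℤ) ^ F.card * 2 ^ (d - F.card) = 0

/-- EU3 -/
def StRel : Prop := ∀ (K V : Type) [Field K] [AddCommGroup V] [Module K V]
  [FiniteDimensional K V] (Z B : Submodule K V) (R : Submodule K (V × V)), B ≤ Z →
  (∀ p ∈ R, p.1 ∈ Z ∧ p.2 ∈ Z) → (∀ w ∈ Z, ∃ E, (w, E) ∈ R) →
  (∀ p ∈ R, p.2 ∈ B → p.1 ∈ B) →
  (∀ z ∈ Z, ∃ p ∈ R, z - p.2 ∈ B) ∧ (∀ p ∈ R, p.1 ∈ B → p.2 ∈ B)

/-! ### orientation from ranks -/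

/-- OR1 -/
def StLowRank : Prop := ∀ (n : ℕ) (K : Type) [Field K] (L : Finset (Finset (Fin n))) (j : ℕ),
  Down L → (((L.filter (fun G => G.card = j)).card : ℤ) - ((bdM K L j).rank : ℤ)
    - ((bdM K L (j + 1)).rank : ℤ)) = 0 → ∀ φ : Finset (Fin n) → K,
    (∀ N ∈ L, N.card = j + 1 → ∑ u ∈ N, tau K u N * φ (N.erase u) = 0) →
    ∃ ψ : Finset (Fin n) → K, ∀ N ∈ L, N.card = j →
      φ N = ∑ u ∈ N, tau K u N * ψ (N.erase u)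

/-- OR2 -/
def StTopRank : Prop := ∀ (n : ℕ) (K : Type) [Field K] (L : Finset (Finset (Fin n))) (j : ℕ),
  Down L → (∀ N ∈ L, N.card ≤ j) →
  (((L.filter (fun G => G.card = j)).card : ℤ) - ((bdM K L j).rank : ℤ)
    - ((bdM K L (j + 1)).rank : ℤ)) = 1 →
  ∀ z : Finset (Fin n) → K, (∃ N ∈ L, N.card = j ∧ z N ≠ 0) →
    (∀ Γ, Γ.card + 1 = j →
      ∑ u ∈ univ.filter (fun u => u ∉ Γ ∧ insert u Γ ∈ L), tau K u Γ * z (insert u Γ) = 0) →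
  ∀ φ : Finset (Fin n) → K, ∑ N ∈ L.filter (fun N => N.card = j), z N * φ N = 0 →
    ∃ ψ : Finset (Fin n) → K, ∀ N ∈ L, N.card = j →
      φ N = ∑ u ∈ N, tau K u N * ψ (N.erase u)

/-- OR3 -/
def StCycRank : Prop := ∀ (n : ℕ) (K : Type) [Field K] (L : Finset (Finset (Fin n))) (j : ℕ),
  (((L.filter (fun G => G.card = j)).card : ℤ) - ((bdM K L j).rank : ℤ)
    - ((bdM K L (j + 1)).rank : ℤ)) = 1 →
  ∃ z : Finset (Fin n) → K, (∀ N, ¬ (N ∈ L ∧ N.card = j) → z N = 0) ∧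
    (∃ N ∈ L, N.card = j ∧ z N ≠ 0) ∧ ∀ Γ ∈ L, Γ.card + 1 = j →
      ∑ u ∈ univ.filter (fun u => u ∉ Γ ∧ insert u Γ ∈ L), tau K u Γ * z (insert u Γ) = 0

/-- OR4 -/
def StRankSph : Prop := ∀ (n : ℕ) (K : Type) [Field K]
  (Δ : Finset (Finset (Fin n))) (d : ℕ), ∅ ∈ Δ → Down Δ →
  (∀ F : Finset (Fin n), (∀ a ∈ F, ∀ b ∈ F, ({a, b} : Finset (Fin n)) ∈ Δ) → F ∈ Δ) →
  (∀ F ∈ Δ, F.card ≤ d) → RankHyp K Δ d → ∃ ε : Finset (Fin n) → K, Sph K Δ ε d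

/-- OR5 -/
def StRankLe : Prop := ∀ (n : ℕ) (K : Type) [Field K] (L : Finset (Finset (Fin n))) (m : ℕ),
  (bdM K L m).rank ≤ (bdM ℝ L m).rank

/-- OR6 -/
def StRankField : Prop := ∀ (n : ℕ) (K : Type) [Field K]
  (Δ : Finset (Finset (Fin n))) (d : ℕ), Down Δ → RankHyp K Δ d → RankHyp ℝ Δ d

/-! ### Clifford data -/

/-- Clifford action of `ℝ^d ⊕ ℝ^N`: `γ` symmetric of square `+`, `δ` antisymmetric of square
`-` -/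
structure Clif {d N : ℕ} (S : Type) [NormedAddCommGroup S] [InnerProductSpace ℝ S]
    (γ : (Fin d → ℝ) →ₗ[ℝ] S →ₗ[ℝ] S) (δ : (Fin N → ℝ) →ₗ[ℝ] S →ₗ[ℝ] S) : Prop where
  gg : ∀ p p' x, γ p (γ p' x) + γ p' (γ p x) = (2 * (p ⬝ᵥ p')) • x
  dd : ∀ q q' x, δ q (δ q' x) + δ q' (δ q x) = (-2 * (q ⬝ᵥ q')) • x
  gd : ∀ p q x, γ p (δ q x) + δ q (γ p x) = 0
  ga : ∀ p x y, inner ℝ (γ p x) y = inner ℝ x (γ p y)
  da : ∀ q x y, inner ℝ (δ q x) y = - inner ℝ x (δ q y)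

/-- the spinor space -/
abbrev SS (d N : ℕ) : Type := EuclideanSpace ℝ (Finset (Fin (d + N)))

/-- TI1 -/
def StClif : Prop := ∀ d N : ℕ, ∃ (γ : (Fin d → ℝ) →ₗ[ℝ] SS d N →ₗ[ℝ] SS d N)
  (δ : (Fin N → ℝ) →ₗ[ℝ] SS d N →ₗ[ℝ] SS d N), Clif (SS d N) γ δ

/-- the volume element `γ(b_1) ∘ ... ∘ γ(b_d)` (standard basis) -/
noncomputable def om {d : ℕ} {S : Type} [AddCommGroup S] [Module ℝ S]
    (γ : (Fin d → ℝ) →ₗ[ℝ] S →ₗ[ℝ] S) : S →ₗ[ℝ] S :=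
  (List.ofFn (fun i : Fin d => (γ (Pi.single i 1) : Module.End ℝ S))).prod

/-- TI2 -/
def StOm : Prop := ∀ (d N : ℕ) (S : Type) [NormedAddCommGroup S] [InnerProductSpace ℝ S]
  (γ : (Fin d → ℝ) →ₗ[ℝ] S →ₗ[ℝ] S) (δ : (Fin N → ℝ) →ₗ[ℝ] S →ₗ[ℝ] S), Clif S γ δ →
  (∀ p x, om γ (γ p x) = (-1 : ℝ) ^ (d + 1) • γ p (om γ x)) ∧
  (∀ q x, om γ (δ q x) = (-1 : ℝ) ^ d • δ q (om γ x)) ∧
  (∀ x y, inner ℝ (om γ x) y = (-1 : ℝ) ^ (d.choose 2) * inner ℝ x (om γ y)) ∧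
  Function.Bijective (om γ)

/-- TI3: positivity of one facet -/
def StFacet : Prop := ∀ (d N : ℕ) (S : Type) [NormedAddCommGroup S]
  [InnerProductSpace ℝ S]
  (γ : (Fin d → ℝ) →ₗ[ℝ] S →ₗ[ℝ] S) (δ : (Fin N → ℝ) →ₗ[ℝ] S →ₗ[ℝ] S), Clif S γ δ →
  ∀ (p : Fin d → Fin d → ℝ) (q : Fin d → Fin N → ℝ), (∀ i j, p i ⬝ᵥ p j = q i ⬝ᵥ q j) →
  LinearIndependent ℝ p → ∃ σ : ℝ, (σ = 1 ∨ σ = -1) ∧
    ∀ t, opL (fun i : Fin d => γ (p i) + δ (q i)) (List.finRange d) t ≠ 0 →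
      0 < σ * inner ℝ (om γ (opL (fun i : Fin d => γ (p i) + δ (q i)) (List.finRange d) t)) t

/-- TI4: every ridge is in exactly two facets -/
def StRidge : Prop := ∀ (n : ℕ) (K : Type) [Field K] (Δ : Finset (Finset (Fin n)))
  (ε : Finset (Fin n) → K) (d : ℕ), Sph K Δ ε d → ∀ Γ ∈ Δ, Γ.card + 1 = d →
  ∃ u u', u ≠ u' ∧ u ∉ Γ ∧ u' ∉ Γ ∧ insert u Γ ∈ Δ ∧ insert u' Γ ∈ Δ ∧
    ({u, u'} : Finset (Fin n)) ∉ Δ ∧ (∀ x, x ∉ Γ → insert x Γ ∈ Δ → x = u ∨ x = u') ∧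
    tau K u Γ * ε (insert u Γ) + tau K u' Γ * ε (insert u' Γ) = 0

/-- TI5 -/
def StOpp : Prop := ∀ (n : ℕ) (K : Type) [Field K] (Δ : Finset (Finset (Fin n)))
  (ε : Finset (Fin n) → K) (d : ℕ) (B : Fin n → Fin n → ℝ), Sph K Δ ε d →
  (∀ v w, B v w = B w v) → Neg Δ B d → ∀ Γ ∈ Δ, Γ.card + 1 = d → ∀ u u', u ≠ u' → u ∉ Γ →
    u' ∉ Γ → insert u Γ ∈ Δ → insert u' Γ ∈ Δ → B u u' < 0

/-- TI6: facets are connected through ridges -/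
def StConn : Prop := ∀ (n : ℕ) (K : Type) [Field K] (Δ : Finset (Finset (Fin n)))
  (ε : Finset (Fin n) → K) (d : ℕ), Sph K Δ ε d → ∀ P : Finset (Fin n) → Prop,
  (∀ Γ ∈ Δ, Γ.card + 1 = d → ∀ u u', u ≠ u' → u ∉ Γ → u' ∉ Γ → insert u Γ ∈ Δ →
    insert u' Γ ∈ Δ → P (insert u Γ) → P (insert u' Γ)) →
  ∀ Φ ∈ Δ, Φ.card = d → P Φ → ∀ Ψ ∈ Δ, Ψ.card = d → P Ψ

/-- TI7: order of the vertices -/
def StPerm : Prop := ∀ (n : ℕ) (K S : Type) [Field K] [AddCommGroup S] [Module K S]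
  (Δ : Finset (Finset (Fin n))) (U : Submodule K S) (e : Fin n → S →ₗ[K] S)
  (B : Fin n → Fin n → K) (h : S →ₗ[K] S →ₗ[K] K) (ε : Finset (Fin n) → K) (d : ℕ),
  Dat Δ U e B h ε d → ∀ L L' : List (Fin n), L.Perm L' → L.Nodup → L.toFinset ∈ Δ →
    ∀ x ∈ U, sgL K L • opL e L x = sgL K L' • opL e L' x

/-- positivity at the facet `Φ` -/
def PosAt {n : ℕ} {S : Type} [AddCommGroup S] [Module ℝ S]
    (U : Submodule ℝ S) (e : Fin n → S →ₗ[ℝ] S) (h : S →ₗ[ℝ] S →ₗ[ℝ] ℝ)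
    (ε : Finset (Fin n) → ℝ) (Φ : Finset (Fin n)) : Prop :=
  ∀ L : List (Fin n), L.Nodup → L.toFinset = Φ → ∀ t ∈ U, opL e L t ≠ 0 →
    0 < ε Φ * sgL ℝ L * h (opL e L t) t

/-- TI8: across a ridge -/
def StCross : Prop := ∀ (n : ℕ) (S : Type) [AddCommGroup S] [Module ℝ S]
  (Δ : Finset (Finset (Fin n))) (U : Submodule ℝ S) (e : Fin n → S →ₗ[ℝ] S)
  (B : Fin n → Fin n → ℝ) (h : S →ₗ[ℝ] S →ₗ[ℝ] ℝ) (ε : Finset (Fin n) → ℝ) (d : ℕ),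
  Dat Δ U e B h ε d → ∀ Γ ∈ Δ, Γ.card + 1 = d → ∀ u u', u ≠ u' → u ∉ Γ → u' ∉ Γ →
    insert u Γ ∈ Δ → insert u' Γ ∈ Δ → B u u' < 0 →
    PosAt U e h ε (insert u Γ) → PosAt U e h ε (insert u' Γ)

/-- TI9: the data of a folded realisation -/
def StTight : Prop := ∀ (n d N : ℕ) (Δ : Finset (Finset (Fin n))) (ε : Finset (Fin n) → ℝ), Sph ℝ Δ ε d →
  ∀ (p : Fin n → Fin d → ℝ) (q : Fin n → Fin N → ℝ),
  (∀ v w, ({v, w} : Finset (Fin n)) ∈ Δ → p v ⬝ᵥ p w = q v ⬝ᵥ q w) →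
  Neg Δ (fun v w => p v ⬝ᵥ p w - q v ⬝ᵥ q w) d →
  ∃ (e : Fin n → SS d N →ₗ[ℝ] SS d N) (B : Fin n → Fin n → ℝ)
    (h : SS d N →ₗ[ℝ] SS d N →ₗ[ℝ] ℝ) (ε' : Finset (Fin n) → ℝ),
    Dat Δ ⊤ e B h ε' d ∧ Neg Δ B d ∧ Pos Δ ⊤ e h ε' d

/-- SP1: matrices with at most `d` negative eigenvalues -/
def StSpec : Prop := ∀ (n d : ℕ) (W : Matrix (Fin n) (Fin n) ℝ) (hW : W.IsHermitian),
  (univ.filter (fun i => hW.eigenvalues i < 0)).card ≤ d →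
  ∃ (p : Fin n → Fin d → ℝ) (q : Fin n → Fin n → ℝ),
    ∀ v w, - W v w = p v ⬝ᵥ p w - q v ⬝ᵥ q w

/-- MA: the main induction -/
def StMain : Prop := ∀ (n : ℕ) (S : Type) [AddCommGroup S] [Module ℝ S]
  [FiniteDimensional ℝ S]
  (Δ : Finset (Finset (Fin n))) (U : Submodule ℝ S) (e : Fin n → S →ₗ[ℝ] S)
  (B : Fin n → Fin n → ℝ) (h : S →ₗ[ℝ] S →ₗ[ℝ] ℝ) (ε : Finset (Fin n) → ℝ) (m : ℕ),
  Dat Δ U e B h ε (2 * m) → Neg Δ B (2 * m) → Pos Δ U e h ε (2 * m) → U ≠ ⊥ →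
  0 ≤ (-1 : ℤ) ^ m * ∑ F ∈ Δ, (-1 : ℤ) ^ F.card * 2 ^ (2 * m - F.card)

end Pool.Agent.H14.CL
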