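import Pool.Agent.H14.CL.TightG

/-!
Project CL, second part: local conditions.  Definitions and statements of the rows.
-/

set_option autoImplicit false

namespace Pool.Agent.H14.CL

open Finset

/-! ### complexes -/

/-- deletion of a vertex -/
def dl {n : ℕ} (L : Finset (Finset (Fin n))) (v : Fin n) : Finset (Finset (Fin n)) :=
  L.filter (fun F => v ∉ F)

/-- full subcomplex -/
def ful {n : ℕ} (L : Finset (Finset (Fin n))) (A : Finset (Fin n)) : Finset (Finset (Fin n)) :=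
  L.filter (fun F => F ⊆ A)

/-- contraction of the edge `{u, v}`: the vertex `v` is replaced by `u` -/
def contr {n : ℕ} (L : Finset (Finset (Fin n))) (u v : Fin n) : Finset (Finset (Fin n)) :=
  L.image (fun F => if v ∈ F then insert u (F.erase v) else F)

/-- flag complexes -/
def Flag {n : ℕ} (L : Finset (Finset (Fin n))) : Prop :=
  ∀ F : Finset (Fin n), (∀ a ∈ F, ∀ b ∈ F, ({a, b} : Finset (Fin n)) ∈ L) → F ∈ L

/-! ### vectors -/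

/-- vectors of `ℝ^{R,R}` -/
abbrev Vec (R : ℕ) : Type := (Fin R → ℝ) × (Fin R → ℝ)

/-- the form of `ℝ^{R,R}` -/
def ip {R : ℕ} (x y : Vec R) : ℝ := x.1 ⬝ᵥ y.1 - x.2 ⬝ᵥ y.2

/-- the operator of a vector -/
def opv {R : ℕ} {S : Type} [AddCommGroup S] [Module ℝ S]
    (γ δ : (Fin R → ℝ) →ₗ[ℝ] S →ₗ[ℝ] S) : Vec R →ₗ[ℝ] S →ₗ[ℝ] S := LinearMap.coprod γ δ

theorem opv_apply {R : ℕ} {S : Type} [AddCommGroup S] [Module ℝ S]
    (γ δ : (Fin R → ℝ) →ₗ[ℝ] S →ₗ[ℝ] S) (x : Vec R) (t : S) :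
    opv γ δ x t = γ x.1 t + δ x.2 t := by
  simp [opv]

/-- dual vectors -/
def Dual {n R : ℕ} (E M : Fin n → Vec R) : Prop :=
  ∀ v w, ip (E w) (M v) = if v = w then 1 / 2 else 0

/-- a configuration, orthogonal on `A`, exact for all complexes of the family -/
structure Cfg {n R : ℕ} {S : Type} [AddCommGroup S] [Module ℝ S]
    (γ δ : (Fin R → ℝ) →ₗ[ℝ] S →ₗ[ℝ] S) (X : Finset (Finset (Finset (Fin n))))
    (A : Fin n → Fin n → Prop) (E : Fin n → Vec R) : Prop where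
  orth : ∀ v w, A v w → ip (E v) (E w) = 0
  dual : ∃ M, Dual E M
  ex : ∀ L ∈ X, ∀ j, Ex L ⊤ (fun v => opv γ δ (E v)) univ j

/-- configurations exist on all Clifford modules of large rank -/
def GoodF {n : ℕ} (X : Finset (Finset (Finset (Fin n)))) (A : Fin n → Fin n → Prop) : Prop :=
  ∃ R₀ : ℕ, ∀ R, R₀ ≤ R → ∀ (S : Type) [NormedAddCommGroup S] [InnerProductSpace ℝ S]
    [FiniteDimensional ℝ S] (γ δ : (Fin R → ℝ) →ₗ[ℝ] S →ₗ[ℝ] S), Clif S γ δ →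
    ∃ E : Fin n → Vec R, Cfg γ δ X A E

/-- adjacency -/
def Adj {n : ℕ} (L : Finset (Finset (Fin n))) (v w : Fin n) : Prop :=
  ({v, w} : Finset (Fin n)) ∈ L

/-- not a pair of non-adjacent vertices -/
def NAdj {n : ℕ} (L : Finset (Finset (Fin n))) (v w : Fin n) : Prop :=
  ¬ ({v} ∈ L ∧ {w} ∈ L ∧ ({v, w} : Finset (Fin n)) ∉ L)

/-- good complexes -/
def Good {n : ℕ} (L : Finset (Finset (Fin n))) : Prop := GoodF {L} (Adj L)

/-! ### rows, homological algebra -/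

/-- D1: passing to the kernel of an operator with a homotopy -/
def StKz : Prop := ∀ (n : ℕ) (K S : Type) [Field K] [AddCommGroup S] [Module K S]
  (L : Finset (Finset (Fin n))) (U U' : Submodule K S) (e : Fin n → S →ₗ[K] S)
  (z m : S →ₗ[K] S), Down L → (∀ x, x ∈ U' ↔ x ∈ U ∧ z x = 0) →
  (∀ x ∈ U, z x ∈ U ∧ m x ∈ U ∧ z (z x) = 0 ∧ z (m x) + m (z x) = x) →
  (∀ v, {v} ∈ L → ∀ x ∈ U, z (e v x) = - e v (z x) ∧ m (e v x) = - e v (m x)) →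
  (∀ j, Ex L U e univ j) → ∀ j, Ex L U' e univ j

/-- D2: adding or deleting a vertex -/
def StAddOp : Prop := ∀ (n : ℕ) (K S : Type) [Field K] [AddCommGroup S] [Module K S]
  (L : Finset (Finset (Fin n))) (U : Submodule K S) (e : Fin n → S →ₗ[K] S) (v : Fin n),
  Down L → (∀ j, Ex (lk L v) (KK U e {v}) e univ j) →
  ((∀ j, Ex (dl L v) U e univ j) ↔ (∀ j, Ex L U e univ j))

/-- D3: gluing -/
def StMV : Prop := ∀ (n : ℕ) (K S : Type) [Field K] [AddCommGroup S] [Module K S]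
  (L : Finset (Finset (Fin n))) (U : Submodule K S) (e : Fin n → S →ₗ[K] S)
  (A₁ A₂ : Finset (Fin n)), Down L → (∀ F ∈ L, F ⊆ A₁ ∨ F ⊆ A₂) →
  (∀ j, Ex (ful L A₁) U e univ j) → (∀ j, Ex (ful L A₂) U e univ j) →
  (∀ j, Ex (ful L (A₁ ∩ A₂)) U e univ j) → ∀ j, Ex L U e univ j

/-- D4: doubling a vertex -/
def StDbl : Prop := ∀ (n : ℕ) (K S : Type) [Field K] [AddCommGroup S] [Module K S]
  (L : Finset (Finset (Fin n))) (U : Submodule K S) (e : Fin n → S →ₗ[K] S) (u v : Fin n),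
  Down L → Flag L → u ≠ v → ({u, v} : Finset (Fin n)) ∈ L → (∀ x ∈ U, e v x = e u x) →
  (∀ j, Ex (contr L u v) U e univ j) → ∀ j, Ex L U e univ j

/-- D5: chains off the edge `{u, v}` -/
def StOff : Prop := ∀ (n : ℕ) (K S : Type) [Field K] [AddCommGroup S] [Module K S]
  (L : Finset (Finset (Fin n))) (U : Submodule K S) (e : Fin n → S →ₗ[K] S) (u v : Fin n),
  Down L → u ≠ v → (∀ x ∈ U, e v x = e u x) → (∀ j, Ex L U e univ j) →
  (∀ j, Ex (lk (lk L u) v) (KK U e {u}) e univ j) →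
  ∀ j, ∀ x ∈ Ch L U e univ j, bd K x = 0 → (∀ G, u ∈ G → v ∈ G → x G = 0) →
  ∃ y ∈ Ch L U e univ (j + 1), (∀ G, u ∈ G → v ∈ G → y G = 0) ∧ bd K y = x

/-- D6: splitting a vertex -/
def StSplitOp : Prop := ∀ (n : ℕ) (K S : Type) [Field K] [AddCommGroup S] [Module K S]
  (L : Finset (Finset (Fin n))) (e : Fin n → S →ₗ[K] S) (r m mu : S →ₗ[K] S) (u v : Fin n),
  Down L → Flag L → u ≠ v → ({u, v} : Finset (Fin n)) ∈ L →
  (∀ x, e v x = e u x + r x) → (∀ x, r (r x) = 0) → (∀ x, r (m x) + m (r x) = x) →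
  (∀ x, r (mu x) + mu (r x) = 0) →
  (∀ w, {w} ∈ L → ∀ x, r (e w x) = - e w (r x)) →
  (∀ w, {w} ∈ L → w ≠ v → ∀ x, m (e w x) = - e w (m x)) →
  (∀ w, {w} ∈ L → w ≠ u → w ≠ v → ∀ x, mu (e w x) = - e w (mu x)) →
  (∀ x, mu (e u x) + e u (mu x) = x) → (∀ x, e u (e u x) = 0) →
  (∀ w, ({u, w} : Finset (Fin n)) ∈ L → w ≠ u → w ≠ v → ∀ x, e w (e u x) = - e u (e w x)) →
  (∀ j, Ex (contr L u v) ⊤ e univ j) → (∀ j, Ex (lk (lk L u) v) ⊤ e univ j) →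
  ∀ j, Ex L ⊤ e univ j

/-! ### rows, deformation -/

/-- D7: semicontinuity of the rank -/
def StRk : Prop := ∀ (ι κ : Type) [Fintype ι] [Fintype κ] [DecidableEq ι] [DecidableEq κ]
  (P : Matrix ι κ (Polynomial ℝ)),
  {s : ℝ | (P.map (Polynomial.eval s)).rank < (P.map (Polynomial.eval 0)).rank}.Finite

/-- D8: generators of the coefficient spaces -/
def StPar : Prop := ∀ (n : ℕ) (S : Type) [AddCommGroup S] [Module ℝ S] [FiniteDimensional ℝ S]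
  (L : Finset (Finset (Fin n))) (e : Fin n → S →ₗ[ℝ] S), Down L →
  (∀ v w, ({v, w} : Finset (Fin n)) ∈ L → ∀ x, e v (e w x) + e w (e v x) = 0) →
  (∀ F u, u ∉ F → insert u F ∈ L → ∀ x ∈ KK ⊤ e F, e u x = 0 → ∃ y ∈ KK ⊤ e F, e u y = x) →
  ∀ G ∈ L, LinearMap.range (opL e (G.sort (· ≤ ·))) = KK ⊤ e G ∧
    Module.finrank ℝ (KK ⊤ e G) * 2 ^ G.card = Module.finrank ℝ S

/-- D9: semicontinuity of the homology -/
def StSC : Prop := ∀ (n : ℕ) (S : Type) [AddCommGroup S] [Module ℝ S] [FiniteDimensional ℝ S]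
  (L : Finset (Finset (Fin n))) (e₀ e₁ : Fin n → S →ₗ[ℝ] S), Down L →
  (∀ (s : ℝ) v w, ({v, w} : Finset (Fin n)) ∈ L → ∀ x,
    (e₀ v + s • e₁ v) ((e₀ w + s • e₁ w) x) + (e₀ w + s • e₁ w) ((e₀ v + s • e₁ v) x) = 0) →
  (∀ (s : ℝ) F u, u ∉ F → insert u F ∈ L → ∀ x ∈ KK ⊤ (fun v => e₀ v + s • e₁ v) F,
    (e₀ u + s • e₁ u) x = 0 →
    ∃ y ∈ KK ⊤ (fun v => e₀ v + s • e₁ v) F, (e₀ u + s • e₁ u) y = x) →
  (∀ j, Ex L ⊤ e₀ univ j) →
  {s : ℝ | ¬ ∀ j, Ex L ⊤ (fun v => e₀ v + s • e₁ v) univ j}.Finite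

/-! ### rows, configurations -/

/-- D10 -/
def StNorm : Prop := ∀ (n : ℕ) (L : Finset (Finset (Fin n))), Down L → Good L →
  GoodF {L} (NAdj L)

/-- D11: one configuration for a family -/
def StAll : Prop := ∀ (n : ℕ) (X : Finset (Finset (Finset (Fin n))))
  (A : Fin n → Fin n → Prop), (∀ L ∈ X, Down L ∧ Good L ∧
    (∀ v w, {v} ∈ L → {w} ∈ L → A v w → ({v, w} : Finset (Fin n)) ∈ L) ∧
    (∀ v w, ({v, w} : Finset (Fin n)) ∈ L → A v w)) → GoodF X A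

/-- D12: two points -/
def StTwo : Prop := ∀ (n : ℕ) (a b : Fin n), a ≠ b → Good ({∅, {a}, {b}} : Finset (Finset (Fin n)))

/-- D13: adding or deleting a vertex -/
def StAddG : Prop := ∀ (n : ℕ) (L : Finset (Finset (Fin n))) (v : Fin n), Down L → Flag L →
  {v} ∈ L → Good (lk L v) → (Good (dl L v) ↔ Good L)

/-- D14: gluing -/
def StGlueG : Prop := ∀ (n : ℕ) (L : Finset (Finset (Fin n))) (A₁ A₂ : Finset (Fin n)),
  Down L → Flag L → (∀ a b, ({a, b} : Finset (Fin n)) ∈ L →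
    (a ∈ A₁ ∧ b ∈ A₁) ∨ (a ∈ A₂ ∧ b ∈ A₂)) →
  Good (ful L A₁) → Good (ful L A₂) → Good (ful L (A₁ ∩ A₂)) → Good L

/-- D15: splitting a vertex -/
def StSplitG : Prop := ∀ (n : ℕ) (L : Finset (Finset (Fin n))) (u v : Fin n),
  Down L → Flag L → u ≠ v → ({u, v} : Finset (Fin n)) ∈ L →
  Good (contr L u v) → Good (lk (lk L u) v) → Good L

/-- D16: spectral complexes of odd type -/
def StSpecG : Prop := ∀ (n d : ℕ) (L : Finset (Finset (Fin n))) (ε : Finset (Fin n) → ℝ),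
  Sph ℝ L ε d → Odd d → ∀ (W : Matrix (Fin n) (Fin n) ℝ) (hW : W.IsHermitian),
  (∀ u v, ({u, v} : Finset (Fin n)) ∈ L → W u v = 0) →
  (∀ F ∈ L, F.card < d → ∃ v, v ∉ F ∧ insert v F ∈ L ∧
    ∀ u, u ∉ F → insert u F ∈ L → ({u, v} : Finset (Fin n)) ∉ L → 0 < W u v) →
  (univ.filter (fun i => hW.eigenvalues i < 0)).card ≤ d → Good L

/-! ### rows, conclusion -/

/-- D17: links, coefficients in the kernels -/
def StKzF : Prop := ∀ (n R : ℕ) (S : Type) [NormedAddCommGroup S] [InnerProductSpace ℝ S]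
  (γ δ : (Fin R → ℝ) →ₗ[ℝ] S →ₗ[ℝ] S), Clif S γ δ → ∀ (Δ : Finset (Finset (Fin n)))
  (E M : Fin n → Vec R), Down Δ → (∀ v w, ({v, w} : Finset (Fin n)) ∈ Δ → ip (E v) (E w) = 0) →
  Dual E M → ∀ F ∈ Δ, (∀ j, Ex (lkF Δ F) ⊤ (fun v => opv γ δ (E v)) univ j) →
  ∀ j, Ex (lkF Δ F) (KK ⊤ (fun v => opv γ δ (E v)) F) (fun v => opv γ δ (E v)) univ j

/-- D18: vanishing above the middle -/
def StFinA : Prop := ∀ (n : ℕ) (S : Type) [AddCommGroup S] [Module ℝ S]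
  (Δ : Finset (Finset (Fin n))) (e : Fin n → S →ₗ[ℝ] S) (B : Fin n → Fin n → ℝ)
  (h : S →ₗ[ℝ] S →ₗ[ℝ] ℝ) (ε : Finset (Fin n) → ℝ) (m : ℕ), Dat Δ ⊤ e B h ε (2 * m) →
  (∀ F ∈ Δ, Odd F.card → ∀ j, Ex (lkF Δ F) (KK ⊤ e F) e univ j) → PEx Δ ⊤ e (2 * m)

/-- D19: the inequality -/
def StFinB : Prop := ∀ (n : ℕ) (S : Type) [AddCommGroup S] [Module ℝ S]
  [FiniteDimensional ℝ S]
  (Δ : Finset (Finset (Fin n))) (e : Fin n → S →ₗ[ℝ] S) (B : Fin n → Fin n → ℝ)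
  (h : S →ₗ[ℝ] S →ₗ[ℝ] ℝ) (ε : Finset (Fin n) → ℝ) (m : ℕ), Dat Δ ⊤ e B h ε (2 * m) →
  PEx Δ ⊤ e (2 * m) → (∃ x : S, x ≠ 0) →
  0 ≤ (-1 : ℤ) ^ m * ∑ F ∈ Δ, (-1 : ℤ) ^ F.card * 2 ^ (2 * m - F.card)

/-- D20: the data of a configuration -/
def StFinC : Prop := ∀ (n R d : ℕ) (S : Type) [NormedAddCommGroup S] [InnerProductSpace ℝ S]
  [FiniteDimensional ℝ S] (γ δ : (Fin R → ℝ) →ₗ[ℝ] S →ₗ[ℝ] S), Clif S γ δ →
  ∀ (Δ : Finset (Finset (Fin n))) (ε : Finset (Fin n) → ℝ) (E M : Fin n → Vec R),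
  Sph ℝ Δ ε d → (∀ v w, ({v, w} : Finset (Fin n)) ∈ Δ → ip (E v) (E w) = 0) →
  Dual E M → R % 4 = d % 4 → ∃ (B : Fin n → Fin n → ℝ) (h : S →ₗ[ℝ] S →ₗ[ℝ] ℝ),
    Dat Δ ⊤ (fun v => opv γ δ (E v)) B h ε d

end Pool.Agent.H14.CL
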