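import Pool.Agent.H14.CL.Stm3

/-!
Project CL, fourth part: flag 2-spheres belong to `B(0)`.  Definitions and statements of the rows.
-/

set_option autoImplicit false

namespace Pool.Agent.H14.CL

open Finset

/-- edges -/
def Ed {n : ℕ} (L : Finset (Finset (Fin n))) (a b : Fin n) : Prop :=
  a ≠ b ∧ ({a, b} : Finset (Fin n)) ∈ L

/-- flag 2-spheres, combinatorially -/
structure P3 {n : ℕ} (L : Finset (Finset (Fin n))) : Prop where
  down : Down L
  emp : ∅ ∈ L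
  flag : Flag L
  le3 : ∀ F ∈ L, F.card ≤ 3
  nb : ∀ x, {x} ∈ L → ∃ y, Ed L x y
  two : ∀ a b, Ed L a b → ∃ c d, c ≠ d ∧ Ed L a c ∧ Ed L b c ∧ Ed L a d ∧ Ed L b d ∧
    ∀ x, Ed L a x → Ed L b x → x = c ∨ x = d
  lkc : ∀ (x : Fin n) (T : Finset (Fin n)), T.Nonempty → (∀ y ∈ T, Ed L x y) →
    (∀ y ∈ T, ∀ z, Ed L x z → Ed L y z → z ∈ T) → ∀ y, Ed L x y → y ∈ T
  con : ∀ T : Finset (Fin n), T.Nonempty → (∀ y ∈ T, {y} ∈ L) →
    (∀ y ∈ T, ∀ z, Ed L y z → z ∈ T) → ∀ y, {y} ∈ L → y ∈ T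
  chi : ∑ F ∈ L, (-1 : ℤ) ^ F.card = -1

/-- induced 4-cycles -/
def C4 {n : ℕ} (L : Finset (Finset (Fin n))) (a b c d : Fin n) : Prop :=
  Ed L a b ∧ Ed L b c ∧ Ed L c d ∧ Ed L d a ∧ a ≠ c ∧ b ≠ d ∧ ¬ Ed L a c ∧ ¬ Ed L b d

/-- the complement of `P` is the union of `T` and `O`, and there are no edges between them -/
structure Side {n : ℕ} (L : Finset (Finset (Fin n))) (P T O : Finset (Fin n)) : Prop where
  tn : T.Nonempty
  on : O.Nonempty
  tv : ∀ x ∈ T, {x} ∈ L ∧ x ∉ P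
  ov : ∀ x ∈ O, {x} ∈ L ∧ x ∉ P
  dj : ∀ x ∈ T, x ∉ O
  all : ∀ x, {x} ∈ L → x ∉ P → x ∈ T ∨ x ∈ O
  no : ∀ x ∈ T, ∀ y ∈ O, ¬ Ed L x y

/-- vertices of degree 4 -/
def Wh {n : ℕ} (L : Finset (Finset (Fin n))) (t p q r s : Fin n) : Prop :=
  Ed L t p ∧ Ed L t q ∧ Ed L t r ∧ Ed L t s ∧ C4 L p q r s ∧
    ∀ x, Ed L t x → x = p ∨ x = q ∨ x = r ∨ x = s

/-- the octahedron -/
structure Oct {n : ℕ} (L : Finset (Finset (Fin n))) (a a' b b' c c' : Fin n) : Prop where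
  all : ∀ x, {x} ∈ L → x = a ∨ x = a' ∨ x = b ∨ x = b' ∨ x = c ∨ x = c'
  aa : a ≠ a' ∧ ¬ Ed L a a'
  bb : b ≠ b' ∧ ¬ Ed L b b'
  cc : c ≠ c' ∧ ¬ Ed L c c'
  ab : Ed L a b ∧ Ed L a b' ∧ Ed L a' b ∧ Ed L a' b'
  ac : Ed L a c ∧ Ed L a c' ∧ Ed L a' c ∧ Ed L a' c'
  bc : Ed L b c ∧ Ed L b c' ∧ Ed L b' c ∧ Ed L b' c'

/-- the graph of the contraction of the edge `{u, v}` -/
structure CtrG {n : ℕ} (L L' : Finset (Finset (Fin n))) (u v : Fin n) : Prop where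
  ver : ∀ x, {x} ∈ L' ↔ {x} ∈ L ∧ x ≠ v
  edg : ∀ x y, Ed L' x y ↔ x ≠ v ∧ y ≠ v ∧ x ≠ y ∧
    (Ed L x y ∨ (x = u ∧ Ed L v y) ∨ (y = u ∧ Ed L v x))

/-! ### basic facts -/

section

variable {n : ℕ} {L : Finset (Finset (Fin n))}

theorem Ed.symm {a b : Fin n} (h : Ed L a b) : Ed L b a :=
  ⟨h.1.symm, by rw [Finset.pair_comm]; exact h.2⟩

theorem Ed.comm {a b : Fin n} : Ed L a b ↔ Ed L b a := ⟨Ed.symm, Ed.symm⟩

theorem P3.vl (h : P3 L) {a b : Fin n} (hab : Ed L a b) : {a} ∈ L :=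
  h.down _ hab.2 _ (by intro x hx; rw [mem_singleton.1 hx]; exact mem_insert_self _ _)

theorem P3.vr (h : P3 L) {a b : Fin n} (hab : Ed L a b) : {b} ∈ L := h.vl hab.symm

/-- three pairwise adjacent vertices -/
theorem P3.tri (h : P3 L) {a b c : Fin n} (hab : Ed L a b) (hac : Ed L a c) (hbc : Ed L b c) :
    ({a, b, c} : Finset (Fin n)) ∈ L := by
  apply h.flag
  have ha : ({a, a} : Finset (Fin n)) ∈ L := by
    rw [Finset.pair_eq_singleton]; exact h.vl hab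
  have hb : ({b, b} : Finset (Fin n)) ∈ L := by
    rw [Finset.pair_eq_singleton]; exact h.vr hab
  have hc : ({c, c} : Finset (Fin n)) ∈ L := by
    rw [Finset.pair_eq_singleton]; exact h.vr hac
  intro x hx y hy
  simp only [mem_insert, mem_singleton] at hx hy
  rcases hx with rfl | rfl | rfl <;> rcases hy with rfl | rfl | rfl
  · exact ha
  · exact hab.2
  · exact hac.2
  · exact hab.symm.2
  · exact hb
  · exact hbc.2
  · exact hac.symm.2
  · exact hbc.symm.2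
  · exact hc

/-- no four pairwise adjacent vertices -/
theorem P3.k4 (h : P3 L) {a b c d : Fin n} (hab : Ed L a b) (hac : Ed L a c) (had : Ed L a d)
    (hbc : Ed L b c) (hbd : Ed L b d) (hcd : Ed L c d) : False := by
  have h1 : ({a, b, c, d} : Finset (Fin n)) ∈ L := by
    apply h.flag
    have ha : ({a, a} : Finset (Fin n)) ∈ L := by
      rw [Finset.pair_eq_singleton]; exact h.vl hab
    have hb : ({b, b} : Finset (Fin n)) ∈ L := by
      rw [Finset.pair_eq_singleton]; exact h.vr hab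
    have hc : ({c, c} : Finset (Fin n)) ∈ L := by
      rw [Finset.pair_eq_singleton]; exact h.vr hac
    have hd : ({d, d} : Finset (Fin n)) ∈ L := by
      rw [Finset.pair_eq_singleton]; exact h.vr had
    intro x hx y hy
    simp only [mem_insert, mem_singleton] at hx hy
    rcases hx with rfl | rfl | rfl | rfl <;> rcases hy with rfl | rfl | rfl | rfl
    · exact ha
    · exact hab.2
    · exact hac.2
    · exact had.2
    · exact hab.symm.2
    · exact hb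
    · exact hbc.2
    · exact hbd.2
    · exact hac.symm.2
    · exact hbc.symm.2
    · exact hc
    · exact hcd.2
    · exact had.symm.2
    · exact hbd.symm.2
    · exact hcd.symm.2
    · exact hd
  have h2 := h.le3 _ h1
  have h3 : ({a, b, c, d} : Finset (Fin n)).card = 4 := by
    rw [card_insert_of_notMem, card_insert_of_notMem, card_pair hcd.1]
    · simp only [mem_insert, mem_singleton, not_or]
      exact ⟨hbc.1, hbd.1⟩
    · simp only [mem_insert, mem_singleton, not_or]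
      exact ⟨hab.1, hac.1, had.1⟩
  omega

/-- triangles -/
theorem P3.tri3 (h : P3 L) {F : Finset (Fin n)} (hF : F ∈ L) (h3 : F.card = 3) :
    ∃ a b c, F = {a, b, c} ∧ Ed L a b ∧ Ed L a c ∧ Ed L b c := by
  obtain ⟨a, b, c, hab, hac, hbc, rfl⟩ := card_eq_three.1 h3
  refine ⟨a, b, c, rfl, ⟨hab, h.down _ hF _ ?_⟩, ⟨hac, h.down _ hF _ ?_⟩,
    ⟨hbc, h.down _ hF _ ?_⟩⟩
  · intro x hx
    simp only [mem_insert, mem_singleton] at hx ⊢
    tauto
  · intro x hx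
    simp only [mem_insert, mem_singleton] at hx ⊢
    tauto
  · intro x hx
    simp only [mem_insert, mem_singleton] at hx ⊢
    tauto

theorem C4.rot {a b c d : Fin n} (h : C4 L a b c d) : C4 L b c d a := by
  obtain ⟨h1, h2, h3, h4, h5, h6, h7, h8⟩ := h
  exact ⟨h2, h3, h4, h1, h6, h5.symm, h8, fun h => h7 h.symm⟩

theorem C4.refl {a b c d : Fin n} (h : C4 L a b c d) : C4 L b a d c := by
  obtain ⟨h1, h2, h3, h4, h5, h6, h7, h8⟩ := h
  exact ⟨h1.symm, h4.symm, h3.symm, h2.symm, h6, h5, h8, h7⟩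

theorem Side.swap {P T O : Finset (Fin n)} (h : Side L P T O) : Side L P O T :=
  ⟨h.on, h.tn, h.ov, h.tv, fun x hx hx' => h.dj x hx' hx, fun x hx hx' => (h.all x hx hx').symm,
    fun x hx y hy h' => h.no y hy x hx h'.symm⟩

theorem c4_set {a b c d : Fin n} : ({a, b, c, d} : Finset (Fin n)) = {b, c, d, a} := by
  ext x
  simp only [mem_insert, mem_singleton]
  tauto

theorem c4_set' {a b c d : Fin n} : ({a, b, c, d} : Finset (Fin n)) = {b, a, d, c} := by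
  ext x
  simp only [mem_insert, mem_singleton]
  tauto

end

/-! ### rows -/

/-- A1 -/
def StSphP3 : Prop := ∀ (n : ℕ) (L : Finset (Finset (Fin n))) (ε : Finset (Fin n) → ℝ),
  Sph ℝ L ε 3 → P3 L

/-- A2: 2-cycles vanishing on a triangle vanish -/
def StP3U : Prop := ∀ (n : ℕ) (L : Finset (Finset (Fin n))), P3 L →
  ∀ x : Finset (Fin n) → ℝ, (∀ F, ¬ (F ∈ L ∧ F.card = 3) → x F = 0) → bd ℝ x = 0 →
  (∃ F ∈ L, F.card = 3 ∧ x F = 0) → x = 0

/-- A3: orientation, and 1-cycles are boundaries -/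
def StP3O : Prop := ∀ (n : ℕ) (L : Finset (Finset (Fin n))), P3 L →
  (∃ ε : Finset (Fin n) → ℝ, (∀ F, ε F ≠ 0 ↔ F ∈ L ∧ F.card = 3) ∧ bd ℝ ε = 0) ∧
    Ex L (⊤ : Submodule ℝ ℝ) (fun _ => 0) univ 2

/-- A4: 4-cycles separate -/
def StSideEx : Prop := ∀ (n : ℕ) (L : Finset (Finset (Fin n))), P3 L → ∀ a b c d,
  C4 L a b c d → ∃ T O, Side L {a, b, c, d} T O

/-- A5: the two sides of an edge of a 4-cycle -/
def StSideAp : Prop := ∀ (n : ℕ) (L : Finset (Finset (Fin n))), P3 L → ∀ a b c d,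
  C4 L a b c d → ∀ T O, Side L {a, b, c, d} T O →
    ∃ x ∈ T, ∃ y ∈ O, Ed L a x ∧ Ed L b x ∧ Ed L a y ∧ Ed L b y

/-- A6: the sides are connected -/
def StSideCon : Prop := ∀ (n : ℕ) (L : Finset (Finset (Fin n))), P3 L → ∀ a b c d,
  C4 L a b c d → ∀ T O, Side L {a, b, c, d} T O → ∀ Z ⊆ O, Z.Nonempty →
    (∀ y ∈ Z, ∀ z ∈ O, Ed L y z → z ∈ Z) → Z = O

/-- A7: if every edge belongs to an induced 4-cycle then some vertex has degree 4 -/
def StDeg4 : Prop := ∀ (n : ℕ) (L : Finset (Finset (Fin n))), P3 L →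
  (∀ a b, Ed L a b → ∃ c d, C4 L a b c d) → ∃ t p q r s, Wh L t p q r s

/-- A8: vertices of degree 4 -/
def StOct5 : Prop := ∀ (n : ℕ) (L : Finset (Finset (Fin n))), P3 L → ∀ t p q r s,
  Wh L t p q r s → (∃ c d, C4 L t p c d) → (∃ c d, C4 L t q c d) →
  ∃ x, Oct L t x p r q s

/-- A9: the contraction is a flag complex -/
def StCtrF : Prop := ∀ (n : ℕ) (L : Finset (Finset (Fin n))) (u v : Fin n), P3 L → Ed L u v →
  (∀ c d, ¬ C4 L u v c d) → Down (contr L u v) ∧ ∅ ∈ contr L u v ∧ Flag (contr L u v) ∧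
    (∀ F ∈ contr L u v, F.card ≤ 3)

/-- A10: the graph of the contraction -/
def StCtrE : Prop := ∀ (n : ℕ) (L : Finset (Finset (Fin n))) (u v : Fin n), P3 L → Ed L u v →
  CtrG L (contr L u v) u v

/-- A11: the two triangles at an edge of the contraction -/
def StCtrTwo : Prop := ∀ (n : ℕ) (L L' : Finset (Finset (Fin n))) (u v : Fin n), P3 L →
  Ed L u v → (∀ c d, ¬ C4 L u v c d) → CtrG L L' u v → ∀ a b, Ed L' a b →
  ∃ c d, c ≠ d ∧ Ed L' a c ∧ Ed L' b c ∧ Ed L' a d ∧ Ed L' b d ∧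
    ∀ x, Ed L' a x → Ed L' b x → x = c ∨ x = d

/-- A12: a cycle minus a vertex is connected -/
def StCyc : Prop := ∀ (n : ℕ) (L : Finset (Finset (Fin n))) (u v : Fin n), P3 L → Ed L u v →
  ∀ T : Finset (Fin n), T.Nonempty → (∀ y ∈ T, Ed L u y ∧ y ≠ v) →
    (∀ y ∈ T, ∀ z, Ed L u z → z ≠ v → Ed L y z → z ∈ T) → ∀ y, Ed L u y → y ≠ v → y ∈ T

/-- A13: the links of the contraction are connected -/
def StCtrLk : Prop := ∀ (n : ℕ) (L L' : Finset (Finset (Fin n))) (u v : Fin n), P3 L →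
  Ed L u v → (∀ c d, ¬ C4 L u v c d) → CtrG L L' u v →
  ∀ (x : Fin n) (T : Finset (Fin n)), T.Nonempty → (∀ y ∈ T, Ed L' x y) →
    (∀ y ∈ T, ∀ z, Ed L' x z → Ed L' y z → z ∈ T) → ∀ y, Ed L' x y → y ∈ T

/-- A14: the contraction is connected -/
def StCtrCon : Prop := ∀ (n : ℕ) (L L' : Finset (Finset (Fin n))) (u v : Fin n), P3 L →
  Ed L u v → CtrG L L' u v → (∀ x, {x} ∈ L' → ∃ y, Ed L' x y) ∧
  ∀ T : Finset (Fin n), T.Nonempty → (∀ y ∈ T, {y} ∈ L') →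
    (∀ y ∈ T, ∀ z, Ed L' y z → z ∈ T) → ∀ y, {y} ∈ L' → y ∈ T

/-- A15: the Euler characteristic of the contraction -/
def StCtrChi : Prop := ∀ (n : ℕ) (L : Finset (Finset (Fin n))) (u v : Fin n), P3 L →
  Ed L u v → ∑ F ∈ contr L u v, (-1 : ℤ) ^ F.card = -1

/-- A16: contractions of flag 2-spheres -/
def StCtr : Prop := ∀ (n : ℕ) (L : Finset (Finset (Fin n))) (u v : Fin n), P3 L → Ed L u v →
  (∀ c d, ¬ C4 L u v c d) → P3 (contr L u v)

/-- A17: the octahedron -/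
def StOctG : Prop := ∀ (n : ℕ) (L : Finset (Finset (Fin n))) (a a' b b' c c' : Fin n), P3 L →
  Oct L a a' b b' c c' → GK 0 L

/-- A18: flag 2-spheres belong to `B(0)` -/
def StP3G : Prop := ∀ (n : ℕ) (L : Finset (Finset (Fin n))), P3 L → GK 0 L

/-- A19: types 1 and 3 -/
def StFS3 : Prop := ∀ (n : ℕ) (L : Finset (Finset (Fin n))), (FS 1 L ∨ FS 3 L) → GK 0 L

end Pool.Agent.H14.CL
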