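import Pool.Agent.H14.CL.Stm

/-!
Project CL (MP_32beb3_co), row PP2: symmetry of the pairing, change of values.
-/

set_option autoImplicit false

namespace Pool.Agent.H14.CL

open Finset

section

variable {n : ℕ} {K : Type*} [Field K] {S : Type*} [AddCommGroup S] [Module K S]

theorem sm_hat_mem (X : Submodule K S) (N M : Finset (Fin n))
    (w : Finset (Fin n) → Finset (Fin n) → S) (h : ∀ N G, w N G ∈ X) : hat K N M w ∈ X := by
  rw [hat_apply]
  exact X.sum_mem fun G _ => X.smul_mem _ (h N G)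

theorem sm_hat_vm (α : S →ₗ[K] S) (N M : Finset (Fin n))
    (w : Finset (Fin n) → Finset (Fin n) → S) : hat K N M (vm α w) = α (hat K N M w) := by
  rw [hat_apply, hat_apply, map_sum]
  exact sum_congr rfl fun G _ => by rw [map_smul, vm_apply]

theorem sm_hat_zero (N M : Finset (Fin n)) (w : Finset (Fin n) → Finset (Fin n) → S)
    (h : ∀ G, w N G = 0) : hat K N M w = 0 := by
  rw [hat_apply]
  exact sum_eq_zero fun G _ => by rw [h, smul_zero]

end

theorem st_map : StMap := by
  intro n K S _ _ _ ε h h' c X Y α β w w' hh hw hw'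
  rw [PP_apply, PP_apply, mul_sum]
  refine sum_congr rfl fun Φ _ => ?_
  rw [mul_left_comm]
  congr 1
  rw [mul_sum]
  refine sum_congr rfl fun N _ => ?_
  rw [hh _ (sm_hat_mem X _ _ w hw) _ (sm_hat_mem Y _ _ w' hw'), sm_hat_vm, sm_hat_vm]
  ring

theorem st_sym : StSym := by
  intro n K S _ _ _ ε h h' c X Y i j w w' hh hw hw' hi hj
  rw [PP_apply, PP_apply, mul_sum]
  refine sum_congr rfl fun Φ _ => ?_
  rw [mul_left_comm]
  congr 1
  have h1 : ∑ N ∈ Φ.powerset, sh K N (Φ \ N) * h' (hat K N (Φ \ N) w') (hat K (Φ \ N) N w) =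
      ∑ N ∈ Φ.powerset, sh K (Φ \ N) N * h' (hat K (Φ \ N) N w') (hat K N (Φ \ N) w) := by
    refine sum_nbij' (fun N => Φ \ N) (fun N => Φ \ N) ?_ ?_ ?_ ?_ ?_
    · intro N _
      exact mem_powerset.2 sdiff_subset
    · intro N _
      exact mem_powerset.2 sdiff_subset
    · intro N hN
      exact Finset.sdiff_sdiff_eq_self (mem_powerset.1 hN)
    · intro N hN
      exact Finset.sdiff_sdiff_eq_self (mem_powerset.1 hN)
    · intro N hN
      rw [Finset.sdiff_sdiff_eq_self (mem_powerset.1 hN)]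
  rw [h1, mul_sum]
  refine sum_congr rfl fun N hN => ?_
  rw [hh _ (sm_hat_mem X _ _ w hw) _ (sm_hat_mem Y _ _ w' hw')]
  by_cases hNi : N.card = i
  · by_cases hNj : (Φ \ N).card = j
    · rw [sh_comm K disjoint_sdiff, hNi, hNj]
      ring
    · rw [sm_hat_zero (Φ \ N) N w' fun G => hj _ G hNj]
      simp
  · rw [sm_hat_zero N (Φ \ N) w fun G => hi _ G hNi]
    simp

end Pool.Agent.H14.CL
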