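import Pool.Agent.H14.CL.Core

/-!
Project CL: the data of a folded realisation on an arbitrary Clifford module.
-/

set_option autoImplicit false

namespace Pool.Agent.H14.CL

theorem tight_gen {n d N : ℕ} {S : Type} [NormedAddCommGroup S] [InnerProductSpace ℝ S]
    {γ : (Fin d → ℝ) →ₗ[ℝ] S →ₗ[ℝ] S} {δ : (Fin N → ℝ) →ₗ[ℝ] S →ₗ[ℝ] S} (hC : Clif S γ δ)
    {Δ : Finset (Finset (Fin n))} {ε : Finset (Fin n) → ℝ} (hS : Sph ℝ Δ ε d)
    (p : Fin n → Fin d → ℝ) (q : Fin n → Fin N → ℝ)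
    (hpq : ∀ v w, ({v, w} : Finset (Fin n)) ∈ Δ → p v ⬝ᵥ p w = q v ⬝ᵥ q w)
    (hN : Neg Δ (fun v w => p v ⬝ᵥ p w - q v ⬝ᵥ q w) d) :
    ∃ (B : Fin n → Fin n → ℝ) (h : S →ₗ[ℝ] S →ₗ[ℝ] ℝ) (ε' : Finset (Fin n) → ℝ),
      Dat Δ ⊤ (fun v => γ (p v) + δ (q v)) B h ε' d ∧ Neg Δ B d ∧
      Pos Δ ⊤ (fun v => γ (p v) + δ (q v)) h ε' d := by
  have h2 : StOm := st_om
  have h3 : StFacet := st_facet st_om
  have h4 : StRidge := st_ridge
  have h5 : StOpp := st_opp st_ridge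
  have h6 : StConn := st_conn
  have h7 : StPerm := st_perm
  have h8 : StCross := st_cross st_perm st_ridge
  have hBs0 : ∀ v w, (fun v w => p v ⬝ᵥ p w - q v ⬝ᵥ q w) v w =
      (fun v w => p v ⬝ᵥ p w - q v ⬝ᵥ q w) w v := by
    intro v w
    show p v ⬝ᵥ p w - q v ⬝ᵥ q w = p w ⬝ᵥ p v - q w ⬝ᵥ q v
    rw [dotProduct_comm (p v), dotProduct_comm (q v)]
  obtain ⟨e, he'⟩ : ∃ e : Fin n → S →ₗ[ℝ] S, e = fun v => γ (p v) + δ (q v) := ⟨_, rfl⟩
  have he : ∀ v, e v = γ (p v) + δ (q v) := fun v => by rw [he']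
  rw [← he']
  obtain ⟨B, hB⟩ : ∃ B : Fin n → Fin n → ℝ, ∀ v w, B v w = 2 * (p v ⬝ᵥ p w - q v ⬝ᵥ q w) :=
    ⟨_, fun v w => rfl⟩
  obtain ⟨h, hh⟩ : ∃ h : S →ₗ[ℝ] S →ₗ[ℝ] ℝ, ∀ x y, h x y = inner ℝ (om γ x) y := by
    refine ⟨LinearMap.mk₂ ℝ (fun x y => inner ℝ (om γ x) y) ?_ ?_ ?_ ?_, fun x y => rfl⟩
    · intro x x' y
      rw [map_add, inner_add_left]
    · intro c x y
      rw [map_smul, real_inner_smul_left, smul_eq_mul]
    · intro x y y'
      rw [inner_add_right]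
    · intro c x y
      rw [real_inner_smul_right, smul_eq_mul]
  have hrel : ∀ v w x, e v (e w x) + e w (e v x) = B v w • x := by
    intro v w x
    rw [he, he, hB]
    exact ti9_rel hC _ _ _ _ x
  have hBs : ∀ v w, B v w = B w v := by
    intro v w
    rw [hB, hB, dotProduct_comm (p v), dotProduct_comm (q v)]
  have hBz : ∀ v w, ({v, w} : Finset (Fin n)) ∈ Δ → B v w = 0 := by
    intro v w hvw
    rw [hB, hpq v w hvw, sub_self, mul_zero]
  obtain ⟨ho1, ho2, ho3, ho4⟩ := h2 d N _ γ δ hC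
  -- the data, up to the sign of the fundamental cycle
  have hDat : ∀ s : ℝ, s ≠ 0 → Dat Δ ⊤ e B h (fun Φ => s * ε Φ) d := by
    intro s hs
    refine ⟨ti9_sph hS hs, fun v _ x _ => trivial, ?_, fun v w _ _ x _ => hrel v w x, hBz, hBs,
      ?_, ?_, ?_, ?_⟩
    · intro v hv x _
      have h9 := hrel v v x
      rw [hBz v v (by rwa [Finset.pair_eq_singleton]), zero_smul] at h9
      have h10 : (2 : ℝ) • e v (e v x) = 0 := by rw [two_smul]; exact h9
      exact (smul_eq_zero.mp h10).resolve_left (by norm_num)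
    · intro F hF u hu huF x hx hux
      obtain ⟨Φ, hΦ, hFΦ, hΦc⟩ := hS.pure _ huF
      obtain ⟨u', hu'1, hu'2, hneg⟩ := ti9_opp h4 h5 hS hBs0 hN hΦ hΦc
        (hFΦ (Finset.mem_insert_self u F))
      have hne : B u u' ≠ 0 := by
        rw [hB]
        exact (mul_neg_of_pos_of_neg (by norm_num) hneg).ne
      refine ⟨(B u u')⁻¹ • e u' x, ⟨trivial, ?_⟩, ?_⟩
      · intro f hf
        have hfu : f ≠ u := fun h => hu (h ▸ hf)
        have h9 : ({f, u'} : Finset (Fin n)) ∈ Δ := by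
          refine hS.down _ hu'2 _ ?_
          intro y hy
          rcases Finset.mem_insert.mp hy with rfl | hy
          · exact Finset.mem_insert_of_mem (Finset.mem_erase.mpr
              ⟨hfu, hFΦ (Finset.mem_insert_of_mem hf)⟩)
          · rw [Finset.mem_singleton.mp hy]; exact Finset.mem_insert_self _ _
        have h10 := hrel f u' x
        rw [hBz f u' h9, zero_smul, hx.2 f hf, map_zero, add_zero] at h10
        rw [map_smul, h10, smul_zero]
      · have h10 := hrel u u' x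
        rw [hux, map_zero, add_zero] at h10
        rw [map_smul, h10, smul_smul, inv_mul_cancel₀ hne, one_smul]
    · intro v _ x _ y _
      rw [hh, hh, he]
      exact ti9_adj hC h2 _ _ x y
    · intro x _ y _
      rw [hh, hh, ho3, real_inner_comm]
    · intro x _ hx
      have h9 : om γ x = 0 := by
        have h10 := hx (om γ x) trivial
        rw [hh] at h10
        exact inner_self_eq_zero.mp h10
      exact ho4.1 (by rw [h9, map_zero])
  have hNB : Neg Δ B d := by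
    intro F hF hFc
    obtain ⟨v, hv1, hv2, hv3⟩ := hN F hF hFc
    refine ⟨v, hv1, hv2, fun u hu1 hu2 hu3 => ?_⟩
    rw [hB]
    exact mul_neg_of_pos_of_neg (by norm_num) (hv3 u hu1 hu2 hu3)
  -- the sign
  obtain ⟨Φ, hΦ, _, hΦc⟩ := hS.pure ∅ hS.empty
  have hlen : Φ.toList.length = d := by rw [Finset.length_toList, hΦc]
  have hnd : Φ.toList.Nodup := Finset.nodup_toList Φ
  have hfin : Φ.toList.toFinset = Φ := Finset.toList_toFinset Φ
  obtain ⟨f, hf⟩ : ∃ f : Fin d → Fin n, ∀ i, f i = Φ.toList.get (i.cast hlen.symm) :=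
    ⟨_, fun i => rfl⟩
  have hfi : Function.Injective f := by
    intro i j hij
    rw [hf, hf] at hij
    have h9 := hnd.injective_get hij
    exact Fin.cast_injective _ h9
  have hfΦ : ∀ i, f i ∈ Φ := by
    intro i
    rw [hf, ← Finset.mem_toList]
    exact List.get_mem _ _
  have hmap : (List.finRange d).map f = Φ.toList := by
    apply List.ext_getElem
    · rw [List.length_map, List.length_finRange, hlen]
    · intro i hi1 hi2
      simp [hf]
  obtain ⟨σ, hσ, hpos⟩ := h3 d N _ γ δ hC (fun i => p (f i)) (fun i => q (f i))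
    (fun i j => hpq _ _ (by
      refine hS.down Φ hΦ _ ?_
      intro x hx
      rcases Finset.mem_insert.mp hx with rfl | hx
      · exact hfΦ i
      · rw [Finset.mem_singleton.mp hx]; exact hfΦ j))
    (ti9_indep h4 h5 hS hpq hN hΦ hΦc hfi hfΦ)
  have hop : opL (fun i : Fin d => γ (p (f i)) + δ (q (f i))) (List.finRange d) =
      opL e Φ.toList := by
    rw [← hmap, ← ti9_opL_map]
    congr 1
    funext i
    exact (he (f i)).symm
  rw [hop] at hpos
  have hσ2 : σ * σ = 1 := by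
    rcases hσ with rfl | rfl <;> norm_num
  have ha : ε Φ * sgL ℝ Φ.toList * σ ≠ 0 := by
    refine mul_ne_zero (mul_ne_zero (hS.nz Φ hΦ hΦc) (ti9_sgL_ne _)) ?_
    rcases hσ with rfl | rfl <;> norm_num
  obtain ⟨s, hs0, hs⟩ : ∃ s : ℝ, s ≠ 0 ∧ 0 < s * (ε Φ * sgL ℝ Φ.toList * σ) :=
    ⟨ε Φ * sgL ℝ Φ.toList * σ, ha, mul_self_pos.mpr ha⟩
  have hD := hDat s hs0
  have hPos0 : PosAt ⊤ e h (fun Φ => s * ε Φ) Φ := by
    intro L hL hLΦ t _ ht
    have hperm : L.Perm Φ.toList := by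
      refine List.perm_of_nodup_nodup_toFinset_eq hL hnd ?_
      rw [hLΦ, hfin]
    have h9 := h7 n ℝ _ Δ ⊤ e B h _ d hD L Φ.toList hperm hL (hLΦ.symm ▸ hΦ) t trivial
    have h10 : sgL ℝ L * h (opL e L t) t = sgL ℝ Φ.toList * h (opL e Φ.toList t) t := by
      have h11 := congrArg (fun z => h z t) h9
      simpa only [map_smul, LinearMap.smul_apply, smul_eq_mul] using h11
    have h12 : opL e Φ.toList t ≠ 0 := by
      intro h13
      rw [h13, smul_zero] at h9
      exact ht ((smul_eq_zero.mp h9).resolve_left (ti9_sgL_ne L))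
    have h14 := hpos t h12
    have h15 : (s * ε Φ) * sgL ℝ L * h (opL e L t) t =
        (s * (ε Φ * sgL ℝ Φ.toList * σ)) * (σ * inner ℝ (om γ (opL e Φ.toList t)) t) := by
      rw [← hh]
      calc (s * ε Φ) * sgL ℝ L * h (opL e L t) t = (s * ε Φ) * (sgL ℝ L * h (opL e L t) t) := by
            ring
        _ = (s * ε Φ) * (sgL ℝ Φ.toList * h (opL e Φ.toList t) t) * (σ * σ) := by
            rw [h10, hσ2, mul_one]
        _ = _ := by ring
    rw [h15]
    exact mul_pos hs h14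
  have hPosAll := h6 n ℝ Δ _ d hD.sph (fun Ψ => PosAt ⊤ e h (fun Φ => s * ε Φ) Ψ)
    (by
      intro Γ hΓ hΓc u u' huu hu hu' hui hui' hP
      exact h8 n _ Δ ⊤ e B h _ d hD Γ hΓ hΓc u u' huu hu hu' hui hui'
        (h5 n ℝ Δ _ d B hD.sph hBs hNB Γ hΓ hΓc u u' huu hu hu' hui hui') hP)
    Φ hΦ hΦc hPos0
  refine ⟨B, h, _, hD, hNB, ?_⟩
  intro L hL hLΔ hLl t ht hne
  exact hPosAll L.toFinset hLΔ (by rw [List.toFinset_card_of_nodup hL, hLl]) L hL rfl t ht hne

end Pool.Agent.H14.CL
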